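import Mathlib

set_option autoImplicit false

namespace Pool.Agent.Lib.helper23.BL

open scoped ENNReal

/-- Real Banach lattices: a complete normed real vector lattice whose norm is solid. -/
class BanachLattice (X : Type) extends NormedAddCommGroup X, Lattice X, NormedSpace ℝ X,
  CompleteSpace X, HasSolidNorm X, IsOrderedAddMonoid X, PosSMulMono ℝ X

/-- The real line. -/
noncomputable instance instReal : BanachLattice ℝ := {}

/-- The sum of two Banach lattices with the coordinatewise order and the maximum norm. -/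
noncomputable instance instProd (X Y : Type) [BanachLattice X] [BanachLattice Y] :
    BanachLattice (X × Y) where
  solid _ _ h := max_le_max (HasSolidNorm.solid h.1) (HasSolidNorm.solid h.2)

/-- The sum, in the sense of the exponent `p`, of a family of Banach lattices. -/
def LpSum {ι : Type} (E : ι → Type) [∀ i, BanachLattice (E i)] (p : ℝ≥0∞) : Type := lp E p

section
variable {ι : Type} (E : ι → Type) [∀ i, BanachLattice (E i)] (p : ℝ≥0∞) [Fact (1 ≤ p)]

noncomputable instance : NormedAddCommGroup (LpSum E p) :=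
  (inferInstance : NormedAddCommGroup (lp E p))

noncomputable instance : NormedSpace ℝ (LpSum E p) := (inferInstance : NormedSpace ℝ (lp E p))

/-- The coordinatewise lattice structure. -/
noncomputable instance : Lattice (LpSum E p) :=
  Subtype.lattice (α := ∀ i, E i) (P := fun f => Memℓp f p)
    (fun _ _ hf hg => (hf.norm.add hg.norm).mono fun _ => norm_sup_le_add _ _)
    (fun _ _ hf hg => (hf.norm.add hg.norm).mono fun _ => norm_inf_le_add _ _)

noncomputable instance instLpSum : BanachLattice (LpSum E p) where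
  complete := (inferInstance : CompleteSpace (lp E p)).complete
  solid _ _ h := lp.norm_mono (zero_lt_one.trans_le Fact.out).ne' fun i => HasSolidNorm.solid (h i)
  add_le_add_left _ _ h _ i := add_le_add_left (h i) _
  smul_le_smul_of_nonneg_left _ hc _ _ h i := smul_le_smul_of_nonneg_left (h i) hc

end

/-- The sequence space with exponent one. -/
abbrev EllOne : Type := LpSum (fun _ : ℕ => ℝ) 1

/-- Closed ideals: closed subspaces that are solid. -/
structure ClosedIdeal (X : Type) [BanachLattice X] where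
  sub : Submodule ℝ X
  closed : IsClosed (sub : Set X)
  solid : ∀ a ∈ sub, ∀ b, |b| ≤ |a| → b ∈ sub

variable {X : Type} [BanachLattice X]

/-- The quotient by a closed ideal. -/
def Quo (J : ClosedIdeal X) : Type := X ⧸ J.sub

namespace Quo

variable (J : ClosedIdeal X)

/-- The quotient norm. -/
noncomputable instance : NormedAddCommGroup (Quo J) :=
  haveI := J.closed
  (inferInstance : NormedAddCommGroup (X ⧸ J.sub))

noncomputable instance : NormedSpace ℝ (Quo J) := (inferInstance : NormedSpace ℝ (X ⧸ J.sub))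

/-- The quotient map. -/
noncomputable def mk : X →L[ℝ] Quo J :=
  J.sub.mkQ.mkContinuous 1 fun x => (Submodule.Quotient.norm_mk_le J.sub x).trans_eq (one_mul _).symm

theorem mk_eq {a b : X} : mk J a = mk J b ↔ a - b ∈ J.sub := Submodule.Quotient.eq _

theorem mk_surj : Function.Surjective (mk J) := J.sub.mkQ_surjective

theorem compat (op : X → X → X) (h1 : ∀ a b c, |op a c - op b c| ≤ |a - b|)
    (h2 : ∀ a b, op a b = op b a) (a b : X) (hab : J.sub.quotientRel a b) (c d : X)
    (hcd : J.sub.quotientRel c d) : J.sub.quotientRel (op a c) (op b d) := by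
  rw [Submodule.quotientRel_def] at *
  have := J.sub.add_mem (J.solid _ hab _ (h1 a b c)) (J.solid _ hcd _ (h1 c d b))
  rwa [h2 c b, h2 d b, sub_add_sub_cancel] at this

/-- The supremum of two classes is the class of the supremum of representatives. -/
def sup : Quo J → Quo J → Quo J :=
  Quotient.map₂ (· ⊔ ·) fun a b h c d k => compat J _ abs_sup_sub_sup_le_abs sup_comm a b h c d k

/-- The infimum of two classes is the class of the infimum of representatives. -/
def inf : Quo J → Quo J → Quo J :=
  Quotient.map₂ (· ⊓ ·) fun a b h c d k => compat J _ abs_inf_sub_inf_le_abs inf_comm a b h c d k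

/-- The quotient lattice, ordered by its supremum. -/
instance : Lattice (Quo J) :=
  @Lattice.mk' _ ⟨sup J⟩ ⟨inf J⟩
    (fun a b => Quotient.inductionOn₂ a b fun a b => congrArg (mk J) (sup_comm a b))
    (fun a b c => Quotient.inductionOn₃ a b c fun a b c => congrArg (mk J) (sup_assoc a b c))
    (fun a b => Quotient.inductionOn₂ a b fun a b => congrArg (mk J) (inf_comm a b))
    (fun a b c => Quotient.inductionOn₃ a b c fun a b c => congrArg (mk J) (inf_assoc a b c))
    (fun a b => Quotient.inductionOn₂ a b fun _ _ => congrArg (mk J) sup_inf_self)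
    (fun a b => Quotient.inductionOn₂ a b fun _ _ => congrArg (mk J) inf_sup_self)

theorem mk_sup (a b : X) : mk J (a ⊔ b) = mk J a ⊔ mk J b := rfl

theorem mk_inf (a b : X) : mk J (a ⊓ b) = mk J a ⊓ mk J b := rfl

theorem mk_abs (a : X) : mk J |a| = |mk J a| := rfl

theorem le_iff {a b : Quo J} : a ≤ b ↔ ∃ x y, x ≤ y ∧ mk J x = a ∧ mk J y = b := by
  refine ⟨fun h => ?_, ?_⟩
  · obtain ⟨x, rfl⟩ := mk_surj J a
    obtain ⟨y, rfl⟩ := mk_surj J b
    exact ⟨x, x ⊔ y, le_sup_left, rfl, sup_eq_right.2 h⟩
  · rintro ⟨x, y, h, rfl, rfl⟩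
    rw [← sup_eq_right, ← mk_sup, sup_eq_right.2 h]

noncomputable instance instQuo : BanachLattice (Quo J) where
  complete := (inferInstance : CompleteSpace (X ⧸ J.sub)).complete
  add_le_add_left a b h c := by
    obtain ⟨x, y, k, rfl, rfl⟩ := (le_iff J).1 h
    obtain ⟨z, rfl⟩ := mk_surj J c
    exact (le_iff J).2 ⟨x + z, y + z, add_le_add_left k z, rfl, rfl⟩
  smul_le_smul_of_nonneg_left c hc a b h := by
    obtain ⟨x, y, k, rfl, rfl⟩ := (le_iff J).1 h
    exact (le_iff J).2 ⟨c • x, c • y, smul_le_smul_of_nonneg_left k hc, rfl, rfl⟩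
  solid a b h := by
    refine le_of_forall_pos_lt_add fun ε hε => ?_
    obtain ⟨y, rfl, hy⟩ := Submodule.Quotient.norm_mk_lt b hε
    obtain ⟨x, rfl⟩ := mk_surj J a
    have h1 : mk J ((x ⊓ |y|) ⊔ -|y|) = mk J x := by
      have h2 : mk J x ≤ |mk J y| ∧ -mk J x ≤ |mk J y| := abs_le'.1 h
      have h3 : -|mk J y| ≤ mk J x := by
        obtain ⟨u, v, huv, hu, hv⟩ := (le_iff J).1 h2.2
        refine (le_iff J).2 ⟨-v, -u, neg_le_neg huv, ?_, ?_⟩
        · rw [map_neg, hv]
        · rw [map_neg, hu, neg_neg]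
      change (mk J x ⊓ |mk J y|) ⊔ -|mk J y| = mk J x
      rw [inf_eq_left.2 h2.1, sup_eq_left.2 h3]
    rw [← h1]
    refine lt_of_le_of_lt ((Submodule.Quotient.norm_mk_le J.sub _).trans ?_) hy
    refine HasSolidNorm.solid (abs_le'.2 ⟨sup_le inf_le_right ?_, neg_le.1 le_sup_right⟩)
    exact (neg_nonpos.2 (abs_nonneg y)).trans (abs_nonneg y)

/-- The canonical surjection between the quotients by two nested ideals. -/
def factor {I J : ClosedIdeal X} (h : I.sub ≤ J.sub) : Quo I →ₗ[ℝ] Quo J := Submodule.factor h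

end Quo

/-- Lattice homomorphisms: bounded linear maps commuting with the absolute value. -/
def IsHom {X Y : Type} [BanachLattice X] [BanachLattice Y] (T : X →L[ℝ] Y) : Prop :=
  ∀ x, T |x| = |T x|

/-- Projective Banach lattices, in the isometric sense. -/
def Projective (P : Type) [BanachLattice P] : Prop :=
  ∀ (X : Type) [BanachLattice X] (J : ClosedIdeal X) (T : P →L[ℝ] Quo J), IsHom T →
    ∀ ε : ℝ, 0 < ε → ∃ S : P →L[ℝ] X, IsHom S ∧ (∀ x, Quo.mk J (S x) = T x) ∧ ‖S‖ ≤ (1 + ε) * ‖T‖

/-- A topological order unit: a positive element lying in no proper closed ideal. -/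
def IsTopUnit {X : Type} [BanachLattice X] (e : X) : Prop :=
  0 ≤ e ∧ ∀ J : ClosedIdeal X, e ∈ J.sub → J.sub = ⊤

/-- Semiprojective Banach lattices. -/
def Semiprojective (A : Type) [BanachLattice A] : Prop :=
  ∀ (B : Type) [BanachLattice B] [TopologicalSpace.SeparableSpace B] (I : ℕ → ClosedIdeal B)
    (J : ClosedIdeal B) (hJ : ∀ n, (I n).sub ≤ J.sub), (Monotone fun n => (I n).sub) →
    (J.sub : Set B) = closure (⋃ n, ((I n).sub : Set B)) →
    ∀ φ : A →L[ℝ] Quo J, IsHom φ → ‖φ‖ ≤ 1 → ∃ n, ∀ ε : ℝ, 0 < ε →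
      ∃ ψ : A →L[ℝ] Quo (I n), IsHom ψ ∧ ‖ψ‖ ≤ 1 + ε ∧ ∀ a, Quo.factor (hJ n) (ψ a) = φ a

end Pool.Agent.Lib.helper23.BL
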