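import Mathlib
import Pool.Agent.Lib.helper23.BLDef

set_option autoImplicit false

namespace Pool.Agent.Lib.helper23.BL

section VL

variable {V : Type} [AddCommGroup V] [Lattice V] [IsOrderedAddMonoid V] [Module ℝ V]
  [PosSMulMono ℝ V]

omit [IsOrderedAddMonoid V] in
theorem smul_sup' {c : ℝ} (hc : 0 ≤ c) (a b : V) : c • (a ⊔ b) = c • a ⊔ c • b := by
  rcases hc.eq_or_lt with rfl | h
  · simp
  refine le_antisymm ?_ (sup_le (smul_le_smul_of_nonneg_left le_sup_left hc)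
    (smul_le_smul_of_nonneg_left le_sup_right hc))
  have h1 : a ⊔ b ≤ c⁻¹ • (c • a ⊔ c • b) := by
    refine sup_le ?_ ?_
    · have := smul_le_smul_of_nonneg_left (le_sup_left : c • a ≤ c • a ⊔ c • b) (inv_nonneg.2 hc)
      rwa [inv_smul_smul₀ h.ne'] at this
    · have := smul_le_smul_of_nonneg_left (le_sup_right : c • b ≤ c • a ⊔ c • b) (inv_nonneg.2 hc)
      rwa [inv_smul_smul₀ h.ne'] at this
  have := smul_le_smul_of_nonneg_left h1 hc
  rwa [smul_inv_smul₀ h.ne'] at this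

theorem smul_nonneg' {c : ℝ} (hc : 0 ≤ c) {a : V} (ha : 0 ≤ a) : 0 ≤ c • a := by
  simpa using smul_le_smul_of_nonneg_left ha hc

theorem smul_mono' {c d : ℝ} (h : c ≤ d) {a : V} (ha : 0 ≤ a) : c • a ≤ d • a := by
  rw [← sub_nonneg, ← sub_smul]
  exact smul_nonneg' (sub_nonneg.2 h) ha

theorem abs_smul' (c : ℝ) (a : V) : |c • a| = |c| • |a| := by
  have k : ∀ d : ℝ, 0 ≤ d → |d • a| = d • |a| := fun d hd => by
    rw [abs, abs, smul_sup' hd, smul_neg]
  rcases le_total 0 c with h | h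
  · rw [k c h, abs_of_nonneg h]
  · rw [← abs_neg, ← neg_smul, k _ (neg_nonneg.2 h), abs_of_nonpos h]

/-- Sublinear functionals preserving suprema. -/
structure SL (p : V → ℝ) : Prop where
  add : ∀ a b, p (a + b) ≤ p a + p b
  smul : ∀ c : ℝ, 0 < c → ∀ a, p (c • a) ≤ c * p a
  zero : p 0 = 0
  sup : ∀ a b, p (a ⊔ b) = max (p a) (p b)

omit [IsOrderedAddMonoid V] [PosSMulMono ℝ V] in
theorem SL.smul_eq {p : V → ℝ} (h : SL p) {c : ℝ} (hc : 0 ≤ c) (a : V) : p (c • a) = c * p a := by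
  rcases hc.eq_or_lt with rfl | hc
  · simp [h.zero]
  refine le_antisymm (h.smul c hc a) ?_
  have := h.smul c⁻¹ (inv_pos.2 hc) (c • a)
  rw [inv_smul_smul₀ hc.ne'] at this
  rwa [le_inv_mul_iff₀ hc] at this

omit [IsOrderedAddMonoid V] [PosSMulMono ℝ V] in
theorem SL.lower {p : V → ℝ} (h : SL p) (a : V) : -p (-a) ≤ p a := by
  have := h.add a (-a)
  rw [add_neg_cancel, h.zero] at this
  linarith

omit [IsOrderedAddMonoid V] [PosSMulMono ℝ V] in
theorem SL.iInf {I : Type} [Nonempty I] (q : I → V → ℝ) (hb : ∀ x, BddBelow (Set.range fun i => q i x))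
    (h1 : ∀ i j, ∃ k, ∀ x y, q k (x + y) ≤ q i x + q j y)
    (h2 : ∀ i (c : ℝ), 0 < c → ∃ k, ∀ x, q k (c • x) ≤ c * q i x)
    (h3 : ∀ i j, ∃ k, ∀ x, q k x ≤ q i x ∧ q k x ≤ q j x)
    (h4 : ∀ i a b, q i (a ⊔ b) = max (q i a) (q i b)) (h5 : ∀ i, q i 0 = 0) :
    SL fun x => ⨅ i, q i x := by
  refine ⟨fun a b => ?_, fun c hc a => ?_, by simp [h5], fun a b => le_antisymm ?_ ?_⟩
  · refine le_ciInf_add_ciInf fun i j => ?_
    obtain ⟨k, hk⟩ := h1 i j
    exact (ciInf_le (hb _) k).trans (hk a b)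
  · rw [← inv_mul_le_iff₀ hc]
    refine le_ciInf fun i => ?_
    obtain ⟨k, hk⟩ := h2 i c hc
    rw [inv_mul_le_iff₀ hc]
    exact (ciInf_le (hb _) k).trans (hk a)
  · refine le_of_forall_gt_imp_ge_of_dense fun r hr => ?_
    obtain ⟨i, hi⟩ := exists_lt_of_ciInf_lt (max_lt_iff.1 hr).1
    obtain ⟨j, hj⟩ := exists_lt_of_ciInf_lt (max_lt_iff.1 hr).2
    obtain ⟨k, hk⟩ := h3 i j
    refine (ciInf_le (hb _) k).trans ?_
    rw [h4]
    exact max_le ((hk a).1.trans hi.le) ((hk b).2.trans hj.le)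
  · refine max_le (ciInf_mono (hb _) fun i => ?_) (ciInf_mono (hb _) fun i => ?_)
    · rw [h4]
      exact le_max_left _ _
    · rw [h4]
      exact le_max_right _ _

omit [PosSMulMono ℝ V] in
theorem SL.shift {p : V → ℝ} (h : SL p) (a : V) :
    ∃ q, SL q ∧ (∀ x, q x ≤ p x) ∧ q (-a) ≤ -p a := by
  let q : {t : ℝ // 0 ≤ t} → V → ℝ := fun t x => p (x + t.1 • a) - t.1 * p a
  have hb : ∀ x, BddBelow (Set.range fun i => q i x) := fun x => ⟨-p (-x), by
    rintro _ ⟨t, rfl⟩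
    have := h.add (x + t.1 • a) (-x)
    rw [add_neg_cancel_comm, h.smul_eq t.2] at this
    simp only [q]
    linarith⟩
  have mono : ∀ s t : {t : ℝ // 0 ≤ t}, ∀ x, q ⟨s.1 + t.1, add_nonneg s.2 t.2⟩ x ≤ q s x := by
    intro s t x
    have := h.add (x + s.1 • a) (t.1 • a)
    rw [h.smul_eq t.2, add_assoc, ← add_smul] at this
    simp only [q]
    linarith
  refine ⟨fun x => ⨅ i, q i x, SL.iInf q hb (fun s t => ⟨⟨s.1 + t.1, add_nonneg s.2 t.2⟩, fun x y => ?_⟩)
    (fun t c hc => ⟨⟨c * t.1, mul_nonneg hc.le t.2⟩, fun x => ?_⟩)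
    (fun s t => ⟨⟨s.1 + t.1, add_nonneg s.2 t.2⟩, fun x => ⟨mono s t x, ?_⟩⟩) (fun t x y => ?_)
    (fun t => ?_), fun x => ?_, ?_⟩
  · have := h.add (x + s.1 • a) (y + t.1 • a)
    rw [add_add_add_comm, ← add_smul] at this
    simp only [q]
    linarith
  · have := h.smul c hc (x + t.1 • a)
    rw [smul_add, smul_smul] at this
    simp only [q]
    linarith
  · have := mono t s x
    simp only [q, add_comm t.1 s.1] at this ⊢
    exact this
  · simp only [q, sup_add, h.sup, max_sub_sub_right]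
  · change p (0 + t.1 • a) - t.1 * p a = 0
    rw [zero_add, h.smul_eq t.2, sub_self]
  · refine (ciInf_le (hb x) ⟨0, le_rfl⟩).trans ?_
    change p (x + (0 : ℝ) • a) - 0 * p a ≤ p x
    simp
  · refine (ciInf_le (hb _) ⟨1, zero_le_one⟩).trans ?_
    change p (-a + (1 : ℝ) • a) - 1 * p a ≤ -p a
    simp [h.zero]

omit [PosSMulMono ℝ V] in
theorem SL.exists_linear {p : V → ℝ} (h : SL p) :
    ∃ φ : V →ₗ[ℝ] ℝ, (∀ a b, φ (a ⊔ b) = max (φ a) (φ b)) ∧ ∀ x, φ x ≤ p x := by
  obtain ⟨m, -, hm⟩ := zorn_le_nonempty₀ (α := (V → ℝ)ᵒᵈ) {q | SL (OrderDual.ofDual q) ∧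
      OrderDual.ofDual q ≤ p} (fun c hc hch y hy => by
    haveI : Nonempty c := ⟨⟨y, hy⟩⟩
    have hb : ∀ x, BddBelow (Set.range fun i : c => OrderDual.ofDual i.1 x) := fun x =>
      ⟨-p (-x), by
        rintro _ ⟨i, rfl⟩
        exact (neg_le_neg ((hc i.2).2 (-x))).trans ((hc i.2).1.lower x)⟩
    have dir : ∀ i j : c, ∃ k : c, ∀ x, OrderDual.ofDual k.1 x ≤ OrderDual.ofDual i.1 x ∧
        OrderDual.ofDual k.1 x ≤ OrderDual.ofDual j.1 x := fun i j => by
      rcases hch.total i.2 j.2 with h1 | h1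
      · exact ⟨j, fun x => ⟨h1 x, le_rfl⟩⟩
      · exact ⟨i, fun x => ⟨le_rfl, h1 x⟩⟩
    refine ⟨OrderDual.toDual fun x => ⨅ i : c, OrderDual.ofDual i.1 x, ⟨SL.iInf _ hb (fun i j => ?_)
      (fun i t ht => ⟨i, (hc i.2).1.smul t ht⟩) dir (fun i => (hc i.2).1.sup)
      (fun i => (hc i.2).1.zero), fun x => (ciInf_le (hb x) ⟨y, hy⟩).trans ((hc hy).2 x)⟩,
      fun z hz x => ciInf_le (hb x) ⟨z, hz⟩⟩
    obtain ⟨k, hk⟩ := dir i j
    exact ⟨k, fun x y => ((hc k.2).1.add x y).trans (add_le_add (hk x).1 (hk y).2)⟩)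
    (OrderDual.toDual p) ⟨h, le_rfl⟩
  have hs : SL (OrderDual.ofDual m) := hm.prop.1
  have hn : ∀ a, OrderDual.ofDual m (-a) = -OrderDual.ofDual m a := fun a => by
    obtain ⟨q, h1, h2, h3⟩ := hs.shift a
    have h4 := hm.le_of_ge (y := OrderDual.toDual q) ⟨h1, fun x => (h2 x).trans (hm.prop.2 x)⟩ h2
    have h5 : OrderDual.ofDual m (-a) ≤ q (-a) := h4 (-a)
    have h6 := hs.lower a
    linarith
  refine ⟨⟨⟨OrderDual.ofDual m, fun a b => le_antisymm (hs.add a b) ?_⟩, fun c a => ?_⟩, hs.sup,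
    hm.prop.2⟩
  · have := hs.add (-a) (-b)
    rw [← neg_add, hn, hn, hn] at this
    linarith
  · rcases le_total 0 c with hc | hc
    · exact hs.smul_eq hc a
    · have := hs.smul_eq (neg_nonneg.2 hc) a
      rw [neg_smul, hn] at this
      simp only [RingHom.id_apply, smul_eq_mul]
      linarith

theorem exists_hom {e : V} (he0 : 0 ≤ e) (he : ∀ x : V, ∃ c : ℝ, 0 ≤ c ∧ x ≤ c • e) (v : V) :
    ∃ φ : V →ₗ[ℝ] ℝ, (∀ a b, φ (a ⊔ b) = max (φ a) (φ b)) ∧ φ e ≤ 1 ∧
      ∀ c, φ v < c → v ≤ c • e := by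
  let p : V → ℝ := fun x => sInf {c : ℝ | 0 ≤ c ∧ x ≤ c • e}
  have hb : ∀ x : V, BddBelow {c : ℝ | 0 ≤ c ∧ x ≤ c • e} := fun x => ⟨0, fun _ h => h.1⟩
  have hle : ∀ x (c : ℝ), 0 ≤ c → x ≤ c • e → p x ≤ c := fun x c h1 h2 => csInf_le (hb x) ⟨h1, h2⟩
  have hlt : ∀ x (c : ℝ), p x < c → x ≤ c • e := fun x c h => by
    obtain ⟨d, hd, hdc⟩ := exists_lt_of_csInf_lt (he x) h
    exact hd.2.trans (smul_mono' hdc.le he0)
  have h0 : ∀ x, 0 ≤ p x := fun x => le_csInf (he x) fun _ h => h.1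
  have hp : SL p := by
    refine ⟨fun a b => ?_, fun c hc a => ?_, le_antisymm (hle 0 0 le_rfl (by simp)) (h0 0),
      fun a b => le_antisymm ?_ (max_le ?_ ?_)⟩
    · refine le_of_forall_pos_le_add fun ε hε => hle _ _ (by linarith [h0 a, h0 b]) ?_
      have := add_le_add (hlt a (p a + ε / 2) (by linarith)) (hlt b (p b + ε / 2) (by linarith))
      rw [← add_smul] at this
      exact this.trans (smul_mono' (by linarith) he0)
    · rw [← inv_mul_le_iff₀ hc]
      refine le_of_forall_gt_imp_ge_of_dense fun r hr => ?_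
      rw [inv_mul_le_iff₀ hc]
      refine hle _ _ (mul_nonneg hc.le ((h0 a).trans hr.le)) ?_
      rw [mul_smul]
      exact smul_le_smul_of_nonneg_left (hlt a r hr) hc.le
    · refine le_of_forall_gt_imp_ge_of_dense fun r hr => ?_
      exact hle _ _ ((h0 a).trans (max_lt_iff.1 hr).1.le)
        (sup_le (hlt a r (max_lt_iff.1 hr).1) (hlt b r (max_lt_iff.1 hr).2))
    · exact le_of_forall_gt_imp_ge_of_dense fun r hr =>
        hle _ _ ((h0 _).trans hr.le) (le_sup_left.trans (hlt _ r hr))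
    · exact le_of_forall_gt_imp_ge_of_dense fun r hr =>
        hle _ _ ((h0 _).trans hr.le) (le_sup_right.trans (hlt _ r hr))
  obtain ⟨q, h1, h2, h3⟩ := hp.shift v
  obtain ⟨φ, h4, h5⟩ := h1.exists_linear
  refine ⟨φ, h4, (h5 e).trans ((h2 e).trans (hle e 1 zero_le_one (by simp))), fun c hc => hlt v c ?_⟩
  have := (h5 (-v)).trans h3
  rw [map_neg] at this
  linarith

end VL

/-- Lattice-linear terms. -/
inductive Tm (ι : Type) : Type
  | var (i : ι) : Tm ι
  | zero : Tm ι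
  | add (s t : Tm ι) : Tm ι
  | smul (c : ℝ) (t : Tm ι) : Tm ι
  | sup (s t : Tm ι) : Tm ι
  | inf (s t : Tm ι) : Tm ι

namespace Tm

variable {ι κ : Type}

/-- Evaluation of a term. -/
def eval {V : Type} [AddCommGroup V] [Lattice V] [Module ℝ V] (x : ι → V) : Tm ι → V
  | var i => x i
  | zero => 0
  | add s t => eval x s + eval x t
  | smul c t => c • eval x t
  | sup s t => eval x s ⊔ eval x t
  | inf s t => eval x s ⊓ eval x t

/-- The variables of a term. -/
def vars : Tm ι → Set ι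
  | var i => {i}
  | zero => ∅
  | add s t => vars s ∪ vars t
  | smul _ t => vars t
  | sup s t => vars s ∪ vars t
  | inf s t => vars s ∪ vars t

/-- Substitution. -/
def bind (f : ι → Tm κ) : Tm ι → Tm κ
  | var i => f i
  | zero => zero
  | add s t => add (bind f s) (bind f t)
  | smul c t => smul c (bind f t)
  | sup s t => sup (bind f s) (bind f t)
  | inf s t => inf (bind f s) (bind f t)

/-- Difference of terms. -/
def sub (s t : Tm ι) : Tm ι := add s (smul (-1) t)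

/-- Absolute value of a term. -/
def abs (t : Tm ι) : Tm ι := sup t (smul (-1) t)

/-- Finite sums of terms. -/
def sum : List (Tm ι) → Tm ι
  | [] => zero
  | s :: l => add s (sum l)

theorem vars_finite (t : Tm ι) : t.vars.Finite := by
  induction t with
  | var i => exact Set.finite_singleton i
  | zero => exact Set.finite_empty
  | add s t h k => exact h.union k
  | smul c t h => exact h
  | sup s t h k => exact h.union k
  | inf s t h k => exact h.union k

variable {V W : Type} [AddCommGroup V] [Lattice V] [Module ℝ V] [AddCommGroup W] [Lattice W]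
  [Module ℝ W]

@[simp] theorem eval_var (x : ι → V) (i : ι) : eval x (var i) = x i := rfl
@[simp] theorem eval_zero (x : ι → V) : eval x zero = 0 := rfl
@[simp] theorem eval_add (x : ι → V) (s t : Tm ι) : eval x (add s t) = eval x s + eval x t := rfl
@[simp] theorem eval_smul (x : ι → V) (c : ℝ) (t : Tm ι) : eval x (smul c t) = c • eval x t := rfl
@[simp] theorem eval_sup (x : ι → V) (s t : Tm ι) : eval x (sup s t) = eval x s ⊔ eval x t := rfl
@[simp] theorem eval_inf (x : ι → V) (s t : Tm ι) : eval x (inf s t) = eval x s ⊓ eval x t := rfl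

@[simp] theorem eval_sub (x : ι → V) (s t : Tm ι) : eval x (sub s t) = eval x s - eval x t := by
  simp [sub, sub_eq_add_neg]

@[simp] theorem eval_abs (x : ι → V) (t : Tm ι) : eval x (abs t) = |eval x t| := by
  simp only [abs, eval_sup, eval_smul, neg_smul, one_smul]
  rfl

@[simp] theorem eval_sum (x : ι → V) (l : List (Tm ι)) : eval x (sum l) = (l.map (eval x)).sum := by
  induction l with
  | nil => rfl
  | cons s l h => simp [sum, h]

@[simp] theorem eval_bind (x : κ → V) (f : ι → Tm κ) (t : Tm ι) :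
    eval x (bind f t) = eval (fun i => eval x (f i)) t := by
  induction t <;> simp_all [bind]

theorem eval_congr {x y : ι → V} {t : Tm ι} (h : ∀ i ∈ t.vars, x i = y i) : eval x t = eval y t := by
  induction t with
  | var i => exact h i rfl
  | zero => rfl
  | add s t h1 h2 => simp [h1 fun i hi => h i (Or.inl hi), h2 fun i hi => h i (Or.inr hi)]
  | smul c t h1 => simp [h1 h]
  | sup s t h1 h2 => simp [h1 fun i hi => h i (Or.inl hi), h2 fun i hi => h i (Or.inr hi)]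
  | inf s t h1 h2 => simp [h1 fun i hi => h i (Or.inl hi), h2 fun i hi => h i (Or.inr hi)]

theorem map_eval (φ : V →ₗ[ℝ] W) (h1 : ∀ a b, φ (a ⊔ b) = φ a ⊔ φ b)
    (h2 : ∀ a b, φ (a ⊓ b) = φ a ⊓ φ b) (x : ι → V) (t : Tm ι) :
    φ (eval x t) = eval (fun i => φ (x i)) t := by
  induction t <;> simp_all

end Tm

section
variable {V W : Type} [AddCommGroup V] [Lattice V] [IsOrderedAddMonoid V] [Module ℝ V]
  [AddCommGroup W] [Lattice W] [IsOrderedAddMonoid W] [Module ℝ W]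

theorem map_inf_of_sup (φ : V →ₗ[ℝ] W) (h : ∀ a b, φ (a ⊔ b) = φ a ⊔ φ b) (a b : V) :
    φ (a ⊓ b) = φ a ⊓ φ b := by
  have := h (-a) (-b)
  rw [← neg_inf, map_neg, map_neg, map_neg, ← neg_inf] at this
  exact neg_injective this

theorem map_sup_of_abs (φ : V →ₗ[ℝ] W) (h : ∀ a, φ |a| = |φ a|) (a b : V) :
    φ (a ⊔ b) = φ a ⊔ φ b := by
  have h1 : (2 : ℝ) • φ (a ⊔ b) = (2 : ℝ) • (φ a ⊔ φ b) := by
    rw [← map_smul, two_smul, two_smul, ← two_nsmul, ← two_nsmul, two_nsmul_sup_eq_add_add_abs_sub,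
      two_nsmul_sup_eq_add_add_abs_sub, map_add, map_add, h, map_sub]
  exact smul_right_injective W two_ne_zero h1

end

variable {X : Type} [BanachLattice X]

/-- The principal ideal generated by a positive element. -/
def Xe (e : X) (he : 0 ≤ e) : Submodule ℝ X where
  carrier := {x | ∃ c : ℝ, 0 ≤ c ∧ |x| ≤ c • e}
  zero_mem' := ⟨0, le_rfl, by simp⟩
  add_mem' := fun ⟨c, hc, h⟩ ⟨d, hd, k⟩ =>
    ⟨c + d, add_nonneg hc hd, (abs_add_le _ _).trans (by rw [add_smul]; exact add_le_add h k)⟩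
  smul_mem' := fun a _ ⟨c, hc, h⟩ => ⟨|a| * c, mul_nonneg (abs_nonneg _) hc, by
    rw [abs_smul', mul_smul]
    exact smul_le_smul_of_nonneg_left h (abs_nonneg _)⟩

theorem abs_sup_le (a b : X) : |a ⊔ b| ≤ |a| + |b| :=
  abs_le'.2 ⟨sup_le ((le_abs_self a).trans (le_add_of_nonneg_right (abs_nonneg b)))
    ((le_abs_self b).trans (le_add_of_nonneg_left (abs_nonneg a))),
    (neg_le_neg le_sup_left).trans ((neg_le_abs a).trans (le_add_of_nonneg_right (abs_nonneg b)))⟩

theorem abs_inf_le (a b : X) : |a ⊓ b| ≤ |a| + |b| := by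
  have := abs_sup_le (-a) (-b)
  rwa [← neg_inf, abs_neg, abs_neg, abs_neg] at this

theorem Xe_of_le {e : X} {he : 0 ≤ e} {a b c : X} (ha : a ∈ Xe e he) (hb : b ∈ Xe e he)
    (h : |c| ≤ |a| + |b|) : c ∈ Xe e he := by
  obtain ⟨s, hs, h1⟩ := ha
  obtain ⟨t, ht, h2⟩ := hb
  exact ⟨s + t, add_nonneg hs ht, h.trans (by rw [add_smul]; exact add_le_add h1 h2)⟩

noncomputable instance (e : X) (he : 0 ≤ e) : Lattice (Xe e he) :=
  Subtype.lattice (fun _ _ ha hb => Xe_of_le ha hb (abs_sup_le _ _))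
    (fun _ _ ha hb => Xe_of_le ha hb (abs_inf_le _ _))

instance (e : X) (he : 0 ≤ e) : IsOrderedAddMonoid (Xe e he) :=
  ⟨fun _ _ h c => add_le_add_left (α := X) h c.1, fun _ _ h c => add_le_add_right (α := X) h c.1⟩

instance (e : X) (he : 0 ≤ e) : PosSMulMono ℝ (Xe e he) :=
  ⟨fun _ hc _ _ h => smul_le_smul_of_nonneg_left (β := X) h hc⟩

theorem le_zero_of_forall {v e : X} (h : ∀ c : ℝ, 0 < c → v ≤ c • e) : v ≤ 0 := by
  have h1 : Filter.Tendsto (fun c : ℝ => c • e) (nhdsWithin 0 (Set.Ioi 0)) (nhds 0) := by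
    have : Filter.Tendsto (fun c : ℝ => c • e) (nhds 0) (nhds ((0 : ℝ) • e)) :=
      (continuous_id.smul continuous_const).tendsto 0
    rw [zero_smul] at this
    exact this.mono_left nhdsWithin_le_nhds
  exact ge_of_tendsto h1 (eventually_nhdsWithin_of_forall h)

/-- Inequalities between terms that hold in the real line hold in every Banach lattice. -/
theorem yudin {ι : Type} (x : ι → X) (s t : Tm ι)
    (h : ∀ z : ι → ℝ, s.eval z ≤ t.eval z) : s.eval x ≤ t.eval x := by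
  classical
  let G := (s.vars_finite.union t.vars_finite).toFinset
  have he : 0 ≤ ∑ i ∈ G, |x i| := Finset.sum_nonneg fun i _ => abs_nonneg _
  let y : ι → Xe _ he := fun i => if hi : i ∈ G then ⟨x i, 1, zero_le_one, by
    rw [one_smul]
    exact Finset.single_le_sum (fun j _ => abs_nonneg (x j)) hi⟩ else 0
  have hy : ∀ u : Tm ι, u.vars ⊆ s.vars ∪ t.vars → u.eval x = (u.eval y).1 := fun u hu => by
    refine Eq.trans ?_ (Tm.map_eval (Xe _ he).subtype (fun _ _ => rfl) (fun _ _ => rfl) y u).symm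
    refine Tm.eval_congr fun i hi => ?_
    have : i ∈ G := by simpa [G] using hu hi
    simp [y, this]
  obtain ⟨φ, h1, -, h3⟩ := exists_hom (V := Xe _ he) (e := ⟨∑ i ∈ G, |x i|, 1, zero_le_one,
    ((abs_of_nonneg he).trans (one_smul ℝ _).symm).le⟩) he (fun ⟨a, c, hc, ha⟩ => ⟨c, hc, (le_abs_self a).trans ha⟩)
    (s.eval y - t.eval y)
  rw [hy s Set.subset_union_left, hy t Set.subset_union_right, ← sub_nonpos]
  refine le_zero_of_forall fun c hc => h3 c (lt_of_le_of_lt ?_ hc)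
  rw [map_sub, Tm.map_eval φ h1 (map_inf_of_sup φ h1), Tm.map_eval φ h1 (map_inf_of_sup φ h1),
    sub_nonpos]
  exact h _

theorem yudin_eq {ι : Type} (x : ι → X) (s t : Tm ι)
    (h : ∀ z : ι → ℝ, s.eval z = t.eval z) : s.eval x = t.eval x :=
  le_antisymm (yudin x s t fun z => (h z).le) (yudin x t s fun z => (h z).ge)

end Pool.Agent.Lib.helper23.BL
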