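import Mathlib
import Pool.Agent.Lib.helper23.BLA

set_option autoImplicit false

namespace Pool.Agent.Lib.helper23.BL

/-- Closed sublattices. -/
structure ClosedSub (X : Type) [BanachLattice X] where
  sub : Submodule ℝ X
  closed : IsClosed (sub : Set X)
  sup_mem : ∀ a ∈ sub, ∀ b ∈ sub, a ⊔ b ∈ sub
  inf_mem : ∀ a ∈ sub, ∀ b ∈ sub, a ⊓ b ∈ sub

variable {X : Type} [BanachLattice X]

/-- A closed sublattice as a type. -/
def ClosedSub.Carrier (L : ClosedSub X) : Type := L.sub

namespace ClosedSub

variable (L : ClosedSub X)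

noncomputable instance : NormedAddCommGroup L.Carrier := (inferInstance : NormedAddCommGroup L.sub)

noncomputable instance : NormedSpace ℝ L.Carrier := (inferInstance : NormedSpace ℝ L.sub)

/-- The induced lattice structure. -/
noncomputable instance : Lattice L.Carrier :=
  Subtype.lattice (P := fun x => x ∈ L.sub) (fun a b ha hb => L.sup_mem a ha b hb)
    (fun a b ha hb => L.inf_mem a ha b hb)

/-- A closed sublattice with the induced norm and order. -/
noncomputable instance inst : BanachLattice L.Carrier where
  complete := L.closed.completeSpace_coe.complete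
  solid a b h := HasSolidNorm.solid (α := X) (show |a.1| ≤ |b.1| from h)
  add_le_add_left a b h c := add_le_add_left (show a.1 ≤ b.1 from h) c.1
  smul_le_smul_of_nonneg_left _ hc a b h := 
    smul_le_smul_of_nonneg_left (β := X) (show a.1 ≤ b.1 from h) hc

end ClosedSub

theorem ClosedIdeal.mem_of_le (J : ClosedIdeal X) {a b c : X} (ha : a ∈ J.sub) (hb : b ∈ J.sub)
    (h : |c| ≤ |a| + |b|) : c ∈ J.sub :=
  J.solid _ (J.sub.add_mem (J.solid a ha |a| (abs_abs a).le) (J.solid b hb |b| (abs_abs b).le)) c
    (h.trans (le_abs_self _))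

/-- A closed ideal is a closed sublattice. -/
def ClosedIdeal.toSub (J : ClosedIdeal X) : ClosedSub X where
  sub := J.sub
  closed := J.closed
  sup_mem a ha b hb := J.mem_of_le ha hb (abs_sup_le a b)
  inf_mem a ha b hb := J.mem_of_le ha hb (abs_inf_le a b)

end Pool.Agent.Lib.helper23.BL
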