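import Mathlib

set_option autoImplicit false

namespace Pool.Agent.Lib.helper23.Eke

open Filter Topology

universe u v

theorem ekeland {X : Type u} [MetricSpace X] [CompleteSpace X] (ψ : X → ℝ) (hψ : Continuous ψ)
    {B : ℝ} (hB : ∀ v, ψ v ≤ B) (x : X) {k : ℝ} (hk : 0 < k) :
    ∃ y, k * dist y x ≤ ψ y - ψ x ∧ ∀ v, ψ v - k * dist v y ≤ ψ y := by
  let S : X → Set X := fun z => {v | k * dist v z ≤ ψ v - ψ z}
  have s0 : ∀ z, z ∈ S z := fun z => by simp [S]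
  have s1 : ∀ a b c, b ∈ S a → c ∈ S b → c ∈ S a := fun a b c h1 h2 => by
    have := mul_le_mul_of_nonneg_left (dist_triangle c b a) hk.le
    simp only [S, Set.mem_setOf_eq] at *
    linarith
  have s2 : ∀ (z : X) (n : ℕ), ∃ w ∈ S z, ∀ v ∈ S z, ψ v ≤ ψ w + 1 / (n + 1) := fun z n => by
    obtain ⟨_, ⟨w, hw, rfl⟩, h⟩ := exists_lt_of_lt_csSup (s := ψ '' S z) ⟨_, z, s0 z, rfl⟩
      (sub_lt_self _ (Nat.one_div_pos_of_nat (n := n)))
    exact ⟨w, hw, fun v hv => by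
      linarith [le_csSup (s := ψ '' S z) ⟨B, by rintro _ ⟨a, -, rfl⟩; exact hB a⟩ ⟨v, hv, rfl⟩]⟩
  choose w w1 w2 using s2
  let z : ℕ → X := fun n => n.rec x fun n a => w a n
  have z1 : ∀ n m, n ≤ m → z m ∈ S (z n) := fun n m h => by
    induction h with
    | refl => exact s0 _
    | step _ ih => exact s1 _ _ _ ih (w1 _ _)
  have z2 : CauchySeq fun n => z (n + 1) := cauchySeq_of_le_tendsto_0'
    (fun n : ℕ => k⁻¹ * (1 / ((n : ℝ) + 1))) (fun n m h => by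
      have a1 : k * dist (z (m + 1)) (z (n + 1)) ≤ _ := z1 (n + 1) (m + 1) (by omega)
      have a2 : _ ≤ ψ (z (n + 1)) + _ := w2 (z n) n _ (z1 n (m + 1) (by omega))
      rw [le_inv_mul_iff₀ hk, dist_comm]
      linarith) (by simpa using tendsto_one_div_add_atTop_nhds_zero_nat.const_mul k⁻¹)
  obtain ⟨y, hy⟩ := cauchySeq_tendsto_of_complete z2
  have y1 : ∀ n, y ∈ S (z n) := fun n =>
    (isClosed_le (by fun_prop) (by fun_prop)).mem_of_tendsto hy
      (eventually_atTop.2 ⟨n, fun m h => z1 n (m + 1) (by omega)⟩)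
  refine ⟨y, y1 0, fun v => not_lt.1 fun hv => ?_⟩
  have a1 : v ∈ S y := by simp only [S, Set.mem_setOf_eq]; linarith
  have a2 : ψ v ≤ ψ y + 0 := ge_of_tendsto' (((hψ.tendsto y).comp hy).add
    tendsto_one_div_add_atTop_nhds_zero_nat) fun n => w2 (z n) n v (s1 _ _ _ (y1 n) a1)
  nlinarith [dist_nonneg (x := v) (y := y)]

theorem sandwich {X : Type u} {Y : Type v} [AddCommGroup X] [Module ℝ X] [NormedAddCommGroup Y]
    [NormedSpace ℝ Y] (Φ : Y → ℝ) (h1 : Continuous Φ) (h2 : ConvexOn ℝ Set.univ Φ) (h0 : Φ 0 = 0)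
    (ι : X →ₗ[ℝ] Y) (φ : X →ₗ[ℝ] ℝ) (h : ∀ x, φ x ≤ Φ (ι x)) :
    ∃ Λ : StrongDual ℝ Y, (∀ x, Λ (ι x) = φ x) ∧ ∀ y, Λ y ≤ Φ y := by
  obtain ⟨f, u, f1, f2⟩ := geometric_hahn_banach_open (s := {p : Y × ℝ | Φ p.1 < p.2})
    (t := LinearMap.range (ι.prod φ)) (by simpa using h2.convex_strict_epigraph)
    (isOpen_lt (by fun_prop) continuous_snd) (Submodule.convex _) (Set.disjoint_left.2 (by
      rintro _ hp ⟨x, rfl⟩
      exact absurd hp (not_lt.2 (h x))))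
  have u0 : u ≤ 0 := by simpa using f2 0 (zero_mem _)
  have b0 : f (0, 1) < 0 := (f1 (0, 1) (by simp [h0])).trans_le u0
  have sp : ∀ (y : Y) (t : ℝ), f (y, t) = f (y, 0) + t * f (0, 1) := fun y t => by
    rw [← smul_eq_mul, ← map_smul, ← map_add]; simp
  have f3 : ∀ x, f (ι x, φ x) = 0 := fun x => by
    by_contra hn
    have := f2 _ (Submodule.smul_mem _ ((u - 1) / f (ι x, φ x)) ⟨x, rfl⟩)
    rw [map_smul, smul_eq_mul] at this
    have e : (u - 1) / f (ι x, φ x) * f (ι x, φ x) = u - 1 := div_mul_cancel₀ _ hn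
    exact absurd (this.trans_eq e) (by linarith)
  refine ⟨(-f (0, 1))⁻¹ • f ∘L ContinuousLinearMap.inl ℝ Y ℝ, fun x => ?_, fun y => ?_⟩
  · have := f3 x
    rw [sp] at this
    change (-f (0, 1))⁻¹ * f (ι x, 0) = _
    rw [inv_mul_eq_iff_eq_mul₀ (neg_pos.2 b0).ne']
    linarith
  · refine le_of_forall_pos_le_add fun δ hδ => ?_
    have := f1 (y, Φ y + δ) (by simpa)
    rw [sp] at this
    change (-f (0, 1))⁻¹ * f (y, 0) ≤ _
    rw [inv_mul_le_iff₀ (neg_pos.2 b0)]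
    linarith

end Pool.Agent.Lib.helper23.Eke
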