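import Mathlib
import Pool.Agent.Lib.helper23.BLA

set_option autoImplicit false

namespace Pool.Agent.Lib.helper23.BL

open scoped ENNReal
open Tm

variable {X Y Z : Type} [BanachLattice X] [BanachLattice Y] [BanachLattice Z]

namespace IsHom

variable {T : X →L[ℝ] Y}

theorem map_sup (h : IsHom T) (a b : X) : T (a ⊔ b) = T a ⊔ T b := map_sup_of_abs T.toLinearMap h a b

theorem map_inf (h : IsHom T) (a b : X) : T (a ⊓ b) = T a ⊓ T b :=
  map_inf_of_sup T.toLinearMap h.map_sup a b

theorem mono (h : IsHom T) {a b : X} (hab : a ≤ b) : T a ≤ T b := by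
  rw [← sup_eq_right, ← h.map_sup, sup_eq_right.2 hab]

theorem nonneg (h : IsHom T) {a : X} (ha : 0 ≤ a) : 0 ≤ T a := by simpa using h.mono ha

theorem map_pos (h : IsHom T) (a : X) : T a⁺ = (T a)⁺ := by
  rw [posPart_def, h.map_sup, map_zero, posPart_def]

theorem comp {S : Y →L[ℝ] Z} (hS : IsHom S) (h : IsHom T) : IsHom (S.comp T) := fun x => by
  rw [ContinuousLinearMap.comp_apply, h, hS, ContinuousLinearMap.comp_apply]

theorem eval (h : IsHom T) {ι : Type} (x : ι → X) (t : Tm ι) :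
    T (t.eval x) = t.eval fun i => T (x i) := map_eval T.toLinearMap h.map_sup h.map_inf x t

theorem smul (h : IsHom T) {c : ℝ} (hc : 0 ≤ c) : IsHom (c • T) := fun x => by
  rw [ContinuousLinearMap.smul_apply, ContinuousLinearMap.smul_apply, abs_smul', abs_of_nonneg hc, h]

/-- The kernel of a lattice homomorphism. -/
def ker (h : IsHom T) : ClosedIdeal X where
  sub := LinearMap.ker T.toLinearMap
  closed := T.isClosed_ker
  solid a ha b hb := by
    have h1 := h.mono hb
    rw [h, h, show T a = 0 from ha] at h1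
    exact norm_le_zero_iff.1 (by simpa using HasSolidNorm.solid h1)

end IsHom

theorem isHom_id : IsHom (ContinuousLinearMap.id ℝ X) := fun _ => rfl

theorem isHom_zero : IsHom (0 : X →L[ℝ] Y) := fun _ => by simp

theorem mk_hom (J : ClosedIdeal X) : IsHom (Quo.mk J) := fun _ => rfl

theorem norm_mk_le (J : ClosedIdeal X) (x : X) : ‖Quo.mk J x‖ ≤ ‖x‖ :=
  Submodule.Quotient.norm_mk_le J.sub x

theorem mk_eq_zero {J : ClosedIdeal X} {x : X} : Quo.mk J x = 0 ↔ x ∈ J.sub :=
  Submodule.Quotient.mk_eq_zero _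

theorem exists_lift {J : ClosedIdeal X} (y : Quo J) {r : ℝ} (h : ‖y‖ < r) :
    ∃ x, Quo.mk J x = y ∧ ‖x‖ < r := by
  obtain ⟨x, h1, h2⟩ := Submodule.Quotient.norm_mk_lt y (sub_pos.2 h)
  exact ⟨x, h1, h2.trans_eq (add_sub_cancel _ _)⟩

theorem exists_lift_le {J : ClosedIdeal X} (y : Quo J) {c ε : ℝ} (h : ‖y‖ ≤ c) (hε : 0 < ε) :
    ∃ x, Quo.mk J x = y ∧ ‖x‖ ≤ (1 + ε) * c := by
  rcases ((norm_nonneg _).trans h).eq_or_lt with rfl | hc
  · exact ⟨0, by rw [map_zero, norm_le_zero_iff.1 h], by simp⟩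
  · obtain ⟨x, h1, h2⟩ := exists_lift y (r := (1 + ε) * c) (by nlinarith)
    exact ⟨x, h1, h2.le⟩

theorem exists_lift_pos {J : ClosedIdeal X} {y : Quo J} (hy : 0 ≤ y) {c ε : ℝ} (h : ‖y‖ ≤ c)
    (hε : 0 < ε) : ∃ x, 0 ≤ x ∧ Quo.mk J x = y ∧ ‖x‖ ≤ (1 + ε) * c := by
  obtain ⟨x, h1, h2⟩ := exists_lift_le y h hε
  exact ⟨|x|, abs_nonneg _, by rw [Quo.mk_abs, h1, abs_of_nonneg hy], by rwa [norm_abs_eq_norm]⟩

theorem Projective.semi (h : Projective X) : Semiprojective X := by
  intro B _ _ I J hJ _ _ φ h1 h2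
  refine ⟨0, fun ε hε => ?_⟩
  obtain ⟨S, h3, h4, h5⟩ := h B J φ h1 ε hε
  refine ⟨(Quo.mk (I 0)).comp S, (mk_hom _).comp h3, ?_, h4⟩
  refine ContinuousLinearMap.opNorm_le_bound _ (by linarith) fun x => ?_
  refine (norm_mk_le _ _).trans ((S.le_opNorm x).trans ?_)
  exact mul_le_mul_of_nonneg_right (h5.trans (mul_le_of_le_one_right (by linarith) h2))
    (norm_nonneg _)

theorem cont_abs : Continuous fun a : X => |a| := continuous_id.sup continuous_neg

theorem clamp_abs_le (a b : X) : |((b ⊓ |a|) ⊔ -|a|)| ≤ |a| :=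
  abs_le'.2 ⟨sup_le inf_le_right ((neg_nonpos.2 (abs_nonneg a)).trans (abs_nonneg a)),
    neg_le.1 le_sup_right⟩

theorem clamp_eq {a b : X} (h : |b| ≤ |a|) : (b ⊓ |a|) ⊔ -|a| = b := by
  rw [inf_eq_left.2 (abs_le'.1 h).1, sup_eq_left.2 (neg_le.1 (abs_le'.1 h).2)]

/-- The closure of a solid subspace. -/
def closureIdeal (S : Submodule ℝ X) (h : ∀ a ∈ S, ∀ b, |b| ≤ |a| → b ∈ S) : ClosedIdeal X where
  sub := S.topologicalClosure
  closed := S.isClosed_topologicalClosure
  solid a ha b hb := by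
    have hc : Continuous fun a : X => (b ⊓ |a|) ⊔ -|a| :=
      (continuous_const.inf cont_abs).sup cont_abs.neg
    have := map_mem_closure hc ha (t := S) fun x hx => h x hx _ (clamp_abs_le x b)
    rwa [clamp_eq hb] at this

theorem exists_limit_ideal (I : ℕ → ClosedIdeal X) (hI : Monotone fun n => (I n).sub) :
    ∃ J : ClosedIdeal X, (J.sub : Set X) = closure (⋃ n, ((I n).sub : Set X)) := by
  refine ⟨closureIdeal (⨆ n, (I n).sub) fun a ha b hb => ?_, ?_⟩
  · obtain ⟨n, hn⟩ := (Submodule.mem_iSup_of_directed _ hI.directed_le).1 ha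
    exact Submodule.mem_iSup_of_mem n ((I n).solid a hn b hb)
  · exact congrArg closure (Submodule.coe_iSup_of_directed _ hI.directed_le)

theorem real_projective : Projective ℝ := by
  intro X _ J T hT ε hε
  obtain ⟨x, h0, h1, h2⟩ := exists_lift_pos (hT.nonneg zero_le_one) (c := ‖T‖)
    (by simpa using T.le_opNorm 1) hε
  refine ⟨ContinuousLinearMap.toSpanSingleton ℝ x, fun t => ?_, fun t => ?_, by simpa using h2⟩
  · simp [abs_smul', abs_of_nonneg h0]
  · rw [ContinuousLinearMap.toSpanSingleton_apply, map_smul, h1, ← map_smul, smul_eq_mul, mul_one]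

theorem inf_smul_le (c : ℝ) (a b : X) : |c • a| ⊓ |b| ≤ (|c| + 1) • (|a| ⊓ |b|) := by
  have := yudin ![a, b] (inf (abs (smul c (var 0))) (abs (var 1)))
    (smul (|c| + 1) (inf (abs (var 0)) (abs (var 1)))) fun z => by
      simp only [eval_inf, eval_abs, eval_smul, eval_var, smul_eq_mul, abs_mul]
      have := abs_nonneg c
      have := abs_nonneg (z 0)
      have := abs_nonneg (z 1)
      rcases le_total |z 0| |z 1| with h | h
      · rw [inf_eq_left.2 h]
        exact inf_le_left.trans (by nlinarith)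
      · rw [inf_eq_right.2 h]
        exact inf_le_right.trans (by nlinarith)
  simpa using this

theorem inf_add_le (a b c : X) : |a + b| ⊓ |c| ≤ |a| ⊓ |c| + |b| ⊓ |c| := by
  have := yudin ![a, b, c] (inf (abs (add (var 0) (var 1))) (abs (var 2)))
    (add (inf (abs (var 0)) (abs (var 2))) (inf (abs (var 1)) (abs (var 2)))) fun z => by
      simp only [eval_inf, eval_abs, eval_add, eval_var]
      have := abs_add_le (z 0) (z 1)
      have := abs_nonneg (z 0)
      have := abs_nonneg (z 1)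
      have := abs_nonneg (z 2)
      have h1 := min_le_left |z 0 + z 1| |z 2|
      have h2 := min_le_right |z 0 + z 1| |z 2|
      rcases min_cases |z 0| |z 2| with h | h <;> rcases min_cases |z 1| |z 2| with k | k <;>
        linarith [h.1, h.2, k.1, k.2]
  simpa using this

/-- The disjoint complement of an element. -/
def perp (y : X) : ClosedIdeal X where
  sub :=
    { carrier := {z | |z| ⊓ |y| ≤ 0}
      zero_mem' := by simp
      add_mem' := fun h k => (inf_add_le _ _ _).trans (add_nonpos h k)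
      smul_mem' := fun c z h => (inf_smul_le c z y).trans
        (by simpa using smul_le_smul_of_nonneg_left h (by positivity : 0 ≤ |c| + 1)) }
  closed := isClosed_le (cont_abs.inf continuous_const) continuous_const
  solid _ h _ k := (inf_le_inf_right _ k).trans h

theorem mem_perp {y z : X} : z ∈ (perp y).sub ↔ |z| ⊓ |y| ≤ 0 := Iff.rfl

theorem perp_symm {y z : X} (h : z ∈ (perp y).sub) : y ∈ (perp z).sub := by
  rwa [mem_perp, inf_comm]

theorem mem_of_hasSum (J : ClosedIdeal X) {ι : Type} {f : ι → X} {s : X} (h : HasSum f s)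
    (hf : ∀ i, f i ∈ J.sub) : s ∈ J.sub :=
  J.closed.mem_of_tendsto h (Filter.Eventually.of_forall fun _ => J.sub.sum_mem fun i _ => hf i)

theorem abs_sub_of_perp {a b : X} (ha : 0 ≤ a) (hb : 0 ≤ b) (h : a ∈ (perp b).sub) :
    |a - b| = a + b := by
  rw [mem_perp, abs_of_nonneg ha, abs_of_nonneg hb] at h
  have h1 := le_antisymm h (le_inf ha hb)
  rw [abs_sub_comm, ← sup_sub_inf_eq_abs_sub, ← inf_add_sup a b, h1]
  simp

theorem pos_sub_of_perp {a b : X} (ha : 0 ≤ a) (hb : 0 ≤ b) (h : a ∈ (perp b).sub) :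
    (a - b)⁺ = a := by
  rw [mem_perp, abs_of_nonneg ha, abs_of_nonneg hb] at h
  have h1 := le_antisymm h (le_inf ha hb)
  rw [inf_eq_sub_posPart_sub, sub_eq_zero] at h1
  exact h1.symm

theorem isHom_of_perp {T : X →L[ℝ] Y} (h0 : ∀ x, 0 ≤ x → 0 ≤ T x)
    (h : ∀ x, T x⁺ ∈ (perp (T x⁻)).sub) : IsHom T := fun x => by
  conv_rhs => rw [← posPart_sub_negPart x, map_sub,
    abs_sub_of_perp (h0 _ (posPart_nonneg x)) (h0 _ (negPart_nonneg x)) (h x)]
  rw [← map_add, posPart_add_negPart]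

theorem pos_perp {c : ℝ} (hc : 0 < c) (a b : X) : (a - c • b)⁺ ∈ (perp (b - c⁻¹ • a)⁺).sub := by
  have := yudin ![a, b] (inf (sup (sub (var 0) (smul c (var 1))) zero)
    (sup (sub (var 1) (smul c⁻¹ (var 0))) zero)) zero fun z => by
      simp only [eval_inf, eval_sup, eval_sub, eval_smul, eval_var, smul_eq_mul, eval_zero]
      rcases le_total (z 0 - c * z 1) 0 with h | h
      · exact inf_le_left.trans (sup_le h le_rfl)
      · refine inf_le_right.trans (sup_le ?_ le_rfl)
        rw [sub_nonpos, le_inv_mul_iff₀ hc]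
        linarith
  rw [mem_perp, abs_of_nonneg (posPart_nonneg _), abs_of_nonneg (posPart_nonneg _)]
  simpa [posPart_def] using this

/-- A disjoint positive sequence in a quotient has disjoint lifts below any bounded lifts. -/
theorem disjoint_lift {J : ClosedIdeal X} (x : ℕ → X) (h0 : ∀ n, 0 ≤ x n) {M : ℝ}
    (hM : ∀ n, ‖x n‖ ≤ M) (hd : ∀ n m, n ≠ m → Quo.mk J (x n) ∈ (perp (Quo.mk J (x m))).sub) :
    ∃ w : ℕ → X, (∀ n, 0 ≤ w n ∧ w n ≤ x n ∧ Quo.mk J (w n) = Quo.mk J (x n)) ∧
      ∀ n m, n ≠ m → w n ∈ (perp (w m)).sub := by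
  let a : ℕ → ℕ → X := fun n m => if m = n then 0 else ((2 : ℝ) ^ n * (1 / 2) ^ m) • x m
  have a0 : ∀ n m, 0 ≤ a n m := fun n m => by
    by_cases h : m = n
    · simp [a, h]
    · simp only [a, h, if_false]
      exact smul_nonneg' (by positivity) (h0 m)
  have hs : ∀ n, Summable (a n) := fun n => by
    refine Summable.of_norm_bounded ((summable_geometric_two.mul_left (2 ^ n)).mul_right M)
      fun m => ?_
    have hM0 : 0 ≤ M := (norm_nonneg _).trans (hM 0)
    by_cases h : m = n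
    · simp only [a, h, if_true, norm_zero]
      positivity
    · simp only [a, h, if_false, norm_smul]
      rw [Real.norm_of_nonneg (by positivity)]
      exact mul_le_mul_of_nonneg_left (hM m) (by positivity)
  have r0 : ∀ n, 0 ≤ ∑' m, a n m := fun n => tsum_nonneg (a0 n)
  refine ⟨fun n => (x n - ∑' m, a n m)⁺, fun n => ⟨posPart_nonneg _,
    sup_le (sub_le_self _ (r0 n)) (h0 n), ?_⟩, fun n m hnm => ?_⟩
  · rw [(mk_hom J).map_pos, map_sub]
    refine pos_sub_of_perp ((mk_hom J).nonneg (h0 n)) ((mk_hom J).nonneg (r0 n)) (perp_symm ?_)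
    refine mem_of_hasSum _ ((hs n).hasSum.mapL (Quo.mk J)) fun m => ?_
    by_cases h : m = n
    · simp [a, h]
    · simp only [a, h, if_false, map_smul]
      exact Submodule.smul_mem _ _ (hd m n h)
  · have k : ∀ n m, n ≠ m → |(x n - ∑' k, a n k)⁺| ≤ |(x n - ((2 : ℝ) ^ n * (1 / 2) ^ m) • x m)⁺| :=
      fun n m h => by
        rw [abs_of_nonneg (posPart_nonneg _), abs_of_nonneg (posPart_nonneg _)]
        refine posPart_mono (sub_le_sub_left ?_ _)
        have := (hs n).le_tsum m fun k _ => a0 n k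
        simpa [a, h.symm] using this
    have h1 := pos_perp (c := (2 : ℝ) ^ n * (1 / 2) ^ m) (by positivity) (x n) (x m)
    have h2 : ((2 : ℝ) ^ n * (1 / 2) ^ m)⁻¹ = 2 ^ m * (1 / 2) ^ n := by
      simp [mul_comm]
    rw [h2] at h1
    exact perp_symm ((perp _).solid _ (perp_symm ((perp _).solid _ h1 _ (k n m hnm))) _
      (k m n hnm.symm))

/-- The unit vectors of the sequence space. -/
noncomputable def ee (n : ℕ) : EllOne := lp.single 1 n (1 : ℝ)

/-- The coordinates of the sequence space. -/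
noncomputable def co (n : ℕ) : EllOne →L[ℝ] ℝ := lp.evalCLM ℝ (fun _ : ℕ => ℝ) 1 n

theorem co_hom (n : ℕ) : IsHom (co n) := fun _ => rfl

theorem co_ee (n m : ℕ) : co n (ee m) = if n = m then 1 else 0 := by
  change (lp.single (E := fun _ : ℕ => ℝ) 1 m (1 : ℝ)) n = _
  simp [lp.single_apply, Pi.single_apply]

theorem le_iff_co {x y : EllOne} : x ≤ y ↔ ∀ n, co n x ≤ co n y := Iff.rfl

theorem ext_co {x y : EllOne} (h : ∀ n, co n x = co n y) : x = y := lp.ext (funext h)

theorem hasSum_co (x : EllOne) : HasSum (fun n => |co n x|) ‖x‖ := by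
  have := lp.hasSum_norm (E := fun _ : ℕ => ℝ) (p := 1) (by simp) x
  simp only [ENNReal.toReal_one, Real.rpow_one] at this
  exact this

theorem co_le (n : ℕ) (x : EllOne) : |co n x| ≤ ‖x‖ :=
  le_hasSum (hasSum_co x) n fun _ _ => abs_nonneg _

theorem norm_ee (n : ℕ) : ‖ee n‖ = 1 :=
  (lp.norm_single (E := fun _ : ℕ => ℝ) zero_lt_one n (1 : ℝ)).trans norm_one

theorem ee_nonneg (n : ℕ) : 0 ≤ ee n := le_iff_co.2 fun m => by
  rw [map_zero, co_ee]
  split_ifs <;> simp

theorem hasSum_ee (x : EllOne) : HasSum (fun n => co n x • ee n) x := by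
  have := lp.hasSum_single (E := fun _ : ℕ => ℝ) ENNReal.one_ne_top x
  have e : (fun n => co n x • ee n) = fun n => lp.single (E := fun _ : ℕ => ℝ) 1 n (x.1 n) := by
    funext n
    refine (lp.single_smul (E := fun _ : ℕ => ℝ) 1 n (co n x) (1 : ℝ)).symm.trans ?_
    rw [smul_eq_mul, mul_one]
    rfl
  rw [e]
  exact this

theorem ee_perp {n m : ℕ} (h : n ≠ m) : ee n ∈ (perp (ee m)).sub :=
  mem_perp.2 <| le_iff_co.2 fun k => by
  rw [(co_hom k).map_inf, co_hom, co_hom, co_ee, co_ee, map_zero]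
  by_cases h1 : k = n
  · have : k ≠ m := h1 ▸ h
    simp [this]
  · simp [h1]

theorem ext_ee {W : Type} [NormedAddCommGroup W] [NormedSpace ℝ W] {S T : EllOne →L[ℝ] W}
    (h : ∀ n, S (ee n) = T (ee n)) : S = T := by
  ext x
  refine ((hasSum_ee x).mapL S).unique ?_
  simpa only [map_smul, h] using (hasSum_ee x).mapL T

theorem exists_sum (w : ℕ → X) (h0 : ∀ n, 0 ≤ w n) {M : ℝ} (hM : ∀ n, ‖w n‖ ≤ M)
    (hd : ∀ n m, n ≠ m → w n ∈ (perp (w m)).sub) :
    ∃ S : EllOne →L[ℝ] X, IsHom S ∧ (∀ n, S (ee n) = w n) ∧ ‖S‖ ≤ M := by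
  have hb : ∀ (x : EllOne) n, ‖co n x • w n‖ ≤ M * |co n x| := fun x n => by
    rw [norm_smul, mul_comm]
    exact mul_le_mul_of_nonneg_right (hM n) (abs_nonneg _)
  have hs : ∀ x : EllOne, Summable fun n => co n x • w n := fun x =>
    Summable.of_norm_bounded ((hasSum_co x).summable.mul_left M) (hb x)
  let ψ : EllOne →ₗ[ℝ] X :=
    { toFun := fun x => ∑' n, co n x • w n
      map_add' := fun x y => by
        rw [← (hs x).tsum_add (hs y)]
        exact tsum_congr fun n => by rw [map_add, add_smul]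
      map_smul' := fun c x => by
        rw [RingHom.id_apply, ← (hs x).tsum_const_smul c]
        exact tsum_congr fun n => by rw [map_smul, smul_assoc] }
  have hψ : ∀ x, ‖ψ x‖ ≤ M * ‖x‖ := fun x =>
    tsum_of_norm_bounded ((hasSum_co x).mul_left M) (hb x)
  refine ⟨ψ.mkContinuous M hψ, isHom_of_perp (fun x hx => ?_) fun x => ?_, fun n => ?_,
    ψ.mkContinuous_norm_le ((norm_nonneg _).trans (hM 0)) hψ⟩
  · exact tsum_nonneg fun n => smul_nonneg' ((co_hom n).nonneg hx) (h0 n)
  · refine mem_of_hasSum _ (hs _).hasSum fun n => perp_symm ?_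
    refine mem_of_hasSum _ (hs _).hasSum fun m => ?_
    by_cases h : m = n
    · subst h
      rcases le_total 0 (co m x) with h | h
      · have : co m x⁻ = 0 := by
          rw [← posPart_neg, (co_hom m).map_pos, map_neg, posPart_eq_zero.2 (neg_nonpos.2 h)]
        simp [this]
      · have : co m x⁺ = 0 := by rw [(co_hom m).map_pos, posPart_eq_zero.2 h]
        exact perp_symm (by simp [this])
    · exact Submodule.smul_mem _ _ (perp_symm (Submodule.smul_mem _ _ (hd n m (Ne.symm h))))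
  · change ∑' m, co m (ee n) • w m = w n
    rw [tsum_eq_single n fun m hm => by simp [co_ee, hm]]
    simp [co_ee]

theorem IsHom.perp {T : X →L[ℝ] Y} (h : IsHom T) {a b : X} (hab : a ∈ (perp b).sub) :
    T a ∈ (perp (T b)).sub := by
  have := h.mono (mem_perp.1 hab)
  rwa [h.map_inf, h, h, map_zero] at this

theorem ellOne_projective : Projective EllOne := by
  intro X _ J T hT ε hε
  choose x h0 h1 h2 using fun n => exists_lift_pos (hT.nonneg (ee_nonneg n)) (c := ‖T‖)
    (by simpa [norm_ee] using T.le_opNorm (ee n)) hε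
  obtain ⟨w, h3, h4⟩ := disjoint_lift (J := J) x h0 h2 fun n m h => by
    rw [h1, h1]
    exact hT.perp (ee_perp h)
  obtain ⟨S, h5, h6, h7⟩ := exists_sum w (fun n => (h3 n).1) (M := (1 + ε) * ‖T‖)
    (fun n => (HasSolidNorm.solid (by
      rw [abs_of_nonneg (h3 n).1, abs_of_nonneg (h0 n)]
      exact (h3 n).2.1)).trans (h2 n)) h4
  refine ⟨S, h5, fun y => ?_, h7⟩
  have : (Quo.mk J).comp S = T := ext_ee fun n => by
    rw [ContinuousLinearMap.comp_apply, h6, (h3 n).2.2, h1]
  exact DFunLike.congr_fun this y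

instance : TopologicalSpace.SeparableSpace EllOne := by
  rw [← TopologicalSpace.isSeparable_univ_iff]
  refine ((Set.countable_range ee).isSeparable.span (R := ℝ)).closure.mono fun x _ => ?_
  exact mem_closure_of_tendsto (hasSum_ee x) (Filter.Eventually.of_forall fun s =>
    Submodule.sum_mem _ fun n _ => Submodule.smul_mem _ _ (Submodule.subset_span ⟨n, rfl⟩))

theorem real_unit : IsTopUnit (1 : ℝ) := ⟨zero_le_one, fun J h => eq_top_iff.2 fun x _ => by
  simpa using J.sub.smul_mem x h⟩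

theorem ellOne_unit : ∃ e : EllOne, IsTopUnit e := by
  have hs : Summable fun n : ℕ => (1 / 2 : ℝ) ^ n • ee n :=
    Summable.of_norm_bounded summable_geometric_two fun n => by
      rw [norm_smul, norm_ee, mul_one, Real.norm_of_nonneg (by positivity)]
  have h0 : ∀ n : ℕ, 0 ≤ (1 / 2 : ℝ) ^ n • ee n := fun n => smul_nonneg' (by positivity) (ee_nonneg n)
  refine ⟨∑' n : ℕ, (1 / 2 : ℝ) ^ n • ee n, tsum_nonneg h0, fun J h => eq_top_iff.2 fun x _ => ?_⟩
  refine mem_of_hasSum J (hasSum_ee x) fun n => J.sub.smul_mem _ ?_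
  have h1 := J.solid _ h _ (abs_le_abs_of_nonneg (h0 n) (hs.le_tsum n fun k _ => h0 k))
  exact (J.sub.smul_mem_iff (by positivity)).1 h1

end Pool.Agent.Lib.helper23.BL
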