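import Mathlib
import Pool.Agent.Lib.helper23.BLB

set_option autoImplicit false

namespace Pool.Agent.Lib.helper23.BL

open scoped ENNReal
open Filter

variable {X Y : Type} [BanachLattice X] [BanachLattice Y]

/-- Equivalent lattice norms. -/
structure LatNorm (X : Type) [BanachLattice X] where
  p : Seminorm ℝ X
  solid : ∀ a b, |a| ≤ |b| → p a ≤ p b
  C : ℝ
  le : ∀ x, p x ≤ C * ‖x‖
  ge : ∀ x, ‖x‖ ≤ C * p x

/-- A Banach lattice with an equivalent lattice norm. -/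
def Renorm (_ : LatNorm X) : Type := X

namespace Renorm

variable (ρ : LatNorm X)

instance : AddCommGroup (Renorm ρ) := inferInstanceAs (AddCommGroup X)
instance : Module ℝ (Renorm ρ) := inferInstanceAs (Module ℝ X)
instance : Lattice (Renorm ρ) := inferInstanceAs (Lattice X)

noncomputable instance : NormedAddCommGroup (Renorm ρ) :=
  AddGroupNorm.toNormedAddCommGroup
    { toFun := ρ.p
      map_zero' := map_zero ρ.p
      add_le' := map_add_le_add ρ.p
      neg' := map_neg_eq_map ρ.p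
      eq_zero_of_map_eq_zero' := fun x h => by
        have := ρ.ge x
        rw [h, mul_zero] at this
        exact norm_le_zero_iff.1 this }

noncomputable instance : NormedSpace ℝ (Renorm ρ) := ⟨fun c x => (map_smul_eq_mul ρ.p c x).le⟩

/-- The identity map. -/
def leqv : X ≃ₗ[ℝ] Renorm ρ where
  toFun x := x
  invFun x := x
  map_add' _ _ := rfl
  map_smul' _ _ := rfl

/-- The identity map. -/
noncomputable def eqv : X ≃L[ℝ] Renorm ρ :=
  (leqv ρ).toContinuousLinearEquivOfBounds ρ.C ρ.C ρ.le ρ.ge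

instance : IsOrderedAddMonoid (Renorm ρ) := inferInstanceAs (IsOrderedAddMonoid X)
instance : PosSMulMono ℝ (Renorm ρ) := inferInstanceAs (PosSMulMono ℝ X)

noncomputable instance inst : BanachLattice (Renorm ρ) where
  complete := ((completeSpace_congr (e := (eqv ρ).toLinearEquiv.toEquiv)
    (eqv ρ).isUniformEmbedding).1 inferInstance).complete
  solid := ρ.solid

theorem norm_eqv (x : X) : ‖eqv ρ x‖ = ρ.p x := rfl

theorem eqv_hom : IsHom (eqv ρ : X →L[ℝ] Renorm ρ) := fun _ => rfl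

theorem symm_hom : IsHom ((eqv ρ).symm : Renorm ρ →L[ℝ] X) := fun _ => rfl

end Renorm

theorem exists_sSup {V : Type} [AddCommGroup V] [Module ℝ V] (S : Set (Seminorm ℝ V))
    (hb : ∀ x, ∃ c, ∀ σ ∈ S, σ x ≤ c) : ∃ ρ : Seminorm ℝ V, (∀ σ ∈ S, ∀ x, σ x ≤ ρ x) ∧
      ∀ x c, 0 ≤ c → (∀ σ ∈ S, σ x ≤ c) → ρ x ≤ c := by
  choose q hq using hb
  have h : BddAbove S := Seminorm.bddAbove_iff.2 ⟨q, by
    rintro _ ⟨σ, hσ, rfl⟩ x
    exact hq x σ hσ⟩
  refine ⟨sSup S, fun σ hσ x => (le_csSup h hσ : σ ≤ sSup S) x, fun x c hc k => ?_⟩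
  rw [Seminorm.sSup_apply h]
  exact Real.iSup_le (fun σ => k σ.1 σ.2) hc

theorem exists_latNorm (S : Set (Seminorm ℝ X)) (hs : ∀ σ ∈ S, ∀ a b, |a| ≤ |b| → σ a ≤ σ b)
    {C : ℝ} (h0 : 0 ≤ C) (hC : ∀ σ ∈ S, ∀ x, σ x ≤ C * ‖x‖)
    (h : ∀ x, ∃ σ ∈ S, ‖x‖ ≤ C * σ x) : ∃ ρ : LatNorm X, (∀ σ ∈ S, ∀ x, σ x ≤ ρ.p x) ∧
      ∀ x c, 0 ≤ c → (∀ σ ∈ S, σ x ≤ c) → ρ.p x ≤ c := by
  obtain ⟨ρ, h1, h2⟩ := exists_sSup S fun x => ⟨_, fun σ hσ => hC σ hσ x⟩
  refine ⟨⟨ρ, fun a b hab => h2 _ _ (apply_nonneg _ _) fun σ hσ => (hs σ hσ a b hab).trans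
    (h1 σ hσ b), C, fun x => h2 _ _ (by positivity) fun σ hσ => hC σ hσ x, fun x => ?_⟩, h1, h2⟩
  obtain ⟨σ, hσ, h3⟩ := h x
  exact h3.trans (mul_le_mul_of_nonneg_left (h1 σ hσ x) h0)

/-- The seminorm pulled back along a bounded map. -/
noncomputable def pull (T : X →L[ℝ] Y) : Seminorm ℝ X := (normSeminorm ℝ Y).comp T.toLinearMap

theorem pull_apply (T : X →L[ℝ] Y) (x : X) : pull T x = ‖T x‖ := rfl

theorem pull_solid {T : X →L[ℝ] Y} (h : IsHom T) (a b : X) (hab : |a| ≤ |b|) :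
    pull T a ≤ pull T b := HasSolidNorm.solid ((h a).symm.trans_le ((h.mono hab).trans_eq (h b)))

noncomputable instance instC (K : Type) [TopologicalSpace K] [CompactSpace K] :
    BanachLattice C(K, ℝ) where
  solid f g h := (ContinuousMap.norm_le _ (norm_nonneg _)).2 fun x =>
    (show |f x| ≤ |g x| from h x).trans (g.norm_coe_le_norm x)
  smul_le_smul_of_nonneg_left _ hc _ _ h x := mul_le_mul_of_nonneg_left (h x) hc

theorem evalC_hom {K : Type} [TopologicalSpace K] [CompactSpace K] (k : K) :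
    IsHom (ContinuousMap.evalCLM ℝ k : C(K, ℝ) →L[ℝ] ℝ) := fun _ => rfl

theorem fst_hom : IsHom (ContinuousLinearMap.fst ℝ X Y) := fun _ => rfl

theorem snd_hom : IsHom (ContinuousLinearMap.snd ℝ X Y) := fun _ => rfl

theorem tendsto_co (β : EllOne) : Tendsto (fun j => |co j β|) atTop (nhds 0) :=
  (hasSum_co β).summable.tendsto_atTop_zero

/-- The points at which the first coordinate is tested. -/
noncomputable def pt (j : ℕ) : unitInterval :=
  ⟨1 / ((j : ℝ) + 1), by positivity, by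
    rw [div_le_one (by positivity)]
    linarith [Nat.cast_nonneg (α := ℝ) j]⟩

theorem pt_anti {j n : ℕ} (h : n ≤ j) : pt j ≤ pt n :=
  one_div_le_one_div_of_le (α := ℝ) (by positivity) (by exact_mod_cast Nat.succ_le_succ h)

theorem tendsto_pt : Tendsto pt atTop (nhds 0) :=
  tendsto_subtype_rng.2 tendsto_one_div_add_atTop_nhds_zero_nat

theorem not_semi_prod : ¬ Semiprojective (ℝ × EllOne) := by
  intro h
  let a : ℕ → C(unitInterval, ℝ) × EllOne →L[ℝ] ℝ := fun j =>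
    (ContinuousMap.evalCLM ℝ (pt j)).comp (ContinuousLinearMap.fst ℝ _ _)
  let b : ℕ → C(unitInterval, ℝ) × EllOne →L[ℝ] ℝ := fun j =>
    (co j).comp (ContinuousLinearMap.snd ℝ _ _)
  obtain ⟨ρ, h1, h2⟩ := exists_latNorm
    (insert (pull (ContinuousLinearMap.id ℝ _)) (Set.range fun j => pull (a j) + pull (b j)))
    (by
      rintro _ (rfl | ⟨j, rfl⟩) x y hxy
      · exact pull_solid isHom_id x y hxy
      · exact add_le_add (pull_solid ((evalC_hom _).comp fst_hom) x y hxy)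
          (pull_solid ((co_hom _).comp snd_hom) x y hxy)) zero_le_two
    (by
      rintro _ (rfl | ⟨j, rfl⟩) x
      · exact le_mul_of_one_le_left (norm_nonneg x) one_le_two
      · rw [two_mul]
        exact add_le_add ((x.1.norm_coe_le_norm _).trans (norm_fst_le x))
          ((co_le j x.2).trans (norm_snd_le x)))
    (fun x => ⟨_, Or.inl rfl, le_mul_of_one_le_left (norm_nonneg x) one_le_two⟩)
  have g1 : ∀ j (x : C(unitInterval, ℝ) × EllOne), |x.1 (pt j)| + |co j x.2| ≤ ρ.p x :=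
    fun j x => h1 _ (Or.inr ⟨j, rfl⟩) x
  have g2 : ∀ (x : C(unitInterval, ℝ) × EllOne) c, ‖x‖ ≤ c →
      (∀ j, |x.1 (pt j)| + |co j x.2| ≤ c) → ρ.p x ≤ c := fun x c k1 k2 =>
    h2 x c ((norm_nonneg _).trans k1) (by
      rintro _ (rfl | ⟨j, rfl⟩)
      exacts [k1, k2 j])
  haveI : TopologicalSpace.SeparableSpace (Renorm ρ) :=
    (Renorm.eqv ρ).surjective.denseRange.separableSpace (Renorm.eqv ρ).continuous
  let s : Renorm ρ →L[ℝ] C(unitInterval, ℝ) × EllOne := (Renorm.eqv ρ).symm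
  let I : ℕ → ClosedIdeal (Renorm ρ) := fun n =>
    { sub :=
        { carrier := {x | (∀ t, t ≤ pt n → (s x).1 t = 0) ∧ (s x).2 = 0}
          zero_mem' := by simp
          add_mem' := fun h k => ⟨fun t ht => by simp [h.1 t ht, k.1 t ht], by simp [h.2, k.2]⟩
          smul_mem' := fun c _ h => ⟨fun t ht => by simp [h.1 t ht], by simp [h.2]⟩ }
      closed := by
        refine IsClosed.inter (s₁ := {x | ∀ t, t ≤ pt n → (s x).1 t = 0}) ?_
          (isClosed_eq (by fun_prop) continuous_const)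
        simp only [Set.setOf_forall]
        exact isClosed_iInter fun t => isClosed_iInter fun _ =>
          isClosed_eq (by fun_prop) continuous_const
      solid := fun x h y k => ⟨fun t ht => by
        have : |(s y).1 t| ≤ |(s x).1 t| := k.1 t
        rwa [h.1 t ht, abs_zero, abs_nonpos_iff] at this, by
        have : |(s y).2| ≤ |(s x).2| := k.2
        rw [h.2] at this
        exact norm_le_zero_iff.1 (by simpa using HasSolidNorm.solid this)⟩ }
  have hI : Monotone fun n => (I n).sub := fun n m hnm x hx =>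
    ⟨fun t ht => hx.1 t (ht.trans (pt_anti hnm)), hx.2⟩
  obtain ⟨J, hJ⟩ := exists_limit_ideal I hI
  have hle : ∀ n, (I n).sub ≤ J.sub := fun n x hx => by
    change x ∈ (J.sub : Set _)
    rw [hJ]
    exact subset_closure (Set.mem_iUnion.2 ⟨n, hx⟩)
  have hJ0 : ∀ x ∈ J.sub, (s x).1 0 = 0 ∧ (s x).2 = 0 := fun x hx => by
    have hc : IsClosed {x | (s x).1 0 = 0 ∧ (s x).2 = 0} :=
      (isClosed_eq (by fun_prop) continuous_const).inter (isClosed_eq (by fun_prop) continuous_const)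
    have hx' : x ∈ (J.sub : Set _) := hx
    rw [hJ] at hx'
    refine closure_minimal (fun y hy => ?_) hc hx'
    obtain ⟨n, hn⟩ := Set.mem_iUnion.1 hy
    exact ⟨hn.1 0 bot_le, hn.2⟩
  let ι : ℝ × EllOne →L[ℝ] C(unitInterval, ℝ) × EllOne :=
    (ContinuousLinearMap.toSpanSingleton ℝ 1).prodMap (ContinuousLinearMap.id ℝ _)
  have hι : IsHom ι := fun x => Prod.ext (by
    change |x.1| • (1 : C(unitInterval, ℝ)) = |x.1 • (1 : C(unitInterval, ℝ))|
    ext t
    simp) rfl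
  let φ : ℝ × EllOne →L[ℝ] Quo J := (Quo.mk J).comp (((Renorm.eqv ρ : _ →L[ℝ] _)).comp ι)
  have hφ : ‖φ‖ ≤ 1 := by
    refine ContinuousLinearMap.opNorm_le_bound _ zero_le_one fun x => ?_
    refine le_of_forall_pos_le_add fun η hη => ?_
    obtain ⟨N, hN⟩ := eventually_atTop.1 ((tendsto_co x.2).eventually (gt_mem_nhds hη))
    let g : C(unitInterval, ℝ) := ⟨fun t => min 1 (max 0 (2 - 2 * (N + 1) * t)), by fun_prop⟩
    have g0 : ∀ t, |g t| ≤ 1 := fun t =>
      abs_le.2 ⟨by simp [g], min_le_left _ _⟩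
    have e : φ x = Quo.mk J (Renorm.eqv ρ (x.1 • g, x.2)) := by
      refine (Quo.mk_eq J).2 (hle (2 * N + 1) ⟨fun t ht => ?_, sub_self _⟩)
      change x.1 * 1 - x.1 * min 1 (max 0 (2 - 2 * (N + 1) * (t : ℝ))) = 0
      have h3 : (t : ℝ) ≤ 1 / (((2 * N + 1 : ℕ) : ℝ) + 1) := ht
      rw [le_div_iff₀ (by positivity)] at h3
      push_cast at h3
      rw [min_eq_left (le_max_of_le_right (by linarith)), sub_self]
    have n1 : ∀ t, |x.1 * g t| ≤ ‖x‖ := fun t => by
      rw [abs_mul]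
      exact (mul_le_of_le_one_right (abs_nonneg _) (g0 t)).trans (norm_fst_le x)
    rw [e, one_mul]
    refine (norm_mk_le _ _).trans (g2 _ _ (le_add_of_le_of_nonneg (max_le
      ((ContinuousMap.norm_le _ (norm_nonneg _)).2 n1) (norm_snd_le x)) hη.le) fun j => ?_)
    rcases le_or_gt N j with hj | hj
    · exact add_le_add (n1 _) (hN j hj).le
    · have : g (pt j) = 0 := by
        change min 1 (max 0 (2 - 2 * ((N : ℝ) + 1) * (1 / ((j : ℝ) + 1)))) = 0
        rw [max_eq_left, min_eq_right zero_le_one]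
        rw [sub_nonpos, mul_one_div, le_div_iff₀ (by positivity)]
        have : (j : ℝ) ≤ N := by exact_mod_cast hj.le
        linarith
      change |x.1 * g (pt j)| + |co j x.2| ≤ _
      rw [this, mul_zero, abs_zero, zero_add]
      exact le_add_of_le_of_nonneg ((co_le j _).trans (norm_snd_le x)) hη.le
  obtain ⟨n, hn⟩ := h (Renorm ρ) I J hle hI hJ φ ((mk_hom J).comp ((Renorm.eqv_hom ρ).comp hι)) hφ
  obtain ⟨ψ, k1, k2, k3⟩ := hn (1 / 2) one_half_pos
  have lift : ∀ z : ℝ × EllOne, 0 ≤ z → ∃ x, 0 ≤ s x ∧ Quo.mk (I n) x = ψ z ∧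
      (s x).1 0 = z.1 ∧ (s x).2 = z.2 := fun z hz => by
    obtain ⟨x, m0, m1, -⟩ := exists_lift_pos (k1.nonneg hz) le_rfl one_pos
    have m2 : Quo.mk J x = φ z := by
      rw [← k3, ← m1]
      rfl
    have m3 := hJ0 _ ((Quo.mk_eq J).1 m2)
    refine ⟨x, m0, m1, ?_, sub_eq_zero.1 m3.2⟩
    have m4 : (s x).1 0 - z.1 * 1 = 0 := m3.1
    linarith
  obtain ⟨x, -, x1, x2, x3⟩ := lift (1, 0) ⟨zero_le_one, le_rfl⟩
  have t1 := ((s x).1.continuous.tendsto 0).comp tendsto_pt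
  rw [x2] at t1
  obtain ⟨j, hj, hjn⟩ := ((t1.eventually (lt_mem_nhds (show (3 / 4 : ℝ) < 1 by norm_num))).and
    (eventually_ge_atTop n)).exists
  obtain ⟨y, y0, y1, -, y3⟩ := lift (0, ee j) ⟨le_rfl, ee_nonneg j⟩
  have n1 : ‖ψ (1, ee j)‖ < 7 / 4 := by
    have := ψ.le_opNorm (1, ee j)
    rw [Prod.norm_def, norm_ee, norm_one, max_self] at this
    linarith
  obtain ⟨z, z1, z2⟩ := exists_lift _ n1
  have z3 : z - (x + y) ∈ (I n).sub := (Quo.mk_eq _).1 (by
    rw [z1, map_add, x1, y1, ← map_add]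
    simp)
  have z4 : (s z).1 (pt j) - ((s x).1 (pt j) + (s y).1 (pt j)) = 0 := z3.1 _ (pt_anti hjn)
  have z5 : (s z).2 = ee j := by
    have : (s z).2 - ((s x).2 + (s y).2) = 0 := z3.2
    rw [x3, y3, zero_add] at this
    exact sub_eq_zero.1 this
  have z6 : |(s z).1 (pt j)| + |co j (s z).2| ≤ ‖z‖ := g1 j (s z)
  rw [z5, co_ee, if_pos rfl, abs_one] at z6
  have z7 : 0 ≤ (s y).1 (pt j) := y0.1 _
  have z8 := le_abs_self ((s z).1 (pt j))
  have z9 : 3 / 4 < (s x).1 (pt j) := hj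
  linarith

end Pool.Agent.Lib.helper23.BL
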