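import Mathlib
import Pool.Agent.Lib.helper23.BLC
import Pool.Agent.Lib.helper23.BLDef2

set_option autoImplicit false

namespace Pool.Agent.Lib.helper23.BL

variable {X Y : Type} [BanachLattice X] [BanachLattice Y]

theorem Projective.retract (h : Projective X) (i : Y →L[ℝ] X) (r : X →L[ℝ] Y) (hi : IsHom i)
    (hr : IsHom r) (ni : ∀ y, ‖i y‖ ≤ ‖y‖) (nr : ∀ x, ‖r x‖ ≤ ‖x‖) (e : ∀ y, r (i y) = y) :
    Projective Y := by
  intro Z _ J T hT ε hε
  obtain ⟨S, h1, h2, h3⟩ := h Z J (T.comp r) (hT.comp hr) ε hε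
  refine ⟨S.comp i, h1.comp hi, fun y => ?_, ?_⟩
  · rw [ContinuousLinearMap.comp_apply, h2, ContinuousLinearMap.comp_apply, e]
  · have h4 : ‖T.comp r‖ ≤ ‖T‖ := ContinuousLinearMap.opNorm_le_bound _ (norm_nonneg _) fun x =>
      (T.le_opNorm _).trans (mul_le_mul_of_nonneg_left (nr x) (norm_nonneg _))
    refine ContinuousLinearMap.opNorm_le_bound _ (by positivity) fun y => (S.le_opNorm _).trans ?_
    exact mul_le_mul (h3.trans (mul_le_mul_of_nonneg_left h4 (by positivity))) (ni y)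
      (norm_nonneg _) (by positivity)

/-- The inclusion of a closed sublattice. -/
noncomputable def ClosedSub.incl (L : ClosedSub X) : L.Carrier →L[ℝ] X := L.sub.subtypeL

theorem ClosedSub.incl_hom (L : ClosedSub X) : IsHom L.incl := fun _ => rfl

theorem ClosedSub.norm_incl (L : ClosedSub X) (x : L.Carrier) : ‖L.incl x‖ = ‖x‖ := rfl

/-- Corestriction to a closed sublattice. -/
noncomputable def ClosedSub.cod (L : ClosedSub X) (T : Y →L[ℝ] X) (h : ∀ y, T y ∈ L.sub) :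
    Y →L[ℝ] L.Carrier := T.codRestrict L.sub h

theorem ClosedSub.cod_hom (L : ClosedSub X) {T : Y →L[ℝ] X} (h : ∀ y, T y ∈ L.sub) (hT : IsHom T) :
    IsHom (L.cod T h) := fun x => Subtype.ext (hT x)

/-- The map induced on a quotient. -/
noncomputable def Quo.lift (J : ClosedIdeal X) (T : X →L[ℝ] Y) (h : ∀ x ∈ J.sub, T x = 0) :
    Quo J →L[ℝ] Y :=
  LinearMap.mkContinuous (J.sub.liftQ T.toLinearMap h) ‖T‖ fun y => by
    refine le_of_forall_pos_le_add fun ε hε => ?_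
    obtain ⟨x, rfl, hx⟩ := exists_lift y (r := ‖y‖ + ε / (‖T‖ + 1))
      (lt_add_of_pos_right _ (by positivity))
    refine (T.le_opNorm x).trans ((mul_le_mul_of_nonneg_left hx.le (norm_nonneg _)).trans ?_)
    rw [mul_add, add_le_add_iff_left, mul_div_assoc', div_le_iff₀ (by positivity)]
    nlinarith [norm_nonneg T]

theorem Quo.lift_mk (J : ClosedIdeal X) (T : X →L[ℝ] Y) (h : ∀ x ∈ J.sub, T x = 0) (x : X) :
    Quo.lift J T h (Quo.mk J x) = T x := rfl

theorem Quo.norm_lift (J : ClosedIdeal X) (T : X →L[ℝ] Y) (h : ∀ x ∈ J.sub, T x = 0) :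
    ‖Quo.lift J T h‖ ≤ ‖T‖ := LinearMap.mkContinuous_norm_le _ (norm_nonneg _) _

theorem Quo.lift_hom (J : ClosedIdeal X) {T : X →L[ℝ] Y} (h : ∀ x ∈ J.sub, T x = 0)
    (hT : IsHom T) : IsHom (Quo.lift J T h) := fun y => by
  obtain ⟨x, rfl⟩ := Quo.mk_surj J y
  exact hT x

end Pool.Agent.Lib.helper23.BL
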