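import Mathlib
import Pool.Agent.Lib.helper23.BLD

set_option autoImplicit false

namespace Pool.Agent.Lib.helper23.BL

open UniformSpace

/-- Solid seminorms. -/
class SolidSN (W : Type) [SeminormedAddCommGroup W] [Lattice W] : Prop where
  solid : ∀ a b : W, |a| ≤ |b| → ‖a‖ ≤ ‖b‖

/-- The completion of a seminormed vector lattice. -/
def Cpl (W : Type) [SeminormedAddCommGroup W] : Type := Completion W

namespace Cpl

variable {W : Type} [SeminormedAddCommGroup W] [NormedSpace ℝ W] [Lattice W] [IsOrderedAddMonoid W]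
  [PosSMulMono ℝ W] [SolidSN W]

noncomputable instance : NormedAddCommGroup (Cpl W) := (inferInstance : NormedAddCommGroup (Completion W))
noncomputable instance : NormedSpace ℝ (Cpl W) := (inferInstance : NormedSpace ℝ (Completion W))
instance : CompleteSpace (Cpl W) := (inferInstance : CompleteSpace (Completion W))

/-- The canonical map. -/
noncomputable def j : W →ₗᵢ[ℝ] Cpl W := Completion.toComplₗᵢ

omit [Lattice W] [IsOrderedAddMonoid W] [PosSMulMono ℝ W] [SolidSN W] in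
theorem dense : DenseRange (j : W → Cpl W) := Completion.denseRange_coe

omit [NormedSpace ℝ W] [PosSMulMono ℝ W] in
theorem uc (op : W → W → W) (h1 : ∀ a b c, |op a c - op b c| ≤ |a - b|)
    (h2 : ∀ a b, op a b = op b a) : UniformContinuous₂ op := by
  refine (LipschitzWith.of_dist_le_mul (K := 2) fun x y => ?_).uniformContinuous
  have k1 := SolidSN.solid _ _ (h1 x.1 y.1 x.2)
  have k2 := SolidSN.solid _ _ (h1 x.2 y.2 y.1)
  rw [h2 x.2, h2 y.2] at k2
  have k3 := norm_sub_le_norm_sub_add_norm_sub (op x.1 x.2) (op y.1 x.2) (op y.1 y.2)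
  have k4 := norm_fst_le (x - y)
  have k5 := norm_snd_le (x - y)
  rw [dist_eq_norm, dist_eq_norm]
  simp only [Prod.fst_sub, Prod.snd_sub, NNReal.coe_ofNat] at *
  change ‖op x.1 x.2 - op y.1 y.2‖ ≤ _
  linarith

/-- Supremum. -/
noncomputable def sup : Cpl W → Cpl W → Cpl W := Completion.map₂ (· ⊔ ·)

/-- Infimum. -/
noncomputable def inf : Cpl W → Cpl W → Cpl W := Completion.map₂ (· ⊓ ·)

omit [PosSMulMono ℝ W] in
theorem sup_j (a b : W) : sup (j a) (j b) = j (a ⊔ b) :=
  Completion.map₂_coe_coe a b _ (uc _ abs_sup_sub_sup_le_abs sup_comm)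

omit [PosSMulMono ℝ W] in
theorem inf_j (a b : W) : inf (j a) (j b) = j (a ⊓ b) :=
  Completion.map₂_coe_coe a b _ (uc _ abs_inf_sub_inf_le_abs inf_comm)

omit [NormedSpace ℝ W] [PosSMulMono ℝ W] [IsOrderedAddMonoid W] [SolidSN W] in
@[fun_prop]
theorem cont_sup {Z : Type} [TopologicalSpace Z] {f g : Z → Cpl W} (hf : Continuous f)
    (hg : Continuous g) : Continuous fun z => sup (f z) (g z) := Completion.continuous_map₂ hf hg

omit [NormedSpace ℝ W] [PosSMulMono ℝ W] [IsOrderedAddMonoid W] [SolidSN W] in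
@[fun_prop]
theorem cont_inf {Z : Type} [TopologicalSpace Z] {f g : Z → Cpl W} (hf : Continuous f)
    (hg : Continuous g) : Continuous fun z => inf (f z) (g z) := Completion.continuous_map₂ hf hg

noncomputable instance : Lattice (Cpl W) :=
  @Lattice.mk' _ ⟨sup⟩ ⟨inf⟩
    (fun a b => dense.induction_on₂ (p := fun a b => sup a b = sup b a)
      (isClosed_eq (by fun_prop) (by fun_prop)) (fun a b => by simp only [sup_j, sup_comm]) a b)
    (fun a b c => dense.induction_on₃ (p := fun a b c => sup (sup a b) c = sup a (sup b c))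
      (isClosed_eq (by fun_prop) (by fun_prop)) (fun a b c => by simp only [sup_j, sup_assoc]) a b c)
    (fun a b => dense.induction_on₂ (p := fun a b => inf a b = inf b a)
      (isClosed_eq (by fun_prop) (by fun_prop)) (fun a b => by simp only [inf_j, inf_comm]) a b)
    (fun a b c => dense.induction_on₃ (p := fun a b c => inf (inf a b) c = inf a (inf b c))
      (isClosed_eq (by fun_prop) (by fun_prop)) (fun a b c => by simp only [inf_j, inf_assoc]) a b c)
    (fun a b => dense.induction_on₂ (p := fun a b => sup a (inf a b) = a)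
      (isClosed_eq (by fun_prop) (by fun_prop))
      (fun a b => by simp only [sup_j, inf_j, sup_inf_self]) a b)
    (fun a b => dense.induction_on₂ (p := fun a b => inf a (sup a b) = a)
      (isClosed_eq (by fun_prop) (by fun_prop))
      (fun a b => by simp only [sup_j, inf_j, inf_sup_self]) a b)

omit [PosSMulMono ℝ W] in
theorem le_iff {a b : Cpl W} : a ≤ b ↔ sup a b = b := Iff.rfl

omit [PosSMulMono ℝ W] in
theorem abs_eq (a : Cpl W) : |a| = sup a (-a) := rfl

omit [PosSMulMono ℝ W] in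
theorem abs_j (a : W) : |j a| = j |a| := by
  rw [abs_eq, ← map_neg, sup_j]
  rfl

noncomputable instance inst : BanachLattice (Cpl W) where
  add_le_add_left a b h c := by
    have : sup (a + c) (b + c) = sup a b + c :=
      dense.induction_on₃ (p := fun a b c => sup (a + c) (b + c) = sup a b + c)
        (isClosed_eq (by fun_prop) (by fun_prop))
        (fun a b c => by simp only [← map_add, sup_j, sup_add]) a b c
    rw [le_iff, this, le_iff.1 h]
  smul_le_smul_of_nonneg_left c hc a b h := by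
    have : sup (c • a) (c • b) = c • sup a b :=
      dense.induction_on₂ (p := fun a b => sup (c • a) (c • b) = c • sup a b)
        (isClosed_eq (cont_sup (continuous_fst.const_smul c) (continuous_snd.const_smul c))
          ((cont_sup continuous_fst continuous_snd).const_smul c))
        (fun a b => by simp only [← map_smul, sup_j, smul_sup' hc]) a b
    rw [le_iff, this, le_iff.1 h]
  solid a b h := by
    have h1 : ‖a‖ = ‖sup a (-a)‖ :=
      dense.induction_on (p := fun a => ‖a‖ = ‖sup a (-a)‖) a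
        (isClosed_eq (by fun_prop) (by fun_prop)) fun a => by
          rw [← abs_eq, abs_j, j.norm_map, j.norm_map]
          exact le_antisymm (SolidSN.solid _ _ (abs_abs a).ge) (SolidSN.solid _ _ (abs_abs a).le)
    have h2 : ‖inf (sup a (-a)) (sup b (-b))‖ ≤ ‖b‖ :=
      dense.induction_on₂ (p := fun a b => ‖inf (sup a (-a)) (sup b (-b))‖ ≤ ‖b‖)
        (isClosed_le (by fun_prop) (by fun_prop)) (fun a b => by
          rw [← abs_eq, ← abs_eq, abs_j, abs_j, inf_j, j.norm_map, j.norm_map]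
          refine SolidSN.solid _ _ ?_
          rw [abs_of_nonneg (le_inf (abs_nonneg a) (abs_nonneg b))]
          exact inf_le_right) a b
    have h3 : inf (sup a (-a)) (sup b (-b)) = sup a (-a) := inf_eq_left.2 h
    rwa [h1, ← h3]

theorem exists_ext {Y : Type} [BanachLattice Y] (T : W →ₗ[ℝ] Y) (h : ∀ a, T |a| = |T a|) {M : ℝ}
    (h0 : 0 ≤ M) (hM : ∀ a, ‖T a‖ ≤ M * ‖a‖) :
    ∃ S : Cpl W →L[ℝ] Y, IsHom S ∧ ‖S‖ ≤ M ∧ ∀ a, S (j a) = T a := by
  have hd : DenseRange (j (W := W)).toLinearMap := dense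
  have hn : ∀ a, ‖T a‖ ≤ M * ‖(j (W := W)).toLinearMap a‖ := fun a =>
    (hM a).trans_eq (congrArg _ (j.norm_map a).symm)
  have he : ∀ a, T.extendOfNorm (j (W := W)).toLinearMap (j a) = T a :=
    LinearMap.extendOfNorm_eq hd ⟨M, hn⟩
  refine ⟨T.extendOfNorm (j (W := W)).toLinearMap, fun x => ?_,
    LinearMap.opNorm_extendOfNorm_le hd h0 hn, he⟩
  refine dense.induction_on (p := fun x => T.extendOfNorm (j (W := W)).toLinearMap |x| =
    |T.extendOfNorm (j (W := W)).toLinearMap x|) x (isClosed_eq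
      ((ContinuousLinearMap.continuous _).comp cont_abs)
      (cont_abs.comp (ContinuousLinearMap.continuous _))) fun a => ?_
  rw [abs_j, he, he, h]

end Cpl

/-- The free vector lattice, as functions given by terms. -/
def FV (ι : Type) : Submodule ℝ ((ι → ℝ) → ℝ) where
  carrier := Set.range fun (t : Tm ι) z => t.eval z
  zero_mem' := ⟨.zero, rfl⟩
  add_mem' := by
    rintro _ _ ⟨s, rfl⟩ ⟨t, rfl⟩
    exact ⟨s.add t, rfl⟩
  smul_mem' := by
    rintro c _ ⟨s, rfl⟩
    exact ⟨s.smul c, rfl⟩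

/-- The free vector lattice carrying a seminorm. -/
def FW {ι : Type} (_ : Seminorm ℝ (FV ι)) : Type := FV ι

section
variable {ι : Type}

noncomputable instance : Lattice (FV ι) :=
  Subtype.lattice (P := fun f => f ∈ FV ι) (by
    rintro _ _ ⟨s, rfl⟩ ⟨t, rfl⟩
    exact ⟨s.sup t, rfl⟩) (by
    rintro _ _ ⟨s, rfl⟩ ⟨t, rfl⟩
    exact ⟨s.inf t, rfl⟩)

instance : IsOrderedAddMonoid (FV ι) :=
  ⟨fun _ _ h c z => add_le_add_left (h z) (c.1 z), fun _ _ h c z => add_le_add_right (h z) (c.1 z)⟩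

instance : PosSMulMono ℝ (FV ι) := ⟨fun _ hc _ _ h z => mul_le_mul_of_nonneg_left (h z) hc⟩

/-- The function given by a term. -/
def mkV (t : Tm ι) : FV ι := ⟨_, t, rfl⟩

theorem mkV_surj (f : FV ι) : ∃ t, mkV t = f := by
  obtain ⟨_, t, rfl⟩ := f
  exact ⟨t, rfl⟩

theorem eval_mkV (t : Tm ι) : t.eval (fun i => mkV (.var i)) = mkV t := by
  induction t with
  | var i => rfl
  | zero => rfl
  | add s t h k => rw [Tm.eval_add, h, k]; rfl
  | smul c t h => rw [Tm.eval_smul, h]; rfl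
  | sup s t h k => rw [Tm.eval_sup, h, k]; rfl
  | inf s t h k => rw [Tm.eval_inf, h, k]; rfl

theorem exists_ev {Y : Type} [BanachLattice Y] (y : ι → Y) :
    ∃ T : FV ι →ₗ[ℝ] Y, (∀ t, T (mkV t) = t.eval y) ∧ ∀ a, T |a| = |T a| := by
  choose g hg using mkV_surj (ι := ι)
  have k : ∀ t, (g (mkV t)).eval y = t.eval y := fun t =>
    yudin_eq y _ _ fun z => congrFun (congrArg Subtype.val (hg (mkV t))) z
  refine ⟨⟨⟨fun f => (g f).eval y, fun a b => ?_⟩, fun c a => ?_⟩, k, fun a => ?_⟩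
  · obtain ⟨s, rfl⟩ := mkV_surj a
    obtain ⟨t, rfl⟩ := mkV_surj b
    rw [k, k]
    exact k (s.add t)
  · obtain ⟨s, rfl⟩ := mkV_surj a
    exact (k (s.smul c)).trans (congrArg (c • ·) (k s).symm)
  · obtain ⟨s, rfl⟩ := mkV_surj a
    have : |mkV s| = mkV s.abs := Subtype.ext (funext fun z => (Tm.eval_abs z s).symm)
    change (g |mkV s|).eval y = |(g (mkV s)).eval y|
    rw [this, k, k, Tm.eval_abs]

variable (ρ : Seminorm ℝ (FV ι))

instance : AddCommGroup (FW ρ) := (inferInstance : AddCommGroup (FV ι))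
noncomputable instance : Module ℝ (FW ρ) := (inferInstance : Module ℝ (FV ι))
noncomputable instance : Lattice (FW ρ) := (inferInstance : Lattice (FV ι))
noncomputable instance : SeminormedAddCommGroup (FW ρ) :=
  AddGroupSeminorm.toSeminormedAddCommGroup (E := FW ρ) ρ.toAddGroupSeminorm
noncomputable instance : NormedSpace ℝ (FW ρ) := ⟨fun c x => (map_smul_eq_mul ρ c x).le⟩
instance : IsOrderedAddMonoid (FW ρ) := (inferInstance : IsOrderedAddMonoid (FV ι))
instance : PosSMulMono ℝ (FW ρ) := (inferInstance : PosSMulMono ℝ (FV ι))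

end

/-- The data of a universal Banach lattice given by generators and norm relations. -/
structure IsUniv {ι : Type} (R : Set (Tm ι × ℝ)) {A : Type} [BanachLattice A] (δ : ι → A) :
    Prop where
  gen : ∀ i, ‖δ i‖ ≤ 1
  rel : ∀ r ∈ R, ‖r.1.eval δ‖ ≤ r.2
  dense : DenseRange fun t : Tm ι => t.eval δ
  ext : ∀ (Y : Type) [BanachLattice Y] (y : ι → Y) (M : ℝ), 0 ≤ M → (∀ i, ‖y i‖ ≤ M) →
    (∀ r ∈ R, ‖r.1.eval y‖ ≤ M * r.2) → ∃ T : A →L[ℝ] Y, IsHom T ∧ ‖T‖ ≤ M ∧ ∀ i, T (δ i) = y i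

theorem exists_univ {ι : Type} (R : Set (Tm ι × ℝ)) (hR : ∀ r ∈ R, 0 ≤ r.2) :
    ∃ (A : Type) (_ : BanachLattice A) (δ : ι → A), IsUniv R δ := by
  obtain ⟨ρ, h1, h2⟩ := exists_sSup {σ : Seminorm ℝ (FV ι) | (∀ a b, |a| ≤ |b| → σ a ≤ σ b) ∧
      (∀ i, σ (mkV (.var i)) ≤ 1) ∧ ∀ r ∈ R, σ (mkV r.1) ≤ r.2} fun x => by
    obtain ⟨t, rfl⟩ := mkV_surj x
    have k : ∀ (σ : Seminorm ℝ (FV ι)), (∀ a b, |a| ≤ |b| → σ a ≤ σ b) → ∀ a b c,
        |c| ≤ |a| + |b| → σ c ≤ σ a + σ b := fun σ h a b c hc =>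
      (h _ _ (hc.trans (le_abs_self _))).trans ((map_add_le_add σ _ _).trans
        (add_le_add (h _ _ (abs_abs a).le) (h _ _ (abs_abs b).le)))
    induction t with
    | var i => exact ⟨1, fun σ h => h.2.1 i⟩
    | zero => exact ⟨0, fun σ _ => (map_zero σ).le⟩
    | add s t h1 h2 =>
      obtain ⟨a, ha⟩ := h1
      obtain ⟨b, hb⟩ := h2
      exact ⟨a + b, fun σ h => (map_add_le_add σ (mkV s) (mkV t)).trans
        (add_le_add (ha σ h) (hb σ h))⟩
    | smul c t h1 =>
      obtain ⟨a, ha⟩ := h1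
      exact ⟨‖c‖ * a, fun σ h => (map_smul_eq_mul σ c (mkV t)).trans_le
        (mul_le_mul_of_nonneg_left (ha σ h) (norm_nonneg _))⟩
    | sup s t h1 h2 =>
      obtain ⟨a, ha⟩ := h1
      obtain ⟨b, hb⟩ := h2
      exact ⟨a + b, fun σ h => (k σ h.1 (mkV s) (mkV t) (mkV (s.sup t))
        fun z => abs_sup_le (s.eval z) (t.eval z)).trans
        (add_le_add (ha σ h) (hb σ h))⟩
    | inf s t h1 h2 =>
      obtain ⟨a, ha⟩ := h1
      obtain ⟨b, hb⟩ := h2
      exact ⟨a + b, fun σ h => (k σ h.1 (mkV s) (mkV t) (mkV (s.inf t))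
        fun z => abs_inf_le (s.eval z) (t.eval z)).trans
        (add_le_add (ha σ h) (hb σ h))⟩
  haveI : SolidSN (FW ρ) := ⟨fun a b hab => h2 _ _ (apply_nonneg _ _) fun σ hσ =>
    (hσ.1 a b hab).trans (h1 σ hσ b)⟩
  let δ : ι → Cpl (FW ρ) := fun i => Cpl.j (mkV (.var i))
  have hδ : ∀ t : Tm ι, t.eval δ = Cpl.j (W := FW ρ) (mkV t) := fun t => by
    have := Tm.map_eval (Cpl.j (W := FW ρ)).toLinearMap (fun a b => (Cpl.sup_j a b).symm)
      (fun a b => (Cpl.inf_j a b).symm) (fun i => mkV (.var i)) t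
    exact this.symm.trans (congrArg _ (eval_mkV t))
  refine ⟨Cpl (FW ρ), inferInstance, δ, fun i => (Cpl.j.norm_map _).trans_le
    (h2 _ _ zero_le_one fun σ h => h.2.1 i), fun r hr => ?_, ?_, fun Y _ y M h0 k1 k2 => ?_⟩
  · rw [hδ, Cpl.j.norm_map]
    exact h2 _ _ (hR r hr) fun σ h => h.2.2 r hr
  · refine Cpl.dense.mono ?_
    rintro _ ⟨a, rfl⟩
    obtain ⟨t, rfl⟩ := mkV_surj a
    exact ⟨t, hδ t⟩
  obtain ⟨T, t1, t2⟩ := exists_ev y
  have hb : ∀ a : FV ι, ‖T a‖ ≤ M * ρ a := fun a => by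
    rcases h0.eq_or_lt with rfl | h
    · obtain ⟨t, rfl⟩ := mkV_surj a
      have : y = fun _ => (0 : ℝ →L[ℝ] Y) 0 := funext fun i => norm_le_zero_iff.1 (k1 i)
      rw [t1, this, ← isHom_zero.eval (fun _ => (0 : ℝ)) t]
      simp
    have k : ∀ a, ((normSeminorm ℝ Y).comp (M⁻¹ • T)) a = M⁻¹ * ‖T a‖ := fun a => by
      change ‖M⁻¹ • T a‖ = _
      rw [norm_smul, Real.norm_of_nonneg (by positivity)]
    rw [← inv_mul_le_iff₀ h, ← k]
    refine h1 _ ⟨fun a b hab => ?_, fun i => ?_, fun r hr => ?_⟩ a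
    · rw [k, k]
      refine mul_le_mul_of_nonneg_left (HasSolidNorm.solid ?_) (by positivity)
      rw [← t2, ← t2, ← sup_eq_right, ← map_sup_of_abs T t2, sup_eq_right.2 hab]
    · rw [k, t1, inv_mul_le_iff₀ h, mul_one]
      exact k1 i
    · rw [k, t1, inv_mul_le_iff₀ h]
      exact k2 r hr
  obtain ⟨S, s1, s2, s3⟩ := Cpl.exists_ext (W := FW ρ) T t2 h0 hb
  exact ⟨S, s1, s2, fun i => (s3 _).trans (t1 _)⟩

theorem hom_ext {ι A Y : Type} [BanachLattice A] [BanachLattice Y] {δ : ι → A}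
    (hd : DenseRange fun t : Tm ι => t.eval δ) {S T : A →L[ℝ] Y} (hS : IsHom S) (hT : IsHom T)
    (h : ∀ i, S (δ i) = T (δ i)) : S = T := by
  ext x
  refine hd.induction_on (p := fun x => S x = T x) x (isClosed_eq S.continuous T.continuous)
    fun t => ?_
  rw [hS.eval, hT.eval]
  exact congrArg (fun y => t.eval y) (funext h)

end Pool.Agent.Lib.helper23.BL
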