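import Mathlib
import Pool.Agent.Lib.helper23.BLF

set_option autoImplicit false

namespace Pool.Agent.Lib.helper23.BL

open Tm

theorem Tm.lip {ι : Type} (t : Tm ι) : ∃ L : ℝ, 0 ≤ L ∧ ∀ (z z' : ι → ℝ) (r : ℝ), 0 ≤ r →
    (∀ i ∈ t.vars, |z i - z' i| ≤ r) → |t.eval z - t.eval z'| ≤ L * r := by
  have two : ∀ (s t : Tm ι) (op : ℝ → ℝ → ℝ), (∀ a b c d, |op a b - op c d| ≤ |a - c| + |b - d|) →
      (∃ L : ℝ, 0 ≤ L ∧ ∀ (z z' : ι → ℝ) (r : ℝ), 0 ≤ r →
        (∀ i ∈ s.vars, |z i - z' i| ≤ r) → |s.eval z - s.eval z'| ≤ L * r) →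
      (∃ L : ℝ, 0 ≤ L ∧ ∀ (z z' : ι → ℝ) (r : ℝ), 0 ≤ r →
        (∀ i ∈ t.vars, |z i - z' i| ≤ r) → |t.eval z - t.eval z'| ≤ L * r) →
      ∃ L : ℝ, 0 ≤ L ∧ ∀ (z z' : ι → ℝ) (r : ℝ), 0 ≤ r → (∀ i ∈ s.vars ∪ t.vars, |z i - z' i| ≤ r) →
        |op (s.eval z) (t.eval z) - op (s.eval z') (t.eval z')| ≤ L * r :=
    fun s t op h ⟨a, ha, h1⟩ ⟨b, hb, h2⟩ => ⟨a + b, add_nonneg ha hb, fun z z' r hr k =>
      (h _ _ _ _).trans (by
        rw [add_mul]
        exact add_le_add (h1 z z' r hr fun i hi => k i (Or.inl hi))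
          (h2 z z' r hr fun i hi => k i (Or.inr hi)))⟩
  induction t with
  | var i => exact ⟨1, zero_le_one, fun z z' r _ h => by simpa using h i rfl⟩
  | zero => exact ⟨0, le_rfl, fun z z' r _ _ => by simp⟩
  | add s t h1 h2 =>
    exact two s t (· + ·) (fun a b c d => by
      rw [add_sub_add_comm]
      exact abs_add_le _ _) h1 h2
  | smul c t h =>
    obtain ⟨a, ha, h⟩ := h
    refine ⟨|c| * a, by positivity, fun z z' r hr k => ?_⟩
    rw [eval_smul, eval_smul, smul_eq_mul, smul_eq_mul, ← mul_sub, abs_mul, mul_assoc]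
    exact mul_le_mul_of_nonneg_left (h z z' r hr k) (abs_nonneg _)
  | sup s t h1 h2 =>
    exact two s t max (fun a b c d => (abs_max_sub_max_le_max a b c d).trans
      (max_le_add_of_nonneg (abs_nonneg _) (abs_nonneg _))) h1 h2
  | inf s t h1 h2 =>
    exact two s t min (fun a b c d => (abs_min_sub_min_le_max a b c d).trans
      (max_le_add_of_nonneg (abs_nonneg _) (abs_nonneg _))) h1 h2

theorem Tm.homog {ι : Type} (t : Tm ι) {c : ℝ} (hc : 0 ≤ c) (z : ι → ℝ) :
    t.eval (fun i => c * z i) = c * t.eval z :=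
  ((isHom_id.smul hc).eval z t).symm

section
variable {V : Type} [AddCommGroup V] [Lattice V] [Module ℝ V]

/-- Soft thresholding. -/
def soft (a b : V) : V := (a - b) ⊔ 0 - (0 - a - b) ⊔ 0

/-- Averaged soft thresholding over many scales. -/
noncomputable def avg (N : ℕ) (a u : V) : V :=
  (N : ℝ)⁻¹ • ∑ k ∈ Finset.range N, soft a (((N : ℝ) ^ (k + 1)) • |u|)

/-- The term of the averaged thresholding. -/
noncomputable def avT {ι : Type} (N : ℕ) (i : ι) : Tm (Option ι) :=
  smul (N : ℝ)⁻¹ (sum ((List.range N).map fun k =>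
    sub (sup (sub (var (some i)) (smul ((N : ℝ) ^ (k + 1)) (abs (var none)))) zero)
      (sup (sub (sub zero (var (some i))) (smul ((N : ℝ) ^ (k + 1)) (abs (var none)))) zero)))

theorem eval_avT {ι : Type} (N : ℕ) (i : ι) (w : Option ι → V) :
    (avT N i).eval w = avg N (w (some i)) (w none) := by
  simp only [avT, eval_smul, eval_sum, List.map_map, avg]
  refine congrArg _ (congrArg List.sum (List.map_congr_left fun k _ => ?_))
  simp [soft]

end

theorem soft_le (a : ℝ) {b : ℝ} (hb : 0 ≤ b) :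
    |soft a b| ≤ |a| ∧ |soft a b - a| ≤ b ∧ (|a| ≤ b → soft a b = 0) := by
  unfold soft
  rcases abs_cases a with h | h <;> rcases max_cases (a - b) 0 with k | k <;>
    rcases max_cases (0 - a - b) 0 with l | l <;> rw [k.1, l.1, h.1] <;>
    refine ⟨abs_le.2 ⟨?_, ?_⟩, abs_le.2 ⟨?_, ?_⟩, fun _ => ?_⟩ <;> linarith [h.2, k.2, l.2]

theorem avg_le (N : ℕ) (a u : ℝ) : |avg N a u| ≤ |a| := by
  rcases N.eq_zero_or_pos with rfl | hN
  · simp [avg]
  have h0 : (0 : ℝ) < N := by exact_mod_cast hN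
  rw [avg, smul_eq_mul, abs_mul, abs_of_pos (inv_pos.2 h0), inv_mul_le_iff₀ h0]
  refine (Finset.abs_sum_le_sum_abs _ _).trans ((Finset.sum_le_sum fun k _ =>
    (soft_le a (by positivity)).1).trans ?_)
  simp

theorem avg_zero {N : ℕ} (hN : 1 ≤ N) {a u : ℝ} (h : |a| ≤ N * |u|) : avg N a u = 0 := by
  rw [avg, Finset.sum_eq_zero fun k _ => (soft_le a (by positivity)).2.2 (h.trans ?_), smul_zero]
  exact mul_le_mul_of_nonneg_right (le_self_pow₀ (by exact_mod_cast hN) k.succ_ne_zero)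
    (abs_nonneg _)

theorem avg_near {N : ℕ} (hN : 1 ≤ N) {e : ℝ} (he : 0 ≤ e) (u : ℝ) : ∃ g : ℝ, 0 ≤ g ∧ g ≤ 1 ∧
    ∀ a, |a| ≤ e → |avg N a u - g * a| ≤ 2 * e / N := by
  classical
  have h1 : (1 : ℝ) ≤ N := by exact_mod_cast hN
  have h0 : (0 : ℝ) < N := by linarith
  let good : ℕ → Prop := fun k => (N : ℝ) ^ (k + 1) * |u| ≤ e / N
  let B := (Finset.range N).filter fun k => ¬ good k ∧ (N : ℝ) ^ (k + 1) * |u| < e
  have hB : B.card ≤ 1 := by
    have k : ∀ k ∈ B, ∀ l ∈ B, ¬ k < l := fun k hk l hl hkl => by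
      have a1 := not_le.1 (Finset.mem_filter.1 hk).2.1
      have a2 := (Finset.mem_filter.1 hl).2.2
      have a3 : (N : ℝ) ^ (k + 1 + 1) ≤ N ^ (l + 1) := pow_le_pow_right₀ h1 (by omega)
      rw [div_lt_iff₀ h0] at a1
      have a4 := mul_le_mul_of_nonneg_right a3 (abs_nonneg u)
      rw [pow_succ] at a4
      linarith
    exact Finset.card_le_one.2 fun a ha b hb => le_antisymm (not_lt.1 (k b hb a ha))
      (not_lt.1 (k a ha b hb))
  refine ⟨(N : ℝ)⁻¹ * ∑ k ∈ Finset.range N, if good k then 1 else 0, by positivity, ?_,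
    fun a ha => ?_⟩
  · rw [inv_mul_le_iff₀ h0]
    refine (Finset.sum_le_sum (g := fun _ => (1 : ℝ)) fun k _ => by split_ifs <;> simp).trans ?_
    simp
  rw [avg, smul_eq_mul, mul_assoc, ← mul_sub, Finset.sum_mul, ← Finset.sum_sub_distrib, abs_mul,
    abs_of_pos (inv_pos.2 h0), inv_mul_le_iff₀ h0, mul_div_cancel₀ _ h0.ne']
  refine (Finset.abs_sum_le_sum_abs _ _).trans ((Finset.sum_le_sum
    (g := fun k => e / N + if k ∈ B then e else 0) fun k hk => ?_).trans ?_)
  · have s := soft_le a (b := (N : ℝ) ^ (k + 1) • |u|) (by positivity)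
    have : 0 ≤ e / N := by positivity
    by_cases hg : good k
    · rw [if_pos hg, one_mul]
      exact (s.2.1.trans hg).trans (le_add_of_nonneg_right (by split_ifs <;> simp [he]))
    · rw [if_neg hg, zero_mul, sub_zero]
      by_cases hb : k ∈ B
      · rw [if_pos hb]
        exact (s.1.trans ha).trans (le_add_of_nonneg_left this)
      · rw [if_neg hb, s.2.2 (ha.trans (not_lt.1 fun h => hb (Finset.mem_filter.2 ⟨hk, hg, h⟩)))]
        simpa using this
  · rw [Finset.sum_add_distrib, Finset.sum_const, Finset.card_range, nsmul_eq_mul,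
      mul_div_cancel₀ _ h0.ne', Finset.sum_ite_mem, Finset.sum_const, nsmul_eq_mul, two_mul]
    have : ((Finset.range N ∩ B).card : ℝ) ≤ 1 := by
      exact_mod_cast (Finset.card_le_card Finset.inter_subset_right).trans hB
    nlinarith

variable {X : Type} [BanachLattice X]

theorem mult {ι : Type} (J : ClosedIdeal X) (x : ι → X) (F : Finset (Tm ι)) {η : ℝ} (hη : 0 < η) :
    ∃ x' : ι → X, (∀ i, Quo.mk J (x' i) = Quo.mk J (x i)) ∧ (∀ i, |x' i| ≤ |x i|) ∧
      ∀ t ∈ F, ‖t.eval x'‖ ≤ ‖Quo.mk J (t.eval x)‖ + η := by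
  classical
  choose L L0 hL using Tm.lip (ι := ι)
  choose v v1 v2 using fun t : Tm ι => exists_lift (Quo.mk J (t.eval x))
    (lt_add_of_pos_right _ (half_pos hη))
  let u : X := ∑ t ∈ F, |t.eval x - v t|
  have u0 : 0 ≤ u := Finset.sum_nonneg fun _ _ => abs_nonneg _
  have uJ : Quo.mk J u = 0 := mk_eq_zero.2 (J.sub.sum_mem fun t _ =>
    J.solid _ ((Quo.mk_eq J).1 (v1 t).symm) _ (abs_abs _).le)
  let G : List ι := (F.finite_toSet.biUnion fun t _ => t.vars_finite).toFinset.toList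
  let E : Tm (Option ι) := sum (G.map fun i => abs (var (some i)))
  let w : Option ι → X := fun o => o.elim u x
  obtain ⟨N, hN⟩ := exists_nat_ge (max 1 ((1 + 2 * ∑ t ∈ F, L t) * ‖E.eval w‖ / (η / 2)))
  have N1 : 1 ≤ N := by exact_mod_cast (le_max_left _ _).trans hN
  have N0 : (0 : ℝ) < N := by exact_mod_cast N1
  refine ⟨fun i => (avT N i).eval w, fun i => ?_, fun i => ?_, fun t ht => ?_⟩
  · rw [(mk_hom J).eval, eval_avT]
    change avg N (Quo.mk J (x i)) (Quo.mk J u) = _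
    have : soft (Quo.mk J (x i)) 0 = Quo.mk J (x i) := by
      rw [soft, sub_zero, sub_zero, zero_sub]
      exact posPart_sub_negPart _
    simp [avg, uJ, this, ← Nat.cast_smul_eq_nsmul ℝ, inv_smul_smul₀ N0.ne']
  · have := yudin w (abs (avT N i)) (abs (var (some i))) fun z => by
      simp only [eval_abs, eval_avT, eval_var]
      exact avg_le _ _ _
    rwa [eval_abs, eval_abs] at this
  have key := yudin w (abs (bind (avT N) t)) (add (sup (sub (abs (bind (fun i => var (some i)) t))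
    (abs (var none))) zero) (smul ((1 + 2 * L t) / N) E)) fun z => by
      simp only [eval_abs, eval_avT, eval_var, eval_bind, eval_add, eval_sup, eval_sub, eval_zero,
        eval_smul, smul_eq_mul]
      have e0 : ∀ i ∈ t.vars, |z (some i)| ≤ E.eval z := fun i hi => by
        simp only [E, eval_sum, List.map_map]
        refine List.single_le_sum (fun a ha => ?_) _ (List.mem_map.2 ⟨i, ?_, by simp⟩)
        · obtain ⟨j, -, rfl⟩ := List.mem_map.1 ha
          simp
        · simp only [G, Finset.mem_toList, Set.Finite.mem_toFinset, Set.mem_iUnion]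
          exact ⟨t, ht, hi⟩
      have e1 : 0 ≤ E.eval z := by
        simp only [E, eval_sum, List.map_map]
        refine List.sum_nonneg fun a ha => ?_
        obtain ⟨j, -, rfl⟩ := List.mem_map.1 ha
        simp
      have l0 := L0 t
      rcases le_total (E.eval z) (N * |z none|) with h | h
      · rw [eval_congr (y := fun i => 0 * z (some i)) fun i hi => by
          rw [avg_zero N1 ((e0 i hi).trans h), zero_mul], t.homog le_rfl, zero_mul, abs_zero]
        positivity
      · obtain ⟨g, g0, g1, hg⟩ := avg_near N1 e1 (z none)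
        have k := hL t (fun i => avg N (z (some i)) (z none)) (fun i => g * z (some i)) _
          (by positivity) fun i hi => hg _ (e0 i hi)
        rw [t.homog g0] at k
        have k1 := abs_sub_abs_le_abs_sub (t.eval fun i => avg N (z (some i)) (z none))
          (g * t.eval fun i => z (some i))
        have k2 : |g * t.eval fun i => z (some i)| ≤ |t.eval fun i => z (some i)| := by
          rw [abs_mul, abs_of_nonneg g0]
          exact mul_le_of_le_one_left (abs_nonneg _) g1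
        have k3 := le_max_left (|t.eval fun i => z (some i)| - |z none|) 0
        have k4 : |z none| ≤ E.eval z / N := by rwa [le_div_iff₀' N0]
        have k5 : (1 + 2 * L t) / N * E.eval z = E.eval z / N + L t * (2 * E.eval z / N) := by ring
        linarith
  simp only [eval_abs, eval_var, eval_bind, eval_add, eval_sup, eval_sub, eval_zero,
    eval_smul] at key
  have a1 : ‖(|t.eval x| - |u|) ⊔ 0‖ ≤ ‖v t‖ := by
    refine HasSolidNorm.solid ?_
    rw [abs_of_nonneg le_sup_right, abs_of_nonneg u0]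
    refine sup_le ?_ (abs_nonneg _)
    have b1 := abs_add_le (t.eval x - v t) (v t)
    rw [sub_add_cancel] at b1
    have b2 : |t.eval x - v t| ≤ u :=
      Finset.single_le_sum (f := fun t : Tm ι => |t.eval x - v t|) (fun _ _ => abs_nonneg _) ht
    exact sub_le_iff_le_add'.2 (b1.trans (add_le_add_left b2 _))
  have a2 : ‖((1 + 2 * L t) / N) • E.eval w‖ ≤ η / 2 := by
    have b1 : L t ≤ ∑ t ∈ F, L t := Finset.single_le_sum (fun t _ => L0 t) ht
    have b2 := (le_max_right _ _).trans hN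
    have l0 := L0 t
    rw [div_le_iff₀ (half_pos hη)] at b2
    rw [norm_smul, Real.norm_of_nonneg (by positivity), div_mul_eq_mul_div, div_le_iff₀ N0]
    nlinarith [norm_nonneg (E.eval w)]
  refine (HasSolidNorm.solid (key.trans (le_abs_self _))).trans ((norm_add_le _ _).trans ?_)
  have := v2 t
  change ‖(|t.eval x| - |u|) ⊔ 0‖ + _ ≤ _
  linarith

theorem lift_rel {ι : Type} {R : Set (Tm ι × ℝ)} (hR : R.Finite) (h0 : ∀ r ∈ R, 0 < r.2)
    {J : ClosedIdeal X} (y : ι → Quo J) {M ε : ℝ} (hM : 0 ≤ M) (hε : 0 < ε) (h1 : ∀ i, ‖y i‖ ≤ M)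
    (h2 : ∀ r ∈ R, ‖r.1.eval y‖ ≤ M * r.2) : ∃ x : ι → X, (∀ i, Quo.mk J (x i) = y i) ∧
      (∀ i, ‖x i‖ ≤ (1 + ε) * M) ∧ ∀ r ∈ R, ‖r.1.eval x‖ ≤ (1 + ε) * M * r.2 := by
  classical
  rcases hM.eq_or_lt with rfl | hM
  · refine ⟨fun _ => (0 : ℝ →L[ℝ] X) 0, fun i => by simp [norm_le_zero_iff.1 (h1 i)], by simp,
      fun r _ => ?_⟩
    rw [← isHom_zero.eval (fun _ => (0 : ℝ))]
    simp
  obtain ⟨c, hc, hc'⟩ : ∃ c : ℝ, 0 < c ∧ ∀ r ∈ R, c ≤ r.2 := by
    rcases R.eq_empty_or_nonempty with rfl | h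
    · exact ⟨1, one_pos, by simp⟩
    · obtain ⟨r, hr, h⟩ := Set.exists_min_image R (·.2) hR h
      exact ⟨r.2, h0 r hr, h⟩
  choose x x1 x2 using fun i => exists_lift_le (y i) (h1 i) hε
  obtain ⟨x', k1, k2, k3⟩ := mult J x (hR.toFinset.image (·.1)) (η := ε * M * c) (by positivity)
  refine ⟨x', fun i => (k1 i).trans (x1 i), fun i => (HasSolidNorm.solid (k2 i)).trans (x2 i),
    fun r hr => (k3 _ (Finset.mem_image_of_mem _ (hR.mem_toFinset.2 hr))).trans ?_⟩
  rw [(mk_hom J).eval, funext x1]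
  have := mul_le_mul_of_nonneg_left (hc' r hr) (show 0 ≤ ε * M by positivity)
  linarith [h2 r hr]

theorem IsUniv.projective {ι : Type} {R : Set (Tm ι × ℝ)} {δ : ι → X} (h : IsUniv R δ)
    (hR : R.Finite) (h0 : ∀ r ∈ R, 0 < r.2) : Projective X := by
  intro Z _ J T hT ε hε
  obtain ⟨x, x1, x2, x3⟩ := lift_rel hR h0 (fun i => T (δ i)) (norm_nonneg T) hε
    (fun i => (T.le_opNorm _).trans (mul_le_of_le_one_right (norm_nonneg _) (h.gen i)))
    fun r hr => by
      rw [← hT.eval]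
      exact (T.le_opNorm _).trans (mul_le_mul_of_nonneg_left (h.rel r hr) (norm_nonneg _))
  obtain ⟨S, s1, s2, s3⟩ := h.ext Z x _ (by positivity) x2 x3
  refine ⟨S, s1, fun y => DFunLike.congr_fun (hom_ext h.dense ((mk_hom J).comp s1) hT
    fun i => ?_) y, s2⟩
  rw [ContinuousLinearMap.comp_apply, s3, x1]

end Pool.Agent.Lib.helper23.BL
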