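import Mathlib
import Pool.Agent.Lib.helper23.BLG

set_option autoImplicit false

namespace Pool.Agent.Lib.helper23.BL

/-- Terms with rational coefficients. -/
inductive TQ (ι : Type) : Type
  | var (i : ι) : TQ ι
  | zero : TQ ι
  | add (s t : TQ ι) : TQ ι
  | smul (c : ℚ) (t : TQ ι) : TQ ι
  | sup (s t : TQ ι) : TQ ι
  | inf (s t : TQ ι) : TQ ι
  deriving Countable

instance {ι : Type} : Nonempty (TQ ι) := ⟨.zero⟩

/-- A rational term as a term. -/
def TQ.tm {ι : Type} : TQ ι → Tm ι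
  | var i => .var i
  | zero => .zero
  | add s t => .add s.tm t.tm
  | smul c t => .smul c t.tm
  | sup s t => .sup s.tm t.tm
  | inf s t => .inf s.tm t.tm

variable {X : Type} [BanachLattice X]

theorem eval_mem_closure {ι : Type} (δ : ι → X) (t : Tm ι) :
    t.eval δ ∈ closure (Set.range fun q : TQ ι => q.tm.eval δ) := by
  induction t with
  | var i => exact subset_closure ⟨.var i, rfl⟩
  | zero => exact subset_closure ⟨.zero, rfl⟩
  | add s t h k =>
    refine map_mem_closure₂ (f := fun a b : X => a + b) continuous_add h k ?_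
    rintro _ ⟨a, rfl⟩ _ ⟨b, rfl⟩
    exact ⟨a.add b, rfl⟩
  | smul c t h =>
    refine map_mem_closure₂ (f := fun (a : ℝ) (b : X) => a • b) continuous_smul (Rat.denseRange_cast c) h ?_
    rintro _ ⟨a, rfl⟩ _ ⟨b, rfl⟩
    exact ⟨b.smul a, rfl⟩
  | sup s t h k =>
    refine map_mem_closure₂ (f := fun a b : X => a ⊔ b) continuous_sup h k ?_
    rintro _ ⟨a, rfl⟩ _ ⟨b, rfl⟩
    exact ⟨a.sup b, rfl⟩
  | inf s t h k =>
    refine map_mem_closure₂ (f := fun a b : X => a ⊓ b) continuous_inf h k ?_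
    rintro _ ⟨a, rfl⟩ _ ⟨b, rfl⟩
    exact ⟨a.inf b, rfl⟩

theorem dense_rat {ι : Type} {δ : ι → X} (h : DenseRange fun t : Tm ι => t.eval δ) :
    DenseRange fun q : TQ ι => q.tm.eval δ := fun x =>
  closure_minimal (by
    rintro _ ⟨t, rfl⟩
    exact eval_mem_closure δ t) isClosed_closure (h x)

theorem sep_of_dense {ι : Type} [Countable ι] {δ : ι → X}
    (h : DenseRange fun t : Tm ι => t.eval δ) : TopologicalSpace.SeparableSpace X :=
  ⟨⟨_, Set.countable_range _, dense_rat h⟩⟩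

theorem exists_gen (X : Type) [BanachLattice X] [TopologicalSpace.SeparableSpace X] :
    ∃ y : ℕ → X, (∀ n, ‖y n‖ ≤ 1) ∧ DenseRange fun t : Tm ℕ => t.eval y := by
  obtain ⟨u, hu⟩ := TopologicalSpace.exists_dense_seq X
  refine ⟨fun n => (‖u n‖ + 1)⁻¹ • u n, fun n => ?_, hu.mono ?_⟩
  · rw [norm_smul, Real.norm_of_nonneg (by positivity), inv_mul_le_iff₀ (by positivity)]
    simp
  · rintro _ ⟨n, rfl⟩
    exact ⟨.smul (‖u n‖ + 1) (.var n), smul_inv_smul₀ (by positivity) _⟩

end Pool.Agent.Lib.helper23.BL
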