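import Mathlib
import Pool.Agent.Lib.helper23.BLH

set_option autoImplicit false

namespace Pool.Agent.Lib.helper23.BL

variable {A X Y : Type} [BanachLattice A] [BanachLattice X] [BanachLattice Y]

/-- The closed ideal generated by a set. -/
def genIdeal (s : Set X) : ClosedIdeal X where
  sub := ⨅ J : {J : ClosedIdeal X // s ⊆ J.sub}, J.1.sub
  closed := by
    rw [Submodule.coe_iInf]
    exact isClosed_iInter fun J => J.1.closed
  solid a ha b hb := (Submodule.mem_iInf _).2 fun J =>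
    J.1.solid a ((Submodule.mem_iInf _).1 ha J) b hb

theorem subset_genIdeal (s : Set X) : s ⊆ (genIdeal s).sub := fun _ hx =>
  (Submodule.mem_iInf _).2 fun J => J.2 hx

theorem genIdeal_le {s : Set X} {J : ClosedIdeal X} (h : s ⊆ J.sub) : (genIdeal s).sub ≤ J.sub :=
  fun _ hx => (Submodule.mem_iInf _).1 hx ⟨J, h⟩

theorem exists_inv (T : X →L[ℝ] Y) (hT : IsHom T) (h : ∀ x, ‖T x‖ = ‖x‖) (hd : DenseRange T) :
    ∃ S : Y →L[ℝ] X, IsHom S ∧ (∀ y, ‖S y‖ = ‖y‖) ∧ ∀ y, T (S y) = y := by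
  let f : X →ₗᵢ[ℝ] Y := ⟨T.toLinearMap, h⟩
  have hs : Function.Surjective f := by
    rw [← Set.range_eq_univ, ← f.isometry.isClosedEmbedding.isClosed_range.closure_eq]
    exact hd.closure_range
  let e := LinearIsometryEquiv.ofSurjective f hs
  have k : ∀ y, T (e.symm y) = y := e.apply_symm_apply
  refine ⟨e.symm.toContinuousLinearEquiv, fun y => f.injective ?_, e.symm.norm_map, k⟩
  change T (e.symm |y|) = T |e.symm y|
  rw [hT, k, k]

theorem Semiprojective.lift (hA : Semiprojective A) [TopologicalSpace.SeparableSpace Y]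
    (φ : A →L[ℝ] Y) (h1 : IsHom φ) (h2 : ‖φ‖ ≤ 1) (J : ClosedIdeal X) (T : Y →L[ℝ] Quo J)
    (hT : IsHom T) {ε : ℝ} (hε : 0 < ε) :
    ∃ S : A →L[ℝ] X, IsHom S ∧ (∀ a, Quo.mk J (S a) = T (φ a)) ∧ ‖S‖ ≤ (1 + ε) * ‖T‖ := by
  classical
  obtain ⟨y, y1, y2⟩ := exists_gen Y
  let W := {w : TQ ℕ × ℚ // ‖w.1.tm.eval y‖ < w.2}
  have w0 : ∀ w : W, (0 : ℝ) < w.1.2 := fun w => (norm_nonneg _).trans_lt w.2
  obtain ⟨B, _, δ, hB⟩ := exists_univ (ι := ℕ ⊕ W) ∅ (by simp)
  haveI := sep_of_dense hB.dense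
  let val : ℕ ⊕ W → Y := Sum.elim y fun w => (w.1.2 : ℝ)⁻¹ • w.1.1.tm.eval y
  have v1 : ∀ k, ‖val k‖ ≤ 1 := by
    rintro (n | w)
    · exact y1 n
    · change ‖(w.1.2 : ℝ)⁻¹ • w.1.1.tm.eval y‖ ≤ 1
      rw [norm_smul, Real.norm_of_nonneg (inv_nonneg.2 (w0 w).le), inv_mul_le_iff₀ (w0 w), mul_one]
      exact w.2.le
  obtain ⟨q, q1, q2, q3⟩ := hB.ext Y val 1 zero_le_one v1 (by simp)
  obtain ⟨e, he⟩ := exists_injective_nat W
  let rel : W → B := fun w => δ (.inr w) - (w.1.2 : ℝ)⁻¹ • w.1.1.tm.eval fun n => δ (.inl n)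
  let I : ℕ → ClosedIdeal B := fun n => genIdeal (rel '' {w | e w < n})
  have hI : Monotone fun n => (I n).sub := fun n m h =>
    genIdeal_le ((Set.image_mono fun w (hw : e w < n) => hw.trans_le h).trans (subset_genIdeal _))
  obtain ⟨L, hL⟩ := exists_limit_ideal I hI
  have hle : ∀ n, (I n).sub ≤ L.sub := fun n x hx => by
    change x ∈ (L.sub : Set _)
    rw [hL]
    exact subset_closure (Set.mem_iUnion.2 ⟨n, hx⟩)
  have kill : ∀ {Z : Type} [BanachLattice Z] (S : B →L[ℝ] Z) (hS : IsHom S) (n : ℕ),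
      (∀ w, e w < n → S (δ (.inr w)) = (w.1.2 : ℝ)⁻¹ • w.1.1.tm.eval fun n => S (δ (.inl n))) →
      ∀ b ∈ (I n).sub, S b = 0 := fun S hS n h => genIdeal_le (J := hS.ker) (by
    rintro _ ⟨w, hw, rfl⟩
    change S (rel w) = 0
    rw [map_sub, map_smul, hS.eval, h w hw, sub_self])
  have qy : (fun n => q (δ (.inl n))) = y := funext fun n => q3 _
  have hq : ∀ b ∈ L.sub, q b = 0 := fun b hb => by
    have hb' : b ∈ (L.sub : Set B) := hb
    rw [hL] at hb'
    refine closure_minimal (t := (q1.ker.sub : Set B)) (fun c hc => ?_) q1.ker.closed hb'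
    obtain ⟨n, hn⟩ := Set.mem_iUnion.1 hc
    exact kill q q1 n (fun w _ => by rw [qy, q3]; rfl) c hn
  have mr : ∀ w : W, Quo.mk L (δ (.inr w)) =
      (w.1.2 : ℝ)⁻¹ • w.1.1.tm.eval fun n => Quo.mk L (δ (.inl n)) := fun w => by
    rw [← (mk_hom L).eval, ← map_smul]
    exact (Quo.mk_eq L).2 (hle (e w + 1) (subset_genIdeal _ ⟨w, Nat.lt_succ_self _, rfl⟩))
  have dn : DenseRange fun t : Tm ℕ => t.eval fun n => Quo.mk L (δ (.inl n)) := by
    refine ((Quo.mk_surj L).denseRange.comp hB.dense (Quo.mk L).continuous).mono ?_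
    rintro _ ⟨s, rfl⟩
    refine ⟨s.bind (Sum.elim .var fun w => .smul (w.1.2 : ℝ)⁻¹ w.1.1.tm), ?_⟩
    simp only [Tm.eval_bind, Function.comp, (mk_hom L).eval]
    refine congrArg (fun f => s.eval f) (funext ?_)
    rintro (n | w)
    · rfl
    · exact (mr w).symm
  have ql := Quo.lift_hom L hq q1
  have qe : ∀ t : Tm ℕ, Quo.lift L q hq (t.eval fun n => Quo.mk L (δ (.inl n))) = t.eval y :=
    fun t => by
      rw [ql.eval]
      exact congrArg (fun f => t.eval f) qy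
  obtain ⟨U, u1, u2, u3⟩ := exists_inv (Quo.lift L q hq) ql (fun z => le_antisymm
    ((ContinuousLinearMap.le_opNorm _ z).trans (mul_le_of_le_one_left (norm_nonneg _)
      ((Quo.norm_lift _ _ _).trans q2)))
    ((dense_rat dn).induction_on (p := fun z => ‖z‖ ≤ ‖Quo.lift L q hq z‖) z
      (isClosed_le (by fun_prop) (by fun_prop)) fun t => by
        rw [qe]
        refine le_of_forall_gt_imp_ge_of_dense fun r hr => ?_
        obtain ⟨c, hc, hcr⟩ := exists_rat_btwn hr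
        have k := congrArg norm (mr ⟨(t, c), hc⟩)
        have k0 := w0 ⟨(t, c), hc⟩
        have k1 := (norm_mk_le L _).trans (hB.gen (.inr ⟨(t, c), hc⟩))
        rw [k, norm_smul, Real.norm_of_nonneg (inv_nonneg.2 k0.le), inv_mul_le_iff₀ k0,
          mul_one] at k1
        exact k1.trans hcr.le)) (y2.mono (by
      rintro _ ⟨t, rfl⟩
      exact ⟨_, qe t⟩))
  obtain ⟨n, hn⟩ := hA B I L hle hI hL (U.comp φ) (u1.comp h1)
    (ContinuousLinearMap.opNorm_le_bound _ zero_le_one fun a => (u2 _).trans_le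
      ((φ.le_opNorm a).trans (mul_le_mul_of_nonneg_right h2 (norm_nonneg _))))
  have e0 : 0 < min 1 (ε / 3) := lt_min one_pos (by positivity)
  obtain ⟨ψ, p1, p2, p3⟩ := hn _ e0
  have nT : ∀ k, ‖T (val k)‖ ≤ ‖T‖ := fun k =>
    (T.le_opNorm _).trans (mul_le_of_le_one_right (norm_nonneg _) (v1 k))
  obtain ⟨x, x1, x2, x3⟩ := lift_rel (R := (fun w : W => (w.1.1.tm, (w.1.2 : ℝ))) '' {w | e w < n})
    (((Set.finite_Iio n).preimage he.injOn).image _) (by
      rintro _ ⟨w, -, rfl⟩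
      exact w0 w) (fun i => T (y i)) (norm_nonneg T) e0 (fun i => nT (.inl i)) (by
      rintro _ ⟨w, -, rfl⟩
      rw [← hT.eval]
      exact (T.le_opNorm _).trans (mul_le_mul_of_nonneg_left w.2.le (norm_nonneg _)))
  choose z z1 z2 using fun k => exists_lift_le _ (nT k) e0
  let x' : ℕ ⊕ W → X := Sum.elim x fun w =>
    if e w < n then (w.1.2 : ℝ)⁻¹ • w.1.1.tm.eval x else z (.inr w)
  obtain ⟨S, s1, s2, s3⟩ := hB.ext X x' ((1 + min 1 (ε / 3)) * ‖T‖) (by positivity) (by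
    rintro (i | w)
    · exact x2 i
    · by_cases h : e w < n
      · simp only [x', Sum.elim_inr, h, if_true]
        rw [norm_smul, Real.norm_of_nonneg (inv_nonneg.2 (w0 w).le), inv_mul_le_iff₀' (w0 w)]
        exact x3 _ ⟨w, h, rfl⟩
      · simp only [x', Sum.elim_inr, h, if_false]
        exact z2 _) (by simp)
  have s4 : ∀ b, Quo.mk J (S b) = T (q b) := DFunLike.congr_fun
    (hom_ext hB.dense ((mk_hom J).comp s1) (hT.comp q1) (by
      rintro (i | w)
      · rw [ContinuousLinearMap.comp_apply, ContinuousLinearMap.comp_apply, s3, q3]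
        exact x1 i
      · rw [ContinuousLinearMap.comp_apply, ContinuousLinearMap.comp_apply, s3, q3]
        by_cases h : e w < n
        · simp only [x', val, Sum.elim_inr, h, if_true, map_smul, (mk_hom J).eval, hT.eval, x1]
        · simp only [x', Sum.elim_inr, h, if_false, z1]))
  have s5 := kill S s1 n fun w hw => by simp only [s3, x', Sum.elim_inr, Sum.elim_inl, hw, if_true]
  refine ⟨(Quo.lift _ S s5).comp ψ, (Quo.lift_hom _ s5 s1).comp p1, fun a => ?_, ?_⟩
  · obtain ⟨b, hb⟩ := Quo.mk_surj _ (ψ a)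
    have k : Quo.mk L b = U (φ a) := (congrArg (Quo.factor (hle n)) hb).trans (p3 a)
    rw [ContinuousLinearMap.comp_apply, ← hb, Quo.lift_mk, s4, ← u3 (φ a), ← k, Quo.lift_mk]
  · refine (ContinuousLinearMap.opNorm_comp_le _ _).trans ((mul_le_mul
      ((Quo.norm_lift _ _ _).trans s2) p2 (norm_nonneg _) (by positivity)).trans ?_)
    have a1 := min_le_left 1 (ε / 3)
    have a2 := min_le_right 1 (ε / 3)
    have a3 : (1 + min 1 (ε / 3)) * (1 + min 1 (ε / 3)) ≤ 1 + ε := by nlinarith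
    nlinarith [norm_nonneg T]

end Pool.Agent.Lib.helper23.BL
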