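import Mathlib

set_option autoImplicit false

namespace Pool.Agent.Lib.helper23.LF

universe u

variable {M : Type u} [MetricSpace M]

/-- The Lipschitz constants of a real function. -/
def consts (f : M → ℝ) : Set ℝ := {C | 0 ≤ C ∧ ∀ x y, |f x - f y| ≤ C * dist x y}

theorem consts_add {f g : M → ℝ} {a b : ℝ} (ha : a ∈ consts f) (hb : b ∈ consts g) :
    a + b ∈ consts (f + g) := ⟨add_nonneg ha.1 hb.1, fun x y => by
  have h1 := abs_le.1 (ha.2 x y)
  have h2 := abs_le.1 (hb.2 x y)
  exact abs_le.2 ⟨by simp only [Pi.add_apply]; linarith, by simp only [Pi.add_apply]; linarith⟩⟩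

theorem consts_smul {f : M → ℝ} {a : ℝ} (c : ℝ) (ha : a ∈ consts f) : |c| * a ∈ consts (c • f) :=
  ⟨mul_nonneg (abs_nonneg c) ha.1, fun x y => by
    simpa only [Pi.smul_apply, smul_eq_mul, ← mul_sub, abs_mul, mul_assoc] using
      mul_le_mul_of_nonneg_left (ha.2 x y) (abs_nonneg c)⟩

theorem sInf_mem {f : M → ℝ} (h : (consts f).Nonempty) : sInf (consts f) ∈ consts f :=
  IsClosed.csInf_mem ((isClosed_Ici.inter (by
    simp only [Set.setOf_forall]
    exact isClosed_iInter fun x => isClosed_iInter fun y => isClosed_le (by fun_prop)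
      (by fun_prop)) : IsClosed (Set.Ici 0 ∩ {C | ∀ x y, |f x - f y| ≤ C * dist x y}))) h
    ⟨0, fun _ hC => hC.1⟩

/-- Lipschitz functions vanishing at the base point. -/
def LipSub (o : M) : Submodule ℝ (M → ℝ) where
  carrier := {f | f o = 0 ∧ (consts f).Nonempty}
  add_mem' := fun ⟨h1, _, ha⟩ ⟨h2, _, hb⟩ => ⟨by simp [h1, h2], _, consts_add ha hb⟩
  zero_mem' := ⟨rfl, 0, le_rfl, by simp⟩
  smul_mem' := fun c _ ⟨h1, _, ha⟩ => ⟨by simp [h1], _, consts_smul c ha⟩

/-- The space of Lipschitz functions vanishing at the base point. -/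
def Lip0 (o : M) : Type u := LipSub o

variable (o : M)

noncomputable instance : AddCommGroup (Lip0 o) := (inferInstance : AddCommGroup (LipSub o))

noncomputable instance : Module ℝ (Lip0 o) := (inferInstance : Module ℝ (LipSub o))

/-- The norm is the best Lipschitz constant. -/
noncomputable instance : NormedAddCommGroup (Lip0 o) :=
  AddGroupNorm.toNormedAddCommGroup
    { toFun := fun f => sInf (consts (f : LipSub o).1)
      map_zero' := le_antisymm (csInf_le ⟨0, fun _ h => h.1⟩
        ⟨le_rfl, fun _ _ => by change |(0 : ℝ) - 0| ≤ _; simp⟩) (sInf_mem (0 : LipSub o).2.2).1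
      add_le' := fun f g => csInf_le ⟨0, fun _ h => h.1⟩
        (consts_add (sInf_mem f.2.2) (sInf_mem g.2.2))
      neg' := fun f => congrArg sInf (Set.ext fun _ => and_congr_right fun _ =>
        forall₂_congr fun x y => by
          change |-f.1 x - -f.1 y| ≤ _ ↔ _
          rw [neg_sub_neg, abs_sub_comm])
      eq_zero_of_map_eq_zero' := fun f hf => Subtype.ext (funext fun x => by
        have h := (sInf_mem f.2.2).2 x o
        rw [hf, f.2.1, zero_mul, sub_zero] at h
        exact abs_nonpos_iff.1 h) }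

noncomputable instance : NormedSpace ℝ (Lip0 o) where
  norm_smul_le c f := csInf_le ⟨0, fun _ h => h.1⟩ (consts_smul c (sInf_mem f.2.2))

/-- Evaluation at a point. -/
noncomputable def delta (x : M) : StrongDual ℝ (Lip0 o) :=
  LinearMap.mkContinuous ⟨⟨fun f => f.1 x, fun _ _ => rfl⟩, fun _ _ => rfl⟩ (dist x o) fun f => by
    have h := (sInf_mem f.2.2).2 x o
    rwa [f.2.1, sub_zero, mul_comm] at h

/-- The Lipschitz-free space: the closed span of the evaluations. -/
noncomputable abbrev Free : Submodule ℝ (StrongDual ℝ (Lip0 o)) :=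
  (Submodule.span ℝ (Set.range (delta o))).topologicalClosure

end Pool.Agent.Lib.helper23.LF
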