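import Mathlib
import Pool.Agent.Lib.helper23.LipDef

set_option autoImplicit false

namespace Pool.Agent.Lib.helper23.LF

universe u

variable {M : Type u} [MetricSpace M] (o : M)

/-- The Lipschitz-free space as a type. -/
def FreeSp : Type u := Free o

noncomputable instance : NormedAddCommGroup (FreeSp o) := (Free o).normedAddCommGroup

noncomputable instance : NormedSpace ℝ (FreeSp o) := (Free o).normedSpace

end Pool.Agent.Lib.helper23.LF
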