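import Mathlib

set_option autoImplicit false

namespace Pool.Agent.Lib.helper23

open Set

lemma unc_fiber {I Γ : Type*} [Countable Γ] {S : Set I} (hS : ¬ S.Countable) (f : I → Γ) :
    ∃ c, ¬ {i | i ∈ S ∧ f i = c}.Countable := by
  by_contra h
  push Not at h
  refine hS (Set.Countable.mono (fun i hi => ?_) (countable_iUnion h))
  exact mem_iUnion.2 ⟨f i, hi, rfl⟩

lemma knaster_aux {I κ Γ : Type*} [Countable Γ] (p : I → κ → Γ) (n : ℕ) :
    ∀ (F : I → Finset κ) (S : Set I), ¬ S.Countable → (∀ i ∈ S, (F i).card ≤ n) →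
      ∃ J ⊆ S, ¬ J.Countable ∧ ∀ i ∈ J, ∀ j ∈ J, ∀ k ∈ F i, k ∈ F j → p i k = p j k := by
  classical
  induction n with
  | zero =>
    intro F S hS h
    refine ⟨S, Subset.rfl, hS, fun i hi j _ k hk _ => ?_⟩
    have := Finset.card_eq_zero.1 (Nat.le_zero.1 (h i hi))
    simp [this] at hk
  | succ n ih =>
    intro F S hS h
    by_cases h1 : ∃ k, ¬ {i | i ∈ S ∧ k ∈ F i}.Countable
    · obtain ⟨k, hk⟩ := h1
      obtain ⟨c, hc⟩ := unc_fiber hk (fun i => p i k)
      obtain ⟨J, hJ, hJu, hJp⟩ := ih (fun i => (F i).erase k) _ hc (fun i hi => by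
        have := Finset.card_erase_of_mem hi.1.2
        have := h i hi.1.1
        omega)
      refine ⟨J, fun i hi => (hJ hi).1.1, hJu, fun i hi j hj l hl hl' => ?_⟩
      by_cases e : l = k
      · rw [e, (hJ hi).2, (hJ hj).2]
      · exact hJp i hi j hj l (Finset.mem_erase.2 ⟨e, hl⟩) (Finset.mem_erase.2 ⟨e, hl'⟩)
    · push Not at h1
      obtain ⟨J, hJ⟩ := zorn_subset {J : Set I | J ⊆ S ∧
          ∀ i ∈ J, ∀ j ∈ J, i ≠ j → ∀ k ∈ F i, k ∉ F j} (fun c hc hch => by
        refine ⟨⋃₀ c, ⟨sUnion_subset fun t ht => (hc ht).1, ?_⟩, fun s hs => subset_sUnion_of_mem hs⟩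
        rintro i ⟨s, hs, hi⟩ j ⟨t, ht, hj⟩
        rcases hch.total hs ht with l | l
        · exact (hc ht).2 i (l hi) j hj
        · exact (hc hs).2 i hi j (l hj))
      refine ⟨J, hJ.prop.1, fun hJc => hS ?_, fun i hi j hj k hk hk' => ?_⟩
      · refine (hJc.union (hJc.biUnion fun j _ =>
          (F j).countable_toSet.biUnion fun k _ => h1 k)).mono fun i hi => ?_
        by_contra hn
        simp only [mem_union, mem_iUnion, not_or, not_exists] at hn
        apply hn.1
        have : insert i J ∈ {J : Set I | J ⊆ S ∧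
            ∀ i ∈ J, ∀ j ∈ J, i ≠ j → ∀ k ∈ F i, k ∉ F j} := by
          refine ⟨insert_subset hi hJ.prop.1, ?_⟩
          rintro a (rfl | ha) b (rfl | hb) hab k hk hk'
          · exact hab rfl
          · exact hn.2 b hb k hk' ⟨hi, hk⟩
          · exact hn.2 a ha k hk ⟨hi, hk'⟩
          · exact hJ.prop.2 a ha b hb hab k hk hk'
        exact hJ.le_of_ge this (subset_insert _ _) (mem_insert _ _)
      · by_cases e : i = j
        · rw [e]
        · exact absurd hk' (hJ.prop.2 i hi j hj e k hk)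

/-- An uncountable family of finite functions into a countable set has an uncountable
pairwise compatible subfamily. -/
lemma knaster {I κ Γ : Type*} [Countable Γ] (p : I → κ → Γ) (F : I → Finset κ) (S : Set I)
    (hS : ¬ S.Countable) :
    ∃ J ⊆ S, ¬ J.Countable ∧ ∀ i ∈ J, ∀ j ∈ J, ∀ k ∈ F i, k ∈ F j → p i k = p j k := by
  obtain ⟨n, hn⟩ := unc_fiber hS (fun i => (F i).card)
  obtain ⟨J, h1, h2, h3⟩ := knaster_aux p n F _ hn (fun i hi => hi.2.le)
  exact ⟨J, fun i hi => (h1 hi).1, h2, h3⟩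

end Pool.Agent.Lib.helper23
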