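import Mathlib

set_option autoImplicit false

namespace Pool.Agent.Lib.helper23

lemma trans_rec {W S : Type*} [LinearOrder W] [WellFoundedLT W] [Inhabited S]
    (P : W → (W → S) → S → Prop)
    (loc : ∀ ξ f g s, (∀ η < ξ, f η = g η) → P ξ f s → P ξ g s)
    (step : ∀ ξ f, (∀ η < ξ, P η f (f η)) → ∃ s, P ξ f s) : ∃ f, ∀ ξ, P ξ f (f ξ) := by
  classical
  let ext : ∀ ξ : W, (∀ η, η < ξ → S) → W → S := fun ξ g η => if h : η < ξ then g η h else default
  let F : ∀ ξ : W, (∀ η, η < ξ → S) → S := fun ξ g =>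
    if h : ∃ s, P ξ (ext ξ g) s then h.choose else default
  let f : W → S := (wellFounded_lt (α := W)).fix F
  have hf : ∀ ξ, f ξ = F ξ fun η _ => f η := fun ξ => WellFounded.fix_eq _ _ _
  refine ⟨f, fun ξ => ?_⟩
  induction ξ using (wellFounded_lt (α := W)).induction with
  | _ ξ ih =>
    have e : ∀ η < ξ, f η = ext ξ (fun η _ => f η) η := fun η h => by simp only [ext, dif_pos h]
    obtain ⟨s, hs⟩ := step ξ f ih
    have h : ∃ s, P ξ (ext ξ fun η _ => f η) s := ⟨s, loc _ _ _ _ e hs⟩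
    rw [hf ξ]
    simp only [F, dif_pos h]
    exact loc _ _ _ _ (fun η hη => (e η hη).symm) h.choose_spec

end Pool.Agent.Lib.helper23
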