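import Mathlib

set_option autoImplicit false

open Set Filter Topology TopologicalSpace MeasureTheory

namespace Pool.Agent.Lib.helper23.Dual

lemma mF {d : Type} [Fintype d] (k : d → ℤ) (x : UnitAddTorus d) :
    UnitAddTorus.mFourier k x = AddCircle.toCircle (∑ i, k i • x i) := by
  classical
  simp only [UnitAddTorus.mFourier, ContinuousMap.coe_mk, fourier_apply]
  induction (Finset.univ : Finset d) using Finset.induction_on with
  | empty => simp
  | insert a s ha ih => rw [Finset.prod_insert ha, Finset.sum_insert ha, ih, AddCircle.toCircle_add,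
      Circle.coe_mul]

lemma dual_fin' {d : Type} [Fintype d] (L : AddSubgroup (UnitAddTorus d))
    (hL : IsClosed (L : Set (UnitAddTorus d))) (y : UnitAddTorus d)
    (h : ∀ k : d → ℤ, (∀ x ∈ L, ∑ i, k i • x i = 0) → ∑ i, k i • y i = 0) : y ∈ L := by
  have hc : CompactSpace L := isCompact_iff_compactSpace.1 hL.isCompact
  let μ : Measure L := Measure.addHaarMeasure ⊤
  have hμ : IsProbabilityMeasure μ := ⟨Measure.addHaarMeasure_self⟩
  have hi : ∀ (f : C(UnitAddTorus d, ℂ)) (z : UnitAddTorus d),
      Integrable (fun x : L => f (z + x)) μ := fun f z =>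
    Continuous.integrable_of_hasCompactSupport (by fun_prop) (HasCompactSupport.of_compactSpace _)
  let Λ : UnitAddTorus d → C(UnitAddTorus d, ℂ) →L[ℂ] ℂ := fun z => LinearMap.mkContinuous
    { toFun := fun f => ∫ x : L, f (z + x) ∂μ
      map_add' := fun f g => integral_add (hi f z) (hi g z)
      map_smul' := fun c f => integral_smul c fun x : L => f (z + x) } 1 fun f => by
        simpa using norm_integral_le_of_norm_le_const (μ := μ)
          (Eventually.of_forall fun x : L => f.norm_coe_le_norm (z + x))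
  have hΛ : ∀ z f, Λ z f = ∫ x : L, f (z + x) ∂μ := fun _ _ => rfl
  have hm : ∀ k z, Λ z (UnitAddTorus.mFourier k) =
      UnitAddTorus.mFourier k z * Λ 0 (UnitAddTorus.mFourier k) := fun k z => by
    simp only [hΛ, mF, ← integral_const_mul, Pi.add_apply, smul_add, Finset.sum_add_distrib,
      AddCircle.toCircle_add, Circle.coe_mul, zero_add]
  have he : Λ y = Λ 0 := by
    refine ContinuousLinearMap.ext_on (s := range UnitAddTorus.mFourier)
      (Submodule.dense_iff_topologicalClosure_eq_top.2 UnitAddTorus.span_mFourier_closure_eq_top) ?_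
    rintro _ ⟨k, rfl⟩
    rw [hm]
    by_cases hk : ∀ x ∈ L, ∑ i, k i • x i = 0
    · simp [mF, h k hk]
    · push Not at hk
      obtain ⟨x, hx, hx'⟩ := hk
      have h1 : Λ x (UnitAddTorus.mFourier k) = Λ 0 (UnitAddTorus.mFourier k) := by
        simp only [hΛ, zero_add]
        exact integral_add_left_eq_self (fun w : L => UnitAddTorus.mFourier k w.1) ⟨x, hx⟩
      have h2 : UnitAddTorus.mFourier k x ≠ 1 := by
        rw [mF]
        intro h3
        exact hx' (AddCircle.injective_toCircle one_ne_zero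
          (by rw [AddCircle.toCircle_zero]; exact Subtype.ext h3))
      rw [hm] at h1
      rw [(mul_left_eq_self₀.1 h1).resolve_left h2, mul_zero]
  by_contra hy
  obtain ⟨f, f0, f1, -⟩ := exists_continuous_zero_one_of_isClosed hL
    (hL.preimage (continuous_const.add continuous_id : Continuous fun x => -y + x))
    (disjoint_left.2 fun x h1 h2 => hy (by simpa using L.sub_mem h1 h2))
  have := congr($he ⟨fun x => (f x : ℂ), by fun_prop⟩)
  have e0 : ∀ x : L, f x = 0 := fun x => f0 x.2
  have e1 : ∀ x : L, f (y + x) = 1 := fun x => f1 (by simp)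
  simp [hΛ, e0, e1] at this

lemma dual' {I : Type} (L : AddSubgroup (I → UnitAddCircle)) (y : I → UnitAddCircle)
    (h : ∀ k : I →₀ ℤ, (∀ x ∈ L, Finsupp.linearCombination ℤ x k = 0) →
      Finsupp.linearCombination ℤ y k = 0) : y ∈ closure (L : Set (I → UnitAddCircle)) := by
  classical
  refine mem_closure_iff.2 fun U hU hy => ?_
  obtain ⟨F, u, hu, hF⟩ := isOpen_pi_iff.1 hU y hy
  let r : (I → UnitAddCircle) →+ UnitAddTorus F :=
    AddMonoidHom.pi fun i => Pi.evalAddMonoidHom _ i.1
  have e : ∀ (k : F → ℤ) (x : I → UnitAddCircle), Finsupp.linearCombination ℤ x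
      (Finsupp.embDomain (Function.Embedding.subtype _)
        ((Finsupp.linearEquivFunOnFinite ℤ ℤ F).symm k)) = ∑ i, k i • r x i := fun k x => by
    rw [Finsupp.linearCombination_embDomain,
      Finsupp.linearCombination_eq_fintype_linearCombination_apply,
      Fintype.linearCombination_apply]
    rfl
  have := dual_fin' (L.map r).topologicalClosure (AddSubgroup.isClosed_topologicalClosure _) (r y)
    fun k hk => e k y ▸ h _ fun x hx =>
      (e k x).trans (hk _ (AddSubgroup.le_topologicalClosure _ ⟨x, hx, rfl⟩))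
  obtain ⟨_, h1, x, hx, rfl⟩ := mem_closure_iff.1 this (univ.pi fun i : F => u i)
    (isOpen_set_pi finite_univ fun i _ => (hu i i.2).1) fun i _ => (hu i i.2).2
  exact ⟨x, hF fun i hi => h1 ⟨i, hi⟩ trivial, hx⟩

lemma count_supp {I : Type} {S : Set I} (hS : S.Countable) :
    {k : I →₀ ℤ | ∀ i ∉ S, k i = 0}.Countable := by
  have := hS.to_subtype
  refine (countable_range fun m : S →₀ ℤ => m.embDomain (Function.Embedding.subtype _)).mono ?_
  intro n hn
  refine ⟨n.subtypeDomain _, ?_⟩
  ext g
  by_cases h : g ∈ S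
  · exact Finsupp.embDomain_apply_self (Function.Embedding.subtype _) _ ⟨g, h⟩
  · rw [Finsupp.embDomain_of_notMem_range _ _ _ (by simpa using h), hn g h]


abbrev T := UnitAddCircle

noncomputable abbrev lc {I : Type} (x : I → T) : (I →₀ ℤ) →ₗ[ℤ] T := Finsupp.linearCombination ℤ x

lemma lc_add {I : Type} (x y : I → T) (k : I →₀ ℤ) : lc (x + y) k = lc x k + lc y k := by
  simp [Finsupp.linearCombination_apply, Finsupp.sum, Finset.sum_add_distrib]

lemma lc_cont {I : Type} (k : I →₀ ℤ) : Continuous fun x : I → T => lc x k := by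
  simp only [Finsupp.linearCombination_apply, Finsupp.sum]
  fun_prop

lemma CR {A I : Type} [AddCommGroup A] (φ : I → A →+ T) (χ : A →+ T) {U : Set (I → T)}
    (hU : U ∈ 𝓝 (0 : I → T)) (h : ∀ a, (fun i => φ i a) ∈ U → ‖χ a‖ ≤ 1 / 4) :
    ∃ k : I →₀ ℤ, ∀ a, χ a = lc (fun i => φ i a) k := by
  classical
  let π : A →+ (Option I → T) := AddMonoidHom.pi fun o => o.elim χ φ
  let D : AddSubgroup ℤ :=
    { carrier := {n | ∃ k : Option I →₀ ℤ, (∀ a, lc (π a) k = 0) ∧ k none = n}
      add_mem' := by
        rintro _ _ ⟨k, h, rfl⟩ ⟨k', h', rfl⟩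
        exact ⟨k + k', fun a => by rw [map_add, h, h', add_zero], rfl⟩
      zero_mem' := ⟨0, by simp, rfl⟩
      neg_mem' := by
        rintro _ ⟨k, h, rfl⟩
        exact ⟨-k, fun a => by rw [map_neg, h, neg_zero], rfl⟩ }
  obtain ⟨d, hd⟩ := Int.subgroup_cyclic D
  have h1 (t : T) (ht : d • t = 0) : ‖t‖ ≤ 1 / 4 := by
    by_contra! h1
    obtain ⟨_, h2, a, rfl⟩ := mem_closure_iff_nhds.1 (dual' π.range (fun o => o.elim t fun _ => 0)
      fun k hk => by
        obtain ⟨m, hm⟩ := AddSubgroup.mem_closure_singleton.1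
          (hd.le (⟨k, fun a => hk _ ⟨a, rfl⟩, rfl⟩ : k none ∈ D))
        rw [Finsupp.linearCombination_option, ← hm, smul_assoc]
        simp [ht, Function.comp_def, Finsupp.linearCombination_apply]) _
      (inter_mem (s := {x : Option I → T | (fun i => x (some i)) ∈ U})
        (t := {x | 1 / 4 < ‖x none‖}) ((continuous_pi fun i => continuous_apply (some i)).continuousAt.preimage_mem_nhds hU)
        ((isOpen_lt continuous_const (by fun_prop)).mem_nhds h1))
    exact (h a h2.1).not_gt h2.2
  have h2 : (1 : ℤ) ∈ D := by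
    rw [hd, AddSubgroup.mem_closure_singleton]
    by_contra! h2
    have h3 (r : ℝ) (m : ℤ) (h : d * r = m) (h' : |r| ≤ 1 / 2) : |r| ≤ 1 / 4 := by
      rw [← (AddCircle.norm_coe_eq_abs_iff 1 one_ne_zero).2 (by simpa using h')]
      exact h1 _ (by rw [← AddCircle.coe_zsmul, AddCircle.coe_eq_zero_iff]; exact ⟨m, by simp [h]⟩)
    by_cases h4 : d = 0
    · have := h3 (1 / 2) 0 (by simp [h4]) (by rw [abs_of_pos] <;> norm_num)
      rw [abs_of_pos] at this <;> norm_num at *
    have h5 : 2 ≤ |d| := by
      have := h2 1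
      have := h2 (-1)
      simp only [one_smul, neg_smul] at *
      rcases abs_cases d with h | h <;> omega
    have h6 : (0 : ℝ) < |(d : ℝ)| := by positivity
    have h7 : ((|d| / 2 : ℤ) : ℝ) * 2 ≤ |(d : ℝ)| := by exact_mod_cast (by omega : |d| / 2 * 2 ≤ |d|)
    have h8 : |(d : ℝ)| < ((|d| / 2 : ℤ) : ℝ) * 4 := by exact_mod_cast (by omega : |d| < |d| / 2 * 4)
    have h9 : |((|d| / 2 : ℤ) : ℝ)| = (|d| / 2 : ℤ) := abs_of_pos (by linarith)
    have := h3 ((|d| / 2 : ℤ) / d) (|d| / 2) (by field_simp) (by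
      rw [abs_div, h9, div_le_iff₀ h6]; linarith)
    rw [abs_div, h9, div_le_iff₀ h6] at this
    linarith
  obtain ⟨k, h3, h4⟩ := h2
  refine ⟨-k.some, fun a => ?_⟩
  have := h3 a
  rw [Finsupp.linearCombination_option, h4, one_smul] at this
  rw [map_neg]
  exact eq_neg_of_add_eq_zero_left this

lemma bohr {I : Type} (b : ℕ → I →₀ ℤ) (hb : ∀ n, b n ≠ 0) :
    ∃ y : I → T, ¬ Tendsto (fun n => lc y (b n)) atTop (𝓝 0) := by
  classical
  by_contra! h
  borelize (I → T)
  let μ : Measure (I → T) := Measure.addHaarMeasure ⊤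
  have hμ : IsProbabilityMeasure μ := ⟨Measure.addHaarMeasure_self⟩
  let f : ℕ → (I → T) → ℂ := fun n y => AddCircle.toCircle (lc y (b n))
  have h1 (n) : ∫ y, f n y ∂μ = 0 := by
    obtain ⟨i, hi⟩ := Finsupp.ne_iff.1 (hb n)
    refine integral_eq_zero_of_add_left_eq_neg (g := Pi.single i ((1 / (2 * b n i) : ℝ) : T))
      fun y => ?_
    have : lc (Pi.single i ((1 / (2 * b n i) : ℝ) : T)) (b n) = ((1 / 2 : ℝ) : T) := by
      rw [Finsupp.linearCombination_apply, Finsupp.sum_eq_single i (fun j _ h => by simp [h])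
        (by simp), Pi.single_eq_same, ← AddCircle.coe_zsmul, zsmul_eq_mul]
      have : (b n i : ℝ) ≠ 0 := by simpa using hi
      congr 1
      field_simp
    simp only [f, lc_add, this, AddCircle.toCircle_add, AddCircle.toCircle_apply_mk,
      Circle.coe_mul, Circle.coe_exp]
    rw [show ((2 * Real.pi / 1 * (1 / 2) : ℝ) : ℂ) = Real.pi by push_cast; ring,
      Complex.exp_pi_mul_I, neg_one_mul]
  have h2 := tendsto_integral_of_dominated_convergence (μ := μ) (F := f) (f := fun _ => 1)
    (fun _ => 1) (fun n => (continuous_subtype_val.comp (AddCircle.continuous_toCircle.comp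
      (lc_cont _))).aestronglyMeasurable) (integrable_const _)
    (fun n => .of_forall fun y => (Circle.norm_coe _).le) (.of_forall fun y => by
      simpa [Function.comp_def] using
        ((continuous_subtype_val.comp AddCircle.continuous_toCircle).tendsto 0).comp (h y))
  simpa [h1] using h2

noncomputable def lg : Circle ≃ₜ T := (AddCircle.homeomorphCircle one_ne_zero).symm

lemma to_lg (z : Circle) : AddCircle.toCircle (lg z) = z := by
  rw [← AddCircle.homeomorphCircle_apply one_ne_zero]
  exact Homeomorph.apply_symm_apply _ _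

lemma lg_to (t : T) : lg (AddCircle.toCircle t) = t :=
  AddCircle.injective_toCircle one_ne_zero (to_lg _)

noncomputable def lgh {A : Type} [CommGroup A] (χ : A →* Circle) : Additive A →+ T :=
  AddMonoidHom.mk' (fun a => lg (χ a.toMul)) fun a b => AddCircle.injective_toCircle one_ne_zero
    (by simp only [AddCircle.toCircle_add, to_lg, toMul_add, map_mul])

lemma to_lc {I : Type} (x : I → T) (k : I →₀ ℤ) :
    AddCircle.toCircle (lc x k) = k.prod fun i n => AddCircle.toCircle (x i) ^ n := by
  induction k using Finsupp.induction_linear with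
  | zero => simp
  | add k l h h' => rw [map_add, AddCircle.toCircle_add, h, h',
      Finsupp.prod_add_index' (by simp) fun _ _ _ => zpow_add _ _ _]
  | single i n => simp [AddCircle.toCircle_zsmul]

lemma CRm {A I : Type} [CommGroup A] [TopologicalSpace A] (φ : I → A →* Circle)
    (hφ : IsInducing fun a i => φ i a) (χ : A →* Circle) (hχ : Continuous χ) :
    ∃ k : I →₀ ℤ, ∀ a, χ a = k.prod fun i n => φ i a ^ n := by
  have h0 : lg 1 = 0 := by rw [← AddCircle.toCircle_zero (T := 1), lg_to]
  obtain ⟨U, h1, h2⟩ := mem_comap.1 (hφ.nhds_eq_comap 1 ▸ ((lg.continuous.comp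
    hχ).norm.continuousAt.eventually_lt continuousAt_const (by simp [h0] : ‖lg (χ 1)‖ < 1 / 4)) :)
  obtain ⟨k, h⟩ := CR (fun i => lgh (φ i)) (lgh χ)
    (U := (fun x i => AddCircle.toCircle (x i)) ⁻¹' U) ((continuous_pi fun i =>
      AddCircle.continuous_toCircle.comp (continuous_apply i)).continuousAt.preimage_mem_nhds
      (by simpa using h1)) fun a h => (h2 (by simpa [lgh, to_lg] using h)).le
  refine ⟨k, fun a => ?_⟩
  have := congrArg AddCircle.toCircle (h (.ofMul a))
  simpa [to_lc, lgh, to_lg] using this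

lemma ind {A : Type} [CommGroup A] [TopologicalSpace A] (h : ∀ K : Set A, IsCompact K → K.Finite) :
    IsInducing fun (χ : PontryaginDual A) a => χ a := by
  refine (IsInducing.of_comp_iff (f := ContinuousMonoidHom.toContinuousMap)
    (g := fun (f : C(A, Circle)) a => f a) ⟨le_antisymm (continuous_iff_le_induced.1
      (continuous_pi fun a => continuous_eval_const a)) ?_⟩).2
    (ContinuousMonoidHom.isInducing_toContinuousMap A Circle)
  rw [ContinuousMap.compactOpen_eq]
  refine le_generateFrom ?_
  rintro _ ⟨K, hK, U, hU, rfl⟩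
  exact ⟨K.pi fun _ => U, isOpen_set_pi (h K hK) fun _ _ => hU, rfl⟩

lemma ev_cont {A : Type} [CommGroup A] [TopologicalSpace A] (a : A) :
    Continuous fun χ : PontryaginDual A => χ a :=
  continuous_eval_const (F := A →ₜ* Circle) a

theorem refl {H I : Type} [CommGroup H] [TopologicalSpace H] [IsTopologicalGroup H]
    (φ : I → PontryaginDual H) (hφ : IsEmbedding fun a i => φ i a)
    (h1 : ∀ K : Set H, IsCompact K → K.Finite)
    (h2 : ∀ K : Set (PontryaginDual H), IsCompact K → K.Finite) :
    ∃ e : H ≃ₜ* PontryaginDual (PontryaginDual H), ∀ g χ, e g χ = χ g := by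
  let ev : H →* PontryaginDual (PontryaginDual H) := MonoidHom.mk' (fun g =>
    ⟨MonoidHom.mk' (fun χ => χ g) fun _ _ => rfl, ev_cont g⟩)
    fun a b => PontryaginDual.ext fun χ => map_mul χ a b
  have h3 : Continuous ev := (ind h2).continuous_iff.2 (continuous_pi fun χ => χ.continuous)
  have h4 : IsEmbedding ev := .of_comp h3 (g := fun x i => x (φ i))
    (continuous_pi fun i => ev_cont _) hφ
  have h5 : Function.Surjective ev := fun x => by
    obtain ⟨k, h⟩ := CRm (fun g => (ev g).toMonoidHom) (ind h1) x.toMonoidHom x.continuous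
    refine ⟨k.prod fun g n => g ^ n, PontryaginDual.ext fun χ => ((h χ).trans ?_).symm⟩
    change _ = χ _
    rw [map_finsuppProd]
    simp only [map_zpow]
    rfl
  exact ⟨⟨MulEquiv.ofBijective ev ⟨h4.injective, h5⟩, h3,
    (h4.toHomeomorphOfSurjective h5).symm.continuous⟩, fun _ _ => rfl⟩

end Pool.Agent.Lib.helper23.Dual
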