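import Mathlib
import Pool.Agent.Lib.helper23.Dual

set_option autoImplicit false

namespace Pool.Agent.Lib.helper23.PW

open Set Filter Topology MeasureTheory Pool.Agent.Lib.helper23.Dual

lemma rep {K E : Type} [AddCommGroup K] [TopologicalSpace K] [IsTopologicalAddGroup K]
    [CompactSpace K] [T2Space K] [NormedAddCommGroup E] [InnerProductSpace ℂ E] [CompleteSpace E]
    (l : K → E →L[ℂ] E) (h0 : l 0 = 1) (ha : ∀ x y, l (x + y) = l x * l y)
    (hn : ∀ x v, ‖l x v‖ = ‖v‖) (hc : ∀ v, Continuous fun x => l x v) {x₀ : K} (hx : l x₀ ≠ 1) :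
    ∃ χ : K →+ T, Continuous χ ∧ χ x₀ ≠ 0 := by
  borelize K
  let μ : Measure K := Measure.addHaarMeasure ⊤
  have hu (x) : star (l x) * l x = 1 :=
    (ContinuousLinearMap.norm_map_iff_adjoint_comp_self _).1 (hn x)
  have hs (x) : star (l x) = l (-x) := by
    rw [← mul_one (star (l x)), ← h0, ← add_neg_cancel x, ha, ← mul_assoc, hu, one_mul]
  have hi (f : C(K, ℂ)) (v) : Integrable (fun z => f z • l z v) μ :=
    (f.continuous.smul (hc v)).integrable_of_hasCompactSupport (HasCompactSupport.of_compactSpace _)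
  have hb (f : C(K, ℂ)) (v) : ‖∫ z, f z • l z v ∂μ‖ ≤ ‖f‖ * μ.real univ * ‖v‖ := by
    rw [mul_right_comm]
    refine norm_integral_le_of_norm_le_const (Eventually.of_forall fun z => ?_)
    rw [norm_smul, hn]
    exact mul_le_mul_of_nonneg_right (f.norm_coe_le_norm z) (norm_nonneg _)
  let Tf : C(K, ℂ) → E →L[ℂ] E := fun f => LinearMap.mkContinuous
    { toFun := fun v => ∫ z, f z • l z v ∂μ
      map_add' := fun v w => by
        simp only [map_add, smul_add]
        exact integral_add (hi f v) (hi f w)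
      map_smul' := fun c v => by
        simp only [map_smul, smul_comm _ c, RingHom.id_apply]
        exact integral_smul _ _ } _ (hb f)
  have Ta (f v) : Tf f v = ∫ z, f z • l z v ∂μ := rfl
  have Tc : Continuous Tf := by
    refine (LipschitzWith.of_dist_le_mul (K := ⟨μ.real univ, measureReal_nonneg⟩)
      fun f g => ?_).continuous
    rw [dist_eq_norm, dist_eq_norm, mul_comm]
    refine ContinuousLinearMap.opNorm_le_bound _ (by positivity) fun v => ?_
    refine le_of_eq_of_le ?_ (hb (f - g) v)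
    simp only [ContinuousLinearMap.sub_apply, Ta, ContinuousMap.sub_apply, sub_smul]
    rw [integral_sub (hi f v) (hi g v)]
  have Tm (B : E →L[ℂ] E) (f v) : B (Tf f v) = ∫ z, f z • B (l z v) ∂μ := by
    rw [Ta, ← B.integral_comp_comm (hi f v)]
    simp
  let S := StarSubalgebra.centralizer ℂ (range l)
  have mS (B) : B ∈ S ↔ ∀ x, l x * B = B * l x := by
    simp only [S, StarSubalgebra.mem_centralizer_iff, forall_mem_range, hs]
    exact ⟨fun h x => (h x).1, fun h x => ⟨h x, h _⟩⟩
  let A := StarSubalgebra.centralizer ℂ (S : Set (E →L[ℂ] E))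
  have mA (B) : B ∈ A ↔ ∀ C ∈ S, C * B = B * C := by
    simp only [A, StarSubalgebra.mem_centralizer_iff]
    exact ⟨fun h x hx => (h x hx).1, fun h x hx => ⟨h x hx, h _ (star_mem hx)⟩⟩
  have lS (x) : l x ∈ S := (mS _).2 fun y => by rw [← ha, ← ha, add_comm]
  have lA (x) : l x ∈ A := (mA _).2 fun C hC => ((mS _).1 hC x).symm
  have TA (f) : Tf f ∈ A := (mA _).2 fun C hC => by
    ext v
    rw [ContinuousLinearMap.mul_apply, ContinuousLinearMap.mul_apply, Tm, Ta]
    refine integral_congr_ae (Eventually.of_forall fun z => ?_)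
    exact congrArg (f z • ·) (DFunLike.congr_fun ((mS _).1 hC z).symm v)
  haveI : IsClosed (A : Set (E →L[ℂ] E)) := by
    rw [StarSubalgebra.coe_centralizer]
    exact Set.isClosed_centralizer _
  letI : CommCStarAlgebra A :=
    { StarSubalgebra.cstarAlgebra A with
      mul_comm := fun a b => Subtype.ext
        ((mA _).1 b.2 _ ((mS _).2 fun x => (mA _).1 a.2 _ (lS x))) }
  obtain ⟨f, hf⟩ : ∃ f, Tf f * (l x₀ - 1) ≠ 0 := by
    by_contra h
    push Not at h
    refine hx (sub_eq_zero.1 (ContinuousLinearMap.ext fun v => ?_))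
    set w := (l x₀ - 1) v with hw'
    have c1 : Continuous fun z => inner ℂ w (l z w) := continuous_const.inner (hc w)
    have h1 := congrArg (innerSL ℂ w)
      (DFunLike.congr_fun (h ⟨fun z => starRingEnd ℂ (inner ℂ w (l z w)), by fun_prop⟩) v)
    rw [ContinuousLinearMap.mul_apply, ← hw', Ta, ← (innerSL ℂ w).integral_comp_comm (hi _ _)] at h1
    simp only [ContinuousMap.coe_mk, map_smul, innerSL_apply_apply, smul_eq_mul,
      Complex.conj_mul', ContinuousLinearMap.zero_apply, map_zero] at h1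
    norm_cast at h1
    by_contra hw
    refine ((c1.norm.pow 2).integral_pos_of_hasCompactSupport_nonneg_nonzero
      (μ := μ) (x := 0) (HasCompactSupport.of_compactSpace _) (fun _ => sq_nonneg _) ?_).ne' h1
    simpa [h0] using hw
  let L : K → A := fun x => ⟨l x, lA x⟩
  let t : C(K, ℂ) → A := fun f => ⟨Tf f, TA f⟩
  obtain ⟨ω, hω⟩ : ∃ ω : WeakDual.characterSpace ℂ A, ω (t f * (L x₀ - 1)) ≠ 0 := by
    by_contra h
    push Not at h
    exact hf (congrArg Subtype.val ((gelfandTransform_isometry A).injective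
      (a₁ := t f * (L x₀ - 1)) (a₂ := 0) (by ext ω; simpa using h ω)))
  rw [map_mul, map_sub, map_one, mul_ne_zero_iff, sub_ne_zero] at hω
  let sh : C(K, C(K, ℂ)) := ContinuousMap.curry ⟨fun p : K × K => f (-p.1 + p.2), by fun_prop⟩
  have e1 (x) : L x * t f = t (sh x) := Subtype.ext (ContinuousLinearMap.ext fun v => by
    change l x (Tf f v) = Tf (sh x) v
    rw [Tm, Ta, ← integral_add_left_eq_self (fun z => sh x z • l z v) x]
    simp [sh, ha])
  have c2 : Continuous fun x => ω (L x) := by
    refine (((map_continuous ω).comp ((Tc.comp sh.continuous).subtype_mk fun x => TA _)).div_const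
      (ω (t f))).congr fun x => ?_
    rw [div_eq_iff hω.1, ← map_mul, e1]
    rfl
  have e2 (x) : ω (L x) ∈ Submonoid.unitSphere ℂ := by
    have : star (L x) * L x = 1 := Subtype.ext (hu x)
    have := congrArg ω this
    rw [map_mul, map_star, map_one, Complex.star_def, Complex.conj_mul'] at this
    norm_cast at this
    simpa [Submonoid.unitSphere] using (sq_eq_sq₀ (norm_nonneg _) zero_le_one).1 (by simpa)
  refine ⟨AddMonoidHom.mk' (fun x => lg ⟨ω (L x), e2 x⟩) fun x y =>
    AddCircle.injective_toCircle one_ne_zero ?_, lg.continuous.comp (c2.subtype_mk _), fun h => ?_⟩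
  · simp only [AddCircle.toCircle_add, to_lg]
    exact Circle.ext ((congrArg ω (Subtype.ext (ha x y) : L (x + y) = L x * L y)).trans
      (map_mul _ _ _))
  · have := congrArg (fun s => ((AddCircle.toCircle s : Circle) : ℂ)) h
    simp only [AddMonoidHom.mk'_apply, to_lg, AddCircle.toCircle_zero] at this
    exact hω.2 this

lemma cpt {K : Type} [AddCommGroup K] [TopologicalSpace K] [IsTopologicalAddGroup K]
    [CompactSpace K] [T2Space K] {x₀ : K} (hx : x₀ ≠ 0) :
    ∃ χ : K →+ T, Continuous χ ∧ χ x₀ ≠ 0 := by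
  borelize K
  let μ : Measure K := Measure.addHaarMeasure ⊤
  let l : K → Lp ℂ 2 μ →L[ℂ] Lp ℂ 2 μ := fun x => (Lp.compMeasurePreservingₗᵢ ℂ (fun y => x +ᵥ y)
    (measurePreserving_vadd x μ)).toContinuousLinearMap
  have la (x v) : l x v = DomAddAct.mk x +ᵥ v := rfl
  refine rep l (ContinuousLinearMap.ext fun v => zero_vadd (DomAddAct K) v)
    (fun x y => ContinuousLinearMap.ext fun v => ?_) (fun x v => DomAddAct.norm_vadd_Lp _ _)
    (fun v => continuous_const.compMeasurePreservingLp (ContinuousMap.curry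
      ⟨fun p : K × K => p.1 +ᵥ p.2, continuous_vadd⟩).continuous _ (by simp)) fun h => ?_
  · rw [ContinuousLinearMap.mul_apply, la, la, la, ← add_vadd, add_comm x y]
    rfl
  · obtain ⟨f, f0, f1, -⟩ := exists_continuous_zero_one_of_isClosed isClosed_singleton
      isClosed_singleton (disjoint_singleton.2 hx)
    let g : C(K, ℂ) := ⟨fun z => f z, by fun_prop⟩
    have h1 := Lp.ext_iff.1 (DFunLike.congr_fun h (ContinuousMap.toLp 2 μ ℂ g))
    have h2 := ContinuousMap.coeFn_toLp (p := 2) (𝕜 := ℂ) μ g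
    have h3 := ((h1.symm.trans (DomAddAct.vadd_Lp_ae_eq _ _)).symm.trans h2).symm.trans
      ((measurePreserving_vadd x₀ μ).quasiMeasurePreserving.ae_eq_comp h2)
    have := congrFun ((Continuous.ae_eq_iff_eq μ g.continuous (by fun_prop)).1 h3) 0
    simp [g, f0 rfl, f1 rfl] at this

def Pre (A : Type) [AddCommGroup A] [TopologicalSpace A] : Prop :=
  ∀ U ∈ 𝓝 (0 : A), ∃ F : Set A, F.Finite ∧ ∀ x, ∃ f ∈ F, x - f ∈ U

theorem pw {A : Type} [AddCommGroup A] [TopologicalSpace A] [IsTopologicalAddGroup A] [T2Space A]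
    (h : Pre A) {x₀ : A} (hx : x₀ ≠ 0) : ∃ χ : A →+ T, Continuous χ ∧ χ x₀ ≠ 0 := by
  letI := IsTopologicalAddGroup.rightUniformSpace A
  haveI : IsUniformAddGroup A := isUniformAddGroup_of_addCommGroup
  have h1 : TotallyBounded (univ : Set A) := fun d hd => by
    obtain ⟨U, hU, hd⟩ := mem_comap.1 (uniformity_eq_comap_nhds_zero_swapped A ▸ hd)
    obtain ⟨F, h1, h2⟩ := h U hU
    exact ⟨F, h1, fun x _ => by
      obtain ⟨f, hf, h3⟩ := h2 x
      exact mem_biUnion hf (hd h3)⟩
  haveI : CompactSpace (UniformSpace.Completion A) := ⟨isCompact_iff_totallyBounded_isComplete.2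
    ⟨by simpa [UniformSpace.Completion.denseRange_coe.closure_range] using
      (h1.image (UniformSpace.Completion.uniformContinuous_coe A)).closure, complete_univ⟩⟩
  obtain ⟨χ, c, h2⟩ := cpt (x₀ := (x₀ : UniformSpace.Completion A)) fun e =>
    hx (UniformSpace.Completion.coe_injective A e)
  exact ⟨χ.comp UniformSpace.Completion.toCompl,
    c.comp (UniformSpace.Completion.continuous_coe A), h2⟩

end Pool.Agent.Lib.helper23.PW
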