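import Mathlib

set_option autoImplicit false

namespace Pool.Agent.Lib.helper23

open Set Filter

theorem exists_interp (D : Type*) [Countable D] [Nonempty D] :
    ∃ S : Set ((ℕ → Bool) → D), S.Countable ∧
      ∀ (F : Finset (ℕ → Bool)) (v : (ℕ → Bool) → D), ∃ s ∈ S, ∀ x ∈ F, s x = v x := by
  classical
  refine ⟨range fun (p : Σ m : ℕ, (Fin m → Bool) → D) x => p.2 fun i => x i, countable_range _,
    fun F v => ?_⟩
  obtain ⟨m, hm⟩ : ∃ m : ℕ, InjOn (fun (x : ℕ → Bool) (i : Fin m) => x i) F := by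
    have : ∀ᶠ m : ℕ in atTop, ∀ p ∈ F ×ˢ F, (fun i : Fin m => p.1 i) = (fun i : Fin m => p.2 i) →
        p.1 = p.2 := (eventually_all_finset _).2 fun p _ => by
      by_cases h : p.1 = p.2
      · exact .of_forall fun _ _ => h
      · obtain ⟨i, hi⟩ := Function.ne_iff.1 h
        exact (eventually_gt_atTop i).mono fun m hm h' => absurd (congrFun h' ⟨i, hm⟩) hi
    exact this.exists.imp fun m hm x hx y hy => hm (x, y) (Finset.mem_product.2 ⟨hx, hy⟩)
  exact ⟨_, ⟨⟨m, fun t => v (Function.invFunOn (fun (x : ℕ → Bool) (i : Fin m) => x i) F t)⟩, rfl⟩,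
    fun x hx => congrArg v (hm.leftInvOn_invFunOn hx)⟩

theorem exists_dense (D : Type*) [Countable D] [Nonempty D] [TopologicalSpace D] :
    ∃ S : Set ((ℕ → Bool) → D), S.Countable ∧ Dense S := by
  obtain ⟨S, h1, h2⟩ := exists_interp D
  refine ⟨S, h1, fun v => mem_closure_iff_nhds.2 fun U hU => ?_⟩
  rw [nhds_pi] at hU
  obtain ⟨I, h3, t, h4, h5⟩ := mem_pi.1 hU
  obtain ⟨s, h6, h7⟩ := h2 h3.toFinset v
  exact ⟨s, h5 fun i hi => h7 i (h3.mem_toFinset.2 hi) ▸ mem_of_mem_nhds (h4 i), h6⟩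

theorem uncountable_cantor : Uncountable (ℕ → Bool) := by
  rw [← Cardinal.aleph0_lt_mk_iff]
  simpa using Cardinal.aleph0_lt_continuum

end Pool.Agent.Lib.helper23
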