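import Mathlib

set_option autoImplicit false

namespace Pool.Agent.Lib.helper23.AbQ

open Set Function
open Cardinal hiding univ

variable {κ : Cardinal}

lemma fs_le (hκ : ℵ₀ ≤ κ) {I R : Type} [Zero R] [Nontrivial R] [Countable R] (h : #I ≤ κ) :
    #(I →₀ R) ≤ κ := by
  cases finite_or_infinite I
  · exact mk_le_aleph0.trans hκ
  · rw [mk_finsupp_of_infinite]
    exact max_le h (mk_le_aleph0.trans hκ)

lemma un_le (hκ : ℵ₀ ≤ κ) {I α : Type} (h : #I ≤ κ) (f : I → Set α) (hf : ∀ i, #(f i) ≤ κ) :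
    #(⋃ i, f i) ≤ κ :=
  (mk_iUnion_le f).trans ((mul_le_mul' h (ciSup_le' hf)).trans (mul_eq_self hκ).le)

lemma span_le (hκ : ℵ₀ ≤ κ) {D : Type} [AddCommGroup D] {s : Set D} (h : #s ≤ κ) :
    #(Submodule.span ℤ s) ≤ κ := by
  rw [Finsupp.span_eq_range_linearCombination]
  exact mk_range_le.trans (fs_le hκ h)

lemma fib (hκ : ℵ₀ ≤ κ) {Q R : Type} [AddCommGroup Q] [AddCommGroup R] (f : Q →+ R)
    (hf : #f.ker ≤ κ) {S : Set R} (hS : #S ≤ κ) : #(f ⁻¹' S) ≤ κ := by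
  refine (mk_le_mk_of_subset fun x hx => mem_iUnion.2 ⟨⟨f x, hx⟩, rfl⟩).trans
    (un_le hκ hS (fun s => f ⁻¹' {s.1}) fun s => ?_)
  rcases (f ⁻¹' {s.1}).eq_empty_or_nonempty with e | ⟨x, hx⟩
  · simp [e]
  · rw [← (hx : f x = s)]
    exact (f.fiberEquivKer x).cardinal_eq.trans_le hf

lemma vs (hκ : ℵ₀ ≤ κ) {W : Type} [AddCommGroup W] {p : ℕ} (hp : p.Prime) (hW : ∀ w : W, p • w = 0)
    (h : κ < #W) : ∃ (I : Type) (π : W →+ (I →₀ ZMod p)), κ < #I ∧ Surjective π := by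
  haveI := Fact.mk hp
  letI := AddCommGroup.zmodModule hW
  let b := Module.Basis.ofVectorSpace (ZMod p) W
  refine ⟨_, b.repr.toAddEquiv.toAddMonoidHom, ?_, b.repr.surjective⟩
  by_contra hn
  exact (h.trans_le (b.repr.toEquiv.cardinal_eq.trans_le (fs_le hκ (not_lt.1 hn)))).false

lemma sub (hκ : ℵ₀ ≤ κ) {Q : Type} [AddCommGroup Q] (h : κ < #Q) : ∃ p : ℕ, p.Prime ∧
    ∃ (B : AddSubgroup Q) (I : Type) (π : B →+ (I →₀ ZMod p)), κ < #I ∧ Surjective π := by
  by_cases h1 : ∃ p : ℕ, p.Prime ∧ κ < #(nsmulAddMonoidHom p : Q →+ Q).ker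
  · obtain ⟨p, hp, h1⟩ := h1
    exact ⟨p, hp, _, vs hκ hp (fun w => Subtype.ext w.2) h1⟩
  push Not at h1
  have h2 (n : ℕ) : n ≠ 0 → #(nsmulAddMonoidHom n : Q →+ Q).ker ≤ κ := by
    induction n using induction_on_primes with
    | zero => simp
    | one =>
      exact fun _ => (mk_le_mk_of_subset (t := {0}) fun (x : Q) (hx : 1 • x = 0) =>
        by simpa using hx).trans (by simpa using one_le_aleph0.trans hκ)
    | prime_mul p a hp ih =>
      exact fun hn => (mk_le_mk_of_subset fun (x : Q) (hx : (p * a) • x = 0) =>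
        by rwa [mul_nsmul] at hx).trans
        (fib hκ _ (h1 p hp) (ih (right_ne_zero_of_mul hn)))
  obtain ⟨s, s1, s2⟩ := exists_maximal_linearIndepOn ℤ (id : Q → Q)
  rw [image_id] at s2
  refine ⟨2, Nat.prime_two, (Submodule.span ℤ (range fun x : s => id x.1)).toAddSubgroup, s,
    (Finsupp.mapRange.addMonoidHom (Int.castAddHom (ZMod 2))).comp
      (LinearIndependent.repr s1).toAddMonoidHom, ?_,
    (Finsupp.mapRange_surjective _ (map_zero _) (ZMod.intCast_surjective)).comp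
      (LinearMap.range_eq_top.1 (LinearIndependent.repr_range s1))⟩
  by_contra hn
  refine (h.trans_le (mk_univ.symm.trans_le ((mk_le_mk_of_subset fun x _ => ?_).trans
    (un_le hκ (I := ℕ) (by simpa) _ fun n => fib hκ _ (h2 (n + 1) n.succ_ne_zero)
      (span_le hκ (not_lt.1 hn)))))).false
  by_cases hx : x ∈ s
  · exact mem_iUnion.2 ⟨0, by simpa using Submodule.subset_span hx⟩
  · obtain ⟨a, a0, ha⟩ := s2 x hx
    obtain ⟨n, hn⟩ := Nat.exists_eq_succ_of_ne_zero (Int.natAbs_ne_zero.2 a0)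
    refine mem_iUnion.2 ⟨n, ?_⟩
    change (n + 1) • x ∈ Submodule.span ℤ s
    rw [← Nat.succ_eq_add_one, ← hn, ← natCast_zsmul]
    rcases Int.natAbs_eq a with e | e
    · exact e ▸ ha
    · rw [← neg_mem_iff, ← neg_smul]
      exact e ▸ ha

def R (p : ℕ) [hp : Fact p.Prime] : AddSubgroup ℚ where
  carrier := {q | ∃ m : ℤ, ¬ (p : ℤ) ∣ m ∧ ∃ a : ℤ, m * q = a}
  zero_mem' := ⟨1, (Nat.prime_iff_prime_int.1 hp.out).not_dvd_one, 0, by simp⟩
  add_mem' := by
    rintro q r ⟨m, hm, a, ha⟩ ⟨n, hn, b, hb⟩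
    refine ⟨m * n, fun h => ((Nat.prime_iff_prime_int.1 hp.out).dvd_or_dvd h).elim hm hn,
      n * a + m * b, ?_⟩
    push_cast
    linear_combination n * ha + m * hb
  neg_mem' := by
    rintro q ⟨m, hm, a, ha⟩
    exact ⟨m, hm, -a, by push_cast; linear_combination -ha⟩

lemma pruf (p : ℕ) [hp : Fact p.Prime] : ∃ (T : Type) (_ : AddCommGroup T) (j : ZMod p →+ T),
    Countable T ∧ Nontrivial T ∧ (∀ n : ℤ, n ≠ 0 → ∀ t : T, ∃ s, n • s = t) ∧
    (∀ t : T, ∃ k, p ^ k • t = 0) ∧ ∀ t : T, p • t = 0 → ∃ z, j z = t := by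
  have p0 : (p : ℚ) ≠ 0 := by exact_mod_cast hp.out.ne_zero
  have p1 := Nat.prime_iff_prime_int.1 hp.out
  refine ⟨ℚ ⧸ R p, inferInstance, ZMod.lift p ⟨zmultiplesHom _ ((1 / p : ℚ) : ℚ ⧸ R p), ?_⟩,
    QuotientAddGroup.mk_surjective.countable, ⟨((1 / p : ℚ) : ℚ ⧸ R p), 0, fun h => ?_⟩, fun n hn t => ?_, fun t => ?_,
    fun t ht => ?_⟩
  · rw [zmultiplesHom_apply, ← QuotientAddGroup.mk_zsmul, QuotientAddGroup.eq_zero_iff]
    exact ⟨1, p1.not_dvd_one, 1, by simp [p0]⟩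
  · obtain ⟨m, hm, a, ha⟩ := (QuotientAddGroup.eq_zero_iff _).1 h
    refine hm ⟨a, ?_⟩
    field_simp at ha
    exact_mod_cast ha
  · obtain ⟨q, rfl⟩ := QuotientAddGroup.mk_surjective t
    refine ⟨((q / n : ℚ) : ℚ ⧸ R p), ?_⟩
    rw [← QuotientAddGroup.mk_zsmul, zsmul_eq_mul, mul_div_cancel₀ _ (by exact_mod_cast hn)]
  · obtain ⟨q, rfl⟩ := QuotientAddGroup.mk_surjective t
    obtain ⟨k, m, hm, e⟩ := Nat.exists_eq_pow_mul_and_not_dvd q.den_ne_zero p hp.out.ne_one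
    refine ⟨k, ?_⟩
    rw [← QuotientAddGroup.mk_nsmul, QuotientAddGroup.eq_zero_iff]
    refine ⟨m, by exact_mod_cast hm, q.num, ?_⟩
    rw [← q.den_mul_eq_num, e]
    simp
    ring
  · obtain ⟨q, rfl⟩ := QuotientAddGroup.mk_surjective t
    rw [← QuotientAddGroup.mk_nsmul, QuotientAddGroup.eq_zero_iff] at ht
    obtain ⟨m, hm, a, ha⟩ := ht
    obtain ⟨v, u, h⟩ := (p1.irreducible.coprime_iff_not_dvd).2 hm
    refine ⟨((a * u : ℤ) : ZMod p), ?_⟩
    rw [ZMod.lift_coe, zmultiplesHom_apply, ← QuotientAddGroup.mk_zsmul, QuotientAddGroup.eq]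
    refine ⟨m, hm, a * v, ?_⟩
    have h' : (v : ℚ) * p + u * m = 1 := by exact_mod_cast h
    simp only [nsmul_eq_mul, zsmul_eq_mul] at ha ⊢
    push_cast
    field_simp
    linear_combination ha - a * h'

theorem quot (hκ : ℵ₀ ≤ κ) {D : Type} [AddCommGroup D] (h : κ < #D) :
    ∃ (T : Type) (_ : AddCommGroup T) (I : Type) (π : D →+ (I →₀ T)),
      Countable T ∧ Nontrivial T ∧ κ < #I ∧ Surjective π := by
  by_cases h1 : ∃ p : ℕ, p.Prime ∧ κ < #(D ⧸ (nsmulAddMonoidHom p : D →+ D).range)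
  · obtain ⟨p, hp, h1⟩ := h1
    haveI := Fact.mk hp
    obtain ⟨I, π, h2, h3⟩ := vs hκ hp (fun w => by
      obtain ⟨w, rfl⟩ := QuotientAddGroup.mk_surjective w
      rw [← QuotientAddGroup.mk_nsmul, QuotientAddGroup.eq_zero_iff]
      exact ⟨w, rfl⟩) h1
    exact ⟨ZMod p, inferInstance, I, π.comp (QuotientAddGroup.mk' _), inferInstance, inferInstance,
      h2, h3.comp QuotientAddGroup.mk_surjective⟩
  push Not at h1
  let D₀ := (Submodule.span ℤ (⋃ p : Nat.Primes, range fun q : D ⧸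
    (nsmulAddMonoidHom p.1 : D →+ D).range => q.out)).toAddSubgroup
  have h2 : #D₀ ≤ κ := span_le hκ (un_le hκ (mk_le_aleph0.trans hκ) _ fun p =>
    mk_range_le.trans (h1 p.1 p.2))
  obtain ⟨p, hp, B, I, π, h3, h4⟩ := sub hκ (Q := D ⧸ D₀) (by
    by_contra hn
    have := fib hκ (QuotientAddGroup.mk' D₀) (by rwa [QuotientAddGroup.ker_mk']) (S := univ)
      (mk_univ.trans_le (not_lt.1 hn))
    rw [preimage_univ, mk_univ] at this
    exact (h.trans_le this).false)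
  have h5 (q : D ⧸ D₀) : ∃ q', p • q' = q := by
    obtain ⟨d, rfl⟩ := QuotientAddGroup.mk_surjective q
    obtain ⟨⟨_, y, rfl⟩, hy⟩ := QuotientAddGroup.mk_out_eq_mul
      (nsmulAddMonoidHom p : D →+ D).range d
    refine ⟨((-y : D) : D ⧸ D₀), ?_⟩
    rw [← QuotientAddGroup.mk_nsmul, QuotientAddGroup.eq]
    refine Submodule.subset_span (mem_iUnion.2 ⟨⟨p, hp⟩, _, hy.trans ?_⟩)
    simp [add_comm]
  haveI := Fact.mk hp
  obtain ⟨T, _, j, t1, t2, t3, t4, t5⟩ := pruf p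
  haveI : DivisibleBy (I →₀ T) ℤ := divisibleByOfSMulRightSurj _ _ fun {n} hn f => by
    induction f using Finsupp.induction_linear with
    | zero => exact ⟨0, smul_zero _⟩
    | add f g hf hg =>
      obtain ⟨a, rfl⟩ := hf
      obtain ⟨b, rfl⟩ := hg
      exact ⟨a + b, smul_add _ _ _⟩
    | single i t =>
      obtain ⟨s, rfl⟩ := t3 n hn t
      exact ⟨.single i s, by simp⟩
  obtain ⟨ρ, hρ⟩ := (Module.Baer.of_divisible (I →₀ T)).extension_property_addMonoidHom B.subtype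
    B.subtype_injective ((Finsupp.mapRange.addMonoidHom j).comp π)
  have h6 (y : I →₀ T) (hy : p • y = 0) : y ∈ ρ.range := by
    choose z hz using fun i => t5 (y i) (DFunLike.congr_fun hy i)
    obtain ⟨b, hb⟩ := h4 (∑ i ∈ y.support, Finsupp.single i (z i))
    refine ⟨b, (DFunLike.congr_fun hρ b).trans ?_⟩
    simp only [AddMonoidHom.comp_apply, hb, map_sum, Finsupp.mapRange.addMonoidHom_apply,
      Finsupp.mapRange_single, hz]
    exact y.sum_single
  have h7 (k) (y : I →₀ T) (hy : p ^ k • y = 0) : y ∈ ρ.range := by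
    induction k generalizing y with
    | zero => rw [show y = 0 by simpa using hy]; exact zero_mem _
    | succ k ih =>
      obtain ⟨q, hq⟩ := ih (p • y) (by rwa [← mul_nsmul, ← pow_succ'])
      obtain ⟨q, rfl⟩ := h5 q
      simpa using add_mem (h6 (y - ρ q) (by rw [smul_sub, ← hq, map_nsmul, sub_self])) ⟨q, rfl⟩
  refine ⟨T, inferInstance, I, ρ.comp (QuotientAddGroup.mk' _), t1, t2, h3,
    Surjective.comp (g := ρ) (fun y => ?_) QuotientAddGroup.mk_surjective⟩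
  change y ∈ ρ.range
  induction y using Finsupp.induction_linear with
  | zero => exact zero_mem _
  | add f g hf hg => exact add_mem hf hg
  | single i t =>
    obtain ⟨k, hk⟩ := t4 t
    exact h7 k _ (by simp [hk])

end Pool.Agent.Lib.helper23.AbQ
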