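import Mathlib
import Pool.Agent.Lib.helper23.Rec
import Pool.Agent.Lib.helper23.PW
import Pool.Agent.Lib.helper23.AbQ

set_option autoImplicit false

namespace Pool.Agent.Lib.helper23.MinA

open Set Filter Topology Function Pool.Agent.Lib.helper23.Dual Pool.Agent.Lib.helper23.PW
  Pool.Agent.Lib.helper23.AbQ
open Cardinal hiding univ

def Mn (A : Type) [AddCommGroup A] [TopologicalSpace A] : Prop :=
  ∀ P : Filter A, pure 0 ≤ P → Tendsto (fun p : A × A => p.1 - p.2) (P ×ˢ P) P →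
    (∀ g, ClusterPt g P → g = 0) → P ≤ 𝓝 0

def Tt (κ : Cardinal) (A : Type) [TopologicalSpace A] : Prop :=
  ∀ (X : Set A), ∀ x ∈ closure X, ∃ B ⊆ X, #B ≤ κ ∧ x ∈ closure B

def Ps (κ : Cardinal) {A : Type} [Zero A] [TopologicalSpace A] (H : Set A) : Prop :=
  ∃ 𝒰 : Set (Set A), #𝒰 ≤ κ ∧ (∀ U ∈ 𝒰, U ∈ 𝓝 0) ∧ ∀ x ∈ H, (∀ U ∈ 𝒰, x ∈ U) → x = 0

variable {A : Type} [AddCommGroup A] [TopologicalSpace A] {κ : Cardinal}

def DD (A : Type) [AddCommGroup A] [TopologicalSpace A] : AddSubgroup (A →+ T) where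
  carrier := {χ | Continuous χ}
  zero_mem' := continuous_const
  add_mem' := fun ha hb => Continuous.add ha hb
  neg_mem' := fun ha => Continuous.neg ha

lemma emb (hA : Mn A) {B : Type} [AddCommGroup B] [TopologicalSpace B] [IsTopologicalAddGroup B]
    [T2Space B] (f : A →+ B) (hf : Continuous f) (hi : ∀ x, f x = 0 → x = 0) :
    comap f (𝓝 0) ≤ 𝓝 0 := by
  refine hA _ (map_le_iff_le_comap.1 (by simpa using pure_le_nhds _)) (tendsto_comap_iff.2 ?_)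
    fun g hg => hi g (eq_of_nhds_neBot (hg.map hf.continuousAt tendsto_comap))
  have := ((tendsto_comap (f := f) (x := 𝓝 0)).comp (tendsto_fst (g := comap f (𝓝 0)))).sub
    ((tendsto_comap (f := f) (x := 𝓝 0)).comp (tendsto_snd (f := comap f (𝓝 0))))
  simpa [comp_def] using this

lemma crD {I : Type} (φ : I → DD A) (χ : DD A)
    (h : {a | ‖χ.1 a‖ ≤ 1 / 4} ∈ comap (fun a i => (φ i).1 a) (𝓝 0))
    (E : AddSubgroup (DD A)) (hE : ∀ i, φ i ∈ E) : χ ∈ E := by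
  obtain ⟨U, h1, h2⟩ := mem_comap.1 h
  obtain ⟨k, hk⟩ := CR (fun i => (φ i).1) χ.1 h1 fun a ha => h2 ha
  have : χ = k.sum fun i n => n • φ i := by
    ext a
    rw [hk, Finsupp.linearCombination_apply]
    simp [Finsupp.sum]
  exact this ▸ sum_mem fun i _ => zsmul_mem (hE i) _

lemma qnb (χ : DD A) : {a | ‖χ.1 a‖ ≤ 1 / 4} ∈ 𝓝 (0 : A) :=
  (χ.2.norm.tendsto 0).eventually (ge_mem_nhds (by simp))

lemma psD (hκ : ℵ₀ ≤ κ) {I : Type} (φ : I → DD A) (hI : #I ≤ κ)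
    (h : ∀ x, (∀ i, (φ i).1 x = 0) → x = 0) : Ps κ (univ : Set A) := by
  refine ⟨range fun q : I × ℕ => {a | ‖(φ q.1).1 a‖ < 1 / (q.2 + 1)}, mk_range_le.trans ?_, ?_,
    fun x _ hx => h x fun i => norm_le_zero_iff.1 (le_of_not_gt fun h0 => ?_)⟩
  · simpa using (mul_le_mul' hI hκ).trans (mul_eq_self hκ).le
  · rintro _ ⟨q, rfl⟩
    exact ((φ q.1).2.norm.tendsto 0).eventually (gt_mem_nhds (by simp; positivity))
  · obtain ⟨n, hn⟩ := exists_nat_one_div_lt h0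
    exact (hn.trans (hx _ ⟨(i, n), rfl⟩)).false

variable [IsTopologicalAddGroup A] [T2Space A]

lemma sepD (hP : Pre A) (x : A) (h : ∀ χ : DD A, χ.1 x = 0) : x = 0 := by
  by_contra hx
  obtain ⟨χ, h1, h2⟩ := pw hP hx
  exact h2 (h ⟨χ, h1⟩)

omit [IsTopologicalAddGroup A] [T2Space A] in
lemma clD (hle : comap (fun a (i : DD A) => i.1 a) (𝓝 0) ≤ 𝓝 (0 : A)) {X : Set A}
    (h : ∀ Φ : Set (DD A), Φ.Finite → ∃ x ∈ X, ∀ χ ∈ Φ, χ.1 x = 0) : 0 ∈ closure X := by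
  refine mem_closure_iff_nhds.2 fun U hU => ?_
  obtain ⟨W, h1, h2⟩ := mem_comap.1 (hle hU)
  rw [nhds_pi, Filter.mem_pi] at h1
  obtain ⟨Φ, h3, t, ht, h4⟩ := h1
  obtain ⟨x, hx, h5⟩ := h Φ h3
  exact ⟨x, h2 (h4 fun i hi => by simpa [h5 i hi] using mem_of_mem_nhds (ht i)), hx⟩

theorem preD (hκ : ℵ₀ ≤ κ) (hP : Pre A) (hA : Mn A) (ht : Tt κ A) : #(DD A) ≤ κ := by
  classical
  have top (E : Set (DD A)) (hE : ∀ x, (∀ χ ∈ E, χ.1 x = 0) → x = 0) :=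
    emb hA (AddMonoidHom.pi fun i : E => i.1.1) (continuous_pi fun i => i.1.2)
      fun x hx => hE x fun χ h => congrFun hx ⟨χ, h⟩
  have top' := emb hA (AddMonoidHom.pi fun i : DD A => i.1) (continuous_pi fun i => i.2)
      fun x hx => sepD hP x (congrFun hx)
  by_contra hn
  obtain ⟨R, _, I, π, _, _, h1, h2⟩ := quot hκ (not_le.1 hn)
  let φ : Set I → DD A →+ R := fun J => (Finsupp.liftAddHom fun i =>
    if i ∈ J then 0 else AddMonoidHom.id R).comp π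
  choose d hd using fun i t => h2 (Finsupp.single i t)
  have φ1 (J i t) (h : i ∉ J) : φ J (d i t) = t := by simp [φ, hd, h]
  have nI (J : Set I) (hJ : #J ≤ κ) : ∃ i, i ∉ J := by
    by_contra h
    push Not at h
    exact (h1.trans_le (mk_univ.symm.trans_le ((mk_le_mk_of_subset fun i _ => h i).trans hJ))).false
  have key (J : Set I) (hJ : J.Countable) : ∃ (g : A) (q : R × ℕ), (∀ χ, φ J χ = 0 → χ.1 g = 0) ∧
      ∀ χ, φ J χ = q.1 → 1 / (q.2 + 1 : ℝ) < ‖χ.1 g‖ := by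
    obtain ⟨i, hi⟩ := nI J (hJ.le_aleph0.trans hκ)
    obtain ⟨g, g1, g2⟩ : ∃ g, (∀ χ ∈ ((φ J).ker : Set (DD A)), χ.1 g = 0) ∧ g ≠ 0 := by
      by_contra h
      push Not at h
      obtain ⟨t, ht⟩ := exists_ne (0 : R)
      exact ht ((φ1 J i t hi).symm.trans
        (crD (fun i : ((φ J).ker : Set (DD A)) => i.1) _ (top _ h (qnb _)) _ fun i => i.2))
    obtain ⟨χ, c1, c2⟩ := pw hP g2
    obtain ⟨n, hn⟩ := exists_nat_one_div_lt (norm_pos_iff.2 c2)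
    refine ⟨g, (φ J ⟨χ, c1⟩, n), g1, fun ψ h => ?_⟩
    have : ψ.1 g - χ g = 0 := g1 (ψ - (⟨χ, c1⟩ : DD A)) (by simp [h])
    rwa [sub_eq_zero.1 this]
  choose! g q g1 g2 using key
  obtain ⟨r, hr⟩ : ∃ r, ∀ Φ : Set (DD A), Φ.Finite → ∃ J : Set I, J.Countable ∧ q J = r ∧
      ∀ χ ∈ Φ, ((π χ).support : Set I) ⊆ J := by
    by_contra h
    push Not at h
    choose Φ f1 f2 using h
    obtain ⟨χ, c1, c2⟩ := f2 _ (⋃ r, ⋃ χ ∈ Φ r, ((π χ).support : Set I)) (countable_iUnion fun r =>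
      (f1 r).countable.biUnion fun χ _ => (π χ).support.countable_toSet) rfl
    exact c2 fun i hi => mem_iUnion.2 ⟨_, mem_biUnion c1 hi⟩
  obtain ⟨B, b1, b2, b3⟩ := ht (g '' {J | J.Countable ∧ q J = r}) 0 (clD top' fun Φ hΦ => by
    obtain ⟨J, j1, j2, j3⟩ := hr Φ hΦ
    refine ⟨_, ⟨J, ⟨j1, j2⟩, rfl⟩, fun χ h => g1 J j1 χ ?_⟩
    simp only [φ, AddMonoidHom.comp_apply, Finsupp.liftAddHom_apply]
    exact Finset.sum_eq_zero fun i hi => by simp [j3 χ h hi])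
  choose J j1 j2 using fun b : B => b1 b.2
  obtain ⟨i, hi⟩ := nI _ (un_le hκ b2 J fun b => (j1 b).1.le_aleph0.trans hκ)
  obtain ⟨b, c1, c2⟩ := mem_closure_iff_nhds.1 b3 _ (((d i r.1).2.norm.tendsto 0).eventually
    (gt_mem_nhds (a := 1 / (r.2 + 1 : ℝ)) (by simp; positivity)))
  have := g2 _ (j1 ⟨b, c2⟩).1 (d i r.1) (by
    rw [(j1 _).2, φ1 _ _ _ fun h => hi (mem_iUnion.2 ⟨_, h⟩)])
  rw [(j1 _).2, j2] at this
  exact (this.trans c1).false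

lemma pre (hκ : ℵ₀ ≤ κ) (hP : Pre A) (hA : Mn A) (ht : Tt κ A) : Ps κ (univ : Set A) :=
  psD hκ id (preD hκ hP hA ht) (sepD hP)

lemma cover {A ι : Type} [AddCommGroup A] (s : Finset ι) (B : ι → Set A)
    (h : ∀ x, ∃ c ∈ s, x ∈ B c) :
    ∃ c ∈ s, ∃ E : Set A, E.Finite ∧ ∀ x, ∃ e ∈ E, ∃ b ∈ B c, ∃ b' ∈ B c, x = e + b - b' := by
  classical
  have key (s : Finset ι) : ∀ S : Set A, (∀ L : Set A, L.Finite → ∃ y, ∀ l ∈ L, y + l ∈ S) →
      (∀ x ∈ S, ∃ c ∈ s, x ∈ B c) → ∃ c ∈ s, ∃ E : Set A, E.Finite ∧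
        ∀ L : Set A, L.Finite → ∃ y, ∀ l ∈ L, ∃ e ∈ E, y + l + e ∈ B c := by
    induction s using Finset.induction_on with
    | empty =>
      intro S h1 h2
      obtain ⟨y, hy⟩ := h1 _ (finite_singleton 0)
      simpa using h2 _ (hy 0 rfl)
    | insert c s _ ih =>
      intro S h1 h2
      by_cases h3 : ∀ L : Set A, L.Finite → ∃ y, ∀ l ∈ L, y + l ∈ S \ B c
      · obtain ⟨c', h4, h5⟩ := ih _ h3 fun x hx => by
          obtain ⟨c', h4, h5⟩ := h2 x hx.1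
          exact ⟨c', (Finset.mem_insert.1 h4).resolve_left fun e => hx.2 (e ▸ h5), h5⟩
        exact ⟨c', Finset.mem_insert_of_mem h4, h5⟩
      · push Not at h3
        obtain ⟨E, e1, e2⟩ := h3
        refine ⟨c, Finset.mem_insert_self _ _, E, e1, fun L hL => ?_⟩
        obtain ⟨y, hy⟩ := h1 _ (hL.image2 (· + ·) e1)
        refine ⟨y, fun l hl => ?_⟩
        obtain ⟨e, he, h4⟩ := e2 (y + l)
        exact ⟨e, he, not_not.1 fun h5 => h4 ⟨add_assoc y l e ▸ hy _ ⟨l, hl, e, he, rfl⟩, h5⟩⟩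
  obtain ⟨c, hc, E, e1, e2⟩ := key s univ (fun _ _ => ⟨0, fun _ _ => trivial⟩) fun x _ => h x
  refine ⟨c, hc, _, e1.image2 (· - ·) e1, fun x => ?_⟩
  obtain ⟨y, hy⟩ := e2 _ (toFinite {0, x})
  obtain ⟨e, he, h1⟩ := hy 0 (by simp)
  obtain ⟨e', he', h2⟩ := hy x (by simp)
  exact ⟨_, ⟨e, he, e', he', rfl⟩, _, h2, _, h1, by simp only; abel⟩

lemma seqc {A : Type} [AddCommGroup A] (W : Set A) (K : ℕ → Finset ℤ)
    (h : ∀ n, ∀ c ∈ K n, c ≠ 0 → ∀ E : Set A, E.Finite →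
      ∃ x : A, ∀ e ∈ E, ∀ w ∈ W, ∀ w' ∈ W, c • x ≠ e + w - w') :
    ∃ φ : (ℕ →₀ ℤ) →ₗ[ℤ] A, ∀ s : ℕ →₀ ℤ, s ≠ 0 →
      (∀ n, s n ≠ 0 → ∀ i ≤ n, s i ∈ K n) → φ s ∉ W := by
  classical
  haveI : Inhabited A := ⟨0⟩
  obtain ⟨a, ha⟩ := trans_rec (W := ℕ) (S := A) (fun n a x => ∀ c ∈ K n, c ≠ 0 →
    ∀ s : Fin n → ℤ, (∀ i, s i ∈ K n) → ∑ i, s i • a i + c • x ∉ W)
    (fun n a b x e h c h1 h2 s hs => by
      simpa only [e _ (Fin.is_lt _)] using h c h1 h2 s hs) fun n a _ => by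
      by_contra hn
      push Not at hn
      obtain ⟨c, h1, E, e1, e2⟩ := cover ((K n).erase 0)
        (fun c => {x | ∃ s : Fin n → ℤ, (∀ i, s i ∈ K n) ∧ ∑ i, s i • a i + c • x ∈ W})
        fun x => (hn x).imp fun c hc => ⟨Finset.mem_erase.2 ⟨hc.2.1, hc.1⟩, hc.2.2⟩
      have f1 : ((fun s : Fin n → ℤ => ∑ i, s i • a i) '' {s | ∀ i, s i ∈ K n}).Finite :=
        (Finite.pi' fun _ => (K n).finite_toSet).image _
      obtain ⟨x, hx⟩ := h n c (Finset.mem_erase.1 h1).2 (Finset.mem_erase.1 h1).1 _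
        (e1.image2 (fun e f => c • e + f) (f1.image2 (· - ·) f1))
      obtain ⟨e, he, b, ⟨s, s1, s2⟩, b', ⟨s', s1', s2'⟩, rfl⟩ := e2 x
      exact hx _ ⟨e, he, _, ⟨_, ⟨s', s1', rfl⟩, _, ⟨s, s1, rfl⟩, rfl⟩, rfl⟩ _ s2 _ s2'
        (by simp only [smul_sub, smul_add]; abel)
  refine ⟨Finsupp.linearCombination ℤ a, fun s h0 hs => ?_⟩
  have h1 := Finsupp.support_nonempty_iff.2 h0
  have h2 := Finsupp.mem_support_iff.1 (s.support.max'_mem h1)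
  convert ha _ _ (hs _ h2 _ le_rfl) h2 (fun i => s i) fun i => hs _ h2 _ i.2.le
  rw [Fin.sum_univ_eq_sum_range (fun i => s i • a i), ← Finset.sum_range_succ,
    Finsupp.linearCombination_apply, Finsupp.sum_of_support_subset _ _ _ (by simp)]
  exact fun i hi => Finset.mem_range.2 (Nat.lt_succ_of_le (s.support.le_max' i hi))

omit [T2Space A] in
lemma clus (hA : Mn A) {ι : Type} [Nonempty ι] (P : ι → Set A)
    (h1 : ∀ i j, ∃ k, P k ⊆ P i ∧ P k ⊆ P j) (h2 : ∀ i, 0 ∈ P i)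
    (h3 : ∀ i, ∃ j, ∀ x ∈ P j, ∀ y ∈ P j, x - y ∈ P i) {V : Set A} (hV : V ∈ 𝓝 0)
    (h4 : ∀ i, ¬ P i ⊆ V) : ∃ g ≠ 0, ∀ U ∈ 𝓝 (0 : A), ∀ i, ∃ x ∈ P i, x - g ∈ U := by
  have hb := hasBasis_iInf_principal (s := P) h1
  by_contra h
  push Not at h
  refine (hb.mem_iff.1 (hA _ (le_iInf fun i => by simpa using h2 i)
    ((hb.prod_self.tendsto_iff hb).2 fun i _ => (h3 i).imp fun j hj =>
      ⟨trivial, fun p hp => hj _ hp.1 _ hp.2⟩) (fun g hg => not_not.1 fun h0 => ?_) hV)).elim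
    fun i hi => h4 i hi.2
  · obtain ⟨U, hU, i, hi⟩ := h g h0
    obtain ⟨x, x1, x2⟩ := clusterPt_iff_nonempty.1 hg
      (((continuous_sub_right g).tendsto' g 0 (sub_self g)) hU) (hb.mem_of_mem (i := i) trivial)
    exact hi x x2 x1

omit [T2Space A] in
lemma half {V : Set A} (hV : V ∈ 𝓝 0) : ∃ W ∈ 𝓝 (0 : A), W ⊆ V ∧ ∀ x ∈ W, ∀ y ∈ W, x - y ∈ V := by
  have := continuous_sub.tendsto' ((0 : A), (0 : A)) 0 (sub_self _) hV
  rw [nhds_prod_eq] at this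
  obtain ⟨W, h1, h2⟩ := mem_prod_self_iff.1 this
  exact ⟨W ∩ V, inter_mem h1 hV, inter_subset_right, fun x hx y hy => h2 (mk_mem_prod hx.1 hy.1)⟩

lemma fin0 (φ : (ℕ →₀ ℤ) →ₗ[ℤ] A) (O : ℕ → Set (ℕ →₀ ℤ)) {W : Set A} (hW : W ∈ 𝓝 0) {g : A}
    (hg : ∀ U ∈ 𝓝 (0 : A), ∀ i, ∃ x ∈ φ '' O i, x - g ∈ U)
    (h : ∀ s₀ ∈ O 1, ∃ j, ∀ s ∈ O j, φ (s - s₀) ∈ W → φ s = 0) : g = 0 := by
  by_contra h0
  obtain ⟨U, u1, u2, u3⟩ := half (inter_mem hW (compl_singleton_mem_nhds (neg_ne_zero.2 h0).symm))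
  obtain ⟨_, ⟨s₀, a1, rfl⟩, a2⟩ := hg U u1 1
  obtain ⟨j, hj⟩ := h s₀ a1
  obtain ⟨_, ⟨s, b1, rfl⟩, b2⟩ := hg U u1 j
  rw [hj s b1 (by simpa using (u3 _ b2 _ a2).1), zero_sub] at b2
  exact (u2 b2).2 rfl

lemma bd (s : ℕ →₀ ℤ) : ∃ j, 1 ≤ j ∧ ∀ i, j ≤ i → s i = 0 := by
  obtain ⟨j, hj⟩ := s.support.finite_toSet.bddAbove
  exact ⟨j + 1, by omega, fun i hi => not_not.1 fun h => by
    have := hj (Finsupp.mem_support_iff.2 h); omega⟩

lemma S1 (hA : Mn A) {V : Set A} (hV : V ∈ 𝓝 0) :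
    ∃ k : ℤ, k ≠ 0 ∧ ∃ E : Set A, E.Finite ∧ ∀ x : A, ∃ e ∈ E, k • x - e ∈ V := by
  by_contra hn
  push Not at hn
  obtain ⟨W, w1, -, w2⟩ := half hV
  obtain ⟨φ, hφ⟩ := seqc W (fun n => Finset.Icc (-n : ℤ) n) fun n c _ h0 E hE =>
    (hn c h0 E hE).imp fun x hx e he w hw w' hw' h => hx e he (by
      convert w2 w hw w' hw' using 1
      rw [h]; abel)
  have hφ' (s : ℕ →₀ ℤ) (h0 : s ≠ 0) (hs : ∀ i, |s i| ≤ i) : φ s ∉ W := hφ s h0 fun n _ i hi =>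
    Finset.mem_Icc.2 (abs_le.1 ((hs i).trans (by exact_mod_cast hi)))
  let O : ℕ → Set (ℕ →₀ ℤ) := fun j => {s | ∀ i, |s i| * (j + 1) ≤ i}
  have mono (i j) (h : i ≤ j) : φ '' O j ⊆ φ '' O i := image_mono fun s hs l =>
    (mul_le_mul_of_nonneg_left (by simpa) (abs_nonneg _)).trans (hs l)
  obtain ⟨g, g0, hg⟩ := clus hA (fun j => φ '' O j)
    (fun i j => ⟨max i j, mono _ _ (le_max_left _ _), mono _ _ (le_max_right _ _)⟩)
    (fun i => ⟨0, by simp [O], map_zero _⟩) (fun i => ⟨2 * i + 1, by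
      rintro _ ⟨s, hs, rfl⟩ _ ⟨t, ht, rfl⟩
      refine ⟨s - t, fun l => ?_, map_sub _ _ _⟩
      have h1 := hs l
      have h2 := ht l
      have h3 := mul_le_mul_of_nonneg_right (abs_sub (s l) (t l)) (by positivity : (0 : ℤ) ≤ i + 1)
      push_cast at h1 h2
      rw [Finsupp.sub_apply]
      linarith⟩) w1 fun i h => hφ' (.single (i + 1) 1) (by simp) (fun l => by
        rw [Finsupp.single_apply]; split_ifs with e; exacts [by simp [← e], by simp]) (h ⟨_, fun l => by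
        rw [Finsupp.single_apply]; split_ifs with e; exacts [by simp [← e], by simp], rfl⟩)
  refine g0 (fin0 φ O w1 hg fun s₀ h₀ => (bd s₀).imp fun j hj s hs h => ?_)
  have h1 (i) (hi : i ≤ j) : s i = 0 := by
    by_contra h0
    have h2 := hs i
    have h3 := Int.one_le_abs h0
    have : (i : ℤ) ≤ j := by exact_mod_cast hi
    nlinarith
  by_cases e : s - s₀ = 0
  · rw [sub_eq_zero] at e
    rw [show s = 0 from Finsupp.ext fun i => (le_total i j).elim (h1 i) (e ▸ hj.2 i), map_zero]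
  refine absurd h (hφ' _ e fun i => ?_)
  have h2 := hs i
  have h3 := h₀ i
  have h4 := abs_nonneg (s i)
  have h5 := abs_nonneg (s₀ i)
  rw [Finsupp.sub_apply]
  rcases le_total i j with h | h
  · rw [h1 i h, zero_sub, abs_neg]; push_cast at h3; linarith
  · rw [hj.2 i h, sub_zero]; nlinarith

omit [T2Space A] in
lemma modp {p : ℕ} (hp : p.Prime) {V : Set A} (hV : V ∈ 𝓝 0)
    (hn : ∀ E : Set A, E.Finite → ∃ x : A, ∀ e ∈ E, ∀ y : A, x - e - (p : ℤ) • y ∉ V) :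
    ∃ W ∈ 𝓝 (0 : A), ∃ φ : (ℕ →₀ ℤ) →ₗ[ℤ] A, ∀ s, φ s ∈ W → ∀ i, (p : ℤ) ∣ s i := by
  obtain ⟨W, w1, -, w2⟩ := half hV
  have p0 : (0 : ℤ) < p := by exact_mod_cast hp.pos
  obtain ⟨φ, hφ⟩ := seqc {x | ∃ y : A, x - (p : ℤ) • y ∈ W} (fun _ => Finset.Ico (0 : ℤ) p)
    fun n c hc h0 E hE => by
      obtain ⟨x, hx⟩ := hn E hE
      obtain ⟨u, v, h⟩ := ((Nat.prime_iff_prime_int.1 hp).irreducible.coprime_iff_not_dvd).2
        fun h => h0 (Int.eq_zero_of_dvd_of_nonneg_of_lt (Finset.mem_Ico.1 hc).1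
          (Finset.mem_Ico.1 hc).2 h)
      refine ⟨v • x, fun e he w ⟨y, hy⟩ w' ⟨y', hy'⟩ h' => hx e he (u • x + y - y') ?_⟩
      convert w2 _ hy _ hy' using 1
      have : x = (u * p + v * c) • x := by rw [h, one_smul]
      rw [add_smul, mul_comm u, mul_comm v, mul_smul, mul_smul, h'] at this
      simp only [smul_add, smul_sub]
      rw [sub_sub, sub_eq_iff_eq_add]
      refine this.trans ?_
      abel
  refine ⟨W, w1, φ, fun s hs i => Int.dvd_of_emod_eq_zero (not_not.1 fun h => ?_)⟩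
  refine hφ (s.mapRange (· % p) (by simp)) (fun e => h (DFunLike.congr_fun e i))
    (fun n _ l _ => Finset.mem_Ico.2 ⟨Int.emod_nonneg _ p0.ne', Int.emod_lt_of_pos _ p0⟩)
    ⟨-φ (s.mapRange (· / p) (by simp)), ?_⟩
  convert hs
  rw [smul_neg, sub_neg_eq_add, ← map_smul, ← map_add]
  congr 1
  ext l
  simp [Int.emod_add_mul_ediv]

lemma dv (s : ℕ →₀ ℤ) {k : ℤ} (h : ∀ i, k ∣ s i) : ∃ t, s = k • t :=
  ⟨s.mapRange (· / k) (by simp), Finsupp.ext fun i => by simp [Int.mul_ediv_cancel' (h i)]⟩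

lemma expp (hA : Mn A) {p : ℕ} (hp : p.Prime) (h : ∀ x : A, (p : ℤ) • x = 0) : Pre A := by
  intro V hV
  by_contra hn
  push Not at hn
  obtain ⟨W, w1, φ, hφ⟩ := modp hp hV fun E hE => (hn E hE).imp fun x hx e he y => by
    simpa [h y] using hx e he
  let O : ℕ → Set (ℕ →₀ ℤ) := fun j => {s | ∀ i < j, s i = 0}
  have mono (i j) (h : i ≤ j) : φ '' O j ⊆ φ '' O i := image_mono fun s hs l hl =>
    hs l (hl.trans_le h)
  obtain ⟨g, g0, hg⟩ := clus hA (fun j => φ '' O j)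
    (fun i j => ⟨max i j, mono _ _ (le_max_left _ _), mono _ _ (le_max_right _ _)⟩)
    (fun i => ⟨0, by simp [O], map_zero _⟩) (fun i => ⟨i, by
      rintro _ ⟨s, hs, rfl⟩ _ ⟨t, ht, rfl⟩
      exact ⟨s - t, fun l hl => by simp [hs l hl, ht l hl], map_sub _ _ _⟩⟩) w1
    fun i h => (Nat.prime_iff_prime_int.1 hp).not_dvd_one (by
      simpa using hφ (.single i 1) (h ⟨_, fun l hl => Finsupp.single_eq_of_ne hl.ne, rfl⟩) i)
  refine g0 (fin0 φ O w1 hg fun s₀ _ => (bd s₀).imp fun j hj s hs h' => ?_)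
  obtain ⟨t, rfl⟩ := dv s (k := p) fun i => by
    rcases lt_or_ge i j with h | h
    · simp [hs i h]
    · simpa [hj.2 i h] using hφ _ h' i
  rw [map_smul, h]

def Dv (A : Type) [AddCommGroup A] [TopologicalSpace A] [IsTopologicalAddGroup A] :
    AddSubgroup A :=
  ⨅ k : {k : ℤ // k ≠ 0}, (zsmulAddGroupHom k.1 : A →+ A).range.topologicalClosure

omit [T2Space A] in
lemma mem_Dv {g : A} : g ∈ Dv A ↔ ∀ k : ℤ, k ≠ 0 → ∀ U ∈ 𝓝 (0 : A), ∃ y, k • y - g ∈ U := by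
  simp only [Dv, AddSubgroup.mem_iInf, Subtype.forall]
  refine forall₂_congr fun k _ => mem_closure_iff_nhds.trans ⟨fun h U hU => ?_, fun h U hU => ?_⟩
  · obtain ⟨_, h1, y, rfl⟩ := h _ (((continuous_sub_right g).tendsto' g 0 (sub_self g)) hU)
    exact ⟨y, h1⟩
  · obtain ⟨y, hy⟩ := h _ (((continuous_add_right g).tendsto' 0 g (zero_add g)) hU)
    exact ⟨k • y, by simpa using hy, y, rfl⟩

lemma tf (hA : Mn A) (h0 : ∀ k : ℤ, k ≠ 0 → ∀ x : A, k • x = 0 → x = 0)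
    (hD : ∀ g ∈ Dv A, g = 0) : Pre A := by
  have key (p : ℕ) (hp : p.Prime) (V) (hV : V ∈ 𝓝 (0 : A)) :
      ∃ E : Set A, E.Finite ∧ ∀ x : A, ∃ e ∈ E, ∃ y : A, x - e - (p : ℤ) • y ∈ V := by
    by_contra hn
    push Not at hn
    have p1 := Nat.prime_iff_prime_int.1 hp
    obtain ⟨W, w1, φ, hφ⟩ := modp hp hV hn
    let O : ℕ × {m : ℤ // ¬ (p : ℤ) ∣ m} → Set (ℕ →₀ ℤ) := fun j =>
      {s | (∀ i < j.1, s i = 0) ∧ ∀ i, j.2.1 ∣ s i}
    haveI : Nonempty {m : ℤ // ¬ (p : ℤ) ∣ m} := ⟨⟨1, p1.not_dvd_one⟩⟩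
    obtain ⟨g, g0, hg⟩ := clus hA (fun j => φ '' O j)
      (fun i j => ⟨(max i.1 j.1, ⟨i.2.1 * j.2.1, fun h => (p1.dvd_or_dvd h).elim i.2.2 j.2.2⟩),
        image_mono fun s hs => ⟨fun l hl => hs.1 l (lt_max_of_lt_left hl),
          fun l => (dvd_mul_right _ _).trans (hs.2 l)⟩,
        image_mono fun s hs => ⟨fun l hl => hs.1 l (lt_max_of_lt_right hl),
          fun l => (dvd_mul_left _ _).trans (hs.2 l)⟩⟩)
      (fun i => ⟨0, by simp [O], map_zero _⟩) (fun i => ⟨i, by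
        rintro _ ⟨s, hs, rfl⟩ _ ⟨t, ht, rfl⟩
        exact ⟨s - t, ⟨fun l hl => by simp [hs.1 l hl, ht.1 l hl],
          fun l => dvd_sub (hs.2 l) (ht.2 l)⟩, map_sub _ _ _⟩⟩) w1
      fun i h => i.2.2 (by
        simpa using hφ (.single i.1 i.2.1) (h ⟨_, ⟨fun l hl => Finsupp.single_eq_of_ne hl.ne,
          fun l => by rw [Finsupp.single_apply]; split_ifs <;> simp⟩, rfl⟩) i.1)
    have ind (i : ℕ) : ∃ U ∈ 𝓝 (0 : A), ∃ n, ∀ s : ℕ →₀ ℤ, (∀ l < n, s l = 0) → φ s - g ∈ U →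
        ∀ l, (p : ℤ) ^ i ∣ s l := by
      induction i with
      | zero => exact ⟨univ, univ_mem, 0, by simp⟩
      | succ i ih =>
        obtain ⟨U, u1, n, hn⟩ := ih
        obtain ⟨U', a1, a2⟩ := mem_comap.1 (emb hA (zsmulAddGroupHom ((p : ℤ) ^ i))
          (continuous_zsmul _) (h0 _ (pow_ne_zero _ p1.ne_zero)) w1)
        obtain ⟨U'', b1, b2, b3⟩ := half (inter_mem a1 u1)
        obtain ⟨_, ⟨s₀, c1, rfl⟩, c2⟩ := hg U'' b1 (n, ⟨1, p1.not_dvd_one⟩)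
        obtain ⟨j, -, hj⟩ := bd s₀
        refine ⟨U'', b1, max n j, fun s s1 s2 l => ?_⟩
        obtain ⟨t, ht⟩ := dv (s - s₀) fun l => dvd_sub
          (hn s (fun l hl => s1 l (lt_max_of_lt_left hl)) (b2 s2).2 l) (hn s₀ c1.1 (b2 c2).2 l)
        have := hφ t (a2 (by simpa [← map_smul, ← ht] using (b3 _ s2 _ c2).1)) l
        rcases lt_or_ge l j with h | h
        · simp [s1 l (lt_max_of_lt_right h)]
        · have e := DFunLike.congr_fun ht l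
          simp only [Finsupp.sub_apply, hj l h, sub_zero, Finsupp.smul_apply, smul_eq_mul] at e
          rw [e, pow_succ]
          exact mul_dvd_mul_left _ this
    refine g0 (hD g (mem_Dv.2 fun k hk U hU => ?_))
    obtain ⟨i, m, hm, rfl⟩ := WfDvdMonoid.max_power_factor hk p1.irreducible
    obtain ⟨U', u1, n, hn⟩ := ind i
    obtain ⟨_, ⟨s, c1, rfl⟩, c2⟩ := hg _ (inter_mem hU u1) (n, ⟨m, hm⟩)
    obtain ⟨t, rfl⟩ := dv s fun l => ((p1.irreducible.coprime_iff_not_dvd.2 hm).pow_left).mul_dvd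
      (hn s c1.1 c2.2 l) (c1.2 l)
    exact ⟨φ t, map_smul φ _ t ▸ c2.1⟩
  have key2 (k : ℕ) : k ≠ 0 → ∀ V ∈ 𝓝 (0 : A),
      ∃ E : Set A, E.Finite ∧ ∀ x : A, ∃ e ∈ E, ∃ y : A, x - e - (k : ℤ) • y ∈ V := by
    induction k using induction_on_primes with
    | zero => simp
    | one => exact fun _ V hV => ⟨{0}, toFinite _, fun x => ⟨0, rfl, x, by
        simpa using mem_of_mem_nhds hV⟩⟩
    | prime_mul p a hp ih =>
      intro h V hV
      obtain ⟨W, w1, -, w2⟩ := half hV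
      obtain ⟨E, e1, e2⟩ := key p hp W w1
      obtain ⟨E', e1', e2'⟩ := ih (right_ne_zero_of_mul h) _
        (((continuous_zsmul (-p : ℤ)).tendsto' (0 : A) 0 (smul_zero _)) w1)
      refine ⟨_, e1.image2 (fun e f => e + (p : ℤ) • f) e1', fun x => ?_⟩
      obtain ⟨e, he, y, hy⟩ := e2 x
      obtain ⟨f, hf, z, hz⟩ := e2' y
      refine ⟨_, ⟨e, he, f, hf, rfl⟩, z, ?_⟩
      convert w2 _ hy _ hz using 1
      simp only [Nat.cast_mul, mul_smul, neg_smul, smul_sub]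
      abel
  intro V hV
  obtain ⟨W, w1, -, w2⟩ := half hV
  obtain ⟨k, hk, E, e1, e2⟩ := S1 hA w1
  obtain ⟨E', e1', e2'⟩ := key2 _ (Int.natAbs_ne_zero.2 hk) W w1
  refine ⟨_, e1'.image2 (· - ·) e1, fun x => ?_⟩
  obtain ⟨e, he, y, hy⟩ := e2' x
  obtain ⟨f, hf, hz⟩ := e2 (-(k.sign • y))
  refine ⟨_, ⟨e, he, f, hf, rfl⟩, ?_⟩
  convert w2 _ hy _ hz using 1
  simp only [smul_neg, smul_smul, Int.mul_sign_self]
  abel

omit [IsTopologicalAddGroup A] [T2Space A] in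
lemma mn_sub (hA : Mn A) (H : AddSubgroup A) (hH : IsClosed (H : Set A)) : Mn H := by
  intro P h1 h2 h3
  rw [nhds_subtype]
  refine map_le_iff_le_comap.1 (hA _ (map_mono (m := Subtype.val) h1) ?_
    fun g hg => ?_)
  · rw [prod_map_map_eq, tendsto_map'_iff]
    exact tendsto_map.comp h2
  · have hg' : g ∈ H := hH.closure_subset (mem_closure_iff_clusterPt.2
      (hg.mono (le_principal_iff.2 (mem_map.2 (univ_mem' fun x => x.2)))))
    exact congrArg Subtype.val (h3 ⟨g, hg'⟩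
      (Topology.IsInducing.subtypeVal.mapClusterPt_iff.1 hg))

omit [AddCommGroup A] [IsTopologicalAddGroup A] [T2Space A] in
lemma tt_ind {B : Type} [TopologicalSpace B] {f : B → A} (hf : IsInducing f) (h : Tt κ A) :
    Tt κ B := fun X x hx => by
  obtain ⟨C, h1, h2, h3⟩ := h (f '' X) (f x) (mem_closure_image hf.continuous.continuousAt hx)
  choose c c1 c2 using fun y : C => h1 y.2
  refine ⟨range c, range_subset_iff.2 c1, mk_range_le.trans h2, ?_⟩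
  rw [hf.closure_eq_preimage_closure_image]
  exact closure_mono (t := f '' range c) (fun y hy => ⟨c ⟨y, hy⟩, ⟨_, rfl⟩, c2 _⟩) h3

omit [IsTopologicalAddGroup A] [T2Space A] in
lemma ps_sub (H : AddSubgroup A) (h : Ps κ (univ : Set H)) : Ps κ (H : Set A) := by
  obtain ⟨𝒰, h1, h2, h3⟩ := h
  choose V v1 v2 using fun U : 𝒰 => (mem_nhds_subtype _ _ _).1 (h2 U U.2)
  exact ⟨range V, mk_range_le.trans h1, forall_mem_range.2 v1, fun x hx h => congrArg Subtype.val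
    (h3 ⟨x, hx⟩ trivial fun U hU => v2 ⟨U, hU⟩ (h _ ⟨_, rfl⟩))⟩

omit [T2Space A] in
lemma pre_sub (H : AddSubgroup A)
    (h : ∀ V ∈ 𝓝 (0 : A), ∃ E : Set A, E.Finite ∧ ∀ x ∈ H, ∃ e ∈ E, x - e ∈ V) : Pre H := by
  intro U hU
  obtain ⟨V, v1, v2⟩ := (mem_nhds_subtype _ _ _).1 hU
  obtain ⟨W, w1, -, w2⟩ := half v1
  obtain ⟨E, e1, e2⟩ := h W w1
  have this (e : A) : ∃ z : H, ∀ x : H, x.1 - e ∈ W → z.1 - e ∈ W := by
    by_cases h : ∃ x : H, x.1 - e ∈ W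
    · exact h.imp fun z hz _ _ => hz
    · exact ⟨0, fun x hx => absurd ⟨x, hx⟩ h⟩
  choose z hz using this
  refine ⟨z '' E, e1.image _, fun x => ?_⟩
  obtain ⟨e, he, hx⟩ := e2 x x.2
  exact ⟨_, ⟨e, he, rfl⟩, v2 (by simpa using w2 _ hx _ (hz e x hx))⟩

omit [T2Space A] in
lemma chain {U : Set A} (hU : U ∈ 𝓝 0) : ∃ V : ℕ → Set A, V 0 = U ∧ (∀ n, V n ∈ 𝓝 0) ∧
    ∀ n, V (n + 1) ⊆ V n ∧ ∀ x ∈ V (n + 1), ∀ y ∈ V (n + 1), x - y ∈ V n := by
  choose! nx h1 h2 using fun V (hV : V ∈ 𝓝 (0 : A)) => half hV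
  have this (n) : nx^[n] U ∈ 𝓝 0 := by
    induction n with
    | zero => exact hU
    | succ n ih => exact iterate_succ_apply' nx n U ▸ h1 _ ih
  exact ⟨fun n => nx^[n] U, rfl, this, fun n => by
    simp only [iterate_succ_apply']; exact h2 _ (this n)⟩

omit [T2Space A] in
lemma gd (hκ : ℵ₀ ≤ κ) {𝒰 : Set (Set A)} (h1 : #𝒰 ≤ κ) (h2 : ∀ U ∈ 𝒰, U ∈ 𝓝 0) :
    ∃ N : AddSubgroup A, IsClosed (N : Set A) ∧ (∀ x ∈ N, ∀ U ∈ 𝒰, x ∈ U) ∧
      (Ps κ (N : Set A) → Ps κ (univ : Set A)) := by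
  choose V v0 v1 v2 using fun U : 𝒰 => chain (h2 U U.2)
  refine ⟨AddSubgroup.ofSub {x | ∀ U n, x ∈ V U n} ⟨0, fun U n => mem_of_mem_nhds (v1 U n)⟩
    fun x hx y hy U n => by simpa [sub_eq_add_neg] using (v2 U n).2 _ (hx U _) _ (hy U _),
    isClosed_of_closure_subset fun x hx U n => ?_, fun x hx U hU => (v0 ⟨U, hU⟩).le (hx ⟨U, hU⟩ 0), ?_⟩
  · obtain ⟨y, h3, h4⟩ := mem_closure_iff_nhds.1 hx _
      (((continuous_sub_right x).tendsto' x 0 (sub_self x)) (v1 U (n + 1)))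
    simpa using (v2 U n).2 _ (h4 U _) _ h3
  · rintro ⟨𝒱, a1, a2, a3⟩
    refine ⟨𝒱 ∪ range fun q : 𝒰 × ℕ => V q.1 q.2, (mk_union_le _ _).trans (add_le_of_le hκ a1
      (mk_range_le.trans ?_)), ?_, fun x _ hx => a3 x (fun U n => hx _ (Or.inr ⟨(U, n), rfl⟩))
      fun U hU => hx U (Or.inl hU)⟩
    · simpa using (mul_le_mul' h1 hκ).trans (mul_eq_self hκ).le
    · rintro _ (h | ⟨q, rfl⟩)
      exacts [a2 _ h, v1 _ _]

theorem main (hκ : ℵ₀ ≤ κ) (hA : Mn A) (ht : Tt κ A) : Ps κ (univ : Set A) := by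
  have sub (H : AddSubgroup A) (hH : IsClosed (H : Set A)) (hP : Mn H → Pre H) :=
    ps_sub H (pre hκ (hP (mn_sub hA H hH)) (mn_sub hA H hH) (tt_ind .subtypeVal ht))
  obtain ⟨𝒰, u1, u2, u3⟩ := sub (Dv A) (by
    rw [Dv, AddSubgroup.coe_iInf]
    exact isClosed_iInter fun _ => isClosed_closure) fun _ => pre_sub _ fun V hV => by
      obtain ⟨W, w1, -, w2⟩ := half hV
      obtain ⟨k, hk, E, e1, e2⟩ := S1 hA w1
      refine ⟨E, e1, fun x hx => ?_⟩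
      obtain ⟨y, hy⟩ := mem_Dv.1 hx k hk W w1
      obtain ⟨e, he, h⟩ := e2 y
      exact ⟨e, he, by simpa using w2 _ h _ hy⟩
  choose 𝒱 v1 v2 v3 using fun p : Nat.Primes => sub (zsmulAddGroupHom (p.1 : ℤ) : A →+ A).ker
    (isClosed_eq (continuous_zsmul _) continuous_const)
    fun h => expp h p.2 fun x => Subtype.ext x.2
  obtain ⟨N, n1, n2, n3⟩ := gd hκ (𝒰 := 𝒰 ∪ ⋃ p, 𝒱 p) ((mk_union_le _ _).trans (add_le_of_le hκ u1
    (un_le hκ (mk_le_aleph0.trans hκ) _ v1))) (by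
      rintro U (h | h)
      · exact u2 U h
      · obtain ⟨p, h⟩ := mem_iUnion.1 h
        exact v2 p U h)
  refine n3 (sub N n1 fun h => tf h (fun k hk x hx => ?_) fun g hg => Subtype.ext
    (u3 g (mem_Dv.2 fun k hk U hU => ?_) fun U hU => n2 _ g.2 U (Or.inl hU)))
  · have this (n : ℕ) : n ≠ 0 → ∀ x : N, (n : ℤ) • x = 0 → x = 0 := by
      induction n using induction_on_primes with
      | zero => simp
      | one => simp
      | prime_mul p a hp ih =>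
        intro h x hx
        rw [Nat.cast_mul, mul_smul] at hx
        exact ih (right_ne_zero_of_mul h) x (Subtype.ext (v3 ⟨p, hp⟩ _ (congrArg Subtype.val hx)
          fun U hU => n2 _ (Subtype.prop _) U (Or.inr (mem_iUnion.2 ⟨_, hU⟩))))
    refine this _ (Int.natAbs_ne_zero.2 hk) x ?_
    rw [← Int.sign_mul_self, mul_smul, hx, smul_zero]
  · obtain ⟨y, hy⟩ := mem_Dv.1 hg k hk _ (continuous_subtype_val.tendsto 0 hU)
    exact ⟨y, hy⟩

end Pool.Agent.Lib.helper23.MinA
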