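import Mathlib
import Pool.Agent.Lib.helper23.MinA

set_option autoImplicit false

namespace Pool.Agent.Lib.helper23.MinB

open Set Filter Topology Function Pool.Agent.Lib.helper23.MinA
open Cardinal hiding univ

lemma ofFilter {G : Type} [Group G] (F : Filter G) (h1 : pure 1 ≤ F)
    (h2 : Tendsto (fun p : G × G => p.1 * p.2) (F ×ˢ F) F) (h3 : Tendsto (fun x : G => x⁻¹) F F)
    (h4 : ∀ g, Tendsto (fun x : G => g * x * g⁻¹) F F) :
    ∃ σ : TopologicalSpace G, @IsTopologicalGroup G σ _ ∧ @nhds G σ 1 = F := by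
  let B : GroupFilterBasis G :=
    { sets := F.sets
      nonempty := ⟨univ, univ_mem⟩
      inter_sets := fun hx hy => ⟨_, inter_mem hx hy, subset_rfl⟩
      one' := fun hU => h1 hU
      mul' := fun hU => (mem_prod_self_iff.1 (h2 hU)).imp fun V hV => ⟨hV.1, by
        rintro _ ⟨x, hx, y, hy, rfl⟩
        exact hV.2 (mk_mem_prod hx hy)⟩
      inv' := fun hU => ⟨_, h3 hU, subset_rfl⟩
      conj' := fun g _ hU => ⟨_, h4 g hU, subset_rfl⟩ }
  exact ⟨B.topology, B.isTopologicalGroup, Filter.ext fun U => B.nhds_one_hasBasis.mem_iff.trans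
    ⟨fun ⟨_, h, h'⟩ => mem_of_superset h h', fun h => ⟨U, h, subset_rfl⟩⟩⟩

section
variable {G : Type} [Group G] [τ : TopologicalSpace G] [IsTopologicalGroup G]

def LM (U : Set G) : Prop := ∀ σ : TopologicalSpace G,
  @IsTopologicalGroup G σ _ → @T2Space G σ → τ ≤ σ → U ∈ @nhds G σ 1 → σ = τ

theorem lm_le {U : Set G} (hU : LM U) (P : Filter G) (h1 : pure 1 ≤ P)
    (h2 : Tendsto (fun p : G × G => p.1 * p.2⁻¹) (P ×ˢ P) P)
    (h3 : ∀ g, Tendsto (fun x : G => g * x * g⁻¹) P P)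
    (h4 : Tendsto (fun p : G × G => p.1 * p.2 * p.1⁻¹) (𝓝 1 ×ˢ P) P)
    (h5 : ∀ g, ClusterPt g P → g = 1)
    (h6 : U ∈ map (fun p : G × G => p.1 * p.2) (𝓝 1 ×ˢ P)) : P ≤ 𝓝 1 := by
  have i1 : Tendsto (fun x : G => x⁻¹) P P := by
    simpa [comp_def] using h2.comp ((tendsto_const_pure.mono_right h1).prodMk tendsto_id)
  have m1 : Tendsto (fun p : G × G => p.1 * p.2) (P ×ˢ P) P := by
    simpa [comp_def] using h2.comp (tendsto_fst.prodMk (i1.comp tendsto_snd))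
  have i2 : Tendsto (fun x : G => x⁻¹) (𝓝 1) (𝓝 1) := continuous_inv.tendsto' 1 1 inv_one
  have n1 : 𝓝 1 ≤ map (fun p : G × G => p.1 * p.2) (𝓝 1 ×ˢ P) := tendsto_id'.1 <| by
    simpa [comp_def, Function.id_def] using (tendsto_map (f := fun p : G × G => p.1 * p.2)).comp
      (tendsto_id.prodMk (tendsto_const_pure.mono_right h1))
  have n2 : P ≤ map (fun p : G × G => p.1 * p.2) (𝓝 1 ×ˢ P) := tendsto_id'.1 <| by
    simpa [comp_def, Function.id_def] using (tendsto_map (f := fun p : G × G => p.1 * p.2)).comp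
      ((tendsto_const_nhds (x := (1 : G))).prodMk tendsto_id)
  have sep (x : G) (hx : x ≠ 1) :
      ∃ U ∈ map (fun p : G × G => p.1 * p.2) (𝓝 1 ×ˢ P), x ∉ U := by
    obtain ⟨W, w1, Q, q1, h⟩ : ∃ W ∈ 𝓝 x, ∃ Q ∈ P, W ∩ Q = ∅ := by
      by_contra! h
      exact hx (h5 x (clusterPt_iff_nonempty.2 fun W w Q q => h W w Q q))
    refine ⟨_, image_mem_map (prod_mem_prod (mem_map.1 (((by fun_prop : Continuous fun u : G =>
      u⁻¹ * x).tendsto' 1 x (by simp)) w1)) q1), ?_⟩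
    rintro ⟨⟨u, q⟩, ⟨a1, a2⟩, rfl⟩
    exact h.le ⟨by simpa using a1, a2⟩
  obtain ⟨σ, s1, s2⟩ := ofFilter (map (fun p : G × G => p.1 * p.2) (𝓝 1 ×ˢ P))
    ((pure_le_nhds _).trans n1) (by
      rw [prod_map_map_eq, tendsto_map'_iff]
      have a1 := (tendsto_fst (f := 𝓝 (1 : G)) (g := P)).comp
        (tendsto_fst (g := 𝓝 (1 : G) ×ˢ P))
      have a2 := (tendsto_snd (f := 𝓝 (1 : G)) (g := P)).comp
        (tendsto_fst (g := 𝓝 (1 : G) ×ˢ P))
      have a3 := (tendsto_fst (f := 𝓝 (1 : G)) (g := P)).comp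
        (tendsto_snd (f := 𝓝 (1 : G) ×ˢ P))
      have a4 := (tendsto_snd (f := 𝓝 (1 : G)) (g := P)).comp
        (tendsto_snd (f := 𝓝 (1 : G) ×ˢ P))
      have a5 := a1.mul a3
      rw [mul_one] at a5
      refine (tendsto_map.comp (a5.prodMk (m1.comp
        ((h4.comp ((i2.comp a3).prodMk a2)).prodMk a4)))).congr fun p => ?_
      simp [mul_assoc]) (by
      rw [tendsto_map'_iff]
      refine (tendsto_map.comp ((i2.comp tendsto_fst).prodMk
        (h4.comp (tendsto_fst.prodMk (i1.comp tendsto_snd))))).congr fun p => ?_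
      simp [mul_assoc]) fun g => by
      rw [tendsto_map'_iff]
      refine (tendsto_map.comp ((((by fun_prop : Continuous fun x : G => g * x * g⁻¹).tendsto' 1 1
        (by simp)).comp tendsto_fst).prodMk ((h3 g).comp tendsto_snd))).congr fun p => ?_
      simp [mul_assoc]
  obtain rfl := hU σ s1 (@IsTopologicalGroup.t2Space_of_one_sep G σ _ s1 (s2 ▸ sep))
    (continuous_id_iff_le.1 (@continuous_of_tendsto_nhds_one G τ _ _ G (G →* G) _ σ
      s1.toContinuousMul _ _ (MonoidHom.id G) (s2 ▸ n1))) (s2 ▸ h6)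
  exact s2 ▸ n2

lemma mn_cen {U : Set G} (hU : LM U) {A : Type} [AddCommGroup A] [TopologicalSpace A] (f : A → G)
    (hf : IsClosedEmbedding f) (f0 : f 0 = 1) (fs : ∀ x y, f (x - y) = f x * (f y)⁻¹)
    (e : ∀ g x, g * f x * g⁻¹ = f x) {W : Set A} (h : ∃ V ∈ 𝓝 (1 : G), ∀ v ∈ V, ∀ x ∈ W, v * f x ∈ U)
    (P : Filter A) (h1 : pure 0 ≤ P) (h2 : Tendsto (fun p : A × A => p.1 - p.2) (P ×ˢ P) P)
    (h3 : ∀ g, ClusterPt g P → g = 0) (h4 : W ∈ P) : P ≤ 𝓝 0 := by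
  rw [hf.isInducing.nhds_eq_comap, f0]
  refine map_le_iff_le_comap.1 (lm_le hU _ (f0 ▸ map_mono (m := f) h1) ?_ (fun g => ?_) ?_
    (fun g hg => ?_) ?_)
  · rw [prod_map_map_eq, tendsto_map'_iff]
    exact (tendsto_map.comp h2).congr fun p => fs _ _
  · rw [tendsto_map'_iff]
    exact tendsto_map.congr fun x => (e g _).symm
  · refine tendsto_snd.congr' (Eventually.prod_inr (p := fun x => ∀ g : G, x = g * x * g⁻¹)
      (eventually_map.2 (Eventually.of_forall fun x g => (e g _).symm)) _ |>.mono fun p hp => hp _)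
  · obtain ⟨x, rfl⟩ := hf.isClosed_range.closure_subset (mem_closure_iff_clusterPt.2
      (hg.mono (le_principal_iff.2 range_mem_map)))
    rw [h3 x (hf.isInducing.mapClusterPt_iff.1 hg), f0]
  · obtain ⟨V, v1, v2⟩ := h
    refine mem_map.2 (mem_of_superset (prod_mem_prod v1 (image_mem_map h4)) ?_)
    rintro ⟨v, _⟩ ⟨h, x, hx, rfl⟩
    exact v2 v h x hx

lemma metr [T2Space G] (h : (𝓝 (1 : G)).IsCountablyGenerated) :
    TopologicalSpace.MetrizableSpace G := by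
  letI := IsTopologicalGroup.rightUniformSpace G
  haveI : (uniformity G).IsCountablyGenerated := comap.isCountablyGenerated _ _
  exact UniformSpace.metrizableSpace

end

theorem locA {A : Type} [AddCommGroup A] [TopologicalSpace A] [IsTopologicalAddGroup A] [T2Space A]
    {κ : Cardinal} (hκ : ℵ₀ ≤ κ) {W : Set A} (w1 : W ∈ 𝓝 0)
    (hL : ∀ P : Filter A, pure 0 ≤ P → Tendsto (fun p : A × A => p.1 - p.2) (P ×ˢ P) P →
      (∀ g, ClusterPt g P → g = 0) → W ∈ P → P ≤ 𝓝 0) (ht : Tt κ A) :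
    ∃ 𝓑 : Set (Set A), (𝓝 (0 : A)).HasBasis (fun s => s ∈ 𝓑) id ∧ #𝓑 ≤ κ := by
  obtain ⟨N, n1, n2, n3⟩ := gd hκ (𝒰 := {W})
    (by simpa using one_le_aleph0.trans hκ) (by simpa using w1)
  have hN : Mn N := by
    intro P h1 h2 h3
    rw [nhds_subtype]
    refine map_le_iff_le_comap.1 (hL _ (map_mono (m := Subtype.val) h1) ?_ (fun g hg => ?_)
      (mem_map.2 (univ_mem' fun x => n2 _ x.2 W rfl)))
    · rw [prod_map_map_eq, tendsto_map'_iff]
      exact tendsto_map.comp h2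
    · have hg' : g ∈ N := n1.closure_subset (mem_closure_iff_clusterPt.2
        (hg.mono (le_principal_iff.2 (mem_map.2 (univ_mem' fun x => x.2)))))
      exact congrArg Subtype.val (h3 ⟨g, hg'⟩
        (Topology.IsInducing.subtypeVal.mapClusterPt_iff.1 hg))
  obtain ⟨𝒰, a1, a2, a3⟩ := n3 (ps_sub N (main hκ hN (tt_ind .subtypeVal ht)))
  choose V v0 v1 v2 using fun Y : ↥(insert W 𝒰) => chain (U := Y.1)
    (Y.2.elim (fun h => h.symm ▸ w1) (a2 _))
  let P : Filter A := ⨅ q : ↥(insert W 𝒰) × ℕ, 𝓟 (V q.1 q.2)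
  have p1 : 𝓝 0 ≤ P := le_iInf fun q => le_principal_iff.2 (v1 _ _)
  have p2 (Y n) : V Y n ∈ P := mem_iInf_of_mem (Y, n) (mem_principal_self _)
  have e := le_antisymm p1 (hL P ((pure_le_nhds _).trans p1)
    (tendsto_iInf.2 fun q => tendsto_principal.2 (mem_of_superset
      (prod_mem_prod (p2 q.1 (q.2 + 1)) (p2 q.1 (q.2 + 1))) fun p hp => (v2 _ _).2 _ hp.1 _ hp.2))
    (fun g hg => a3 g trivial fun Y hY => ?_) (mem_of_superset (p2 ⟨W, Or.inl rfl⟩ 0) (v0 _).le))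
  · haveI : Nonempty ↥(insert W 𝒰) := ⟨⟨W, Or.inl rfl⟩⟩
    refine ⟨range fun t : Finset (↥(insert W 𝒰) × ℕ) => ⋂ q ∈ t, V q.1 q.2, ?_,
      mk_range_le.trans ?_⟩
    · rw [e]
      refine (hasBasis_iInf_principal_finite _).to_hasBasis
        (fun t ht => ⟨_, ⟨ht.toFinset, rfl⟩, by simp⟩) ?_
      rintro _ ⟨t, rfl⟩
      exact ⟨t, t.finite_toSet, by simp⟩
    · rw [mk_finset_of_infinite]
      simpa using (mul_le_mul' (mk_insert_le.trans (add_le_of_le hκ a1 (one_le_aleph0.trans hκ)))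
        hκ).trans (mul_eq_self hκ).le
  · obtain ⟨y, h3, h4⟩ := clusterPt_iff_nonempty.1 hg (((continuous_sub_right g).tendsto' g 0
      (sub_self g)) (v1 ⟨Y, Or.inr hY⟩ 1)) (p2 ⟨Y, Or.inr hY⟩ 1)
    simpa [v0] using (v2 ⟨Y, Or.inr hY⟩ 0).2 _ h4 _ h3

theorem loc {G : Type} [CommGroup G] [TopologicalSpace G] [IsTopologicalGroup G] [h2 : T2Space G]
    {κ : Cardinal} (hκ : ℵ₀ ≤ κ) {U : Set G} (u1 : U ∈ 𝓝 1) (hU : LM U) (ht : Tt κ G) :
    ∃ 𝓑 : Set (Set G), (𝓝 (1 : G)).HasBasis (fun s => s ∈ 𝓑) id ∧ #𝓑 ≤ κ := by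
  obtain ⟨W, w1, w2⟩ := exists_nhds_one_split u1
  haveI : T2Space (Additive G) := h2
  exact locA (A := Additive G) hκ w1 (mn_cen hU (A := Additive G) Additive.toMul
    (IsClosedEmbedding.id (X := G)) rfl (fun x y => div_eq_mul_inv _ _) (by simp) ⟨W, w1, w2⟩) ht

end Pool.Agent.Lib.helper23.MinB
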