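import Mathlib

set_option autoImplicit false

namespace Pool.Agent.Lib.helper23.PT

open TensorProduct

universe u v

variable (X : Type u) (Y : Type v) [NormedAddCommGroup X] [NormedSpace ℝ X] [NormedAddCommGroup Y]
  [NormedSpace ℝ Y]

/-- The algebraic tensor product, to be given the projective norm. -/
def Proj : Type (max u v) := X ⊗[ℝ] Y

noncomputable instance : AddCommGroup (Proj X Y) := (inferInstance : AddCommGroup (X ⊗[ℝ] Y))

noncomputable instance : Module ℝ (Proj X Y) := (inferInstance : Module ℝ (X ⊗[ℝ] Y))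

variable {X Y}

/-- The costs of the representations of a tensor as a finite sum of elementary tensors. -/
def costs (z : X ⊗[ℝ] Y) : Set ℝ := {r | ∃ l : List (X × Y),
  z = (l.map fun p => p.1 ⊗ₜ[ℝ] p.2).sum ∧ r = (l.map fun p => ‖p.1‖ * ‖p.2‖).sum}

theorem costs_add {z w : X ⊗[ℝ] Y} {a b : ℝ} (ha : a ∈ costs z) (hb : b ∈ costs w) :
    a + b ∈ costs (z + w) := by
  obtain ⟨l, rfl, rfl⟩ := ha
  obtain ⟨m, rfl, rfl⟩ := hb
  exact ⟨l ++ m, by simp, by simp⟩

theorem costs_smul {z : X ⊗[ℝ] Y} {a : ℝ} (c : ℝ) (ha : a ∈ costs z) : |c| * a ∈ costs (c • z) := by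
  obtain ⟨l, rfl, rfl⟩ := ha
  refine ⟨l.map fun p => (c • p.1, p.2), ?_, ?_⟩
  · simp [List.smul_sum, Function.comp_def, smul_tmul']
  · simp [← List.sum_map_mul_left, Function.comp_def, norm_smul, mul_assoc]

theorem costs_nonempty (z : X ⊗[ℝ] Y) : (costs z).Nonempty :=
  z.induction_on ⟨0, [], rfl, rfl⟩ (fun x y => ⟨_, [(x, y)], by simp, rfl⟩)
    fun _ _ ⟨_, ha⟩ ⟨_, hb⟩ => ⟨_, costs_add ha hb⟩

theorem costs_bdd (z : X ⊗[ℝ] Y) : 0 ∈ lowerBounds (costs z) := by
  rintro _ ⟨l, -, rfl⟩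
  exact List.sum_nonneg (by simp only [List.forall_mem_map]; intros; positivity)

theorem sInf_smul (c : ℝ) (z : X ⊗[ℝ] Y) : sInf (costs (c • z)) ≤ |c| * sInf (costs z) := by
  rcases eq_or_ne c 0 with rfl | hc
  · simpa using csInf_le ⟨0, costs_bdd _⟩ (⟨[], rfl, rfl⟩ : 0 ∈ costs (0 : X ⊗[ℝ] Y))
  · rw [← inv_mul_le_iff₀ (abs_pos.2 hc)]
    exact le_csInf (costs_nonempty z) fun a ha =>
      (inv_mul_le_iff₀ (abs_pos.2 hc)).2 (csInf_le ⟨0, costs_bdd _⟩ (costs_smul c ha))

theorem sInf_neg (z : X ⊗[ℝ] Y) : sInf (costs (-z)) = sInf (costs z) :=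
  le_antisymm (by simpa using sInf_smul (-1) z) (by simpa using sInf_smul (-1) (-z))

/-- The projective norm: the infimum of the costs. -/
noncomputable instance : SeminormedAddCommGroup (Proj X Y) :=
  AddGroupSeminorm.toSeminormedAddCommGroup
    { toFun := fun z => sInf (costs z)
      map_zero' := le_antisymm (csInf_le ⟨0, costs_bdd _⟩ ⟨[], rfl, rfl⟩)
        (le_csInf (costs_nonempty _) (costs_bdd _))
      add_le' := fun z w => sub_le_iff_le_add.1 (le_csInf (costs_nonempty z) fun _ ha =>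
        sub_le_comm.1 (le_csInf (costs_nonempty w) fun _ hb =>
          sub_le_iff_le_add'.2 (csInf_le ⟨0, costs_bdd _⟩ (costs_add ha hb))))
      neg' := sInf_neg }

noncomputable instance : NormedSpace ℝ (Proj X Y) where
  norm_smul_le := sInf_smul

variable (X Y) in
/-- The completed projective tensor product. -/
abbrev CProj : Type (max u v) := UniformSpace.Completion (Proj X Y)

end Pool.Agent.Lib.helper23.PT
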