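import Mathlib
import Pool.Agent.Lib.helper23.LipDef
import Pool.Agent.Lib.helper23.PTDef

set_option autoImplicit false

universe u v

namespace Pool.Agent.Lib.helper23.LF

variable {M : Type u} [MetricSpace M] {o : M}

theorem norm_le (f : Lip0 o) {C : ℝ} (hC : 0 ≤ C) (h : ∀ x y, |f.1 x - f.1 y| ≤ C * dist x y) :
    ‖f‖ ≤ C := csInf_le ⟨0, fun _ h => h.1⟩ ⟨hC, h⟩

theorem lip (f : Lip0 o) (x y : M) : |f.1 x - f.1 y| ≤ ‖f‖ * dist x y := (sInf_mem f.2.2).2 x y

variable (o) in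
/-- A point evaluation as an element of the free space. -/
noncomputable def del (x : M) : Free o :=
  ⟨delta o x, Submodule.le_topologicalClosure _ (Submodule.subset_span ⟨x, rfl⟩)⟩

theorem dense_del : Dense (Submodule.span ℝ (Set.range (del o)) : Set (Free o)) := by
  refine Subtype.dense_iff.2 ?_
  have : (Submodule.span ℝ (Set.range (del o))).map (Free o).subtype =
      Submodule.span ℝ (Set.range (delta o)) := by
    rw [Submodule.map_span, ← Set.range_comp]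
    rfl
  exact fun x hx => closure_mono (congrArg SetLike.coe this).ge hx

variable {F : Type v} [NormedAddCommGroup F] [NormedSpace ℝ F]

variable (o) in
/-- An abstract copy of the free space. -/
structure IsFree (d : M → F) (ev : F →ₗ[ℝ] StrongDual ℝ (Lip0 o)) : Prop where
  norm : ∀ x, ‖ev x‖ = ‖x‖
  app : ∀ a g, ev (d a) g = g.1 a
  dense : Dense (Submodule.span ℝ (Set.range d) : Set F)

theorem isFree : IsFree o (del o) (Free o).subtype := ⟨fun _ => rfl, fun _ _ => rfl, dense_del⟩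

namespace IsFree

variable {d : M → F} {ev : F →ₗ[ℝ] StrongDual ℝ (Lip0 o)} (h : IsFree o d ev)
include h

theorem le (x : F) (g : Lip0 o) : |ev x g| ≤ ‖x‖ * ‖g‖ := h.norm x ▸ (ev x).le_opNorm g

theorem base : d o = 0 := norm_le_zero_iff.1 (h.norm _ ▸
  ContinuousLinearMap.opNorm_le_bound _ le_rfl fun g => by simp [h.app, g.2.1])

theorem norm_sub (x y : M) : ‖d x - d y‖ ≤ dist x y := h.norm _ ▸
  ContinuousLinearMap.opNorm_le_bound _ dist_nonneg fun f => by
    rw [mul_comm, map_sub, ContinuousLinearMap.sub_apply, h.app, h.app]; exact lip f x y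

theorem bound (S : F →L[ℝ] ℝ) {C : ℝ} (hC : 0 ≤ C)
    (k : ∀ a b, |S (d a) - S (d b)| ≤ C * dist a b) (x : F) : |S x| ≤ C * ‖x‖ := by
  let g : Lip0 o := ⟨fun a => S (d a), by simp [h.base], C, hC, k⟩
  have e : S = LinearMap.mkContinuous ((ContinuousLinearMap.apply ℝ ℝ g).toLinearMap ∘ₗ ev) ‖g‖
      fun x => (h.le x g).trans (mul_comm _ _).le :=
    ContinuousLinearMap.ext_on h.dense (by rintro _ ⟨a, rfl⟩; exact (h.app a g).symm)
  rw [e, mul_comm]
  exact (h.le x g).trans (mul_le_mul_of_nonneg_left (norm_le g hC k) (norm_nonneg _))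

theorem exists_fin (x : F) {ε : ℝ} (hε : 0 < ε) : ∃ x' : F, ‖x - x'‖ < ε ∧
    ∃ N : Set M, N.Finite ∧ ∀ f g : Lip0 o, (∀ a ∈ N, f.1 a = g.1 a) → ev x' f = ev x' g := by
  obtain ⟨x', h1, h2⟩ := Metric.mem_closure_iff.1 (h.dense x) ε hε
  refine ⟨x', by rwa [← dist_eq_norm], ?_⟩
  clear h2
  induction h1 using Submodule.span_induction with
  | mem _ k =>
    obtain ⟨a, rfl⟩ := k
    exact ⟨{a}, Set.finite_singleton a, fun f g k => by rw [h.app, h.app, k a rfl]⟩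
  | zero => exact ⟨∅, Set.finite_empty, fun _ _ _ => by simp⟩
  | add a b _ _ h1 h2 =>
    obtain ⟨N, n1, n2⟩ := h1
    obtain ⟨K, k1, k2⟩ := h2
    exact ⟨N ∪ K, n1.union k1, fun f g h => by
      simp [n2 f g fun a ha => h a (Or.inl ha), k2 f g fun a ha => h a (Or.inr ha)]⟩
  | smul c a _ h =>
    obtain ⟨N, n1, n2⟩ := h
    exact ⟨N, n1, fun f g h => by simp [n2 f g h]⟩

end IsFree

end Pool.Agent.Lib.helper23.LF

namespace Pool.Agent.Lib.helper23.PT

open TensorProduct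

variable {X : Type u} {Y : Type v} [NormedAddCommGroup X] [NormedSpace ℝ X] [NormedAddCommGroup Y]
  [NormedSpace ℝ Y]

/-- The canonical map into the completion. -/
noncomputable def emb : X ⊗[ℝ] Y →ₗ[ℝ] CProj X Y :=
  (UniformSpace.Completion.toComplL : Proj X Y →L[ℝ] CProj X Y).toLinearMap

theorem norm_emb (z : X ⊗[ℝ] Y) : ‖emb z‖ = sInf (costs z) :=
  UniformSpace.Completion.norm_coe (E := Proj X Y) z

theorem norm_tm (x : X) (y : Y) : ‖emb (x ⊗ₜ[ℝ] y)‖ ≤ ‖x‖ * ‖y‖ := by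
  rw [norm_emb]
  exact csInf_le ⟨0, costs_bdd _⟩ ⟨[(x, y)], by simp, by simp⟩

theorem le_proj (L : X ⊗[ℝ] Y →ₗ[ℝ] ℝ) {C : ℝ} (hC : 0 < C)
    (h : ∀ x y, |L (x ⊗ₜ[ℝ] y)| ≤ C * (‖x‖ * ‖y‖)) (z : X ⊗[ℝ] Y) : |L z| ≤ C * ‖emb z‖ := by
  rw [norm_emb, ← inv_mul_le_iff₀ hC]
  refine le_csInf (costs_nonempty z) ?_
  rintro _ ⟨l, rfl, rfl⟩
  rw [inv_mul_le_iff₀ hC]
  induction l with
  | nil => simp
  | cons p l ih =>
    simp only [List.map_cons, List.sum_cons, map_add, mul_add]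
    exact (abs_add_le _ _).trans (add_le_add (h _ _) ih)

theorem bound (Ψ : StrongDual ℝ (CProj X Y)) {C : ℝ} (hC : 0 < C)
    (h : ∀ x y, |Ψ (emb (x ⊗ₜ[ℝ] y))| ≤ C * (‖x‖ * ‖y‖)) (w : CProj X Y) : |Ψ w| ≤ C * ‖w‖ :=
  UniformSpace.Completion.induction_on w
    (isClosed_le Ψ.continuous.abs (continuous_const.mul continuous_norm))
    fun z => le_proj (Ψ.toLinearMap ∘ₗ emb) hC h z

end Pool.Agent.Lib.helper23.PT
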