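import Mathlib
import Pool.Agent.Lib.helper23.MinB

set_option autoImplicit false

namespace Pool.Agent.Lib.helper23.MinC

open Set Filter Topology Function Pool.Agent.Lib.helper23.Dual Pool.Agent.Lib.helper23.PW
  Pool.Agent.Lib.helper23.MinA Pool.Agent.Lib.helper23.MinB
open scoped IsMulCommutative

lemma nss {t : T} (h : ∀ n : ℕ, ‖n • t‖ ≤ 1 / 4) : t = 0 := by
  obtain ⟨k, hk⟩ := CR (I := Empty) (fun _ => 0) (zmultiplesHom T t) univ_mem fun n _ => by
    rcases n.eq_nat_or_neg with ⟨n, rfl | rfl⟩ <;> simpa using h n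
  simpa [Subsingleton.elim k 0] using hk 1

def PreM (G : Type) [Group G] [TopologicalSpace G] : Prop :=
  ∀ U ∈ 𝓝 (1 : G), ∃ F : Set G, F.Finite ∧ ∀ x, ∃ g ∈ F, g⁻¹ * x ∈ U

def PsM (G : Type) [Group G] [TopologicalSpace G] : Prop :=
  ∃ U : ℕ → Set G, (∀ n, U n ∈ 𝓝 1) ∧ ∀ x, (∀ n, x ∈ U n) → x = 1

def Sep (G : Type) [Group G] [TopologicalSpace G] : Prop :=
  ∃ (I : Type) (_ : Countable I) (χ : I → G → T), (∀ i, Continuous (χ i)) ∧
    (∀ i x y, χ i (x * y) = χ i x + χ i y) ∧ ∀ x, (∀ i, χ i x = 0) → x = 1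

variable {G : Type} [Group G] [TopologicalSpace G] [IsTopologicalGroup G]

lemma tri {V : Set G} (hV : V ∈ 𝓝 1) :
    ∃ W ∈ 𝓝 (1 : G), ∀ x ∈ W, ∀ y ∈ W, ∀ z ∈ W, x⁻¹ * y * z ∈ V := by
  obtain ⟨W, w1, w2⟩ := exists_nhds_one_split4 hV
  exact ⟨W ∩ W⁻¹, inter_mem w1 (inv_mem_nhds_one G w1), fun x hx y hy z hz => by
    simpa using w2 hx.2 hy.1 hz.1 (mem_of_mem_nhds w1)⟩

lemma preM_sub (h : PreM G) (H : Subgroup G) : PreM H := by
  intro U hU
  obtain ⟨V, v1, v2⟩ := (mem_nhds_subtype _ _ _).1 hU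
  obtain ⟨W, w1, w2⟩ := tri v1
  obtain ⟨E, e1, e2⟩ := h W w1
  have this (e : G) : ∃ z : H, ∀ x : H, e⁻¹ * x.1 ∈ W → e⁻¹ * z.1 ∈ W := by
    by_cases h : ∃ x : H, e⁻¹ * x.1 ∈ W
    · exact h.imp fun z hz _ _ => hz
    · exact ⟨1, fun x hx => absurd ⟨x, hx⟩ h⟩
  choose z hz using this
  refine ⟨z '' E, e1.image _, fun x => ?_⟩
  obtain ⟨e, he, hx⟩ := e2 x
  exact ⟨_, ⟨e, he, rfl⟩, v2 (by
    simpa [mul_assoc] using w2 _ (hz e x hx) _ hx _ (mem_of_mem_nhds w1))⟩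

omit [IsTopologicalGroup G] in
lemma preM_quot (h : PreM G) (N : Subgroup G) [N.Normal] : PreM (G ⧸ N) := by
  intro U hU
  obtain ⟨E, e1, e2⟩ := h _ (QuotientGroup.continuous_mk.tendsto 1 hU)
  refine ⟨_, e1.image QuotientGroup.mk, fun x => ?_⟩
  obtain ⟨x, rfl⟩ := QuotientGroup.mk_surjective x
  obtain ⟨e, he, hx⟩ := e2 x
  exact ⟨_, ⟨e, he, rfl⟩, hx⟩

omit [IsTopologicalGroup G] in
lemma preM_add [IsMulCommutative G] (h : PreM G) : Pre (Additive G) := fun U hU =>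
  (h U hU).imp fun _ hF => ⟨hF.1, fun x => (hF.2 x).imp fun _ hg =>
    ⟨hg.1, by rw [sub_eq_neg_add]; exact hg.2⟩⟩

omit [TopologicalSpace G] [IsTopologicalGroup G] in
lemma hom1 {χ : G → T} (h : ∀ x y, χ (x * y) = χ x + χ y) : χ 1 = 0 := by simpa using h 1 1

omit [TopologicalSpace G] [IsTopologicalGroup G] in
lemma hom0 {χ : G → T} (h : ∀ x y, χ (x * y) = χ x + χ y) (h' : ∀ x, ‖χ x‖ ≤ 1 / 4) (x : G) :
    χ x = 0 := nss fun n => by
  have : n • χ x = χ (x ^ n) := by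
    induction n with
    | zero => simp [hom1 h]
    | succ n ih => rw [succ_nsmul, ih, pow_succ, h]
  exact this ▸ h' _

omit [IsTopologicalGroup G] in
lemma bil (hG : PreM G) {X : Type} (l : Filter X) (β : X → G → T)
    (h0 : ∀ u x y, β u (x * y) = β u x + β u y)
    (h1 : Tendsto (fun p : X × G => β p.1 p.2) (l ×ˢ 𝓝 1) (𝓝 0))
    (h2 : ∀ f, Tendsto (fun u => β u f) l (𝓝 0)) : ∀ᶠ u in l, ∀ z, β u z = 0 := by
  have : {t : T | ‖t‖ ≤ 1 / 8} ∈ 𝓝 0 :=
    (continuous_norm.tendsto 0).eventually (ge_mem_nhds (by simp))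
  obtain ⟨L, l1, V, v1, h⟩ := mem_prod_iff.1 (h1 this)
  obtain ⟨F, f1, f2⟩ := hG V v1
  filter_upwards [l1, (eventually_all_finite f1).2 fun f _ => h2 f this] with u u1 u2
  refine hom0 (h0 u) fun z => ?_
  obtain ⟨f, hf, hz⟩ := f2 z
  have a1 : ‖β u (f⁻¹ * z)‖ ≤ 1 / 8 := h (mk_mem_prod u1 hz)
  have a2 : ‖β u f‖ ≤ 1 / 8 := u2 f hf
  rw [← mul_inv_cancel_left f z, h0]
  linarith [norm_add_le (β u f) (β u (f⁻¹ * z))]

omit [IsTopologicalGroup G] in
lemma sepr {I : Type} [Countable I] (χ : I → G → T) (h1 : ∀ i, Continuous (χ i))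
    (h2 : ∀ i x y, χ i (x * y) = χ i x + χ i y) :
    ∃ U : ℕ → Set G, (∀ n, U n ∈ 𝓝 1) ∧ ∀ x, (∀ n, x ∈ U n) → ∀ i, χ i x = 0 := by
  obtain ⟨s, hs⟩ := (comap (fun x i => χ i x) (𝓝 0)).exists_antitone_basis
  refine ⟨s, fun n => ((continuous_pi h1).tendsto' 1 0 (funext fun i => hom1 (h2 i))).le_comap
    (hs.mem n), fun x hx => congrFun (pure_le_nhds_iff.1 fun U hU => ?_)⟩
  obtain ⟨n, hn⟩ := hs.mem_iff.1 (preimage_mem_comap hU)
  exact hn (hx n)

omit [IsTopologicalGroup G] in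
lemma sep_psm (h : Sep G) : PsM G := by
  obtain ⟨I, _, χ, h1, h2, h3⟩ := h
  exact (sepr χ h1 h2).imp fun U hU => ⟨hU.1, fun x hx => h3 x (hU.2 x hx)⟩

omit [IsTopologicalGroup G] in
lemma psm_ext (N : Subgroup G) [N.Normal] (h1 : PsM (G ⧸ N)) (h2 : PsM N) : PsM G := by
  obtain ⟨U, u1, u2⟩ := h1
  obtain ⟨V, v1, v2⟩ := h2
  choose W w1 w2 using fun n => (mem_nhds_subtype _ _ _).1 (v1 n)
  exact ⟨fun n => QuotientGroup.mk ⁻¹' U n ∩ W n, fun n => inter_mem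
    (QuotientGroup.continuous_mk.tendsto 1 (u1 n)) (w1 n), fun x hx => congrArg Subtype.val
      (v2 ⟨x, (QuotientGroup.eq_one_iff x).1 (u2 _ fun n => (hx n).1)⟩ fun n => w2 n (hx n).2)⟩

lemma fc (hL : LM (univ : Set G)) (hP : PreM G) (h : PsM G) :
    (𝓝 (1 : G)).IsCountablyGenerated := by
  obtain ⟨U, u1, u2⟩ := h
  have st (V) (hV : V ∈ 𝓝 (1 : G)) : ∃ W ∈ 𝓝 (1 : G), (∀ x ∈ W, ∀ y ∈ W, x * y⁻¹ ∈ V) ∧
      ∀ g, ∀ x ∈ W, g * x * g⁻¹ ∈ V := by
    obtain ⟨W, w1, w2⟩ := tri hV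
    obtain ⟨F, f1, f2⟩ := hP W w1
    refine ⟨(W ∩ W⁻¹) ∩ {x | ∀ f ∈ F, f⁻¹ * x * f ∈ W}, inter_mem (inter_mem w1
      (inv_mem_nhds_one G w1)) ((eventually_all_finite f1).2 fun f _ => ((by fun_prop :
        Continuous fun x : G => f⁻¹ * x * f).tendsto' 1 1 (by simp)) w1), fun x hx y hy => by
        simpa using w2 _ hx.1.2 _ hy.1.2 _ (mem_of_mem_nhds w1), fun g x hx => ?_⟩
    obtain ⟨f, hf, hg⟩ := f2 g⁻¹
    simpa [mul_assoc] using w2 _ hg _ (hx.2 f hf) _ hg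
  choose! nx n1 n2 n3 using st
  let V : ℕ → Set G := fun n => Nat.rec univ (fun n W => nx (W ∩ U n)) n
  have v1 (n) : V n ∈ 𝓝 1 := by
    induction n with
    | zero => exact univ_mem
    | succ n ih => exact n1 _ (inter_mem ih (u1 n))
  let P : Filter G := ⨅ n, 𝓟 (V n)
  have p1 : 𝓝 1 ≤ P := le_iInf fun q => le_principal_iff.2 (v1 _)
  have p2 (n) : V n ∈ P := mem_iInf_of_mem n (mem_principal_self _)
  rw [le_antisymm p1 (lm_le hL P ((pure_le_nhds _).trans p1)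
    (tendsto_iInf.2 fun n => tendsto_principal.2 (mem_of_superset (prod_mem_prod (p2 (n + 1))
      (p2 (n + 1))) fun p hp => (n2 _ (inter_mem (v1 n) (u1 n)) _ hp.1 _ hp.2).1))
    (fun g => tendsto_iInf.2 fun n => tendsto_principal.2 (mem_of_superset (p2 (n + 1))
      fun p hp => (n3 _ (inter_mem (v1 n) (u1 n)) _ _ hp).1))
    (tendsto_iInf.2 fun n => tendsto_principal.2 (mem_of_superset (prod_mem_prod univ_mem
      (p2 (n + 1))) fun p hp => (n3 _ (inter_mem (v1 n) (u1 n)) _ _ hp.2).1))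
    (fun g hg => u2 g fun n => ?_) univ_mem)]
  · exact isCountablyGenerated_seq _
  · obtain ⟨y, h3, h4⟩ := clusterPt_iff_nonempty.1 hg (((by fun_prop : Continuous fun x : G =>
      g⁻¹ * x).tendsto' g 1 (by simp)) (v1 (n + 1))) (p2 (n + 1))
    simpa using (n2 _ (inter_mem (v1 n) (u1 n)) _ h4 _ h3).2

lemma cen_closed [T2Space G] : IsClosed (Subgroup.center G : Set G) := by
  rw [← Subgroup.centralizer_univ]
  exact Set.isClosed_centralizer _

def SepR (H K : Subgroup G) : Prop :=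
  ∃ (I : Type) (_ : Countable I) (χ : I → H → T), (∀ i, Continuous (χ i)) ∧
    (∀ i x y, χ i (x * y) = χ i x + χ i y) ∧ ∀ x, (∀ i, χ i x = 0) ↔ x.1 ∈ K

lemma sep_step (hP : PreM G) (n : ℕ)
    (h : SepR (Subgroup.upperCentralSeries G (n + 1)) (Subgroup.upperCentralSeries G n)) :
    SepR (Subgroup.upperCentralSeries G (n + 2)) (Subgroup.upperCentralSeries G (n + 1)) := by
  obtain ⟨I, _, χ, h1, h2, h3⟩ := h
  let c : G → Subgroup.upperCentralSeries G (n + 2) → Subgroup.upperCentralSeries G (n + 1) := fun u z =>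
    ⟨z * u * z⁻¹ * u⁻¹, Subgroup.mem_upperCentralSeries_succ_iff.1 z.2 u⟩
  have cc : Continuous fun p : G × Subgroup.upperCentralSeries G (n + 2) => c p.1 p.2 := by
    refine Continuous.subtype_mk ?_ _
    fun_prop
  have cj (i) (g : G) (x y : Subgroup.upperCentralSeries G (n + 1)) (e : x.1 = g * y * g⁻¹) :
      χ i x = χ i y := by
    have := (h3 (y * x⁻¹)).2 (by
      simpa [e, mul_assoc, commutatorElement_def] using Subgroup.mem_upperCentralSeries_succ_iff.1 y.2 g) i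
    rw [← inv_mul_cancel_right y x, h2, this, zero_add]
  have c1 (i u x y) : χ i (c u (x * y)) = χ i (c u x) + χ i (c u y) := by
    rw [add_comm (χ i _), ← cj i x (c u (x * y) * (c u x)⁻¹) (c u y) (by simp [c, mul_assoc]), ← h2,
      inv_mul_cancel_right]
  have c2 (i f u x) : χ i (c (f * u) x) = χ i (c f x) + χ i (c u x) := by
    rw [← cj i f ((c f x)⁻¹ * c (f * u) x) (c u x) (by simp [c, mul_assoc]), ← h2,
      mul_inv_cancel_left]
  have c3 (z) : c 1 z = 1 := Subtype.ext (by simp [c])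
  choose F f1 f2 using fun i => hP _ (bil (preM_sub hP _) (𝓝 1) (fun u z => χ i (c u z)) (c1 i)
    (by rw [← nhds_prod_eq]; exact ((h1 i).comp cc).tendsto' (1, 1) 0 (by simp [c3, hom1 (h2 i)]))
    fun f => ((h1 i).comp (cc.comp (Continuous.prodMk_left f))).tendsto' 1 0
      (by simp [c3, hom1 (h2 i)]))
  haveI : ∀ i, Countable (F i) := fun i => (f1 i).countable
  refine ⟨Σ i, F i, inferInstance, fun q z => χ q.1 (c q.2 z),
    fun q => (h1 _).comp (cc.comp (Continuous.prodMk_right _)), fun q => c1 _ _, fun z =>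
    ⟨fun h => Subgroup.mem_upperCentralSeries_succ_iff.2 fun u => (h3 (c u z)).1 fun i => ?_,
      fun h q => (h3 _).2 (Subgroup.mem_upperCentralSeries_succ_iff.1 h _) _⟩⟩
  obtain ⟨f, hf, hu⟩ := f2 i u
  rw [← mul_inv_cancel_left f u, c2, hu z, add_zero]
  exact h ⟨i, f, hf⟩

theorem nil [T2Space G] (hN : Group.IsNilpotent G) (hP : PreM G) (hL : LM (univ : Set G))
    (ht : Tt Cardinal.aleph0 G) : TopologicalSpace.MetrizableSpace G := by
  have h1 (n) : SepR (Subgroup.upperCentralSeries G (n + 1)) (Subgroup.upperCentralSeries G n) := by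
    induction n with
    | succ n ih => exact sep_step hP n ih
    | zero =>
      rw [zero_add, Subgroup.upperCentralSeries_one, Subgroup.upperCentralSeries_zero]
      haveI : T2Space (Additive (Subgroup.center G)) := inferInstanceAs (T2Space (Subgroup.center G))
      have a1 := preM_add (preM_sub hP (Subgroup.center G))
      have a2 := preD le_rfl a1 (fun P p1 p2 p3 => mn_cen hL (fun x => x.toMul.1)
        cen_closed.isClosedEmbedding_subtypeVal rfl (fun x y => by simp [div_eq_mul_inv])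
        (fun g x => by rw [Subgroup.mem_center_iff.1 x.toMul.2 g, mul_inv_cancel_right])
        ⟨univ, univ_mem, fun _ _ _ _ => trivial⟩ P p1 p2 p3 univ_mem)
        (tt_ind (f := fun x => x.toMul.1) .subtypeVal ht)
      exact ⟨_, Cardinal.mk_le_aleph0_iff.1 a2, fun i x => i.1 (.ofMul x), fun i => i.2,
        fun i x y => i.1.map_add _ _, fun x => ⟨fun h => congrArg Subtype.val (sepD a1 (.ofMul x) h),
          fun h i => by rw [show x = 1 from Subtype.ext h]; exact i.1.map_zero⟩⟩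
  have h2 (n) : ∃ U : ℕ → Set G, (∀ n, U n ∈ 𝓝 1) ∧
      ∀ x ∈ Subgroup.upperCentralSeries G n, (∀ n, x ∈ U n) → x = 1 := by
    induction n with
    | zero => exact ⟨fun _ => univ, fun _ => univ_mem, fun x hx _ => hx⟩
    | succ n ih =>
      obtain ⟨U, u1, u2⟩ := ih
      obtain ⟨I, _, χ, a1, a2, a3⟩ := h1 n
      obtain ⟨V, v1, v2⟩ := sepr χ a1 a2
      choose W w1 w2 using fun n => (mem_nhds_subtype _ _ _).1 (v1 n)
      exact ⟨fun n => U n ∩ W n, fun n => inter_mem (u1 n) (w1 n), fun x hx h =>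
        u2 x ((a3 ⟨x, hx⟩).1 (v2 _ fun n => w2 n (h n).2)) fun n => (h n).1⟩
  obtain ⟨n, hn⟩ := hN.nilpotent'
  exact metr (fc hL hP ((h2 n).imp fun U hU => ⟨hU.1, fun x => hU.2 x (hn ▸ trivial)⟩))

end Pool.Agent.Lib.helper23.MinC
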