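import Mathlib
import Pool.Agent.Lib.helper23.MinC

set_option autoImplicit false

namespace Pool.Agent.Lib.helper23.MinD

open Set Filter Topology Function Pool.Agent.Lib.helper23.Dual Pool.Agent.Lib.helper23.PW
  Pool.Agent.Lib.helper23.MinA Pool.Agent.Lib.helper23.MinB Pool.Agent.Lib.helper23.MinC
open scoped IsMulCommutative

theorem cof {D Γ : Type} [AddCommGroup D] [Uncountable D] (act : Γ → D →ₗ[ℤ] D)
    (h1 : ∀ x, ∃ k, act k x = x) (h2 : ∀ g h x, ∃ k, act k x = act g (act h x))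
    (h3 : ∀ x, (range fun g => act g x).Finite) :
    ∃ E : ℕ → Submodule ℤ D, Monotone E ∧ (∀ n, E n ≠ ⊤ ∧ ∀ g, E n ≤ (E n).comap (act g)) ∧
      ∀ x, ∃ n, x ∈ E n := by
  let C : D → Submodule ℤ D := fun x => Submodule.span ℤ (range fun g => act g x)
  have c1 (x) : x ∈ C x := Submodule.subset_span (h1 x)
  have c2 (x g) : C x ≤ (C x).comap (act g) := Submodule.span_le.2 (range_subset_iff.2 fun h =>
    Submodule.subset_span (h2 g h x))
  have c3 (X Y : Submodule ℤ D) (g) (a : X ≤ X.comap (act g)) (b : Y ≤ Y.comap (act g)) :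
      X ⊔ Y ≤ (X ⊔ Y).comap (act g) := sup_le (a.trans (Submodule.comap_mono le_sup_left))
        (b.trans (Submodule.comap_mono le_sup_right))
  have (Y : Submodule ℤ D) (hY : Y.FG) : ∃ y, y ∉ Y := by
    by_contra! h
    haveI : Module.Finite ℤ D := ⟨(eq_top_iff.2 fun x _ => h x : Y = ⊤) ▸ hY⟩
    exact not_countable (Finsupp.Countable.of_moduleFinite (R := ℤ) (M := D))
  choose! nx hnx using this
  let Y : ℕ → Submodule ℤ D := fun n => Nat.rec ⊥ (fun _ Y => Y ⊔ C (nx Y)) n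
  have y1 (n) : (Y n).FG ∧ ∀ g, Y n ≤ (Y n).comap (act g) := by
    induction n with
    | zero => exact ⟨Submodule.fg_bot, fun _ => bot_le⟩
    | succ n ih => exact ⟨ih.1.sup (Submodule.fg_span (h3 _)), fun g => c3 _ _ g (ih.2 g) (c2 _ g)⟩
  obtain ⟨E, e1, e2⟩ := zorn_le_nonempty₀ {E : ℕ → Submodule ℤ D | Monotone E ∧
    ∀ n, nx (Y n) ∉ E n ∧ ∀ g, E n ≤ (E n).comap (act g)} (fun c hc hc' y hy => by
      haveI : Nonempty c := ⟨⟨y, hy⟩⟩
      refine ⟨fun n => ⨆ E : c, E.1 n, ⟨fun m n h => iSup_mono fun E => (hc E.2).1 h,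
        fun n => ⟨fun h => ?_, fun g => iSup_le fun E => (((hc E.2).2 n).2 g).trans
          (Submodule.comap_mono (le_iSup (fun E : c => E.1 n) E))⟩⟩,
        fun E hE n => le_iSup (fun E : c => E.1 n) ⟨E, hE⟩⟩
      obtain ⟨E, hE⟩ := (Submodule.mem_iSup_of_directed _
        (fun a b => (hc'.directedOn.directed_val a b).imp fun _ h => ⟨h.1 n, h.2 n⟩)).1 h
      exact ((hc E.2).2 n).1 hE) Y
    ⟨monotone_nat_of_le_succ fun _ => le_sup_left, fun n => ⟨hnx _ (y1 n).1, (y1 n).2⟩⟩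
  refine ⟨E, e2.1.1, fun n => ⟨fun h => (e2.1.2 n).1 (h ▸ trivial), (e2.1.2 n).2⟩, fun x => ?_⟩
  haveI : IsNoetherian ℤ (C x) := isNoetherian_span_of_finite ℤ (h3 x)
  obtain ⟨m, hm⟩ := monotone_stabilizes_iff_noetherian.2 this
    ⟨fun n => (E n).comap (C x).subtype, fun _ _ h => Submodule.comap_mono (e2.1.1 h)⟩
  refine ⟨m, e2.2 (y := fun n => E n ⊔ if m ≤ n then C x else ⊥) ⟨fun a b h => sup_le_sup
    (e2.1.1 h) ?_, fun n => ⟨fun h => (e2.1.2 n).1 ?_, fun g => c3 _ _ g ((e2.1.2 n).2 g) ?_⟩⟩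
      (fun n => le_sup_left) m (Submodule.mem_sup_right (by simpa using c1 x))⟩
  · split_ifs with a1 a2 <;> simp
    exact (a2 (a1.trans h)).elim
  · dsimp only at h
    split_ifs at h with a1
    · obtain ⟨e, he, z, hz, k⟩ := Submodule.mem_sup.1 h
      have : (⟨z, hz⟩ : C x) ∈ (E (n + 1)).comap (C x).subtype := (add_mem_cancel_left
        (e2.1.1 n.le_succ he)).1 (k ▸ e1 (n + 1) (Submodule.mem_sup_right (c1 _)))
      exact k ▸ add_mem he (((hm n a1).symm.trans (hm _ (a1.trans n.le_succ))).ge this)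
    · simpa using h
  · split_ifs
    exacts [c2 x g, bot_le]

variable {G : Type} [Group G] [TopologicalSpace G] [IsTopologicalGroup G] (B : Subgroup G)
  [B.Normal] [IsMulCommutative B]

noncomputable def cj (g : G) : Additive B →+ Additive B :=
  MonoidHom.toAdditive (MulAut.conjNormal g).toMonoidHom

omit [TopologicalSpace G] [IsTopologicalGroup G] [IsMulCommutative B] in
@[simp] lemma cj_val (g : G) (a : Additive B) : (cj B g a).toMul.1 = g * a.toMul.1 * g⁻¹ := rfl

omit [IsMulCommutative B] in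
lemma cj_cont : Continuous fun p : G × Additive B => cj B p.1 p.2 :=
  continuous_induced_rng.2 (show Continuous fun p : G × B => p.1 * p.2.1 * p.1⁻¹ by fun_prop)

noncomputable def act (g : G) : DD (Additive B) →ₗ[ℤ] DD (Additive B) :=
  AddMonoidHom.toIntLinearMap (AddMonoidHom.mk' (fun χ => ⟨χ.1.comp (cj B g),
    Continuous.comp (g := χ.1) χ.2 ((cj_cont B).comp (Continuous.prodMk_right g))⟩) fun _ _ => rfl)

lemma act_mul (g h : G) (χ : DD (Additive B)) : act B (h * g) χ = act B g (act B h χ) :=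
  Subtype.ext (AddMonoidHom.ext fun a => congrArg χ.1 (Subtype.ext
    (show h * g * a.toMul.1 * (h * g)⁻¹ = h * (g * a.toMul.1 * g⁻¹) * h⁻¹ by group)))

lemma act_one (χ : DD (Additive B)) : act B 1 χ = χ :=
  Subtype.ext (AddMonoidHom.ext fun a => congrArg χ.1 (Subtype.ext
    (show 1 * a.toMul.1 * 1⁻¹ = a.toMul.1 by group)))

lemma stab (hP : PreM G) (χ : DD (Additive B)) : ∀ᶠ u in 𝓝 (1 : G), act B u χ = χ := by
  have c : Continuous fun p : G × B => χ.1 (cj B p.1 p.2) - χ.1 p.2 :=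
    (Continuous.comp χ.2 (cj_cont B)).sub (Continuous.comp χ.2 continuous_snd)
  have e (z : B) : χ.1 (cj B 1 z) - χ.1 z = 0 := sub_eq_zero.2 (DFunLike.congr_fun
    (congrArg Subtype.val (act_one B χ)) z)
  filter_upwards [bil (preM_sub hP B) (𝓝 1) (fun u z => χ.1 (cj B u z) - χ.1 z)
    (fun u x y => by
      rw [sub_add_sub_comm, ← map_add, ← map_add, ← map_add]; rfl)
    (by rw [← nhds_prod_eq]; exact c.tendsto' (1, 1) 0 (e 1))
    fun f => (c.comp (Continuous.prodMk_left f)).tendsto' 1 0 (e f)] with u hu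
  exact Subtype.ext (AddMonoidHom.ext fun a => sub_eq_zero.1 (hu a))

lemma orb (hP : PreM G) (χ : DD (Additive B)) : (range fun g => act B g χ).Finite := by
  obtain ⟨F, f1, f2⟩ := hP _ (inv_mem_nhds_one G (stab B hP χ))
  refine (f1.image fun f => act B f⁻¹ χ).subset (range_subset_iff.2 fun g => ?_)
  obtain ⟨f, hf, (hg : act B _ χ = χ)⟩ := f2 g⁻¹
  exact ⟨f, hf, (congrArg (act B f⁻¹) hg).symm.trans ((act_mul ..).symm.trans (by simp))⟩

theorem inv_le (hL : LM (univ : Set G)) (hP : PreM G) (hB : IsClosed (B : Set G))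
    (E : Set (DD (Additive B))) (h1 : ∀ g, ∀ χ ∈ E, act B g χ ∈ E)
    (h2 : ∀ a, (∀ χ ∈ E, χ.1 a = 0) → a = 0) :
    comap (fun a (i : E) => i.1.1 a) (𝓝 0) ≤ 𝓝 (0 : Additive B) := by
  have q (i : E) : Tendsto i.1.1 (comap (fun a (i : E) => i.1.1 a) (𝓝 0)) (𝓝 0) :=
    tendsto_pi_nhds.1 (tendsto_comap (f := fun a (i : E) => i.1.1 a)) i
  refine (map_le_iff_le_comap.1 (lm_le hL (map (fun a : Additive B => a.toMul.1) _) ?_ ?_
    (fun g => ?_) ?_ (fun g hg => ?_) univ_mem)).trans (nhds_subtype (B : Set G) 1).ge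
  · refine map_mono (m := fun a : Additive B => a.toMul.1) (a := pure 0)
      (tendsto_iff_comap.1 (tendsto_pi_nhds.2 fun i => ?_))
    exact (tendsto_pure_nhds _ _).mono_right (by simp)
  · rw [prod_map_map_eq, tendsto_map'_iff]
    refine (tendsto_map.comp (tendsto_comap_iff.2 (tendsto_pi_nhds.2 fun i => ?_)) :
      Tendsto (_ ∘ fun p : Additive B × Additive B => p.1 - p.2) _ _).congr fun p =>
        congrArg Subtype.val (div_eq_mul_inv p.1.toMul p.2.toMul)
    simpa using ((q i).comp tendsto_fst).sub ((q i).comp tendsto_snd)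
  · rw [tendsto_map'_iff]
    refine tendsto_map.comp (f := cj B g) (tendsto_comap_iff.2 (tendsto_pi_nhds.2 fun i => ?_))
    exact q ⟨_, h1 g _ i.2⟩
  · rw [prod_map_right, tendsto_map'_iff]
    refine tendsto_map.comp (f := fun p : G × Additive B => cj B p.1 p.2)
      (tendsto_comap_iff.2 (tendsto_pi_nhds.2 fun i => ?_))
    exact ((q i).comp tendsto_snd).congr' (((stab B hP i).prod_inl _).mono fun p hp =>
      (DFunLike.congr_fun (congrArg Subtype.val hp) p.2).symm)
  · obtain ⟨x, rfl⟩ := (hB.isClosedEmbedding_subtypeVal).isClosed_range.closure_subset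
      (mem_closure_iff_clusterPt.2 (hg.mono (le_principal_iff.2 range_mem_map)))
    have := Topology.IsInducing.subtypeVal.mapClusterPt_iff.1 hg
    exact congrArg Subtype.val (h2 x fun χ hχ => eq_of_nhds_neBot
      (this.map χ.2.continuousAt (q ⟨χ, hχ⟩)))

omit [B.Normal] [IsMulCommutative B] in
lemma infP (hP : PreM G) (hB : (B : Set G).Infinite) {O : Set G} (hO : O ∈ 𝓝 1) :
    ((B : Set G) ∩ O).Infinite := fun h => by
  obtain ⟨F, f1, f2⟩ := preM_sub hP B _ (continuous_subtype_val.tendsto 1 hO)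
  refine hB (((f1.image Subtype.val).image2 (· * ·) h).subset fun x hx => ?_)
  obtain ⟨g, g1, g2⟩ := f2 ⟨x, hx⟩
  exact ⟨g, ⟨g, g1, rfl⟩, _, ⟨(g⁻¹ * (⟨x, hx⟩ : B)).2, g2⟩, by simp⟩

theorem seqB [T2Space G] (hL : LM (univ : Set G)) (hP : PreM G) (hB : IsClosed (B : Set G))
    (hi : (B : Set G).Infinite) :
    ∃ b : ℕ → G, Tendsto b atTop (𝓝 1) ∧ ∀ᶠ n in atTop, b n ≠ 1 := by
  haveI : T2Space (Additive B) := inferInstanceAs (T2Space B)
  have h0 := inv_le B hL hP hB univ (fun _ _ _ => trivial) fun a h =>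
    sepD (preM_add (preM_sub hP B)) a fun χ => h χ trivial
  suffices ∃ b : ℕ → Additive B, Tendsto b atTop (𝓝 0) ∧ ∀ᶠ n in atTop, b n ≠ 0 by
    obtain ⟨b, h1, h2⟩ := this
    exact ⟨_, (continuous_subtype_val.tendsto (1 : B)).comp h1,
      h2.mono fun n h e => h (Subtype.ext e)⟩
  by_cases h : Countable (DD (Additive B))
  · haveI : NeBot (𝓝[≠] (0 : Additive B)) := mem_closure_iff_nhdsWithin_neBot.1
      (mem_closure_iff_nhds.2 fun U hU => by
        obtain ⟨O, o1, o2⟩ := (mem_nhds_subtype (B : Set G) 1 U).1 hU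
        obtain ⟨x, ⟨x1, x2⟩, x3⟩ := (infP B hP hi o1).exists_notMem_finite (finite_singleton 1)
        exact ⟨Additive.ofMul ⟨x, x1⟩, o2 x2, fun e => x3 (congrArg Subtype.val e)⟩)
    haveI : (𝓝 (0 : Additive B)).IsCountablyGenerated := by
      rw [le_antisymm ((continuous_pi fun i : (univ : Set (DD (Additive B))) => i.1.2).tendsto' 0 0
        (funext fun i => map_zero _)).le_comap h0]
      infer_instance
    obtain ⟨b, hb⟩ := (𝓝[≠] (0 : Additive B)).exists_seq_tendsto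
    exact ⟨b, tendsto_nhdsWithin_iff.1 hb⟩
  · haveI := not_countable_iff.1 h
    obtain ⟨E, e1, e2, e3⟩ := cof (act B) (fun x => ⟨1, act_one B x⟩)
      (fun g h x => ⟨_, act_mul B g h x⟩) (orb B hP)
    have this (n) : ∃ a : Additive B, (∀ χ ∈ E n, χ.1 a = 0) ∧ a ≠ 0 := by
      by_contra! k
      exact (e2 n).1 (eq_top_iff.2 fun χ _ => crD (fun i : E n => i.1) χ
        (inv_le B hL hP hB (E n) (fun g _ h => (e2 n).2 g h) k (qnb χ)) (E n).toAddSubgroup
          fun i => i.2)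
    choose b b1 b2 using this
    refine ⟨b, (tendsto_comap_iff.2 (tendsto_pi_nhds.2 fun i => ?_)).mono_right h0,
      Eventually.of_forall b2⟩
    obtain ⟨m, hm⟩ := e3 i
    exact tendsto_const_nhds.congr' ((eventually_ge_atTop m).mono fun n hn =>
      (b1 n _ (e1 hn hm)).symm)

omit B in
lemma abN [T2Space G] (hP : PreM G) [Infinite G] (hs : IsSolvable G) : ∃ B : Subgroup G,
    B.Normal ∧ IsMulCommutative B ∧ IsClosed (B : Set G) ∧ (B : Set G).Infinite := by
  obtain ⟨n, h1, h2⟩ := Nat.exists_not_and_succ_of_not_zero_of_exists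
    (p := fun n => (derivedSeries G n : Set G).Finite) infinite_univ
    (hs.1.imp fun n h => by simp [h])
  obtain ⟨V, v1, v2⟩ := exists_nhds_split_inv (h2.diff (t := {1}).isClosed.isOpen_compl.mem_nhds
    (by simp : (1 : G) ∈ _))
  obtain ⟨W, w1, w2⟩ := tri v1
  obtain ⟨F, f1, f2⟩ := hP W w1
  let M := derivedSeries G n ⊓ Subgroup.centralizer (derivedSeries G n)
  refine ⟨M.topologicalClosure, M.is_normal_topologicalClosure, ⟨⟨(M.commGroupTopologicalClosure
    fun x y => Subtype.ext (y.2.2 _ x.2.1)).mul_comm⟩⟩, M.isClosed_topologicalClosure,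
    (infP _ hP h1 (inter_mem v1 ((eventually_all_finite f1).2 fun f _ => ((by fun_prop :
      Continuous fun x : G => f⁻¹ * x * f).tendsto' 1 1 (by simp)).eventually w1))).mono
        fun x hx => M.le_topologicalClosure ⟨hx.1, fun g hg => ?_⟩⟩
  obtain ⟨f, hf, k⟩ := f2 g⁻¹
  by_contra e
  refine v2 _ (w2 _ k _ (hx.2.2 f hf) _ k) _ hx.2.1 ⟨?_, fun e' => e ?_⟩
  · simpa [commutatorElement_def, mul_assoc, div_eq_mul_inv] using
      Subgroup.commutator_mem_commutator hg hx.1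
  · simpa [mul_assoc, div_eq_one, ← mul_inv_eq_iff_eq_mul] using e'

end Pool.Agent.Lib.helper23.MinD
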