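import Mathlib

set_option autoImplicit false

namespace Pool.Agent.Lib.helper23.PWN

open Set Filter Topology MeasureTheory Function InnerProductSpace

variable {K : Type} [Group K] [TopologicalSpace K] [IsTopologicalGroup K] [CompactSpace K]
  [T2Space K]

lemma prob [MeasurableSpace K] [BorelSpace K] :
    IsProbabilityMeasure (Measure.haarMeasure (⊤ : TopologicalSpace.PositiveCompacts K)) :=
  ⟨Measure.haarMeasure_self⟩

lemma rep {E : Type} [NormedAddCommGroup E] [InnerProductSpace ℝ E] [CompleteSpace E]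
    (l : K → E →L[ℝ] E) (h0 : ∀ v, l 1 v = v) (ha : ∀ x y v, l (x * y) v = l x (l y v))
    (hs : ∀ x u v, inner ℝ (l x u) v = inner ℝ u (l x⁻¹ v)) (hc : ∀ v, Continuous fun x => l x v)
    {x₀ : K} {v : E} (hx : l x₀ v ≠ v) : ∃ F : Submodule ℝ E, F.FG ∧ (∀ x, ∀ u ∈ F, l x u ∈ F) ∧
      ∃ u ∈ F, l x₀⁻¹ u ≠ u := by
  borelize K
  let μ : Measure K := Measure.haarMeasure ⊤
  haveI : IsProbabilityMeasure μ := prob
  set w := l x₀ v - v with hw
  have c1 : Continuous fun x => rankOne ℝ (l x w) (l x w) :=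
    ((rankOne ℝ).continuous.comp (hc w)).clm_apply (hc w)
  have i1 := c1.integrable_of_hasCompactSupport (μ := μ) (HasCompactSupport.of_compactSpace _)
  let T := ∫ x, rankOne ℝ (l x w) (l x w) ∂μ
  have i2 (u) : Integrable (fun x => inner ℝ (l x w) u • l x w) μ := i1.apply_continuousLinearMap u
  have t0 (u) : T u = ∫ x, inner ℝ (l x w) u • l x w ∂μ := ContinuousLinearMap.integral_apply i1 u
  have t1 : IsCompactOperator T := Convex.integral_mem
    (compactOperator (RingHom.id ℝ) E E).convex isClosed_setOfPred_isCompactOperator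
    (Eventually.of_forall fun x => (isCompactOperator_of_locallyCompactSpace_dom
      (innerSL ℝ (l x w))).clm_comp (.toSpanSingleton ℝ (l x w))) i1
  have t2 (a b) : inner ℝ a (T b) = ∫ x, inner ℝ (l x w) b * inner ℝ (l x w) a ∂μ := by
    rw [t0, ← integral_inner (i2 b)]
    simp [inner_smul_right, real_inner_comm]
  have t3 : T.IsSymmetric := fun a b => by
    erw [real_inner_comm, t2, t2]
    simp [mul_comm]
  have t4 (y u) : T (l y u) = l y (T u) := by
    rw [t0, t0, ← (l y).integral_comp_comm (i2 u), ← integral_mul_left_eq_self _ y]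
    simp [ha, hs y, ← ha y⁻¹, h0]
  by_contra! h
  have t5 : T w ∈ (⨆ m, Module.End.eigenspace (T : Module.End ℝ E) m)ᗮ := by
    rw [← Submodule.iInf_orthogonal, Submodule.mem_iInf]
    intro m u hu
    erw [← t3, Module.End.mem_eigenspace_iff.1 hu, real_inner_smul_left]
    by_cases e : m = 0
    · simp [e]
    haveI := T.finite_dimensional_eigenspace t1 m e
    rw [real_inner_comm, hw, inner_sub_left, hs, h _ (Submodule.FG.of_finite) (fun x u hu => ?_) u hu]
    · simp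
    · rw [Module.End.mem_eigenspace_iff] at hu ⊢
      erw [t4, hu, map_smul]
  rw [T.orthogonalComplement_iSup_eigenspaces_eq_bot t1 t3, Submodule.mem_bot] at t5
  have c2 : Continuous fun x => inner ℝ (l x w) w := (hc w).inner continuous_const
  refine ((c2.mul c2).integral_pos_of_hasCompactSupport_nonneg_nonzero (μ := μ) (x := 1)
    (HasCompactSupport.of_compactSpace _) (fun _ => mul_self_nonneg _) ?_).ne' ?_
  · simpa [h0] using sub_ne_zero.2 hx
  · simpa [t5] using (t2 w w).symm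

noncomputable def tr (y w : K) : C(K, ℝ) →ₐ[ℝ] C(K, ℝ) :=
  ContinuousMap.compRightAlgHom ℝ ℝ ⟨fun z => y * z * w, by fun_prop⟩

omit [CompactSpace K] [T2Space K] in
@[simp] lemma tr_ap (y w z : K) (f : C(K, ℝ)) : tr y w f z = f (y * z * w) := rfl

def BI (V : Submodule ℝ C(K, ℝ)) : Prop := V.FG ∧ ∀ f ∈ V, ∀ y w, tr y w f ∈ V

lemma rep2 {E : Type} [NormedAddCommGroup E] [InnerProductSpace ℝ E] [CompleteSpace E]
    (l : K → E →L[ℝ] E) (h0 : ∀ v, l 1 v = v) (ha : ∀ x y v, l (x * y) v = l x (l y v))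
    (hn : ∀ x u v, inner ℝ (l x u) (l x v) = inner ℝ u v) (hc : ∀ v, Continuous fun x => l x v)
    {x₀ : K} {v : E} (hx : l x₀⁻¹ v ≠ v) :
    ∃ V : Submodule ℝ C(K, ℝ), BI V ∧ ∃ f ∈ V, f x₀ ≠ f 1 := by
  have hs (x u v) : inner ℝ (l x u) v = inner ℝ u (l x⁻¹ v) := by
    rw [← hn x u, ← ha, mul_inv_cancel, h0]
  obtain ⟨F, h1, h2, u, h3, h4⟩ := rep l h0 ha hs hc hx
  let B : E →ₗ[ℝ] E →ₗ[ℝ] C(K, ℝ) := LinearMap.mk₂ ℝ
    (fun u v => ⟨fun z => inner ℝ u (l z v), continuous_const.inner (hc v)⟩)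
    (fun _ _ _ => by ext; simp [inner_add_left]) (fun _ _ _ => by ext; simp [inner_smul_left])
    (fun _ _ _ => by ext; simp [inner_add_right]) fun _ _ _ => by ext; simp [inner_smul_right]
  rw [inv_inv] at h4
  refine ⟨Submodule.map₂ B F F, ⟨h1.map₂ B h1, fun f hf y w => (Submodule.map₂_le.2
    (fun a ha' b hb => ?_) : _ ≤ (Submodule.map₂ B F F).comap (tr y w).toLinearMap) hf⟩, _,
      Submodule.apply_mem_map₂ B (sub_mem (h2 x₀ u h3) h3) h3, fun e => h4 ?_⟩
  · change tr y w (B a b) ∈ Submodule.map₂ B F F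
    rw [show tr y w (B a b) = B (l y⁻¹ a) (l w b) from by ext; simp [B, hs, ha]]
    exact Submodule.apply_mem_map₂ B (h2 _ _ ha') (h2 _ _ hb)
  · rw [← sub_eq_zero, ← inner_self_eq_zero (𝕜 := ℝ), inner_sub_right, sub_eq_zero]
    exact e.trans (congrArg (inner ℝ (l x₀ u - u)) (h0 u))

theorem pw {x₀ : K} (hx : x₀ ≠ 1) : ∃ V : Submodule ℝ C(K, ℝ), BI V ∧ ∃ f ∈ V, f x₀ ≠ f 1 := by
  borelize K
  let μ : Measure K := Measure.haarMeasure ⊤
  let l : K → Lp ℝ 2 μ →L[ℝ] Lp ℝ 2 μ := fun x => (Lp.compMeasurePreservingₗᵢ ℝ (fun y => x⁻¹ • y)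
    (measurePreserving_smul x⁻¹ μ)).toContinuousLinearMap
  have la (x v) : l x v = DomMulAct.mk x⁻¹ • v := rfl
  obtain ⟨f, f0, f1, -⟩ := exists_continuous_zero_one_of_isClosed isClosed_singleton
    isClosed_singleton (disjoint_singleton.2 hx)
  refine rep2 l (fun v => ?_) (fun x y v => ?_) (fun x => LinearIsometry.inner_map_map _)
    (fun v => continuous_const.compMeasurePreservingLp
      (ContinuousMap.curry ⟨fun p : K × K => p.1⁻¹ • p.2, by fun_prop⟩).continuous _ (by simp))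
    (v := ContinuousMap.toLp 2 μ ℝ f) fun h => ?_
  · rw [la, inv_one]
    exact one_smul (DomMulAct K) v
  · rw [la, la, la, ← mul_smul, mul_inv_rev]
    rfl
  · have h2 := ContinuousMap.coeFn_toLp (p := 2) (𝕜 := ℝ) μ f
    have h3 := (((Lp.ext_iff.1 h).symm.trans (DomMulAct.smul_Lp_ae_eq _ _)).symm.trans
      h2).symm.trans ((measurePreserving_smul x₀⁻¹⁻¹ μ).quasiMeasurePreserving.ae_eq_comp h2)
    have := congrFun ((Continuous.ae_eq_iff_eq μ f.continuous (by fun_prop)).1 h3) 1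
    simp [f0 rfl, f1 rfl] at this

def S {V : Submodule ℝ C(K, ℝ)} (h : BI V) : Subgroup K where
  carrier := {s | ∀ f ∈ V, f s = f 1}
  one_mem' _ _ := rfl
  mul_mem' {a b} ha hb f hf := by simpa [ha f hf] using hb _ (h.2 f hf a 1)
  inv_mem' {a} ha f hf := by simpa using (ha _ (h.2 f hf 1 a⁻¹)).symm

omit [CompactSpace K] [T2Space K] in
lemma S_normal {V : Submodule ℝ C(K, ℝ)} (h : BI V) : (S h).Normal :=
  ⟨fun a ha g f hf => by simpa using ha _ (h.2 f hf g g⁻¹)⟩

omit [CompactSpace K] [T2Space K] in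
lemma S_q {V : Submodule ℝ C(K, ℝ)} (h : BI V) : ∃ q ∈ Algebra.adjoin ℝ (V : Set C(K, ℝ)),
    (∀ y, 0 ≤ q y) ∧ ∀ y, q y = 0 ↔ y ∈ S h := by
  obtain ⟨b, hb⟩ := h.1
  have b1 (f) (hf : f ∈ b) : f ∈ V := hb ▸ Submodule.subset_span hf
  refine ⟨∑ f ∈ b, (f - algebraMap ℝ _ (f 1)) ^ 2, sum_mem fun f hf => pow_mem (sub_mem
    (Algebra.subset_adjoin (b1 f hf)) (algebraMap_mem _ _)) _, fun y => by
      simpa using Finset.sum_nonneg fun f _ => sq_nonneg _, fun y => ?_⟩
  simp only [ContinuousMap.coe_sum, Finset.sum_apply, ContinuousMap.pow_apply,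
    Finset.sum_eq_zero_iff_of_nonneg fun f _ => sq_nonneg _]
  refine ⟨fun k f hf => ?_, fun k f hf => by simp [k f (b1 f hf)]⟩
  rw [← hb] at hf
  induction hf using Submodule.span_induction with
  | mem f hf => simpa [sub_eq_zero] using k f hf
  | zero => rfl
  | add _ _ _ _ a b => simp [a, b]
  | smul _ _ _ a => simp [a]

lemma zar {V : Submodule ℝ C(K, ℝ)} (h : BI V) (N : Subgroup K) (hN : IsClosed (N : Set K)) {x : K}
    (hx : ∀ p ∈ Algebra.adjoin ℝ (V : Set C(K, ℝ)), (∀ n ∈ N, p n = 0) → p x = 0) :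
    ∃ n ∈ N, n⁻¹ * x ∈ S h := by
  haveI : CompactSpace N := isCompact_iff_compactSpace.1 hN.isCompact
  borelize (↥N)
  let μ : Measure N := Measure.haarMeasure ⊤
  haveI : IsProbabilityMeasure μ := prob
  let R := Algebra.adjoin ℝ (V : Set C(K, ℝ))
  have r1 (p) (hp : p ∈ R) : ∃ F : Submodule ℝ C(K, ℝ), F.FG ∧ F ≤ R.toSubmodule ∧
      ∀ y, tr y 1 p ∈ F := by
    induction hp using Algebra.adjoin_induction with
    | mem p hp => exact ⟨V, h.1, Algebra.subset_adjoin, fun y => h.2 p hp y 1⟩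
    | algebraMap r => exact ⟨_, Submodule.fg_span_singleton _, (Submodule.span_singleton_le_iff_mem
        _ _).2 (algebraMap_mem R r), fun y => by simp⟩
    | add _ _ _ _ a b =>
      obtain ⟨F, a1, a2, a3⟩ := a
      obtain ⟨F', b1, b2, b3⟩ := b
      exact ⟨_, a1.sup b1, sup_le a2 b2, fun y => map_add (tr y 1) _ _ ▸
        Submodule.add_mem_sup (a3 y) (b3 y)⟩
    | mul _ _ _ _ a b =>
      obtain ⟨F, a1, a2, a3⟩ := a
      obtain ⟨F', b1, b2, b3⟩ := b
      exact ⟨_, a1.mul b1, Submodule.mul_le.2 fun _ c _ d => mul_mem (s := R) (a2 c) (b2 d),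
        fun y => map_mul (tr y 1) _ _ ▸ Submodule.mul_mem_mul (a3 y) (b3 y)⟩
  have c0 (p : C(K, ℝ)) (y) : Continuous fun n : N => p (n.1⁻¹ * y * 1) := by fun_prop
  have i0 (p y) := (c0 p y).integrable_of_hasCompactSupport (μ := μ)
    (HasCompactSupport.of_compactSpace _)
  let L : K → C(K, ℝ) → ℝ := fun y p => ∫ n : N, p (n.1⁻¹ * y * 1) ∂μ
  have l1 (y) : Continuous (L y) := (LipschitzWith.of_dist_le_mul (K := 1) fun f g => by
    rw [dist_eq_norm, ← integral_sub (i0 _ _) (i0 _ _)]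
    simpa using norm_integral_le_of_norm_le_const (μ := μ) (Eventually.of_forall fun n : N =>
      (dist_eq_norm _ _).ge.trans (ContinuousMap.dist_apply_le_dist (f := f) (g := g) _))).continuous
  have l2 : (R : Set C(K, ℝ)) ⊆ {p | L x p = L 1 p} := fun p hp => by
    obtain ⟨F, a1, a2, a3⟩ := r1 p hp
    have i1 : Integrable (fun n : N => tr n.1⁻¹ 1 p) μ := (ContinuousMap.curry ⟨fun a : N × K =>
      p (a.1.1⁻¹ * a.2 * 1), by fun_prop⟩).continuous.integrable_of_hasCompactSupport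
        (HasCompactSupport.of_compactSpace _)
    haveI := Module.Finite.iff_fg.2 a1
    have := hx _ (sub_mem (a2 (F.convex.integral_mem F.closed_of_finiteDimensional
      (Eventually.of_forall fun n => a3 _) i1)) (algebraMap_mem R (L 1 p))) fun m hm => by
        rw [ContinuousMap.sub_apply, ContinuousMap.integral_apply i1,
          ← integral_mul_left_eq_self _ (⟨m, hm⟩ : N)]
        simp [L]
    rw [ContinuousMap.sub_apply, ContinuousMap.integral_apply i1, sub_eq_zero] at this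
    simpa [L] using this
  obtain ⟨q, q1, q2, q3⟩ := S_q h
  obtain ⟨n, -, hn⟩ := isCompact_univ.exists_isMinOn univ_nonempty (c0 q x).continuousOn
  refine ⟨n, n.2, (q3 _).1 ((q2 _).eq_or_lt.resolve_right fun k => ?_).symm⟩
  have := closure_minimal l2 (isClosed_eq (l1 x) (l1 1)) (ContinuousMap.sup_mem_subalgebra_closure R
    ⟨_, sub_mem (algebraMap_mem R (q (n.1⁻¹ * x))) q1⟩ 0)
  refine ((c0 _ 1).integral_pos_of_hasCompactSupport_nonneg_nonzero (μ := μ) (x := 1)
    (HasCompactSupport.of_compactSpace _) (fun _ => by simp) ?_).ne' (this.symm.trans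
      (integral_eq_zero_of_ae (Eventually.of_forall fun m => ?_)))
  · simp [(q3 1).2 (one_mem _), k]
  · simpa using hn (mem_univ m)

theorem dcc {V : Submodule ℝ C(K, ℝ)} (h : BI V) (E : ℕ → Subgroup K) (h1 : Antitone E)
    (h2 : ∀ n, IsClosed (E n : Set K)) :
    ∃ m, ∀ n, m ≤ n → ∀ x ∈ E n, ∃ e ∈ E (n + 1), e⁻¹ * x ∈ S h := by
  obtain ⟨b, hb⟩ := h.1
  haveI : IsNoetherianRing (Algebra.adjoin ℝ (V : Set C(K, ℝ))) :=
    isNoetherianRing_of_fg ⟨b, by rw [← hb, Algebra.adjoin_span]⟩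
  obtain ⟨m, hm⟩ := monotone_stabilizes_iff_noetherian.2 this ⟨fun n =>
    { carrier := {p | ∀ y ∈ E n, p.1 y = 0}
      zero_mem' := fun _ _ => rfl
      add_mem' := fun a b y hy => by simp [a y hy, b y hy]
      smul_mem' := fun c _ a y hy => by simp [a y hy] }, fun _ _ k _ a y hy => a y (h1 k hy)⟩
  exact ⟨m, fun n hn x hx => zar h _ (h2 _) fun p hp k =>
    ((hm n hn).symm.trans (hm _ (hn.trans n.le_succ))).ge (x := ⟨p, hp⟩) k x hx⟩

end Pool.Agent.Lib.helper23.PWN
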