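import Mathlib
import Pool.Agent.Lib.helper23.MinD
import Pool.Agent.Lib.helper23.PWN

set_option autoImplicit false

namespace Pool.Agent.Lib.helper23.MinE

open Set Filter Topology Function Pool.Agent.Lib.helper23.PWN Pool.Agent.Lib.helper23.MinB
  Pool.Agent.Lib.helper23.MinC Pool.Agent.Lib.helper23.MinD

section
variable {K : Type} [Group K] [TopologicalSpace K] [IsTopologicalGroup K] [CompactSpace K]
  [T2Space K]

omit [CompactSpace K] [T2Space K] in
lemma S_closed {V : Submodule ℝ C(K, ℝ)} (h : BI V) : IsClosed (S h : Set K) := by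
  obtain ⟨q, -, -, h⟩ := S_q h
  exact (Set.ext h : _ = _) ▸ isClosed_eq q.continuous continuous_const

lemma sepS (x : K) : ∃ V, ∃ h : BI V, x ≠ 1 → x ∉ S h := by
  by_cases hx : x = 1
  · exact ⟨⊥, ⟨Submodule.fg_bot, by simp⟩, fun h => (h hx).elim⟩
  · obtain ⟨V, h, f, h1, h2⟩ := pw hx
    exact ⟨V, h, fun _ k => h2 (k f h1)⟩

theorem chainK (Y : ℕ → Subgroup K) (y : ℕ → K) (h0 : Antitone Y)
    (h1 : ∀ n, (Y n).Normal ∧ IsClosed (Y n : Set K)) (h2 : ∀ n, y n ∈ Y n ∧ y n ∉ Y (n + 1)) :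
    ∃ E : ℕ → Subgroup K, (∀ n, (E n).Normal ∧ IsClosed (E n : Set K) ∧ E n ≠ ⊥) ∧
      ∀ V (h : BI V), ∀ᶠ n in atTop, E n ≤ S h := by
  obtain ⟨E : ℕ → Subgroup K, e1, e2⟩ := zorn_le_nonempty₀ (α := (ℕ → Subgroup K)ᵒᵈ)
    {E : ℕ → Subgroup K | Antitone E ∧ ∀ n, (E n).Normal ∧ IsClosed (E n : Set K) ∧
      ∃ e ∈ E n, (y n)⁻¹ * e ∈ Y (n + 1)} (fun (c : Set (ℕ → Subgroup K)) hc hc' z hz => by
      haveI : Nonempty c := ⟨⟨z, hz⟩⟩
      refine ⟨fun n => ⨅ E : c, E.1 n, ⟨fun m n h => iInf_mono fun E => (hc E.2).1 h, fun n =>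
        ⟨Subgroup.normal_iInf_normal fun E => ((hc E.2).2 n).1, ?_, ?_⟩⟩,
        fun E hE n => iInf_le (fun E : c => E.1 n) ⟨E, hE⟩⟩
      · rw [Subgroup.coe_iInf]
        exact isClosed_iInter fun E => ((hc E.2).2 n).2.1
      have cl (E : c) : IsClosed ((E.1 n : Set K) ∩ {e | (y n)⁻¹ * e ∈ Y (n + 1)}) :=
        ((hc E.2).2 n).2.1.inter ((h1 _).2.preimage (continuous_const_mul _))
      obtain ⟨e, he⟩ := IsCompact.nonempty_iInter_of_directed_nonempty_isCompact_isClosed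
        (ι := c) _ (fun a b => (hc'.directedOn.directed_val a b).imp fun _ h =>
          ⟨inter_subset_inter_left _ (h.1 n), inter_subset_inter_left _ (h.2 n)⟩)
        (fun E => ((hc E.2).2 n).2.2) (fun E => (cl E).isCompact) cl
      exact ⟨e, Subgroup.mem_iInf.2 fun E => (mem_iInter.1 he E).1, (mem_iInter.1 he ⟨z, hz⟩).2⟩)
    Y ⟨h0, fun n => ⟨(h1 n).1, (h1 n).2, _, (h2 n).1, by simp⟩⟩
  obtain ⟨⟨a1, a2⟩, e2⟩ := e2
  refine ⟨E, fun n => ⟨(a2 n).1, (a2 n).2.1, fun h => ?_⟩, fun V h => ?_⟩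
  · obtain ⟨e, b1, b2⟩ := (a2 n).2.2
    rw [h, Subgroup.mem_bot] at b1
    exact (h2 n).2 (by simpa [b1] using b2)
  obtain ⟨m, hm⟩ := dcc h E a1 fun n => (a2 n).2.1
  haveI := S_normal h
  have := e2 (y := fun n => E n ⊓ if m ≤ n then S h else ⊤) ⟨fun a b k => inf_le_inf
    (a1 k) ?_, fun n => ?_⟩ fun n => inf_le_left
  · filter_upwards [eventually_ge_atTop m] with n hn
    simpa [hn] using (this n).trans inf_le_right
  · split_ifs with b1 b2 b2 <;> simp
    exact (b1 (b2.trans k)).elim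
  · dsimp only
    split_ifs with b1
    · haveI := (a2 n).1
      refine ⟨inferInstance, (a2 n).2.1.inter (S_closed h), ?_⟩
      obtain ⟨e, b2, b3⟩ := (a2 n).2.2
      obtain ⟨e', b4, b5⟩ := hm n b1 e b2
      refine ⟨_, ⟨(E n).mul_mem (inv_mem (a1 n.le_succ b4)) b2, b5⟩, ?_⟩
      simpa [mul_assoc] using mul_mem ((h1 _).1.conj_mem _ (inv_mem (e1 (n + 1) b4)) (y n)⁻¹) b3
    · simpa using a2 n

theorem cases : (∃ q : C(K, ℝ), ∀ y, q y = 0 ↔ y = 1) ∨ ∃ E : ℕ → Subgroup K,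
    (∀ n, (E n).Normal ∧ IsClosed (E n : Set K) ∧ E n ≠ ⊥) ∧
      ∀ x : K, x ≠ 1 → ∃ C : Set K, IsClosed C ∧ x ∉ C ∧ ∀ᶠ n in atTop, (E n : Set K) ⊆ C := by
  refine or_iff_not_imp_left.2 fun h => ?_
  choose V hV hx using sepS (K := K)
  have this (Y : Subgroup K) (hY : ∃ q : C(K, ℝ), ∀ y, q y = 0 ↔ y ∈ Y) : ∃ x ∈ Y, x ≠ 1 := by
    by_contra! k
    exact h (hY.imp fun q hq y => (hq y).trans ⟨k y, fun e => e ▸ one_mem _⟩)
  choose! nx n1 n2 using this
  let Y : ℕ → Subgroup K := fun n => Nat.rec ⊤ (fun _ Y => Y ⊓ S (hV (nx Y))) n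
  have y1 (n : ℕ) : ((Y n).Normal ∧ IsClosed (SetLike.coe (Y n))) ∧
      ∃ q : C(K, ℝ), ∀ y, q y = 0 ↔ y ∈ Y n := by
    induction n with
    | zero => exact ⟨⟨Subgroup.normal_top, isClosed_univ⟩, 0, fun _ => ⟨fun _ => trivial,
        fun _ => rfl⟩⟩
    | succ n ih =>
      obtain ⟨⟨a1, a2⟩, q, a3⟩ := ih
      obtain ⟨p, -, -, b⟩ := S_q (hV (nx (Y n)))
      haveI := S_normal (hV (nx (Y n)))
      refine ⟨⟨Subgroup.normal_inf_normal _ _, a2.inter (S_closed _)⟩, q * q + p * p, fun y => ?_⟩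
      exact mul_self_add_mul_self_eq_zero.trans (and_congr (a3 y) (b y))
  obtain ⟨E, e1, e2⟩ := chainK Y (fun n => nx (Y n)) (antitone_nat_of_succ_le fun _ => inf_le_left)
    (fun n => (y1 n).1) fun n => ⟨n1 _ (y1 n).2, fun k => hx _ (n2 _ (y1 n).2) k.2⟩
  exact ⟨E, e1, fun x k => ⟨_, S_closed (hV x), hx x k, e2 _ _⟩⟩

end

variable {G : Type} [Group G] [TopologicalSpace G] [IsTopologicalGroup G]

lemma sin (hP : PreM G) {V : Set G} (hV : V ∈ 𝓝 1) :
    ∃ W ∈ 𝓝 (1 : G), ∀ g, ∀ x ∈ W, g * x * g⁻¹ ∈ V := by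
  obtain ⟨W, w1, w2⟩ := tri hV
  obtain ⟨F, f1, f2⟩ := hP W w1
  refine ⟨_, (eventually_all_finite f1).2 fun f _ => ((by fun_prop :
    Continuous fun x : G => f⁻¹ * x * f).tendsto' 1 1 (by simp)).eventually w1, fun g x hx => ?_⟩
  obtain ⟨f, hf, hg⟩ := f2 g⁻¹
  simpa [mul_assoc] using w2 _ hg _ (hx f hf) _ hg

theorem compl [T2Space G] (hP : PreM G) : ∃ (K : Type) (_ : Group K) (_ : TopologicalSpace K),
    IsTopologicalGroup K ∧ CompactSpace K ∧ T2Space K ∧ ∃ i : G →* K, IsDenseEmbedding i := by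
  letI := IsTopologicalGroup.rightUniformSpace G
  haveI : IsRightUniformGroup G := ⟨rfl⟩
  haveI : IsLeftUniformGroup G := ⟨le_antisymm (fun U ⟨V, v1, v2⟩ => by
    obtain ⟨W, w1, w2⟩ := sin hP v1
    exact ⟨W, w1, fun p hp => v2 (by simpa [mul_assoc] using w2 p.1⁻¹ _ hp)⟩) fun U ⟨V, v1, v2⟩ => by
      obtain ⟨W, w1, w2⟩ := sin hP v1
      exact ⟨W, w1, fun p hp => v2 (by simpa using w2 p.1 _ hp)⟩⟩
  haveI : IsUniformGroup G := .of_left_right
  haveI : IsUniformAddGroup (Additive G) := ⟨uniformContinuous_div (α := G)⟩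
  have h1 : TotallyBounded (univ : Set (Additive G)) := fun d hd => by
    obtain ⟨U, hU, hd⟩ := mem_comap.1 (uniformity_eq_comap_inv_mul_nhds_one_swapped G ▸ hd :)
    obtain ⟨F, h1, h2⟩ := hP U hU
    exact ⟨F, h1, fun x _ => by
      obtain ⟨f, hf, h3⟩ := h2 x
      exact mem_biUnion hf (hd h3)⟩
  haveI : CompactSpace (UniformSpace.Completion (Additive G)) :=
    ⟨isCompact_iff_totallyBounded_isComplete.2 ⟨by
      simpa [UniformSpace.Completion.denseRange_coe.closure_range] using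
        (h1.image (UniformSpace.Completion.uniformContinuous_coe _)).closure, complete_univ⟩⟩
  haveI : T0Space (Additive G) := inferInstanceAs (T0Space G)
  exact ⟨Multiplicative (UniformSpace.Completion (Additive G)), inferInstance, inferInstance,
    inferInstance, inferInstance, inferInstanceAs (T2Space (UniformSpace.Completion _)),
    MonoidHom.mk' (fun g => Multiplicative.ofAdd
      ((Additive.ofMul g : Additive G) : UniformSpace.Completion _))
      fun a b => UniformSpace.Completion.coe_add (Additive.ofMul a) (Additive.ofMul b),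
    UniformSpace.Completion.isDenseEmbedding_coe (α := Additive G)⟩

lemma ess (hL : LM (univ : Set G)) {K : Type} [Group K] [TopologicalSpace K] [IsTopologicalGroup K]
    [T2Space K] {i : G →* K} (hi : IsDenseInducing i) (N : Subgroup K) [N.Normal]
    (h1 : IsClosed (N : Set K)) (h2 : N ≠ ⊥) : ∃ g, g ≠ 1 ∧ i g ∈ N := by
  by_contra! h
  let φ := (QuotientGroup.mk' N).comp i
  have c : Continuous φ := QuotientGroup.continuous_mk.comp hi.continuous
  have e := hL _ (topologicalGroup_induced φ) (@IsEmbedding.t2Space _ _ (.induced φ _) _ _ _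
    (@IsEmbedding.mk _ _ (.induced φ _) _ _ (@IsInducing.mk _ _ (.induced φ _) _ _ rfl)
      ((injective_iff_map_eq_one φ).2 fun g hg => by_contra fun k =>
        h g k ((QuotientGroup.eq_one_iff _).1 hg)))) c.le_induced univ_mem
  refine h2 (eq_bot_iff.2 fun n hn => ?_)
  haveI := hi.comap_nhds_neBot n
  refine tendsto_nhds_unique tendsto_comap ((hi.continuous.tendsto' 1 1 i.map_one).mono_left ?_)
  rw [← e, nhds_induced, map_one, ← tendsto_iff_comap]
  exact (QuotientGroup.continuous_mk.tendsto' n 1 ((QuotientGroup.eq_one_iff _).2 hn)).comp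
    tendsto_comap

theorem seqP [T2Space G] [Infinite G] (hL : LM (univ : Set G)) (hP : PreM G) :
    ∃ x : ℕ → G, Injective x ∧ Tendsto x atTop (𝓝 1) := by
  obtain ⟨K, _, _, _, _, _, i, hi⟩ := compl hP
  obtain ⟨b, h1, h2⟩ : ∃ b : ℕ → G, (∀ x, MapClusterPt x atTop (i ∘ b) → x = i 1) ∧
      ∀ n, b n ≠ 1 := by
    rw [map_one]
    rcases cases (K := K) with ⟨q, hq⟩ | ⟨E, e1, e2⟩
    · choose b b1 b2 using fun n : ℕ => (infP ⊤ hP infinite_univ (((q.continuous.comp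
        hi.continuous).norm.tendsto' 1 0 (by simp [hq])).eventually (gt_mem_nhds
          (Nat.one_div_pos_of_nat (n := n))))).exists_notMem_finite (finite_singleton 1)
      exact ⟨b, fun x hx => (hq x).1 (eq_of_nhds_neBot ((hx.continuousAt_comp
        q.continuous.continuousAt).clusterPt.mono (squeeze_zero_norm (fun n => (b1 n).2.le)
          tendsto_one_div_add_atTop_nhds_zero_nat))), b2⟩
    · choose b b1 b2 using fun n => @ess _ _ _ _ hL _ _ _ _ _ _ hi.toIsDenseInducing _ (e1 n).1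
        (e1 n).2.1 (e1 n).2.2
      refine ⟨b, fun x hx => by_contra fun k => ?_, b1⟩
      obtain ⟨C, c1, c2, c3⟩ := e2 x k
      exact c2 (c1.mem_of_mapClusterPt hx (c3.mono fun n hn => hn (b2 n)))
  replace h1 := hi.isInducing.tendsto_nhds_iff.2 (tendsto_nhds_of_unique_mapClusterPt h1)
  obtain ⟨φ, -, h3⟩ := exists_seq_of_forall_finset_exists (fun _ => True)
    (fun m n => m < n ∧ b n ≠ b m) fun s _ => (((eventually_all_finset s).2 fun m _ =>
      (eventually_gt_atTop m).and (h1.eventually_ne (h2 m).symm)).exists).imp fun _ h => ⟨trivial, h⟩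
  refine ⟨b ∘ φ, fun m n e => ?_, h1.comp (StrictMono.tendsto_atTop fun m n h => (h3 m n h).1)⟩
  by_contra k
  rcases lt_or_gt_of_ne k with h | h
  exacts [(h3 _ _ h).2 e.symm, (h3 _ _ h).2 e]

lemma cc_pre (h : ∀ u : ℕ → G, ∃ x, MapClusterPt x atTop u) : PreM G := fun U hU => by
  by_contra! k
  obtain ⟨u, -, hu⟩ := exists_seq_of_forall_finset_exists (fun _ : G => True)
    (fun a b => a⁻¹ * b ∉ U) fun s _ => (k s s.finite_toSet).imp fun _ h => ⟨trivial, h⟩
  obtain ⟨x, hx⟩ := h u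
  obtain ⟨W, w1, w2⟩ := tri hU
  have := hx.frequently (((continuous_const_mul x⁻¹).tendsto' x 1 (by simp)).eventually w1)
  obtain ⟨m, hm⟩ := this.exists
  obtain ⟨n, hn, h⟩ := (this.and_eventually (eventually_gt_atTop m)).exists
  exact hu m n h (by simpa using w2 _ hm _ hn _ (mem_of_mem_nhds w1))

end Pool.Agent.Lib.helper23.MinE
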