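import Mathlib

set_option autoImplicit false

open Finset

namespace Pool.Agent.Lib.helper23.AutG

/-- the matrices with rows `(1, a, c)`, `(0, 1, b)`, `(0, 0, e)` -/
@[ext] structure G where
  a : ℤ
  b : ℤ
  c : ℤ
  e : ℤˣ

instance : Mul G := ⟨fun g h => ⟨g.a + h.a, h.b + g.b * h.e, h.c + g.a * h.b + g.c * h.e, g.e * h.e⟩⟩
instance : One G := ⟨⟨0, 0, 0, 1⟩⟩
instance : Inv G := ⟨fun g => ⟨-g.a, -g.b * g.e, (g.a * g.b - g.c) * g.e, g.e⟩⟩

@[simp] lemma mul_a (g h : G) : (g * h).a = g.a + h.a := rfl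
@[simp] lemma mul_b (g h : G) : (g * h).b = h.b + g.b * h.e := rfl
@[simp] lemma mul_c (g h : G) : (g * h).c = h.c + g.a * h.b + g.c * h.e := rfl
@[simp] lemma mul_e (g h : G) : (g * h).e = g.e * h.e := rfl
@[simp] lemma one_a : (1 : G).a = 0 := rfl
@[simp] lemma one_b : (1 : G).b = 0 := rfl
@[simp] lemma one_c : (1 : G).c = 0 := rfl
@[simp] lemma one_e : (1 : G).e = 1 := rfl
@[simp] lemma inv_a (g : G) : g⁻¹.a = -g.a := rfl
@[simp] lemma inv_b (g : G) : g⁻¹.b = -g.b * g.e := rfl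
@[simp] lemma inv_c (g : G) : g⁻¹.c = (g.a * g.b - g.c) * g.e := rfl
@[simp] lemma inv_e (g : G) : g⁻¹.e = g.e := rfl

instance : Group G := Group.ofLeftAxioms
  (fun g h k => by ext <;> simp <;> ring) (fun g => by ext <;> simp)
  (fun g => by rcases Int.units_eq_one_or g.e with h | h <;> ext <;> simp [h] <;> ring)

instance : DecidableEq G := fun g h => decidable_of_iff _ G.ext_iff.symm

def x : G := ⟨1, 0, 0, 1⟩
def y : G := ⟨0, 1, 0, 1⟩
def z : G := ⟨0, 0, 1, 1⟩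
def s : G := ⟨0, 0, 0, -1⟩

lemma zpow_eq (a b c : ℤ) (h : a * b = 0) (n : ℤ) :
    (⟨a, b, c, 1⟩ : G) ^ n = ⟨n * a, n * b, n * c, 1⟩ := by
  induction n using Int.induction_on with
  | zero => ext <;> simp
  | succ n ih =>
    rw [zpow_add_one, ih]
    ext <;> simp <;> ring_nf
    rw [mul_assoc, h, mul_zero, add_zero]
  | pred n ih =>
    rw [zpow_sub_one, ih]
    ext <;> simp <;> ring_nf
    linear_combination (1 + n) * h

lemma nf (a b c : ℤ) : (⟨a, b, c, 1⟩ : G) = z ^ c * y ^ b * x ^ a := by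
  rw [x, y, z, zpow_eq _ _ _ (by simp), zpow_eq _ _ _ (by simp), zpow_eq _ _ _ (by simp)]
  ext <;> simp

lemma aut (θ : G →* G) (hθ : Function.Injective θ) : ∃ α β p q : ℤ, ∀ a b c : ℤ,
    θ ⟨a, b, c, 1⟩ = ⟨a * α, b * β, c * (α * β) + b * q + a * p, 1⟩ := by
  have r1 : θ x * θ y = θ z * θ y * θ x := by
    simp only [← map_mul]; rfl
  have r2 : θ x * θ z = θ z * θ x := by
    simp only [← map_mul]; rfl
  have r3' : θ z * θ s * θ z = θ s := by
    simp only [← map_mul]; rfl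
  have r4 : θ y * θ s * θ y = θ s := by
    simp only [← map_mul]; rfl
  have r5 : θ s * θ x = θ x * θ s := by
    simp only [← map_mul]; rfl
  have n1 : θ z ≠ 1 := fun h => absurd (hθ (h.trans θ.map_one.symm)) (by decide)
  have n2 : θ y * θ y ≠ 1 := fun h =>
    absurd (hθ ((map_mul θ y y).trans (h.trans θ.map_one.symm))) (by decide)
  obtain ⟨α, β, p, q, hx, hy, hz⟩ : ∃ α β p q : ℤ, θ x = ⟨α, 0, p, 1⟩ ∧ θ y = ⟨0, β, q, 1⟩ ∧
      θ z = ⟨0, 0, α * β, 1⟩ := by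
    generalize θ x = X at *
    generalize θ y = Y at *
    generalize θ z = Z at *
    generalize θ s = S at *
    obtain ⟨xa, xb, xc, xe⟩ := X
    obtain ⟨ya, yb, yc, ye⟩ := Y
    obtain ⟨za, zb, zc, ze⟩ := Z
    obtain ⟨sa, sb, sc, se⟩ := S
    refine ⟨xa, yb, xc, yc, ?_⟩
    simp only [G.ext_iff, ne_eq, mul_a, mul_b, mul_c, mul_e, one_a, one_b, one_c, one_e] at *
    have hya : ya = 0 := by omega
    have hza : za = 0 := by omega
    subst hya hza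
    rcases Int.units_eq_one_or xe with rfl | rfl <;> rcases Int.units_eq_one_or ye with rfl | rfl <;>
      rcases Int.units_eq_one_or ze with rfl | rfl <;>
      rcases Int.units_eq_one_or se with rfl | rfl <;>
      simp at * <;> grind
  refine ⟨α, β, p, q, fun a b c => ?_⟩
  rw [nf, map_mul, map_mul, map_zpow, map_zpow, map_zpow, hx, hy, hz, zpow_eq _ _ _ (by simp),
    zpow_eq _ _ _ (by simp), zpow_eq _ _ _ (by simp)]
  ext <;> simp
  ring

lemma distinct (θ : MulAut G) {a b c a' b' c' : ℕ} (ha : 0 < a) (hb : 0 < b) (ha' : 0 < a')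
    (hb' : 0 < b') (hc : c < a.gcd b) (hc' : c' < a'.gcd b')
    (h : θ ⟨a, b, c, 1⟩ = ⟨a', b', c', 1⟩) : a = a' ∧ b = b' ∧ c = c' := by
  obtain ⟨α, β, p, q, h1⟩ := aut θ.toMonoidHom θ.injective
  obtain ⟨α', β', p', q', h2⟩ := aut θ.symm.toMonoidHom θ.symm.injective
  have h3 := (h1 a b c).symm.trans h
  have h4 := (h2 a' b' c').symm.trans (θ.symm_apply_eq.2 h.symm)
  simp only [G.ext_iff, and_true] at h3 h4
  have k : ∀ (a a' : ℕ) (α α' : ℤ), 0 < a → 0 < a' → a * α = a' → a' * α' = a → α = 1 := by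
    intro a a' α α' ha ha' e1 e2
    have e3 : α * α' = 1 := mul_left_cancel₀ (show (a : ℤ) ≠ 0 by omega) (by
      rw [← mul_assoc, e1, e2, mul_one])
    rcases Int.eq_one_or_neg_one_of_mul_eq_one e3 with h | rfl
    · exact h
    · omega
  obtain rfl := k _ _ _ _ ha ha' h3.1 h4.1
  obtain rfl := k _ _ _ _ hb hb' h3.2.1 h4.2.1
  obtain rfl : a = a' := by omega
  obtain rfl : b = b' := by omega
  refine ⟨rfl, rfl, ?_⟩
  have h5 : ((a.gcd b : ℕ) : ℤ) ∣ (c' : ℤ) - c := by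
    rw [← h3.2.2, show (c : ℤ) * (1 * 1) + b * q + a * p - c = b * q + a * p by ring]
    exact dvd_add (Dvd.dvd.mul_right (Int.natCast_dvd_natCast.2 (Nat.gcd_dvd_right a b)) _)
      (Dvd.dvd.mul_right (Int.natCast_dvd_natCast.2 (Nat.gcd_dvd_left a b)) _)
  have h6 := Int.eq_zero_of_abs_lt_dvd h5 (abs_lt.2 ⟨by omega, by omega⟩)
  omega

def S : Finset G := {x, y, z, s}

lemma gen : Subgroup.closure (S : Set G) = ⊤ := by
  have h : ∀ g ∈ S, g ∈ Subgroup.closure (S : Set G) := fun g hg => Subgroup.subset_closure hg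
  have h1 : ∀ a b c : ℤ, (⟨a, b, c, 1⟩ : G) ∈ Subgroup.closure (S : Set G) := fun a b c =>
    nf a b c ▸ mul_mem (mul_mem (zpow_mem (h z (by decide)) _) (zpow_mem (h y (by decide)) _))
      (zpow_mem (h x (by decide)) _)
  refine eq_top_iff.2 fun ⟨a, b, c, e⟩ _ => ?_
  rcases Int.units_eq_one_or e with rfl | rfl
  · exact h1 a b c
  · have h2 : (⟨a, b, c, -1⟩ : G) = ⟨a, -b, -c, 1⟩ * s := by
      ext <;> simp [s]
    exact h2 ▸ mul_mem (h1 _ _ _) (h s (by decide))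

def ball (n : ℕ) : Set G :=
  {g | ∃ l : List G, l.length ≤ n ∧ (∀ x ∈ l, x ∈ S ∨ x⁻¹ ∈ S) ∧ l.prod = g}

lemma mem_ball (a b c : ℕ) : (⟨a, b, c, 1⟩ : G) ∈ ball (a + b + c) := by
  refine ⟨List.replicate c z ++ List.replicate b y ++ List.replicate a x, by simp; omega,
    fun g hg => Or.inl ?_, by simp [nf, mul_assoc]⟩
  simp only [List.mem_append, List.mem_replicate] at hg
  rcases hg with (⟨-, rfl⟩ | ⟨-, rfl⟩) | ⟨-, rfl⟩ <;> decide

lemma ball_bound {n : ℕ} {g : G} (hg : g ∈ ball n) :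
    |g.a| ≤ n ∧ |g.b| ≤ n ∧ |g.c| ≤ (n : ℤ) ^ 2 := by
  obtain ⟨l, l1, l2, rfl⟩ := hg
  induction l generalizing n with
  | nil => simp
  | cons t l ih =>
    obtain ⟨i1, i2, i3⟩ := ih le_rfl fun g hg => l2 g (List.mem_cons_of_mem _ hg)
    have h1 : |t.a| ≤ 1 ∧ |t.b| ≤ 1 ∧ |t.c| ≤ 1 := by
      have k : ∀ u ∈ S, (|u.a| ≤ 1 ∧ |u.b| ≤ 1 ∧ |u.c| ≤ 1) ∧
          |u⁻¹.a| ≤ 1 ∧ |u⁻¹.b| ≤ 1 ∧ |u⁻¹.c| ≤ 1 := by decide
      rcases l2 t List.mem_cons_self with h | h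
      · exact (k t h).1
      · exact inv_inv t ▸ (k _ h).2
    have h2 : |(l.prod.e : ℤ)| = 1 := Int.isUnit_iff_abs_eq.1 l.prod.e.isUnit
    have h3 : (l.length : ℤ) + 1 ≤ n := by exact_mod_cast l1
    rw [List.prod_cons, mul_a, mul_b, mul_c]
    have a1 := abs_add_le t.a l.prod.a
    have a2 := abs_add_le l.prod.b (t.b * l.prod.e)
    have a3 := abs_add_three l.prod.c (t.a * l.prod.b) (t.c * l.prod.e)
    simp only [abs_mul, h2, mul_one] at a2 a3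
    refine ⟨by omega, by omega, ?_⟩
    nlinarith [abs_nonneg t.a, abs_nonneg l.prod.b]

/-- representatives of the conjugacy classes meeting a ball -/
noncomputable def R (n : ℕ) : Finset G :=
  ((Icc 1 n).sigma fun d => Icc (-(n / d : ℕ) : ℤ) (n / d : ℕ) ×ˢ Icc (-(n / d : ℕ) : ℤ) (n / d : ℕ)
    ×ˢ range d).image (fun t => ⟨t.1 * t.2.1, t.1 * t.2.2.1, t.2.2.2, 1⟩) ∪
  (Icc (-(n : ℤ) ^ 2) (n ^ 2)).image (fun c => ⟨0, 0, c, 1⟩) ∪
  (Icc (-(n : ℤ)) n ×ˢ Ico (0 : ℤ) 2 ×ˢ Ico (0 : ℤ) 2).image (fun t => ⟨t.1, t.2.1, t.2.2, -1⟩)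

lemma rep {n : ℕ} {g : G} (hg : g ∈ ball n) : ∃ u : G, u * g * u⁻¹ ∈ R n := by
  obtain ⟨h1, h2, h3⟩ := ball_bound hg
  obtain ⟨a, b, c, e⟩ := g
  simp only at h1 h2 h3
  rcases Int.units_eq_one_or e with rfl | rfl
  · by_cases h0 : a.gcd b = 0
    · obtain ⟨rfl, rfl⟩ := Int.gcd_eq_zero_iff.1 h0
      exact ⟨1, mem_union_left _ (mem_union_right _
        (mem_image.2 ⟨c, mem_Icc.2 (abs_le.1 h3), by simp⟩))⟩
    · obtain ⟨i, hi⟩ := Int.gcd_dvd_left a b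
      obtain ⟨j, hj⟩ := Int.gcd_dvd_right a b
      have hb := Int.gcd_eq_gcd_ab a b
      generalize a.gcd b = d at *
      have hd : (0 : ℤ) < d := by omega
      have k : ∀ i : ℤ, |d * i| ≤ n → i ∈ Icc (-(n / d : ℕ) : ℤ) (n / d : ℕ) := fun i h => by
        rw [mem_Icc, ← abs_le, Int.natCast_div, Int.le_ediv_iff_mul_le hd, mul_comm]
        rwa [abs_mul, abs_of_pos hd] at h
      have hn : d ≤ n := by
        by_contra h
        have e1 : i = 0 := by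
          have := k i (hi ▸ h1)
          rw [Nat.div_eq_of_lt (by omega)] at this
          simpa using this
        have e2 : j = 0 := by
          have := k j (hj ▸ h2)
          rw [Nat.div_eq_of_lt (by omega)] at this
          simpa using this
        simp [hi, hj, e1, e2, h0] at hb
      refine ⟨⟨-(c / d) * a.gcdB b, c / d * a.gcdA b, 0, 1⟩, mem_union_left _ (mem_union_left _
        (mem_image.2 ⟨⟨d, i, j, (c % d).toNat⟩, mem_sigma.2 ⟨mem_Icc.2 ⟨Nat.pos_of_ne_zero h0, hn⟩,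
          mem_product.2 ⟨k i (hi ▸ h1), mem_product.2 ⟨k j (hj ▸ h2), mem_range.2 ?_⟩⟩⟩, ?_⟩))⟩
      · have := Int.emod_lt_of_pos c hd
        have := Int.emod_nonneg c hd.ne'
        simp only
        omega
      · ext <;> simp [← hi, ← hj, Int.emod_nonneg c hd.ne']
        rw [Int.emod_def]
        linear_combination (-(c / d)) * hb
  · refine ⟨⟨0, b / 2, (c - a * (b / 2)) / 2, 1⟩, mem_union_right _ (mem_image.2
      ⟨⟨a, b % 2, (c - a * (b / 2)) % 2⟩, by simp [abs_le.1 h1]; omega, ?_⟩)⟩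
    ext <;> simp <;> omega

lemma card_R {n : ℕ} (hn : 1 ≤ n) : (#(R n) : ℝ) ≤ 24 * n ^ 2 * (1 + Real.log n) := by
  have h1 : #(R n) ≤ ∑ d ∈ Icc 1 n, (2 * (n / d) + 1) * ((2 * (n / d) + 1) * d) +
      (2 * n ^ 2 + 1) + (2 * n + 1) * (2 * 2) := by
    refine (card_union_le _ _).trans (add_le_add ((card_union_le _ _).trans (add_le_add
      (card_image_le.trans ?_) (card_image_le.trans ?_))) (card_image_le.trans ?_))
    · rw [card_sigma]
      refine sum_le_sum fun d _ => ?_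
      simp only [card_product, Int.card_Icc, card_range]
      rw [show ((n / d : ℕ) + 1 - -(n / d : ℕ) : ℤ).toNat = 2 * (n / d) + 1 by omega]
    · rw [Int.card_Icc, ← Nat.cast_pow]
      omega
    · simp only [card_product, Int.card_Icc, Int.card_Ico]
      rw [show ((n : ℤ) + 1 - -n).toNat = 2 * n + 1 by omega]
      rfl
  have h2 : ∀ d ∈ Icc 1 n, (((2 * (n / d) + 1) * ((2 * (n / d) + 1) * d) : ℕ) : ℝ) ≤
      9 * n ^ 2 * (d : ℝ)⁻¹ := fun d hd => by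
    obtain ⟨d1, d2⟩ := mem_Icc.1 hd
    have e1 : 1 ≤ n / d := Nat.div_pos d2 d1
    have e2 : n / d * d ≤ n := Nat.div_mul_le_self n d
    have e3 : (2 * (n / d) + 1) * d ≤ 3 * n := by nlinarith
    rw [← div_eq_mul_inv, le_div_iff₀ (by exact_mod_cast d1)]
    have e4 : (2 * (n / d) + 1) * ((2 * (n / d) + 1) * d) * d ≤ 9 * n ^ 2 := by
      calc _ = ((2 * (n / d) + 1) * d) ^ 2 := by ring
        _ ≤ (3 * n) ^ 2 := Nat.pow_le_pow_left e3 2
        _ = _ := by ring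
    exact_mod_cast e4
  have h3 := harmonic_le_one_add_log n
  simp only [harmonic_eq_sum_Icc, Rat.cast_sum, Rat.cast_inv, Rat.cast_natCast] at h3
  have h4 := sum_le_sum h2
  rw [← mul_sum, ← Nat.cast_sum] at h4
  have h5 : (1 : ℝ) ≤ n := by exact_mod_cast hn
  have h6 := Real.log_nonneg h5
  have h7 := (Nat.cast_le (α := ℝ)).2 h1
  rw [Nat.cast_add, Nat.cast_add] at h7
  generalize ((∑ d ∈ Icc 1 n, (2 * (n / d) + 1) * ((2 * (n / d) + 1) * d) : ℕ) : ℝ) = t at *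
  push_cast at h7
  nlinarith [mul_le_mul_of_nonneg_left h3 (show (0 : ℝ) ≤ 9 * n ^ 2 by positivity),
    mul_nonneg (sq_nonneg (n : ℝ)) h6]

lemma gcd_sum (K : ℝ) : ∃ n : ℕ, 1 ≤ n ∧
    K * n ^ 2 < #((Ioc 0 n ×ˢ Ioc 0 n).sigma fun p : ℕ × ℕ => range (p.1.gcd p.2)) := by
  classical
  obtain ⟨P, hP⟩ : ∃ P : Finset Nat.Primes, 2 * K < ∑ p ∈ P, (1 / p : ℝ) := by
    by_contra h
    push Not at h
    exact Nat.Primes.not_summable_one_div (summable_of_sum_le (fun _ => by positivity) h)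
  have hd : ∀ p ∈ P, (p : ℕ) ∣ ∏ p ∈ P, (p : ℕ) := fun p hp => dvd_prod_of_mem _ hp
  have hn : 0 < ∏ p ∈ P, (p : ℕ) := prod_pos fun p _ => p.2.pos
  refine ⟨∏ p ∈ P, (p : ℕ), hn, ?_⟩
  generalize ∏ p ∈ P, (p : ℕ) = n at *
  have h1 : ∀ t ∈ Ioc 0 n ×ˢ Ioc 0 n, ∑ p ∈ P, (if (p : ℕ) ∣ t.1 ∧ (p : ℕ) ∣ t.2 then
      (p : ℕ).totient else 0) ≤ t.1.gcd t.2 := fun t ht => by
    rw [← sum_filter, ← sum_image (g := fun p : Nat.Primes => (p : ℕ)) (f := Nat.totient)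
      fun a _ b _ h => Subtype.ext h]
    refine (sum_le_sum_of_subset fun d hd => ?_).trans (Nat.sum_totient _).le
    obtain ⟨p, hp, rfl⟩ := mem_image.1 hd
    exact Nat.mem_divisors.2 ⟨Nat.dvd_gcd (mem_filter.1 hp).2.1 (mem_filter.1 hp).2.2,
      (Nat.gcd_pos_of_pos_left _ (mem_Ioc.1 (mem_product.1 ht).1).1).ne'⟩
  have h2 := sum_le_sum h1
  rw [sum_comm] at h2
  have h3 : ∀ p ∈ P, (n : ℝ) ^ 2 / 2 * (1 / p) ≤ (∑ t ∈ Ioc 0 n ×ˢ Ioc 0 n,
      (if (p : ℕ) ∣ t.1 ∧ (p : ℕ) ∣ t.2 then (p : ℕ).totient else 0) : ℕ) := fun p hp => by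
    rw [← sum_filter, filter_product (fun a => (p : ℕ) ∣ a) (fun a => (p : ℕ) ∣ a), sum_const,
      card_product, Nat.Ioc_filter_dvd_card_eq_div, Nat.totient_prime p.2, smul_eq_mul]
    obtain ⟨m, rfl⟩ := hd p hp
    have p2 : (2 : ℝ) ≤ (p : ℕ) := by exact_mod_cast p.2.two_le
    rw [Nat.mul_div_cancel_left _ p.2.pos, Nat.cast_mul, Nat.cast_mul, Nat.cast_mul,
      Nat.cast_pred p.2.pos, mul_one_div, div_le_iff₀ (by linarith)]
    nlinarith [mul_nonneg (mul_nonneg (sq_nonneg (m : ℝ)) (show (0 : ℝ) ≤ (p : ℕ) by linarith))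
      (sub_nonneg.2 p2)]
  have h4 := sum_le_sum h3
  rw [← mul_sum, ← Nat.cast_sum] at h4
  have h5 := h4.trans (Nat.cast_le.2 h2)
  simp only [card_sigma, card_range]
  have h6 : (0 : ℝ) < n ^ 2 := by positivity
  nlinarith

noncomputable def alpha (n : ℕ) : ℕ := ((fun g : G => MulAction.orbit (MulAut G) g) '' ball n).ncard

lemma sub (n : ℕ) : (fun g : G => MulAction.orbit (MulAut G) g) '' ball n ⊆
    (fun g : G => MulAction.orbit (MulAut G) g) '' R n := by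
  rintro _ ⟨g, hg, rfl⟩
  obtain ⟨u, hu⟩ := rep hg
  exact ⟨_, hu, MulAction.orbit_smul (MulAut.conj u) g⟩

lemma upper {n : ℕ} (hn : 1 ≤ n) : (alpha n : ℝ) ≤ 24 * n ^ 2 * (1 + Real.log n) := by
  refine le_trans (Nat.cast_le.2 ?_) (card_R hn)
  exact (Set.ncard_le_ncard (sub n) ((R n).finite_toSet.image _)).trans
    ((Set.ncard_image_le (R n).finite_toSet).trans (Set.ncard_coe_finset _).le)

lemma lower (K : ℝ) : ∃ n : ℕ, 1 ≤ n ∧ K * n ^ 2 < alpha (3 * n) := by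
  obtain ⟨n, h1, h2⟩ := gcd_sum K
  refine ⟨n, h1, h2.trans_le (Nat.cast_le.2 ?_)⟩
  rw [← Set.ncard_coe_finset]
  refine Set.ncard_le_ncard_of_injOn
    (fun t => MulAction.orbit (MulAut G) (⟨t.1.1, t.1.2, t.2, 1⟩ : G)) (fun t ht => ⟨_, ?_, rfl⟩)
    (fun t ht t' ht' e => ?_) (((R _).finite_toSet.image _).subset (sub _))
  · simp only [coe_sigma, Set.mem_sigma_iff, mem_coe, mem_product, mem_Ioc, mem_range] at ht
    obtain ⟨l, l1, l2⟩ := mem_ball t.1.1 t.1.2 t.2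
    have := Nat.gcd_le_left t.1.2 ht.1.1.1
    exact ⟨l, by omega, l2⟩
  · simp only [coe_sigma, Set.mem_sigma_iff, mem_coe, mem_product, mem_Ioc, mem_range] at ht ht'
    obtain ⟨θ, hθ⟩ := MulAction.orbit_eq_iff.1 e
    obtain ⟨e1, e2, e3⟩ := distinct θ ht'.1.1.1 ht'.1.2.1 ht.1.1.1 ht.1.2.1 ht'.2 ht.2 hθ
    exact Sigma.ext (Prod.ext e1 e2).symm (heq_of_eq e3.symm)

end Pool.Agent.Lib.helper23.AutG
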