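import Mathlib
import Pool.Agent.Lib.helper23.BLDef

set_option autoImplicit false

namespace Pool.Agent.Lib.helper23.BL

/-- Maps into a quotient that lift with norm arbitrarily close to one. -/
def Liftable {A B : Type} [BanachLattice A] [BanachLattice B] (I : ClosedIdeal B)
    (φ : A →L[ℝ] Quo I) : Prop :=
  ∀ ε : ℝ, 0 < ε → ∃ S : A →L[ℝ] B, IsHom S ∧ (∀ a, Quo.mk I (S a) = φ a) ∧ ‖S‖ ≤ 1 + ε

/-- The liftable maps are open among the contractive homomorphisms, for the topology of
pointwise norm convergence. -/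
def LOpen (A : Type) [BanachLattice A] : Prop :=
  ∀ (B : Type) [BanachLattice B] [TopologicalSpace.SeparableSpace B] (I : ClosedIdeal B),
    ∃ U : Set (A → Quo I), IsOpen U ∧
      ∀ φ : A →L[ℝ] Quo I, IsHom φ → ‖φ‖ ≤ 1 → (Liftable I φ ↔ (fun a => φ a) ∈ U)

end Pool.Agent.Lib.helper23.BL
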