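import Mathlib
import Pool.Agent.Lib.helper23.BLD

set_option autoImplicit false

namespace Pool.Agent.Lib.helper23.BL

open scoped ENNReal
open Tm

variable {X Y : Type} [BanachLattice X] [BanachLattice Y]

theorem norm_pos_le {J : ClosedIdeal X} {w : X} (hw : 0 ≤ w) {c ε : ℝ} (h : ‖Quo.mk J w‖ ≤ c)
    (hε : 0 < ε) : ∃ u ∈ J.sub, 0 ≤ u ∧ ‖(w - u)⁺‖ ≤ (1 + ε) * c := by
  obtain ⟨x, h1, h2⟩ := exists_lift_le _ h hε
  refine ⟨|w - x|, J.solid _ ((Quo.mk_eq J).1 h1.symm) _ (abs_abs _).le, abs_nonneg _,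
    le_trans (HasSolidNorm.solid ?_) h2⟩
  rw [abs_of_nonneg (posPart_nonneg _)]
  refine sup_le ?_ (abs_nonneg _)
  have := (le_abs_self (w - x + x)).trans (abs_add_le (w - x) x)
  rw [sub_add_cancel] at this
  exact sub_le_iff_le_add'.2 this

theorem pos_add_le {a b u : X} (ha : 0 ≤ a) (hb : 0 ≤ b) (hu : 0 ≤ u) (h : a ∈ (perp b).sub) :
    (a - u)⁺ + (b - u)⁺ ≤ (a + b - u)⁺ := by
  have := yudin ![a, b, u]
    (add (sup (sub (abs (var 0)) (abs (var 2))) zero) (sup (sub (abs (var 1)) (abs (var 2))) zero))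
    (add (sup (sub (add (abs (var 0)) (abs (var 1))) (abs (var 2))) zero)
      (inf (abs (var 0)) (abs (var 1)))) fun z => by
      simp only [eval_inf, eval_sup, eval_sub, eval_add, eval_var, eval_zero, eval_abs]
      have := abs_nonneg (z 0)
      have := abs_nonneg (z 1)
      have := abs_nonneg (z 2)
      have h1 := le_max_left (|z 0| + |z 1| - |z 2|) 0
      have h2 := le_max_right (|z 0| + |z 1| - |z 2|) 0
      rcases max_cases (|z 0| - |z 2|) 0 with h | h <;> rcases max_cases (|z 1| - |z 2|) 0 with k | k <;>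
        rcases min_cases |z 0| |z 1| with l | l <;> linarith [h.1, h.2, k.1, k.2, l.1, l.2]
  simp only [eval_inf, eval_sup, eval_sub, eval_add, eval_var, eval_zero, eval_abs,
    Matrix.cons_val_zero, Matrix.cons_val_one, Matrix.cons_val] at this
  refine le_trans ?_ (this.trans ?_)
  · rw [abs_of_nonneg ha, abs_of_nonneg hb, abs_of_nonneg hu]
    rfl
  · refine (add_le_of_nonpos_right h).trans ?_
    rw [abs_of_nonneg ha, abs_of_nonneg hb, abs_of_nonneg hu]
    rfl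

theorem exists_path : ∃ ρ : LatNorm EllOne, Projective (Renorm ρ) ∧ (∀ n, 1 ≤ ρ.p (ee n)) ∧
    ∀ n, ρ.p (ee n + ee (n + 1)) ≤ 1 := by
  obtain ⟨ρ, h1, h2⟩ := exists_latNorm {σ : Seminorm ℝ EllOne | (∀ a b, |a| ≤ |b| → σ a ≤ σ b) ∧
    (∀ x, σ x ≤ ‖x‖) ∧ ∀ n, σ (ee n + ee (n + 1)) ≤ 1} (fun σ h => h.1) zero_le_two
    (fun σ h x => (h.2.1 x).trans (le_mul_of_one_le_left (norm_nonneg x) one_le_two))
    (fun x => ⟨pull ((1 / 2 : ℝ) • ContinuousLinearMap.id ℝ _),
      ⟨pull_solid (isHom_id.smul one_half_pos.le), fun y => by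
        rw [pull_apply]
        simp only [ContinuousLinearMap.smul_apply, ContinuousLinearMap.id_apply, norm_smul]
        exact mul_le_of_le_one_left (norm_nonneg _) (by norm_num), fun n => by
        rw [pull_apply]
        simp only [ContinuousLinearMap.smul_apply, ContinuousLinearMap.id_apply, norm_smul]
        have := norm_add_le (ee n) (ee (n + 1))
        rw [norm_ee, norm_ee] at this
        rw [Real.norm_of_nonneg one_half_pos.le]
        linarith⟩, by
        rw [pull_apply]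
        simp only [ContinuousLinearMap.smul_apply, ContinuousLinearMap.id_apply, norm_smul]
        rw [Real.norm_of_nonneg one_half_pos.le]
        linarith⟩)
  have h3 : ∀ n, ρ.p (ee n + ee (n + 1)) ≤ 1 := fun n => h2 _ _ zero_le_one fun σ h => h.2.2 n
  refine ⟨ρ, fun Z _ J T hT ε hε => ?_, fun n => ?_, h3⟩
  swap
  · refine le_trans ?_ (h1 (pull (co n)) ⟨pull_solid (co_hom n), co_le n, fun m => ?_⟩ _)
    · simp [pull_apply, co_ee]
    · rw [pull_apply, map_add, co_ee, co_ee]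
      by_cases h : n = m
      · simp [h]
      · split_ifs <;> simp
  let T' : EllOne →L[ℝ] Quo J := T.comp (Renorm.eqv ρ : _ →L[ℝ] _)
  have hT' : IsHom T' := hT.comp (Renorm.eqv_hom ρ)
  have n1 : ∀ n, ‖T' (ee n + ee (n + 1))‖ ≤ ‖T‖ := fun n =>
    (T.le_opNorm _).trans (mul_le_of_le_one_right (norm_nonneg _) (h3 n))
  obtain ⟨S₀, s1, s2, -⟩ := ellOne_projective Z J T' hT' 1 one_pos
  have w0 : ∀ n, 0 ≤ S₀ (ee n) := fun n => s1.nonneg (ee_nonneg n)
  choose u u1 u2 u3 using fun n => norm_pos_le (J := J) (add_nonneg (w0 n) (w0 (n + 1)))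
    (c := ‖T‖) (by rw [← map_add, s2]; exact n1 n) hε
  let w : ℕ → Z := fun n => (S₀ (ee n) - (u n + u (n - 1)))⁺
  have w1 : ∀ n, w n + w (n + 1) ≤ (S₀ (ee n) + S₀ (ee (n + 1)) - u n)⁺ := fun n =>
    le_trans (add_le_add (posPart_mono (sub_le_sub_left (le_add_of_nonneg_right (u2 _)) _))
      (posPart_mono (sub_le_sub_left (le_add_of_nonneg_left (u2 _)) _)))
      (pos_add_le (w0 _) (w0 _) (u2 n) (s1.perp (ee_perp n.succ_ne_self.symm)))
  have w2 : ∀ n, ‖w n + w (n + 1)‖ ≤ (1 + ε) * ‖T‖ := fun n => le_trans (HasSolidNorm.solid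
    (abs_le_abs_of_nonneg (add_nonneg (posPart_nonneg _) (posPart_nonneg _)) (w1 n))) (u3 n)
  have w3 : ∀ n, |w n| ≤ |S₀ (ee n)| := fun n => abs_le_abs_of_nonneg (posPart_nonneg _)
    (sup_le (sub_le_self _ (add_nonneg (u2 _) (u2 _))) (w0 n))
  obtain ⟨S, t1, t2, t3⟩ := exists_sum w (fun n => posPart_nonneg _) (M := (1 + ε) * ‖T‖)
    (fun n => le_trans (HasSolidNorm.solid (abs_le_abs_of_nonneg (posPart_nonneg _)
      (le_add_of_nonneg_right (posPart_nonneg _)))) (w2 n))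
    (fun n m h => perp_symm ((perp _).solid _ (perp_symm ((perp _).solid _
      (s1.perp (ee_perp h)) _ (w3 n))) _ (w3 m)))
  have e : (Quo.mk J).comp S = T' := ext_ee fun n => by
    rw [ContinuousLinearMap.comp_apply, t2, (mk_hom J).map_pos, map_sub, s2,
      mk_eq_zero.2 (J.sub.add_mem (u1 _) (u1 _)), sub_zero, posPart_eq_self.2
      (hT'.nonneg (ee_nonneg n))]
  refine ⟨S.comp ((Renorm.eqv ρ).symm : _ →L[ℝ] _), t1.comp (Renorm.symm_hom ρ),
    fun x => DFunLike.congr_fun e ((Renorm.eqv ρ).symm x), ?_⟩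
  refine ContinuousLinearMap.opNorm_le_bound _ (by positivity) fun x => ?_
  change ‖S ((Renorm.eqv ρ).symm x)‖ ≤ _ * ρ.p ((Renorm.eqv ρ).symm x)
  generalize (Renorm.eqv ρ).symm x = y
  rcases (show 0 ≤ (1 + ε) * ‖T‖ by positivity).eq_or_lt with h | h
  · rw [← h] at t3 ⊢
    simp [norm_le_zero_iff.1 t3]
  have k : ∀ y, pull (((1 + ε) * ‖T‖)⁻¹ • S) y = ((1 + ε) * ‖T‖)⁻¹ * ‖S y‖ := fun y => by
    rw [pull_apply, ContinuousLinearMap.smul_apply, norm_smul, Real.norm_of_nonneg (by positivity)]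
  rw [← inv_mul_le_iff₀ h, ← k]
  refine h1 _ ⟨pull_solid (t1.smul (by positivity)), fun z => ?_, fun n => ?_⟩ y
  · rw [k, inv_mul_le_iff₀ h]
    exact (S.le_opNorm z).trans (mul_le_mul_of_nonneg_right t3 (norm_nonneg _))
  · rw [k, inv_mul_le_iff₀ h, map_add, t2, t2, mul_one]
    exact w2 n

theorem ellOne_lub (s : Set EllOne) (hs : s.Nonempty) (hb : BddAbove s) : ∃ x, IsLUB s x := by
  obtain ⟨a, ha⟩ := hs
  obtain ⟨b, hb⟩ := hb
  have k : ∀ n, BddAbove (co n '' s) := fun n => ⟨co n b, by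
    rintro _ ⟨y, hy, rfl⟩
    exact (co_hom n).mono (hb hy)⟩
  have k1 : ∀ n, sSup (co n '' s) ≤ co n b := fun n => csSup_le ⟨_, a, ha, rfl⟩ (by
    rintro _ ⟨y, hy, rfl⟩
    exact (co_hom n).mono (hb hy))
  refine ⟨⟨fun n => sSup (co n '' s), (lp.memℓp (|a| + |b|)).mono fun n => ?_⟩,
    fun y hy n => le_csSup (k n) ⟨y, hy, rfl⟩, fun c hc n => csSup_le ⟨_, a, ha, rfl⟩ ?_⟩
  · change |sSup (co n '' s)| ≤ |co n a| + |co n b|
    have := le_csSup (k n) ⟨a, ha, rfl⟩
    have := k1 n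
    rw [abs_le]
    constructor
    · linarith [neg_abs_le (co n a), abs_nonneg (co n b)]
    · linarith [le_abs_self (co n b), abs_nonneg (co n a)]
  · rintro _ ⟨y, hy, rfl⟩
    exact (co_hom n).mono (hc hy)

theorem atom_ee {n : ℕ} {v : EllOne} (h : |v| ≤ ee n) : v = co n v • ee n := ext_co fun m => by
  rw [map_smul, co_ee, smul_eq_mul]
  by_cases k : m = n
  · simp [k]
  · have := (co_hom m).mono h
    rw [co_hom, co_ee, if_neg k] at this
    simp [k, abs_nonpos_iff.1 this]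

end Pool.Agent.Lib.helper23.BL
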