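import Mathlib

set_option autoImplicit false

open Set Filter Topology

namespace Pool.Agent.Lib.helper23.Choq

/-- point-finite precise open refinements in metric spaces -/
theorem ptfin {M ι : Type} [MetricSpace M] (u : ι → Set M) (hu : ∀ i, IsOpen (u i)) :
    ∃ v : ι → Set M, (∀ i, IsOpen (v i)) ∧ (∀ i, v i ⊆ u i) ∧
      (∀ x i, x ∈ u i → ∃ j, x ∈ v j) ∧ ∀ x, {i | x ∈ v i}.Finite := by
  have hW : IsOpen (⋃ i, u i) := isOpen_iUnion hu
  obtain ⟨v, vo, vc, vl, vs⟩ := precise_refinement (X := (⋃ i, u i : Set M))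
    (fun i => Subtype.val ⁻¹' u i) (fun i => (hu i).preimage continuous_subtype_val) (by
      ext x
      simp only [mem_iUnion, mem_preimage, mem_univ, iff_true]
      exact mem_iUnion.1 x.2)
  refine ⟨fun i => Subtype.val '' v i, fun i => hW.isOpenMap_subtype_val _ (vo i), ?_, ?_, ?_⟩
  · rintro i _ ⟨x, hx, rfl⟩
    exact vs i hx
  · intro x i hx
    have : (⟨x, mem_iUnion.2 ⟨i, hx⟩⟩ : (⋃ i, u i : Set M)) ∈ ⋃ i, v i := by
      rw [vc]; trivial
    obtain ⟨j, hj⟩ := mem_iUnion.1 this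
    exact ⟨j, _, hj, rfl⟩
  · intro x
    by_cases hx : x ∈ ⋃ i, u i
    · refine (vl.point_finite ⟨x, hx⟩).subset ?_
      rintro i ⟨y, hy, hyx⟩
      have : y = ⟨x, hx⟩ := Subtype.ext hyx
      subst this
      exact hy
    · refine finite_empty.subset ?_
      rintro i ⟨y, -, hyx⟩
      exact hx (hyx ▸ y.2)

/-- the history of a sequence, latest entry first -/
def hist {X : Type} (y : ℕ → X) : ℕ → List X
  | 0 => []
  | n + 1 => y n :: hist y n

theorem hist_length {X : Type} (y : ℕ → X) (n : ℕ) : (hist y n).length = n := by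
  induction n with
  | zero => rfl
  | succ n ih => simp [hist, ih]

/-- extension of a list by exactly n entries inside a set -/
def Ext {X : Type} (S : List X → Prop) : ℕ → List X → Prop
  | 0, l => S l
  | n + 1, l => ∃ y, S (y :: l) ∧ Ext S n (y :: l)

theorem Ext.anti {X : Type} (S : List X → Prop) : ∀ (n : ℕ) (l : List X), S l →
    Ext S (n + 1) l → Ext S n l := by
  intro n
  induction n with
  | zero => intro l hl _; exact hl
  | succ n ih =>
    rintro l _ ⟨y, hy, h⟩
    exact ⟨y, hy, ih _ hy h⟩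

theorem Ext.anti' {X : Type} (S : List X → Prop) (l : List X) (hl : S l) {m n : ℕ} (h : m ≤ n)
    (hn : Ext S n l) : Ext S m l := by
  induction h with
  | refl => exact hn
  | step _ ih => exact ih (Ext.anti S _ l hl hn)

theorem konig {X : Type} (S : List X → Prop) (hfin : ∀ l, {y | S (y :: l)}.Finite)
    (h0 : ∀ n, Ext S n []) : ∃ y : ℕ → X, ∀ n, S (hist y (n + 1)) := by
  have step : ∀ l, (∀ n, Ext S n l) → ∃ y, S (y :: l) ∧ ∀ n, Ext S n (y :: l) := by
    intro l hl
    by_contra hc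
    push Not at hc
    choose! N hN using hc
    obtain ⟨B, hB⟩ := ((hfin l).image N).bddAbove
    obtain ⟨y, hy, h⟩ := hl (B + 1)
    exact hN y hy (Ext.anti' S _ hy (hB ⟨y, hy, rfl⟩) h)
  choose nx hnx using step
  let L : ℕ → {l : List X // ∀ n, Ext S n l} := fun n =>
    Nat.rec ⟨[], h0⟩ (fun _ p => ⟨nx p.1 p.2 :: p.1, (hnx p.1 p.2).2⟩) n
  have hL : ∀ n, hist (fun n => nx (L n).1 (L n).2) n = (L n).1 := by
    intro n
    induction n with
    | zero => rfl
    | succ n ih =>
      show nx (L n).1 (L n).2 :: hist (fun n => nx (L n).1 (L n).2) n = nx (L n).1 (L n).2 :: (L n).1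
      rw [ih]
  refine ⟨fun n => nx (L n).1 (L n).2, fun n => ?_⟩
  rw [hL]
  exact (hnx (L n).1 (L n).2).1

theorem ext_of_len {X : Type} (S : List X → Prop) (hS : ∀ y l, S (y :: l) → S l) :
    ∀ (n : ℕ) (l : List X), l.length = n → ∀ k, S l → Ext S k l → Ext S (k + n) [] := by
  intro n
  induction n with
  | zero =>
    intro l hl k _ h
    rw [List.length_eq_zero_iff] at hl
    subst hl
    exact h
  | succ n ih =>
    intro l hl k hs h
    obtain ⟨y, l', rfl⟩ := List.exists_cons_of_length_eq_add_one hl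
    have := ih l' (by simpa using hl) (k + 1) (hS _ _ hs) ⟨y, hs, h⟩
    rwa [add_assoc, add_comm 1 n] at this

/-- Choquet's theorem in a convenient form -/
theorem choquet {X M : Type} [MetricSpace M] (e : X → M) (Y : Set X) (O : List X → Set M)
    (hO : ∀ l, IsOpen (O l)) (h0 : ∀ y ∈ Y, e y ∈ O [])
    (h1 : ∀ l, ∀ y ∈ Y, e y ∈ O l → e y ∈ O (y :: l))
    (h2 : ∀ y : ℕ → X, (∀ n, y n ∈ Y ∧ e (y n) ∈ O (hist y n)) →
      ∀ x, Tendsto (fun n => e (y n)) atTop (𝓝 x) → x ∈ e '' Y) :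
    IsGδ (e '' Y) := by
  classical
  have key : ∀ (l : List X) (U : Set M), IsOpen U → ∃ v : X → Set M, (∀ i, IsOpen (v i)) ∧
      (∀ i, v i ⊆ {x | i ∈ Y ∧ e i ∈ U} ∩ (U ∩ O (i :: l) ∩
        Metric.ball (e i) (1 / ((l.length : ℝ) + 1)))) ∧
      (∀ x i, x ∈ {x | i ∈ Y ∧ e i ∈ U} ∩ (U ∩ O (i :: l) ∩
        Metric.ball (e i) (1 / ((l.length : ℝ) + 1))) → ∃ j, x ∈ v j) ∧
      ∀ x, {i | x ∈ v i}.Finite := by
    intro l U hU
    refine ptfin _ (fun i => IsOpen.inter ?_ ((hU.inter (hO _)).inter Metric.isOpen_ball))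
    exact isOpen_const
  choose R Ro Rs Rc Rf using key
  let U : List X → {U : Set M // IsOpen U} := fun l =>
    List.rec ⟨O [], hO []⟩ (fun y l p => ⟨R l p.1 p.2 y, Ro l p.1 p.2 y⟩) l
  have U0 : (U []).1 = O [] := rfl
  have U1 : ∀ y l, (U (y :: l)).1 = R l (U l).1 (U l).2 y := fun _ _ => rfl
  have UO : ∀ l, (U l).1 ⊆ O l := by
    intro l
    cases l with
    | nil => exact U0.subset
    | cons y l => exact fun x hx => (Rs l (U l).1 (U l).2 y hx).2.1.2
  have heq : e '' Y = ⋂ n : ℕ, ⋃ l ∈ {l : List X | l.length = n}, (U l).1 := by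
    apply Subset.antisymm
    · rintro _ ⟨y, hy, rfl⟩
      refine mem_iInter.2 fun n => ?_
      induction n with
      | zero => exact mem_biUnion (x := []) rfl (h0 y hy)
      | succ n ih =>
        obtain ⟨l, hl, hx⟩ := mem_iUnion₂.1 ih
        obtain ⟨j, hj⟩ := Rc l (U l).1 (U l).2 (e y) y ⟨⟨hy, hx⟩, ⟨hx, h1 l y hy (UO l hx)⟩,
          Metric.mem_ball_self (by positivity)⟩
        refine mem_biUnion (x := j :: l) ?_ hj
        show (j :: l).length = n + 1
        rw [List.length_cons, hl]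
    · intro x hx
      have hS : ∀ y l, x ∈ (U (y :: l)).1 → x ∈ (U l).1 := fun y l h =>
        (Rs l (U l).1 (U l).2 y h).2.1.1
      obtain ⟨y, hy⟩ := konig (fun l => x ∈ (U l).1) (fun l => Rf l (U l).1 (U l).2 x) (by
        intro n
        obtain ⟨l, hl, hxl⟩ := mem_iUnion₂.1 (mem_iInter.1 hx n)
        have := ext_of_len (fun l => x ∈ (U l).1) hS n l hl 0 hxl hxl
        rwa [zero_add] at this)
      have hy' := fun n => Rs (hist y n) (U (hist y n)).1 (U (hist y n)).2 (y n) (hy n)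
      refine h2 y (fun n => ⟨(hy' n).1.1, UO _ (hy' n).1.2⟩) x ?_
      rw [tendsto_iff_dist_tendsto_zero]
      refine squeeze_zero (fun _ => dist_nonneg) (fun n => ?_) tendsto_one_div_add_atTop_nhds_zero_nat
      have := (hy' n).2.2
      rw [Metric.mem_ball, hist_length, dist_comm] at this
      exact this.le
  rw [heq]
  exact IsGδ.iInter_of_isOpen fun n => isOpen_biUnion fun l _ => (U l).2

/-- a locally G-delta set is G-delta -/
theorem locG {M : Type} [MetricSpace M] (S : Set M) :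
    IsGδ (S ∩ ⋃₀ {V | IsOpen V ∧ IsGδ (S ∩ V)}) := by
  obtain ⟨v, vo, vs, vc, vf⟩ := ptfin (fun V : {V : Set M // IsOpen V ∧ IsGδ (S ∩ V)} => V.1)
    (fun V => V.2.1)
  choose T To Te using fun V : {V : Set M // IsOpen V ∧ IsGδ (S ∩ V)} => V.2.2.eq_iInter_nat
  have heq : S ∩ ⋃₀ {V | IsOpen V ∧ IsGδ (S ∩ V)} =
      ⋂ n : ℕ, ⋃ V, (v V ∩ ⋂ k ∈ Finset.range (n + 1), T V k) := by
    apply Subset.antisymm
    · rintro x ⟨hx, V, hV, hxV⟩
      obtain ⟨W, hW⟩ := vc x ⟨V, hV⟩ hxV
      have : x ∈ ⋂ k, T W k := by rw [← Te W]; exact ⟨hx, vs W hW⟩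
      exact mem_iInter.2 fun n => mem_iUnion.2 ⟨W, hW, mem_iInter₂.2 fun k _ => mem_iInter.1 this k⟩
    · intro x hx
      by_contra hc
      have hn : ∀ V, x ∈ v V → ∃ k, x ∉ T V k := by
        intro V hV
        by_contra hk
        push Not at hk
        have : x ∈ S ∩ V.1 := by rw [Te V]; exact mem_iInter.2 hk
        exact hc ⟨this.1, V.1, V.2, this.2⟩
      choose! N hN using hn
      obtain ⟨B, hB⟩ := ((vf x).image N).bddAbove
      obtain ⟨V, hV, hT⟩ := mem_iUnion.1 (mem_iInter.1 hx B)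
      exact hN V hV (mem_iInter₂.1 hT (N V)
        (Finset.mem_range.2 (Nat.lt_succ_of_le (hB ⟨V, hV, rfl⟩))))
  rw [heq]
  exact IsGδ.iInter_of_isOpen fun n => isOpen_iUnion fun V => (vo V).inter
    (isOpen_biInter_finset fun k _ => To V k)

/-- G-delta subspaces of complete metric spaces are completely metrizable -/
theorem complete_of_G {X M : Type} [TopologicalSpace X] [MetricSpace M] [CompleteSpace M]
    (e : X → M) (he : IsEmbedding e) (hG : IsGδ (range e)) :
    TopologicalSpace.IsCompletelyMetrizableSpace X := by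
  obtain ⟨T, To, Te⟩ := hG.eq_iInter_nat
  have hT : ∀ n x, e x ∈ T n := fun n x => by
    have : e x ∈ ⋂ n, T n := by rw [← Te]; exact mem_range_self x
    exact mem_iInter.1 this n
  haveI : ∀ n, TopologicalSpace.IsCompletelyMetrizableSpace (T n) := fun n =>
    inferInstanceAs (TopologicalSpace.IsCompletelyMetrizableSpace
      (TopologicalSpace.Opens.CompleteCopy (⟨T n, To n⟩ : TopologicalSpace.Opens M)))
  let f : X → M × (∀ n, T n) := fun x => (e x, fun n => ⟨e x, hT n x⟩)
  have hf : Continuous f := he.continuous.prodMk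
    (continuous_pi fun n => he.continuous.subtype_mk _)
  have hemb : IsEmbedding f := IsEmbedding.of_comp hf continuous_fst he
  have hr : range f = ⋂ n, {p : M × (∀ n, T n) | (p.2 n).1 = p.1} := by
    apply Subset.antisymm
    · rintro _ ⟨x, rfl⟩
      exact mem_iInter.2 fun n => rfl
    · intro p hp
      have hp' : ∀ n, (p.2 n).1 = p.1 := fun n => by
        have := mem_iInter.1 hp n
        exact this
      have : p.1 ∈ range e := by
        rw [Te]; exact mem_iInter.2 fun n => hp' n ▸ (p.2 n).2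
      obtain ⟨x, hx⟩ := this
      refine ⟨x, Prod.ext hx (funext fun n => Subtype.ext ?_)⟩
      exact hx.trans (hp' n).symm
  have hc : IsClosed (range f) := by
    rw [hr]
    exact isClosed_iInter fun n => isClosed_eq
      (continuous_subtype_val.comp ((continuous_apply n).comp continuous_snd)) continuous_fst
  exact (IsClosedEmbedding.mk hemb hc).IsCompletelyMetrizableSpace

/-- maximal separated subsets -/
theorem maxsep {X : Type} [MetricSpace X] (S : Set X) (ε : ℝ) (hε : 0 < ε) :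
    ∃ T ⊆ S, (∀ a ∈ T, ∀ b ∈ T, dist a b < ε → a = b) ∧ ∀ x ∈ S, ∃ a ∈ T, dist a x < ε := by
  obtain ⟨T, hT⟩ := zorn_subset {T | T ⊆ S ∧ ∀ a ∈ T, ∀ b ∈ T, dist a b < ε → a = b} (by
    intro c hc hch
    refine ⟨⋃₀ c, ⟨sUnion_subset fun t ht => (hc ht).1, ?_⟩, fun s hs => subset_sUnion_of_mem hs⟩
    rintro a ⟨s, hs, ha⟩ b ⟨t, ht, hb⟩ hab
    rcases hch.total hs ht with h | h
    · exact (hc ht).2 a (h ha) b hb hab
    · exact (hc hs).2 a ha b (h hb) hab)
  refine ⟨T, hT.prop.1, hT.prop.2, fun x hx => ?_⟩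
  by_contra hcon
  push Not at hcon
  have hm : insert x T ∈ {T | T ⊆ S ∧ ∀ a ∈ T, ∀ b ∈ T, dist a b < ε → a = b} := by
    refine ⟨insert_subset hx hT.prop.1, ?_⟩
    rintro a (rfl | ha) b (rfl | hb) hab
    · rfl
    · rw [dist_comm] at hab
      exact absurd hab (not_lt.2 (hcon b hb))
    · exact absurd hab (not_lt.2 (hcon a ha))
    · exact hT.prop.2 a ha b hb hab
  have : x ∈ T := hT.le_of_ge hm (subset_insert x T) (mem_insert x T)
  have h2 := hcon x this
  rw [dist_self] at h2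
  exact absurd hε (not_lt.2 h2)

theorem sep_discr {X : Type} [MetricSpace X] (T : Set X) (ε : ℝ) (hε : 0 < ε)
    (hT : ∀ a ∈ T, ∀ b ∈ T, dist a b < ε → a = b) (x : X) : Tᶜ ∈ 𝓝[≠] x := by
  have : ∃ r > 0, ∀ w ∈ T, dist w x < r → w = x := by
    by_cases h : ∃ w0 ∈ T, w0 ≠ x ∧ dist w0 x < ε / 2
    · obtain ⟨w0, h0, hne, hd⟩ := h
      refine ⟨dist w0 x, dist_pos.2 hne, fun w hw hwx => ?_⟩
      have : w = w0 := hT w hw w0 h0 (by
        have := dist_triangle_right w w0 x
        linarith)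
      subst this
      exact absurd hwx (lt_irrefl _)
    · push Not at h
      refine ⟨ε / 2, half_pos hε, fun w hw hwx => ?_⟩
      by_contra hne
      exact absurd hwx (not_lt.2 (h w hw hne))
  obtain ⟨r, hr, h⟩ := this
  rw [mem_nhdsWithin]
  exact ⟨Metric.ball x r, Metric.isOpen_ball, Metric.mem_ball_self hr,
    fun w hw hwT => hw.2 (h w hwT hw.1)⟩

open Cardinal in
/-- a large closed discrete set far away from a small ball -/
theorem discr {X : Type} [MetricSpace X] (Z : Set X) (hZ : IsClosed Z) (hne : Z.Nonempty)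
    (hnc : ∀ z ∈ Z, ∀ r > 0, ¬ IsCompact (Z ∩ Metric.closedBall z r)) :
    ∃ z ∈ Z, ∃ s > 0, ∃ (D : Set X) (φ : X → X), (∀ x, Dᶜ ∈ 𝓝[≠] x) ∧
      (∀ w ∈ D, 2 * s ≤ dist w z) ∧ (∀ w, dist (φ w) z ≤ s) ∧
      ∀ y ∈ Z ∩ Metric.ball z s, ∀ ε > 0, ∃ w ∈ D, dist (φ w) y < ε := by
  classical
  let K : Set Cardinal := {c | ∃ z ∈ Z, ∃ r > 0, ∃ T : Set X, #T = c ∧
    Z ∩ Metric.ball z r ⊆ closure T}
  have hK : K.Nonempty := by
    obtain ⟨z, hz⟩ := hne
    exact ⟨_, z, hz, 1, one_pos, univ, rfl, by simp⟩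
  obtain ⟨κ, ⟨z, hz, r, hr, T, hT, hTd⟩, hmin⟩ := wellFounded_lt.has_min K hK
  have hmin' : ∀ z ∈ Z, ∀ r > 0, ∀ T : Set X, Z ∩ Metric.ball z r ⊆ closure T → κ ≤ #T :=
    fun z hz r hr T h => not_lt.1 (hmin _ ⟨z, hz, r, hr, T, rfl, h⟩)
  have h1 := hnc z hz r hr
  rw [isCompact_iff_isSeqCompact] at h1
  unfold IsSeqCompact at h1
  push Not at h1
  obtain ⟨p0, hp0, hp0c⟩ := h1
  have hcl0 : ∀ x, ¬ MapClusterPt x atTop p0 := by
    intro x hx
    obtain ⟨ψ, hψ, ht⟩ := hx.tendsto_subseq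
    refine hp0c x ?_ ψ hψ ht
    exact (hZ.inter Metric.isClosed_closedBall).mem_of_tendsto ht
      (Eventually.of_forall fun n => hp0 _)
  have hcl1 : ∀ x, ∃ s > 0, ∃ N, ∀ n ≥ N, s ≤ dist (p0 n) x := by
    intro x
    have := hcl0 x
    rw [mapClusterPt_iff_frequently] at this
    push Not at this
    obtain ⟨V, hV, h⟩ := this
    obtain ⟨s, hs, hsV⟩ := Metric.mem_nhds_iff.1 hV
    obtain ⟨N, hN⟩ := eventually_atTop.1 h
    exact ⟨s, hs, N, fun n hn => not_lt.1 fun hlt => hN n hn (hsV hlt)⟩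
  obtain ⟨s0, hs0, N0, hN0⟩ := hcl1 z
  let s : ℝ := min (s0 / 3) r
  have hs : 0 < s := lt_min (by positivity) hr
  have hss0 : s ≤ s0 / 3 := min_le_left _ _
  have hsr : s ≤ r := min_le_right _ _
  let p : ℕ → X := fun n => p0 (n + N0)
  have hpZ : ∀ n, p n ∈ Z := fun n => (hp0 _).1
  have hpz : ∀ n, 3 * s ≤ dist (p n) z := fun n => by
    have := hN0 (n + N0) (Nat.le_add_left _ _)
    show 3 * s ≤ dist (p0 (n + N0)) z
    linarith
  have hcl : ∀ x, ∃ s > 0, ∃ N, ∀ n ≥ N, s ≤ dist (p n) x := by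
    intro x
    obtain ⟨t, ht, N, hN⟩ := hcl1 x
    exact ⟨t, ht, N, fun n hn => hN _ (le_add_right hn)⟩
  have hinf : (range p).Infinite := by
    intro hfin
    obtain ⟨a, -, ψ, hψ, ht⟩ := hfin.isCompact.tendsto_subseq (x := p) fun n => mem_range_self n
    obtain ⟨t, ht0, N, hN⟩ := hcl a
    obtain ⟨N', hN'⟩ := Metric.tendsto_atTop.1 ht t ht0
    have h1 := hN' (max N N') (le_max_right _ _)
    have h2 := hN (ψ (max N N')) ((le_max_left _ _).trans (hψ.id_le _))
    exact absurd h1 (not_lt.2 h2)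
  let δ : ℕ → ℝ := fun n => min s (1 / ((n : ℝ) + 1))
  have hδ : ∀ n, 0 < δ n := fun n => lt_min hs (by positivity)
  choose M Ms Msep Md using fun (n k : ℕ) => maxsep (Z ∩ Metric.ball (p n) (δ n))
    (1 / ((k : ℝ) + 1)) (by positivity)
  have hM : ∀ n, κ ≤ #(⋃ k, M n k) := by
    intro n
    refine hmin' (p n) (hpZ n) (δ n) (hδ n) _ fun x hx => ?_
    rw [Metric.mem_closure_iff]
    intro ε hε
    obtain ⟨k, hk⟩ := exists_nat_one_div_lt hε
    obtain ⟨a, ha, hax⟩ := Md n k x hx
    exact ⟨a, mem_iUnion.2 ⟨k, ha⟩, by rw [dist_comm]; exact hax.trans hk⟩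
  have hM' : ∀ n (c : Cardinal), ℵ₀ ≤ c → (∀ k, #(M n k) ≤ c) → κ ≤ c := by
    intro n c hc h
    refine (hM n).trans ((Cardinal.mk_iUnion_le_sum_mk).trans ?_)
    refine (Cardinal.sum_le_sum _ (fun _ : ℕ => c) h).trans ?_
    rw [Cardinal.sum_const', Cardinal.mk_nat, Cardinal.aleph0_mul_eq hc]
  have hk : ∃ k : ℕ → ℕ, κ ≤ #(⋃ n, insert (p n) (M n (k n)) : Set X) := by
    have hal : ∀ k : ℕ → ℕ, ℵ₀ ≤ #(⋃ n, insert (p n) (M n (k n)) : Set X) := by
      intro k
      refine Cardinal.infinite_iff.1 (infinite_coe_iff.2 (hinf.mono ?_))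
      rintro _ ⟨n, rfl⟩
      exact mem_iUnion.2 ⟨n, mem_insert _ _⟩
    have hle : ∀ (k : ℕ → ℕ) n, #(M n (k n)) ≤ #(⋃ n, insert (p n) (M n (k n)) : Set X) :=
      fun k n => Cardinal.mk_le_mk_of_subset fun x hx =>
        mem_iUnion.2 ⟨n, mem_insert_of_mem _ hx⟩
    by_cases hA : κ ≤ ℵ₀
    · exact ⟨fun _ => 0, hA.trans (hal _)⟩
    by_cases hB : ∃ k, κ ≤ #(M 0 k)
    · obtain ⟨k, hk⟩ := hB
      exact ⟨fun _ => k, hk.trans (hle (fun _ => k) 0)⟩
    push Not at hA hB
    have : ∀ n, ∃ k, #(M 0 n) ≤ #(M n k) := by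
      intro n
      by_contra hcon
      push Not at hcon
      have := hM' n (max ℵ₀ #(M 0 n)) (le_max_left _ _) fun k => (hcon k).le.trans (le_max_right _ _)
      exact absurd this (not_le.2 (max_lt hA (hB n)))
    choose k hk using this
    exact ⟨k, hM' 0 _ (hal k) fun n => (hk n).trans (hle k n)⟩
  obtain ⟨k, hk⟩ := hk
  set D : Set X := ⋃ n, insert (p n) (M n (k n)) with hD
  have hDp : ∀ n, ∀ w ∈ insert (p n) (M n (k n)), dist w (p n) < δ n := by
    rintro n w (rfl | hw)
    · rw [dist_self]; exact hδ n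
    · exact (Ms n (k n) hw).2
  have hcard : #(T ∩ Metric.ball z s : Set X) ≤ #D :=
    (Cardinal.mk_le_mk_of_subset inter_subset_left).trans (hT ▸ hk)
  obtain ⟨j⟩ := (Cardinal.le_def _ _).1 hcard
  refine ⟨z, hz, s, hs, D, fun w => if h : ∃ t, (j t).1 = w then h.choose.1 else z, ?_, ?_, ?_, ?_⟩
  · intro x
    obtain ⟨t, ht, N, hN⟩ := hcl x
    obtain ⟨N', hN'⟩ := exists_nat_one_div_lt (half_pos ht)
    have h1 : (⋂ n ∈ Finset.range (max N N'), (insert (p n) (M n (k n)))ᶜ) ∈ 𝓝[≠] x := by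
      rw [biInter_finset_mem]
      intro n _
      rw [insert_eq, compl_union]
      refine inter_mem (sep_discr _ 1 one_pos ?_ x) (sep_discr _ _ (by positivity) (Msep n (k n)) x)
      rintro a rfl b rfl _
      rfl
    filter_upwards [h1, mem_nhdsWithin_of_mem_nhds (Metric.ball_mem_nhds x (half_pos ht))]
      with w hw1 hw2 hwD
    obtain ⟨n, hn⟩ := mem_iUnion.1 hwD
    by_cases hlt : n < max N N'
    · exact mem_iInter₂.1 hw1 n (Finset.mem_range.2 hlt) hn
    · push Not at hlt
      have a1 := hN n ((le_max_left _ _).trans hlt)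
      have a2 := hDp n w hn
      have a3 : δ n ≤ 1 / ((n : ℝ) + 1) := min_le_right _ _
      have a4 : 1 / ((n : ℝ) + 1) ≤ 1 / ((N' : ℝ) + 1) :=
        Nat.one_div_le_one_div ((le_max_right _ _).trans hlt)
      have a5 := dist_triangle_left (p n) x w
      rw [Metric.mem_ball] at hw2
      linarith
  · intro w hw
    obtain ⟨n, hn⟩ := mem_iUnion.1 hw
    have a1 := hpz n
    have a2 := hDp n w hn
    have a3 : δ n ≤ s := min_le_left _ _
    have a4 := dist_triangle_left (p n) z w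
    linarith
  · intro w
    dsimp only
    split_ifs with h
    · exact (Metric.mem_ball.1 h.choose.2.2).le
    · rw [dist_self]; exact hs.le
  · intro y hy ε hε
    have h1 : y ∈ closure T := hTd ⟨hy.1, Metric.ball_subset_ball hsr hy.2⟩
    have h2 : y ∈ closure (Metric.ball z s ∩ T) := Metric.isOpen_ball.inter_closure ⟨hy.2, h1⟩
    obtain ⟨t, ht, hyt⟩ := Metric.mem_closure_iff.1 h2 ε hε
    refine ⟨(j ⟨t, ht.2, ht.1⟩).1, (j ⟨t, ht.2, ht.1⟩).2, ?_⟩
    have h : ∃ t', (j t').1 = (j ⟨t, ht.2, ht.1⟩).1 := ⟨_, rfl⟩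
    dsimp only
    rw [dif_pos h]
    have : h.choose = ⟨t, ht.2, ht.1⟩ := j.injective (Subtype.ext h.choose_spec)
    rw [this, dist_comm]
    exact hyt

theorem supmetric {X ι : Type} [t : MetricSpace X] (F : ι → X → ℝ)
    (hb : ∀ i x, 0 ≤ F i x ∧ F i x ≤ 2)
    (heq : ∀ x, ∀ ε > 0, ∃ δ > 0, ∀ x', dist x' x < δ → ∀ i, |F i x' - F i x| ≤ ε)
    (hsep : ∀ x, ∀ ε > 0, ∃ δ > 0, ∀ x', (∀ i, |F i x' - F i x| < δ) → dist x' x < ε) :
    ∃ m : MetricSpace X, m.toUniformSpace.toTopologicalSpace = t.toUniformSpace.toTopologicalSpace ∧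
      (∀ x x' i, |F i x - F i x'| ≤ m.dist x x') ∧
      ∀ x x' c, 0 ≤ c → (∀ i, |F i x - F i x'| ≤ c) → m.dist x x' ≤ c := by
  letI : TopologicalSpace ι := ⊥
  haveI : DiscreteTopology ι := ⟨rfl⟩
  let E : X → BoundedContinuousFunction ι ℝ := fun x =>
    BoundedContinuousFunction.mkOfDiscrete (fun i => F i x) 2 (fun i j => by
      rw [Real.dist_eq, abs_le]
      have := hb i x
      have := hb j x
      constructor <;> linarith)
  have h1 : ∀ x x' i, |F i x - F i x'| ≤ dist (E x) (E x') := fun x x' i => by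
    have := BoundedContinuousFunction.dist_coe_le_dist (f := E x) (g := E x') i
    rw [Real.dist_eq] at this
    exact this
  have h2 : ∀ x x' c, 0 ≤ c → (∀ i, |F i x - F i x'| ≤ c) → dist (E x) (E x') ≤ c :=
    fun x x' c hc h => (BoundedContinuousFunction.dist_le hc).2 fun i => by
      rw [Real.dist_eq]; exact h i
  have hind : IsInducing E := by
    rw [isInducing_iff_nhds]
    intro x
    apply le_antisymm
    · rw [← tendsto_iff_comap, Metric.tendsto_nhds_nhds]
      intro ε hε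
      obtain ⟨δ, hδ, h⟩ := heq x (ε / 2) (half_pos hε)
      exact ⟨δ, hδ, fun x' hx' => (h2 _ _ _ (half_pos hε).le (h x' hx')).trans_lt (half_lt_self hε)⟩
    · intro V hV
      obtain ⟨ε, hε, hV'⟩ := Metric.mem_nhds_iff.1 hV
      obtain ⟨δ, hδ, h⟩ := hsep x ε hε
      refine mem_comap.2 ⟨Metric.ball (E x) δ, Metric.ball_mem_nhds _ hδ, fun x' hx' => hV' ?_⟩
      exact h x' fun i => (h1 x' x i).trans_lt hx'
  have hemb : IsEmbedding E := hind.isEmbedding
  exact ⟨hemb.comapMetricSpace E, rfl, h1, h2⟩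

theorem abs_min_le (a b c : ℝ) : |min c a - min c b| ≤ |a - b| := by
  have := abs_min_sub_min_le_max c a c b
  simpa using this

/-- a compatible metric with approximate antipodes -/
theorem antipode {X : Type} [t : MetricSpace X] (z : X) (s : ℝ) (hs : 0 < s) (D : Set X) (φ : X → X)
    (hD : ∀ x, Dᶜ ∈ 𝓝[≠] x) (hfar : ∀ w ∈ D, 2 * s ≤ dist w z) (hφ : ∀ w, dist (φ w) z ≤ s) :
    ∃ m : MetricSpace X, m.toUniformSpace.toTopologicalSpace = t.toUniformSpace.toTopologicalSpace ∧
      ∀ y, t.dist y z ≤ s → (∀ ε > 0, ∃ w ∈ D, t.dist (φ w) y < ε) → ∀ ε > 0, ∃ (w : X) (c : ℝ),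
        c < m.dist w y ∧ ∀ x, c < m.dist w x → t.dist x y < ε := by
  have hr : ∀ x, ∃ r > 0, ∀ w ∈ D, dist w x < r → w = x := by
    intro x
    obtain ⟨V, hV, hxV, h⟩ := mem_nhdsWithin.1 (hD x)
    obtain ⟨r, hr, hrV⟩ := Metric.isOpen_iff.1 hV x hxV
    refine ⟨r, hr, fun w hw hwx => ?_⟩
    by_contra hne
    exact h ⟨hrV hwx, hne⟩ hw
  choose r hr0 hr using hr
  let δ : X → ℝ := fun x => min s (r x / 3)
  have hδ : ∀ x, 0 < δ x := fun x => lt_min hs (by have := hr0 x; positivity)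
  have hδs : ∀ x, δ x ≤ s := fun x => min_le_left _ _
  have hδr : ∀ x, δ x ≤ r x / 3 := fun x => min_le_right _ _
  have hDD : ∀ w ∈ D, ∀ w' ∈ D, w' ≠ w → 3 * δ w ≤ dist w' w := by
    intro w _ w' hw' hne
    have h1 : r w ≤ dist w' w := not_lt.1 fun h => hne (hr w w' hw' h)
    have := hδr w
    linarith
  let g : X → X → ℝ := fun w x => 2 - min 1 (dist (φ w) x)
  let f : X → X → ℝ := fun w x => min (g w x) (2 * dist x w / δ w)
  have g1 : ∀ w x, 1 ≤ g w x := fun w x => by
    have := min_le_left 1 (dist (φ w) x)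
    show 1 ≤ 2 - min 1 (dist (φ w) x)
    linarith
  have g2 : ∀ w x, g w x ≤ 2 := fun w x => by
    have : 0 ≤ min 1 (dist (φ w) x) := le_min zero_le_one dist_nonneg
    show 2 - min 1 (dist (φ w) x) ≤ 2
    linarith
  have gL : ∀ w x x', |g w x' - g w x| ≤ dist x' x := fun w x x' => by
    have h1 := abs_min_le (dist (φ w) x) (dist (φ w) x') 1
    have h2 := abs_dist_sub_le x x' (φ w)
    rw [dist_comm x (φ w), dist_comm x' (φ w), dist_comm x x'] at h2
    have : g w x' - g w x = min 1 (dist (φ w) x) - min 1 (dist (φ w) x') := by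
      simp only [g]; ring
    rw [this]
    exact h1.trans h2
  have f0 : ∀ w x, 0 ≤ f w x := fun w x =>
    le_min (zero_le_one.trans (g1 w x)) (by have := hδ w; positivity)
  have fg : ∀ w x, f w x ≤ g w x := fun w x => min_le_left _ _
  have fg' : ∀ w x, δ w ≤ dist x w → f w x = g w x := fun w x h => by
    refine min_eq_left ((g2 w x).trans ?_)
    rw [le_div_iff₀ (hδ w)]
    linarith
  have fL : ∀ w x x', |f w x' - f w x| ≤ max 1 (2 / δ w) * dist x' x := fun w x x' => by
    refine (abs_min_sub_min_le_max _ _ _ _).trans (max_le ?_ ?_)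
    · exact (gL w x x').trans (le_mul_of_one_le_left dist_nonneg (le_max_left _ _))
    · have h2 := abs_dist_sub_le x' x w
      have h3 : 2 * dist x' w / δ w - 2 * dist x w / δ w = 2 / δ w * (dist x' w - dist x w) := by
        ring
      have h4 : 0 < 2 / δ w := by have := hδ w; positivity
      rw [h3, abs_mul, abs_of_pos h4]
      exact mul_le_mul (le_max_right _ _) h2 (abs_nonneg _) (h4.le.trans (le_max_right _ _))
  let F : X ⊕ D → X → ℝ := Sum.elim (fun u x => min 1 (dist u x)) (fun w x => f w.1 x)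
  have uL : ∀ u x x' : X, |min 1 (dist u x') - min 1 (dist u x)| ≤ dist x' x := fun u x x' => by
    have h1 := abs_min_le (dist u x') (dist u x) 1
    have h2 := abs_dist_sub_le x' x u
    rw [dist_comm x u, dist_comm x' u] at h2
    exact h1.trans h2
  have hex := supmetric F (by
      rintro (u | w) x
      · exact ⟨le_min zero_le_one dist_nonneg, (min_le_left _ _).trans one_le_two⟩
      · exact ⟨f0 _ _, (fg _ _).trans (g2 _ _)⟩) (by
      intro x ε hε
      have hL : ∃ L ≥ (1 : ℝ), ∀ w ∈ D, ∀ x', dist x' x < r x / 3 →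
          |f w x' - f w x| ≤ L * dist x' x := by
        have hfar' : ∀ w, (∀ a, dist a x < r x / 3 → δ w ≤ dist a w) → ∀ x', dist x' x < r x / 3 →
            |f w x' - f w x| ≤ dist x' x := by
          intro w hw x' hx'
          rw [fg' w x' (hw x' hx'), fg' w x (hw x (by rw [dist_self]; have := hr0 x; positivity))]
          exact gL w x x'
        by_cases hex : ∃ w ∈ D, ∃ a, dist a x < r x / 3 ∧ dist a w < δ w
        · obtain ⟨w0, hw0, a0, ha0, ha0'⟩ := hex
          refine ⟨max 1 (2 / δ w0), le_max_left _ _, fun w hw x' hx' => ?_⟩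
          by_cases hww : w = w0
          · subst hww; exact fL w x x'
          · refine (hfar' w (fun a ha => not_lt.1 fun ha' => ?_) x' hx').trans
              (le_mul_of_one_le_left dist_nonneg (le_max_left _ _))
            have b1 := hDD w0 hw0 w hw hww
            have b2 := hDD w hw w0 hw0 (Ne.symm hww)
            have b3 := dist_triangle4 w a x w0
            have b4 := dist_triangle x a0 w0
            rw [dist_comm w0 w] at b2
            rw [dist_comm w a] at b3
            rw [dist_comm x a0] at b4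
            have b5 := dist_triangle_left w x a
            have b6 := dist_triangle_left w0 x a0
            have c1 : w = x := hr x w hw (by linarith)
            have c2 : w0 = x := hr x w0 hw0 (by linarith)
            exact hww (c1.trans c2.symm)
        · push Not at hex
          refine ⟨1, le_rfl, fun w hw x' hx' => ?_⟩
          rw [one_mul]
          exact hfar' w (hex w hw) x' hx'
      obtain ⟨L, hL1, hL⟩ := hL
      have hL0 : 0 < L := zero_lt_one.trans_le hL1
      refine ⟨min (r x / 3) (ε / L), lt_min (by have := hr0 x; positivity) (by positivity),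
        fun x' hx' i => ?_⟩
      have e1 : dist x' x < r x / 3 := hx'.trans_le (min_le_left _ _)
      have e2 : L * dist x' x ≤ ε := by
        have := hx'.trans_le (min_le_right _ _)
        rw [lt_div_iff₀ hL0] at this
        linarith
      rcases i with u | w
      · exact (uL u x x').trans ((le_mul_of_one_le_left dist_nonneg hL1).trans e2)
      · exact (hL w.1 w.2 x' e1).trans e2) (by
      intro x ε hε
      refine ⟨min 1 ε, lt_min one_pos hε, fun x' h => ?_⟩
      have h1 : |min 1 (dist x x') - min 1 (dist x x)| < min 1 ε := h (Sum.inl x)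
      rw [dist_self, min_eq_right zero_le_one, sub_zero,
        abs_of_nonneg (le_min zero_le_one dist_nonneg), dist_comm] at h1
      rcases min_lt_iff.1 (h1.trans_le (min_le_left _ _)) with h2 | h2
      · exact absurd h2 (lt_irrefl _)
      · rw [min_eq_right h2.le] at h1
        exact h1.trans_le (min_le_right _ _))
  suffices fin : ∀ d : X → X → ℝ, (∀ x x' i, |F i x - F i x'| ≤ d x x') →
      (∀ x x' c, 0 ≤ c → (∀ i, |F i x - F i x'| ≤ c) → d x x' ≤ c) →
      ∀ y, dist y z ≤ s → (∀ ε > 0, ∃ w ∈ D, dist (φ w) y < ε) → ∀ ε > 0, ∃ (w : X) (c : ℝ),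
        c < d w y ∧ ∀ x, c < d w x → dist x y < ε by
    obtain ⟨m, hm, m1, m2⟩ := hex
    exact ⟨m, hm, fin m.dist m1 m2⟩
  intro d m1 m2 y hy hd ε hε
  let η : ℝ := min (min s 1) ε
  have hη : 0 < η := lt_min (lt_min hs one_pos) hε
  have η1 : η ≤ s := (min_le_left _ _).trans (min_le_left _ _)
  have η2 : η ≤ 1 := (min_le_left _ _).trans (min_le_right _ _)
  have η3 : η ≤ ε := min_le_right _ _
  obtain ⟨w, hw, hwy⟩ := hd (η / 3) (by positivity)
  have fw : f w w = 0 := by
    show min (g w w) (2 * dist w w / δ w) = 0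
    rw [dist_self, mul_zero, zero_div]
    exact min_eq_right (zero_le_one.trans (g1 _ _))
  refine ⟨w, 2 - η / 2, ?_, fun x hx => ?_⟩
  · refine lt_of_lt_of_le ?_ (m1 w y (Sum.inr ⟨w, hw⟩))
    show 2 - η / 2 < |f w w - f w y|
    have a1 : δ w ≤ dist y w := by
      have := hfar w hw
      have := hδs w
      have := dist_triangle_left w z y
      linarith
    rw [fw, zero_sub, abs_neg, abs_of_nonneg (f0 _ _), fg' w y a1]
    have := min_le_right 1 (dist (φ w) y)
    show 2 - η / 2 < 2 - min 1 (dist (φ w) y)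
    linarith
  · by_contra hcon
    push Not at hcon
    refine absurd hx (not_lt.2 (m2 w x _ (by linarith) ?_))
    rintro (u | w')
    · show |min 1 (dist u w) - min 1 (dist u x)| ≤ 2 - η / 2
      have a1 := min_le_left 1 (dist u w)
      have a2 := min_le_left 1 (dist u x)
      have a3 : 0 ≤ min 1 (dist u w) := le_min zero_le_one dist_nonneg
      have a4 : 0 ≤ min 1 (dist u x) := le_min zero_le_one dist_nonneg
      rw [abs_le]
      constructor <;> linarith
    · show |f w'.1 w - f w'.1 x| ≤ 2 - η / 2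
      by_cases hww : w = w'.1
      · rw [← hww, fw, zero_sub, abs_neg, abs_of_nonneg (f0 _ _)]
        refine (fg _ _).trans ?_
        have a1 : η / 2 ≤ min 1 (dist (φ w) x) := by
          refine le_min (by linarith) ?_
          have := dist_triangle_left x y (φ w)
          linarith
        show 2 - min 1 (dist (φ w) x) ≤ 2 - η / 2
        linarith
      · have a1 : δ w'.1 ≤ dist w w'.1 := by
          have := hDD w'.1 w'.2 w hw hww
          have := hδ w'.1
          linarith
        rw [fg' _ _ a1]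
        have a2 := g1 w'.1 w
        have a3 := f0 w'.1 x
        have a4 := (fg w'.1 x).trans (g2 _ _)
        have a5 : η / 2 ≤ min 1 (dist (φ w'.1) w) := by
          refine le_min (by linarith) ?_
          have := hfar w hw
          have := hφ w'.1
          have := dist_triangle_left w z (φ w'.1)
          linarith
        have a6 : g w'.1 w ≤ 2 - η / 2 := by
          show 2 - min 1 (dist (φ w'.1) w) ≤ 2 - η / 2
          linarith
        rw [abs_le]
        constructor <;> linarith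

end Pool.Agent.Lib.helper23.Choq
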