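import Mathlib

set_option autoImplicit false

namespace Pool.Agent.Lib.helper23

open Set

lemma thin2 {A I : Type*} (S : Set A) (hS : S.Infinite) (u v : A → I) (h : ∀ a ∈ S, u a ≠ v a) :
    ∃ S' ⊆ S, S'.Infinite ∧ ∀ a ∈ S', ∀ b ∈ S', u a ≠ v b := by
  classical
  by_cases h1 : ∃ s, {a | a ∈ S ∧ u a = s}.Infinite
  · obtain ⟨s, hs⟩ := h1
    refine ⟨_, fun a ha => ha.1, hs, fun a ha b hb => ?_⟩
    rw [ha.2, ← hb.2]
    exact h b hb.1
  by_cases h2 : ∃ s, {a | a ∈ S ∧ v a = s}.Infinite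
  · obtain ⟨s, hs⟩ := h2
    refine ⟨_, fun a ha => ha.1, hs, fun a ha b hb => ?_⟩
    rw [hb.2, ← ha.2]
    exact h a ha.1
  push Not at h1 h2
  obtain ⟨f, hf, hr⟩ := exists_seq_of_forall_finset_exists (fun a => a ∈ S)
    (fun a b => a ≠ b ∧ u a ≠ v b ∧ u b ≠ v a) (fun s _ => by
      have hfin : ((s : Set A) ∪ ⋃ a ∈ s, ({b | b ∈ S ∧ u b = v a} ∪ {b | b ∈ S ∧ v b = u a})).Finite :=
        s.finite_toSet.union (s.finite_toSet.biUnion fun a _ => (h1 _).union (h2 _))
      obtain ⟨y, hy, hy'⟩ := hS.exists_notMem_finite hfin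
      refine ⟨y, hy, fun x hx => ⟨?_, ?_, ?_⟩⟩
      · rintro rfl
        exact hy' (Or.inl hx)
      · intro e
        exact hy' (Or.inr (mem_biUnion hx (Or.inr ⟨hy, e.symm⟩)))
      · intro e
        exact hy' (Or.inr (mem_biUnion hx (Or.inl ⟨hy, e⟩))))
  refine ⟨range f, range_subset_iff.2 hf, infinite_range_of_injective fun m n e => ?_, ?_⟩
  · by_contra hne
    rcases lt_or_gt_of_ne hne with l | l
    · exact (hr _ _ l).1 e
    · exact (hr _ _ l).1 e.symm
  · rintro _ ⟨m, rfl⟩ _ ⟨n, rfl⟩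
    rcases lt_trichotomy m n with l | rfl | l
    · exact (hr _ _ l).2.1
    · exact h _ (hf m)
    · exact (hr _ _ l).2.2

lemma thin {A I J : Type*} [Fintype J] (S : Set A) (hS : S.Infinite) (t : A → J → I)
    (h : ∀ a ∈ S, Function.Injective (t a)) :
    ∃ S' ⊆ S, S'.Infinite ∧ ∀ a ∈ S', ∀ b ∈ S', ∀ j j', t a j = t b j' → j = j' := by
  classical
  have : ∀ P : Finset (J × J), ∃ S' ⊆ S, S'.Infinite ∧ ∀ a ∈ S', ∀ b ∈ S', ∀ p ∈ P,
      t a p.1 = t b p.2 → p.1 = p.2 := by
    intro P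
    induction P using Finset.induction_on with
    | empty => exact ⟨S, Subset.rfl, hS, by simp⟩
    | insert p P _ ih =>
      obtain ⟨S1, h1, h2, h3⟩ := ih
      by_cases hp : p.1 = p.2
      · refine ⟨S1, h1, h2, fun a ha b hb q hq => ?_⟩
        rcases Finset.mem_insert.1 hq with rfl | hq
        · exact fun _ => hp
        · exact h3 a ha b hb q hq
      · obtain ⟨S2, k1, k2, k3⟩ := thin2 S1 h2 (fun a => t a p.1) (fun a => t a p.2)
          (fun a ha e => hp (h a (h1 ha) e))
        refine ⟨S2, k1.trans h1, k2, fun a ha b hb q hq => ?_⟩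
        rcases Finset.mem_insert.1 hq with rfl | hq
        · exact fun e => absurd e (k3 a ha b hb)
        · exact h3 a (k1 ha) b (k1 hb) q hq
  obtain ⟨S', h1, h2, h3⟩ := this Finset.univ
  exact ⟨S', h1, h2, fun a ha b hb j j' => h3 a ha b hb (j, j') (Finset.mem_univ _)⟩

/-- closing off: a countable set closed under countably many finitary operations -/
lemma close_off {T Q : Type*} [Countable Q] (A0 : Set T) (h0 : A0.Countable)
    (p : Finset T → Finset T → Q → Set T) (hp : ∀ B S q, (p B S q).Countable) :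
    ∃ A : Set T, A.Countable ∧ A0 ⊆ A ∧
      ∀ (B S : Finset T) (q : Q), (B : Set T) ⊆ A → (S : Set T) ⊆ A → p B S q ⊆ A := by
  classical
  let nx : Set T → Set T := fun A => A ∪ ⋃ B ∈ {B : Finset T | (B : Set T) ⊆ A},
    ⋃ S ∈ {B : Finset T | (B : Set T) ⊆ A}, ⋃ q, p B S q
  have hfs : ∀ A : Set T, A.Countable → {B : Finset T | (B : Set T) ⊆ A}.Countable := by
    intro A hA
    refine countable_of_injective_of_countable_image (f := fun B : Finset T => (B : Set T))
      (fun _ _ _ _ h => Finset.coe_injective h) ((countable_setOf_finite_subset hA).mono ?_)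
    rintro _ ⟨B, hB, rfl⟩
    exact ⟨B.finite_toSet, hB⟩
  let A : ℕ → Set T := fun n => nx^[n] A0
  have hs : ∀ n, A (n + 1) = nx (A n) := fun n => Function.iterate_succ_apply' _ _ _
  have hc : ∀ n, (A n).Countable := by
    intro n
    induction n with
    | zero => exact h0
    | succ n ih =>
      rw [hs]
      exact ih.union ((hfs _ ih).biUnion fun B _ => (hfs _ ih).biUnion fun S _ =>
        countable_iUnion fun q => hp B S q)
  have hm : Monotone A := monotone_nat_of_le_succ fun n => by rw [hs]; exact subset_union_left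
  have hfin : ∀ B : Finset T, (B : Set T) ⊆ ⋃ n, A n → ∃ n, (B : Set T) ⊆ A n := fun B hB =>
    hm.directed_le.exists_mem_subset_of_finset_subset_biUnion hB
  refine ⟨⋃ n, A n, countable_iUnion hc, subset_iUnion A 0, fun B S q hB hS => ?_⟩
  obtain ⟨m, h1⟩ := hfin B hB
  obtain ⟨n, h2⟩ := hfin S hS
  refine Subset.trans ?_ (subset_iUnion A (max m n + 1))
  rw [hs]
  refine Subset.trans ?_ subset_union_right
  intro x hx
  exact mem_biUnion (x := B) (h1.trans (hm (le_max_left _ _)))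
    (mem_biUnion (x := S) (h2.trans (hm (le_max_right _ _))) (mem_iUnion.2 ⟨q, hx⟩))

end Pool.Agent.Lib.helper23
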