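import Mathlib

set_option autoImplicit false

open Set Filter Topology

namespace Pool.Agent.Lib.helper23.DimA

def Dim (Z : Type) [TopologicalSpace Z] (n : ℕ) : Prop :=
  ∀ (ι : Type) [Finite ι] (U : ι → Set Z), (∀ i, IsOpen (U i)) → (⋃ i, U i) = Set.univ →
    ∃ (κ : Type) (_ : Finite κ) (V : κ → Set Z),
      (∀ k, IsOpen (V k)) ∧ (⋃ k, V k) = Set.univ ∧ (∀ k, ∃ i, V k ⊆ U i) ∧
      ∀ x, Nat.card {k // x ∈ V k} ≤ n + 1

def D (G : Type) [TopologicalSpace G] (n : ℕ) : Prop :=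
  ∀ C : Set G, IsCompact C → ∀ (ι : Type) [Finite ι] (O : ι → Set G), (∀ i, IsOpen (O i)) →
    C ⊆ ⋃ i, O i → ∃ P : ι → Set G, (∀ i, IsOpen (P i)) ∧ (∀ i, P i ⊆ O i) ∧ C ⊆ ⋃ i, P i ∧
      ∀ x, Nat.card {i // x ∈ P i} ≤ n + 1

lemma card_le {ι κ : Type} [Finite κ] {p : ι → Prop} {q : κ → Prop} (τ : κ → ι)
    (h : ∀ i, p i → ∃ k, q k ∧ τ k = i) : Nat.card {i // p i} ≤ Nat.card {k // q k} := by
  choose f hf1 hf2 using h
  apply Nat.card_le_card_of_injective (fun i : {i // p i} => (⟨f i.1 i.2, hf1 _ _⟩ : {k // q k}))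
  intro a b hab
  have : f a.1 a.2 = f b.1 b.2 := congrArg Subtype.val hab
  exact Subtype.ext (by rw [← hf2 a.1 a.2, this, hf2])

lemma D_of_inj {G Z : Type} [TopologicalSpace G] [T2Space G] [TopologicalSpace Z] [T2Space Z]
    {n : ℕ} (e : G → Z) (hc : Continuous e) (hi : Function.Injective e) (h : Dim Z n) :
    D G n := by
  intro C hC ι _ O hO hCO
  rcases isEmpty_or_nonempty ι with hι | ⟨⟨i0⟩⟩
  · exact ⟨O, hO, fun _ => subset_rfl, hCO, fun x => by simp⟩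
  obtain ⟨κ, _, V, hV, hVU, hVO, hVn⟩ := h ι (fun i => (e '' (C \ O i))ᶜ)
    (fun i => ((hC.diff (hO i)).image hc).isClosed.isOpen_compl) (by
      refine eq_univ_of_forall fun y => mem_iUnion.2 ?_
      by_cases hy : y ∈ e '' C
      · obtain ⟨c, hc, rfl⟩ := hy
        obtain ⟨i, hi'⟩ := mem_iUnion.1 (hCO hc)
        refine ⟨i, ?_⟩
        rintro ⟨d, hd, hde⟩
        exact hd.2 (hi hde ▸ hi')
      · exact ⟨i0, fun h => hy (image_mono sdiff_subset h)⟩)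
  choose τ hτ using hVO
  refine ⟨fun i => O i ∩ ⋃ k, ⋃ (_ : τ k = i), e ⁻¹' V k, fun i => (hO i).inter
    (isOpen_iUnion fun k => isOpen_iUnion fun _ => (hV k).preimage hc),
    fun i => inter_subset_left, fun c hcC => ?_, fun x => (card_le τ ?_).trans (hVn (e x))⟩
  · obtain ⟨k, hk⟩ := mem_iUnion.1 (hVU ▸ mem_univ (e c))
    refine mem_iUnion.2 ⟨τ k, ?_, mem_iUnion.2 ⟨k, mem_iUnion.2 ⟨rfl, hk⟩⟩⟩
    by_contra h'
    exact hτ k hk ⟨c, ⟨hcC, h'⟩, rfl⟩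
  · rintro i ⟨-, hx⟩
    simp only [mem_iUnion] at hx
    obtain ⟨k, hk, hx⟩ := hx
    exact ⟨k, hx, hk⟩

lemma iter {α τ G : Type} (R : α → α → Prop) (h1 : ∀ a, R a a)
    (h2 : ∀ a b c, R a b → R b c → R a c) (Q : α → G → Prop)
    (hQ : ∀ a b x, R a b → Q a x → Q b x) (C : τ → Set G)
    (step : ∀ t a, ∃ b, R a b ∧ ∀ x ∈ C t, Q b x) (T : Finset τ) (a : α) :
    ∃ b, R a b ∧ ∀ t ∈ T, ∀ x ∈ C t, Q b x := by
  classical
  induction T using Finset.induction_on with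
  | empty => exact ⟨a, h1 a, by simp⟩
  | insert t T _ ih =>
    obtain ⟨b, hb, hb'⟩ := ih
    obtain ⟨c, hc, hc'⟩ := step t b
    refine ⟨c, h2 _ _ _ hb hc, fun u hu x hx => ?_⟩
    rcases Finset.mem_insert.1 hu with rfl | hu
    · exact hc' x hx
    · exact hQ _ _ _ hc (hb' u hu x hx)

variable {G : Type} [TopologicalSpace G] [Group G] [IsTopologicalGroup G]

lemma color (G : Type) [TopologicalSpace G] [Group G] [IsTopologicalGroup G]
    [LocallyCompactSpace G] : ∃ (S : Set G) (T : Finset G) (K L V : G → Set G),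
    (∀ t, IsCompact (K t)) ∧ (∀ t, IsOpen (L t)) ∧ (∀ t, K t ⊆ L t) ∧ (∀ t, V t ∈ 𝓝 (1 : G)) ∧
    (∀ t x, ∃ s0 ∈ S, ∀ u ∈ V t, ∀ s ∈ S, u * x * s⁻¹ ∈ L t → s = s0) ∧
    ∀ x, ∃ t ∈ T, ∃ s ∈ S, x * s⁻¹ ∈ K t := by
  obtain ⟨M, hM, hM1⟩ := exists_compact_mem_nhds (1 : G)
  obtain ⟨S, hS⟩ := zorn_subset {S : Set G | ∀ s ∈ S, ∀ s' ∈ S, s' * s⁻¹ ∈ M → s = s'} (by
    intro c hc hch
    refine ⟨⋃₀ c, ?_, fun s hs => subset_sUnion_of_mem hs⟩
    rintro s ⟨A, hA, hs⟩ s' ⟨B, hB, hs'⟩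
    rcases hch.total hA hB with h | h
    · exact hc hB s (h hs) s' hs'
    · exact hc hA s hs s' (h hs'))
  have hcov : ∀ x, ∃ s ∈ S, x * s⁻¹ ∈ M ∪ M⁻¹ := by
    intro x
    by_contra h
    push Not at h
    have h1 : insert x S ∈ {S : Set G | ∀ s ∈ S, ∀ s' ∈ S, s' * s⁻¹ ∈ M → s = s'} := by
      rintro s (rfl | hs) s' (rfl | hs') h'
      · rfl
      · exact absurd (Or.inr (by simpa using h')) (h s' hs')
      · exact absurd (Or.inl h') (h s hs)
      · exact hS.prop s hs s' hs' h'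
    have h2 : x ∈ S := hS.2 h1 (subset_insert x S) (mem_insert x S)
    exact h x h2 (Or.inl (by simpa using mem_of_mem_nhds hM1))
  have hloc : ∀ t : G, ∃ K L V : Set G, IsCompact K ∧ K ∈ 𝓝 t ∧ IsOpen L ∧ K ⊆ L ∧ V ∈ 𝓝 (1 : G) ∧
      ∀ a ∈ L, ∀ b ∈ L, ∀ u ∈ V, ∀ v ∈ V, b⁻¹ * v * u⁻¹ * a ∈ M := by
    intro t
    have hc : Continuous fun p : (G × G) × (G × G) => p.2.1⁻¹ * p.2.2 * p.1.2⁻¹ * p.1.1 := by
      fun_prop
    have h1 := (hc.continuousAt (x := ((t, 1), (t, 1)))).preimage_mem_nhds (t := M)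
      (by simpa using hM1)
    rw [nhds_prod_eq, Filter.mem_prod_self_iff] at h1
    obtain ⟨W, hW, hWM⟩ := h1
    obtain ⟨L, V, hL, htL, hV, h1V, hLV⟩ := mem_nhds_prod_iff'.1 hW
    obtain ⟨K, hKt, hKL, hK⟩ := local_compact_nhds (hL.mem_nhds htL)
    exact ⟨K, L, V, hK, hKt, hL, hKL, hV.mem_nhds h1V, fun a ha b hb u hu v hv =>
      hWM (mk_mem_prod (hLV (mk_mem_prod ha hu)) (hLV (mk_mem_prod hb hv)))⟩
  choose K L V hK hKt hL hKL hV hLV using hloc
  obtain ⟨T, -, hT⟩ := (hM.union hM.inv).elim_nhds_subcover K (fun t _ => hKt t)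
  refine ⟨S, T, K, L, V, hK, hL, hKL, hV, fun t x => ?_, fun x => ?_⟩
  · by_cases h : ∃ u ∈ V t, ∃ s ∈ S, u * x * s⁻¹ ∈ L t
    · obtain ⟨v, hv, s0, hs0, h0⟩ := h
      refine ⟨s0, hs0, fun u hu s hs h => hS.prop s hs s0 hs0 ?_⟩
      have := hLV t _ h _ h0 u hu v hv
      convert this using 1
      group
    · obtain ⟨s0, hs0, -⟩ := hcov 1
      exact ⟨s0, hs0, fun u hu s hs h' => absurd ⟨u, hu, s, hs, h'⟩ h⟩
  · obtain ⟨s, hs, hx⟩ := hcov x
    have := hT hx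
    simp only [mem_iUnion] at this
    obtain ⟨t, ht, h⟩ := this
    exact ⟨t, ht, s, hs, h⟩

lemma dimG [LocallyCompactSpace G] [T2Space G] {n : ℕ} (hD : D G n) : Dim G n := by
  intro ι _ U hU hUU
  obtain ⟨S, T, K, L, V, hK, hL, hKL, hV, hsep, hcov⟩ := color G
  obtain ⟨b, hb, hb'⟩ := iter (α := {O : ι → Set G // (∀ i, IsOpen (O i)) ∧ ⋃ i, O i = univ})
    (fun a b => ∀ i, b.1 i ⊆ a.1 i) (fun _ _ => subset_rfl)
    (fun _ _ _ h1 h2 i => (h2 i).trans (h1 i)) (fun a x => Nat.card {i // x ∈ a.1 i} ≤ n + 1)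
    (fun a b x h1 h2 => (card_le id fun i hi => ⟨i, h1 i hi, rfl⟩).trans h2)
    (fun t => {x | ∃ s ∈ S, x * s⁻¹ ∈ K t}) (by
      rintro t ⟨O, hO, hOU⟩
      have hP := fun s : G => hD ((fun x => x * s⁻¹) ⁻¹' K t)
        ((Homeomorph.mulRight s⁻¹).isCompact_preimage.2 (hK t)) ι
        (fun i => O i ∩ (fun x => x * s⁻¹) ⁻¹' L t)
        (fun i => (hO i).inter ((hL t).preimage (by fun_prop))) (fun x hx => by
          obtain ⟨i, hi⟩ := mem_iUnion.1 (hOU ▸ mem_univ x)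
          exact mem_iUnion.2 ⟨i, hi, hKL t hx⟩)
      choose P hP1 hP2 hP3 hP4 using hP
      have hZ : IsClosed {x | ∃ s ∈ S, x * s⁻¹ ∈ K t} := by
        rw [← isOpen_compl_iff, isOpen_iff_mem_nhds]
        intro x hx
        obtain ⟨s0, h0, hs0⟩ := hsep t x
        have h1 : {y | y * x⁻¹ ∈ V t} ∈ 𝓝 x :=
          (continuous_mul_const x⁻¹).continuousAt.preimage_mem_nhds (by simpa using hV t)
        have h2 : {y | y * s0⁻¹ ∈ (K t)ᶜ} ∈ 𝓝 x :=
          ((hK t).isClosed.isOpen_compl.preimage (continuous_mul_const s0⁻¹)).mem_nhds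
            fun h => hx ⟨s0, h0, h⟩
        filter_upwards [h1, h2] with y hy1 hy2
        rintro ⟨s, hs, h⟩
        obtain rfl := hs0 _ hy1 s hs (by simpa using hKL t h)
        exact hy2 h
      refine ⟨⟨fun i => (O i \ {x | ∃ s ∈ S, x * s⁻¹ ∈ K t}) ∪ ⋃ s ∈ S, P s i,
        fun i => ((hO i).sdiff hZ).union (isOpen_biUnion fun s _ => hP1 s i), ?_⟩, ?_, ?_⟩
      · refine eq_univ_of_forall fun x => mem_iUnion.2 ?_
        by_cases hx : x ∈ {x | ∃ s ∈ S, x * s⁻¹ ∈ K t}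
        · obtain ⟨s, hs, hx⟩ := hx
          obtain ⟨i, hi⟩ := mem_iUnion.1 (hP3 s hx)
          exact ⟨i, Or.inr (mem_biUnion hs hi)⟩
        · obtain ⟨i, hi⟩ := mem_iUnion.1 (hOU ▸ mem_univ x)
          exact ⟨i, Or.inl ⟨hi, hx⟩⟩
      · intro i
        exact union_subset sdiff_subset
          (iUnion₂_subset fun s _ => (hP2 s i).trans inter_subset_left)
      · rintro x ⟨s, hs, hx⟩
        refine (card_le id fun i hi => ⟨i, ?_, rfl⟩).trans (hP4 s x)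
        rcases hi with hi | hi
        · exact absurd ⟨s, hs, hx⟩ hi.2
        · simp only [mem_iUnion] at hi
          obtain ⟨s', hs', hi⟩ := hi
          obtain ⟨s0, -, hs0⟩ := hsep t x
          have h1 := hs0 1 (mem_of_mem_nhds (hV t)) s hs (by simpa using hKL t hx)
          have h2 := hs0 1 (mem_of_mem_nhds (hV t)) s' hs' (by simpa using (hP2 s' i hi).2)
          rwa [h1, ← h2]) T ⟨U, hU, hUU⟩
  refine ⟨ι, inferInstance, b.1, b.2.1, b.2.2, fun i => ⟨i, hb i⟩, fun x => ?_⟩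
  obtain ⟨t, ht, hx⟩ := hcov x
  exact hb' t ht x hx

def RUC {E : Type} [NormedAddCommGroup E] (f : G → E) : Prop :=
  ∀ ε : ℝ, 0 < ε → ∀ᶠ u in 𝓝 (1 : G), ∀ x, ‖f (u * x) - f x‖ < ε

lemma ruc_cs {q : G → ℝ} (hq : Continuous q) (hs : HasCompactSupport q) : RUC q := by
  letI := IsTopologicalGroup.rightUniformSpace G
  intro ε hε
  have h := (hs.uniformContinuous_of_continuous hq) (Metric.dist_mem_uniformity hε)
  obtain ⟨W, hW, h⟩ := mem_comap.1 (mem_map.1 h)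
  filter_upwards [hW] with u hu x
  have : dist (q x) (q (u * x)) < ε := @h (x, u * x) (by simpa using hu)
  rwa [dist_comm, Real.dist_eq] at this

lemma RUC.cont {E : Type} [NormedAddCommGroup E] {f : G → E} (h : RUC f) : Continuous f := by
  refine continuous_iff_continuousAt.2 fun x => Metric.tendsto_nhds.2 fun ε hε => ?_
  have h1 : Tendsto (fun y => y * x⁻¹) (𝓝 x) (𝓝 1) := by
    simpa using (continuous_mul_const x⁻¹).tendsto x
  filter_upwards [h1.eventually (h ε hε)] with y hy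
  simpa [dist_eq_norm] using hy x

lemma stepF [LocallyCompactSpace G] [T2Space G] {n : ℕ} (hD : D G n) {S K L V : Set G}
    (hK : IsCompact K) (hL : IsOpen L) (hKL : K ⊆ L) (hV : V ∈ 𝓝 (1 : G))
    (hsep : ∀ x, ∃ s0 ∈ S, ∀ u ∈ V, ∀ s ∈ S, u * x * s⁻¹ ∈ L → s = s0)
    {ι : Type} [Fintype ι] (g : ι → G → ℝ) (hg : ∀ i, RUC (g i)) (h0 : ∀ i x, 0 ≤ g i x)
    (h1 : ∀ x, ∑ i, g i x = 1) :
    ∃ g' : ι → G → ℝ, (∀ i, RUC (g' i)) ∧ (∀ i x, 0 ≤ g' i x) ∧ (∀ x, ∑ i, g' i x = 1) ∧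
      (∀ i x, g' i x ≠ 0 → g i x ≠ 0) ∧
      ∀ x, (∃ s ∈ S, x * s⁻¹ ∈ K) → Nat.card {i // g' i x ≠ 0} ≤ n + 1 := by
  classical
  have hne : Nonempty ι := by
    by_contra h
    rw [not_nonempty_iff] at h
    simpa using h1 1
  have hN : (0:ℝ) < Fintype.card ι := by exact_mod_cast Fintype.card_pos
  have hbig : ∀ x, ∃ i, 1 / (Fintype.card ι : ℝ) ≤ g i x := by
    intro x
    by_contra h
    push Not at h
    have := Finset.sum_lt_sum_of_nonempty Finset.univ_nonempty fun i _ => h i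
    rw [h1, Finset.sum_const, Finset.card_univ, nsmul_eq_mul, mul_one_div_cancel hN.ne'] at this
    exact lt_irrefl _ this
  choose τ hτ using hbig
  have hle : ∀ i x, g i x ≤ 1 := fun i x =>
    (Finset.single_le_sum (fun j _ => h0 j x) (Finset.mem_univ i)).trans (h1 x).le
  obtain ⟨W, hWs, hWo, hW1⟩ := mem_nhds_iff.1
    (eventually_all.2 fun i => hg i (1 / Fintype.card ι) (by positivity))
  obtain ⟨F, hF⟩ := hK.elim_finite_subcover (fun t : G => L ∩ (fun y => y * t⁻¹) ⁻¹' W)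
    (fun t => hL.inter (hWo.preimage (by fun_prop)))
    (fun y hy => mem_iUnion.2 ⟨y, hKL hy, by simpa using hW1⟩)
  obtain ⟨P, hP1, hP2, hP3, hP4⟩ := hD K hK F (fun t => L ∩ (fun y => y * t.1⁻¹) ⁻¹' W)
    (fun t => hL.inter (hWo.preimage (by fun_prop))) (by
      intro y hy
      have := hF hy
      simp only [mem_iUnion] at this ⊢
      obtain ⟨t, ht, h⟩ := this
      exact ⟨⟨t, ht⟩, h⟩)
  obtain ⟨q, hq, hqc⟩ := PartitionOfUnity.exists_isSubordinate_of_locallyFinite_t2space hK P hP1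
    (locallyFinite_of_finite P) hP3
  have hqP : ∀ l y, q l y ≠ 0 → y ∈ P l := fun l y h => hq l (subset_tsupport _ h)
  have hq1 : ∀ y, ∑ l, q l y ≤ 1 := fun y => by
    rw [← finsum_eq_sum_of_fintype]; exact q.sum_le_one y
  have hq2 : ∀ y ∈ K, ∑ l, q l y = 1 := fun y hy => by
    rw [← finsum_eq_sum_of_fintype]; exact q.sum_eq_one hy
  set H : G → ι → G → ℝ := fun s i x => (1 - ∑ l, q l (x * s⁻¹)) * g i x +
    ∑ l, if τ (l.1 * s) = i then q l (x * s⁻¹) else 0 with hH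
  have hHL : ∀ s i x, x * s⁻¹ ∉ L → H s i x = g i x := by
    intro s i x hx
    have : ∀ l, q l (x * s⁻¹) = 0 := fun l => by
      by_contra h; exact hx (hP2 l (hqP l _ h)).1
    simp [hH, this]
  set g' : ι → G → ℝ := fun i x =>
    if h : ∃ s ∈ S, x * s⁻¹ ∈ L then H h.choose i x else g i x with hg'
  have key : ∀ x, ∃ s0, ∀ u ∈ V, (∀ s ∈ S, u * x * s⁻¹ ∈ L → s = s0) ∧
      ∀ i, g' i (u * x) = H s0 i (u * x) := by
    intro x
    obtain ⟨s, hs, hs0⟩ := hsep x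
    refine ⟨s, fun u hu => ⟨hs0 u hu, fun i => ?_⟩⟩
    simp only [hg']
    split_ifs with h'
    · rw [hs0 u hu _ h'.choose_spec.1 h'.choose_spec.2]
    · rw [hHL _ _ _ fun h'' => h' ⟨s, hs, h''⟩]
  have hV1 : (1 : G) ∈ V := mem_of_mem_nhds hV
  have key1 : ∀ x, ∃ s0, (∀ s ∈ S, x * s⁻¹ ∈ L → s = s0) ∧ ∀ i, g' i x = H s0 i x := fun x => by
    obtain ⟨s0, h⟩ := key x
    exact ⟨s0, by simpa using h 1 hV1⟩
  have hne0 : ∀ s i x, (∑ l : F, if τ (l.1 * s) = i then q l (x * s⁻¹) else 0) ≠ 0 →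
      ∃ l : F, x * s⁻¹ ∈ P l ∧ τ (l.1 * s) = i := by
    intro s i x h
    obtain ⟨l, -, hl⟩ := Finset.exists_ne_zero_of_sum_ne_zero h
    split_ifs at hl with h'
    · exact ⟨l, hqP l _ hl, h'⟩
    · exact absurd rfl hl
  refine ⟨g', fun i ε hε => ?_, fun i x => ?_, fun x => ?_, fun i x => ?_, ?_⟩
  · set δ := ε / (2 * Fintype.card F + 1) with hδ
    have hδ0 : 0 < δ := by positivity
    have hδ1 : (2 * Fintype.card F + 1) * δ = ε := by rw [hδ]; field_simp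
    filter_upwards [hV, hg i δ hδ0,
      eventually_all.2 fun l => ruc_cs (q l).continuous (hqc l) δ hδ0] with u hu h2 h3 x
    obtain ⟨s, hs⟩ := key x
    have e1 := (hs u hu).2 i
    have e2 := (hs 1 hV1).2 i
    rw [one_mul] at e2
    rw [e1, e2]
    have e3 : H s i (u * x) - H s i x = (1 - ∑ l, q l (x * s⁻¹)) * (g i (u * x) - g i x) +
        ∑ l : F, (q l (u * (x * s⁻¹)) - q l (x * s⁻¹)) *
          ((if τ (l.1 * s) = i then 1 else 0) - g i (u * x)) := by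
      have e0 : ∀ (a b : ℝ) (c : Prop) [Decidable c], (a - b) * ((if c then 1 else 0) -
          g i (u * x)) = (if c then a else 0) - (if c then b else 0) - a * g i (u * x) +
          b * g i (u * x) := by
        intro a b c _; split_ifs <;> ring
      simp only [hH, e0, Finset.sum_sub_distrib, Finset.sum_add_distrib,
        ← Finset.sum_mul, mul_assoc]
      ring
    rw [e3, Real.norm_eq_abs]
    have e4 : |(1 - ∑ l, q l (x * s⁻¹)) * (g i (u * x) - g i x)| < δ := by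
      have := h2 x
      rw [Real.norm_eq_abs] at this
      rw [abs_mul, abs_of_nonneg (sub_nonneg.2 (hq1 _))]
      refine (mul_le_of_le_one_left (abs_nonneg _) ?_).trans_lt this
      linarith [Finset.sum_nonneg fun l (_ : l ∈ Finset.univ) => q.nonneg l (x * s⁻¹)]
    have e5 : |∑ l : F, (q l (u * (x * s⁻¹)) - q l (x * s⁻¹)) *
          ((if τ (l.1 * s) = i then 1 else 0) - g i (u * x))| ≤ Fintype.card F * δ := by
      refine (Finset.abs_sum_le_sum_abs _ _).trans ?_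
      refine (Finset.sum_le_card_nsmul _ _ δ fun l _ => ?_).trans (by simp)
      have := h3 l (x * s⁻¹)
      rw [Real.norm_eq_abs] at this
      rw [abs_mul]
      refine (mul_le_of_le_one_right (abs_nonneg _) ?_).trans this.le
      have := h0 i (u * x); have := hle i (u * x)
      rw [abs_le]; split_ifs <;> constructor <;> linarith
    have : (0:ℝ) ≤ Fintype.card F * δ := by positivity
    linarith [abs_add_le ((1 - ∑ l, q l (x * s⁻¹)) * (g i (u * x) - g i x))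
      (∑ l : F, (q l (u * (x * s⁻¹)) - q l (x * s⁻¹)) *
          ((if τ (l.1 * s) = i then 1 else 0) - g i (u * x)))]
  · obtain ⟨s, -, h⟩ := key1 x
    rw [h]
    refine add_nonneg (mul_nonneg (sub_nonneg.2 (hq1 _)) (h0 i x)) (Finset.sum_nonneg fun l _ => ?_)
    split_ifs
    · exact q.nonneg _ _
    · exact le_rfl
  · obtain ⟨s, -, h⟩ := key1 x
    simp only [h, hH, Finset.sum_add_distrib, ← Finset.mul_sum, h1]
    rw [Finset.sum_comm]
    simp
  · obtain ⟨s, -, h⟩ := key1 x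
    rw [h]
    intro h2 h3
    simp only [hH, h3, mul_zero, zero_add] at h2
    obtain ⟨l, hl, rfl⟩ := hne0 s i x h2
    have h4 := hWs (hP2 l hl).2 (τ (l.1 * s)) (l.1 * s)
    have h5 : x * s⁻¹ * l.1⁻¹ * (l.1 * s) = x := by group
    rw [h5, h3, zero_sub, norm_neg, Real.norm_eq_abs, abs_of_nonneg (h0 _ _)] at h4
    linarith [hτ (l.1 * s)]
  · rintro x ⟨s, hs, hx⟩
    obtain ⟨s0, h2, h⟩ := key1 x
    obtain rfl := h2 s hs (hKL hx)
    refine (card_le (fun l : F => τ (l.1 * s)) fun i hi => ?_).trans (hP4 (x * s⁻¹))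
    rw [h] at hi
    simp only [hH, hq2 _ hx, sub_self, zero_mul, zero_add] at hi
    exact hne0 s i x hi

lemma dimY [LocallyCompactSpace G] [T2Space G] {n : ℕ} (hD : D G n) {Y : Type}
    [TopologicalSpace Y] [CompactSpace Y] [T2Space Y] (e : G → Y) (he : DenseRange e)
    (ha : ∀ f : C(Y, ℝ), RUC (fun x => f (e x)))
    (hb : ∀ g : G → ℝ, RUC g → (∀ x, |g x| ≤ 1) → ∃ f : C(Y, ℝ), ∀ x, f (e x) = g x) :
    Dim Y n := by
  intro ι _ U hU hUU
  haveI := Fintype.ofFinite ι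
  obtain ⟨S, T, K, L, V, hK, hL, hKL, hV, hsep, hcov⟩ := color G
  obtain ⟨f, hf⟩ := PartitionOfUnity.exists_isSubordinate isClosed_univ U hU hUU.ge
  obtain ⟨⟨g, hg, h0, h1⟩, hb1, hb2⟩ := iter
    (α := {g : ι → G → ℝ // (∀ i, RUC (g i)) ∧ (∀ i x, 0 ≤ g i x) ∧ ∀ x, ∑ i, g i x = 1})
    (fun a b => ∀ i x, b.1 i x ≠ 0 → a.1 i x ≠ 0) (fun _ _ _ h => h)
    (fun _ _ _ h1 h2 i x h => h1 i x (h2 i x h))
    (fun a x => Nat.card {i // a.1 i x ≠ 0} ≤ n + 1)
    (fun a b x h1 h2 => (card_le id fun i hi => ⟨i, h1 i x hi, rfl⟩).trans h2)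
    (fun t => {x | ∃ s ∈ S, x * s⁻¹ ∈ K t}) (by
      rintro t ⟨g, hg, h0, h1⟩
      obtain ⟨g', a1, a2, a3, a4, a5⟩ := stepF hD (hK t) (hL t) (hKL t) (hV t) (hsep t) g hg h0 h1
      exact ⟨⟨g', a1, a2, a3⟩, a4, a5⟩) T
    ⟨fun i x => f i (e x), fun i => ha (f i), fun i x => f.nonneg i _, fun x => by
      rw [← finsum_eq_sum_of_fintype]; exact f.sum_eq_one (mem_univ _)⟩
  choose p hp using fun i => hb (g i) (hg i) fun x => by
    rw [abs_of_nonneg (h0 i x)]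
    exact (Finset.single_le_sum (fun j _ => h0 j x) (Finset.mem_univ i)).trans (h1 x).le
  have hpo : ∀ i, IsOpen {y | p i y ≠ 0} := fun i => isOpen_ne_fun (p i).continuous continuous_const
  refine ⟨ι, inferInstance, fun i => {y | p i y ≠ 0}, hpo, ?_, fun i => ⟨i, fun y hy => ?_⟩,
    fun y => ?_⟩
  · refine eq_univ_of_forall fun y => mem_iUnion.2 ?_
    have : ∑ i, p i y = 1 := he.induction_on (p := fun y => ∑ i, p i y = 1) y
      (isClosed_eq (by fun_prop) continuous_const) fun x => by simp only [hp, h1]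
    obtain ⟨i, -, hi⟩ := Finset.exists_ne_zero_of_sum_ne_zero (this.trans_ne one_ne_zero)
    exact ⟨i, hi⟩
  · apply hf i
    refine mem_closure_iff.2 fun o ho hyo => ?_
    obtain ⟨x, hx⟩ := he.exists_mem_open (ho.inter (hpo i)) ⟨y, hyo, hy⟩
    exact ⟨e x, hx.1, hb1 i x (by have := hx.2; rwa [mem_setOf_eq, hp] at this)⟩
  · obtain ⟨x, hx⟩ := he.exists_mem_open (s := ⋂ i : {i // p i y ≠ 0}, {z | p i.1 z ≠ 0})
      (isOpen_iInter_of_finite fun i => hpo i.1) ⟨y, mem_iInter.2 fun i => i.2⟩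
    obtain ⟨t, ht, hxt⟩ := hcov x
    refine (card_le id fun i hi => ⟨i, ?_, rfl⟩).trans (hb2 t ht x hxt)
    have := mem_iInter.1 hx ⟨i, hi⟩
    rwa [mem_setOf_eq, hp] at this

end Pool.Agent.Lib.helper23.DimA
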