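import Mathlib

set_option autoImplicit false

namespace Pool.Agent.Lib.helper23.Ell1

open Set Topology Filter

universe u v

variable {K : Type} [RCLike K] {ι : Type u} [DecidableEq ι] {E : Type v} [NormedAddCommGroup E]
  [NormedSpace K E]

variable (K ι) in
abbrev L1 := lp (fun _ : ι => K) 1

variable (K) in
noncomputable def e (i : ι) : L1 K ι := lp.single 1 i 1

theorem norm_e (i : ι) : ‖e K i‖ = 1 := by simp [e, lp.norm_single]

theorem e_apply (i j : ι) : e K i j = if j = i then 1 else 0 := by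
  simp [e, lp.single_apply, Pi.single_apply]

omit [DecidableEq ι] in
theorem hs (f : L1 K ι) : HasSum (fun i => ‖f i‖) ‖f‖ := by
  simpa using lp.hasSum_norm (p := 1) (by simp) f

theorem hs' (f : L1 K ι) : HasSum (fun i => f i • e K i) f := by
  simpa [e, ← lp.single_smul] using lp.hasSum_single (p := 1) (by simp) f

theorem ext {S T : L1 K ι →L[K] E} (h : ∀ i, S (e K i) = T (e K i)) : S = T :=
  ContinuousLinearMap.ext fun f => (S.hasSum (hs' f)).unique (by
    simpa only [map_smul, h] using T.hasSum (hs' f))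

theorem mem {T : L1 K ι →L[K] E} {W : Submodule K E} (c : IsClosed (W : Set E))
    (h : ∀ i, T (e K i) ∈ W) (f : L1 K ι) : T f ∈ W :=
  c.mem_of_tendsto (T.hasSum (hs' f)) (Eventually.of_forall fun _ =>
    W.sum_mem fun i _ => by rw [map_smul]; exact W.smul_mem _ (h i))

theorem lift [CompleteSpace E] (v : ι → E) (h : ∀ i, ‖v i‖ ≤ 1) : ∃ T : L1 K ι →L[K] E,
    ‖T‖ ≤ 1 ∧ (∀ i, T (e K i) = v i) ∧ ∀ f, T f = ∑' i, f i • v i := by
  have b : ∀ (f : L1 K ι) i, ‖f i • v i‖ ≤ ‖f i‖ := fun f i => by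
    rw [norm_smul]; exact mul_le_of_le_one_right (norm_nonneg _) (h i)
  have s : ∀ f : L1 K ι, Summable fun i => f i • v i := fun f =>
    .of_norm_bounded (hs f).summable (b f)
  let T : L1 K ι →ₗ[K] E :=
    { toFun := fun f => ∑' i, f i • v i
      map_add' := fun f g => by
        simp only [lp.coeFn_add, Pi.add_apply, add_smul]
        exact (s f).tsum_add (s g)
      map_smul' := fun c f => by
        simp only [lp.coeFn_smul, Pi.smul_apply, smul_assoc, RingHom.id_apply]
        exact (s f).tsum_const_smul c }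
  have n : ∀ f, ‖T f‖ ≤ 1 * ‖f‖ := fun f => by
    rw [one_mul]; exact tsum_of_norm_bounded (hs f) (b f)
  refine ⟨T.mkContinuous 1 n, T.mkContinuous_norm_le zero_le_one n, fun i => ?_, fun _ => rfl⟩
  change ∑' j, e K i j • v j = v i
  rw [tsum_eq_single i fun j hj => by simp [e_apply, hj]]
  simp [e_apply]

theorem lift2 [CompleteSpace E] (v : ι → ι → E) (h : ∀ i j, ‖v i j‖ ≤ 1) :
    ∃ T : L1 K ι →L[K] L1 K ι →L[K] E, ‖T‖ ≤ 1 ∧ ∀ i j, T (e K i) (e K j) = v i j := by
  choose S s1 s2 _ using fun i => lift (K := K) (v i) (h i)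
  obtain ⟨T, t1, t2, -⟩ := lift (K := K) S s1
  exact ⟨T, t1, fun i j => by rw [t2, s2]⟩

theorem ext2 {S T : L1 K ι →L[K] L1 K ι →L[K] E}
    (h : ∀ i j, S (e K i) (e K j) = T (e K i) (e K j)) : S = T := ext fun i => ext (h i)

end Pool.Agent.Lib.helper23.Ell1
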