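import Mathlib

set_option autoImplicit false

namespace Pool.Agent.Lib.helper23.EqA

open scoped NNReal

/-- Lipschitz functions vanishing at zero. -/
def IsLip {X : Type} [NormedAddCommGroup X] (f : X → ℝ) : Prop :=
  f 0 = 0 ∧ ∃ L, LipschitzWith L f

/-- Unbundled equivariant projection. -/
structure EP (X : Type) [NormedAddCommGroup X] [NormedSpace ℝ X] where
  Q : (X → ℝ) → (X →L[ℝ] ℝ)
  C : ℝ
  add : ∀ f g, IsLip f → IsLip g → Q (f + g) = Q f + Q g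
  proj : ∀ φ : X →L[ℝ] ℝ, Q φ = φ
  bound : ∀ (f : X → ℝ) (L : ℝ≥0), f 0 = 0 → LipschitzWith L f → ‖Q f‖ ≤ C * L
  eqv : ∀ (g : X ≃ₗᵢ[ℝ] X) (f : X → ℝ), IsLip f → ∀ x, Q (f ∘ g) x = Q f (g x)

variable {X Y : Type} [NormedAddCommGroup X] [NormedSpace ℝ X] [NormedAddCommGroup Y]
  [NormedSpace ℝ Y]

omit [NormedSpace ℝ X] in
theorem IsLip.add {f g : X → ℝ} (hf : IsLip f) (hg : IsLip g) : IsLip (f + g) := by
  obtain ⟨a, _, h⟩ := hf
  obtain ⟨b, _, k⟩ := hg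
  exact ⟨by simp [a, b], _, h.add k⟩

theorem IsLip.comp {f : Y → ℝ} (hf : IsLip f) (e : X ≃ₗᵢ[ℝ] Y) : IsLip (f ∘ e) := by
  obtain ⟨a, L, h⟩ := hf
  exact ⟨by simp [a], _, h.comp e.lipschitz⟩

/-- Transfer along a linear isometric equivalence. -/
noncomputable def EP.transfer (P : EP X) (e : X ≃ₗᵢ[ℝ] Y) : EP Y where
  Q f := (P.Q (f ∘ e)).comp (e.symm.toContinuousLinearEquiv : Y →L[ℝ] X)
  C := P.C
  add f g hf hg := by
    have : (f + g) ∘ e = f ∘ e + g ∘ e := rfl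
    rw [this, P.add _ _ (hf.comp e) (hg.comp e), ContinuousLinearMap.add_comp]
  proj φ := by
    have h := P.proj (φ.comp (e.toContinuousLinearEquiv : X →L[ℝ] Y))
    have h2 : ⇑(φ.comp (e.toContinuousLinearEquiv : X →L[ℝ] Y)) = φ ∘ e := rfl
    rw [h2] at h
    rw [h]
    ext y
    simp
  bound f L h0 hL := by
    have h1 : LipschitzWith L (f ∘ e) := by simpa using hL.comp e.lipschitz
    have h2 := P.bound (f ∘ e) L (by simp [h0]) h1
    refine le_trans (ContinuousLinearMap.opNorm_le_bound _ (norm_nonneg _) fun y => ?_) h2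
    have := (P.Q (f ∘ e)).le_opNorm (e.symm y)
    simpa using this
  eqv g f hf y := by
    have h := P.eqv ((e.trans g).trans e.symm) (f ∘ e) (hf.comp e) (e.symm y)
    have h2 : (f ∘ e) ∘ ((e.trans g).trans e.symm) = (f ∘ g) ∘ e := by
      funext x
      simp
    rw [h2] at h
    simpa using h

theorem EP.zero (P : EP X) : P.Q 0 = 0 := by
  have := P.proj 0
  simpa using this

theorem EP.sum (P : EP X) {ι : Type} (s : Finset ι) (f : ι → X → ℝ) (hf : ∀ i, IsLip (f i)) :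
    IsLip (∑ i ∈ s, f i) ∧ P.Q (∑ i ∈ s, f i) = ∑ i ∈ s, P.Q (f i) := by
  classical
  induction s using Finset.induction_on with
  | empty =>
    simp only [Finset.sum_empty]
    exact ⟨⟨rfl, 0, LipschitzWith.const 0⟩, P.zero⟩
  | insert a s ha ih =>
    rw [Finset.sum_insert ha, Finset.sum_insert ha, P.add _ _ (hf a) ih.1, ih.2]
    exact ⟨(hf a).add ih.1, rfl⟩

/-- A sign flip kills an off-diagonal term. -/
theorem EP.flip (P : EP X) (g : X ≃ₗᵢ[ℝ] X) (f : X → ℝ) (hf : IsLip f) (h : f ∘ g = f)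
    (y : X) (hy : g y = -y) : P.Q f y = 0 := by
  have := P.eqv g f hf y
  rw [h, hy, map_neg] at this
  linarith

theorem rpow_lip {p s t : ℝ} (hp : 1 ≤ p) (hs : 0 ≤ s) (hst : s ≤ t) (ht : t ≤ 1) :
    t ^ p - s ^ p ≤ p * (t - s) := by
  rcases eq_or_lt_of_le (hs.trans hst) with h0 | h0
  · have : s = 0 := le_antisymm (h0 ▸ hst) hs
    rw [← h0, this]
    simp
  have h1 := one_add_mul_self_le_rpow_one_add (s := s / t - 1) (by
    have : 0 ≤ s / t := div_nonneg hs h0.le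
    linarith) hp
  have h2 : 1 + (s / t - 1) = s / t := by ring
  rw [h2, Real.div_rpow hs h0.le] at h1
  have h3 : 0 < t ^ p := Real.rpow_pos_of_pos h0 p
  have h4 : t ^ p ≤ t := by
    have := Real.rpow_le_rpow_of_exponent_ge h0 ht hp
    simpa using this
  rw [le_div_iff₀ h3] at h1
  have h5 : (1 + p * (s / t - 1)) * t ^ p = t ^ p - p * (t - s) * (t ^ p / t) := by
    field_simp
    ring
  have h6 : t ^ p / t ≤ 1 := (div_le_one h0).2 h4
  have h7 : p * (t - s) * (t ^ p / t) ≤ p * (t - s) :=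
    mul_le_of_le_one_right (mul_nonneg (by linarith) (by linarith)) h6
  linarith

theorem abs_rpow_lip {p s t : ℝ} (hp : 1 ≤ p) (hs : 0 ≤ s) (hs1 : s ≤ 1) (ht : 0 ≤ t)
    (ht1 : t ≤ 1) : |s ^ p - t ^ p| ≤ p * |s - t| := by
  rcases le_total s t with h | h
  · have := rpow_lip hp hs h ht1
    have h2 : s ^ p ≤ t ^ p := Real.rpow_le_rpow hs h (by linarith)
    rw [abs_of_nonpos (by linarith), abs_of_nonpos (by linarith)]
    linarith
  · have := rpow_lip hp ht h hs1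
    have h2 : t ^ p ≤ s ^ p := Real.rpow_le_rpow ht h (by linarith)
    rw [abs_of_nonneg (by linarith), abs_of_nonneg (by linarith)]
    linarith

omit [NormedSpace ℝ X] in
/-- The normalised mass of a contraction. -/
theorem mass_lip {p : ℝ} (hp : 1 ≤ p) (r : X → ℝ) (h0 : ∀ x, 0 ≤ r x) (h1 : ∀ x, r x ≤ ‖x‖)
    (h2 : ∀ x y, |r x - r y| ≤ ‖x - y‖) (x y : X) :
    |(r x / ‖x‖) ^ p - (r y / ‖y‖) ^ p| * ‖y‖ ≤ 2 * p * ‖x - y‖ := by
  have hb : ∀ z : X, 0 ≤ r z / ‖z‖ ∧ r z / ‖z‖ ≤ 1 := fun z =>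
    ⟨div_nonneg (h0 z) (norm_nonneg _), div_le_one_of_le₀ (h1 z) (norm_nonneg _)⟩
  have h3 := abs_rpow_lip hp (hb x).1 (hb x).2 (hb y).1 (hb y).2
  have h4 : |r x / ‖x‖ - r y / ‖y‖| * ‖y‖ ≤ 2 * ‖x - y‖ := by
    rcases eq_or_lt_of_le (norm_nonneg y) with hy | hy
    · rw [← hy, mul_zero]
      positivity
    have e : (r x / ‖x‖ - r y / ‖y‖) * ‖y‖ = r x / ‖x‖ * (‖y‖ - ‖x‖) + (r x / ‖x‖ * ‖x‖ - r y) := by
      field_simp
      ring
    have e2 : r x / ‖x‖ * ‖x‖ = r x := by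
      rcases eq_or_lt_of_le (norm_nonneg x) with hx | hx
      · have : r x = 0 := le_antisymm (hx ▸ h1 x) (h0 x)
        simp [this]
      · field_simp
    have e3 : |r x / ‖x‖ - r y / ‖y‖| * ‖y‖ = |(r x / ‖x‖ - r y / ‖y‖) * ‖y‖| := by
      rw [abs_mul, abs_of_pos hy]
    rw [e3, e, e2]
    have a1 : |‖y‖ - ‖x‖| ≤ ‖x - y‖ := by
      rw [abs_sub_comm]
      exact abs_norm_sub_norm_le x y
    have a2 : |r x / ‖x‖ * (‖y‖ - ‖x‖)| ≤ ‖x - y‖ := by
      rw [abs_mul, abs_of_nonneg (hb x).1]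
      exact (mul_le_of_le_one_left (abs_nonneg _) (hb x).2).trans a1
    have a3 := abs_add_le (r x / ‖x‖ * (‖y‖ - ‖x‖)) (r x - r y)
    have a4 := h2 x y
    linarith
  calc _ ≤ p * |r x / ‖x‖ - r y / ‖y‖| * ‖y‖ := mul_le_mul_of_nonneg_right h3 (norm_nonneg _)
    _ = p * (|r x / ‖x‖ - r y / ‖y‖| * ‖y‖) := by ring
    _ ≤ p * (2 * ‖x - y‖) := mul_le_mul_of_nonneg_left h4 (by linarith)
    _ = _ := by ring

/-- A functional times a bounded function of small oscillation is Lipschitz. -/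
theorem isLip_mul (φ : X →L[ℝ] ℝ) (h : X → ℝ) (K : ℝ) (h1 : ∀ x, |h x| ≤ 1)
    (h2 : ∀ x y, |h x - h y| * ‖y‖ ≤ K * ‖x - y‖) : IsLip (fun x => φ x * h x) := by
  refine ⟨by simp, Real.toNNReal (‖φ‖ * (1 + K)), LipschitzWith.of_dist_le' fun x y => ?_⟩
  rw [Real.dist_eq, dist_eq_norm]
  have e : φ x * h x - φ y * h y = φ (x - y) * h x + φ y * (h x - h y) := by
    rw [map_sub]
    ring
  have a1 : |φ (x - y) * h x| ≤ ‖φ‖ * ‖x - y‖ := by
    rw [abs_mul]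
    exact (mul_le_of_le_one_right (abs_nonneg _) (h1 x)).trans (φ.le_opNorm _)
  have a2 : |φ y * (h x - h y)| ≤ ‖φ‖ * (K * ‖x - y‖) := by
    rw [abs_mul]
    calc _ ≤ ‖φ‖ * ‖y‖ * |h x - h y| :=
          mul_le_mul_of_nonneg_right (φ.le_opNorm _) (abs_nonneg _)
      _ = ‖φ‖ * (|h x - h y| * ‖y‖) := by ring
      _ ≤ _ := mul_le_mul_of_nonneg_left (h2 x y) (norm_nonneg _)
  rw [e]
  have := abs_add_le (φ (x - y) * h x) (φ y * (h x - h y))
  nlinarith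

end Pool.Agent.Lib.helper23.EqA
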