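import Mathlib
import Pool.Agent.Lib.helper23.EqA

set_option autoImplicit false

namespace Pool.Agent.Lib.helper23.EqB

open scoped NNReal ENNReal
open Pool.Agent.Lib.helper23.EqA

abbrev L (p : ℝ≥0∞) : Type := lp (fun _ : ℕ => ℝ) p

variable {p : ℝ≥0∞}

/-- Multiplication by a sequence bounded by one. -/
def mulL (a : ℕ → ℝ) (ha : ∀ n, |a n| ≤ 1) : L p →ₗ[ℝ] L p where
  toFun x := ⟨fun n => a n * x n, (lp.memℓp x).mono' fun n => by
    rw [norm_mul]
    exact mul_le_of_le_one_left (norm_nonneg _) (ha n)⟩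
  map_add' x y := by
    ext n
    exact mul_add _ _ _
  map_smul' c x := by
    ext n
    change a n * (c * x n) = c * (a n * x n)
    ring

theorem mulL_apply (a : ℕ → ℝ) (ha : ∀ n, |a n| ≤ 1) (x : L p) (n : ℕ) :
    mulL a ha x n = a n * x n := rfl

theorem norm_mulL (hp : p ≠ 0) (a : ℕ → ℝ) (ha : ∀ n, |a n| ≤ 1) (x : L p) :
    ‖mulL a ha x‖ ≤ ‖x‖ :=
  lp.norm_mono hp fun n => by
    rw [mulL_apply, norm_mul]
    exact mul_le_of_le_one_left (norm_nonneg _) (ha n)

theorem ind_le (A : Set ℕ) (n : ℕ) : |A.indicator (fun _ => (1 : ℝ)) n| ≤ 1 := by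
  by_cases h : n ∈ A <;> simp [h]

/-- Restriction to a set of coordinates. -/
noncomputable def R (A : Set ℕ) : L p →ₗ[ℝ] L p := mulL (A.indicator fun _ => 1) (ind_le A)

theorem R_apply (A : Set ℕ) (x : L p) (n : ℕ) :
    R A x n = A.indicator (fun _ => (1 : ℝ)) n * x n := rfl

variable [hp1 : Fact (1 ≤ p)]

theorem p0 : p ≠ 0 := (zero_lt_one.trans_le hp1.out).ne'

/-- The sign flip at one coordinate. -/
noncomputable def S (k : ℕ) : L p ≃ₗᵢ[ℝ] L p :=
  let a : ℕ → ℝ := fun n => if n = k then -1 else 1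
  have ha : ∀ n, |a n| ≤ 1 := fun n => by by_cases h : n = k <;> simp [a, h]
  have hinv : ∀ x : L p, mulL a ha (mulL a ha x) = x := fun x => by
    ext n
    rw [mulL_apply, mulL_apply]
    by_cases h : n = k <;> simp [a, h]
  { toLinearEquiv := LinearEquiv.ofInvolutive (mulL a ha) hinv
    norm_map' := fun x => le_antisymm (norm_mulL p0 a ha x) (by
      have := norm_mulL p0 a ha (mulL a ha x)
      rwa [hinv] at this) }

theorem S_apply (k : ℕ) (x : L p) (n : ℕ) : S k x n = (if n = k then -1 else 1) * x n := rfl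

theorem q_pos (hp : p ≠ ∞) : 0 < p.toReal := ENNReal.toReal_pos p0 hp

theorem one_le_q (hp : p ≠ ∞) : 1 ≤ p.toReal := by
  have := ENNReal.toReal_mono hp hp1.out
  simpa using this

/-- Composition with a permutation, as a linear map. -/
def TL (hp : p ≠ ∞) (σ : Equiv.Perm ℕ) : L p →ₗ[ℝ] L p where
  toFun x := ⟨fun n => x (σ n), memℓp_gen
    ((σ.summable_iff (f := fun n => ‖x n‖ ^ p.toReal)).2 ((lp.memℓp x).summable (q_pos hp)))⟩
  map_add' _ _ := rfl
  map_smul' _ _ := rfl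

/-- Composition with a permutation. -/
noncomputable def T (hp : p ≠ ∞) (σ : Equiv.Perm ℕ) : L p ≃ₗᵢ[ℝ] L p where
  toLinearEquiv := LinearEquiv.ofLinear (TL hp σ) (TL hp σ.symm)
    (by
      refine LinearMap.ext fun x => lp.ext (funext fun n => ?_)
      change x (σ.symm (σ n)) = x n
      simp)
    (by
      refine LinearMap.ext fun x => lp.ext (funext fun n => ?_)
      change x (σ (σ.symm n)) = x n
      simp)
  norm_map' x := by
    rw [lp.norm_eq_tsum_rpow (q_pos hp), lp.norm_eq_tsum_rpow (q_pos hp) x]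
    congr 1
    exact σ.tsum_eq (fun n => ‖x n‖ ^ p.toReal)

theorem T_apply (hp : p ≠ ∞) (σ : Equiv.Perm ℕ) (x : L p) (n : ℕ) : T hp σ x n = x (σ n) := rfl

/-- The normalised mass of a set of coordinates. -/
noncomputable def m (x : L p) (A : Set ℕ) : ℝ := (‖R A x‖ / ‖x‖) ^ p.toReal

theorem m_nonneg (x : L p) (A : Set ℕ) : 0 ≤ m x A :=
  Real.rpow_nonneg (div_nonneg (norm_nonneg _) (norm_nonneg _)) _

theorem m_le (x : L p) (A : Set ℕ) : m x A ≤ 1 :=
  Real.rpow_le_one (div_nonneg (norm_nonneg _) (norm_nonneg _))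
    (div_le_one_of_le₀ (norm_mulL p0 _ _ x) (norm_nonneg _)) ENNReal.toReal_nonneg

theorem m_lip (hp : p ≠ ∞) (A : Set ℕ) (x y : L p) :
    |m x A - m y A| * ‖y‖ ≤ 2 * p.toReal * ‖x - y‖ :=
  mass_lip (one_le_q hp) (fun x => ‖R A x‖) (fun _ => norm_nonneg _)
    (fun x => norm_mulL p0 _ _ x) (fun x y => by
      refine (abs_norm_sub_norm_le _ _).trans ?_
      rw [← map_sub]
      exact norm_mulL p0 _ _ _) x y

theorem m_union (hp : p ≠ ∞) (x : L p) {A B : Set ℕ} (h : Disjoint A B) :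
    m x (A ∪ B) = m x A + m x B := by
  have h1 := lp.hasSum_norm (q_pos hp) (R (A ∪ B) x)
  have h2 := (lp.hasSum_norm (q_pos hp) (R A x)).add (lp.hasSum_norm (q_pos hp) (R B x))
  have h3 : ‖R (A ∪ B) x‖ ^ p.toReal = ‖R A x‖ ^ p.toReal + ‖R B x‖ ^ p.toReal := by
    refine h1.unique ?_
    have e : (fun i => ‖R (A ∪ B) x i‖ ^ p.toReal) =
        fun i => ‖R A x i‖ ^ p.toReal + ‖R B x i‖ ^ p.toReal := by
      funext n
      rw [R_apply, R_apply, R_apply]
      have hq := (q_pos hp).ne'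
      by_cases ha : n ∈ A
      · have hb : n ∉ B := Set.disjoint_left.1 h ha
        simp [ha, hb, Real.zero_rpow hq]
      · by_cases hb : n ∈ B <;> simp [ha, hb, Real.zero_rpow hq]
    rw [e]
    exact h2
  unfold m
  rw [Real.div_rpow (norm_nonneg _) (norm_nonneg _), Real.div_rpow (norm_nonneg _) (norm_nonneg _),
    Real.div_rpow (norm_nonneg _) (norm_nonneg _), h3, add_div]

theorem m_empty (hp : p ≠ ∞) (x : L p) : m x ∅ = 0 := by
  have := m_union hp x (A := ∅) (B := ∅) (by simp)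
  simp only [Set.union_self] at this
  linarith

theorem m_univ (x : L p) (n : ℕ) : x n * m x Set.univ = x n := by
  have : R Set.univ x = x := by
    ext k
    rw [R_apply]
    simp
  unfold m
  rw [this]
  by_cases h : x = 0
  · simp [h]
  · rw [div_self (norm_ne_zero_iff.2 h)]
    simp

theorem m_S (k : ℕ) (x : L p) (A : Set ℕ) : m (S k x) A = m x A := by
  have : R A (S k x) = S k (R A x) := by
    ext n
    rw [R_apply, S_apply, S_apply, R_apply]
    ring
  unfold m
  rw [this, LinearIsometryEquiv.norm_map, LinearIsometryEquiv.norm_map]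

theorem m_T (hp : p ≠ ∞) (σ : Equiv.Perm ℕ) (x : L p) (A : Set ℕ) :
    m (T hp σ x) (σ ⁻¹' A) = m x A := by
  have : R (σ ⁻¹' A) (T hp σ x) = T hp σ (R A x) := by
    ext n
    rw [R_apply, T_apply, T_apply, R_apply]
    rfl
  unfold m
  rw [this, LinearIsometryEquiv.norm_map, LinearIsometryEquiv.norm_map]

theorem m_sum (hp : p ≠ ∞) (x : L p) (s : Finset ℕ) : ∑ n ∈ s, m x {n} = m x s := by
  induction s using Finset.induction_on with
  | empty => simp [m_empty hp]
  | insert a s ha ih =>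
    rw [Finset.sum_insert ha, ih, Finset.coe_insert, Set.insert_eq, m_union hp]
    simpa using ha

/-- The test functions. -/
noncomputable def F (n : ℕ) (A : Set ℕ) (x : L p) : ℝ := x n * m x A

theorem F_lip (hp : p ≠ ∞) (n : ℕ) (A : Set ℕ) : IsLip (F (p := p) n A) :=
  isLip_mul (lp.evalCLM ℝ (fun _ : ℕ => ℝ) p n) (fun x => m x A) (2 * p.toReal)
    (fun x => by rw [abs_of_nonneg (m_nonneg x A)]; exact m_le x A) (m_lip hp A)

/-- The unit vectors. -/
noncomputable def e (p : ℝ≥0∞) (n : ℕ) : L p := lp.single p n 1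

theorem exists_perm {A B : Set ℕ} {n : ℕ} (hA : A.Infinite) (hA' : Aᶜ.Infinite) (hB : B.Infinite)
    (hB' : Bᶜ.Infinite) (ha : n ∉ A) (hb : n ∉ B) :
    ∃ σ : Equiv.Perm ℕ, σ n = n ∧ σ ⁻¹' B = A := by
  classical
  have i1 := hA.to_subtype
  have i2 := hA'.to_subtype
  have i3 := hB.to_subtype
  have i4 := hB'.to_subtype
  obtain ⟨e1⟩ : Nonempty (A ≃ B) := nonempty_equiv_of_countable
  obtain ⟨e2⟩ : Nonempty (↥Aᶜ ≃ ↥Bᶜ) := nonempty_equiv_of_countable
  let σ : Equiv.Perm ℕ := Equiv.subtypeCongr (p := fun x => x ∈ A) (q := fun x => x ∈ B) e1 e2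
  have h1 : ∀ x, σ x ∈ B ↔ x ∈ A := fun x => by
    by_cases hx : x ∈ A
    · have : σ x = e1 ⟨x, hx⟩ := by
        simp [σ, Equiv.subtypeCongr, Equiv.sumCompl_symm_apply_of_pos, hx]
      rw [this]
      exact ⟨fun _ => hx, fun _ => (e1 ⟨x, hx⟩).2⟩
    · have : σ x = e2 ⟨x, hx⟩ := by
        simp [σ, Equiv.subtypeCongr, Equiv.sumCompl_symm_apply_of_neg, hx]
      rw [this]
      exact ⟨fun h => absurd h (e2 ⟨x, hx⟩).2, fun h => absurd h hx⟩
  have h2 : σ n ∉ B := fun h => ha ((h1 n).1 h)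
  refine ⟨σ.trans (Equiv.swap (σ n) n), by simp, ?_⟩
  ext x
  rw [Set.mem_preimage, Equiv.trans_apply, ← h1 x, Equiv.swap_apply_def]
  split_ifs with c1 c2
  · rw [c1]
    exact ⟨fun h => absurd h hb, fun h => absurd h h2⟩
  · rw [c2]
    exact ⟨fun h => absurd h h2, fun h => absurd h hb⟩
  · rfl

theorem inf_mod (n k : ℕ) (hk : k < 3) : {x : ℕ | x ≠ n ∧ x % 3 = k}.Infinite :=
  Set.infinite_of_forall_exists_gt fun a => ⟨3 * (a + n + 1) + k, ⟨by omega, by omega⟩, by omega⟩

theorem diag (hp : p ≠ ∞) (P : EP (L p)) (n : ℕ) : P.Q (F n {n}) (e p n) = 1 := by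
  let ν : Set ℕ → ℝ := fun A => P.Q (F n A) (e p n)
  have hadd : ∀ A B : Set ℕ, Disjoint A B → ν (A ∪ B) = ν A + ν B := fun A B h => by
    have : F (p := p) n (A ∪ B) = F n A + F n B := by
      funext x
      simp only [F, Pi.add_apply, m_union hp x h, mul_add]
    simp only [ν, this, P.add _ _ (F_lip hp n A) (F_lip hp n B), ContinuousLinearMap.add_apply]
  have hinv : ∀ A B : Set ℕ, A.Infinite → Aᶜ.Infinite → B.Infinite → Bᶜ.Infinite → n ∉ A →
      n ∉ B → ν A = ν B := fun A B h1 h2 h3 h4 h5 h6 => by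
    obtain ⟨σ, hσ, rfl⟩ := exists_perm h1 h2 h3 h4 h5 h6
    have e1 : F n (σ ⁻¹' B) ∘ T hp σ = F n B := by
      funext x
      simp only [Function.comp, F, m_T, T_apply, hσ]
    have e2 : T hp σ (e p n) = e p n := by
      ext k
      rw [T_apply]
      by_cases hk : k = n
      · rw [hk, hσ]
      · have : σ k ≠ n := fun h => hk (σ.injective (h.trans hσ.symm))
        simp [e, lp.single_apply, Pi.single_apply, hk, this]
    have := P.eqv (T hp σ) _ (F_lip hp n (σ ⁻¹' B)) (e p n)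
    rw [e1, e2] at this
    exact this.symm
  have huniv : ν Set.univ = 1 := by
    have : F (p := p) n Set.univ = lp.evalCLM ℝ (fun _ : ℕ => ℝ) p n := by
      funext x
      exact m_univ x n
    simp only [ν]
    rw [this, P.proj]
    change e p n n = 1
    simp [e]
  let A : ℕ → Set ℕ := fun k => {x : ℕ | x ≠ n ∧ x % 3 = k}
  have hc : ∀ k, k < 2 → (A k)ᶜ.Infinite := fun k hk =>
    (inf_mod n 2 (by omega)).mono fun x hx h => by have := hx.2; have := h.2; omega
  have hc2 : (A 2)ᶜ.Infinite :=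
    (inf_mod n 0 (by omega)).mono fun x hx h => by have := hx.2; have := h.2; omega
  have hn : ∀ k, n ∉ A k := fun k h => h.1 rfl
  have h01 : ν (A 0) = ν (A 1) :=
    hinv _ _ (inf_mod n 0 (by omega)) (hc 0 (by omega)) (inf_mod n 1 (by omega)) (hc 1 (by omega))
      (hn 0) (hn 1)
  have h02 : ν (A 0) = ν (A 2) :=
    hinv _ _ (inf_mod n 0 (by omega)) (hc 0 (by omega)) (inf_mod n 2 (by omega)) hc2 (hn 0) (hn 2)
  have h03 : ν (A 0) = ν (A 0 ∪ A 1) :=
    hinv _ _ (inf_mod n 0 (by omega)) (hc 0 (by omega))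
      ((inf_mod n 0 (by omega)).mono Set.subset_union_left)
      ((inf_mod n 2 (by omega)).mono fun x hx h => by
        have := hx.2
        rcases h with h | h <;> have := h.2 <;> omega)
      (hn 0) (fun h => h.elim (hn 0) (hn 1))
  have a1 := hadd (A 0) (A 1) (Set.disjoint_left.2 fun x h k => by
    have := h.2; have := k.2; omega)
  have a2 := hadd (A 0 ∪ A 1) (A 2) (Set.disjoint_left.2 fun x h k => by
    have := k.2
    rcases h with h | h <;> have := h.2 <;> omega)
  have a3 := hadd {n} (A 0 ∪ A 1 ∪ A 2) (Set.disjoint_left.2 fun x h k => by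
    rcases k with (k | k) | k <;> exact k.1 h)
  have a4 : {n} ∪ (A 0 ∪ A 1 ∪ A 2) = Set.univ := by
    refine Set.eq_univ_of_forall fun x => ?_
    simp only [A, Set.mem_union, Set.mem_singleton_iff, Set.mem_setOf_eq]
    omega
  rw [a4] at a3
  change ν {n} = 1
  linarith

theorem offdiag (hp : p ≠ ∞) (P : EP (L p)) {n k : ℕ} (h : n ≠ k) (A : Set ℕ) :
    P.Q (F n A) (e p k) = 0 := by
  refine P.flip (S k) _ (F_lip hp n A) ?_ _ ?_
  · funext x
    simp [F, m_S, S_apply, h]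
  · ext j
    rw [S_apply]
    by_cases hj : j = k <;> simp [e, lp.single_apply, Pi.single_apply, hj]

theorem sum_lip (hp : p ≠ ∞) (s : Finset ℕ) :
    LipschitzWith (Real.toNNReal (1 + 4 * p.toReal)) (∑ n ∈ s, F (p := p) n {n}) := by
  refine LipschitzWith.of_dist_le' fun x y => ?_
  rw [Real.dist_eq, dist_eq_norm, Finset.sum_apply, Finset.sum_apply, ← Finset.sum_sub_distrib]
  have h1 : ∀ n, |F n {n} x - F n {n} y| ≤ ‖x - y‖ * m x {n} + |m x {n} - m y {n}| * ‖y‖ := by
    intro n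
    have e1 : F n {n} x - F n {n} y = (x - y) n * m x {n} + (m x {n} - m y {n}) * y n := by
      simp only [F, lp.coeFn_sub, Pi.sub_apply]
      ring
    rw [e1]
    refine (abs_add_le _ _).trans (add_le_add ?_ ?_)
    · rw [abs_mul, abs_of_nonneg (m_nonneg _ _)]
      exact mul_le_mul_of_nonneg_right (lp.norm_apply_le_norm p0 (x - y) n) (m_nonneg _ _)
    · rw [abs_mul]
      exact mul_le_mul_of_nonneg_left (lp.norm_apply_le_norm p0 y n) (abs_nonneg _)
  have h2 : ∑ n ∈ s, |m x {n} - m y {n}| * ‖y‖ ≤ 4 * p.toReal * ‖x - y‖ := by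
    rw [← Finset.sum_mul, ← Finset.sum_filter_add_sum_filter_not s (fun n => m y {n} ≤ m x {n})]
    have b1 : ∑ n ∈ s.filter (fun n => m y {n} ≤ m x {n}), |m x {n} - m y {n}| =
        m x (s.filter (fun n => m y {n} ≤ m x {n})) - m y (s.filter (fun n => m y {n} ≤ m x {n})) := by
      rw [← m_sum hp, ← m_sum hp, ← Finset.sum_sub_distrib]
      exact Finset.sum_congr rfl fun n hn => abs_of_nonneg (sub_nonneg.2 (Finset.mem_filter.1 hn).2)
    have b2 : ∑ n ∈ s.filter (fun n => ¬ m y {n} ≤ m x {n}), |m x {n} - m y {n}| =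
        -(m x (s.filter (fun n => ¬ m y {n} ≤ m x {n})) -
          m y (s.filter (fun n => ¬ m y {n} ≤ m x {n}))) := by
      rw [← m_sum hp, ← m_sum hp, ← Finset.sum_sub_distrib, ← Finset.sum_neg_distrib]
      exact Finset.sum_congr rfl fun n hn =>
        abs_of_nonpos (sub_nonpos.2 (le_of_not_ge (Finset.mem_filter.1 hn).2))
    rw [b1, b2, add_mul]
    have c1 := m_lip hp (s.filter (fun n => m y {n} ≤ m x {n})) x y
    have c2 := m_lip hp (s.filter (fun n => ¬ m y {n} ≤ m x {n})) x y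
    have d1 := mul_le_mul_of_nonneg_right (le_abs_self (m x (s.filter (fun n => m y {n} ≤ m x {n})) -
      m y (s.filter (fun n => m y {n} ≤ m x {n})))) (norm_nonneg y)
    have d2 := mul_le_mul_of_nonneg_right (neg_le_abs (m x (s.filter (fun n => ¬ m y {n} ≤ m x {n})) -
      m y (s.filter (fun n => ¬ m y {n} ≤ m x {n})))) (norm_nonneg y)
    linarith
  have h3 : ∑ n ∈ s, ‖x - y‖ * m x {n} ≤ ‖x - y‖ := by
    rw [← Finset.mul_sum, m_sum hp]
    exact mul_le_of_le_one_right (norm_nonneg _) (m_le _ _)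
  calc _ ≤ ∑ n ∈ s, |F n {n} x - F n {n} y| := Finset.abs_sum_le_sum_abs _ _
    _ ≤ ∑ n ∈ s, (‖x - y‖ * m x {n} + |m x {n} - m y {n}| * ‖y‖) := Finset.sum_le_sum fun n _ => h1 n
    _ ≤ _ := by
      rw [Finset.sum_add_distrib]
      linarith

theorem no_EP (hp : p ≠ ∞) (h1 : 1 < p) : IsEmpty (EP (L p)) := by
  refine ⟨fun P => ?_⟩
  have hq : 1 < p.toReal := by
    have := (ENNReal.toReal_lt_toReal ENNReal.one_ne_top hp).2 h1
    simpa using this
  have key : ∀ N : ℕ, (N : ℝ) ≤ P.C * Real.toNNReal (1 + 4 * p.toReal) * (N : ℝ) ^ p.toReal⁻¹ := by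
    intro N
    have hs := P.sum (Finset.range N) (fun n => F (p := p) n {n}) fun n => F_lip hp n _
    have hb := P.bound _ _ hs.1.1 (sum_lip hp (Finset.range N))
    have hy : ‖∑ k ∈ Finset.range N, e p k‖ = (N : ℝ) ^ p.toReal⁻¹ := by
      have := lp.norm_sum_single (E := fun _ : ℕ => ℝ) (q_pos hp) (fun _ => 1) (Finset.range N)
      simp only [norm_one, Real.one_rpow, Finset.sum_const, Finset.card_range, nsmul_eq_mul,
        mul_one] at this
      rw [← this, Real.rpow_rpow_inv (norm_nonneg _) (q_pos hp).ne']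
      rfl
    have hv : P.Q (∑ n ∈ Finset.range N, F (p := p) n {n}) (∑ k ∈ Finset.range N, e p k) = N := by
      rw [hs.2, ContinuousLinearMap.sum_apply]
      have : ∀ n ∈ Finset.range N, P.Q (F (p := p) n {n}) (∑ k ∈ Finset.range N, e p k) = 1 := by
        intro n hn
        rw [map_sum, Finset.sum_eq_single_of_mem n hn fun k _ hk => offdiag hp P hk.symm _,
          diag hp P]
      rw [Finset.sum_congr rfl this]
      simp
    have := (P.Q (∑ n ∈ Finset.range N, F (p := p) n {n})).le_opNorm (∑ k ∈ Finset.range N, e p k)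
    rw [hv, hy, Real.norm_natCast] at this
    exact this.trans (mul_le_mul_of_nonneg_right hb (by positivity))
  set K := P.C * Real.toNNReal (1 + 4 * p.toReal)
  have hd : 0 < 1 - p.toReal⁻¹ := sub_pos.2 (inv_lt_one_of_one_lt₀ hq)
  have ht := (tendsto_rpow_atTop hd).comp tendsto_natCast_atTop_atTop
  obtain ⟨N, hN, hN1⟩ := ((ht.eventually_gt_atTop K).and (Filter.eventually_gt_atTop 0)).exists
  have hN0 : (0 : ℝ) < N := by exact_mod_cast hN1
  have h2 : (N : ℝ) = (N : ℝ) ^ (1 - p.toReal⁻¹) * (N : ℝ) ^ p.toReal⁻¹ := by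
    rw [← Real.rpow_add hN0]
    simp
  have h3 := key N
  have h4 : 0 < (N : ℝ) ^ p.toReal⁻¹ := Real.rpow_pos_of_pos hN0 _
  have h5 : K * (N : ℝ) ^ p.toReal⁻¹ < (N : ℝ) ^ (1 - p.toReal⁻¹) * (N : ℝ) ^ p.toReal⁻¹ :=
    mul_lt_mul_of_pos_right hN h4
  linarith

end Pool.Agent.Lib.helper23.EqB
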