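import Mathlib
import Pool.Agent.Lib.helper23.EqB

set_option autoImplicit false

namespace Pool.Agent.Lib.helper23.EqC

open scoped NNReal ENNReal
open Pool.Agent.Lib.helper23.EqA Pool.Agent.Lib.helper23.EqB

theorem hasSum_one (x : L 1) : HasSum (fun n => |x n|) ‖x‖ := by
  have := lp.hasSum_norm (p := 1) (by simp) x
  simpa using this

theorem exists_pair (a : ℕ → ℝ) (C : ℝ) (h : ∀ n, |a n| ≤ C) :
    ∃ φ : L 1 →L[ℝ] ℝ, (∀ k, φ (e 1 k) = a k) ∧ ‖φ‖ ≤ C := by
  have hC : 0 ≤ C := (abs_nonneg _).trans (h 0)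
  have hb : ∀ (x : L 1) n, ‖a n * x n‖ ≤ C * |x n| := fun x n => by
    rw [norm_mul]
    exact mul_le_mul_of_nonneg_right (h n) (abs_nonneg _)
  have hs : ∀ x : L 1, Summable fun n => a n * x n := fun x =>
    Summable.of_norm_bounded ((hasSum_one x).summable.mul_left C) (hb x)
  let ψ : L 1 →ₗ[ℝ] ℝ :=
    { toFun := fun x => ∑' n, a n * x n
      map_add' := fun x y => by
        rw [← (hs x).tsum_add (hs y)]
        exact tsum_congr fun n => mul_add _ _ _
      map_smul' := fun c x => by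
        rw [RingHom.id_apply, smul_eq_mul, ← tsum_mul_left]
        refine tsum_congr fun n => ?_
        change a n * (c * x n) = _
        ring }
  have hψ : ∀ x, ‖ψ x‖ ≤ C * ‖x‖ := fun x =>
    tsum_of_norm_bounded ((hasSum_one x).mul_left C) (hb x)
  refine ⟨ψ.mkContinuous C hψ, fun k => ?_, ψ.mkContinuous_norm_le hC hψ⟩
  change ∑' n, a n * e 1 k n = a k
  rw [tsum_eq_single k fun n hn => by simp [e, lp.single_apply, Pi.single_apply, hn]]
  simp [e]

theorem ext_e {φ ψ : L 1 →L[ℝ] ℝ} (h : ∀ k, φ (e 1 k) = ψ (e 1 k)) : φ = ψ := by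
  refine lp.ext_continuousLinearMap ENNReal.one_ne_top fun k => ?_
  ext
  simpa [e] using h k

theorem norm_e (n : ℕ) : ‖e 1 n‖ = 1 := by
  simp [e]

theorem split_norm (x : L 1) (m : ℕ) : ‖x - x m • e 1 m‖ + |x m| = ‖x‖ := by
  have h1 := (hasSum_one (x - x m • e 1 m)).add (hasSum_one (x m • e 1 m))
  have h2 : ‖x m • e 1 m‖ = |x m| := by rw [norm_smul, norm_e, mul_one, Real.norm_eq_abs]
  rw [h2] at h1
  refine h1.unique ?_
  have e1 : (fun n => |(x - x m • e 1 m) n| + |(x m • e 1 m) n|) = fun n => |x n| := by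
    funext n
    by_cases hn : n = m
    · subst hn
      simp [e]
    · simp [e, lp.single_apply, Pi.single_apply, hn]
  rw [e1]
  exact hasSum_one x

theorem face {a b : L 1} {n : ℕ} (h : a + b = e 1 n) (h1 : ‖a‖ + ‖b‖ = 1) : a = a n • e 1 n := by
  have s1 := split_norm a n
  have s2 := lp.norm_apply_le_norm one_ne_zero b n
  have s3 : a n + b n = 1 := by
    have : (a + b) n = e 1 n n := by rw [h]
    simpa [e] using this
  have s4 := abs_add_le (a n) (b n)
  rw [s3, abs_one] at s4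
  rw [Real.norm_eq_abs] at s2
  have : ‖a - a n • e 1 n‖ ≤ 0 := by linarith
  exact sub_eq_zero.1 (norm_le_zero_iff.1 this)

/-- Surjective linear isometries send unit vectors to signed unit vectors. -/
theorem isom_e (g : L 1 ≃ₗᵢ[ℝ] L 1) (n : ℕ) : ∃ m, g (e 1 n) = e 1 m ∨ g (e 1 n) = -e 1 m := by
  set u := g (e 1 n) with hu
  have hn : ‖u‖ = 1 := by rw [hu, g.norm_map, norm_e]
  obtain ⟨m, hm⟩ : ∃ m, u m ≠ 0 := by
    by_contra hc
    push Not at hc
    have : u = 0 := lp.ext (funext hc)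
    rw [this, norm_zero] at hn
    exact zero_ne_one hn
  have h1 : g.symm (u m • e 1 m) + g.symm (u - u m • e 1 m) = e 1 n := by
    rw [← map_add, add_sub_cancel, hu, g.symm_apply_apply]
  have h2 : ‖g.symm (u m • e 1 m)‖ + ‖g.symm (u - u m • e 1 m)‖ = 1 := by
    rw [g.symm.norm_map, g.symm.norm_map, norm_smul, norm_e, mul_one, Real.norm_eq_abs, add_comm,
      split_norm, hn]
  have h3 := congrArg g (face h1 h2)
  rw [g.apply_symm_apply, map_smul, ← hu] at h3
  set c := g.symm (u m • e 1 m) n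
  have h4 : u m = c * u m := by
    have : (u m • e 1 m) m = (c • u) m := by rw [h3]
    simpa [e] using this
  have h5 : c = 1 := by
    have : (c - 1) * u m = 0 := by linarith
    rcases mul_eq_zero.1 this with h | h
    · linarith
    · exact absurd h hm
  rw [h5, one_smul] at h3
  have h6 : |u m| = 1 := by
    have := congrArg norm h3
    rwa [norm_smul, norm_e, mul_one, Real.norm_eq_abs, hn] at this
  refine ⟨m, ?_⟩
  rcases abs_eq (zero_le_one) |>.1 h6 with h | h
  · left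
    rw [← h3, h, one_smul]
  · right
    rw [← h3, h, neg_one_smul]

theorem coef_le {f : L 1 → ℝ} {K : ℝ≥0} (hf : LipschitzWith K f) (n : ℕ) :
    |(f (e 1 n) - f (-e 1 n)) / 2| ≤ K := by
  have := hf.dist_le_mul (e 1 n) (-e 1 n)
  rw [Real.dist_eq, dist_eq_norm, sub_neg_eq_add, ← two_smul ℝ, norm_smul, norm_e] at this
  rw [abs_div, div_le_iff₀ (by norm_num)]
  simpa using this

/-- The projection for the sequence space with exponent one. -/
theorem exists_Q : ∃ Q : (f : L 1 → ℝ) → (∃ K, LipschitzWith K f) → (L 1 →L[ℝ] ℝ),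
    (∀ f hf y, (∃ n, y = e 1 n ∨ y = -e 1 n) → Q f hf y = (f y - f (-y)) / 2) ∧
      ∀ f hf (K : ℝ≥0), LipschitzWith K f → ‖Q f hf‖ ≤ K := by
  have h : ∀ f : L 1 → ℝ, (∃ K, LipschitzWith K f) →
      ∃ φ : L 1 →L[ℝ] ℝ, ∀ k, φ (e 1 k) = (f (e 1 k) - f (-e 1 k)) / 2 := fun f ⟨K, hK⟩ =>
    (exists_pair _ K (coef_le hK)).imp fun _ h => h.1
  choose Q hQ using h
  refine ⟨Q, fun f hf y ⟨n, hy⟩ => ?_, fun f hf K hK => ?_⟩
  · rcases hy with rfl | rfl
    · exact hQ f hf n
    · rw [map_neg, hQ, neg_neg]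
      ring
  · obtain ⟨φ, h1, h2⟩ := exists_pair _ K (coef_le hK)
    rw [ext_e (φ := Q f hf) (ψ := φ) fun k => by rw [hQ, h1]]
    exact h2

end Pool.Agent.Lib.helper23.EqC
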