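import Mathlib
import Pool.Agent.Lib.helper23.EqA

set_option autoImplicit false

namespace Pool.Agent.Lib.helper23.EqD

open scoped NNReal ENNReal
open MeasureTheory Pool.Agent.Lib.helper23.EqA

variable {Ω Ω' : Type} [MeasurableSpace Ω] [MeasurableSpace Ω'] {p : ℝ≥0∞} [hp1 : Fact (1 ≤ p)]

theorem exists_mul {μ ν : Measure Ω} (h1 : μ ≪ ν) (h2 : ν ≪ μ) (a : Ω → ℝ) (ha : Measurable a)
    (h0 : ∀ s, a s ≠ 0)
    (hn : ∀ f : Ω → ℝ, AEStronglyMeasurable f ν →
      eLpNorm (fun s => a s * f s) p μ = eLpNorm f p ν) :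
    ∃ g : Lp ℝ p ν ≃ₗᵢ[ℝ] Lp ℝ p μ, ∀ x, g x =ᵐ[μ] fun s => a s * x s := by
  have hm : ∀ x : Lp ℝ p ν, MemLp (fun s => a s * x s) p μ := fun x =>
    ⟨ha.aestronglyMeasurable.mul ((Lp.aestronglyMeasurable x).mono_ac h1), by
      rw [hn _ (Lp.aestronglyMeasurable x)]
      exact Lp.eLpNorm_lt_top x⟩
  let g : Lp ℝ p ν →ₗᵢ[ℝ] Lp ℝ p μ :=
    { toFun := fun x => (hm x).toLp _
      map_add' := fun x y => by
        rw [← MemLp.toLp_add]
        refine MemLp.toLp_congr _ _ ?_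
        filter_upwards [h1.ae_le (Lp.coeFn_add x y)] with s hs
        rw [hs, Pi.add_apply, Pi.add_apply, mul_add]
      map_smul' := fun c x => by
        rw [RingHom.id_apply, ← MemLp.toLp_const_smul]
        refine MemLp.toLp_congr _ _ ?_
        filter_upwards [h1.ae_le (Lp.coeFn_smul c x)] with s hs
        rw [hs, Pi.smul_apply, Pi.smul_apply, smul_eq_mul, smul_eq_mul]
        ring
      norm_map' := fun x => by
        change ‖(hm x).toLp _‖ = _
        rw [Lp.norm_toLp, hn _ (Lp.aestronglyMeasurable x), Lp.norm_def] }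
  have hg : ∀ x, g x =ᵐ[μ] fun s => a s * x s := fun x => (hm x).coeFn_toLp
  refine ⟨LinearIsometryEquiv.ofSurjective g fun y => ?_, hg⟩
  have hy : AEStronglyMeasurable (fun s => (a s)⁻¹ * y s) ν :=
    ha.inv.aestronglyMeasurable.mul ((Lp.aestronglyMeasurable y).mono_ac h2)
  have he : (fun s => a s * ((a s)⁻¹ * y s)) = y := by
    funext s
    rw [← mul_assoc, mul_inv_cancel₀ (h0 s), one_mul]
  have hb : MemLp (fun s => (a s)⁻¹ * y s) p ν := ⟨hy, by
    rw [← hn _ hy, he]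
    exact Lp.eLpNorm_lt_top y⟩
  refine ⟨hb.toLp _, Lp.ext ?_⟩
  filter_upwards [hg (hb.toLp _), h1.ae_le hb.coeFn_toLp] with s h3 h4
  rw [h3, h4]
  exact congrFun he s

theorem exists_comp {μ : Measure Ω} {ν : Measure Ω'} {f : Ω → Ω'} {g : Ω' → Ω}
    (hf : MeasurePreserving f μ ν) (hg : MeasurePreserving g ν μ) (h : ∀ s, g (f s) = s) :
    ∃ T : Lp ℝ p ν ≃ₗᵢ[ℝ] Lp ℝ p μ, ∀ x, T x =ᵐ[μ] x ∘ f := by
  refine ⟨LinearIsometryEquiv.ofSurjective (Lp.compMeasurePreservingₗᵢ ℝ f hf) fun y => ?_,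
    fun x => Lp.coeFn_compMeasurePreserving x hf⟩
  refine ⟨Lp.compMeasurePreserving g hg y, Lp.ext ?_⟩
  have h1 := Lp.coeFn_compMeasurePreserving (Lp.compMeasurePreserving g hg y) hf
  have h2 := hf.quasiMeasurePreserving.ae_eq_comp (Lp.coeFn_compMeasurePreserving y hg)
  filter_upwards [h1, h2] with s h3 h4
  refine h3.trans (h4.trans ?_)
  simp [h]

variable {μ : Measure Ω}

theorem p0 : p ≠ 0 := (zero_lt_one.trans_le hp1.out).ne'

theorem q_pos (hp : p ≠ ∞) : 0 < p.toReal := ENNReal.toReal_pos p0 hp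

theorem one_le_q (hp : p ≠ ∞) : 1 ≤ p.toReal := by
  have := ENNReal.toReal_mono hp hp1.out
  simpa using this

/-- The measure with density the power of the absolute value. -/
noncomputable def W (x : Lp ℝ p μ) : Measure Ω := μ.withDensity fun s => ‖x s‖ₑ ^ p.toReal

/-- Its normalisation. -/
noncomputable def M (x : Lp ℝ p μ) : Measure Ω := (W x Set.univ)⁻¹ • W x

theorem W_apply (hp : p ≠ ∞) (x : Lp ℝ p μ) {A : Set Ω} (hA : MeasurableSet A) :
    W x A = eLpNorm x p (μ.restrict A) ^ p.toReal := by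
  rw [W, withDensity_apply _ hA, eLpNorm_eq_lintegral_rpow_enorm_toReal p0 hp, one_div,
    ENNReal.rpow_inv_rpow (q_pos hp).ne']

omit hp1 in
theorem M_univ (x : Lp ℝ p μ) : M x Set.univ ≤ 1 := by
  rw [M, Measure.smul_apply, smul_eq_mul]
  exact ENNReal.inv_mul_le_one _

instance (x : Lp ℝ p μ) : IsFiniteMeasure (M x) := ⟨(M_univ x).trans_lt ENNReal.one_lt_top⟩

theorem M_real (hp : p ≠ ∞) (x : Lp ℝ p μ) {A : Set Ω} (hA : MeasurableSet A) :
    (M x).real A = (‖LpToLpRestrictCLM Ω ℝ ℝ μ p A x‖ / ‖x‖) ^ p.toReal := by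
  rw [Measure.real, M, Measure.smul_apply, smul_eq_mul, W_apply hp x hA,
    W_apply hp x MeasurableSet.univ, Measure.restrict_univ, Lp.norm_def, Lp.norm_def,
    eLpNorm_congr_ae (LpToLpRestrictCLM_coeFn ℝ A x), ENNReal.toReal_mul, ENNReal.toReal_inv,
    Real.div_rpow ENNReal.toReal_nonneg ENNReal.toReal_nonneg, ENNReal.toReal_rpow,
    ENNReal.toReal_rpow, div_eq_inv_mul]

theorem M_univ_eq (hp : p ≠ ∞) {x : Lp ℝ p μ} (hx : x ≠ 0) : M x Set.univ = 1 := by
  rw [M, Measure.smul_apply, smul_eq_mul, W_apply hp x MeasurableSet.univ, Measure.restrict_univ]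
  refine ENNReal.inv_mul_cancel ?_ ?_
  · refine (ENNReal.rpow_pos (pos_iff_ne_zero.2 fun h => hx ?_) (Lp.eLpNorm_ne_top x)).ne'
    rw [← norm_eq_zero, Lp.norm_def, h, ENNReal.toReal_zero]
  · exact ENNReal.rpow_ne_top_of_nonneg (q_pos hp).le (Lp.eLpNorm_ne_top x)

theorem M_lip (hp : p ≠ ∞) {A : Set Ω} (hA : MeasurableSet A) (x y : Lp ℝ p μ) :
    |(M x).real A - (M y).real A| * ‖y‖ ≤ 2 * p.toReal * ‖x - y‖ := by
  rw [M_real hp x hA, M_real hp y hA]
  exact mass_lip (one_le_q hp) (fun x => ‖LpToLpRestrictCLM Ω ℝ ℝ μ p A x‖) (fun _ => norm_nonneg _)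
    (fun x => norm_Lp_toLp_restrict_le A x) (fun x y => by
      refine (abs_norm_sub_norm_le _ _).trans ?_
      rw [← map_sub]
      exact norm_Lp_toLp_restrict_le A _) x y

theorem prod_close {a a' b b' : Measure Ω} [IsFiniteMeasure a] [IsFiniteMeasure a']
    [IsFiniteMeasure b] [IsFiniteMeasure b'] (ha : a Set.univ ≤ 1) (hb' : b' Set.univ ≤ 1)
    {ε : ℝ} (hε : 0 ≤ ε) (h1 : ∀ A, MeasurableSet A → a.real A ≤ a'.real A + ε)
    (h2 : ∀ A, MeasurableSet A → b.real A ≤ b'.real A + ε) {D : Set (Ω × Ω)}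
    (hD : MeasurableSet D) : (a.prod b).real D ≤ (a'.prod b').real D + 2 * ε := by
  have conv : ∀ (c c' : Measure Ω) [IsFiniteMeasure c] [IsFiniteMeasure c'] (A : Set Ω),
      c.real A ≤ c'.real A + ε → c A ≤ c' A + ENNReal.ofReal ε := fun c c' _ _ A h => by
    rw [← ofReal_measureReal (μ := c), ← ofReal_measureReal (μ := c'),
      ← ENNReal.ofReal_add measureReal_nonneg hε]
    exact ENNReal.ofReal_le_ofReal h
  have e1 : (a.prod b) D ≤ (a.prod b') D + ENNReal.ofReal ε := by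
    rw [Measure.prod_apply hD, Measure.prod_apply hD]
    calc _ ≤ ∫⁻ s, (b' (Prod.mk s ⁻¹' D) + ENNReal.ofReal ε) ∂a :=
          lintegral_mono fun s => conv _ _ _ (h2 _ (measurable_prodMk_left hD))
      _ ≤ _ := by
          rw [lintegral_add_right _ measurable_const, lintegral_const]
          gcongr
          exact mul_le_of_le_one_right' ha
  have e2 : (a.prod b') D ≤ (a'.prod b') D + ENNReal.ofReal ε := by
    rw [Measure.prod_apply_symm hD, Measure.prod_apply_symm hD]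
    calc _ ≤ ∫⁻ s, (a' ((fun x => (x, s)) ⁻¹' D) + ENNReal.ofReal ε) ∂b' :=
          lintegral_mono fun s => conv _ _ _ (h1 _ (measurable_prodMk_right hD))
      _ ≤ _ := by
          rw [lintegral_add_right _ measurable_const, lintegral_const]
          gcongr
          exact mul_le_of_le_one_right' hb'
  have f1 := ENNReal.toReal_mono (by finiteness) e1
  have f2 := ENNReal.toReal_mono (by finiteness) e2
  rw [ENNReal.toReal_add (by finiteness) (by finiteness), ENNReal.toReal_ofReal hε] at f1 f2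
  simp only [Measure.real]
  linarith

/-- The mass of a set of pairs. -/
noncomputable def h (D : Set (Ω × Ω)) (x : Lp ℝ p μ) : ℝ := ((M x).prod (M x)).real D

theorem h_le (D : Set (Ω × Ω)) (x : Lp ℝ p μ) : |h D x| ≤ 1 := by
  rw [h, abs_of_nonneg measureReal_nonneg]
  refine (measureReal_mono (Set.subset_univ D)).trans ?_
  rw [← Set.univ_prod_univ, Measure.real, Measure.prod_prod]
  exact ENNReal.toReal_le_of_le_ofReal zero_le_one
    (by simpa using mul_le_one' (M_univ x) (M_univ x))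

theorem h_lip (hp : p ≠ ∞) {D : Set (Ω × Ω)} (hD : MeasurableSet D) (x y : Lp ℝ p μ) :
    |h D x - h D y| * ‖y‖ ≤ 4 * p.toReal * ‖x - y‖ := by
  rcases eq_or_lt_of_le (norm_nonneg y) with hy | hy
  · rw [← hy, mul_zero]
    positivity
  have hε : 0 ≤ 2 * p.toReal * ‖x - y‖ / ‖y‖ := by positivity
  have k : ∀ A, MeasurableSet A → |(M x).real A - (M y).real A| ≤ 2 * p.toReal * ‖x - y‖ / ‖y‖ :=
    fun A hA => (le_div_iff₀ hy).2 (M_lip hp hA x y)
  have k1 : ∀ A, MeasurableSet A → (M x).real A ≤ (M y).real A + 2 * p.toReal * ‖x - y‖ / ‖y‖ :=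
    fun A hA => by linarith [(abs_le.1 (k A hA)).2]
  have k2 : ∀ A, MeasurableSet A → (M y).real A ≤ (M x).real A + 2 * p.toReal * ‖x - y‖ / ‖y‖ :=
    fun A hA => by linarith [(abs_le.1 (k A hA)).1]
  have e1 := prod_close (M_univ x) (M_univ y) hε k1 k1 hD
  have e2 := prod_close (M_univ y) (M_univ x) hε k2 k2 hD
  rw [← le_div_iff₀ hy, abs_le]
  have : 4 * p.toReal * ‖x - y‖ / ‖y‖ = 2 * (2 * p.toReal * ‖x - y‖ / ‖y‖) := by ring
  unfold h
  constructor <;> linarith

theorem exists_clm {E : Set Ω} (hE : MeasurableSet E) (hμ : μ E ≠ ∞) :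
    ∃ φ : Lp ℝ p μ →L[ℝ] ℝ, ∀ x, φ x = ∫ s in E, x s ∂μ := by
  haveI : Fact (1 ≤ p.conjExponent) := ⟨ENNReal.HolderConjugate.one_le p.conjExponent p⟩
  refine ⟨(ContinuousLinearMap.mul ℝ ℝ).lpPairing μ p.conjExponent p
    (indicatorConstLp _ hE hμ 1), fun x => ?_⟩
  rw [ContinuousLinearMap.lpPairing_eq_integral, ← integral_indicator hE]
  refine integral_congr_ae ?_
  filter_upwards [indicatorConstLp_coeFn (p := p.conjExponent) (hs := hE) (hμs := hμ) (c := (1 : ℝ))]
    with s hs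
  rw [hs]
  by_cases h : s ∈ E <;> simp [h]

/-- The test functions. -/
noncomputable def F (E : Set Ω) (D : Set (Ω × Ω)) (x : Lp ℝ p μ) : ℝ := (∫ s in E, x s ∂μ) * h D x

theorem F_lip (hp : p ≠ ∞) {E : Set Ω} (hE : MeasurableSet E) (hμ : μ E ≠ ∞) {D : Set (Ω × Ω)}
    (hD : MeasurableSet D) : IsLip (F (p := p) (μ := μ) E D) := by
  obtain ⟨φ, hφ⟩ := exists_clm (p := p) hE hμ
  have := isLip_mul φ (h D) _ (h_le D) (h_lip hp hD)
  simp only [hφ] at this
  exact this

/-- The diagonal pairing. -/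
noncomputable def γ (P : EP (Lp ℝ p μ)) {E : Set Ω} (hE : MeasurableSet E) (hμ : μ E ≠ ∞)
    (D : Set (Ω × Ω)) : ℝ := P.Q (F E D) (indicatorConstLp p hE hμ 1)

theorem γ_univ (hp : p ≠ ∞) (P : EP (Lp ℝ p μ)) {E : Set Ω} (hE : MeasurableSet E)
    (hμ : μ E ≠ ∞) : γ P hE hμ Set.univ = μ.real E := by
  obtain ⟨φ, hφ⟩ := exists_clm (p := p) hE hμ
  have : F E Set.univ = φ := by
    funext x
    rw [F, ← hφ]
    by_cases hx : x = 0
    · simp [hx]
    · rw [h, ← Set.univ_prod_univ, Measure.real, Measure.prod_prod, M_univ_eq hp hx]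
      simp
  rw [γ, this, P.proj, hφ, setIntegral_indicatorConstLp hE hE hμ]
  simp

theorem γ_union (hp : p ≠ ∞) (P : EP (Lp ℝ p μ)) {E : Set Ω} (hE : MeasurableSet E)
    (hμ : μ E ≠ ∞) {D D' : Set (Ω × Ω)} (hD : MeasurableSet D) (hD' : MeasurableSet D')
    (hd : Disjoint D D') : γ P hE hμ (D ∪ D') = γ P hE hμ D + γ P hE hμ D' := by
  have : F (p := p) (μ := μ) E (D ∪ D') = F E D + F E D' := by
    funext x
    simp only [F, h, Pi.add_apply, measureReal_union (μ := (M x).prod (M x)) hd hD', mul_add]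
  simp only [γ, this, P.add _ _ (F_lip hp hE hμ hD) (F_lip hp hE hμ hD'),
    ContinuousLinearMap.add_apply]

theorem γ_null (P : EP (Lp ℝ p μ)) [SFinite μ] {E : Set Ω} (hE : MeasurableSet E)
    (hμ : μ E ≠ ∞) {D : Set (Ω × Ω)} (h0 : (μ.prod μ) D = 0) : γ P hE hμ D = 0 := by
  have : F (p := p) (μ := μ) E D = 0 := by
    funext x
    have hx : M x ≪ μ := (withDensity_absolutelyContinuous _ _).smul_left _
    simp only [F, h, Measure.real, (hx.prod hx) h0, ENNReal.toReal_zero, mul_zero, Pi.zero_apply]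
  rw [γ, this, P.zero]
  rfl

theorem offdiag (hp : p ≠ ∞) (P : EP (Lp ℝ p μ)) {E E' : Set Ω} (hE : MeasurableSet E)
    (hμ : μ E ≠ ∞) (hE' : MeasurableSet E') (hμ' : μ E' ≠ ∞) (hd : Disjoint E E')
    {D : Set (Ω × Ω)} (hD : MeasurableSet D) :
    P.Q (F E D) (indicatorConstLp p hE' hμ' 1) = 0 := by
  classical
  let a : Ω → ℝ := fun s => if s ∈ E' then -1 else 1
  have ha : ∀ s t, ‖a s * t‖ = ‖t‖ := fun s t => by by_cases h : s ∈ E' <;> simp [a, h]
  obtain ⟨g, hg⟩ := exists_mul (p := p) (μ := μ) (ν := μ) (fun _ h => h) (fun _ h => h) a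
    (Measurable.ite hE' measurable_const measurable_const)
    (fun s => by by_cases h : s ∈ E' <;> simp [a, h])
    (fun f _ => eLpNorm_congr_norm_ae (Filter.Eventually.of_forall fun s => ha s _))
  refine P.flip g _ (F_lip hp hE hμ hD) ?_ _ ?_
  · funext x
    have hW : W (g x) = W x := by
      refine withDensity_congr_ae ?_
      filter_upwards [hg x] with s hs
      rw [hs, ← ofReal_norm_eq_enorm, ha, ofReal_norm_eq_enorm]
    have hI : ∫ s in E, g x s ∂μ = ∫ s in E, x s ∂μ := by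
      refine setIntegral_congr_ae hE ?_
      filter_upwards [hg x] with s hs hsE
      rw [hs]
      simp [a, Set.disjoint_left.1 hd hsE]
    simp only [Function.comp, F, h, M, hW, hI]
  · refine Lp.ext ?_
    filter_upwards [hg (indicatorConstLp p hE' hμ' 1), Lp.coeFn_neg (indicatorConstLp p hE' hμ' (1 : ℝ)),
      indicatorConstLp_coeFn (p := p) (hs := hE') (hμs := hμ') (c := (1 : ℝ))] with s h1 h2 h3
    rw [h1, h2, Pi.neg_apply, h3]
    by_cases h : s ∈ E' <;> simp [a, h]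

theorem γ_split (hp : p ≠ ∞) (P : EP (Lp ℝ p μ)) {E E' U : Set Ω} (hE : MeasurableSet E)
    (hμ : μ E ≠ ∞) (hE' : MeasurableSet E') (hμ' : μ E' ≠ ∞) (hd : Disjoint E E')
    (hU : MeasurableSet U) (hμU : μ U ≠ ∞) (hu : U = E ∪ E')
    {D : Set (Ω × Ω)} (hD : MeasurableSet D) :
    γ P hU hμU D = γ P hE hμ D + γ P hE' hμ' D := by
  subst hu
  have : F (p := p) (μ := μ) (E ∪ E') D = F E D + F E' D := by
    funext x
    have i : ∀ A : Set Ω, μ A ≠ ∞ → IntegrableOn x A μ := fun A hA => by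
      haveI : IsFiniteMeasure (μ.restrict A) := isFiniteMeasure_restrict.2 hA
      exact ((Lp.memLp x).restrict A).integrable hp1.out
    simp only [F, Pi.add_apply, setIntegral_union hd hE' (i E hμ) (i E' hμ'), add_mul]
  rw [γ, this, P.add _ _ (F_lip hp hE hμ hD) (F_lip hp hE' hμ' hD),
    indicatorConstLp_disjoint_union hE hE' hμ hμ' hd]
  simp only [ContinuousLinearMap.add_apply, map_add, offdiag hp P hE hμ hE' hμ' hd hD,
    offdiag hp P hE' hμ' hE hμ hd.symm hD, γ, add_zero, zero_add]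

theorem γ_inv (hp : p ≠ ∞) (P : EP (Lp ℝ p μ)) {τ σ : Ω → Ω} (hτ : MeasurePreserving τ μ μ)
    (hσ : MeasurePreserving σ μ μ) (hστ : ∀ s, σ (τ s) = s) {E E' : Set Ω} (hE : MeasurableSet E)
    (hμ : μ E ≠ ∞) (hE' : MeasurableSet E') (hμ' : μ E' ≠ ∞) (he : E' = τ ⁻¹' E)
    {D : Set (Ω × Ω)} (hD : MeasurableSet D) :
    γ P hE' hμ' (Prod.map τ τ ⁻¹' D) = γ P hE hμ D := by
  subst he
  obtain ⟨T, hT⟩ := exists_comp (p := p) hτ hσ hστ
  have hm : Measurable (Prod.map τ τ) := hτ.measurable.prodMap hτ.measurable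
  have e1 : F (τ ⁻¹' E) (Prod.map τ τ ⁻¹' D) ∘ T = F E D := by
    funext x
    have hW : ∀ A, MeasurableSet A → W (T x) (τ ⁻¹' A) = W x A := fun A hA => by
      rw [W, W, withDensity_apply _ hA, withDensity_apply _ (hτ.measurable hA),
        ← hτ.setLIntegral_comp_preimage hA
          ((Lp.stronglyMeasurable x).enorm.pow_const _)]
      refine lintegral_congr_ae (ae_restrict_of_ae ?_)
      filter_upwards [hT x] with s hs
      rw [hs, Function.comp]
    have hM : MeasurePreserving τ (M (T x)) (M x) := by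
      refine ⟨hτ.measurable, Measure.ext fun A hA => ?_⟩
      rw [Measure.map_apply hτ.measurable hA, M, M, Measure.smul_apply, Measure.smul_apply, hW A hA,
        ← hW _ MeasurableSet.univ, Set.preimage_univ]
    have hI : ∫ s in τ ⁻¹' E, T x s ∂μ = ∫ s in E, x s ∂μ := by
      rw [← (hτ.restrict_preimage hE).map_eq, integral_map hτ.measurable.aemeasurable
        (Lp.stronglyMeasurable x).aestronglyMeasurable]
      exact integral_congr_ae (ae_restrict_of_ae (hT x))
    simp only [Function.comp, F, h, hI, Measure.real, (hM.prod hM).measure_preimage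
      hD.nullMeasurableSet]
  have e2 : T (indicatorConstLp p hE hμ 1) = indicatorConstLp p hE' hμ' 1 := by
    refine Lp.ext ?_
    filter_upwards [hT (indicatorConstLp p hE hμ 1), hτ.quasiMeasurePreserving.ae_eq_comp
      (indicatorConstLp_coeFn (p := p) (hs := hE) (hμs := hμ) (c := (1 : ℝ))),
      indicatorConstLp_coeFn (p := p) (hs := hE') (hμs := hμ') (c := (1 : ℝ))] with s h1 h2 h3
    rw [h1, h2, h3]
    rfl
  have := P.eqv T _ (F_lip hp hE' hμ' (hm hD)) (indicatorConstLp p hE hμ 1)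
  rw [e1, e2] at this
  exact this.symm

end Pool.Agent.Lib.helper23.EqD
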