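import Mathlib
import Pool.Agent.Lib.helper23.EqD

set_option autoImplicit false

namespace Pool.Agent.Lib.helper23.EqE

open scoped NNReal ENNReal
open MeasureTheory ProbabilityTheory Set Pool.Agent.Lib.helper23.EqA Pool.Agent.Lib.helper23.EqD

theorem cdf_cont (ν : Measure ℝ) [IsProbabilityMeasure ν] [NullSingletonClass ν] :
    Continuous (cdf ν) := by
  refine continuous_iff_continuousAt.2 fun x => ?_
  rw [(monotone_cdf ν).continuousAt_iff_leftLim_eq_rightLim, StieltjesFunction.rightLim_eq]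
  have h1 := (cdf ν).measure_singleton x
  rw [measure_cdf, measure_singleton, eq_comm, ENNReal.ofReal_eq_zero] at h1
  have h2 := (monotone_cdf ν).leftLim_le (le_refl x)
  linarith

theorem map_cdf (ν : Measure ℝ) [IsProbabilityMeasure ν] [NullSingletonClass ν] :
    MeasurePreserving (cdf ν) ν (volume.restrict (Icc (0 : ℝ) 1)) := by
  have hc := cdf_cont ν
  refine ⟨hc.measurable, Measure.ext_of_Iic _ _ fun u => ?_⟩
  rw [Measure.map_apply hc.measurable measurableSet_Iic, Measure.restrict_apply measurableSet_Iic]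
  rcases le_or_gt 1 u with h1 | h1
  · have e1 : cdf ν ⁻¹' Iic u = univ := eq_univ_of_forall fun x => (cdf_le_one ν x).trans h1
    have e2 : Iic u ∩ Icc (0 : ℝ) 1 = Icc 0 1 := inter_eq_right.2 fun x hx => hx.2.trans h1
    simp [e1, e2]
  have e2 : Iic u ∩ Icc (0 : ℝ) 1 = Icc 0 u := by
    ext x
    exact ⟨fun h => ⟨h.2.1, h.1⟩, fun h => ⟨h.2, h.1, h.2.trans h1.le⟩⟩
  rw [e2, Real.volume_Icc, sub_zero]
  rcases (cdf ν ⁻¹' Iic u).eq_empty_or_nonempty with h | h
  · rw [h, measure_empty, eq_comm, ENNReal.ofReal_eq_zero]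
    by_contra hu
    obtain ⟨x, hx⟩ := ((tendsto_cdf_atBot ν).eventually (gt_mem_nhds (not_le.1 hu))).exists
    have : x ∈ cdf ν ⁻¹' Iic u := hx.le
    rw [h] at this
    exact this
  have hb : BddAbove (cdf ν ⁻¹' Iic u) := by
    obtain ⟨x, hx⟩ := ((tendsto_cdf_atTop ν).eventually (lt_mem_nhds h1)).exists
    exact ⟨x, fun y hy => not_lt.1 fun hxy => (hx.trans_le (monotone_cdf ν hxy.le)).not_ge hy⟩
  have hm := (isClosed_Iic.preimage hc).csSup_mem h hb
  set b := sSup (cdf ν ⁻¹' Iic u)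
  have e3 : cdf ν ⁻¹' Iic u = Iic b := by
    ext x
    exact ⟨fun hx => le_csSup hb hx, fun hx => (monotone_cdf ν hx).trans hm⟩
  have e4 : cdf ν b = u := by
    refine le_antisymm hm (not_lt.1 fun hlt => ?_)
    have h2 : ∀ᶠ x in nhdsWithin b (Ioi b), cdf ν x < u :=
      nhdsWithin_le_nhds (hc.continuousAt.eventually (gt_mem_nhds hlt))
    obtain ⟨x, hx, hx2⟩ := (h2.and self_mem_nhdsWithin).exists
    exact (le_csSup hb (show x ∈ cdf ν ⁻¹' Iic u from hx.le)).not_gt hx2
  rw [e3, ← ofReal_cdf, e4]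

theorem exists_inj (ν : Measure ℝ) [IsProbabilityMeasure ν] [NullSingletonClass ν] :
    ∃ f : ℝ → ℝ, Function.Injective f ∧ MeasurePreserving f ν (volume.restrict (Icc (0 : ℝ) 1)) := by
  classical
  have hF := map_cdf ν
  let S : Set ℝ := ⋃ q : ℚ, Ioi (q : ℝ) ∩ cdf ν ⁻¹' {cdf ν q}
  have hS : MeasurableSet S := MeasurableSet.iUnion fun q =>
    measurableSet_Ioi.inter (hF.measurable (measurableSet_singleton _))
  have h0 : ν S = 0 := measure_iUnion_null fun q => measure_mono_null inter_subset_right (by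
    rw [hF.measure_preimage (measurableSet_singleton _).nullMeasurableSet]
    exact measure_singleton _)
  let f : ℝ → ℝ := fun x => if x ∈ S then 1 + Real.exp x else cdf ν x
  have hf : Measurable f := Measurable.ite hS (by fun_prop) hF.measurable
  have key : ∀ x y, x < y → y ∉ S → cdf ν x ≠ cdf ν y := fun x y hxy hy h => by
    obtain ⟨q, h1, h2⟩ := exists_rat_btwn hxy
    refine hy (mem_iUnion.2 ⟨q, h2, le_antisymm ?_ (monotone_cdf ν h2.le)⟩)
    rw [← h]
    exact monotone_cdf ν h1.le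
  refine ⟨f, fun x y h => ?_, hF.congr hf ?_⟩
  · by_cases hx : x ∈ S <;> by_cases hy : y ∈ S <;> simp only [f, hx, hy, if_true, if_false] at h
    · exact Real.exp_injective (add_left_cancel h)
    · linarith [Real.exp_pos x, cdf_le_one ν y]
    · linarith [Real.exp_pos y, cdf_le_one ν x]
    · rcases lt_trichotomy x y with h1 | h1 | h1
      · exact absurd h (key x y h1 hy)
      · exact h1
      · exact absurd h.symm (key y x h1 hx)
  · filter_upwards [measure_eq_zero_iff_ae_notMem.1 h0] with x hx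
    simp only [f, hx, if_false]

variable {p : ℝ≥0∞} [hp1 : Fact (1 ≤ p)]

theorem iso_prob {Ω : Type} [MeasurableSpace Ω] [StandardBorelSpace Ω] [Nonempty Ω]
    (ν : Measure Ω) [IsProbabilityMeasure ν] [NullSingletonClass ν] :
    Nonempty (Lp ℝ p (volume.restrict (Icc (0 : ℝ) 1)) ≃ₗᵢ[ℝ] Lp ℝ p ν) := by
  have he := measurableEmbedding_embeddingReal Ω
  haveI := Measure.isProbabilityMeasure_map (μ := ν) he.measurable.aemeasurable
  haveI : NullSingletonClass (ν.map (embeddingReal Ω)) := ⟨fun x => by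
    rw [he.map_apply]
    exact (subsingleton_singleton.preimage he.injective).measure_zero _⟩
  obtain ⟨f, hi, hf⟩ := exists_inj (ν.map (embeddingReal Ω))
  have h1 : MeasurePreserving (f ∘ embeddingReal Ω) ν _ := hf.comp ⟨he.measurable, rfl⟩
  have h2 : MeasurableEmbedding (f ∘ embeddingReal Ω) :=
    h1.measurable.measurableEmbedding (hi.comp he.injective)
  have h3 : MeasurePreserving h2.invFun (volume.restrict (Icc (0 : ℝ) 1)) ν := by
    refine ⟨h2.measurable_invFun, ?_⟩
    rw [← h1.map_eq, Measure.map_map h2.measurable_invFun h1.measurable,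
      h2.leftInverse_invFun.comp_eq_id, Measure.map_id]
  obtain ⟨T, _⟩ := exists_comp (p := p) h1 h3 h2.leftInverse_invFun
  exact ⟨T⟩

theorem iso_sigma (hp : p ≠ ∞) {Ω : Type} [MeasurableSpace Ω] [StandardBorelSpace Ω] [Nonempty Ω]
    (μ : Measure Ω) [SigmaFinite μ] [NullSingletonClass μ] (h0 : μ ≠ 0) :
    Nonempty (Lp ℝ p (volume.restrict (Icc (0 : ℝ) 1)) ≃ₗᵢ[ℝ] Lp ℝ p μ) := by
  obtain ⟨g, hg, hm, hi⟩ := exists_pos_lintegral_lt_of_sigmaFinite μ one_ne_zero
  have hc : ∫⁻ x, g x ∂μ ≠ 0 := fun h => by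
    rw [lintegral_eq_zero_iff hm.coe_nnreal_ennreal] at h
    refine h0 (ae_eq_bot.1 (Filter.eventually_false_iff_eq_bot.1 (h.mono fun x hx => ?_)))
    exact (hg x).ne' (by simpa using hx)
  have ht : ∫⁻ x, g x ∂μ ≠ ∞ := hi.ne_top
  let ρ : Ω → ℝ≥0∞ := fun x => (∫⁻ x, g x ∂μ)⁻¹ * g x
  have hρ : Measurable ρ := hm.coe_nnreal_ennreal.const_mul _
  have ρ0 : ∀ x, ρ x ≠ 0 := fun x =>
    mul_ne_zero (ENNReal.inv_ne_zero.2 ht) (by simpa using (hg x).ne')
  have ρt : ∀ x, ρ x ≠ ∞ := fun x => ENNReal.mul_ne_top (ENNReal.inv_ne_top.2 hc) ENNReal.coe_ne_top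
  haveI : IsProbabilityMeasure (μ.withDensity ρ) := ⟨by
    rw [withDensity_apply _ MeasurableSet.univ, Measure.restrict_univ,
      lintegral_const_mul _ hm.coe_nnreal_ennreal, ENNReal.inv_mul_cancel hc ht]⟩
  obtain ⟨T⟩ := iso_prob (p := p) (μ.withDensity ρ)
  obtain ⟨U, _⟩ := exists_mul (p := p) (μ := μ) (ν := μ.withDensity ρ)
    (withDensity_absolutelyContinuous' hρ.aemeasurable (Filter.Eventually.of_forall ρ0))
    (withDensity_absolutelyContinuous _ _) (fun x => (ρ x ^ p.toReal⁻¹).toReal)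
    (hρ.pow_const _).ennreal_toReal
    (fun x => (ENNReal.toReal_pos (ENNReal.rpow_pos (pos_iff_ne_zero.2 (ρ0 x)) (ρt x)).ne'
      (ENNReal.rpow_ne_top_of_nonneg (by positivity) (ρt x))).ne')
    (fun f hf => by
      rw [eLpNorm_eq_lintegral_rpow_enorm_toReal p0 hp, eLpNorm_eq_lintegral_rpow_enorm_toReal p0 hp,
        lintegral_withDensity_eq_lintegral_mul₀' hρ.aemeasurable (hf.enorm.pow_const _)]
      congr 1
      refine lintegral_congr fun x => ?_
      rw [enorm_mul, ENNReal.mul_rpow_of_nonneg _ _ (q_pos hp).le, Real.enorm_eq_ofReal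
        ENNReal.toReal_nonneg, ENNReal.ofReal_toReal
        (ENNReal.rpow_ne_top_of_nonneg (by positivity) (ρt x)),
        ENNReal.rpow_inv_rpow (q_pos hp).ne', Pi.mul_apply])
  exact ⟨T.trans U⟩

/-- A wandering set has no mass under an invariant additive set function. -/
theorem wander {α : Type} [MeasurableSpace α] (c : Set α → ℝ)
    (hadd : ∀ A B, MeasurableSet A → MeasurableSet B → Disjoint A B → c (A ∪ B) = c A + c B)
    {a : α → α} (ha : Measurable a) (hinv : ∀ A, MeasurableSet A → c (a ⁻¹' A) = c A)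
    {B : Set α} (hB : MeasurableSet B) (hw : ∀ n, Disjoint B (a^[n + 1] ⁻¹' B)) : c B = 0 := by
  have hU : MeasurableSet (⋃ n, a^[n] ⁻¹' B) := MeasurableSet.iUnion fun n => ha.iterate n hB
  have e1 : a ⁻¹' (⋃ n, a^[n] ⁻¹' B) = ⋃ n, a^[n + 1] ⁻¹' B := by
    rw [preimage_iUnion]
    rfl
  have e2 : (⋃ n, a^[n] ⁻¹' B) = B ∪ a ⁻¹' (⋃ n, a^[n] ⁻¹' B) := by
    rw [e1]
    exact (union_iUnion_nat_succ fun n => a^[n] ⁻¹' B).symm
  have h1 := hadd B _ hB (ha hU) (by rw [e1]; exact disjoint_iUnion_right.2 hw)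
  rw [← e2, hinv _ hU] at h1
  linarith

theorem no_EP_plane (hp : p ≠ ∞) :
    IsEmpty (EP (Lp ℝ p ((volume : Measure ℝ).prod (volume : Measure ℝ)))) := by
  refine ⟨fun P => ?_⟩
  let d : (ℝ × ℝ) × (ℝ × ℝ) → ℝ × ℝ := fun z => z.1 - z.2
  have hd : Measurable d := measurable_fst.sub measurable_snd
  let Q : Set (ℝ × ℝ) := Ico 0 1 ×ˢ Ico 0 1
  have hQ : MeasurableSet Q := measurableSet_Ico.prod measurableSet_Ico
  have vQ : (volume : Measure ℝ).prod (volume : Measure ℝ) Q = 1 := by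
    rw [Measure.prod_prod]
    simp
  have fQ : (volume : Measure ℝ).prod (volume : Measure ℝ) Q ≠ ∞ := by simp [vQ]
  let c : Set (ℝ × ℝ) → ℝ := fun B => γ P hQ fQ (d ⁻¹' B)
  have hadd : ∀ A B, MeasurableSet A → MeasurableSet B → Disjoint A B → c (A ∪ B) = c A + c B :=
    fun A B hA hB h => γ_union hp P hQ fQ (hd hA) (hd hB) (h.preimage d)
  have hsw : ∀ A, MeasurableSet A → c (Prod.swap ⁻¹' A) = c A := fun A hA =>
    γ_inv hp P Measure.measurePreserving_swap Measure.measurePreserving_swap Prod.swap_swap hQ fQ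
      hQ fQ (by ext z; exact and_comm) (hd hA)
  let a : ℝ × ℝ → ℝ × ℝ := fun z => (z.1, z.1 + z.2)
  have ha : MeasurePreserving a _ _ := measurePreserving_prod_add volume volume
  have hsh : ∀ A, MeasurableSet A → c (a ⁻¹' A) = c A := fun A hA => by
    let H : Set (ℝ × ℝ) := {z | z.1 + z.2 < 1}
    have hH : MeasurableSet H := measurableSet_lt (measurable_fst.add measurable_snd) measurable_const
    let t : ℝ × ℝ → ℝ × ℝ := Prod.map id (fun y => y + 1)
    have ht : MeasurePreserving t _ _ :=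
      (MeasurePreserving.id volume).prod (measurePreserving_add_right volume 1)
    have ht' : MeasurePreserving (Prod.map id (fun y => y + -1) : ℝ × ℝ → ℝ × ℝ) _ _ :=
      (MeasurePreserving.id volume).prod (measurePreserving_add_right volume (-1))
    have f1 : (volume : Measure ℝ).prod (volume : Measure ℝ) (Q ∩ H) ≠ ∞ :=
      ne_top_of_le_ne_top fQ (measure_mono inter_subset_left)
    have f2 : (volume : Measure ℝ).prod (volume : Measure ℝ) (Q \ H) ≠ ∞ :=
      ne_top_of_le_ne_top fQ (measure_mono diff_subset)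
    have f3 : (volume : Measure ℝ).prod (volume : Measure ℝ) (t ⁻¹' (Q \ H)) ≠ ∞ := by
      rwa [ht.measure_preimage (hQ.diff hH).nullMeasurableSet]
    have f4 : (volume : Measure ℝ).prod (volume : Measure ℝ) (a ⁻¹' Q) ≠ ∞ := by
      rwa [ha.measure_preimage hQ.nullMeasurableSet]
    have hD := hd (ha.measurable hA)
    have e1 := γ_inv hp P ha (measurePreserving_prod_neg_add volume volume)
      (fun z => by simp [a]) hQ fQ (ha.measurable hQ) f4 rfl (hd hA)
    have e2 : Prod.map a a ⁻¹' (d ⁻¹' A) = d ⁻¹' (a ⁻¹' A) := by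
      ext z
      have : d (Prod.map a a z) = a (d z) := Prod.ext rfl (by simp [a, d]; ring)
      simp only [mem_preimage, this]
    have e3 := γ_inv hp P ht ht' (fun z => Prod.ext rfl (by simp [t])) (hQ.diff hH) f2
      (ht.measurable (hQ.diff hH)) f3 rfl hD
    have e4 : Prod.map t t ⁻¹' (d ⁻¹' (a ⁻¹' A)) = d ⁻¹' (a ⁻¹' A) := by
      ext z
      have : d (Prod.map t t z) = d z := Prod.ext rfl (by simp [t, d])
      simp only [mem_preimage, this]
    have e5 := γ_split hp P (hQ.inter hH) f1 (hQ.diff hH) f2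
      (disjoint_left.2 fun z h1 h2 => h2.2 h1.2) hQ fQ (inter_union_diff Q H).symm hD
    have e6 := γ_split hp P (hQ.inter hH) f1 (ht.measurable (hQ.diff hH)) f3
      (disjoint_left.2 fun z h1 h2 => by
        have := h1.1.2.1
        have : z.2 + 1 < 1 := h2.1.2.2
        linarith) (ha.measurable hQ) f4 (by
        ext z
        simp only [a, t, Q, H, mem_preimage, mem_prod, mem_Ico, mem_union, mem_inter_iff, mem_diff,
          mem_setOf_eq, Prod.map_fst, Prod.map_snd, id, not_lt]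
        constructor
        · rintro ⟨⟨h1, h2⟩, h3, h4⟩
          rcases le_or_gt 0 z.2 with h | h
          · exact Or.inl ⟨⟨⟨h1, h2⟩, h, by linarith⟩, h4⟩
          · exact Or.inr ⟨⟨⟨h1, h2⟩, by linarith, by linarith⟩, by linarith⟩
        · rintro (⟨⟨⟨h1, h2⟩, h3, h4⟩, h5⟩ | ⟨⟨⟨h1, h2⟩, h3, h4⟩, h5⟩)
          · exact ⟨⟨h1, h2⟩, by linarith, h5⟩
          · exact ⟨⟨h1, h2⟩, by linarith, by linarith⟩) hD
    rw [e2] at e1
    rw [e4] at e3
    simp only [c]
    linarith
  have hw : ∀ B : Set (ℝ × ℝ), MeasurableSet B → (∀ z ∈ B, z.1 ≠ 0 ∧ |z.2| ≤ |z.1|) → c B = 0 := by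
    intro B hB h
    refine wander c hadd (a := a ∘ a ∘ a) (ha.measurable.comp (ha.measurable.comp ha.measurable))
      (fun A hA => ?_) hB fun n => disjoint_left.2 fun z h1 h2 => ?_
    · rw [preimage_comp, preimage_comp, hsh _ (ha.measurable (ha.measurable hA)),
        hsh _ (ha.measurable hA), hsh _ hA]
    · have e : ∀ k : ℕ, (a ∘ a ∘ a)^[k] z = (z.1, 3 * k * z.1 + z.2) := fun k => by
        induction k with
        | zero => simp
        | succ k ih =>
          rw [Function.iterate_succ_apply', ih]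
          refine Prod.ext rfl ?_
          simp only [a, Function.comp]
          push_cast
          ring
      have h3 := (h _ h2).2
      rw [e] at h3
      have h4 := h _ h1
      have h5 : 0 < |z.1| := abs_pos.2 h4.1
      have h6 := abs_sub (3 * ((n + 1 : ℕ) : ℝ) * z.1 + z.2) z.2
      rw [add_sub_cancel_right, abs_mul, abs_of_nonneg (by positivity)] at h6
      have h7 : (0 : ℝ) ≤ n := Nat.cast_nonneg n
      push_cast at h3 h6
      nlinarith [h4.2]
  let B₁ : Set (ℝ × ℝ) := {z | z.1 ≠ 0} ∩ {z | |z.2| ≤ |z.1|}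
  let B₂ : Set (ℝ × ℝ) := {z | |z.2| < |z.1|}
  have m1 : MeasurableSet B₁ := (measurable_fst (measurableSet_singleton 0).compl).inter
    (measurableSet_le (by fun_prop) (by fun_prop))
  have m2 : MeasurableSet B₂ := measurableSet_lt (by fun_prop) (by fun_prop)
  have c1 : c B₁ = 0 := hw _ m1 fun z hz => hz
  have c2 : c (Prod.swap ⁻¹' B₂) = 0 := (hsw _ m2).trans
    (hw _ m2 fun z hz => ⟨abs_pos.1 ((abs_nonneg _).trans_lt hz), le_of_lt hz⟩)
  have c3 : c {0} = 0 := γ_null P hQ fQ (by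
    rw [Measure.prod_apply (hd (measurableSet_singleton 0))]
    refine (lintegral_congr fun z => ?_).trans lintegral_zero
    refine measure_mono_null (fun w hw => ?_) (measure_singleton z)
    exact (sub_eq_zero.1 hw).symm)
  have c4 : c univ = 1 := by
    simp only [c, preimage_univ]
    rw [γ_univ hp, Measure.real, vQ, ENNReal.toReal_one]
  have s1 := hadd _ _ m1 (measurable_swap m2) (disjoint_left.2 fun z h1 h2 =>
    (show |z.1| < |z.2| from h2).not_ge h1.2)
  have s2 := hadd _ _ (m1.union (measurable_swap m2)) (measurableSet_singleton 0)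
    (disjoint_left.2 fun z h1 h2 => by
      rw [mem_singleton_iff.1 h2] at h1
      rcases h1 with h1 | h1
      · exact h1.1 rfl
      · exact lt_irrefl _ (show |(0 : ℝ)| < |0| from h1))
  have s3 : B₁ ∪ Prod.swap ⁻¹' B₂ ∪ {0} = univ := eq_univ_of_forall fun z => by
    rcases lt_or_ge |z.1| |z.2| with h | h
    · exact Or.inl (Or.inr h)
    · by_cases h1 : z.1 = 0
      · refine Or.inr (Prod.ext h1 ?_)
        rw [h1, abs_zero] at h
        exact abs_nonpos_iff.1 h
      · exact Or.inl (Or.inl ⟨h1, h⟩)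
  rw [s3] at s2
  linarith

theorem no_EP (hp : p ≠ ∞) : IsEmpty (EP (Lp ℝ p (volume.restrict (Icc (0 : ℝ) 1)))) := by
  refine ⟨fun P => ?_⟩
  obtain ⟨T⟩ := iso_sigma hp ((volume : Measure ℝ).prod (volume : Measure ℝ)) (by
    intro h
    have := congrArg (fun m : Measure (ℝ × ℝ) => m (Ico 0 1 ×ˢ Ico 0 1)) h
    simp [Measure.prod_prod] at this)
  exact (no_EP_plane hp).false (P.transfer T)

end Pool.Agent.Lib.helper23.EqE
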