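import Mathlib

set_option autoImplicit false

namespace Pool.Agent.Lib.helper23.FB

universe u

/-- The norm of `X` is octahedral. -/
def Octahedral (X : Type u) [NormedAddCommGroup X] [NormedSpace ℝ X] : Prop :=
  ∀ Y : Submodule ℝ X, FiniteDimensional ℝ Y → ∀ ε : ℝ, 0 < ε → ∃ y : X, ‖y‖ = 1 ∧
    ∀ z ∈ Y, ∀ t : ℝ, (1 - ε) * (‖z‖ + |t|) ≤ ‖z + t • y‖

/-- `X` has the Daugavet property. -/
def Daugavet (X : Type u) [NormedAddCommGroup X] [NormedSpace ℝ X] : Prop :=
  ∀ T : X →L[ℝ] X, Module.finrank ℝ (LinearMap.range T.toLinearMap) = 1 →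
    ‖ContinuousLinearMap.id ℝ X + T‖ = 1 + ‖T‖

variable (E : Type u) [NormedAddCommGroup E] [NormedSpace ℝ E]

/-- The numbers whose supremum is the free norm of a function on the dual space. -/
def vals (f : StrongDual ℝ E → ℝ) : Set ℝ :=
  {r | ∃ (m : ℕ) (x : Fin m → StrongDual ℝ E),
    (∀ v : E, ‖v‖ ≤ 1 → ∑ i, |x i v| ≤ 1) ∧ r = ∑ i, |f (x i)|}

variable {E} in
theorem zero_mem_vals (f : StrongDual ℝ E → ℝ) : 0 ∈ vals E f :=
  ⟨0, Fin.elim0, by simp, by simp⟩

variable {E} in
theorem vals_add {f g : StrongDual ℝ E → ℝ} {a b : ℝ} (ha : a ∈ upperBounds (vals E f))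
    (hb : b ∈ upperBounds (vals E g)) : a + b ∈ upperBounds (vals E (f + g)) := by
  rintro _ ⟨m, x, hx, rfl⟩
  refine le_trans ?_ (add_le_add (ha ⟨m, x, hx, rfl⟩) (hb ⟨m, x, hx, rfl⟩))
  rw [← Finset.sum_add_distrib]
  exact Finset.sum_le_sum fun i _ => abs_add_le _ _

variable {E} in
theorem vals_smul {f : StrongDual ℝ E → ℝ} {a : ℝ} (c : ℝ) (ha : a ∈ upperBounds (vals E f)) :
    |c| * a ∈ upperBounds (vals E (c • f)) := by
  rintro _ ⟨m, x, hx, rfl⟩
  refine le_trans ?_ (mul_le_mul_of_nonneg_left (ha ⟨m, x, hx, rfl⟩) (abs_nonneg c))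
  simp [Finset.mul_sum, abs_mul]

/-- Positively homogeneous functions on the dual space with finite free norm. -/
def HSub : Submodule ℝ (StrongDual ℝ E → ℝ) where
  carrier := {f | (∀ t : ℝ, 0 ≤ t → ∀ x, f (t • x) = t * f x) ∧ BddAbove (vals E f)}
  add_mem' := fun ⟨h1, _, ha⟩ ⟨h2, _, hb⟩ =>
    ⟨fun t ht x => by simp [h1 t ht, h2 t ht, mul_add], _, vals_add ha hb⟩
  zero_mem' := ⟨by simp, 0, by rintro _ ⟨m, x, -, rfl⟩; simp⟩
  smul_mem' := fun c _ ⟨h1, _, ha⟩ =>
    ⟨fun t ht x => by simp [h1 t ht, mul_left_comm], _, vals_smul c ha⟩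

/-- The space `H[E]`. -/
def H : Type u := HSub E

noncomputable instance : AddCommGroup (H E) := (inferInstance : AddCommGroup (HSub E))

noncomputable instance : Module ℝ (H E) := (inferInstance : Module ℝ (HSub E))

variable {E} in
theorem abs_le_sSup (f : HSub E) (x : StrongDual ℝ E) :
    |f.1 x| ≤ ‖x‖ * sSup (vals E f.1) := by
  rcases eq_or_ne x 0 with rfl | hx
  · simpa using f.2.1 0 le_rfl 0
  · have hp : 0 < ‖x‖ := norm_pos_iff.2 hx
    have h : |f.1 (‖x‖⁻¹ • x)| ≤ sSup (vals E f.1) := le_csSup f.2.2 ⟨1, fun _ => ‖x‖⁻¹ • x,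
      fun v hv => by
        simpa [abs_mul, inv_mul_le_one₀ hp] using x.unit_le_opNorm v hv, by simp⟩
    rwa [f.2.1 _ (inv_nonneg.2 hp.le), abs_mul, abs_of_pos (inv_pos.2 hp),
      inv_mul_le_iff₀ hp] at h

/-- The free norm on `H[E]`. -/
noncomputable instance : NormedAddCommGroup (H E) :=
  AddGroupNorm.toNormedAddCommGroup
    { toFun := fun f => sSup (vals E (f : HSub E).1)
      map_zero' := le_antisymm (csSup_le ⟨_, zero_mem_vals _⟩ (by
        rintro _ ⟨m, x, -, rfl⟩
        exact (Finset.sum_eq_zero fun _ _ => abs_zero).le))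
        (le_csSup (0 : HSub E).2.2 (zero_mem_vals _))
      add_le' := fun f g => csSup_le ⟨_, zero_mem_vals _⟩
        (vals_add (fun _ h => le_csSup f.2.2 h) (fun _ h => le_csSup g.2.2 h))
      neg' := fun f => congrArg sSup (Set.ext fun _ => exists₂_congr fun _ _ =>
        and_congr_right fun _ => Eq.congr_right (Finset.sum_congr rfl fun _ _ => abs_neg _))
      eq_zero_of_map_eq_zero' := fun f hf => Subtype.ext (funext fun x => by
        have h := abs_le_sSup f x
        rw [hf, mul_zero] at h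
        exact abs_nonpos_iff.1 h) }

noncomputable instance : NormedSpace ℝ (H E) where
  norm_smul_le c f := csSup_le ⟨_, zero_mem_vals _⟩ (vals_smul c fun _ h => le_csSup f.2.2 h)

/-- The vector sublattice of functions on the dual generated by the evaluations. -/
inductive Gen : (StrongDual ℝ E → ℝ) → Prop
  | delta (v : E) : Gen fun x => x v
  | add {f g} : Gen f → Gen g → Gen (f + g)
  | smul (c : ℝ) {f} : Gen f → Gen (c • f)
  | sup {f g} : Gen f → Gen g → Gen (f ⊔ g)
  | inf {f g} : Gen f → Gen g → Gen (f ⊓ g)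

/-- The generated vector sublattice, as a subspace of `H[E]`. -/
def genSub : Submodule ℝ (H E) where
  carrier := {f | Gen E (f : HSub E).1}
  add_mem' := Gen.add
  zero_mem' := by
    have h := Gen.smul 0 (Gen.delta (0 : E))
    rwa [zero_smul] at h
  smul_mem' c _ := Gen.smul c

/-- The free Banach lattice over `E`: the norm closure of the generated sublattice. -/
noncomputable abbrev FBL : Submodule ℝ (H E) := (genSub E).topologicalClosure

end Pool.Agent.Lib.helper23.FB
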