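import Mathlib
import Pool.Agent.Lib.helper23.FBDef

set_option autoImplicit false

namespace Pool.Agent.Lib.helper23.FB

universe u

variable {E : Type u} [NormedAddCommGroup E] [NormedSpace ℝ E]

theorem norm_def (f : H E) : ‖f‖ = sSup (vals E f.1) := rfl

theorem sum_le (f : H E) {ι : Type} [Fintype ι] (x : ι → StrongDual ℝ E) {c : ℝ} (hc : 0 < c)
    (hx : ∀ v : E, ‖v‖ ≤ 1 → ∑ i, |x i v| ≤ c) : ∑ i, |f.1 (x i)| ≤ c * ‖f‖ := by
  let e := (Fintype.equivFin ι).symm
  have h : ∑ i, |f.1 (c⁻¹ • x (e i))| ≤ ‖f‖ := le_csSup f.2.2 ⟨_, fun i => c⁻¹ • x (e i),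
    fun v hv => by
      simp only [ContinuousLinearMap.smul_apply, smul_eq_mul, abs_mul, abs_of_pos (inv_pos.2 hc)]
      rw [← Finset.mul_sum, e.sum_comp fun i => |x i v|, inv_mul_le_one₀ hc]
      exact hx v hv, rfl⟩
  simp only [f.2.1 _ (inv_nonneg.2 hc.le), abs_mul, abs_of_pos (inv_pos.2 hc)] at h
  rwa [← Finset.mul_sum, e.sum_comp fun i => |f.1 (x i)|, inv_mul_le_iff₀ hc] at h

theorem exists_fam (f : H E) {ε : ℝ} (hε : 0 < ε) : ∃ (m : ℕ) (x : Fin m → StrongDual ℝ E),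
    (∀ v : E, ‖v‖ ≤ 1 → ∑ i, |x i v| ≤ 1) ∧ ‖f‖ - ε < ∑ i, |f.1 (x i)| := by
  obtain ⟨_, ⟨m, x, hx, rfl⟩, h⟩ := exists_lt_of_lt_csSup ⟨_, zero_mem_vals f.1⟩
    (show ‖f‖ - ε < sSup (vals E f.1) by rw [norm_def]; linarith)
  exact ⟨m, x, hx, h⟩

theorem norm_le (f : H E) {c : ℝ} (h : ∀ (m : ℕ) (x : Fin m → StrongDual ℝ E),
    (∀ v : E, ‖v‖ ≤ 1 → ∑ i, |x i v| ≤ 1) → ∑ i, |f.1 (x i)| ≤ c) : ‖f‖ ≤ c :=
  csSup_le ⟨_, zero_mem_vals _⟩ (by rintro _ ⟨m, x, hx, rfl⟩; exact h m x hx)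

theorem abs_le_norm (f : H E) (x : StrongDual ℝ E) : |f.1 x| ≤ ‖x‖ * ‖f‖ := abs_le_sSup f x

theorem sum_le_norm {ι : Type} [Fintype ι] {x : ι → StrongDual ℝ E} {c : ℝ}
    (hx : ∀ v : E, ‖v‖ ≤ 1 → ∑ i, |x i v| ≤ c) (v : E) : ∑ i, |x i v| ≤ c * ‖v‖ := by
  rcases eq_or_ne v 0 with rfl | hv
  · simp
  · have hp : 0 < ‖v‖ := norm_pos_iff.2 hv
    have h := hx (‖v‖⁻¹ • v) (by simp [norm_smul, hp.ne'])
    simp only [map_smul, smul_eq_mul, abs_mul, abs_of_pos (inv_pos.2 hp)] at h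
    rwa [← Finset.mul_sum, inv_mul_le_iff₀ hp, mul_comm] at h

theorem vals_mono {f g h : StrongDual ℝ E → ℝ} {a b : ℝ} (ha : a ∈ upperBounds (vals E f))
    (hb : b ∈ upperBounds (vals E g)) (hh : ∀ x, |h x| ≤ |f x| + |g x|) :
    a + b ∈ upperBounds (vals E h) := by
  rintro _ ⟨m, x, hx, rfl⟩
  refine le_trans ?_ (add_le_add (ha ⟨m, x, hx, rfl⟩) (hb ⟨m, x, hx, rfl⟩))
  rw [← Finset.sum_add_distrib]
  exact Finset.sum_le_sum fun i _ => hh _

theorem Gen.mem {f : StrongDual ℝ E → ℝ} (hf : Gen E f) : f ∈ HSub E := by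
  induction hf with
  | delta v => exact ⟨fun t _ x => rfl, 1 * ‖v‖, by
      rintro _ ⟨m, x, hx, rfl⟩; exact sum_le_norm hx v⟩
  | add _ _ h1 h2 => exact add_mem h1 h2
  | smul c _ h => exact Submodule.smul_mem _ c h
  | sup _ _ h1 h2 =>
    obtain ⟨a, ha⟩ := h1.2
    obtain ⟨b, hb⟩ := h2.2
    refine ⟨fun t ht x => ?_, _, vals_mono ha hb fun x => ?_⟩
    · simp [h1.1 t ht, h2.1 t ht, mul_max_of_nonneg _ _ ht]
    · exact norm_sup_le_add (_ : ℝ) _
  | inf _ _ h1 h2 =>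
    obtain ⟨a, ha⟩ := h1.2
    obtain ⟨b, hb⟩ := h2.2
    refine ⟨fun t ht x => ?_, _, vals_mono ha hb fun x => ?_⟩
    · simp [h1.1 t ht, h2.1 t ht, mul_min_of_nonneg _ _ ht]
    · exact norm_inf_le_add (_ : ℝ) _

theorem Gen.zero : Gen E 0 := (genSub E).zero_mem

theorem Gen.neg {f : StrongDual ℝ E → ℝ} (hf : Gen E f) : Gen E (-f) := by
  simpa using hf.smul (-1)

theorem Gen.sub {f g : StrongDual ℝ E → ℝ} (hf : Gen E f) (hg : Gen E g) : Gen E (f - g) := by
  simpa [sub_eq_add_neg] using hf.add hg.neg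

theorem Gen.abs {f : StrongDual ℝ E → ℝ} (hf : Gen E f) : Gen E |f| := hf.sup hf.neg

theorem Gen.sum {ι : Type} (s : Finset ι) {f : ι → StrongDual ℝ E → ℝ} (hf : ∀ i, Gen E (f i)) :
    Gen E (∑ i ∈ s, f i) :=
  Finset.sum_induction _ _ (fun _ _ => Gen.add) Gen.zero fun i _ => hf i

/-- An element of the generated sublattice as a member of the free lattice. -/
noncomputable def mk (f : StrongDual ℝ E → ℝ) (hf : Gen E f) : FBL E :=
  ⟨⟨f, hf.mem⟩, (genSub E).le_topologicalClosure hf⟩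

theorem exists_gen (f : FBL E) {ε : ℝ} (hε : 0 < ε) :
    ∃ g : FBL E, Gen E g.1.1 ∧ ‖f - g‖ < ε := by
  obtain ⟨g, hg, h⟩ := Metric.mem_closure_iff.1 f.2 ε hε
  exact ⟨⟨g, (genSub E).le_topologicalClosure hg⟩, hg, by rwa [dist_eq_norm] at h⟩

theorem Gen.fin {f : StrongDual ℝ E → ℝ} (hf : Gen E f) : ∃ F : Submodule ℝ E,
    FiniteDimensional ℝ F ∧ ∃ C : ℝ, 0 ≤ C ∧ ∀ (x y : StrongDual ℝ E) (r : ℝ), 0 ≤ r →
      (∀ v ∈ F, |x v - y v| ≤ r * ‖v‖) → |f x - f y| ≤ C * r := by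
  induction hf with
  | delta v => exact ⟨Submodule.span ℝ {v}, inferInstance, ‖v‖, norm_nonneg _, fun x y r _ h => by
      rw [mul_comm]; exact h v (Submodule.mem_span_singleton_self v)⟩
  | smul c _ h =>
    obtain ⟨F, hF, C, hC, h⟩ := h
    refine ⟨F, hF, |c| * C, by positivity, fun x y r hr hxy => ?_⟩
    simp only [Pi.smul_apply, smul_eq_mul, ← mul_sub, abs_mul, mul_assoc]
    exact mul_le_mul_of_nonneg_left (h x y r hr hxy) (abs_nonneg c)
  | add _ _ h1 h2 =>
    obtain ⟨F, hF, C, hC, h⟩ := h1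
    obtain ⟨G, hG, D, hD, k⟩ := h2
    refine ⟨F ⊔ G, inferInstance, C + D, by positivity, fun x y r hr hxy => ?_⟩
    have h1 := h x y r hr fun v hv => hxy v (Submodule.mem_sup_left hv)
    have h2 := k x y r hr fun v hv => hxy v (Submodule.mem_sup_right hv)
    rw [abs_le] at *
    simp only [Pi.add_apply]
    constructor <;> nlinarith [h1.1, h1.2, h2.1, h2.2]
  | sup _ _ h1 h2 =>
    obtain ⟨F, hF, C, hC, h⟩ := h1
    obtain ⟨G, hG, D, hD, k⟩ := h2
    refine ⟨F ⊔ G, inferInstance, C + D, by positivity, fun x y r hr hxy => ?_⟩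
    have h1 := h x y r hr fun v hv => hxy v (Submodule.mem_sup_left hv)
    have h2 := k x y r hr fun v hv => hxy v (Submodule.mem_sup_right hv)
    refine (abs_max_sub_max_le_max _ _ _ _).trans (max_le ?_ ?_) <;>
      nlinarith [mul_nonneg hC hr, mul_nonneg hD hr]
  | inf _ _ h1 h2 =>
    obtain ⟨F, hF, C, hC, h⟩ := h1
    obtain ⟨G, hG, D, hD, k⟩ := h2
    refine ⟨F ⊔ G, inferInstance, C + D, by positivity, fun x y r hr hxy => ?_⟩
    have h1 := h x y r hr fun v hv => hxy v (Submodule.mem_sup_left hv)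
    have h2 := k x y r hr fun v hv => hxy v (Submodule.mem_sup_right hv)
    refine (abs_min_sub_min_le_max _ _ _ _).trans (max_le ?_ ?_) <;>
      nlinarith [mul_nonneg hC hr, mul_nonneg hD hr]

theorem Gen.lip {f : StrongDual ℝ E → ℝ} (hf : Gen E f) : ∃ C : ℝ, 0 ≤ C ∧
    ∀ x y : StrongDual ℝ E, |f x - f y| ≤ C * ‖x - y‖ := by
  obtain ⟨F, -, C, hC, h⟩ := hf.fin
  exact ⟨C, hC, fun x y => h x y _ (norm_nonneg _) fun v _ => (x - y).le_opNorm v⟩

theorem sep_of_indep {p q : StrongDual ℝ E} (h : p ∉ Submodule.span ℝ {q}) :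
    ∃ v, q v = 0 ∧ p v = 1 := by
  have : ∃ v, q v = 0 ∧ p v ≠ 0 := by
    by_contra hc
    push Not at hc
    apply h
    rcases eq_or_ne q 0 with rfl | hq
    · have : p = 0 := ContinuousLinearMap.ext fun v => hc v rfl
      simp [this]
    · obtain ⟨w, hw⟩ : ∃ w, q w ≠ 0 := by
        by_contra hh
        push Not at hh
        exact hq (ContinuousLinearMap.ext hh)
      refine Submodule.mem_span_singleton.2 ⟨p w / q w, ContinuousLinearMap.ext fun v => ?_⟩
      have := hc (v - (q v / q w) • w) (by simp [hw])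
      simp only [map_sub, map_smul, smul_eq_mul] at this
      simp only [ContinuousLinearMap.smul_apply, smul_eq_mul]
      field_simp at this ⊢
      linarith
  obtain ⟨v, h1, h2⟩ := this
  exact ⟨(p v)⁻¹ • v, by simp [h1], by simp [h2]⟩

theorem exists_sep (hE : ∀ p : StrongDual ℝ E, Submodule.span ℝ {p} ≠ ⊤) {J : Type} [Fintype J]
    (q : J → StrongDual ℝ E) {r : ℝ} (hr : 0 < r) : ∃ (p : J → StrongDual ℝ E) (V : J → J → E),
      (∀ j, ‖p j - q j‖ < r) ∧ (∀ j l, 0 < p j (V j l)) ∧ ∀ j l, j ≠ l → V j l = -V l j := by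
  classical
  have hd : ∀ p : StrongDual ℝ E,
      Dense ((Submodule.span ℝ {p} : Submodule ℝ (StrongDual ℝ E)) : Set (StrongDual ℝ E))ᶜ :=
    fun p => interior_eq_empty_iff_dense_compl.1 (by
      by_contra h
      exact hE p (Submodule.eq_top_of_nonempty_interior' _ (Set.nonempty_iff_ne_empty.2 h)))
  have ho : ∀ p : StrongDual ℝ E,
      IsOpen ((Submodule.span ℝ {p} : Submodule ℝ (StrongDual ℝ E)) : Set (StrongDual ℝ E))ᶜ :=
    fun p => (Submodule.closed_of_finiteDimensional _).isOpen_compl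
  have key : ∀ s : Finset J, ∃ p : J → StrongDual ℝ E, (∀ j, ‖p j - q j‖ < r) ∧
      (∀ j ∈ s, p j ≠ 0) ∧ ∀ j ∈ s, ∀ l ∈ s, j ≠ l → p j ∉ Submodule.span ℝ {p l} := by
    intro s
    induction s using Finset.induction_on with
    | empty => exact ⟨q, fun _ => by simpa using hr, by simp, by simp⟩
    | insert a s ha ih =>
      obtain ⟨p, h1, h2, h3⟩ := ih
      obtain ⟨z, hz, hz'⟩ := (dense_iInter_of_isOpen (fun j => ho (p j))
        fun j => hd (p j)).exists_mem_open Metric.isOpen_ball ⟨q a, Metric.mem_ball_self hr⟩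
      have hz0 : ∀ j, z ∉ Submodule.span ℝ {p j} := fun j => Set.mem_iInter.1 hz j
      have hu : ∀ j ∈ s, Function.update p a z j = p j := fun j hj =>
        Function.update_of_ne (by rintro rfl; exact ha hj) _ _
      refine ⟨Function.update p a z, fun j => ?_, fun j hj => ?_, fun j hj l hl hjl => ?_⟩
      · rcases eq_or_ne j a with rfl | hj
        · simpa [dist_eq_norm] using hz'
        · rw [Function.update_of_ne hj]; exact h1 j
      · rcases Finset.mem_insert.1 hj with rfl | hj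
        · rw [Function.update_self]
          rintro rfl
          exact hz0 j (zero_mem _)
        · rw [hu j hj]; exact h2 j hj
      · rcases Finset.mem_insert.1 hj with rfl | hj
        · rw [Function.update_self, Function.update_of_ne hjl.symm]; exact hz0 l
        · rw [hu j hj]
          rcases Finset.mem_insert.1 hl with rfl | hl
          · rw [Function.update_self]
            intro hm
            obtain ⟨c, hc⟩ := Submodule.mem_span_singleton.1 hm
            have hc0 : c ≠ 0 := by rintro rfl; exact h2 j ‹j ∈ s› (by simpa using hc.symm)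
            exact hz0 j (Submodule.mem_span_singleton.2 ⟨c⁻¹, by simp [← hc, hc0]⟩)
          · rw [hu l hl]; exact h3 j hj l hl hjl
  obtain ⟨p, h1, h2, h3⟩ := key Finset.univ
  have h4 : ∀ j l, ∃ v, (j ≠ l → p l v = 0) ∧ p j v = 1 := fun j l => by
    by_cases h : j = l
    · obtain ⟨v, -, hv⟩ := sep_of_indep (p := p j) (q := 0) (by simpa using h2 j (by simp))
      exact ⟨v, fun h' => (h' h).elim, hv⟩
    · obtain ⟨v, hv⟩ := sep_of_indep (h3 j (by simp) l (by simp) h)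
      exact ⟨v, fun _ => hv.1, hv.2⟩
  choose v hv using h4
  refine ⟨p, fun j l => if j = l then v j l else v j l - v l j, h1, fun j l => ?_, fun j l h => ?_⟩
  · beta_reduce
    split_ifs with h
    · simp [(hv j l).2]
    · simp [(hv j l).2, (hv l j).1 (Ne.symm h)]
  · simp [h, Ne.symm h]

theorem exists_mod {J K : Type} [Fintype J] (κ : J → K) (p : J → StrongDual ℝ E) (V : J → J → E)
    (h1 : ∀ j l, 0 < p j (V j l)) (h2 : ∀ j l, j ≠ l → V j l = -V l j) (a : J → ℝ)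
    {g h : StrongDual ℝ E → ℝ} (hg : Gen E g) (hh : Gen E h) (hgh : ∀ x, |g x| ≤ h x) :
    ∃ y : K → StrongDual ℝ E → ℝ, (∀ k, Gen E (y k)) ∧ (∀ k x, |y k x| ≤ h x) ∧
      (∀ j, |y (κ j) (p j) + a j| = h (p j) + |a j|) ∧
      ∀ k k', k ≠ k' → ∀ x, y k x = g x ∨ y k' x = g x := by
  classical
  let β : J → StrongDual ℝ E → ℝ := fun j =>
    Finset.univ.inf' ⟨j, Finset.mem_univ j⟩ fun l => (fun x => x (V j l)) ⊔ 0
  have b1 : ∀ j, Gen E (β j) := fun j =>
    Finset.inf'_induction _ _ (fun _ h _ h' => h.inf h') fun l _ => (Gen.delta _).sup Gen.zero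
  have b2 : ∀ j, 0 < β j (p j) := fun j => by
    simp only [β, Finset.inf'_apply, Finset.lt_inf'_iff]
    exact fun l _ => lt_sup_of_lt_left (h1 j l)
  have b0 : ∀ j x, 0 ≤ β j x := fun j x => by
    simp only [β, Finset.inf'_apply, Finset.le_inf'_iff]
    exact fun l _ => le_sup_right
  have b3 : ∀ j l, j ≠ l → ∀ x, β j x ≠ 0 → β l x = 0 := fun j l hjl x hx => by
    have e1 : β j x ≤ max (x (V j l)) 0 := by
      simp only [β, Finset.inf'_apply]
      exact Finset.inf'_le _ (Finset.mem_univ l)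
    have e2 : β l x ≤ max (x (V l j)) 0 := by
      simp only [β, Finset.inf'_apply]
      exact Finset.inf'_le _ (Finset.mem_univ j)
    rw [h2 j l hjl, map_neg] at e1
    have := (b0 j x).lt_of_ne' hx
    refine le_antisymm (e2.trans (max_le ?_ le_rfl)) (b0 l x)
    rcases le_max_iff.1 e1 with e | e <;> linarith
  let c : J → ℝ := fun j => (if 0 ≤ a j then 2 else -2) * h (p j) / β j (p j)
  let B : K → StrongDual ℝ E → ℝ := fun k => ∑ j ∈ Finset.univ.filter (κ · = k), c j • β j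
  have hp : ∀ x, 0 ≤ h x := fun x => (abs_nonneg _).trans (hgh x)
  refine ⟨fun k => ((g + B k) ⊓ h) ⊔ -h, fun k => ?_, fun k x => ?_, fun j => ?_,
    fun k k' hk x => ?_⟩
  · exact ((hg.add (Gen.sum _ fun j => (b1 j).smul _)).inf hh).sup hh.neg
  · exact abs_le.2 ⟨le_sup_right, sup_le inf_le_right (by simpa using hp x)⟩
  · have : B (κ j) (p j) = (if 0 ≤ a j then 2 else -2) * h (p j) := by
      simp only [B, Finset.sum_apply, Pi.smul_apply, smul_eq_mul]
      rw [Finset.sum_eq_single j (fun l _ hl => by rw [b3 j l hl.symm _ (b2 j).ne', mul_zero])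
        (by simp)]
      exact div_mul_cancel₀ _ (b2 j).ne'
    have h3 := abs_le.1 (hgh (p j))
    have h4 := hp (p j)
    simp only [Pi.sup_apply, Pi.inf_apply, Pi.add_apply, Pi.neg_apply, this]
    split_ifs with ha
    · rw [min_eq_right (by linarith [h3.1]), max_eq_left (by linarith), abs_of_nonneg ha,
        abs_of_nonneg (by linarith)]
    · rw [max_eq_right ((min_le_left _ _).trans (by linarith [h3.2])), abs_of_neg (not_le.1 ha),
        abs_of_nonpos (by linarith)]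
      ring
  · have hz : ∀ k, B k x = 0 → (((g + B k) ⊓ h) ⊔ -h) x = g x := fun k hk => by
      have h3 := abs_le.1 (hgh x)
      simp only [Pi.sup_apply, Pi.inf_apply, Pi.add_apply, Pi.neg_apply, hk, add_zero]
      rw [min_eq_left h3.2, max_eq_left h3.1]
    by_cases hB : B k x = 0
    · exact Or.inl (hz k hB)
    · refine Or.inr (hz k' ?_)
      simp only [B, Finset.sum_apply, Pi.smul_apply, smul_eq_mul] at hB ⊢
      obtain ⟨j, hj, hj'⟩ := Finset.exists_ne_zero_of_sum_ne_zero hB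
      refine Finset.sum_eq_zero fun l hl => ?_
      rw [b3 j l (fun e => hk ?_) x (right_ne_zero_of_mul hj'), mul_zero]
      rw [← (Finset.mem_filter.1 hj).2, e, (Finset.mem_filter.1 hl).2]

end Pool.Agent.Lib.helper23.FB
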