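import Mathlib
import Pool.Agent.Lib.helper23.FBA

set_option autoImplicit false

namespace Pool.Agent.Lib.helper23.FB

universe u

variable {E : Type u} [NormedAddCommGroup E] [NormedSpace ℝ E]

theorem dense_gen : Dense {g : FBL E | Gen E g.1.1} := fun f =>
  Metric.mem_closure_iff.2 fun _ hε => by
    obtain ⟨g, hg, h⟩ := exists_gen f hε
    exact ⟨g, hg, by rwa [dist_eq_norm]⟩

theorem exists_mod' (hE : ∀ p : StrongDual ℝ E, Submodule.span ℝ {p} ≠ ⊤) {L K : Type} [Fintype L]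
    (κ : L → K) (I : L → Type) [∀ t, Fintype (I t)] (x : ∀ t, I t → StrongDual ℝ E) {c : ℝ}
    (hc : 0 ≤ c) (hx : ∀ t (v : E), ‖v‖ ≤ 1 → ∑ i, |x t i v| ≤ c) (U : L → FBL E)
    (hU : ∀ t, Gen E (U t).1.1) {g h : StrongDual ℝ E → ℝ} (hg : Gen E g) (hh : Gen E h)
    (hgh : ∀ x, |g x| ≤ h x) {ε : ℝ} (hε : 0 < ε) :
    ∃ y : K → FBL E, (∀ k x, |(y k).1.1 x| ≤ h x) ∧
      (∀ t, ∑ i, h (x t i) + ∑ i, |(U t).1.1 (x t i)| - ε ≤ (c + ε) * ‖y (κ t) + U t‖) ∧
      ∀ k k', k ≠ k' → ∀ x, (y k).1.1 x = g x ∨ (y k').1.1 x = g x := by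
  choose C hC hC' using fun t => (hU t).lip
  obtain ⟨D, hD, hD'⟩ := hh.lip
  have hs : 0 ≤ ∑ t, C t := Finset.sum_nonneg fun t _ => hC t
  set B := D + ∑ t, C t + 1 with hB
  set M : ℝ := (∑ t, Fintype.card (I t) : ℕ) + 1 with hM
  have hM0 : 0 < M := by positivity
  have hB0 : 0 < B := by positivity
  obtain ⟨p, V, h1, h2, h3⟩ := exists_sep hE (fun j : Σ t, I t => x j.1 j.2)
    (r := ε / (M * B)) (by positivity)
  obtain ⟨y, y1, y2, y3, y4⟩ := exists_mod (fun j : Σ t, I t => κ j.1) p V h2 h3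
    (fun j => (U j.1).1.1 (p j)) hg hh hgh
  refine ⟨fun k => mk _ (y1 k), y2, fun t => ?_, y4⟩
  have e0 : ∑ i, ‖p ⟨t, i⟩ - x t i‖ ≤ ε / B := by
    refine (Finset.sum_le_sum fun i _ => (h1 ⟨t, i⟩).le).trans ?_
    have : (Fintype.card (I t) : ℝ) ≤ M := by
      have := Finset.single_le_sum (f := fun t => Fintype.card (I t)) (fun _ _ => Nat.zero_le _)
        (Finset.mem_univ t)
      rw [hM]
      exact (Nat.cast_le.2 this).trans (le_add_of_nonneg_right zero_le_one)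
    rw [Finset.sum_const, nsmul_eq_mul, Finset.card_univ]
    refine (mul_le_mul_of_nonneg_right this (by positivity)).trans (le_of_eq ?_)
    field_simp
  have e1 : ε / B ≤ ε := div_le_self hε.le (by linarith)
  have e2 := sum_le (mk _ (y1 (κ t)) + U t).1 (fun i => p ⟨t, i⟩) (c := c + ε) (by positivity)
    fun v hv => by
      have : ∀ i, |p ⟨t, i⟩ v| ≤ |x t i v| + ‖p ⟨t, i⟩ - x t i‖ := fun i => by
        have := (p ⟨t, i⟩ - x t i).unit_le_opNorm v hv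
        have h := abs_sub_abs_le_abs_sub (p ⟨t, i⟩ v) (x t i v)
        simp only [ContinuousLinearMap.sub_apply, Real.norm_eq_abs] at this
        linarith
      refine (Finset.sum_le_sum fun i _ => this i).trans ?_
      rw [Finset.sum_add_distrib]
      linarith [hx t v hv]
  refine le_trans ?_ e2
  have e3 : ∀ i, h (x t i) + |(U t).1.1 (x t i)| ≤ |(mk _ (y1 (κ t)) + U t).1.1 (p ⟨t, i⟩)| +
      B * ‖p ⟨t, i⟩ - x t i‖ := fun i => by
    have a1 : |(mk _ (y1 (κ t)) + U t).1.1 (p ⟨t, i⟩)| = _ := y3 ⟨t, i⟩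
    have a2 := (abs_le.1 (hD' (p ⟨t, i⟩) (x t i))).1
    have a3 := hC' t (p ⟨t, i⟩) (x t i)
    have a4 := abs_sub_abs_le_abs_sub ((U t).1.1 (x t i)) ((U t).1.1 (p ⟨t, i⟩))
    have a5 := Finset.single_le_sum (fun t _ => hC t) (Finset.mem_univ t)
    rw [abs_sub_comm ((U t).1.1 (x t i))] at a4
    have a6 := norm_nonneg (p ⟨t, i⟩ - x t i)
    rw [a1]
    nlinarith
  have e4 := Finset.sum_le_sum fun i (_ : i ∈ Finset.univ) => e3 i
  rw [Finset.sum_add_distrib, Finset.sum_add_distrib, ← Finset.mul_sum] at e4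
  have e5 : B * ∑ i, ‖p ⟨t, i⟩ - x t i‖ ≤ ε := by rwa [le_div_iff₀' hB0] at e0
  linarith

end Pool.Agent.Lib.helper23.FB
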