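import Mathlib
import Pool.Agent.Lib.helper23.FBB

set_option autoImplicit false

namespace Pool.Agent.Lib.helper23.FB

open MeasureTheory

universe u v

section
variable {X : Type u} [NormedAddCommGroup X] [NormedSpace ℝ X]

theorem two_dir {a b : X} (ha : ‖a‖ = 1) (hb : ‖b‖ = 1) {δ s t : ℝ} (hδ : 0 ≤ δ)
    (h : 2 - δ ≤ ‖a + b‖) (hs : 0 ≤ s) (ht : 0 ≤ t) : (1 - δ) * (s + t) ≤ ‖s • a + t • b‖ := by
  wlog hst : t ≤ s generalizing a b s t
  · rw [add_comm s, add_comm (s • a)]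
    exact this hb ha (by rwa [add_comm]) ht hs (not_le.1 hst).le
  have e : s • (a + b) = (s • a + t • b) + (s - t) • b := by module
  have h1 := norm_add_le (s • a + t • b) ((s - t) • b)
  rw [← e, norm_smul, norm_smul, hb, Real.norm_of_nonneg hs,
    Real.norm_of_nonneg (sub_nonneg.2 hst)] at h1
  nlinarith [mul_le_mul_of_nonneg_left h hs, mul_nonneg hδ ht]

theorem oct_of_fin [Nontrivial X] (h : ∀ (n : ℕ) (x : Fin n → X), (∀ i, ‖x i‖ = 1) → ∀ ε : ℝ,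
    0 < ε → ∃ y, ‖y‖ ≤ 1 ∧ ∀ i, 2 - ε ≤ ‖x i + y‖) : Octahedral X := by
  intro Y hY ε hε
  obtain ⟨x0, hx0⟩ := exists_norm_eq X zero_le_one
  set δ := min ε 1 / 3 with hδ
  have d0 : 0 < δ := by positivity
  have d1 : 3 * δ ≤ ε := by linarith [min_le_left ε 1]
  have d2 : 3 * δ ≤ 1 := by linarith [min_le_right ε 1]
  have hc : IsCompact (Y.subtypeL '' Metric.sphere 0 1) :=
    (isCompact_sphere _ _).image Y.subtypeL.continuous
  obtain ⟨t, ht1, ht2, ht3⟩ := Metric.finite_approx_of_totallyBounded hc.totallyBounded δ d0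
  obtain ⟨n, f, -, hf⟩ := (ht2.insert x0).fin_param
  obtain ⟨y, hy, hy'⟩ := h n f (fun i => by
    rcases (hf ▸ Set.mem_range_self i : f i ∈ insert x0 t) with e | e
    · rw [e, hx0]
    · obtain ⟨z, hz, e'⟩ := ht1 e
      rw [← e']
      simpa using hz) δ d0
  have hy2 : ∀ x ∈ insert x0 t, 2 - δ ≤ ‖x + y‖ := fun x hx => by
    obtain ⟨i, rfl⟩ : x ∈ Set.range f := hf ▸ hx
    exact hy' i
  have y1 : 1 - δ ≤ ‖y‖ := by linarith [hy2 x0 (by simp), norm_add_le x0 y]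
  have y0 : 0 < ‖y‖ := by linarith
  have n1 : ‖‖y‖⁻¹ • y‖ = 1 := by simp [norm_smul, y0.ne']
  have n2 : ‖y - ‖y‖⁻¹ • y‖ ≤ δ := by
    have : y - ‖y‖⁻¹ • y = (‖y‖ - 1) • ‖y‖⁻¹ • y := by
      rw [sub_smul, smul_smul, mul_inv_cancel₀ y0.ne', one_smul, one_smul]
    rw [this, norm_smul, n1, Real.norm_eq_abs, abs_of_nonpos (by linarith)]
    linarith
  have key : ∀ z ∈ Y, ∀ r : ℝ, 0 ≤ r → (1 - ε) * (‖z‖ + r) ≤ ‖z + r • ‖y‖⁻¹ • y‖ := by
    intro z hz r hr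
    rcases eq_or_ne z 0 with rfl | z0
    · rw [zero_add, norm_smul, n1, norm_zero, Real.norm_of_nonneg hr]
      nlinarith
    · have z1 := norm_pos_iff.2 z0
      have m1 : ‖‖z‖⁻¹ • z‖ = 1 := by simp [norm_smul, z1.ne']
      obtain ⟨x, hx, hx'⟩ := Set.mem_iUnion₂.1 (ht3 ⟨⟨‖z‖⁻¹ • z, Y.smul_mem _ hz⟩, by
        simpa using m1, rfl⟩)
      have h1 : ‖‖z‖⁻¹ • z - x‖ < δ := by simpa [dist_eq_norm] using hx'
      have h2 := hy2 x (Or.inr hx)
      have h3 : x + y = (‖z‖⁻¹ • z + ‖y‖⁻¹ • y) - (‖z‖⁻¹ • z - x) + (y - ‖y‖⁻¹ • y) := by abel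
      have h4 := norm_add_le ((‖z‖⁻¹ • z + ‖y‖⁻¹ • y) - (‖z‖⁻¹ • z - x)) (y - ‖y‖⁻¹ • y)
      have h5 := norm_sub_le (‖z‖⁻¹ • z + ‖y‖⁻¹ • y) (‖z‖⁻¹ • z - x)
      rw [← h3] at h4
      have := two_dir m1 n1 hε.le (by linarith) z1.le hr
      rwa [smul_smul, mul_inv_cancel₀ z1.ne', one_smul] at this
  refine ⟨_, n1, fun z hz r => ?_⟩
  rcases le_total 0 r with hr | hr
  · rw [abs_of_nonneg hr]; exact key z hz r hr
  · have := key (-z) (neg_mem hz) (-r) (by linarith)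
    rwa [norm_neg, neg_smul, ← neg_add, norm_neg, ← abs_of_nonpos hr] at this

theorem exists_pos_apply (ψ : StrongDual ℝ X) {c : ℝ} (hc : c < ‖ψ‖) :
    ∃ y, ‖y‖ ≤ 1 ∧ c < ψ y := by
  obtain ⟨y, h1, h2⟩ := ψ.exists_lt_apply_of_lt_opNorm hc
  rcases le_total 0 (ψ y) with h | h
  · exact ⟨y, h1.le, by rwa [Real.norm_of_nonneg h] at h2⟩
  · exact ⟨-y, by simpa using h1.le, by rwa [Real.norm_of_nonpos h, ← map_neg] at h2⟩

theorem Daugavet.oct [Nontrivial X] (h : Daugavet X) : Octahedral X := by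
  refine oct_of_fin fun n x hx ε hε => ?_
  suffices H : ∀ s : Finset (Fin n), ∃ (ψ : StrongDual ℝ X) (c : ℝ), 0 ≤ c ∧ c < ‖ψ‖ ∧
      ∀ y, ‖y‖ ≤ 1 → c < ψ y → ∀ i ∈ s, 2 - ε ≤ ‖x i + y‖ by
    obtain ⟨ψ, c, -, h1, h2⟩ := H Finset.univ
    obtain ⟨y, h3, h4⟩ := exists_pos_apply ψ h1
    exact ⟨y, h3, fun i => h2 y h3 h4 i (Finset.mem_univ i)⟩
  intro s
  induction s using Finset.induction_on with
  | empty =>
    obtain ⟨x0, hx0⟩ := exists_ne (0 : X)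
    obtain ⟨g, hg, -⟩ := exists_dual_vector ℝ x0 (norm_ne_zero_iff.2 hx0)
    exact ⟨g, 0, le_rfl, by simp [hg], by simp⟩
  | insert a s ha ih =>
    obtain ⟨ψ, c, c0, h1, h2⟩ := ih
    have A0 : 0 < ‖ψ‖ := c0.trans_lt h1
    have hr : Module.finrank ℝ (LinearMap.range (ψ.smulRight (x a)).toLinearMap) = 1 := by
      obtain ⟨y, -, hy⟩ := exists_pos_apply ψ A0
      have : LinearMap.range (ψ.smulRight (x a)).toLinearMap = Submodule.span ℝ {x a} := by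
        refine le_antisymm ?_ ((Submodule.span_singleton_le_iff_mem _ _).2
          ⟨(ψ y)⁻¹ • y, by simp [hy.ne']⟩)
        rintro _ ⟨z, rfl⟩
        exact Submodule.mem_span_singleton.2 ⟨ψ z, rfl⟩
      rw [this]
      exact finrank_span_singleton (norm_ne_zero_iff.1 (by simp [hx]))
    have h3 := h _ hr
    rw [ContinuousLinearMap.norm_smulRight_apply, hx, mul_one] at h3
    obtain ⟨η, e0, e1, e2, e3, e4⟩ : ∃ η : ℝ, 0 < η ∧ 2 * η ≤ ‖ψ‖ - c ∧ 2 * η ≤ ‖ψ‖ * ε ∧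
        4 * η ≤ ε ∧ 2 * η ≤ 1 := by
      have := sub_pos.2 h1
      refine ⟨min (min ((‖ψ‖ - c) / 2) (‖ψ‖ * ε / 2)) (min (ε / 4) (1 / 2)), by positivity, ?_⟩
      refine ⟨?_, ?_, ?_, ?_⟩ <;> rw [← le_div_iff₀' (by norm_num)] <;> simp
    obtain ⟨z, z1, z2, z3⟩ : ∃ z : X, ‖z‖ ≤ 1 ∧ 0 ≤ ψ z ∧ 1 + ‖ψ‖ - η < ‖z + ψ z • x a‖ := by
      obtain ⟨z, z1, z2⟩ := (ContinuousLinearMap.id ℝ X + ψ.smulRight (x a)
        ).exists_lt_apply_of_lt_opNorm (r := 1 + ‖ψ‖ - η) (by linarith)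
      rcases le_total 0 (ψ z) with e | e
      · exact ⟨z, z1.le, e, z2⟩
      · refine ⟨-z, by simpa using z1.le, by simpa using e, ?_⟩
        rwa [map_neg, neg_smul, ← neg_add, norm_neg]
    obtain ⟨g, g1, g2⟩ := exists_dual_vector'' ℝ (z + ψ z • x a)
    have gb : ∀ y, ‖y‖ ≤ 1 → g y ≤ 1 := fun y hy =>
      (le_abs_self _).trans ((g.unit_le_opNorm y hy).trans g1)
    have pb : ∀ y, ‖y‖ ≤ 1 → ψ y ≤ ‖ψ‖ := fun y hy => (le_abs_self _).trans (ψ.unit_le_opNorm y hy)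
    simp only [map_add, map_smul, smul_eq_mul, RCLike.ofReal_real_eq_id, id] at g2
    have a1 := gb z z1
    have a2 := gb _ (hx a).le
    have a3 := pb z z1
    have a4 : ψ z * g (x a) ≤ ψ z := mul_le_of_le_one_right z2 a2
    have a5 : 1 - ε / 2 ≤ g (x a) := by
      by_contra hn
      have : 0 < g (x a) := by
        by_contra hh
        nlinarith [mul_nonneg z2 (neg_nonneg.2 (not_lt.1 hh))]
      nlinarith
    refine ⟨g + ψ, 1 + ‖ψ‖ - 2 * η, by linarith, lt_of_lt_of_le ?_ ((le_abs_self _).trans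
      ((g + ψ).unit_le_opNorm z z1)), fun y hy hy' i hi => ?_⟩
    · rw [ContinuousLinearMap.add_apply]; linarith
    · rw [ContinuousLinearMap.add_apply] at hy'
      rcases Finset.mem_insert.1 hi with rfl | hi
      · have := (le_abs_self _).trans ((g.le_opNorm (x i + y)).trans
          (mul_le_of_le_one_left (norm_nonneg _) g1))
        rw [map_add] at this
        linarith [pb y hy]
      · exact h2 y hy (by linarith [gb y hy]) i hi

theorem ext_one {F : Submodule ℝ X} {y : X} {η : ℝ} (hη : η < 1)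
    (h : ∀ z ∈ F, ∀ t : ℝ, (1 - η) * (‖z‖ + |t|) ≤ ‖z + t • y‖) (ξ : StrongDual ℝ X) {r : ℝ}
    (hr : |r| ≤ ‖ξ‖) : ∃ ψ : StrongDual ℝ X, (∀ z ∈ F, ψ z = ξ z) ∧ ψ y = r ∧
      (1 - η) * ‖ψ‖ ≤ ‖ξ‖ := by
  have h0 := sub_pos.2 hη
  have hy : y ∉ (ξ.toLinearMap.toPMap F).domain := fun hy => by
    have := h y hy (-1)
    simp only [neg_smul, one_smul, add_neg_cancel, norm_zero, abs_neg, abs_one] at this
    exact absurd this (not_le.2 (by positivity))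
  obtain ⟨g, g1, g2⟩ := exists_extension_of_le_sublinear
    ((ξ.toLinearMap.toPMap F).supSpanSingleton y r hy) (fun x => ‖ξ‖ / (1 - η) * ‖x‖)
    (fun c hc x => by rw [norm_smul, Real.norm_of_nonneg hc.le]; ring)
    (fun x x' => by rw [← mul_add]; gcongr; exact norm_add_le _ _) (by
      rintro ⟨x, hx⟩
      obtain ⟨z, hz, w, hw, rfl⟩ := Submodule.mem_sup.1 hx
      obtain ⟨t, rfl⟩ := Submodule.mem_span_singleton.1 hw
      rw [LinearPMap.supSpanSingleton_apply_mk _ _ _ _ _ hz, div_mul_eq_mul_div, le_div_iff₀ h0]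
      have a1 := (le_abs_self _).trans (ξ.le_opNorm z)
      have a2 : t * r ≤ |t| * ‖ξ‖ := (le_abs_self _).trans (by rw [abs_mul]; gcongr)
      have a3 := mul_le_mul_of_nonneg_left (h z hz t) (norm_nonneg ξ)
      change (ξ z + t * r) * _ ≤ ‖ξ‖ * ‖z + t • y‖
      nlinarith)
  have g3 : ∀ x, ‖g x‖ ≤ ‖ξ‖ / (1 - η) * ‖x‖ := fun x =>
    abs_le.2 ⟨by simpa [neg_le] using g2 (-x), g2 x⟩
  refine ⟨g.mkContinuous _ g3, fun z hz => ?_, ?_, ?_⟩
  · exact (g1 ⟨z, Submodule.mem_sup_left hz⟩).trans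
      (LinearPMap.supSpanSingleton_apply_mk_of_mem _ _ hy hz)
  · exact (g1 ⟨y, _⟩).trans (LinearPMap.supSpanSingleton_apply_self _ _ hy)
  · rw [← le_div_iff₀' h0]
    exact g.mkContinuous_norm_le (by positivity) g3

end

theorem ell_one {Ω : Type v} [MeasurableSpace Ω] (μ : Measure Ω) {J : Type} [Fintype J]
    (z : J → Lp ℝ 1 μ) {θ : ℝ} (hθ : 0 < θ) : ∃ (C : Finset (J → ℝ)) (u : (J → ℝ) → Lp ℝ 1 μ),
      (∀ j, ‖z j - ∑ c ∈ C, c j • u c‖ ≤ θ) ∧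
      ∀ b : (J → ℝ) → ℝ, ∑ c ∈ C, |b c| * ‖u c‖ ≤ ‖∑ c ∈ C, b c • u c‖ := by
  classical
  obtain ⟨s, s1, s2⟩ := (MemLp.of_eval (f := fun ω j => z j ω) fun j => Lp.memLp (z j)
    ).exists_simpleFunc_eLpNorm_sub_lt ENNReal.one_ne_top (ENNReal.ofReal_pos.2 hθ).ne'
  let u : (J → ℝ) → Lp ℝ 1 μ := fun c => if h : c = 0 then 0 else indicatorConstLp 1
    (s.measurableSet_fiber c)
    (s.measure_preimage_lt_top_of_memLp one_ne_zero ENNReal.one_ne_top s2 c h).ne 1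
  have hu : ∀ᵐ ω ∂μ, ∀ c ∈ s.range, u c ω = if s ω = c ∧ c ≠ 0 then 1 else 0 := by
    refine (Filter.eventually_all_finset _).2 fun c _ => ?_
    by_cases h : c = 0
    · simp only [u, dif_pos h]
      filter_upwards [Lp.coeFn_zero ℝ 1 μ] with ω hω
      rw [hω]
      simp [h]
    · simp only [u, dif_neg h]
      filter_upwards [indicatorConstLp_coeFn (p := 1) (hs := s.measurableSet_fiber c)
        (hμs := (s.measure_preimage_lt_top_of_memLp one_ne_zero ENNReal.one_ne_top s2 c h).ne)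
        (c := (1 : ℝ))] with ω hω
      simp [hω, h, Set.indicator_apply]
  have hb : ∀ b : (J → ℝ) → ℝ, ∀ᵐ ω ∂μ, (∑ c ∈ s.range, b c • u c : Lp ℝ 1 μ) ω =
      b (s ω) * u (s ω) ω := fun b => by
    filter_upwards [hu, Lp.coeFn_fun_finsetSum s.range fun c => b c • u c,
      (Filter.eventually_all_finset s.range).2 fun c _ => Lp.coeFn_smul (b c) (u c)] with ω a1 a2 a3
    rw [a2, Finset.sum_eq_single_of_mem (s ω) (s.mem_range_self ω) fun c hc hc' => by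
      simp [a3 c hc, a1 c hc, hc'.symm], a3 _ (s.mem_range_self ω)]
    rfl
  refine ⟨s.range, u, fun j => ?_, fun b => ?_⟩
  · refine ENNReal.toReal_le_of_le_ofReal hθ.le (le_trans (eLpNorm_mono_ae ?_) s1.le)
    filter_upwards [hu, hb fun c => c j, Lp.coeFn_sub (z j) (∑ c ∈ s.range, c j • u c)] with
      ω a1 a2 a3
    rw [a3, Pi.sub_apply, a2, a1 _ (s.mem_range_self ω)]
    refine le_trans (le_of_eq ?_) (norm_le_pi_norm _ j)
    by_cases h : s ω = 0 <;> simp [h]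
  · have i1 : ∀ c, Integrable (fun ω => |b c| * ‖u c ω‖) μ := fun c =>
      (L1.integrable_coeFn (u c)).norm.const_mul _
    simp only [L1.norm_eq_integral_norm, ← integral_const_mul]
    rw [← integral_finsetSum _ fun c _ => i1 c]
    refine le_of_eq (integral_congr_ae ?_)
    filter_upwards [hu, hb b] with ω a1 a2
    rw [a2, Finset.sum_eq_single_of_mem (s ω) (s.mem_range_self ω) fun c hc hc' => by
      simp [a1 c hc, hc'.symm], norm_mul, Real.norm_eq_abs (b _)]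

end Pool.Agent.Lib.helper23.FB
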