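import Mathlib
import Pool.Agent.Lib.helper23.Ell1

set_option autoImplicit false

namespace Pool.Agent.Lib.helper23.FSAlg

open Set Topology Filter TopologicalSpace Pool.Agent.Lib.helper23.Ell1

abbrev S := FreeSemigroup (ℕ × ℕ × ℕ)

noncomputable abbrev P := L1 ℂ S

theorem exm : ∃ m : P →L[ℂ] P →L[ℂ] P, ‖m‖ ≤ 1 ∧
    ∀ s t, m (e ℂ s) (e ℂ t) = e ℂ (s * t) := lift2 _ fun _ _ => (norm_e _).le

noncomputable def mm : P →L[ℂ] P →L[ℂ] P := exm.choose

theorem mme (s t : S) : mm (e ℂ s) (e ℂ t) = e ℂ (s * t) := exm.choose_spec.2 s t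

theorem hom {E : Type} [NormedAddCommGroup E] [NormedSpace ℂ E] (φ : P →L[ℂ] E)
    (m : E →L[ℂ] E →L[ℂ] E) (h : ∀ s t, φ (e ℂ (s * t)) = m (φ (e ℂ s)) (φ (e ℂ t))) (a b : P) :
    φ (mm a b) = m (φ a) (φ b) := by
  have := ext2 (S := (ContinuousLinearMap.compL ℂ _ _ _ φ).comp mm) (T := m.bilinearComp φ φ)
    fun s t => by
      change φ (mm (e ℂ s) (e ℂ t)) = m (φ (e ℂ s)) (φ (e ℂ t))
      rw [mme, h]
  exact DFunLike.congr_fun (DFunLike.congr_fun this a) b

theorem massoc (a b c : P) : mm (mm a b) c = mm a (mm b c) := by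
  have : ∀ s, (ContinuousLinearMap.compL ℂ _ _ _ (mm (e ℂ s))).comp mm =
      mm.comp (mm (e ℂ s)) := fun s => ext2 fun t u => by
    change mm (e ℂ s) (mm (e ℂ t) (e ℂ u)) = mm (mm (e ℂ s) (e ℂ t)) (e ℂ u)
    simp only [mme, mul_assoc]
  exact DFunLike.congr_fun (ext (S := (mm.flip c).comp (mm.flip b)) (T := mm.flip (mm b c))
    fun s => (DFunLike.congr_fun (DFunLike.congr_fun (this s) b) c).symm) a

noncomputable instance (priority := low) ring : NonUnitalNormedRing P :=
  { lp.normedAddCommGroup with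
    mul a b := mm a b
    left_distrib a := map_add (mm a)
    right_distrib a b c := DFunLike.congr_fun (map_add mm a b) c
    zero_mul a := DFunLike.congr_fun (map_zero mm) a
    mul_zero a := map_zero (mm a)
    mul_assoc := massoc
    norm_mul_le a b := (mm.le_opNorm₂ a b).trans (by
      rw [mul_assoc]; exact mul_le_of_le_one_left (by positivity) exm.choose_spec.1) }

theorem mul_def (a b : P) : a * b = mm a b := rfl

theorem nl {T : Type} [Semigroup T] (Q : T → Prop) (h : ∀ a b, Q a → Q b → Q (a * b))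
    (g : ℕ × ℕ × ℕ → T) (hg : ∀ i, Q (g i)) (w : S) : Q (FreeSemigroup.lift g w) := by
  induction w using FreeSemigroup.recOnMul with
  | ih1 i => exact hg i
  | ih2 i w a b => rw [map_mul]; exact h _ _ a b

theorem gen (B : Type) [NonUnitalNormedRing B] [NormedSpace ℂ B] [IsScalarTower ℂ B B]
    [SMulCommClass ℂ B B] [CompleteSpace B] [SeparableSpace B] :
    ∃ φ : P →L[ℂ] B, Function.Surjective φ ∧ ∀ a b, φ (a * b) = φ a * φ b := by
  let D := FreeAbelianGroup.lift (denseSeq B)
  obtain ⟨d, hd⟩ := exists_surjective_nat (FreeAbelianGroup ℕ)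
  let g : ℕ × ℕ × ℕ → B := fun i => ((‖D (d i.1)‖ : ℝ) : ℂ)⁻¹ • D (d i.1)
  obtain ⟨φ, -, p2, -⟩ := lift (K := ℂ) (FreeSemigroup.lift g) (nl (‖·‖ ≤ 1) (fun a b x y =>
    (norm_mul_le a b).trans (mul_le_one₀ x (norm_nonneg _) y)) g fun i => by
      simp only [g, norm_smul, norm_inv, Complex.norm_real, norm_norm]
      exact inv_mul_le_one)
  refine ⟨φ, fun y => ?_, hom φ (ContinuousLinearMap.mul ℂ B) fun s t => by simp [p2]⟩
  obtain ⟨x, hx, -⟩ := controlled_closure_of_complete
    (f := φ.toLinearMap.toAddMonoidHom.mkNormedAddGroupHom ‖φ‖₊ φ.le_opNorm) (K := D.range)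
    one_pos one_pos (fun k ⟨j, hk⟩ => by
      obtain ⟨n, hn⟩ := hd j
      refine ⟨((‖k‖ : ℝ) : ℂ) • e ℂ (FreeSemigroup.of (n, 0, 0)), ?_, by
        rw [norm_smul, norm_e]; simp⟩
      change φ _ = k
      rw [map_smul, p2, FreeSemigroup.lift_of]
      simp only [g, hn, hk, smul_smul]
      rcases eq_or_ne k 0 with rfl | h
      · simp
      · rw [mul_inv_cancel₀ (by simpa using h), one_smul]) y
    (Dense.mono (s₁ := range (denseSeq B)) (by rintro _ ⟨n, rfl⟩; exact ⟨.of n, by simp [D]⟩)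
      (denseRange_denseSeq B) y)
  exact ⟨x, hx⟩

theorem sep : SeparableSpace P := by
  have : Countable S := Function.Injective.countable (f := fun w : S => (w.1, w.2))
    fun a b h => FreeSemigroup.ext (congrArg Prod.fst h) (congrArg Prod.snd h)
  exact isSeparable_univ_iff.1 ((countable_range (e ℂ : S → P)).isSeparable.span (R := ℂ).closure.mono
    fun f _ => mem (T := .id ℂ P) (Submodule.isClosed_topologicalClosure _)
      (fun i => Submodule.le_topologicalClosure _ (Submodule.subset_span (mem_range_self i))) f)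

theorem tower : IsScalarTower ℂ P P := ⟨fun c a b => DFunLike.congr_fun (map_smul mm c a) b⟩

theorem comm : SMulCommClass ℂ P P := ⟨fun c a b => (map_smul (mm a) c b).symm⟩

end Pool.Agent.Lib.helper23.FSAlg
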