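import Mathlib

set_option autoImplicit false

namespace Pool.Agent.Lib.helper23.HeatA

open ComplexConjugate

variable {G H : Type} [Group G] [NormedAddCommGroup H] [InnerProductSpace ℂ H] [CompleteSpace H]

/-- twisted regular representations -/
structure Reg (b : HilbertBasis G ℂ H) (σ : G → G → ℂ) (u : G → H →L[ℂ] H) : Prop where
  n1 : ∀ g h, ‖σ g h‖ = 1
  co : ∀ g h k, σ g h * σ (g * h) k = σ h k * σ g (h * k)
  l1 : ∀ g, σ 1 g = 1
  r1 : ∀ g, σ g 1 = 1
  ap : ∀ g h, u g (b h) = σ g h • b (g * h)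

/-- the closed span -/
def Cr (u : G → H →L[ℂ] H) : Set (H →L[ℂ] H) :=
  closure (Submodule.span ℂ (Set.range u) : Set (H →L[ℂ] H))

variable {b : HilbertBasis G ℂ H} {σ : G → G → ℂ} {u : G → H →L[ℂ] H}

omit [Group G] [CompleteSpace H] in
theorem opext (b : HilbertBasis G ℂ H) {S T : H →L[ℂ] H} (h : ∀ g, S (b g) = T (b g)) : S = T :=
  ContinuousLinearMap.ext_on (s := Set.range b)
    (Submodule.dense_iff_topologicalClosure_eq_top.2 b.dense_span) (Set.forall_mem_range.2 h)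

omit [Group G] [CompleteSpace H] in
theorem vext (b : HilbertBasis G ℂ H) {x y : H} (h : ∀ g, inner ℂ (b g) x = inner ℂ (b g) y) :
    x = y :=
  b.repr.injective (lp.ext (funext fun g => by simpa only [b.repr_apply_apply] using h g))

omit [Group G] [CompleteSpace H] in
theorem bb [DecidableEq G] (b : HilbertBasis G ℂ H) (g h : G) :
    inner ℂ (b g) (b h) = if g = h then 1 else 0 := orthonormal_iff_ite.1 b.orthonormal g h

omit [CompleteSpace H] in
theorem Reg.mul (r : Reg b σ u) (g h : G) : u g * u h = σ g h • u (g * h) :=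
  opext b fun k => by
    simp only [ContinuousLinearMap.mul_apply, ContinuousLinearMap.smul_apply, r.ap, map_smul,
      smul_smul, r.co, mul_assoc]

omit [CompleteSpace H] in
theorem Reg.one (r : Reg b σ u) : u 1 = 1 := opext b fun k => by simp [r.ap, r.l1]

omit [CompleteSpace H] in
theorem Reg.dl (r : Reg b σ u) (g : G) : u g (b 1) = b g := by simp [r.ap, r.r1]

omit [CompleteSpace H] in
theorem Reg.cc (r : Reg b σ u) (g h : G) : conj (σ g h) * σ g h = 1 := by
  rw [Complex.conj_mul', r.n1]; simp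

theorem Reg.st (r : Reg b σ u) (g : G) : star (u g) = conj (σ g⁻¹ g) • u g⁻¹ := by
  classical
  refine opext b fun k => vext b fun m => ?_
  rw [ContinuousLinearMap.star_eq_adjoint, ContinuousLinearMap.adjoint_inner_right,
    ContinuousLinearMap.smul_apply, r.ap, r.ap, inner_smul_left, inner_smul_right,
    inner_smul_right, bb, bb]
  by_cases h : g * m = k
  · subst h
    have := r.co g⁻¹ g m
    rw [inv_mul_cancel, r.l1, mul_one] at this
    rw [if_pos rfl, if_pos (by simp), this, map_mul, mul_one, mul_one, mul_assoc, r.cc, mul_one]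
  · rw [if_neg h, if_neg fun e => h (by simp [e])]
    simp

theorem Reg.su (r : Reg b σ u) (g : G) : star (u g) * u g = 1 := by
  rw [r.st, smul_mul_assoc, r.mul, smul_smul, r.cc, inv_mul_cancel, r.one, one_smul]

omit [CompleteSpace H] in
theorem Reg.sw (r : Reg b σ u) (g : G) : σ g g⁻¹ = σ g⁻¹ g := by
  simpa [r.l1, r.r1] using r.co g g⁻¹ g

theorem Reg.us (r : Reg b σ u) (g : G) : u g * star (u g) = 1 := by
  rw [r.st, mul_smul_comm, r.mul, smul_smul, r.sw, r.cc, mul_inv_cancel, r.one, one_smul]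

theorem Reg.nu (r : Reg b σ u) (g : G) : ‖u g‖ ≤ 1 := by
  have := CStarRing.norm_star_mul_self (x := u g)
  rw [r.su] at this
  nlinarith [ContinuousLinearMap.norm_id_le (𝕜 := ℂ) (E := H), norm_nonneg (u g),
    show ‖(1 : H →L[ℂ] H)‖ = ‖ContinuousLinearMap.id ℂ H‖ from rfl]

theorem Reg.alg (r : Reg b σ u) : ∃ A : StarSubalgebra ℂ (H →L[ℂ] H), (A : Set _) = Cr u := by
  let S := Submodule.span ℂ (Set.range u)
  have hu : ∀ g, u g ∈ S := fun g => Submodule.subset_span ⟨g, rfl⟩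
  refine ⟨StarSubalgebra.topologicalClosure
    ⟨S.toSubalgebra (r.one ▸ hu 1) fun x y hx hy => ?_, fun {x} hx => ?_⟩, rfl⟩
  · induction hx, hy using Submodule.span_induction₂ with
    | mem_mem x y hx hy =>
      obtain ⟨g, rfl⟩ := hx
      obtain ⟨h, rfl⟩ := hy
      exact r.mul g h ▸ S.smul_mem _ (hu _)
    | zero_left => simp
    | zero_right => simp
    | add_left x y z _ _ _ a c => exact add_mul x y z ▸ S.add_mem a c
    | add_right x y z _ _ _ a c => exact mul_add x y z ▸ S.add_mem a c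
    | smul_left a x y _ _ c => exact smul_mul_assoc a x y ▸ S.smul_mem _ c
    | smul_right a x y _ _ c => exact mul_smul_comm a x y ▸ S.smul_mem _ c
  · change star x ∈ S
    induction hx using Submodule.span_induction with
    | mem x hx =>
      obtain ⟨g, rfl⟩ := hx
      exact r.st g ▸ S.smul_mem _ (hu _)
    | zero => simp
    | add x y _ _ a c => exact star_add x y ▸ S.add_mem a c
    | smul a x _ c => exact star_smul a x ▸ S.smul_mem _ c

omit [Group G] [CompleteSpace H] in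
theorem uCr (g : G) : u g ∈ Cr u := subset_closure (Submodule.subset_span ⟨g, rfl⟩)

omit [CompleteSpace H] in
theorem Reg.tr (r : Reg b σ u) {x y : H →L[ℂ] H} (hx : x ∈ Cr u) (hy : y ∈ Cr u) :
    inner ℂ (b 1) ((x * y) (b 1)) = inner ℂ (b 1) ((y * x) (b 1)) := by
  classical
  let τ : (H →L[ℂ] H) →L[ℂ] ℂ := (innerSL ℂ (b 1)).comp (ContinuousLinearMap.apply ℂ H (b 1))
  let m := ContinuousLinearMap.mul ℂ (H →L[ℂ] H)
  refine ContinuousLinearMap.eqOn_closure_span (f := τ.comp (m x)) (g := τ.comp (m.flip x)) ?_ hy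
  rintro _ ⟨g, rfl⟩
  refine ContinuousLinearMap.eqOn_closure_span (f := τ.comp (m.flip (u g)))
    (g := τ.comp (m (u g))) ?_ hx
  rintro _ ⟨h, rfl⟩
  change inner ℂ (b 1) ((u h * u g) (b 1)) = inner ℂ (b 1) ((u g * u h) (b 1))
  simp only [r.mul, ContinuousLinearMap.smul_apply, r.dl, inner_smul_right, bb]
  by_cases e : h = g⁻¹
  · simp [e, r.sw]
  · rw [if_neg fun a => e (eq_inv_of_mul_eq_one_left a.symm),
      if_neg fun a => e (eq_inv_of_mul_eq_one_right a.symm)]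
    simp

theorem nsq (x : H →L[ℂ] H) (v : H) : (inner ℂ v ((star x * x) v)).re = ‖x v‖ ^ 2 := by
  rw [ContinuousLinearMap.mul_apply, ContinuousLinearMap.star_eq_adjoint,
    ContinuousLinearMap.adjoint_inner_right]
  exact inner_self_eq_norm_sq (𝕜 := ℂ) _

theorem Reg.ns (r : Reg b σ u) {x : H →L[ℂ] H} (hx : x ∈ Cr u) :
    ‖star x (b 1)‖ = ‖x (b 1)‖ := by
  obtain ⟨A, hA⟩ := r.alg
  rw [← sq_eq_sq₀ (norm_nonneg _) (norm_nonneg _), ← nsq, ← nsq, star_star,
    r.tr hx (hA ▸ star_mem (show x ∈ A from hA.ge hx))]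

theorem Reg.kh (r : Reg b σ u) (w : G → ℂ) (A : Finset G) : ∃ ε : G → ℂ,
    (∀ g, ε g = 1 ∨ ε g = -1) ∧ ∀ y, y = ∑ g ∈ A, (ε g * w g) • u g →
      ‖y (b 1)‖ ^ 2 = ∑ g ∈ A, ‖w g‖ ^ 2 ∧
      ‖(star y * y) (b 1)‖ ^ 2 ≤ 3 * (∑ g ∈ A, ‖w g‖ ^ 2) ^ 2 := by
  classical
  obtain ⟨B, hB⟩ := r.alg
  have hu : ∀ g, u g ∈ B := fun g => hB.ge (uCr g)
  induction A using Finset.induction_on with
  | empty => exact ⟨fun _ => 1, fun _ => Or.inl rfl, by simp⟩
  | insert g A hg ih =>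
    obtain ⟨ε, h1, h2⟩ := ih
    obtain ⟨h2, h3⟩ := h2 _ rfl
    set y := ∑ g ∈ A, (ε g * w g) • u g with hy
    have yB : y ∈ B := sum_mem fun k _ => B.smul_mem (hu k) _
    set v := w g • u g
    have vB : v ∈ B := B.smul_mem (hu g) _
    have vv : star v * v = ((‖w g‖ ^ 2 : ℝ) : ℂ) • 1 := by
      simp only [v, star_smul, smul_mul_assoc, mul_smul_comm, smul_smul, r.su]
      rw [RCLike.star_def, Complex.mul_conj']
      simp
    have n1 : ‖b 1‖ = 1 := b.orthonormal.1 1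
    have o : inner ℂ (b g) (y (b 1)) = 0 := by
      simp only [hy, ContinuousLinearMap.sum_apply, ContinuousLinearMap.smul_apply, inner_sum,
        r.dl, inner_smul_right, bb]
      exact Finset.sum_eq_zero fun k hk => by rw [if_neg fun e : g = k => hg (e ▸ hk), mul_zero]
    have e1 : ∀ e : ℂ, (e = 1 ∨ e = -1) →
        ∑ k ∈ insert g A, (Function.update ε g e k * w k) • u k = e • v + y ∧
        ‖(e • v + y) (b 1)‖ ^ 2 = ‖w g‖ ^ 2 + ∑ g ∈ A, ‖w g‖ ^ 2 := fun e he => by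
      constructor
      · rw [Finset.sum_insert hg, Function.update_self, mul_smul]
        exact congrArg _ (Finset.sum_congr rfl fun k hk => by
          rw [Function.update_of_ne fun a : k = g => hg (a ▸ hk)])
      · rw [ContinuousLinearMap.add_apply, @norm_add_sq ℂ, h2]
        rcases he with rfl | rfl <;>
          simp [v, r.dl, inner_smul_left, o, norm_smul, b.orthonormal.1 g]
    have a1 : ‖(star y * y + star v * v) (b 1)‖ ^ 2 = ‖(star y * y) (b 1)‖ ^ 2 +
        2 * ‖w g‖ ^ 2 * ‖y (b 1)‖ ^ 2 + (‖w g‖ ^ 2) ^ 2 := by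
      rw [add_comm, ContinuousLinearMap.add_apply, @norm_add_sq ℂ, vv,
        ContinuousLinearMap.smul_apply, inner_smul_left, Complex.conj_ofReal, RCLike.re_to_complex,
        Complex.re_ofReal_mul, ContinuousLinearMap.one_apply, nsq, norm_smul, n1,
        Complex.norm_real, Real.norm_of_nonneg (sq_nonneg _)]
      ring
    have a2 : ‖(star v * y) (b 1)‖ ≤ ‖w g‖ * ‖y (b 1)‖ := by
      refine ((star v).le_opNorm _).trans (mul_le_mul_of_nonneg_right ?_ (norm_nonneg _))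
      rw [norm_star, norm_smul]
      exact mul_le_of_le_one_right (norm_nonneg _) (r.nu g)
    have a3 : ‖(star y * v + star v * y) (b 1)‖ ≤ 2 * (‖w g‖ * ‖y (b 1)‖) := by
      have := r.ns (hB.le (mul_mem (star_mem vB) yB))
      rw [star_mul, star_star] at this
      rw [ContinuousLinearMap.add_apply]
      exact (norm_add_le _ _).trans (by linarith)
    have a4 := parallelogram_law_with_norm ℂ ((star y * y + star v * v) (b 1))
      ((star y * v + star v * y) (b 1))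
    have a5 := pow_le_pow_left₀ (norm_nonneg _) a3 2
    rw [mul_pow, mul_pow] at a5
    have e2 : ∀ e : ℂ, (e = 1 ∨ e = -1) → ∀ k, Function.update ε g e k = 1 ∨
        Function.update ε g e k = -1 := fun e he k => by
      by_cases h : k = g
      · rwa [h, Function.update_self]
      · simpa [h] using h1 k
    rw [Finset.sum_insert hg]
    have p1 := sq_nonneg (‖w g‖ ^ 2)
    rw [← h2] at h3 e1 ⊢
    by_cases hc : ‖(star y * y + star v * v) (b 1) + (star y * v + star v * y) (b 1)‖ ^ 2 ≤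
        3 * (‖w g‖ ^ 2 + ‖y (b 1)‖ ^ 2) ^ 2
    · refine ⟨_, e2 1 (Or.inl rfl), fun z hz => ?_⟩
      rw [hz, (e1 1 (Or.inl rfl)).1]
      refine ⟨(e1 1 (Or.inl rfl)).2, le_of_eq_of_le ?_ hc⟩
      rw [← ContinuousLinearMap.add_apply]
      congr 3
      simp only [one_smul, star_add]
      noncomm_ring
    · refine ⟨_, e2 (-1) (Or.inr rfl), fun z hz => ?_⟩
      rw [hz, (e1 _ (Or.inr rfl)).1]
      refine ⟨(e1 _ (Or.inr rfl)).2, ?_⟩
      have : star ((-1 : ℂ) • v + y) * ((-1 : ℂ) • v + y) =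
          star y * y + star v * v - (star y * v + star v * y) := by
        simp only [neg_smul, one_smul, star_add, star_neg]
        noncomm_ring
      rw [this, ContinuousLinearMap.sub_apply]
      nlinarith

theorem Reg.dual (r : Reg b σ u) {y : H →L[ℂ] H} (hy : y ∈ Cr u) : ∃ z ∈ Cr u, ‖z‖ ≤ 1 ∧
    2 * ‖y (b 1)‖ ^ 2 - 2 * ‖(star y * y) (b 1)‖ ^ 2 ≤ (inner ℂ (z (b 1)) (y (b 1))).re := by
  obtain ⟨B, hB⟩ := r.alg
  haveI : IsClosed (B : Set (H →L[ℂ] H)) := hB ▸ isClosed_closure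
  have yB : y ∈ B := hB.ge hy
  have h1 : IsUnit (1 + star y * y) :=
    CStarAlgebra.isUnit_of_le 1 (le_add_of_nonneg_right (star_mul_self_nonneg y))
  obtain ⟨⟨q, qB⟩, h2⟩ := ((B.coe_isUnit (a := ⟨_, add_mem (one_mem B)
    (mul_mem (star_mem yB) yB)⟩)).1 h1).exists_right_inv
  have h3 : ∀ x, q x + (star y * y) (q x) = x := fun x =>
    congrArg (fun T : B => T.1 x) h2
  have h4 : ∀ x, ‖x + (star y * y) x‖ ^ 2 =
      ‖x‖ ^ 2 + 2 * ‖y x‖ ^ 2 + ‖(star y * y) x‖ ^ 2 := fun x => by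
    rw [@norm_add_sq ℂ, RCLike.re_to_complex, nsq]
  refine ⟨(2 : ℂ) • (y * q), hB.le (B.smul_mem (mul_mem yB qB) _),
    ContinuousLinearMap.opNorm_le_bound _ zero_le_one fun x => ?_, ?_⟩
  · rw [one_mul, ← sq_le_sq₀ (norm_nonneg _) (norm_nonneg _), ← h3 x, h4, h3]
    have := (nsq y (q x)).ge.trans ((Complex.re_le_norm _).trans (norm_inner_le_norm _ _))
    simp only [ContinuousLinearMap.smul_apply, norm_smul, ContinuousLinearMap.mul_apply y,
      Complex.norm_ofNat]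
    nlinarith [sq_nonneg (‖q x‖ - ‖(star y * y) (q x)‖)]
  · have h5 : inner ℂ (y (q (b 1))) (y (b 1)) = inner ℂ (b 1) ((star y * y) (b 1)) -
        inner ℂ ((star y * y) (q (b 1))) ((star y * y) (b 1)) := by
      rw [← inner_sub_left, ← eq_sub_of_add_eq (h3 (b 1)), ContinuousLinearMap.mul_apply,
        ContinuousLinearMap.star_eq_adjoint, ContinuousLinearMap.adjoint_inner_right]
    have h6 := h4 ((star y * y) (q (b 1)))
    rw [← map_add, h3] at h6
    have h7 := (Complex.re_le_norm _).trans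
      (norm_inner_le_norm (𝕜 := ℂ) ((star y * y) (q (b 1))) ((star y * y) (b 1)))
    rw [ContinuousLinearMap.smul_apply, inner_smul_left, ContinuousLinearMap.mul_apply y q, h5,
      map_ofNat, Complex.mul_re, Complex.sub_re, nsq]
    simp only [Complex.re_ofNat, Complex.im_ofNat, zero_mul, sub_zero]
    nlinarith [sq_nonneg (‖(star y * y) (q (b 1))‖ - ‖(star y * y) (b 1)‖),
      sq_nonneg ‖y ((star y * y) (q (b 1)))‖, sq_nonneg ‖(star y * y) ((star y * y) (q (b 1)))‖]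

/-- finite Fourier sums -/
noncomputable def Sm (b : HilbertBasis G ℂ H) (u : G → H →L[ℂ] H) (m : G → ℂ) (F : Finset G)
    (x : H →L[ℂ] H) : H →L[ℂ] H := ∑ g ∈ F, (m g * inner ℂ (b g) (x (b 1))) • u g

theorem Reg.key (r : Reg b σ u) (w : G → ℂ) (A : Finset G) : ∃ z ∈ Cr u, ‖z‖ ≤ 1 ∧
    ∃ P ⊆ A, ∃ Q ⊆ A, √(∑ g ∈ A, ‖w g‖ ^ 2) / 3 ≤
      (∑ g ∈ P, conj (inner ℂ (b g) (z (b 1))) * w g -
        ∑ g ∈ Q, conj (inner ℂ (b g) (z (b 1))) * w g).re := by
  classical
  obtain ⟨B, hB⟩ := r.alg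
  set N := √(∑ g ∈ A, ‖w g‖ ^ 2) with hN
  have n0 : 0 ≤ N := Real.sqrt_nonneg _
  rcases n0.eq_or_lt with h | h
  · exact ⟨0, hB.le (zero_mem B), by simp, ∅, by simp, ∅, by simp, by simp [← h]⟩
  have n2 : ∑ g ∈ A, ‖w g‖ ^ 2 = N ^ 2 :=
    (Real.sq_sqrt (Finset.sum_nonneg fun _ _ => sq_nonneg _)).symm
  obtain ⟨ε, h1, h2⟩ := r.kh (fun g => ((1 / (3 * N) : ℝ) : ℂ) * w g) A
  obtain ⟨h2, h3⟩ := h2 _ rfl
  have n3 : ∑ g ∈ A, ‖((1 / (3 * N) : ℝ) : ℂ) * w g‖ ^ 2 = 1 / 9 := by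
    simp only [norm_mul, mul_pow, ← Finset.mul_sum, n2, Complex.norm_real, Real.norm_eq_abs,
      sq_abs]
    field_simp
    norm_num
  obtain ⟨z, z1, z2, z3⟩ := r.dual (hB.le (sum_mem fun k (_ : k ∈ A) =>
    B.smul_mem (hB.ge (uCr k)) (ε k * (((1 / (3 * N) : ℝ) : ℂ) * w k))))
  refine ⟨z, z1, z2, _, A.filter_subset fun g => ε g = 1, _, A.filter_subset fun g => ¬ ε g = 1,
    ?_⟩
  have e : inner ℂ (z (b 1)) ((∑ k ∈ A, (ε k * (((1 / (3 * N) : ℝ) : ℂ) * w k)) • u k) (b 1)) =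
      ((1 / (3 * N) : ℝ) : ℂ) *
      (∑ g ∈ A.filter fun g => ε g = 1, conj (inner ℂ (b g) (z (b 1))) * w g -
        ∑ g ∈ A.filter fun g => ¬ ε g = 1, conj (inner ℂ (b g) (z (b 1))) * w g) := by
    rw [Finset.sum_filter, Finset.sum_filter, ← Finset.sum_sub_distrib, Finset.mul_sum,
      ContinuousLinearMap.sum_apply, inner_sum]
    refine Finset.sum_congr rfl fun k _ => ?_
    rw [ContinuousLinearMap.smul_apply, r.dl, inner_smul_right, inner_conj_symm]
    rcases h1 k with e | e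
    · rw [if_pos e, if_neg (not_not.2 e), e]
      ring
    · have : ¬ ε k = 1 := by rw [e]; norm_num
      rw [if_neg this, if_pos this, e]
      ring
  rw [n3] at h2 h3
  rw [e, Complex.re_ofReal_mul, h2, one_div_mul_eq_div, le_div_iff₀ (by positivity)] at z3
  nlinarith

omit [CompleteSpace H] in
theorem Reg.smc (r : Reg b σ u) (m : G → ℂ) (F : Finset G) :
    ∃ T : (H →L[ℂ] H) →L[ℂ] H →L[ℂ] H, ∀ x, T x = Sm b u m F x :=
  ⟨∑ g ∈ F, (m g • (innerSL ℂ (b g)).comp (ContinuousLinearMap.apply ℂ H (b 1))).smulRight (u g),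
    fun x => by simp [Sm]⟩

theorem Reg.ub (r : Reg b σ u) (m : G → ℂ)
    (h : ∀ x ∈ Cr u, Summable fun g => (m g * inner ℂ (b g) (x (b 1))) • u g) :
    ∃ K, ∀ F, ∀ x ∈ Cr u, ‖Sm b u m F x‖ ≤ K * ‖x‖ := by
  classical
  choose T hT using r.smc m
  let S := (Submodule.span ℂ (Set.range u)).topologicalClosure
  obtain ⟨K, hK⟩ := banach_steinhaus (g := fun F => (T F).comp S.subtypeL) fun x => by
    obtain ⟨s, hs⟩ := summable_iff_vanishing_norm.1 (h x.1 x.2) 1 one_pos
    refine ⟨1 + ∑ g ∈ s, ‖(m g * inner ℂ (b g) (x.1 (b 1))) • u g‖, fun F => ?_⟩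
    rw [ContinuousLinearMap.comp_apply, hT, Sm, ← Finset.sum_inter_add_sum_sdiff F s, add_comm]
    exact (norm_add_le _ _).trans (add_le_add (hs _ Finset.sdiff_disjoint).le
      ((norm_sum_le _ _).trans (Finset.sum_le_sum_of_subset_of_nonneg Finset.inter_subset_right
        fun _ _ _ => norm_nonneg _)))
  exact ⟨K, fun F x hx => hT F x ▸ ((T F).comp S.subtypeL).le_of_opNorm_le (hK F) ⟨x, hx⟩⟩

end Pool.Agent.Lib.helper23.HeatA
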