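import Mathlib
import Pool.Agent.Lib.helper23.HeatA

set_option autoImplicit false

namespace Pool.Agent.Lib.helper23.HeatB

open ComplexConjugate HeatA Filter Topology

variable {G H : Type} [Group G] [NormedAddCommGroup H] [InnerProductSpace ℂ H] [CompleteSpace H]
  {b : HilbertBasis G ℂ H} {σ : G → G → ℂ} {u : G → H →L[ℂ] H}

theorem lein (r : Reg b σ u) {K : ℝ}
    (h : ∀ F, ∀ x ∈ Submodule.span ℂ (Set.range u), ‖Sm b u 1 F x‖ ≤ K * ‖x‖) :
    ∀ p ∈ Cr u, ‖p‖ ≤ 6 * |K| * ‖p (b 1)‖ := by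
  obtain ⟨B, hB⟩ := r.alg
  have h' : ∀ F, ∀ x ∈ Cr u, ‖Sm b u 1 F x‖ ≤ K * ‖x‖ := fun F => by
    obtain ⟨T, hT⟩ := r.smc 1 F
    simp only [← hT]
    exact closure_minimal (t := {x | ‖T x‖ ≤ K * ‖x‖})
      (fun x hx => (congrArg _ (hT x)).trans_le (h F x hx))
      (isClosed_le (by fun_prop) (by fun_prop))
  intro p hp
  refine ContinuousLinearMap.opNorm_le_bound _ (by positivity) fun ξ => ?_
  rw [← b.repr.norm_map]
  refine lp.norm_le_of_forall_sum_le (by simp) (by positivity) fun A => ?_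
  obtain ⟨z, z1, z2, P, -, Q, -, z3⟩ := r.key (fun g => inner ℂ (b g) (p ξ)) A
  have e : ∀ F : Finset G, ‖∑ g ∈ F, conj (inner ℂ (b g) (z (b 1))) * inner ℂ (b g) (p ξ)‖ ≤
      |K| * ‖p (b 1)‖ * ‖ξ‖ := fun F => by
    have sB : Sm b u 1 F z ∈ B := sum_mem fun g _ => B.smul_mem (hB.ge (uCr g)) _
    have e1 : ∑ g ∈ F, conj (inner ℂ (b g) (z (b 1))) * inner ℂ (b g) (p ξ) =
        inner ℂ ((star p * Sm b u 1 F z) (b 1)) ξ := by
      rw [ContinuousLinearMap.mul_apply, ContinuousLinearMap.star_eq_adjoint,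
        ContinuousLinearMap.adjoint_inner_left]
      simp only [Sm, ContinuousLinearMap.sum_apply, ContinuousLinearMap.smul_apply, sum_inner,
        inner_smul_left, r.dl, Pi.one_apply, one_mul]
    have e2 := r.ns (hB.le (mul_mem (star_mem sB) (hB.ge hp)))
    rw [star_mul, star_star] at e2
    rw [e1]
    refine (norm_inner_le_norm _ _).trans (mul_le_mul_of_nonneg_right (e2.trans_le
      (((star (Sm b u 1 F z)).le_opNorm _).trans (mul_le_mul_of_nonneg_right ?_
        (norm_nonneg _)))) (norm_nonneg _))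
    rw [norm_star]
    exact (h' F z z1).trans ((mul_le_mul_of_nonneg_right (le_abs_self K) (norm_nonneg _)).trans
      (mul_le_of_le_one_right (abs_nonneg _) z2))
  have z4 := z3.trans ((Complex.re_le_norm _).trans ((norm_sub_le _ _).trans
    (add_le_add (e P) (e Q))))
  simp only [ENNReal.toReal_ofNat, Real.rpow_ofNat, b.repr_apply_apply]
  rw [← Real.sqrt_le_left (by positivity)]
  linarith

theorem scal (r : Reg b σ u) {C : ℝ} (h : ∀ p ∈ Cr u, ‖p‖ ≤ C * ‖p (b 1)‖) {p : H →L[ℂ] H}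
    (p1 : p ∈ Cr u) (p2 : star p = p) (p3 : p * p = p)
    (hm : ∀ e ∈ Cr u, star e = e → e * e = e → p * e = e → e = 0 ∨ e = p)
    {k : H →L[ℂ] H} (k1 : k ∈ Cr u) (k2 : star k = k) (k3 : p * k = k) (k4 : ‖k‖ = 1) :
    k = p ∨ k = -p := by
  obtain ⟨B, hB⟩ := r.alg
  have kB : k ∈ B := hB.ge k1
  have k5 : k * p = k := by rw [← k2, ← p2, ← star_mul, k3]
  let t : ℕ → ℝ := fun n => ‖(k ^ n) (b 1)‖ ^ 2
  have ta : Antitone t := antitone_nat_of_succ_le fun n => pow_le_pow_left₀ (norm_nonneg _) (by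
    rw [pow_succ', ContinuousLinearMap.mul_apply]
    simpa [k4] using k.le_opNorm ((k ^ n) (b 1))) 2
  have tb : BddBelow (Set.range t) := ⟨0, by rintro _ ⟨n, rfl⟩; positivity⟩
  have tl := tendsto_atTop_ciInf ta tb
  have ti : ∀ m n, (inner ℂ (((k * k) ^ m) (b 1)) (((k * k) ^ n) (b 1))).re = t (m + n) := by
    intro m n
    rw [← ContinuousLinearMap.adjoint_inner_right, ← ContinuousLinearMap.star_eq_adjoint,
      ← ContinuousLinearMap.mul_apply]
    simp only [t, ← nsq, star_pow, star_mul, k2, ← sq, ← pow_mul, ← pow_add]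
    congr 4
    ring
  have hc : CauchySeq fun n => (k * k) ^ n := by
    refine cauchySeq_of_le_tendsto_0 (fun N => |C| * √(2 * (t N - ⨅ i, t i))) (fun m n N a c => ?_)
      ?_
    · rw [dist_eq_norm]
      refine (h _ (hB.le (sub_mem (pow_mem (mul_mem kB kB) m) (pow_mem (mul_mem kB kB) n)))).trans
        (mul_le_mul (le_abs_self C) (Real.le_sqrt_of_sq_le ?_) (norm_nonneg _) (abs_nonneg _))
      rw [ContinuousLinearMap.sub_apply, @norm_sub_sq ℂ, ← @inner_self_eq_norm_sq ℂ,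
        ← @inner_self_eq_norm_sq ℂ]
      simp only [RCLike.re_to_complex, ti]
      linarith [ta (a.trans (Nat.le_add_right m m)), ta (c.trans (Nat.le_add_right n n)),
        ciInf_le tb (m + n)]
    · simpa using ((tl.sub_const (⨅ i, t i)).const_mul 2).sqrt.const_mul |C|
  obtain ⟨e, he⟩ := cauchySeq_tendsto_of_complete hc
  have he' := he.comp (tendsto_add_atTop_nat 1)
  have e1 : k * k * e = e := tendsto_nhds_unique (he.const_mul _) (he'.congr fun n => pow_succ' _ n)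
  have e2 : e * e = e := tendsto_nhds_unique (he.mul_const e) (tendsto_const_nhds.congr fun n => by
    induction n with
    | zero => simp
    | succ n ih => rw [pow_succ, mul_assoc, e1, ← ih])
  have e3 : p * e = e := by rw [← e1, ← mul_assoc, ← mul_assoc, k3]
  have e4 : star e = e := tendsto_nhds_unique he.star (he.congr fun n => by simp [k2])
  have e5 : e ∈ Cr u := isClosed_closure.mem_of_tendsto he
    (Eventually.of_forall fun n => hB.le (pow_mem (mul_mem kB kB) n))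
  have e6 : k * k = p := by
    rcases hm e e5 e4 e2 e3 with rfl | rfl
    · obtain ⟨n, hn⟩ := eventually_atTop.1 (he.norm.eventually (gt_mem_nhds (by simp : _ < (1 : ℝ))))
      have := hn (2 ^ n) Nat.lt_two_pow_self.le
      rw [← sq, ← pow_mul, ← pow_succ', ← coe_nnnorm, IsSelfAdjoint.nnnorm_pow_two_pow k2] at this
      simp [k4] at this
    · rw [← e1, mul_assoc, k5]
  rcases hm ((1 / 2 : ℂ) • (p + k)) (hB.le (B.smul_mem (add_mem (hB.ge p1) kB) _))
    (by simp [p2, k2]) (by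
      simp only [smul_mul_assoc, mul_smul_comm, mul_add, add_mul, p3, k3, k5, e6]
      module) (by simp only [mul_smul_comm, mul_add, p3, k3]) with e | e
  · exact Or.inr (eq_neg_of_add_eq_zero_right ((smul_eq_zero_iff_right (by norm_num)).1 e))
  · exact Or.inl (by linear_combination (norm := module) (2 : ℂ) • e)

theorem fin (r : Reg b σ u) {C : ℝ} (h : ∀ p ∈ Cr u, ‖p‖ ≤ C * ‖p (b 1)‖) : Finite G := by
  obtain ⟨B, hB⟩ := r.alg
  have n1 : ‖b 1‖ = 1 := b.orthonormal.1 1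
  let P : Set (H →L[ℂ] H) := {p | p ∈ Cr u ∧ star p = p ∧ p * p = p ∧ p ≠ 0}
  let t : (H →L[ℂ] H) → ℝ := fun p => (inner ℂ (b 1) (p (b 1))).re
  have ht : ∀ p, star p = p → p * p = p → t p = ‖p (b 1)‖ ^ 2 := fun p a c => by
    rw [← nsq, a, c]
  have lb : ∀ p ∈ P, 1 / (C ^ 2 + 1) ≤ t p := by
    rintro p ⟨a, c, d, e⟩
    have h1 := norm_mul_le p p
    rw [d] at h1
    have h2 : 1 ≤ C * ‖p (b 1)‖ := (le_mul_iff_one_le_left (norm_pos_iff.2 e)).1 h1 |>.trans (h p a)
    rw [ht p c d, div_le_iff₀ (by positivity)]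
    nlinarith [sq_nonneg ‖p (b 1)‖]
  have P1 : (t '' P).Nonempty := ⟨_, 1, ⟨hB.le (one_mem B), star_one _, mul_one _, fun e => by
    simpa [n1] using congrArg (fun T : H →L[ℂ] H => ‖T (b 1)‖) e⟩, rfl⟩
  have i0 : 0 < sInf (t '' P) := (by positivity : 0 < 1 / (C ^ 2 + 1)).trans_le
    (le_csInf P1 (Set.forall_mem_image.2 lb))
  obtain ⟨_, ⟨p, ⟨p1, p2, p3, p4⟩, rfl⟩, hp⟩ :=
    exists_lt_of_csInf_lt P1 (show _ < 2 * sInf (t '' P) by linarith)
  have pB : p ∈ B := hB.ge p1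
  have hm : ∀ e ∈ Cr u, star e = e → e * e = e → p * e = e → e = 0 ∨ e = p := by
    intro e e1 e2 e3 e4
    by_contra! hc
    have e5 : e * p = e := by rw [← e2, ← p2, ← star_mul, e4]
    have bd : BddBelow (t '' P) := ⟨_, Set.forall_mem_image.2 lb⟩
    have a1 := csInf_le bd ⟨e, ⟨e1, e2, e3, hc.1⟩, rfl⟩
    have a2 := csInf_le bd ⟨p - e, ⟨hB.le (sub_mem pB (hB.ge e1)), by rw [star_sub, p2, e2],
      by simp [mul_sub, sub_mul, p3, e3, e4, e5], sub_ne_zero.2 hc.2.symm⟩, rfl⟩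
    simp only [t, ContinuousLinearMap.sub_apply, inner_sub_right, Complex.sub_re] at a1 a2 hp
    linarith
  have sa : ∀ k ∈ B, star k = k → ∃ c : ℂ, p * k * p = c • p := fun k k1 k2 => by
    by_cases h0 : p * k * p = 0
    · exact ⟨0, by simp [h0]⟩
    have h1 : (‖p * k * p‖ : ℂ) ≠ 0 := by simpa using h0
    rcases scal r h p1 p2 p3 hm (k := (‖p * k * p‖ : ℂ)⁻¹ • (p * k * p))
      (hB.le (B.smul_mem (mul_mem (mul_mem pB k1) pB) _)) (by simp [p2, k2, mul_assoc])
      (by simp [← mul_assoc, p3]) (by simp [norm_smul, h0]) with e | e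
    · exact ⟨_, (inv_smul_eq_iff₀ h1).1 e⟩
    · exact ⟨_, ((inv_smul_eq_iff₀ h1).1 e).trans (by rw [smul_neg, ← neg_smul])⟩
  have sc : ∀ x ∈ B, ∃ c : ℂ, p * x * p = c • p := fun x hx => by
    obtain ⟨c, hc⟩ := sa (x + star x) (add_mem hx (star_mem hx)) (by simp [add_comm])
    obtain ⟨d, hd⟩ := sa (Complex.I • (x - star x)) (B.smul_mem (sub_mem hx (star_mem hx)) _)
      (by simp [smul_sub, neg_add_eq_sub])
    refine ⟨(c - Complex.I * d) / 2, ?_⟩
    have := congrArg (Complex.I • ·) hd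
    simp only [mul_add, add_mul, mul_sub, sub_mul, smul_mul_assoc, mul_smul_comm, smul_smul,
      Complex.I_mul_I] at hc this
    linear_combination (norm := module) (1 / 2 : ℂ) • hc - (1 / 2 : ℂ) • this
  have t0 : 0 < t p := (by positivity : 0 < 1 / (C ^ 2 + 1)).trans_le (lb p ⟨p1, p2, p3, p4⟩)
  have tc : inner ℂ (b 1) (p (b 1)) = t p := by
    rw [ht p p2 p3]
    conv_lhs => rw [← p3, ContinuousLinearMap.mul_apply, ← ContinuousLinearMap.adjoint_inner_left,
      ← ContinuousLinearMap.star_eq_adjoint, p2, inner_self_eq_norm_sq_to_K]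
    simp
  have uB : ∀ g, u g ∈ B := fun g => hB.ge (uCr g)
  have tr := fun {x y} (hx : x ∈ B) (hy : y ∈ B) => r.tr (hB.le hx) (hB.le hy)
  let v : G → H := fun g => (u g * p * star (u g)) (b 1)
  have v1 : ∀ g, inner ℂ (b 1) (v g) = t p := fun g => by
    rw [← tc, tr (mul_mem (uB g) pB) (star_mem (uB g)), ← mul_assoc, r.su, one_mul]
  have v2 : ∀ g k, t p * (inner ℂ (v g) (v k)).re = ‖inner ℂ (b k) ((u g * p) (b 1))‖ ^ 2 := by
    intro g k
    obtain ⟨c, hc⟩ := sc _ (mul_mem (star_mem (uB g)) (uB k))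
    have a1 : inner ℂ (b k) ((u g * p) (b 1)) = inner ℂ (b 1) ((u g * p * star (u k)) (b 1)) := by
      rw [tr (mul_mem (uB g) pB) (star_mem (uB k)), ContinuousLinearMap.mul_apply (star (u k)),
        ContinuousLinearMap.star_eq_adjoint, ContinuousLinearMap.adjoint_inner_right, r.dl]
    have a2 : conj (inner ℂ (b k) ((u g * p) (b 1))) = c * t p := by
      rw [inner_conj_symm, ← r.dl k, ← ContinuousLinearMap.adjoint_inner_right,
        ← ContinuousLinearMap.star_eq_adjoint, ← ContinuousLinearMap.mul_apply, star_mul, p2,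
        ← p3, mul_assoc, mul_assoc, tr pB (mul_mem pB (mul_mem (star_mem (uB g)) (uB k))), hc,
        ContinuousLinearMap.smul_apply, inner_smul_right, tc, p3]
    have a3 : inner ℂ (v g) (v k) = c * inner ℂ (b k) ((u g * p) (b 1)) := by
      rw [a1, ← inner_smul_right, ← ContinuousLinearMap.adjoint_inner_right,
        ← ContinuousLinearMap.star_eq_adjoint, ← ContinuousLinearMap.mul_apply,
        ← ContinuousLinearMap.smul_apply, ← smul_mul_assoc, ← mul_smul_comm, ← hc]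
      simp only [star_mul, star_star, p2, mul_assoc]
    rw [← Complex.re_ofReal_mul, a3, ← mul_assoc, mul_comm _ c, ← a2, Complex.conj_mul']
    norm_cast
  by_contra hG
  rw [not_finite_iff_infinite] at hG
  obtain ⟨m, hm⟩ := exists_nat_gt (1 / t p ^ 2)
  obtain ⟨s, rfl⟩ := Infinite.exists_subset_card_eq G m
  have a1 : ‖∑ g ∈ s, v g‖ ^ 2 ≤ s.card := by
    rw [← @inner_self_eq_norm_sq ℂ, sum_inner, map_sum, Finset.card_eq_sum_ones]
    push_cast
    refine Finset.sum_le_sum fun g _ => le_of_mul_le_mul_left ?_ t0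
    rw [inner_sum, map_sum, Finset.mul_sum]
    simp only [RCLike.re_to_complex, v2]
    refine (b.orthonormal.sum_inner_products_le _).trans ?_
    rw [mul_one, ht p p2 p3]
    exact pow_le_pow_left₀ (norm_nonneg _) (((u g).le_opNorm _).trans
      (mul_le_of_le_one_left (norm_nonneg _) (r.nu g))) 2
  have a2 := (Complex.re_le_norm _).trans (norm_inner_le_norm (𝕜 := ℂ) (b 1) (∑ g ∈ s, v g))
  simp only [inner_sum, v1, Finset.sum_const, nsmul_eq_mul, n1, one_mul] at a2
  rw [← Complex.ofReal_natCast, ← Complex.ofReal_mul, Complex.ofReal_re] at a2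
  rw [div_lt_iff₀ (by positivity)] at hm
  have a3 := (pow_le_pow_left₀ (mul_nonneg (Nat.cast_nonneg _) t0.le) a2 2).trans a1
  have a4 : (0 : ℝ) < s.card := pos_of_mul_pos_left (one_pos.trans hm) (sq_nonneg (t p))
  nlinarith

theorem step [Infinite G] (r : Reg b σ u) {d : G → ℝ} (h1 : ∀ g h, d h ≤ 2 * d g + 2 * d (g * h))
    (h2 : ¬ BddAbove (Set.range d)) (h0 : ∀ g, 0 ≤ d g) (η R : ℝ) (hη : 0 < η) :
    ∃ y ∈ Cr u, ∃ S F : Finset G, F ⊆ S ∧ (∀ g ∉ S, inner ℂ (b g) (y (b 1)) = 0) ∧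
      (∀ g ∈ S, R < d g) ∧ ‖y‖ ≤ η ∧ 1 ≤ ‖Sm b u 1 F y‖ ∧
      ∑ g ∈ S, Real.exp (-d g) * ‖inner ℂ (b g) (y (b 1))‖ ≤ η := by
  classical
  obtain ⟨B, hB⟩ := r.alg
  obtain ⟨F, x, x1, x2⟩ : ∃ F, ∃ x ∈ Submodule.span ℂ (Set.range u),
      1 / η * ‖x‖ < ‖Sm b u 1 F x‖ := by
    by_contra! hc
    exact not_finite_iff_infinite.2 inferInstance (fin r (lein r hc))
  obtain ⟨T, hT⟩ := r.smc 1 F
  have t0 : 0 < ‖T x‖ := lt_of_le_of_lt (by positivity) (hT x ▸ x2)
  obtain ⟨z, z1, z2, z3⟩ : ∃ z ∈ Submodule.span ℂ (Set.range u), ‖z‖ ≤ η ∧ ‖T z‖ = 1 := by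
    refine ⟨((‖T x‖⁻¹ : ℝ) : ℂ) • x, Submodule.smul_mem _ _ x1, ?_, by simp [norm_smul, t0.ne']⟩
    rw [norm_smul, Complex.norm_real, norm_inv, norm_norm, inv_mul_le_iff₀ t0, hT]
    rw [one_div_mul_eq_div, div_lt_iff₀ hη] at x2
    exact x2.le
  obtain ⟨a, rfl⟩ := Finsupp.mem_span_range_iff_exists_finsupp.1 z1
  set z := a.sum fun g c => c • u g with hz
  set S := a.support ∪ F
  obtain ⟨_, ⟨γ, rfl⟩, hγ⟩ := not_bddAbove_iff.1 h2 (2 * ∑ g ∈ S, d g + 2 * max R S.card)
  have c1 : ∀ g, inner ℂ (b (g * γ)) ((z * u γ) (b 1)) = σ g γ * inner ℂ (b g) (z (b 1)) := by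
    intro g
    simp only [hz, Finsupp.sum, Finset.sum_mul, smul_mul_assoc, r.mul,
      ContinuousLinearMap.sum_apply, ContinuousLinearMap.smul_apply, r.dl, inner_sum,
      inner_smul_right, bb, mul_left_inj, Finset.mul_sum]
    refine Finset.sum_congr rfl fun k _ => ?_
    split_ifs with h
    · rw [h]; ring
    · simp
  have c2 : ∀ g ∈ S.map (mulRightEmbedding γ), max R S.card < d g := fun g hg => by
    obtain ⟨k, hk, rfl⟩ := Finset.mem_map.1 hg
    have := Finset.single_le_sum (f := d) (fun i _ => h0 i) hk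
    have := h1 k γ
    simp only [mulRightEmbedding_apply]
    linarith
  have c3 : ‖z * u γ‖ ≤ η :=
    (norm_mul_le _ _).trans ((mul_le_of_le_one_right (norm_nonneg _) (r.nu γ)).trans z2)
  refine ⟨z * u γ, hB.le (mul_mem (hB.ge (subset_closure z1)) (hB.ge (uCr γ))),
    S.map (mulRightEmbedding γ), F.map (mulRightEmbedding γ),
    Finset.map_subset_map.2 Finset.subset_union_right, fun g hg => ?_,
    fun g hg => (le_max_left _ _).trans_lt (c2 g hg), c3, ?_, ?_⟩
  · rw [← inv_mul_cancel_right g γ, c1]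
    simp only [hz, Finsupp.sum, ContinuousLinearMap.sum_apply, ContinuousLinearMap.smul_apply,
      r.dl, inner_sum, inner_smul_right, bb]
    refine mul_eq_zero_of_right _ (Finset.sum_eq_zero fun k hk => ?_)
    rw [if_neg fun e : g * γ⁻¹ = k => hg (Finset.mem_map.2
      ⟨k, Finset.mem_union_left _ hk, by simp [← e]⟩), mul_zero]
  · have : T z = Sm b u 1 (F.map (mulRightEmbedding γ)) (z * u γ) * star (u γ) := by
      rw [← mul_one (T z), ← r.us γ, ← mul_assoc, hT, Sm, Sm, Finset.sum_map, Finset.sum_mul]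
      refine congrArg (· * _) (Finset.sum_congr rfl fun g _ => ?_)
      rw [mulRightEmbedding_apply, c1, smul_mul_assoc, r.mul, smul_smul]
      simp [mul_comm]
    rw [← z3, this]
    exact (norm_mul_le _ _).trans (mul_le_of_le_one_right (norm_nonneg _)
      ((norm_star _).trans_le (r.nu γ)))
  · refine (Finset.sum_le_card_nsmul _ _ (Real.exp (-S.card) * η) fun g hg => ?_).trans ?_
    · refine mul_le_mul (Real.exp_le_exp.2 (neg_le_neg ((le_max_right _ _).trans (c2 g hg).le)))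
        ((norm_inner_le_norm _ _).trans ?_) (norm_nonneg _) (Real.exp_pos _).le
      rw [b.orthonormal.1 g, one_mul]
      exact ((z * u γ).le_opNorm _).trans (by rwa [b.orthonormal.1 1, mul_one])
    · rw [Finset.card_map, nsmul_eq_mul, ← mul_assoc, Real.exp_neg]
      refine mul_le_of_le_one_left hη.le ?_
      rw [← div_eq_mul_inv, div_le_one (Real.exp_pos _)]
      linarith [Real.add_one_le_exp (S.card : ℝ)]

theorem weak [Infinite G] (r : Reg b σ u) {d : G → ℝ} (h1 : ∀ g h, d h ≤ 2 * d g + 2 * d (g * h))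
    (h2 : ¬ BddAbove (Set.range d)) (h0 : ∀ g, 0 ≤ d g) :
    ∃ x ∈ Cr u, ¬ (Summable fun g => inner ℂ (b g) (x (b 1)) • u g) ∧
      Summable fun g => ((Real.exp (-d g) : ℂ) * inner ℂ (b g) (x (b 1))) • u g := by
  classical
  obtain ⟨B, hB⟩ := r.alg
  choose y y1 S F y2 y3 y4 y5 y6 y7 using fun (k : ℕ) (R : ℝ) =>
    step r h1 h2 h0 ((1 / 2) ^ k) R (by positivity)
  let R : ℕ → ℝ := fun n => Nat.rec 0 (fun k a => a + 1 + ∑ g ∈ S k a, d g) n
  have R1 : ∀ k, R (k + 1) = R k + 1 + ∑ g ∈ S k (R k), d g := fun _ => rfl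
  have R2 : ∀ k, 0 ≤ ∑ g ∈ S k (R k), d g := fun k => Finset.sum_nonneg fun g _ => h0 g
  have R3 : Monotone R := monotone_nat_of_le_succ fun k => by linarith [R1 k, R2 k]
  have R4 : ∀ k : ℕ, (k : ℝ) ≤ R k := fun k => by
    induction k with
    | zero => exact Nat.cast_zero.le
    | succ k ih => push_cast; linarith [R1 k, R2 k]
  have R5 : ∀ j k, j < k → ∀ g ∈ S j (R j), g ∉ S k (R k) := fun j k h g a c => by
    linarith [y4 _ _ g c, R3 (Nat.succ_le_of_lt h), R1 j, R4 j, Nat.cast_nonneg (α := ℝ) j,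
      Finset.single_le_sum (f := d) (fun i _ => h0 i) a]
  obtain ⟨x, hx⟩ : Summable fun k => y k (R k) :=
    .of_norm_bounded summable_geometric_two fun k => y5 _ _
  have hx' := hx.tendsto_sum_nat
  have c1 : ∀ k, ∀ g ∈ S k (R k), inner ℂ (b g) (x (b 1)) = inner ℂ (b g) (y k (R k) (b 1)) :=
    fun k g hg => (((innerSL ℂ (b g)).comp (ContinuousLinearMap.apply ℂ H (b 1))).hasSum hx).unique
      (hasSum_single k fun j hj => y3 _ _ g fun a => (lt_or_gt_of_ne hj).elim
        (fun h => R5 j k h g a hg) fun h => R5 k j h g hg a)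
  refine ⟨x, isClosed_closure.mem_of_tendsto hx' (Eventually.of_forall fun n =>
    hB.le (sum_mem fun k _ => hB.ge (y1 _ _))), fun h => ?_, .of_norm_bounded
      (g := fun g => Real.exp (-d g) * ‖inner ℂ (b g) (x (b 1))‖)
      (summable_of_sum_le (c := 2) (fun g => by positivity) fun t => ?_) fun g => ?_⟩
  · obtain ⟨s, hs⟩ := summable_iff_vanishing_norm.1 h 1 one_pos
    obtain ⟨k, hk⟩ := exists_nat_ge (∑ g ∈ s, d g)
    refine (hs (F k (R k)) (Finset.disjoint_left.2 fun g a c => ?_)).not_ge ((y6 k (R k)).trans_eq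
      (congrArg _ (Finset.sum_congr rfl fun g a => by simp [c1 k g (y2 _ _ a)])))
    linarith [y4 _ _ g (y2 _ _ a), R4 k, Finset.single_le_sum (f := d) (fun i _ => h0 i) c]
  · have hc : Continuous fun x : H →L[ℂ] H =>
        ∑ g ∈ t, Real.exp (-d g) * ‖inner ℂ (b g) (x (b 1))‖ := by fun_prop
    refine le_of_tendsto' ((hc.tendsto x).comp hx') fun n => le_trans ?_
      ((Finset.sum_le_sum fun k _ => le_trans ?_ (y7 k (R k))).trans (sum_geometric_two_le n))
      (b := ∑ k ∈ Finset.range n, ∑ g ∈ t, Real.exp (-d g) * ‖inner ℂ (b g) (y k (R k) (b 1))‖)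
    · rw [Finset.sum_comm]
      refine Finset.sum_le_sum fun g _ => ?_
      rw [← Finset.mul_sum, ContinuousLinearMap.sum_apply, inner_sum]
      exact mul_le_mul_of_nonneg_left (norm_sum_le _ _) (Real.exp_pos _).le
    · rw [← Finset.sum_inter_add_sum_sdiff t (S k (R k)), Finset.sum_eq_zero (s := _ \ _)
        fun g h => by simp [y3 _ _ g (Finset.mem_sdiff.1 h).2], add_zero]
      exact Finset.sum_le_sum_of_subset_of_nonneg Finset.inter_subset_right
        fun _ _ _ => by positivity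
  · rw [norm_smul, norm_mul, Complex.norm_real, Real.norm_of_nonneg (Real.exp_pos _).le]
    exact mul_le_of_le_one_right (by positivity) (r.nu g)

end Pool.Agent.Lib.helper23.HeatB
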