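import Mathlib
import Pool.Agent.Lib.helper23.HeatA

set_option autoImplicit false

namespace Pool.Agent.Lib.helper23.HeatC

open ComplexConjugate HeatA Filter Topology Pointwise

section op

variable {G H : Type} [Group G] [NormedAddCommGroup H] [InnerProductSpace ℂ H] [CompleteSpace H]
  {b : HilbertBasis G ℂ H} {u : G → H →L[ℂ] H}

theorem growth {Γ : Type} [CommGroup Γ] [DecidableEq Γ] (S : Finset Γ) (n : ℕ) :
    (S ^ n).card ≤ (n + 1) ^ S.card := by
  refine (Finset.card_le_card (t := Finset.univ.image fun c : S → Fin (n + 1) =>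
    ∏ k, k.1 ^ (c k).1) fun a ha => ?_).trans (Finset.card_image_le.trans (by simp))
  obtain ⟨f, rfl⟩ := Finset.mem_pow.1 ha
  refine Finset.mem_image.2 ⟨fun k => ⟨(Finset.univ.filter fun i => f i = k).card,
    Nat.lt_succ_of_le ((Finset.card_le_univ _).trans (by simp))⟩, Finset.mem_univ _, ?_⟩
  rw [List.prod_ofFn, ← Finset.prod_fiberwise' Finset.univ f]
  simp

omit [CompleteSpace H] in
theorem abel (r : Reg b (fun _ _ => 1) u) {Γ : Type} [CommGroup Γ] (ι : Γ →* G)
    (hι : Function.Injective ι) {α : Type} (F : Finset α) (k : α → Γ) (a : α → ℂ) :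
    ‖∑ i ∈ F, a i‖ ≤ ‖∑ i ∈ F, a i • u (ι (k i))‖ := by
  classical
  let U : Γ →* H →L[ℂ] H := ⟨⟨fun g => u (ι g), by simp [r.one]⟩, fun g h => by simp [r.mul]⟩
  let f : MonoidAlgebra ℂ Γ := ∑ i ∈ F, MonoidAlgebra.single (k i) (a i)
  have e1 : ∑ i ∈ F, a i = MonoidAlgebra.lift ℂ ℂ Γ 1 f := by simp [f]
  have e2 : ∑ i ∈ F, a i • u (ι (k i)) = MonoidAlgebra.lift ℂ _ Γ U f := by simp [f, U]
  rw [e1, e2]
  have h1 : ∀ n, (f ^ n).coeff.support ⊆ f.coeff.support ^ n := fun n => by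
    induction n with
    | zero => simpa [MonoidAlgebra.one_def] using Finsupp.support_single_subset
    | succ n ih =>
      rw [pow_succ, pow_succ]
      exact (MonoidAlgebra.support_coeff_mul_subset _ _).trans (Finset.mul_subset_mul_right ih)
  have ho := b.orthonormal.comp ι hι
  have h2 : ∀ x : MonoidAlgebra ℂ Γ, ‖MonoidAlgebra.lift ℂ ℂ Γ 1 x‖ ^ 2 ≤
      x.coeff.support.card * ‖MonoidAlgebra.lift ℂ _ Γ U x‖ ^ 2 := fun x => by
    have a1 := ho.inner_sum 1 x.coeff x.coeff.support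
    have a2 := ho.inner_sum 1 1 x.coeff.support
    have a3 : ∑ i ∈ x.coeff.support, x.coeff i • (b ∘ ι) i =
        MonoidAlgebra.lift ℂ _ Γ U x (b 1) := by
      simp [MonoidAlgebra.lift_apply, Finsupp.sum, U, r.dl]
    have a4 : MonoidAlgebra.lift ℂ ℂ Γ 1 x = ∑ i ∈ x.coeff.support, conj ((1 : Γ → ℂ) i) * x.coeff i := by
      simp [MonoidAlgebra.lift_apply, Finsupp.sum]
    have a5 := congrArg Complex.re a2
    rw [← RCLike.re_to_complex, inner_self_eq_norm_sq] at a5
    simp only [Pi.one_apply, map_one, mul_one, Finset.sum_const, nsmul_eq_mul,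
      Complex.natCast_re] at a5
    rw [a4, ← a1, a3, ← a5, ← mul_pow]
    refine pow_le_pow_left₀ (norm_nonneg _) ((norm_inner_le_norm _ _).trans
      (mul_le_mul_of_nonneg_left ?_ (norm_nonneg _))) 2
    simpa [b.orthonormal.1 1] using (MonoidAlgebra.lift ℂ _ Γ U x).le_opNorm (b 1)
  generalize MonoidAlgebra.lift ℂ ℂ Γ 1 = φ at *
  generalize MonoidAlgebra.lift ℂ _ Γ U = ψ at *
  by_contra! hc
  have h0 := (norm_nonneg _).trans_lt hc
  have h3 := (tendsto_pow_const_mul_const_pow_of_lt_one f.coeff.support.card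
    (r := (‖ψ f‖ / ‖φ f‖) ^ 2) (by positivity)
    (pow_lt_one₀ (by positivity) ((div_lt_one h0).2 hc) two_ne_zero)).const_mul
      (2 ^ f.coeff.support.card)
  obtain ⟨n, h4, h5⟩ := ((h3.eventually (gt_mem_nhds (by simp : _ < (1 : ℝ)))).and
    (eventually_gt_atTop 0)).exists
  have h6 := h2 (f ^ n)
  have h7 : ((f ^ n).coeff.support.card : ℝ) ≤ (2 * n) ^ f.coeff.support.card := by
    exact_mod_cast (Finset.card_le_card (h1 n)).trans ((growth _ n).trans
      (Nat.pow_le_pow_left (by omega) _))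
  rw [map_pow, map_pow, norm_pow] at h6
  rw [← mul_assoc, ← mul_pow, ← pow_mul, mul_comm 2 n, pow_mul, div_pow, div_pow, ← mul_div_assoc,
    div_lt_one (by positivity)] at h4
  exact (h4.trans_le h6).not_ge (mul_le_mul h7 (pow_le_pow_left₀ (norm_nonneg _)
    (norm_pow_le' _ h5) 2) (by positivity) (by positivity))

theorem bound (r : Reg b (fun _ _ => 1) u) (m : G → ℝ)
    (h : ∀ x ∈ Cr u, Summable fun g => ((m g : ℂ) * inner ℂ (b g) (x (b 1))) • u g)
    (N : Subgroup G) (hN : ∀ x ∈ N, ∀ y ∈ N, x * y = y * x) :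
    ∃ M : ℝ, 0 < M ∧ ∀ (A : Finset G) (x : G), (∀ g ∈ A, g * x⁻¹ ∈ N) → ∑ g ∈ A, m g ^ 2 ≤ M := by
  obtain ⟨K, hK⟩ := r.ub _ h
  refine ⟨(6 * |K|) ^ 2 + 1, by positivity, fun A x hA => ?_⟩
  letI : CommGroup N := { mul_comm := fun x y => Subtype.ext (hN _ x.2 _ y.2) }
  obtain ⟨z, z1, z2, P, hP, Q, hQ, z3⟩ := r.key (fun g => m g) A
  have e : ∀ F ⊆ A, ‖∑ g ∈ F, conj (inner ℂ (b g) (z (b 1))) * (m g : ℂ)‖ ≤ |K| := fun F hF => by
    have a1 := abel r N.subtype N.subtype_injective F.attach (fun g => ⟨_, hA g.1 (hF g.2)⟩)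
      fun g => (m g : ℂ) * inner ℂ (b g) (z (b 1))
    have a2 : ∑ g ∈ F.attach, ((m g : ℂ) * inner ℂ (b g) (z (b 1))) • u (g.1 * x⁻¹) =
        Sm b u (fun g => m g) F z * u x⁻¹ := by
      rw [Sm, Finset.sum_mul, ← F.sum_attach]
      simp [r.mul]
    rw [F.sum_attach fun g => (m g : ℂ) * inner ℂ (b g) (z (b 1))] at a1
    rw [← RCLike.norm_conj, map_sum]
    simp only [map_mul, Complex.conj_conj, Complex.conj_ofReal, mul_comm _ (m _ : ℂ)]
    refine a1.trans (a2 ▸ (norm_mul_le _ _).trans ((mul_le_of_le_one_right (norm_nonneg _)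
      (r.nu _)).trans ((hK F z z1).trans ?_)))
    exact (mul_le_mul_of_nonneg_right (le_abs_self K) (norm_nonneg _)).trans
      (mul_le_of_le_one_right (abs_nonneg _) z2)
  have z4 := z3.trans ((Complex.re_le_norm _).trans ((norm_sub_le _ _).trans
    (add_le_add (e P hP) (e Q hQ))))
  simp only [Complex.norm_real, Real.norm_eq_abs, sq_abs] at z4
  exact ((Real.sqrt_le_left (by positivity)).1 (by linarith)).trans (le_add_of_nonneg_right
    zero_le_one)

end op

section walk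

variable {G : Type} [Group G] {β : Type} [Fintype β] (x : β → G)

/-- total of a function over all words of length `n` -/
def E : ℕ → (G → ℝ) → ℝ
  | 0, φ => φ 1
  | n + 1, φ => ∑ a, E n fun g => φ (x a * g)

theorem E_fam (n : ℕ) : ∃ (ι : Type) (_ : Fintype ι) (w : ι → G),
    Fintype.card ι = Fintype.card β ^ n ∧ ∀ φ, E x n φ = ∑ i, φ (w i) := by
  induction n with
  | zero => exact ⟨Unit, inferInstance, fun _ => 1, by simp, fun φ => by simp [E]⟩
  | succ n ih =>
    obtain ⟨ι, _, w, h1, h2⟩ := ih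
    exact ⟨β × ι, inferInstance, fun p => x p.1 * w p.2, by simp [h1, pow_succ'],
      fun φ => by simp [E, h2, Fintype.sum_prod_type]⟩

theorem E_add (n m : ℕ) : ∀ φ, E x (n + m) φ = E x n fun g => E x m fun h => φ (g * h) := by
  induction n with
  | zero => intro φ; simp [E]
  | succ n ih => intro φ; simp [Nat.succ_add, E, ih, mul_assoc]

theorem E_inv (e : β ≃ β) (he : ∀ a, x (e a) = (x a)⁻¹) (n : ℕ) :
    ∀ φ, (E x n fun g => φ g⁻¹) = E x n φ := by
  induction n with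
  | zero => intro φ; simp [E]
  | succ n ih =>
    intro φ
    obtain ⟨ι, _, w, -, h2⟩ := E_fam x n
    conv_rhs => rw [E_add]
    simp only [E, mul_inv_rev, mul_one]
    rw [Finset.sum_congr rfl fun a _ => ih fun g => φ (g * (x a)⁻¹)]
    simp only [h2, ← he]
    rw [Finset.sum_comm]
    exact Finset.sum_congr rfl fun i _ => e.sum_comp fun a => φ (w i * x a)

theorem ndF {d : G → ℝ} (hd : ∀ (n : ℕ) (g : Fin n → G) (c : Fin n → ℂ),
      ∑ i, c i = 0 → (∑ i, ∑ j, star (c i) * c j * d ((g i)⁻¹ * g j)).re ≤ 0)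
    {ι : Type} [Fintype ι] (g : ι → G) (c : ι → ℝ) (h : ∑ i, c i = 0) :
    ∑ i, ∑ j, c i * c j * d ((g i)⁻¹ * g j) ≤ 0 := by
  let q := (Fintype.equivFin ι).symm
  have := hd _ (fun i => g (q i)) (fun i => c (q i)) (by
    rw [q.sum_comp fun i => (c i : ℂ)]
    exact_mod_cast h)
  simp only [RCLike.star_def, Complex.conj_ofReal] at this
  norm_cast at this
  rw [← q.sum_comp]
  exact le_of_eq_of_le (Finset.sum_congr rfl fun i _ => (q.sum_comp _).symm) this

theorem E_lin [Nonempty β] (e : β ≃ β) (he : ∀ a, x (e a) = (x a)⁻¹) {d : G → ℝ} (d1 : d 1 = 0)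
    (hd : ∀ (n : ℕ) (g : Fin n → G) (c : Fin n → ℂ),
      ∑ i, c i = 0 → (∑ i, ∑ j, star (c i) * c j * d ((g i)⁻¹ * g j)).re ≤ 0) (n : ℕ) :
    E x (2 * n) d / Fintype.card β ^ (2 * n) ≤ n * (E x 2 d / Fintype.card β ^ 2) := by
  have h0 : (0 : ℝ) < Fintype.card β := Nat.cast_pos.2 Fintype.card_pos
  have h1 : ∀ n, E x (2 * n) d / Fintype.card β ^ (2 * n) +
      E x (2 * (n + 2)) d / Fintype.card β ^ (2 * (n + 2)) ≤
      2 * (E x (2 * (n + 1)) d / Fintype.card β ^ (2 * (n + 1))) := fun n => by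
    obtain ⟨ι, _, w, a1, a2⟩ := E_fam x n
    obtain ⟨κ, _, v, b1, b2⟩ := E_fam x (n + 2)
    have := ndF hd (Sum.elim w v) (Sum.elim (fun _ => 1 / Fintype.card β ^ n)
      fun _ => -(1 / Fintype.card β ^ (n + 2))) (by simp [a1, b1, h0.ne'])
    have k : ∀ n m, E x (n + m) d = E x n fun g => E x m fun h => d (g⁻¹ * h) := fun n m => by
      rw [E_add, ← E_inv x e he]
    have k1 := k n n
    have k2 := k n (n + 2)
    have k3 := k (n + 2) n
    have k4 := k (n + 2) (n + 2)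
    simp only [a2, b2] at k1 k2 k3 k4
    simp only [Fintype.sum_sum_type, Sum.elim_inl, Sum.elim_inr, Finset.sum_add_distrib,
      ← Finset.mul_sum, ← k1, ← k2, ← k3, ← k4] at this
    rw [show n + n = 2 * n by ring, show n + (n + 2) = 2 * (n + 1) by ring,
      show n + 2 + n = 2 * (n + 1) by ring, show n + 2 + (n + 2) = 2 * (n + 2) by ring] at this
    convert sub_nonpos.1 (le_of_eq_of_le _ this) using 1
    field_simp
    ring
  have h2 : ∀ n, E x (2 * (n + 1)) d / Fintype.card β ^ (2 * (n + 1)) ≤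
      E x (2 * n) d / Fintype.card β ^ (2 * n) + E x 2 d / Fintype.card β ^ 2 := fun n => by
    induction n with
    | zero => simp [E, d1]
    | succ n ih => linarith [h1 n]
  induction n with
  | zero => simp [E, d1]
  | succ n ih => push_cast; linarith [h2 n]

end walk

end Pool.Agent.Lib.helper23.HeatC
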