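import Mathlib
import Pool.Agent.Lib.helper23.HeatC

set_option autoImplicit false

namespace Pool.Agent.Lib.helper23.HeatD

open HeatC

variable {G : Type} [Group G] {α : Type} [Fintype α]

abbrev J4 : Type := Bool × Bool

def cc (c : G) (e : Bool) : G := cond e c c⁻¹

def SL : ℕ → (List α → ℝ) → ℝ
  | 0, F => F []
  | n + 1, F => ∑ a, SL n fun l => F (a :: l)

theorem SL_fam (n : ℕ) : ∃ (ι : Type) (_ : Fintype ι) (w : ι → List α),
    Fintype.card ι = Fintype.card α ^ n ∧ (∀ i, (w i).length = n) ∧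
      ∀ F, SL n F = ∑ i, F (w i) := by
  induction n with
  | zero => exact ⟨Unit, inferInstance, fun _ => [], by simp, by simp, fun φ => by simp [SL]⟩
  | succ n ih =>
    obtain ⟨ι, _, w, h1, h3, h2⟩ := ih
    exact ⟨α × ι, inferInstance, fun p => p.1 :: w p.2, by simp [h1, pow_succ'], by simp [h3],
      fun φ => by simp [SL, h2, Fintype.sum_prod_type]⟩

variable (c : G) (s : J4 → G)

def Z : List (J4 × Bool) → (G → ℝ) → ℝ
  | [], φ => φ 1
  | q :: p, φ => ∑ e, Z p fun g => φ (cc c e * (s q.1 * cc c q.2) * g)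

theorem Z_fam (p : List (J4 × Bool)) : ∃ (ι : Type) (_ : Fintype ι) (w : ι → G),
    Fintype.card ι = 2 ^ p.length ∧ ∀ φ, Z c s p φ = ∑ i, φ (w i) := by
  induction p with
  | nil => exact ⟨Unit, inferInstance, fun _ => 1, by simp, fun φ => by simp [Z]⟩
  | cons q p ih =>
    obtain ⟨ι, _, w, h1, h2⟩ := ih
    exact ⟨Bool × ι, inferInstance, fun a => cc c a.1 * (s q.1 * cc c q.2) * w a.2,
      by simp [h1, pow_succ'], fun φ => by simp only [Z, h2, Fintype.sum_prod_type]⟩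

theorem SL_Z (n : ℕ) : ∀ φ, (SL n fun p => Z c s p φ) =
    E (fun a : Bool × J4 × Bool => cc c a.1 * (s a.2.1 * cc c a.2.2)) n φ := by
  induction n with
  | zero => intro φ; rfl
  | succ n ih =>
    intro φ
    obtain ⟨ι, _, w, -, -, h2⟩ := SL_fam (α := J4 × Bool) n
    rw [E, Fintype.sum_prod_type, Finset.sum_comm]
    simp only [SL, Z, ← ih, h2]
    exact Finset.sum_congr rfl fun q _ => Finset.sum_comm

def I [DecidableEq G] : List (J4 × Bool) → Finset G
  | [] => {1}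
  | q :: p => Finset.univ.biUnion fun e => (I p).image (cc c e * (s q.1 * cc c q.2) * ·)

def xx : List (J4 × Bool) → G
  | [] => 1
  | q :: p => s q.1 * xx p

def NR (N : Subgroup G) : G → List (J4 × Bool) → Prop
  | γ, [] => γ * c * γ⁻¹ ∈ N
  | γ, q :: p => γ * c * γ⁻¹ ∈ N ∧ NR N (γ * s q.1) p

open Classical in
noncomputable def R (N : Subgroup G) : List (J4 × Bool) → ℕ
  | [] => 0
  | q :: p => R N p + if NR c s N (s q.1) p then 1 else 0

variable {c s}

theorem NR.cc {N : Subgroup G} {γ : G} {p : List (J4 × Bool)} (h : NR c s N γ p) (e : Bool) :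
    γ * cc c e * γ⁻¹ ∈ N := by
  have : γ * c * γ⁻¹ ∈ N := by cases p; exacts [h, h.1]
  cases e
  · simpa [HeatD.cc, mul_assoc] using N.inv_mem this
  · exact this

theorem coset [DecidableEq G] (N : Subgroup G) (p : List (J4 × Bool)) :
    ∀ γ, NR c s N γ p → ∀ g ∈ I c s p, γ * g * (γ * xx s p)⁻¹ ∈ N := by
  induction p with
  | nil => intro γ _ g hg; simp [Finset.mem_singleton.1 hg, xx]
  | cons q p ih =>
    intro γ h g hg
    obtain ⟨e, -, hg⟩ := Finset.mem_biUnion.1 hg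
    obtain ⟨k, hk, rfl⟩ := Finset.mem_image.1 hg
    convert N.mul_mem (N.mul_mem (h.cc e) (h.2.cc q.2)) (ih _ h.2 k hk) using 1
    simp [xx, mul_assoc]

theorem mult [DecidableEq G] (N : Subgroup G) (h2 : c * c ∉ N) (p : List (J4 × Bool)) :
    ∀ φ : G → ℝ, (∀ g, 0 ≤ φ g) →
      2 ^ R c s N p * Z c s p φ ≤ 2 ^ p.length * ∑ g ∈ I c s p, φ g := by
  induction p with
  | nil => intro φ _; simp [R, Z, I]
  | cons q p ih =>
    intro φ h0
    have a : ∀ e, 2 ^ R c s N p * Z c s p (fun g => φ (cc c e * (s q.1 * cc c q.2) * g)) ≤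
        2 ^ p.length * ∑ g ∈ (I c s p).image (cc c e * (s q.1 * cc c q.2) * ·), φ g := fun e => by
      rw [Finset.sum_image (mul_right_injective _).injOn]
      exact ih _ fun g => h0 _
    rw [Z, R, List.length_cons, pow_succ, Finset.mul_sum]
    split_ifs with h
    · rw [I, Finset.sum_biUnion, Finset.mul_sum]
      · exact Finset.sum_le_sum fun e _ => by rw [pow_succ]; linarith [a e]
      have k : ∀ g ∈ I c s p, ∀ e, s q.1 * cc c e * g * (s q.1 * xx s p)⁻¹ ∈ N := fun g hg e => by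
        convert N.mul_mem (h.cc e) (coset N p _ h g hg) using 1
        simp [mul_assoc]
      have k2 : Disjoint ((I c s p).image (cc c true * (s q.1 * cc c q.2) * ·))
          ((I c s p).image (cc c false * (s q.1 * cc c q.2) * ·)) := by
        refine Finset.disjoint_left.2 fun y y1 y2 => h2 ?_
        obtain ⟨g, hg, rfl⟩ := Finset.mem_image.1 y1
        obtain ⟨g', hg', e⟩ := Finset.mem_image.1 y2
        convert N.mul_mem (k g' hg' q.2) (N.inv_mem (k g hg q.2)) using 1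
        rw [mul_assoc, mul_assoc (cc c true), ← eq_inv_mul_iff_mul_eq] at e
        rw [e]
        simp [cc, mul_assoc]
      rintro (_ | _) - (_ | _) - h
      exacts [absurd rfl h, k2.symm, k2, absurd rfl h]
    · refine (Finset.sum_le_card_nsmul _ _ (2 ^ p.length * ∑ g ∈ I c s (q :: p), φ g)
        fun e _ => (a e).trans (mul_le_mul_of_nonneg_left (Finset.sum_le_sum_of_subset_of_nonneg
          (Finset.subset_biUnion_of_mem (fun e => (I c s p).image
            (cc c e * (s q.1 * cc c q.2) * ·)) (Finset.mem_univ e)) fun g _ _ => h0 g)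
            (by positivity))).trans_eq ?_
      simp
      ring

open Classical in
theorem trans (N : Subgroup G) (Rel : G → ℝ → Prop)
    (h1 : ∀ γ r, Rel γ r → ∃ nx : J4 → ℝ, (∀ i, Rel (γ * s i) (nx i)) ∧ ∑ i, nx i ≤ 4 * r)
    (h2 : ∀ γ r, Rel γ r → 0 ≤ r ∧ (γ * c * γ⁻¹ ∈ N ∨ 1 ≤ r)) (n : ℕ) :
    ∀ γ r, Rel γ r → 8 ^ n * (1 - r) ≤ SL n fun p => if NR c s N γ p then 1 else 0 := by
  induction n with
  | zero =>
    intro γ r h
    obtain ⟨a, b | b⟩ := h2 γ r h
    · simpa [SL, NR, b] using a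
    · simp only [SL]
      split_ifs <;> linarith
  | succ n ih =>
    intro γ r h
    obtain ⟨a, b | b⟩ := h2 γ r h
    · obtain ⟨nx, h3, h4⟩ := h1 γ r h
      simp only [SL, NR, b, true_and]
      refine le_trans ?_ (Finset.sum_le_sum fun q _ => ih _ _ (h3 q.1))
      rw [← Finset.mul_sum, Fintype.sum_prod_type]
      simp only [Finset.sum_const, Finset.card_univ, Fintype.card_bool, nsmul_eq_mul,
        ← Finset.mul_sum, Finset.sum_sub_distrib, Fintype.card_prod]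
      push_cast
      rw [pow_succ, mul_assoc]
      exact mul_le_mul_of_nonneg_left (by linarith) (by positivity)
    · obtain ⟨ι, _, w, -, -, h2⟩ := SL_fam (α := J4 × Bool) (n + 1)
      rw [h2]
      exact (mul_nonpos_of_nonneg_of_nonpos (by positivity) (by linarith)).trans
        (Finset.sum_nonneg fun _ _ => by positivity)

theorem range (N : Subgroup G) (Rel : G → ℝ → Prop)
    (h0 : ∃ nx : J4 → ℝ, (∀ i, Rel (s i) (nx i)) ∧ ∑ i, nx i ≤ 3)
    (h1 : ∀ γ r, Rel γ r → ∃ nx : J4 → ℝ, (∀ i, Rel (γ * s i) (nx i)) ∧ ∑ i, nx i ≤ 4 * r)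
    (h2 : ∀ γ r, Rel γ r → 0 ≤ r ∧ (γ * c * γ⁻¹ ∈ N ∨ 1 ≤ r)) (n : ℕ) :
    8 ^ n * (n / 4 : ℝ) ≤ SL n fun p => R c s N p := by
  obtain ⟨nx, h3, h4⟩ := h0
  induction n with
  | zero => simp [SL, R]
  | succ n ih =>
    obtain ⟨ι, _, w, -, -, h5⟩ := SL_fam (α := J4 × Bool) n
    have := fun q : J4 × Bool => add_le_add ih (trans N Rel h1 h2 n _ _ (h3 q.1))
    simp only [h5, ← Finset.sum_add_distrib] at this
    simp only [SL, R, h5, Nat.cast_add, Nat.cast_ite, Nat.cast_one, Nat.cast_zero]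
    refine le_trans ?_ (Finset.sum_le_sum fun q _ => this q)
    simp only [← mul_add, ← Finset.mul_sum]
    rw [Fintype.sum_prod_type]
    simp only [Finset.sum_const, Finset.card_univ, Fintype.card_bool, nsmul_eq_mul,
      ← Finset.mul_sum, Finset.sum_sub_distrib, Fintype.card_prod, Finset.sum_add_distrib]
    push_cast
    rw [pow_succ, mul_assoc]
    exact mul_le_mul_of_nonneg_left (by linarith) (by positivity)

theorem noheat (N : Subgroup G) (Rel : G → ℝ → Prop) (hs : ∀ i, s (i.1, !i.2) = (s i)⁻¹)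
    (hc : c * c ∉ N) (hr : Rel 1 1)
    (h0 : ∃ nx : J4 → ℝ, (∀ i, Rel (s i) (nx i)) ∧ ∑ i, nx i ≤ 3)
    (h1 : ∀ γ r, Rel γ r → ∃ nx : J4 → ℝ, (∀ i, Rel (γ * s i) (nx i)) ∧ ∑ i, nx i ≤ 4 * r)
    (h2 : ∀ γ r, Rel γ r → 0 ≤ r ∧ (γ * c * γ⁻¹ ∈ N ∨ 1 ≤ r))
    (h3 : ∀ γ r, Rel γ r → Commute (γ * c * γ⁻¹) c) {d : G → ℝ} (d1 : d 1 = 0)
    (hd : ∀ (n : ℕ) (g : Fin n → G) (c : Fin n → ℂ),
      ∑ i, c i = 0 → (∑ i, ∑ j, star (c i) * c j * d ((g i)⁻¹ * g j)).re ≤ 0)
    (h : ∀ t : ℝ, 0 < t → ∀ N : Subgroup G, (∀ x ∈ N, ∀ y ∈ N, x * y = y * x) → ∃ M : ℝ, 0 < M ∧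
      ∀ (A : Finset G) (x : G), (∀ g ∈ A, g * x⁻¹ ∈ N) → ∑ g ∈ A, Real.exp (-(t * d g)) ^ 2 ≤ M) :
    False := by
  classical
  let Γ := Subgroup.closure (Set.range s)
  have hΓ : ∀ γ ∈ Γ, ∃ r, Rel γ r := fun γ hγ => by
    induction hγ using Subgroup.closure_induction_right with
    | one => exact ⟨1, hr⟩
    | mul_right x _ y hy ih =>
      obtain ⟨i, rfl⟩ := hy
      exact ⟨_, (h1 _ _ ih.choose_spec).choose_spec.1 i⟩
    | mul_inv_cancel x _ y hy ih =>
      obtain ⟨i, rfl⟩ := hy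
      exact ⟨_, hs i ▸ (h1 _ _ ih.choose_spec).choose_spec.1 (i.1, !i.2)⟩
  let L := Subgroup.closure {g | ∃ γ ∈ Γ, g = γ * c * γ⁻¹}
  have hL : ∀ x ∈ L, ∀ y ∈ L, x * y = y * x := fun x hx y hy => by
    refine congrArg Subtype.val ((Subgroup.isMulCommutative_closure ?_).is_comm.comm
      (⟨x, hx⟩ : L) ⟨y, hy⟩)
    rintro _ ⟨γ, a, rfl⟩ _ ⟨δ, b, rfl⟩
    have := (h3 _ _ (hΓ _ (Γ.mul_mem (Γ.inv_mem b) a)).choose_spec).map (MulAut.conj δ)
    simpa [mul_assoc] using this.eq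
  have hN : ∀ p, ∀ γ ∈ Γ, NR c s L γ p := fun p => by
    induction p with
    | nil => exact fun γ a => Subgroup.subset_closure ⟨γ, a, rfl⟩
    | cons q p ih => exact fun γ a => ⟨Subgroup.subset_closure ⟨γ, a, rfl⟩,
        ih _ (Γ.mul_mem a (Subgroup.subset_closure ⟨_, rfl⟩))⟩
  have hE := E_lin (fun a : Bool × J4 × Bool => cc c a.1 * (s a.2.1 * cc c a.2.2))
    (Function.Involutive.toPerm (fun a => (!a.2.2, (a.2.1.1, !a.2.1.2), !a.1)) fun a => by simp)
    (by rintro ⟨_ | _, i, _ | _⟩ <;> simp [cc, hs, mul_assoc]) d1 hd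
  set e := E (fun a : Bool × J4 × Bool => cc c a.1 * (s a.2.1 * cc c a.2.2)) 2 d /
    Fintype.card (Bool × J4 × Bool) ^ 2
  have l2 := Real.log_pos one_lt_two
  obtain ⟨t, t0, t1⟩ : ∃ t : ℝ, 0 < t ∧ t * e ≤ Real.log 2 / 8 :=
    ⟨Real.log 2 / 8 / (|e| + 1), by positivity, by
      rw [div_mul_eq_mul_div, div_le_iff₀ (by positivity)]
      exact mul_le_mul_of_nonneg_left (by linarith [le_abs_self e]) (by positivity)⟩
  obtain ⟨M, M0, hM⟩ := h t t0 L hL
  have k : ∀ p, 2 ^ p.length * (R c s N p * Real.log 2 - Real.log M) ≤ 2 * t * Z c s p d := by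
    intro p
    have a1 := (mult (s := s) N hc p _ fun g => sq_nonneg _).trans (mul_le_mul_of_nonneg_left
      (hM _ (xx s p) fun g hg => by simpa using coset L p 1 (hN p 1 Γ.one_mem) g hg)
      (by positivity))
    obtain ⟨ι, _, w, a2, a3⟩ := Z_fam c s p
    rw [a3, Finset.mul_sum] at a1 ⊢
    have a4 := Finset.sum_le_sum fun i (_ : i ∈ Finset.univ) =>
      mul_le_mul_of_nonneg_left (Real.add_one_le_exp
        (R c s N p * Real.log 2 - Real.log M - 2 * t * d (w i))) M0.le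
    have a5 : ∀ i, M * Real.exp (R c s N p * Real.log 2 - Real.log M - 2 * t * d (w i)) =
        2 ^ R c s N p * Real.exp (-(t * d (w i))) ^ 2 := fun i => by
      rw [Real.exp_sub, Real.exp_sub, Real.exp_nat_mul, Real.exp_log two_pos, Real.exp_log M0,
        Real.exp_neg, mul_assoc 2, ← Nat.cast_two, Real.exp_nat_mul]
      field_simp
    simp only [a5] at a4
    have a6 := a4.trans a1
    simp only [← Finset.mul_sum, Finset.sum_add_distrib, Finset.sum_sub_distrib, Finset.sum_const,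
      Finset.card_univ, a2, nsmul_eq_mul] at a6 ⊢
    push_cast at a6
    rw [mul_comm _ M] at a6
    linarith [le_of_mul_le_mul_left a6 M0]
  obtain ⟨n, hn⟩ := exists_nat_gt (Real.log M / (Real.log 2 / 4))
  have b1 := range N Rel h0 h1 h2 (2 * n)
  have b2 := hE n
  rw [← SL_Z, div_le_iff₀ (by positivity)] at b2
  obtain ⟨ι, _, w, a1, a2, a3⟩ := SL_fam (α := J4 × Bool) (2 * n)
  have b3 := Finset.sum_le_sum fun i (_ : i ∈ Finset.univ) => k (w i)
  simp only [a2, ← Finset.mul_sum, Finset.sum_sub_distrib, ← Finset.sum_mul, Finset.sum_const,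
    Finset.card_univ, a1, nsmul_eq_mul, Fintype.card_prod, Fintype.card_bool] at b3 b2
  rw [a3] at b1 b2
  push_cast at b1 b2 b3
  rw [div_lt_iff₀ (by positivity)] at hn
  rw [show (16 : ℝ) = 2 * 8 by norm_num, mul_pow] at b2
  have p2 : (0 : ℝ) < 2 ^ (2 * n) := by positivity
  have p8 : (0 : ℝ) < 8 ^ (2 * n) := by positivity
  generalize (2 : ℝ) ^ (2 * n) = A at *
  generalize (8 : ℝ) ^ (2 * n) = B at *
  have c1 := mul_le_mul_of_nonneg_left b2 (show 0 ≤ 2 * t by positivity)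
  have c2 := mul_le_mul_of_nonneg_left (mul_le_mul_of_nonneg_right b1 l2.le) p2.le
  have c3 := mul_le_mul_of_nonneg_left t1 (show 0 ≤ 2 * n * (A * B) by positivity)
  nlinarith [mul_lt_mul_of_pos_left hn (mul_pos p2 p8)]

end Pool.Agent.Lib.helper23.HeatD
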