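import Mathlib
import Pool.Agent.Lib.helper23.HeatD

set_option autoImplicit false

namespace Pool.Agent.Lib.helper23.HeatE

open HeatD

variable {G Y : Type} [Group G] [MulAction G Y]

theorem pres {g : G} {A : Set Y} (h : ∀ y ∈ A, g • y = y) (y : Y) : g • y ∈ A ↔ y ∈ A :=
  ⟨fun a => (smul_left_cancel g (h _ a)) ▸ a, fun a => (h y a).symm ▸ a⟩

def ρ (s h : G) : List (ℤ × ℤ) → G
  | [] => 1
  | a :: l => s ^ a.1 * h ^ a.2 * ρ s h l

def low : List (ℤ × ℤ) → Prop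
  | [] => True
  | a :: _ => a.1 < 0

def ok : List (ℤ × ℤ) → Prop
  | [] => True
  | a :: l => a.2 ≠ 0 ∧ ok l ∧ low l

def dep : List (ℤ × ℤ) → ℕ
  | [] => 0
  | a :: l => dep l + a.2.natAbs + (-a.1).toNat

structure Geo (c s h : G) (J K Z : Set Y) : Prop where
  cJ : ∀ y ∉ J, c • y = y
  c2 : ∃ y ∈ J, c • c • y ≠ y
  sJ : ∀ y ∈ J, s • y = y
  JK : J ⊆ K
  sK : ∀ y, s • y ∈ K → y ∈ K
  hK : ∀ y ∉ K, h • y = y
  hZ : ∀ y, s • y ∈ K ∨ y ∈ Z → h • y ∈ Z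
  ZK : ∀ y ∈ Z, s • y ∉ K

variable {c s h : G} {J K Z : Set Y}

theorem zfix {g : G} {y : Y} (h : g • y = y) (n : ℤ) : g ^ n • y = y :=
  (MulAction.stabilizer G y).zpow_mem h n

theorem Geo.mono (d : Geo c s h J K Z) {y : Y} {i j : ℤ} (hij : i ≤ j) (a : s ^ j • y ∈ K) :
    s ^ i • y ∈ K := by
  induction j, hij using Int.le_induction with
  | base => exact a
  | succ n _ ih => exact ih (d.sK _ (by rwa [← mul_smul, ← zpow_one_add, add_comm]))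

theorem Geo.hn (d : Geo c s h J K Z) {y : Y} (a : s • y ∈ K) {n : ℤ} (hn : n ≠ 0) :
    h ^ n • y ∈ K ∧ s • h ^ n • y ∉ K := by
  have k : ∀ y, s • y ∈ K → ∀ m : ℕ, h ^ (m + 1) • y ∈ Z := fun y a m => by
    induction m with
    | zero => simpa using d.hZ y (Or.inl a)
    | succ m ih => rw [pow_succ', mul_smul]; exact d.hZ _ (Or.inr ih)
  refine ⟨not_not.1 fun e => (pres (A := Kᶜ) (fun y a => zfix (d.hK y a) n) y).1 e (d.sK y a),
    fun e => ?_⟩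
  rcases n with (_ | m) | m
  · exact hn rfl
  · exact d.ZK _ (by simpa [← zpow_natCast] using k y a m) e
  · exact d.ZK _ (by simpa [← mul_smul] using k _ e m) a

theorem Geo.inv (d : Geo c s h J K Z) {y : Y} (hy : y ∈ J) : ∀ l, ok l →
    (low l → s • ρ s h l • y ∈ K) ∧ ∀ a l', l = a :: l' → s ^ (1 - a.1) • ρ s h l • y ∉ K
  | [], _ => ⟨fun _ => by simpa [ρ, d.sJ y hy] using d.JK hy, by simp⟩
  | a :: l, ⟨h1, h2, h3⟩ => by
    have := d.hn ((d.inv hy l h2).1 h3) h1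
    refine ⟨fun h4 => ?_, ?_⟩
    · have e := d.mono (i := 1 + a.1) (j := 0) (y := h ^ a.2 • ρ s h l • y)
        (by simp only [low] at h4; omega) (by simpa using this.1)
      simpa [ρ, zpow_add, mul_smul] using e
    · rintro _ _ ⟨⟩
      simpa [ρ, zpow_sub, mul_smul] using this.2

theorem Geo.step (d : Geo c s h J K Z) (l : List (ℤ × ℤ)) (hl : ok l) :
    ∃ nx : J4 → List (ℤ × ℤ), (∀ i, ok (nx i) ∧ ∀ y ∈ J,
      (cc (cond i.1 s h) i.2)⁻¹ • ρ s h l • y = ρ s h (nx i) • y) ∧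
      ∑ i, (1 / 2 : ℝ) ^ dep (nx i) ≤ 4 * (1 / 2) ^ dep l ∧
      (l = [] → ∑ i, (1 / 2 : ℝ) ^ dep (nx i) ≤ 3) := by
  have e : ∀ (x : G) (b : Bool), (cc x b)⁻¹ = x ^ (cond b (-1) 1 : ℤ) := by
    rintro x (_ | _) <;> simp [cc]
  have e0 : ∀ b : Bool, (cond b (-1) 1 : ℤ) ≠ 0 := by decide
  simp only [e]
  rcases l with _ | ⟨⟨k, n⟩, l⟩
  · refine ⟨fun i => cond i.1 [] [(0, cond i.2 (-1) 1)], ?_, ?_, fun _ => ?_⟩
    · rintro ⟨_ | _, b⟩
      · exact ⟨⟨e0 b, trivial, trivial⟩, by simp [ρ]⟩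
      · exact ⟨trivial, fun y hy => by simp [ρ, zfix (d.sJ y hy)]⟩
    all_goals
      simp [Fintype.sum_prod_type, dep]
      norm_num
  have p0 : (0 : ℝ) < (1 / 2) ^ dep l := by positivity
  have e1 : ∀ (b : Bool) (y : Y), s ^ (cond b (-1) 1 : ℤ) • ρ s h ((k, n) :: l) • y =
      ρ s h ((cond b (-1) 1 + k, n) :: l) • y := fun b y => by simp [ρ, zpow_add, mul_smul]
  rcases lt_trichotomy k 0 with hk | rfl | hk
  · refine ⟨fun i => cond i.1 ((cond i.2 (-1) 1 + k, n) :: l)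
      ((0, cond i.2 (-1) 1) :: (k, n) :: l), ?_, ?_, by simp⟩
    · rintro ⟨_ | _, b⟩
      · exact ⟨⟨e0 b, hl, hk⟩, by simp [ρ, mul_smul]⟩
      · exact ⟨hl, fun y _ => e1 b y⟩
    · obtain ⟨m, rfl⟩ : ∃ m : ℕ, k = -(m + 1) := ⟨(-k - 1).toNat, by omega⟩
      simp only [Fintype.sum_prod_type, Fintype.sum_bool, cond_true, cond_false, dep,
        show (-(-1 + -((m : ℤ) + 1))).toNat = m + 2 by omega,
        show (-(1 + -((m : ℤ) + 1))).toNat = m by omega,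
        show (-(-((m : ℤ) + 1))).toNat = m + 1 by omega, pow_add]
      have : (0 : ℝ) < (1 / 2) ^ dep l * (1 / 2) ^ n.natAbs * (1 / 2) ^ m := by positivity
      norm_num
      nlinarith
  · refine ⟨fun i => cond i.1 ((cond i.2 (-1) 1 + 0, n) :: l)
      (if cond i.2 (-1) 1 + n = 0 then l else (0, cond i.2 (-1) 1 + n) :: l), ?_, ?_, by simp⟩
    · rintro ⟨_ | _, b⟩
      · simp only [cond_false]
        split_ifs with a
        · exact ⟨hl.2.1, fun y _ => by simp [ρ, ← mul_smul, ← mul_assoc, ← zpow_add, a]⟩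
        · exact ⟨⟨a, hl.2⟩, by simp [ρ, zpow_add, mul_smul]⟩
      · exact ⟨hl, fun y _ => e1 b y⟩
    · have a : ∀ j : ℤ, dep (if j = 0 then l else (0, j) :: l) = dep l + j.natAbs := fun j => by
        split_ifs with a <;> simp [dep, a]
      obtain ⟨m, h1, h2⟩ : ∃ m, n.natAbs = m + 1 ∧
          (((-1 + n).natAbs = m ∧ (1 + n).natAbs = m + 2) ∨
            ((-1 + n).natAbs = m + 2 ∧ (1 + n).natAbs = m)) :=
        ⟨n.natAbs - 1, by have := hl.1; omega⟩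
      simp only [Fintype.sum_prod_type, Fintype.sum_bool, cond_true, cond_false, a, dep, h1]
      have : (0 : ℝ) < (1 / 2) ^ dep l * (1 / 2) ^ m := by positivity
      rcases h2 with ⟨h2, h3⟩ | ⟨h2, h3⟩ <;>
      · simp only [h2, h3, pow_add, show (-(1 + 0 : ℤ)).toNat = 0 from rfl]
        norm_num
        nlinarith
  · refine ⟨fun i => cond i.1 ((cond i.2 (-1) 1 + k, n) :: l) ((k, n) :: l), ?_, ?_, by simp⟩
    · rintro ⟨_ | _, b⟩
      · refine ⟨hl, fun y hy => zfix (d.hK _ fun a => (d.inv hy _ hl).2 _ _ rfl ?_) _⟩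
        exact d.mono (j := 0) (by omega) (by simpa using a)
      · exact ⟨hl, fun y _ => e1 b y⟩
    · simp only [Fintype.sum_prod_type, Fintype.sum_bool, cond_true, cond_false, dep,
        show (-(-1 + k)).toNat = 0 by omega, show (-(1 + k)).toNat = 0 by omega,
        show (-k).toNat = 0 by omega]
      linarith

theorem Geo.no [FaithfulSMul G Y] (D : Geo c s h J K Z) {d : G → ℝ} (d1 : d 1 = 0)
    (hd : ∀ (n : ℕ) (g : Fin n → G) (c : Fin n → ℂ),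
      ∑ i, c i = 0 → (∑ i, ∑ j, star (c i) * c j * d ((g i)⁻¹ * g j)).re ≤ 0)
    (H : ∀ t : ℝ, 0 < t → ∀ N : Subgroup G, (∀ x ∈ N, ∀ y ∈ N, x * y = y * x) → ∃ M : ℝ, 0 < M ∧
      ∀ (A : Finset G) (x : G), (∀ g ∈ A, g * x⁻¹ ∈ N) → ∑ g ∈ A, Real.exp (-(t * d g)) ^ 2 ≤ M) :
    False := by
  let Rel : G → ℝ → Prop := fun γ r => ∃ l, ok l ∧ (∀ y ∈ J, γ⁻¹ • y = ρ s h l • y) ∧
    r = (1 / 2) ^ dep l
  have cJ := fun y => (pres (A := Jᶜ) D.cJ y).not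
  simp only [Set.mem_compl_iff, not_not] at cJ
  have k : ∀ γ r, Rel γ r → (γ * c * γ⁻¹ = c ∧ r = 1) ∨ γ * c * γ⁻¹ ∈ fixingSubgroup G J := by
    rintro γ _ ⟨_ | ⟨a, l⟩, h1, h2, rfl⟩
    · refine Or.inl ⟨eq_of_smul_eq_smul fun y : Y => ?_, by simp [dep]⟩
      simp only [ρ, one_smul] at h2
      rw [mul_smul, mul_smul, ← eq_inv_smul_iff]
      by_cases hy : y ∈ J
      · rw [h2 y hy, h2 _ ((cJ y).2 hy)]
      · rw [D.cJ y hy, D.cJ _ fun a => hy ((pres h2 y).1 a)]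
    · refine Or.inr ((mem_fixingSubgroup_iff G).2 fun y hy => ?_)
      rw [mul_smul, mul_smul, D.cJ, smul_inv_smul]
      rw [h2 y hy]
      exact fun e => (D.inv hy _ h1).2 _ _ rfl (by rw [zfix (D.sJ _ e)]; exact D.JK e)
  have st : ∀ γ l, ok l → (∀ y ∈ J, γ⁻¹ • y = ρ s h l • y) → ∃ nx : J4 → ℝ,
      (∀ i, Rel (γ * cc (cond i.1 s h) i.2) (nx i)) ∧ ∑ i, nx i ≤ 4 * (1 / 2) ^ dep l ∧
        (l = [] → ∑ i, nx i ≤ 3) := fun γ l h1 h2 =>
    let ⟨nx, a, b⟩ := D.step l h1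
    ⟨fun i => (1 / 2) ^ dep (nx i), fun i => ⟨nx i, (a i).1, fun y hy => by
      rw [mul_inv_rev, mul_smul, h2 y hy, (a i).2 y hy], rfl⟩, b⟩
  refine noheat (c := c) (s := fun i => cc (cond i.1 s h) i.2) (fixingSubgroup G J) Rel
    (by rintro ⟨a, _ | _⟩ <;> simp [cc]) (fun e => ?_) ⟨[], trivial, by simp [ρ], by simp [dep]⟩
    ?_ ?_ (fun γ r a => ⟨?_, (k γ r a).symm.imp_right fun b => b.2.ge⟩) (fun γ r a => ?_) d1 hd H
  · obtain ⟨y, a, b⟩ := D.c2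
    exact b (by rw [← mul_smul]; exact (mem_fixingSubgroup_iff G).1 e y a)
  · obtain ⟨nx, a, -, b⟩ := st 1 [] trivial (by simp [ρ])
    exact ⟨nx, by simpa using a, b rfl⟩
  · rintro γ _ ⟨l, h1, h2, rfl⟩
    obtain ⟨nx, a, b, -⟩ := st γ l h1 h2
    exact ⟨nx, a, b⟩
  · obtain ⟨l, -, -, rfl⟩ := a
    positivity
  · rcases k γ r a with ⟨e, -⟩ | e
    · rw [e]
    · rw [mem_fixingSubgroup_iff] at e
      refine eq_of_smul_eq_smul fun y : Y => ?_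
      rw [mul_smul _ c, mul_smul c]
      by_cases hy : y ∈ J
      · rw [e y hy, e _ ((cJ y).2 hy)]
      · rw [D.cJ y hy, D.cJ _ fun a => hy ((pres e y).1 a)]

end Pool.Agent.Lib.helper23.HeatE
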