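import Mathlib

set_option autoImplicit false

namespace Pool.Agent.Lib.helper23.KazA

variable {A : Type*} [CStarAlgebra A] [PartialOrder A] [StarOrderedRing A]

/-- the averaging projection of an element of order five -/
noncomputable def av (x : A) : A := (1 / 5 : ℝ) • (1 + x + x ^ 2 + x ^ 3 + x ^ 4)

omit [PartialOrder A] [StarOrderedRing A] in
theorem av_fix {x W : A} (h : x * W = W) : av x * W = W := by
  have h2 : ∀ n : ℕ, x ^ n * W = W := fun n => by
    induction n with
    | zero => simp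
    | succ n ih => rw [pow_succ, mul_assoc, h, ih]
  simp only [av, smul_mul_assoc, add_mul, one_mul, h, h2]
  module

omit [PartialOrder A] [StarOrderedRing A] in
theorem mul_av {x : A} (h5 : x ^ 5 = 1) : x * av x = av x := by
  have : x * (1 + x + x ^ 2 + x ^ 3 + x ^ 4) = x ^ 5 + x + x ^ 2 + x ^ 3 + x ^ 4 := by
    noncomm_ring
  rw [av, mul_smul_comm, this, h5]

omit [PartialOrder A] [StarOrderedRing A] in
theorem av_mul {x : A} (h5 : x ^ 5 = 1) : av x * x = av x := by
  have : (1 + x + x ^ 2 + x ^ 3 + x ^ 4) * x = x ^ 5 + x + x ^ 2 + x ^ 3 + x ^ 4 := by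
    noncomm_ring
  rw [av, smul_mul_assoc, this, h5]

omit [PartialOrder A] [StarOrderedRing A] in
theorem av_idem {x : A} (h5 : x ^ 5 = 1) : av x * av x = av x := av_fix (mul_av h5)

omit [PartialOrder A] [StarOrderedRing A] in
theorem av_star {x : A} (h5 : x ^ 5 = 1) (hs : star x = x ^ 4) : star (av x) = av x := by
  have e : ∀ n : ℕ, x ^ (5 * n) = 1 := fun n => by rw [pow_mul, h5, one_pow]
  have e2 : (x ^ 4) ^ 2 = x ^ 3 := by
    rw [← pow_mul, show 4 * 2 = 5 * 1 + 3 by norm_num, pow_add, e, one_mul]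
  have e3 : (x ^ 4) ^ 3 = x ^ 2 := by
    rw [← pow_mul, show 4 * 3 = 5 * 2 + 2 by norm_num, pow_add, e, one_mul]
  have e4 : (x ^ 4) ^ 4 = x := by
    rw [← pow_mul, show 4 * 4 = 5 * 3 + 1 by norm_num, pow_add, e, one_mul, pow_one]
  simp only [av, star_smul, star_add, star_one, star_pow, hs, e2, e3, e4, star_trivial]
  congr 1
  abel

omit [PartialOrder A] [StarOrderedRing A] in
theorem av_comm {x y : A} (h : Commute x y) : Commute (av x) y := by
  unfold av
  exact (((((Commute.one_left y).add_left h).add_left (h.pow_left 2)).add_left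
    (h.pow_left 3)).add_left (h.pow_left 4)).smul_left _

/-- the angle between the fixed spaces of two generators of a Heisenberg group mod five -/
theorem heis {x y z : A} (x5 : x ^ 5 = 1) (y5 : y ^ 5 = 1) (z5 : z ^ 5 = 1)
    (xs : star x = x ^ 4) (ys : star y = y ^ 4) (zs : star z = z ^ 4)
    (zx : Commute z x) (zy : Commute z y) (h : y * x = z * x * y) :
    0 ≤ (1 - av x) * (1 - av y) + (1 - av y) * (1 - av x) +
      (9 / 20 : ℝ) • ((1 - av x) + (1 - av y)) := by
  have hi : ∀ i : ℕ, y * x ^ i = z ^ i * x ^ i * y := by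
    intro i
    induction i with
    | zero => simp
    | succ i ih =>
      rw [pow_succ, ← mul_assoc, ih, mul_assoc, h, pow_succ z, mul_assoc (z ^ i) (x ^ i),
        mul_assoc (z ^ i) z, mul_assoc (z ^ i) (z * _), ← mul_assoc (x ^ i), ← mul_assoc (x ^ i),
        ← (zx.pow_right i).eq]
      simp only [mul_assoc]
  have PP := av_idem x5
  have RR := av_idem y5
  have EE := av_idem z5
  have Ps := av_star x5 xs
  have Rs := av_star y5 ys
  have Es := av_star z5 zs
  have EP : av z * av x = av x * av z := (av_comm (av_comm zx.symm).symm).eq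
  have ER : av z * av y = av y * av z := (av_comm (av_comm zy.symm).symm).eq
  have k1 : ∀ i : ℕ, z ^ i * (av y * x ^ i * av y) = av y * x ^ i * av y := by
    intro i
    calc z ^ i * (av y * x ^ i * av y) = av y * (z ^ i * x ^ i * (y * av y)) := by
          rw [mul_av y5, ← mul_assoc, ← mul_assoc, ← ((av_comm zy.symm).pow_right i).eq]
          simp only [mul_assoc]
      _ = _ := by rw [← mul_assoc _ y, ← hi, ← mul_assoc, ← mul_assoc, av_mul y5]
  have k2 : ∀ (i k m : ℕ), i * k = 5 * m + 1 →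
      av z * (av y * x ^ i * av y) = av y * x ^ i * av y := by
    intro i k m e
    refine av_fix ?_
    have : ∀ n : ℕ, (z ^ i) ^ n * (av y * x ^ i * av y) = av y * x ^ i * av y := fun n => by
      induction n with
      | zero => simp
      | succ n ih => rw [pow_succ, mul_assoc, k1, ih]
    have := this k
    rwa [← pow_mul, e, pow_succ, pow_mul, z5, one_pow, one_mul] at this
  have RPR : (1 - av z) * (av y * av x * av y) = (1 / 5 : ℝ) • ((1 - av z) * av y) := by
    have a1 := k2 1 1 0 rfl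
    rw [pow_one] at a1
    have : av y * av x * av y = (1 / 5 : ℝ) • (av y + av y * x * av y + av y * x ^ 2 * av y +
        av y * x ^ 3 * av y + av y * x ^ 4 * av y) := by
      conv_lhs => rw [av.eq_def x]
      simp only [mul_smul_comm, smul_mul_assoc, mul_add, add_mul, mul_one, RR]
    rw [this]
    simp only [mul_smul_comm, mul_add, sub_mul, one_mul, a1, k2 2 3 1 rfl, k2 3 2 1 rfl,
      k2 4 4 3 rfl, sub_self, add_zero]
  have EPR : av z * (av x * av y) = av z * (av y * av x) := by
    have c1 : Commute (av z * x) y := by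
      have e1 : av z * x * y = av z * (y * x) := by
        rw [h, ← mul_assoc, ← mul_assoc, av_mul z5]
      rw [Commute, SemiconjBy, e1, ← mul_assoc, ← mul_assoc, (av_comm zy).eq]
    have c2 : ∀ i : ℕ, Commute (av z * x ^ i) y := by
      intro i
      induction i with
      | zero => simpa using av_comm zy
      | succ i ih =>
        have := ih.mul_left c1
        rwa [mul_assoc, ← mul_assoc (x ^ i), ← ((av_comm zx).pow_right i).eq, ← mul_assoc,
          ← mul_assoc, EE, mul_assoc, ← pow_succ] at this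
    have c3 : Commute (av z * av x) y := by
      rw [av.eq_def x]
      simp only [mul_smul_comm, mul_add, mul_one]
      exact (((((av_comm zy).add_left c1).add_left (c2 2)).add_left (c2 3)).add_left
        (c2 4)).smul_left _
    have := (av_comm c3.symm).eq
    rw [← mul_assoc, ← this, ← mul_assoc, ← ER, mul_assoc]
  generalize av x = P at *
  generalize av y = R at *
  generalize av z = E at *
  have PP' : ∀ t, P * (P * t) = P * t := fun t => by rw [← mul_assoc, PP]
  have RR' : ∀ t, R * (R * t) = R * t := fun t => by rw [← mul_assoc, RR]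
  have EE' : ∀ t, E * (E * t) = E * t := fun t => by rw [← mul_assoc, EE]
  have EP' : ∀ t, P * (E * t) = E * (P * t) := fun t => by rw [← mul_assoc, ← EP, mul_assoc]
  have ER' : ∀ t, R * (E * t) = E * (R * t) := fun t => by rw [← mul_assoc, ← ER, mul_assoc]
  have EPR' : ∀ t, E * (R * (P * t)) = E * (P * (R * t)) := fun t => by
    rw [← mul_assoc R, ← mul_assoc, ← EPR, ← mul_assoc P, mul_assoc]
  have EPRP : E * (P * (R * P)) = E * (P * R) := by
    rw [← EP', ← EPR, EP', PP']
  have RPR' : R * (P * R) = E * (P * R) + (1 / 5 : ℝ) • (R - E * R) := by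
    have := RPR
    simp only [sub_mul, one_mul, mul_assoc, EPR', RR] at this
    rw [← this]; abel
  have s := add_nonneg (add_nonneg (add_nonneg (add_nonneg (add_nonneg
    (smul_nonneg (by norm_num : (0 : ℝ) ≤ 44 / 261)
      (star_mul_self_nonneg ((1 - E) * (P - (9 / 4 : ℝ) • (P * R)))))
    (smul_nonneg (by norm_num : (0 : ℝ) ≤ 11 / 5220) (star_mul_self_nonneg ((1 - E) * P))))
    (smul_nonneg (by norm_num : (0 : ℝ) ≤ 40 / 29)
      (star_mul_self_nonneg ((1 - E) * ((29 / 20 : ℝ) • (1 : A) - P - R)))))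
    (smul_nonneg (by norm_num : (0 : ℝ) ≤ 2) (star_mul_self_nonneg (E * ((1 - P) * (1 - R))))))
    (smul_nonneg (by norm_num : (0 : ℝ) ≤ 9 / 20) (star_mul_self_nonneg (E * (1 - P)))))
    (smul_nonneg (by norm_num : (0 : ℝ) ≤ 9 / 20) (star_mul_self_nonneg (E * (1 - R))))
  simp only [star_mul, star_sub, star_smul, star_one, Ps, Rs, Es, star_trivial, mul_sub, sub_mul,
    mul_one, one_mul, mul_assoc, mul_smul_comm, smul_mul_assoc, PP, RR, EE, PP', RR', EE', EP',
    ER', ← EP, ← ER, EPR', ← EPR, RPR', EPRP, mul_add] at s ⊢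
  convert s using 1
  module

/-- the spectral gap inequality for three generators -/
theorem kaz {x : Fin 3 → A} (x5 : ∀ i, x i ^ 5 = 1) (xs : ∀ i, star (x i) = x i ^ 4)
    (h : ∀ i, ∃ z : A, z ^ 5 = 1 ∧ star z = z ^ 4 ∧ Commute z (x i) ∧ Commute z (x (i + 1)) ∧
      x (i + 1) * x i = z * x i * x (i + 1)) (D : A)
    (hD : D = ∑ i, ∑ k : Fin 4, (1 - x i ^ (k.1 + 1))) :
    0 ≤ D ∧ 0 ≤ D * D - (1 / 2 : ℝ) • D := by
  have e : D = (5 : ℝ) • ((1 - av (x 0)) + (1 - av (x 1)) + (1 - av (x 2))) := by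
    rw [hD]
    simp only [Fin.sum_univ_three, Fin.sum_univ_four, av, Fin.val_zero, Fin.val_one, Fin.val_two,
      show (3 : Fin 4).1 = 3 from rfl, zero_add, pow_one]
    module
  have hp : ∀ i, 0 ≤ (1 - av (x i)) * (1 - av (x (i + 1))) + (1 - av (x (i + 1))) * (1 - av (x i))
      + (9 / 20 : ℝ) • ((1 - av (x i)) + (1 - av (x (i + 1)))) := fun i => by
    obtain ⟨z, a, b, c, d, e⟩ := h i
    exact heis (x5 _) (x5 _) a (xs _) (xs _) b c d e
  have hq : ∀ i, (1 - av (x i)) * (1 - av (x i)) = 1 - av (x i) := fun i => by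
    simp [mul_sub, sub_mul, av_idem (x5 i)]
  have hn : ∀ i, 0 ≤ 1 - av (x i) := fun i => by
    have := star_mul_self_nonneg (1 - av (x i))
    rwa [star_sub, star_one, av_star (x5 i) (xs i), hq] at this
  refine ⟨e ▸ smul_nonneg (by norm_num) (add_nonneg (add_nonneg (hn 0) (hn 1)) (hn 2)), ?_⟩
  have s := smul_nonneg (by norm_num : (0 : ℝ) ≤ 25) (add_nonneg (add_nonneg (hp 0) (hp 1)) (hp 2))
  have q0 := hq 0
  have q1 := hq 1
  have q2 := hq 2
  rw [e]
  simp only [show (0 : Fin 3) + 1 = 1 from rfl, show (1 : Fin 3) + 1 = 2 from rfl,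
    show (2 : Fin 3) + 1 = 0 from rfl] at s
  generalize 1 - av (x 0) = a at *
  generalize 1 - av (x 1) = b at *
  generalize 1 - av (x 2) = c at *
  simp only [mul_smul_comm, smul_mul_assoc, mul_add, add_mul, q0, q1, q2]
  convert s using 1
  module

theorem gap_of_sq {D : A} {c : ℝ} (h0 : 0 ≤ D) (h : 0 ≤ D * D - c • D) :
    ∀ t ∈ spectrum ℝ D, t = 0 ∨ c ≤ t := by
  have hs : IsSelfAdjoint D := .of_nonneg h0
  have e : cfc (fun t : ℝ => t * t - c • t) D = D * D - c • D := by
    rw [cfc_sub _ _ D, cfc_mul _ _ D, cfc_smul c _ D, cfc_id' ℝ D]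
  rw [← e, cfc_nonneg_iff _ _] at h
  intro t ht
  have h1 := h t ht
  have h2 := spectrum_nonneg_of_nonneg h0 ht
  rcases h2.eq_or_lt with h2 | h2
  · exact Or.inl h2.symm
  · right
    simp only [smul_eq_mul] at h1
    nlinarith

omit [PartialOrder A] [StarOrderedRing A] in
theorem gap_iff {D : A} {c : ℝ} (hs : IsSelfAdjoint D) :
    spectrum ℂ D ⊆ {z : ℂ | z = 0 ∨ (z.im = 0 ∧ c ≤ z.re)} ↔
      ∀ t ∈ spectrum ℝ D, t = 0 ∨ c ≤ t := by
  constructor
  · intro h t ht
    rcases h ((spectrum.algebraMap_mem_iff ℂ).2 ht) with h | h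
    · exact Or.inl (by simpa using h)
    · exact Or.inr (by simpa using h.2)
  · intro h z hz
    have e := hs.mem_spectrum_eq_re hz
    rcases h z.re ((spectrum.algebraMap_mem_iff ℂ).1 (by rw [e] at hz; exact hz)) with h | h
    · exact Or.inl (by rw [e, h]; simp)
    · exact Or.inr ⟨by rw [e]; simp, h⟩

theorem pinv {D : A} {c : ℝ} (hc : 0 < c) (hs : IsSelfAdjoint D)
    (h : ∀ t ∈ spectrum ℝ D, t = 0 ∨ c ≤ t) :
    ∃ T : A, ‖T‖ ≤ 1 / c ∧ D * (T * D) = D ∧ IsSelfAdjoint (T * D) ∧ 0 ≤ D - c • (T * D) := by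
  have hf : Continuous fun t : ℝ => 1 / max t c :=
    continuous_const.div (by fun_prop) fun t => (hc.trans_le (le_max_right _ _)).ne'
  have e : cfc (fun t : ℝ => 1 / max t c) D * D = cfc (fun t : ℝ => 1 / max t c * t) D := by
    rw [cfc_mul _ _ D hf.continuousOn, cfc_id' ℝ D]
  have hg : Continuous fun t : ℝ => 1 / max t c * t := hf.mul continuous_id
  refine ⟨cfc (fun t : ℝ => 1 / max t c) D, norm_cfc_le (by positivity) fun t _ => ?_, ?_, ?_, ?_⟩
  · rw [Real.norm_of_nonneg (by positivity)]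
    exact one_div_le_one_div_of_le hc (le_max_right _ _)
  · rw [e]
    conv_lhs => enter [1]; rw [← cfc_id' ℝ D]
    rw [← cfc_mul _ _ D (by fun_prop) hg.continuousOn]
    conv_rhs => rw [← cfc_id' ℝ D]
    refine cfc_congr fun t ht => ?_
    rcases h t ht with rfl | h
    · simp
    · have := (hc.trans_le h).ne'
      simp only [max_eq_left h]
      field_simp
  · rw [e]; exact cfc_predicate _ _
  · rw [e, ← cfc_smul c _ D hg.continuousOn]
    conv_rhs => enter [1]; rw [← cfc_id' ℝ D]
    rw [← cfc_sub (fun t : ℝ => t) (fun t : ℝ => c • (1 / max t c * t)) D (by fun_prop)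
      (hg.const_smul c).continuousOn]
    refine cfc_nonneg fun t ht => ?_
    rcases h t ht with rfl | h
    · simp
    · have := (hc.trans_le h).ne'
      simp only [max_eq_left h, smul_eq_mul]
      rw [one_div_mul_cancel this]
      linarith

/-- a positive perturbation that vanishes on the kernel keeps the gap -/
theorem pert {D K : A} {c : ℝ} (hc : 0 < c) (h0 : 0 ≤ D) (h : 0 ≤ D * D - c • D) (hK : 0 ≤ K)
    (hp : ∀ p : A, D * p = 0 → K * p = 0) : ∀ t ∈ spectrum ℝ (D + K), t = 0 ∨ c ≤ t := by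
  obtain ⟨T, -, t1, t2, t3⟩ := pinv hc (.of_nonneg h0) (gap_of_sq h0 h)
  generalize T * D = q at *
  have h1 : (D + K) * q = D + K := by
    have := hp (1 - q) (by rw [mul_sub, t1, mul_one, sub_self])
    rw [mul_sub, mul_one, sub_eq_zero] at this
    rw [add_mul, t1, ← this]
  have h2 : q * (D + K) = D + K := by
    have := congrArg star h1
    rwa [star_mul, t2.star_eq, (IsSelfAdjoint.of_nonneg (add_nonneg h0 hK)).star_eq] at this
  refine gap_of_sq (add_nonneg h0 hK) ?_
  have h3 : 0 ≤ D + K - c • q := by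
    have := add_nonneg t3 hK
    convert this using 1
    abel
  have h4 : Commute (D + K) (D + K - c • q) :=
    (Commute.refl _).sub_right (Commute.smul_right (h1.trans h2.symm) c)
  have := h4.mul_nonneg (add_nonneg h0 hK) h3
  rwa [mul_sub, mul_smul_comm, h1] at this

end Pool.Agent.Lib.helper23.KazA
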