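import Mathlib
import Pool.Agent.Lib.helper23.KazA

set_option autoImplicit false

namespace Pool.Agent.Lib.helper23.KazB

open KazA

section alg

variable {A : Type*} [CStarAlgebra A] [PartialOrder A] [StarOrderedRing A]

theorem ker_of_sum {a b p : A} (ha : 0 ≤ a) (hb : 0 ≤ b) (h : star p * (a + b) * p = 0) :
    star p * a * p = 0 ∧ star p * b * p = 0 := by
  rw [mul_add, add_mul] at h
  exact (add_eq_zero_iff_of_nonneg (star_left_conjugate_nonneg ha p)
    (star_left_conjugate_nonneg hb p)).1 h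

theorem rep {Γ : Type*} [Group Γ] (H : Subgroup Γ) (w : Γ → A) (w1 : w 1 = 1)
    (wm : ∀ g ∈ H, ∀ h ∈ H, w (g * h) = w g * w h) (ws : ∀ g ∈ H, star (w g) = w g⁻¹)
    (s : Fin 3 → Γ) (j : Γ) (sH : ∀ i, s i ∈ H) (jH : j ∈ H) (s5 : ∀ i, s i ^ 5 = 1)
    (j2 : j * j = 1) (hz : ∀ i, ∃ z : Γ, z ^ 5 = 1 ∧ Commute z (s i) ∧ Commute z (s (i + 1)) ∧
      s (i + 1) * s i = z * s i * s (i + 1)) (D : A)
    (hD : D = ∑ i, ∑ k : Fin 4, (1 - w (s i ^ (k.1 + 1)))) :
    0 ≤ D ∧ 0 ≤ D * D - (1 / 2 : ℝ) • D ∧ 0 ≤ 1 - w j ∧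
    (∀ p, star p * D * p = 0 → ∀ g ∈ Subgroup.closure (Set.range s), g ∈ H ∧ w g * p = p) ∧
    ∀ p, star p * (1 - w j) * p = 0 → w j * p = p := by
  have wp : ∀ g ∈ H, ∀ n : ℕ, w (g ^ n) = w g ^ n := by
    intro g hg n
    induction n with
    | zero => simp [w1]
    | succ n ih => rw [pow_succ, wm _ (H.pow_mem hg n) _ hg, ih, pow_succ]
  have w5 : ∀ g ∈ H, g ^ 5 = 1 → w g ^ 5 = 1 ∧ star (w g) = w g ^ 4 := by
    intro g hg h
    refine ⟨by rw [← wp g hg, h, w1], ?_⟩
    rw [ws g hg, ← wp g hg, inv_eq_of_mul_eq_one_right (a := g) (b := g ^ 4) (by rw [← pow_succ', h])]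
  simp only [wp _ (sH _)] at hD
  obtain ⟨k1, k2⟩ := kaz (x := fun i => w (s i)) (fun i => (w5 _ (sH i) (s5 i)).1)
    (fun i => (w5 _ (sH i) (s5 i)).2) (fun i => by
      obtain ⟨z, a, b, c, d⟩ := hz i
      have zH : z ∈ H := by
        have : z = s (i + 1) * s i * (s i * s (i + 1))⁻¹ := by rw [d]; group
        rw [this]
        exact H.mul_mem (H.mul_mem (sH _) (sH _)) (H.inv_mem (H.mul_mem (sH _) (sH _)))
      refine ⟨w z, (w5 z zH a).1, (w5 z zH a).2, ?_, ?_, ?_⟩
      · rw [Commute, SemiconjBy, ← wm _ zH _ (sH _), ← wm _ (sH _) _ zH, b.eq]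
      · rw [Commute, SemiconjBy, ← wm _ zH _ (sH _), ← wm _ (sH _) _ zH, c.eq]
      · rw [← wm _ (sH _) _ (sH _), d, wm _ (H.mul_mem zH (sH _)) _ (sH _), wm _ zH _ (sH _)])
    D hD
  have kj : star (1 - w j) * (1 - w j) = (2 : ℝ) • (1 - w j) := by
    rw [star_sub, star_one, ws j jH, inv_eq_of_mul_eq_one_right j2, mul_sub, sub_mul, sub_mul,
      ← wm j jH j jH, j2, w1]
    simp only [one_mul, mul_one]
    module
  refine ⟨k1, k2, ?_, fun p hp => ?_, fun p hp => ?_⟩
  · have := smul_nonneg (by norm_num : (0 : ℝ) ≤ 1 / 2) (star_mul_self_nonneg (1 - w j))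
    rwa [kj, smul_smul, show (1 / 2 : ℝ) * 2 = 1 by norm_num, one_smul] at this
  · have hq : ∀ i, star (1 - av (w (s i))) * (1 - av (w (s i))) = 1 - av (w (s i)) := fun i => by
      simp [mul_sub, sub_mul, av_idem (w5 _ (sH i) (s5 i)).1,
        av_star (w5 _ (sH i) (s5 i)).1 (w5 _ (sH i) (s5 i)).2]
    have e : D = (5 : ℝ) • ∑ i, (1 - av (w (s i))) := by
      rw [hD]
      simp only [Fin.sum_univ_three, Fin.sum_univ_four, av, Fin.val_zero, Fin.val_one,
        Fin.val_two, show (3 : Fin 4).1 = 3 from rfl, zero_add, pow_one]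
      module
    rw [e, mul_smul_comm, smul_mul_assoc, smul_eq_zero_iff_right (by norm_num), Finset.mul_sum,
      Finset.sum_mul, Finset.sum_eq_zero_iff_of_nonneg fun i _ =>
        star_left_conjugate_nonneg (by rw [← hq]; exact star_mul_self_nonneg _) p] at hp
    intro g hg
    induction hg using Subgroup.closure_induction with
    | mem g hg =>
      obtain ⟨i, rfl⟩ := hg
      refine ⟨sH i, ?_⟩
      have h1 := hp i (Finset.mem_univ _)
      rw [← hq, ← mul_assoc, ← star_mul, mul_assoc, CStarRing.star_mul_self_eq_zero_iff, sub_mul,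
        one_mul, sub_eq_zero] at h1
      rw [h1, ← mul_assoc, mul_av (w5 _ (sH i) (s5 i)).1]
    | one => exact ⟨H.one_mem, by rw [w1, one_mul]⟩
    | mul x y _ _ hx hy =>
      exact ⟨H.mul_mem hx.1 hy.1, by rw [wm _ hx.1 _ hy.1, mul_assoc, hy.2, hx.2]⟩
    | inv x _ hx =>
      refine ⟨H.inv_mem hx.1, ?_⟩
      conv_lhs => rw [← hx.2]
      rw [← mul_assoc, ← wm _ (H.inv_mem hx.1) _ hx.1, inv_mul_cancel, w1, one_mul]
  · have : star ((1 - w j) * p) * ((1 - w j) * p) = 0 := by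
      rw [star_mul, mul_assoc, ← mul_assoc (star (1 - w j)), kj, smul_mul_assoc, mul_smul_comm,
        ← mul_assoc, hp, smul_zero]
    rw [CStarRing.star_mul_self_eq_zero_iff, sub_mul, one_mul, sub_eq_zero] at this
    exact this.symm

theorem orth {p m : A} (e : ℕ → A) (es : ∀ k, star (e k) = e k) (ee : ∀ k, e k * e k = e k)
    (eo : ∀ k l, k ≠ l → e k * e l = 0) (ms : star m * m = m)
    (h : ∀ k, star p * e k * p = star p * m * p) : m * p = 0 := by
  have e0 : star (m * p) * (m * p) = star p * m * p := by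
    rw [star_mul, mul_assoc, ← mul_assoc (star m), ms, mul_assoc]
  have h1 : ∀ N : ℕ, (N : ℝ) * ‖star p * m * p‖ ≤ ‖star p * p‖ := by
    intro N
    have r2 : (∑ k ∈ Finset.range N, e k) * ∑ k ∈ Finset.range N, e k =
        ∑ k ∈ Finset.range N, e k := by
      rw [Finset.sum_mul_sum]
      refine Finset.sum_congr rfl fun k hk => ?_
      rw [Finset.sum_eq_single k (fun l _ h => eo k l h.symm) (fun h => absurd hk h), ee]
    have r3 := star_mul_self_nonneg ((1 - ∑ k ∈ Finset.range N, e k) * p)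
    rw [star_mul, star_sub, star_one, star_sum, Finset.sum_congr rfl fun k _ => es k, mul_assoc,
      ← mul_assoc (1 - _)] at r3
    simp only [mul_sub, sub_mul, r2, mul_one, one_mul, sub_self, sub_zero] at r3
    simp only [Finset.sum_mul,
      Finset.mul_sum, ← mul_assoc, h, Finset.sum_const, Finset.card_range, sub_nonneg] at r3
    have := CStarAlgebra.norm_le_norm_of_nonneg_of_le
      (nsmul_nonneg (e0 ▸ star_mul_self_nonneg (m * p)) N) r3
    rwa [← Nat.cast_smul_eq_nsmul ℝ, norm_smul, Real.norm_natCast] at this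
  rw [← CStarRing.star_mul_self_eq_zero_iff, e0]
  by_contra hc
  obtain ⟨N, hN⟩ := exists_nat_gt (‖star p * p‖ / ‖star p * m * p‖)
  rw [div_lt_iff₀ (norm_pos_iff.2 hc)] at hN
  exact absurd (h1 N) (not_le.2 hN)

end alg

variable {Y : Type}

noncomputable abbrev L2 (Y : Type) := lp (fun _ : Y => ℂ) 2

open Classical in
theorem W_sum (S : Set Y) (g : Equiv.Perm Y) (f : L2 Y) (t : Finset Y) :
    ∑ x ∈ t, ‖if x ∈ S then f (g⁻¹ x) else 0‖ ^ (2 : ENNReal).toReal ≤
      ‖f‖ ^ (2 : ENNReal).toReal := by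
  refine le_trans ?_ (lp.sum_rpow_le_norm_rpow (by simp) f (t.map (g⁻¹).toEmbedding))
  rw [Finset.sum_map]
  refine Finset.sum_le_sum fun x _ => ?_
  split_ifs
  · exact le_rfl
  · simp

open Classical in
/-- weighted permutation operators -/
noncomputable def W (S : Set Y) (g : Equiv.Perm Y) : L2 Y →L[ℂ] L2 Y :=
  LinearMap.mkContinuous
    { toFun := fun f => ⟨fun x => if x ∈ S then f (g⁻¹ x) else 0, memℓp_gen' (W_sum S g f)⟩
      map_add' := fun f h => by
        ext x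
        change (if x ∈ S then (f + h) (g⁻¹ x) else 0) =
          (if x ∈ S then f (g⁻¹ x) else 0) + if x ∈ S then h (g⁻¹ x) else 0
        split_ifs <;> simp
      map_smul' := fun c f => by
        ext x
        change (if x ∈ S then (c • f) (g⁻¹ x) else 0) = c • if x ∈ S then f (g⁻¹ x) else 0
        split_ifs <;> simp } 1 fun f => by
    rw [one_mul]
    exact lp.norm_le_of_forall_sum_le (by simp) (norm_nonneg _) (W_sum S g f)

open Classical in
theorem W_apply (S : Set Y) (g : Equiv.Perm Y) (f : L2 Y) (x : Y) :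
    W S g f x = if x ∈ S then f (g⁻¹ x) else 0 := rfl

theorem W_norm (S : Set Y) (g : Equiv.Perm Y) (f : L2 Y) : ‖W S g f‖ ≤ ‖f‖ :=
  lp.norm_le_of_forall_sum_le (by simp) (norm_nonneg _) (W_sum S g f)

theorem W_mul (S S' : Set Y) (g g' : Equiv.Perm Y) :
    W S g * W S' g' = W (S ∩ {x | g⁻¹ x ∈ S'}) (g * g') := by
  ext f x
  simp only [ContinuousLinearMap.mul_apply, W_apply, mul_inv_rev, Equiv.Perm.mul_apply]
  by_cases h : x ∈ S
  · by_cases h' : g⁻¹ x ∈ S'
    · rw [if_pos h, if_pos h', if_pos ⟨h, h'⟩]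
    · rw [if_pos h, if_neg h', if_neg fun a => h' a.2]
  · rw [if_neg h, if_neg fun a => h a.1]

theorem W_one : W (Set.univ : Set Y) 1 = 1 := by
  ext f x
  rw [W_apply, if_pos (Set.mem_univ x)]
  rfl

theorem W_star (S : Set Y) (g : Equiv.Perm Y) : star (W S g) = W (g ⁻¹' S) g⁻¹ := by
  rw [ContinuousLinearMap.star_eq_adjoint, eq_comm, ContinuousLinearMap.eq_adjoint_iff]
  intro f h
  rw [lp.inner_eq_tsum, lp.inner_eq_tsum, ← g.tsum_eq fun x => inner ℂ (f x) (W S g h x)]
  refine tsum_congr fun x => ?_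
  simp only [W_apply, Set.mem_preimage, inv_inv]
  by_cases hx : g x ∈ S <;> simp [hx]

theorem entry [DecidableEq Y] (y : Y) (f : L2 Y) : inner ℂ (lp.single 2 y (1 : ℂ) : L2 Y) f = f y := by
  simp [lp.inner_single_left]

open Classical in
theorem W_single [DecidableEq Y] (S : Set Y) (g : Equiv.Perm Y) (x y : Y) :
    W S g (lp.single 2 x (1 : ℂ)) y = if y ∈ S ∧ g x = y then 1 else 0 := by
  rw [W_apply, lp.single_apply, Pi.single_apply]
  by_cases h : y ∈ S
  · simp only [h, if_true, true_and, Equiv.Perm.inv_eq_iff_eq, eq_comm (a := y)]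
  · simp [h]

end Pool.Agent.Lib.helper23.KazB
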