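import Mathlib
import Pool.Agent.Lib.helper23.KazB

set_option autoImplicit false

namespace Pool.Agent.Lib.helper23.KazC

open KazA KazB Equiv

variable {Y : Type}

def sg (s : Fin 3 → Perm Y) (j : Perm Y) : Option (Fin 3 × Fin 4) → Perm Y
  | none => j
  | some a => s a.1 ^ (a.2.1 + 1)

structure Data (s : Fin 3 → Perm Y) (j τ : Perm Y) (l : Y → ℕ) (b : Y → Bool) (u : ℕ → Y)
    (g : ℕ → Perm Y) : Prop where
  s5 : ∀ i, s i ^ 5 = 1
  j2 : j * j = 1
  hz : ∀ i, ∃ z : Perm Y, z ^ 5 = 1 ∧ Commute z (s i) ∧ Commute z (s (i + 1)) ∧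
    s (i + 1) * s i = z * s i * s (i + 1)
  inj : ∀ x α β, sg s j α x = sg s j β x → sg s j α x ≠ x → α = β
  lf : ∀ n, {x | l x = n}.Finite
  ls : ∀ i x, l (s i x) = l x
  lj : ∀ x, l (j x) = l x
  lt : ∀ x, l (τ x) = l x
  lu : ∀ n, l (u n) = n
  bs : ∀ i x, b (s i x) = b x
  bt : ∀ x, b (τ x) ≠ b x
  ts : ∀ i, Commute τ (s i)
  ju : ∀ n, j (u n) = τ (u n)
  jz : ∀ x, j x ≠ x → x = u (l x) ∨ x = τ (u (l x))
  gc : ∀ k, g k ∈ Subgroup.closure (Set.range s)
  gu : ∀ n k m, k ≤ n → m ≤ n → g k (u n) = g m (u n) → k = m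

variable {s : Fin 3 → Perm Y} {j τ : Perm Y} {l : Y → ℕ} {b : Y → Bool} {u : ℕ → Y}
  {g : ℕ → Perm Y}

theorem Data.cl (d : Data s j τ l b u g) (h : Perm Y) (hh : h ∈ Subgroup.closure (Set.range s)) :
    (∀ x, l (h x) = l x ∧ b (h x) = b x) ∧ Commute τ h := by
  induction hh using Subgroup.closure_induction with
  | mem g hg =>
    obtain ⟨i, rfl⟩ := hg
    exact ⟨fun x => ⟨d.ls i x, d.bs i x⟩, d.ts i⟩
  | one => exact ⟨fun x => ⟨rfl, rfl⟩, Commute.one_right _⟩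
  | mul x y _ _ hx hy =>
    exact ⟨fun a => ⟨(hx.1 _).1.trans (hy.1 a).1, (hx.1 _).2.trans (hy.1 a).2⟩,
      hx.2.mul_right hy.2⟩
  | inv x _ hx =>
    refine ⟨fun a => ?_, hx.2.inv_right⟩
    have := hx.1 (x⁻¹ a)
    simp only [Perm.coe_inv, apply_symm_apply] at this
    exact ⟨this.1.symm, this.2.symm⟩

theorem Data.inv (d : Data s j τ l b u g) (α : Option (Fin 3 × Fin 4)) :
    ∃ β, sg s j β * sg s j α = 1 := by
  rcases α with _ | ⟨i, k⟩
  · exact ⟨none, d.j2⟩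
  · refine ⟨some (i, k.rev), ?_⟩
    simp only [sg, ← pow_add, Fin.val_rev]
    rw [← d.s5 i]
    congr 1
    omega

def Data.G (d : Data s j τ l b u g) : SimpleGraph Y where
  Adj x y := x ≠ y ∧ ∃ α, sg s j α x = y
  symm := ⟨fun x y h => by
    obtain ⟨h, α, rfl⟩ := h
    obtain ⟨β, e⟩ := d.inv α
    exact ⟨h.symm, β, by rw [← Perm.mul_apply, e]; rfl⟩⟩
  loopless := ⟨fun x h => h.1 rfl⟩

theorem Data.gZ (d : Data s j τ l b u g) (k m : ℕ) (h : k ≠ m) :
    ({x | j ((g k)⁻¹ x) ≠ (g k)⁻¹ x} ∩ {x | j ((g m)⁻¹ x) ≠ (g m)⁻¹ x}).Finite := by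
  refine ((Set.finite_lt_nat (max k m)).biUnion fun n _ => d.lf n).subset ?_
  rintro x ⟨h1, h2⟩
  refine Set.mem_biUnion (x := l x) ?_ rfl
  by_contra hc
  simp only [Set.mem_setOf_eq, not_lt, max_le_iff] at hc
  have a1 := d.cl _ (inv_mem (d.gc k))
  have a2 := d.cl _ (inv_mem (d.gc m))
  have e1 := d.jz _ h1
  have e2 := d.jz _ h2
  rw [(a1.1 x).1] at e1
  rw [(a2.1 x).1] at e2
  have c1 := (a1.1 x).2
  have c2 := (a2.1 x).2
  refine h (d.gu (l x) k m hc.1 hc.2 ?_)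
  rcases e1 with e1 | e1 <;> rcases e2 with e2 | e2
  · rw [Perm.inv_eq_iff_eq] at e1 e2
    rw [← e1, ← e2]
  · rw [e1] at c1; rw [e2] at c2
    exact absurd (c2.trans c1.symm) (d.bt _)
  · rw [e1] at c1; rw [e2] at c2
    exact absurd (c1.trans c2.symm) (d.bt _)
  · rw [Perm.inv_eq_iff_eq, ← Perm.mul_apply] at e1 e2
    rw [← (d.cl _ (d.gc k)).2.eq] at e1
    rw [← (d.cl _ (d.gc m)).2.eq] at e2
    exact τ.injective (e1.symm.trans e2)

noncomputable def Lap (s : Fin 3 → Perm Y) (j : Perm Y) : L2 Y →L[ℂ] L2 Y :=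
  ∑ α, (1 - W Set.univ (sg s j α))

theorem U_mul (g h : Perm Y) : W Set.univ (g * h) = W Set.univ g * W Set.univ h := by
  rw [W_mul]; simp

theorem U_star (g : Perm Y) : star (W Set.univ g) = W Set.univ g⁻¹ := by
  rw [W_star]; simp

theorem U_single [DecidableEq Y] (g : Perm Y) (x : Y) :
    W Set.univ g (lp.single 2 x (1 : ℂ)) = lp.single 2 (g x) 1 := by
  ext y
  rw [W_single, lp.single_apply, Pi.single_apply]
  simp [eq_comm]

theorem sum_sg {A : Type*} [Ring A] (w : Perm Y → A) : ∑ α, (1 - w (sg s j α)) =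
    (∑ i, ∑ k : Fin 4, (1 - w (s i ^ (k.1 + 1)))) + (1 - w j) := by
  rw [Fintype.sum_option, Fintype.sum_prod_type, add_comm]
  rfl

theorem Data.nogap [DecidableEq Y] (d : Data s j τ l b u g) :
    ¬ ∃ c : ℝ, 0 < c ∧ spectrum ℂ (Lap s j) ⊆ {z : ℂ | z = 0 ∨ (z.im = 0 ∧ c ≤ z.re)} := by
  classical
  rintro ⟨c, hc, h⟩
  obtain ⟨r1, -, r3, r4, r5⟩ := rep ⊤ (W Set.univ) W_one (fun g _ h _ => U_mul g h)
    (fun g _ => U_star g) s j (fun _ => trivial) trivial d.s5 d.j2 d.hz _ rfl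
  have e := sum_sg (s := s) (j := j) (W Set.univ)
  have hs : IsSelfAdjoint (Lap s j) := .of_nonneg (by rw [Lap, e]; exact add_nonneg r1 r3)
  obtain ⟨T, t1, t2, -⟩ := pinv hc hs ((gap_iff hs).1 h)
  obtain ⟨k1, k2⟩ := ker_of_sum (p := 1 - T * Lap s j) r1 r3 (by
    rw [← e, ← Lap, mul_assoc, mul_sub, t2, mul_one, sub_self, mul_zero])
  obtain ⟨n, hn⟩ := exists_nat_gt ((4 / c) ^ 2)
  have hO : {x | ∃ h ∈ Subgroup.closure (Set.range s), h (u n) = x}.Finite :=
    (d.lf n).subset (by rintro _ ⟨h, hh, rfl⟩; exact ((d.cl h hh).1 _).1.trans (d.lu n))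
  have mO : ∀ x, x ∈ hO.toFinset ↔ ∃ h ∈ Subgroup.closure (Set.range s), h (u n) = x := by simp
  generalize hO.toFinset = O at mO
  have O1 : ∀ x ∈ O, l x = n ∧ b x = b (u n) := fun x hx => by
    obtain ⟨h, hh, rfl⟩ := (mO x).1 hx
    exact ⟨((d.cl h hh).1 _).1.trans (d.lu n), ((d.cl h hh).1 _).2⟩
  have O2 : n + 1 ≤ O.card := by
    rw [← Finset.card_range (n + 1)]
    exact Finset.card_le_card_of_injOn (fun k => g k (u n)) (fun k _ => (mO _).2 ⟨_, d.gc k, rfl⟩)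
      fun k hk m hm h => d.gu n k m (by simpa [Nat.lt_succ_iff] using hk)
        (by simpa [Nat.lt_succ_iff] using hm) h
  let f : L2 Y := ∑ x ∈ O, (lp.single 2 x 1 - lp.single 2 (τ x) 1)
  have f1 : ∀ h ∈ Subgroup.closure (Set.range s), W Set.univ h f = f := by
    intro h hh
    simp only [f, map_sum, map_sub, U_single]
    refine Finset.sum_equiv h (fun x => ?_) fun x _ => ?_
    · simp only [mO]
      constructor
      · rintro ⟨k, hk, rfl⟩
        exact ⟨h * k, mul_mem hh hk, rfl⟩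
      · rintro ⟨k, hk, e⟩
        exact ⟨h⁻¹ * k, mul_mem (inv_mem hh) hk, by simp [e]⟩
    · rw [← Perm.mul_apply, ← (d.cl h hh).2.eq, Perm.mul_apply]
  have f2 : ‖Lap s j f‖ ≤ 4 := by
    have a : Lap s j f = (1 - W Set.univ j) (lp.single 2 (u n) 1 - lp.single 2 (τ (u n)) 1) := by
      have f1' : ∀ i k, W Set.univ (s i ^ k) f = f := fun i k =>
        f1 _ (pow_mem (Subgroup.subset_closure (Set.mem_range_self i)) _)
      rw [Lap, e, ContinuousLinearMap.add_apply]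
      simp only [ContinuousLinearMap.sum_apply, ContinuousLinearMap.sub_apply,
        ContinuousLinearMap.one_apply, f1', sub_self, Finset.sum_const_zero, zero_add]
      simp only [f, map_sum, ← Finset.sum_sub_distrib]
      refine Finset.sum_eq_single (u n) (fun x hx hne => ?_)
        fun h => absurd ((mO _).2 ⟨1, one_mem _, rfl⟩) h
      have j1 : j x = x := by
        by_contra hc
        rcases d.jz x hc with h | h <;> rw [(O1 x hx).1] at h
        · exact hne h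
        · exact d.bt _ (h ▸ (O1 x hx).2)
      have j2 : j (τ x) = τ x := by
        by_contra hc
        rcases d.jz _ hc with h | h <;> rw [d.lt, (O1 x hx).1] at h
        · exact d.bt x (h ▸ (O1 x hx).2.symm)
        · exact hne (τ.injective h)
      rw [map_sub, U_single, U_single, j1, j2, sub_self]
    have a2 : ‖(lp.single 2 (u n) 1 - lp.single 2 (τ (u n)) 1 : L2 Y)‖ ≤ 2 :=
      (norm_sub_le _ _).trans (by simp; norm_num)
    rw [a, ContinuousLinearMap.sub_apply, ContinuousLinearMap.one_apply]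
    refine (norm_sub_le _ _).trans ?_
    linarith [W_norm Set.univ j (lp.single 2 (u n) 1 - lp.single 2 (τ (u n)) 1 : L2 Y)]
  have f3 : inner ℂ f ((1 - T * Lap s j) f) = 0 := by
    have a1 : ∀ h ∈ Subgroup.closure (Set.range s), ∀ y,
        (1 - T * Lap s j) f (h y) = (1 - T * Lap s j) f y := by
      intro h hh y
      conv_rhs => rw [← (r4 _ k1 _ (inv_mem hh)).2, ContinuousLinearMap.mul_apply, W_apply]
      rw [if_pos (Set.mem_univ _), inv_inv]
    have a2 : (1 - T * Lap s j) f (τ (u n)) = (1 - T * Lap s j) f (u n) := by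
      conv_lhs => rw [← r5 _ k2, ContinuousLinearMap.mul_apply, W_apply, ← d.ju]
      rw [if_pos (Set.mem_univ _), ← Perm.mul_apply, inv_mul_cancel, Perm.one_apply]
    generalize (1 - T * Lap s j) f = k at a1 a2
    simp only [f, sum_inner, inner_sub_left, entry]
    refine Finset.sum_eq_zero fun x hx => ?_
    obtain ⟨h, hh, rfl⟩ := (mO x).1 hx
    rw [← Perm.mul_apply τ, (d.cl h hh).2.eq, Perm.mul_apply, a1 h hh, a1 h hh, a2, sub_self]
  have f4 : ‖f‖ ≤ 4 / c := by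
    rw [ContinuousLinearMap.sub_apply, inner_sub_right, sub_eq_zero, ContinuousLinearMap.one_apply,
      inner_self_eq_norm_sq_to_K] at f3
    have a := norm_inner_le_norm (𝕜 := ℂ) f ((T * Lap s j) f)
    rw [← f3] at a
    simp only [norm_pow, norm_algebraMap', norm_norm, ContinuousLinearMap.mul_apply] at a
    have a2 : ‖T (Lap s j f)‖ ≤ 4 / c := (T.le_opNorm _).trans
      ((mul_le_mul t1 f2 (norm_nonneg _) (by positivity)).trans_eq (by ring))
    by_contra hc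
    nlinarith [norm_nonneg f, norm_nonneg (T (Lap s j f))]
  have f5 : (O.card : ℝ) ≤ ‖f‖ ^ 2 := by
    have := lp.sum_rpow_le_norm_rpow (by simp) f O
    simp only [ENNReal.toReal_ofNat, Real.rpow_ofNat] at this
    refine le_trans (le_of_eq ?_) this
    rw [Finset.card_eq_sum_ones]
    push_cast
    refine Finset.sum_congr rfl fun x hx => ?_
    have : f x = 1 := by
      simp only [f, lp.coeFn_sum, Finset.sum_apply, lp.coeFn_sub, Pi.sub_apply, lp.single_apply,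
        Pi.single_apply, Finset.sum_sub_distrib, Finset.sum_ite_eq, hx, if_true]
      rw [Finset.sum_eq_zero fun y hy => if_neg fun h => d.bt y ?_, sub_zero]
      rw [← h, (O1 x hx).2, (O1 y hy).2]
    simp [this]
  have : ((n + 1 : ℕ) : ℝ) ≤ O.card := by exact_mod_cast O2
  push_cast at this
  nlinarith [pow_le_pow_left₀ (norm_nonneg f) f4 2]

theorem Lap_entry [DecidableEq Y] (x y : Y) :
    inner ℂ (lp.single 2 y (1 : ℂ) : L2 Y) (Lap s j (lp.single 2 x (1 : ℂ))) =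
      ∑ α, ((if y = x then 1 else 0) - if y = sg s j α x then 1 else 0) := by
  simp only [Lap, ContinuousLinearMap.sum_apply, ContinuousLinearMap.sub_apply,
    ContinuousLinearMap.one_apply, inner_sum, inner_sub_right, entry, U_single, lp.single_apply,
    Pi.single_apply]

theorem Data.nb [DecidableEq Y] (d : Data s j τ l b u g) (x : Y) : d.G.neighborSet x =
    ((Finset.univ.filter fun α => x ≠ sg s j α x).image fun α => sg s j α x : Finset Y) := by
  ext y
  simp only [SimpleGraph.mem_neighborSet, Data.G, Finset.coe_image, Finset.coe_filter,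
    Finset.mem_univ, true_and, Set.mem_image, Set.mem_setOf_eq]
  exact ⟨fun ⟨h, α, e⟩ => ⟨α, e ▸ h, e⟩, fun ⟨α, h, e⟩ => ⟨e ▸ h, α, e⟩⟩

theorem Data.deg (d : Data s j τ l b u g) :
    ∃ D : ℕ, ∀ x, (d.G.neighborSet x).Finite ∧ (d.G.neighborSet x).ncard ≤ D := by
  classical
  refine ⟨Fintype.card (Option (Fin 3 × Fin 4)), fun x => ?_⟩
  rw [d.nb, Set.ncard_coe_finset]
  exact ⟨Finset.finite_toSet _, Finset.card_image_le.trans (Finset.card_le_univ _)⟩

theorem Data.comp (d : Data s j τ l b u g) (x : Y) : {y | d.G.Reachable x y}.Finite := by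
  refine (d.lf (l x)).subset ?_
  rintro y ⟨p⟩
  induction p with
  | nil => rfl
  | cons h p ih =>
    obtain ⟨-, α, rfl⟩ := h
    refine ih.trans ?_
    rcases α with _ | ⟨i, k⟩
    · exact d.lj _
    · exact ((d.cl _ (pow_mem (Subgroup.subset_closure (Set.mem_range_self i)) _)).1 _).1

theorem Data.e1 [DecidableEq Y] (d : Data s j τ l b u g) (x : Y) :
    inner ℂ (lp.single 2 x (1 : ℂ) : L2 Y) (Lap s j (lp.single 2 x (1 : ℂ))) =
      ((d.G.neighborSet x).ncard : ℂ) := by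
  rw [Lap_entry, d.nb, Set.ncard_coe_finset, Finset.card_image_of_injOn fun α h β _ e =>
    d.inj x α β e (Finset.mem_filter.1 h).2.symm, Finset.card_filter]
  push_cast
  refine Finset.sum_congr rfl fun α _ => ?_
  by_cases h : x = sg s j α x
  · rw [if_pos rfl, if_pos h, if_neg (not_not.2 h), sub_self]
  · simp [h]

theorem Data.e2 [DecidableEq Y] (d : Data s j τ l b u g) (x y : Y) (h : d.G.Adj x y) :
    inner ℂ (lp.single 2 y (1 : ℂ) : L2 Y) (Lap s j (lp.single 2 x (1 : ℂ))) = -1 := by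
  obtain ⟨h, α, rfl⟩ := h
  rw [Lap_entry, Finset.sum_eq_single α (fun β _ hb => ?_) (by simp)]
  · simp [h.symm]
  · rw [if_neg h.symm, if_neg fun e => hb (d.inj x α β e h.symm).symm, sub_self]

theorem Data.e3 [DecidableEq Y] (d : Data s j τ l b u g) (x y : Y) (h : x ≠ y)
    (h' : ¬ d.G.Adj x y) :
    inner ℂ (lp.single 2 y (1 : ℂ) : L2 Y) (Lap s j (lp.single 2 x (1 : ℂ))) = 0 := by
  rw [Lap_entry]
  refine Finset.sum_eq_zero fun α _ => ?_
  rw [if_neg h.symm, if_neg fun e => h' ⟨h, α, e.symm⟩, sub_self]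

def bd (G : SimpleGraph Y) : Subgroup (Perm Y) where
  carrier := {h | ∃ R : ℕ, ∀ x, G.edist x (h x) ≤ R}
  one_mem' := ⟨0, fun x => by simp⟩
  mul_mem' := by
    rintro a b ⟨R, hR⟩ ⟨R', hR'⟩
    refine ⟨R' + R, fun x => (SimpleGraph.edist_triangle (v := b x)).trans ?_⟩
    push_cast
    exact add_le_add (hR' x) (hR (b x))
  inv_mem' := by
    rintro a ⟨R, hR⟩
    refine ⟨R, fun x => ?_⟩
    have := hR (a⁻¹ x)
    rwa [← Perm.mul_apply, mul_inv_cancel, Perm.one_apply, SimpleGraph.edist_comm] at this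

theorem Data.sgb (d : Data s j τ l b u g) (α : Option (Fin 3 × Fin 4)) : sg s j α ∈ bd d.G := by
  refine ⟨1, fun x => ?_⟩
  by_cases h : x = sg s j α x
  · rw [← h]; simp
  · exact (SimpleGraph.edist_eq_one_iff_adj.2 (show d.G.Adj _ _ from ⟨h, α, rfl⟩)).le

theorem Data.gap [DecidableEq Y] (d : Data s j τ l b u g) (P Gh : Set (L2 Y →L[ℂ] L2 Y))
    (hP : ∀ T, T ∈ P ↔ ∃ R : ℕ, ∀ x y : Y, inner ℂ (lp.single 2 y (1 : ℂ) : L2 Y)
      (T (lp.single 2 x (1 : ℂ))) ≠ 0 → d.G.edist x y ≤ (R : ℕ∞))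
    (hG : ∀ T, T ∈ Gh ↔ ∀ ε : ℝ, 0 < ε → ∃ F : Finset Y, ∀ x y : Y, x ∉ F →
      ‖inner ℂ (lp.single 2 y (1 : ℂ) : L2 Y) (T (lp.single 2 x (1 : ℂ)))‖ < ε)
    {A : Type*} [CStarAlgebra A] [PartialOrder A] [StarOrderedRing A]
    (π : (L2 Y →L[ℂ] L2 Y) → A)
    (h1 : ∀ S ∈ P, ∀ T ∈ P, π (S + T) = π S + π T ∧ π (S * T) = π S * π T)
    (h2 : ∀ a : ℂ, ∀ T ∈ P, π (a • T) = a • π T) (h3 : ∀ T ∈ P, π (star T) = star (π T))
    (h4 : ∀ T ∈ P, T ∈ Gh → π T = 0) :
    spectrum ℂ (π (Lap s j)) ⊆ {z : ℂ | z = 0 ∨ (z.im = 0 ∧ (1 / 2 : ℝ) ≤ z.re)} := by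
  classical
  have PW : ∀ S, ∀ h ∈ bd d.G, W S h ∈ P := by
    rintro S h ⟨R, hR⟩
    refine (hP _).2 ⟨R, fun x y e => ?_⟩
    rw [entry, W_single] at e
    by_contra hc
    refine e (if_neg fun a => hc ?_)
    exact a.2 ▸ hR x
  have Padd : ∀ S ∈ P, ∀ T ∈ P, S + T ∈ P := by
    intro S hS T hT
    obtain ⟨R, hR⟩ := (hP _).1 hS
    obtain ⟨R', hR'⟩ := (hP _).1 hT
    refine (hP _).2 ⟨max R R', fun x y e => ?_⟩
    rw [ContinuousLinearMap.add_apply, inner_add_right] at e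
    by_cases h : inner ℂ (lp.single 2 y (1 : ℂ) : L2 Y) (S (lp.single 2 x (1 : ℂ))) = 0
    · rw [h, zero_add] at e
      exact (hR' x y e).trans (by exact_mod_cast le_max_right _ _)
    · exact (hR x y h).trans (by exact_mod_cast le_max_left _ _)
  have Pneg : ∀ T ∈ P, -T ∈ P := by
    intro T hT
    obtain ⟨R, hR⟩ := (hP _).1 hT
    exact (hP _).2 ⟨R, fun x y e => hR x y (by simpa using e)⟩
  have hsub : ∀ S ∈ P, ∀ T ∈ P, S - T ∈ P ∧ π (S - T) = π S - π T := by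
    intro S hS T hT
    have := h2 (-1) T hT
    simp only [neg_smul, one_smul] at this
    rw [sub_eq_add_neg, (h1 S hS _ (Pneg T hT)).1, this, sub_eq_add_neg]
    exact ⟨Padd S hS _ (Pneg T hT), rfl⟩
  have P1 : (1 : L2 Y →L[ℂ] L2 Y) ∈ P := W_one ▸ PW _ _ (one_mem _)
  have hsum : ∀ (F : Option (Fin 3 × Fin 4) → L2 Y →L[ℂ] L2 Y), (∀ α, F α ∈ P) →
      ∀ t : Finset _, ∑ α ∈ t, F α ∈ P ∧ π (∑ α ∈ t, F α) = ∑ α ∈ t, π (F α) := by
    intro F hF t
    induction t using Finset.induction_on with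
    | empty => simpa using hsub 1 P1 1 P1
    | insert a t ha ih =>
      rw [Finset.sum_insert ha, Finset.sum_insert ha, (h1 _ (hF a) _ ih.1).1, ih.2]
      exact ⟨Padd _ (hF a) _ ih.1, rfl⟩
  have l1 : ∀ T ∈ P, π 1 * π T = π T := fun T hT => by rw [← (h1 _ P1 _ hT).2, one_mul]
  have l2 : ∀ T ∈ P, π T * π 1 = π T := fun T hT => by rw [← (h1 _ hT _ P1).2, mul_one]
  let w : Perm Y → A := fun h => π (W Set.univ h) + (1 - π 1)
  have wl : ∀ h ∈ bd d.G, ∀ T ∈ P, w h * π T = π (W Set.univ h * T) := fun h hh T hT => by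
    rw [(h1 _ (PW _ _ hh) _ hT).2, add_mul, sub_mul, l1 T hT, one_mul, sub_self, add_zero]
  have wr : ∀ h ∈ bd d.G, ∀ T ∈ P, π T * w h = π (T * W Set.univ h) := fun h hh T hT => by
    rw [(h1 _ hT _ (PW _ _ hh)).2, mul_add, mul_sub, l2 T hT, mul_one, sub_self, add_zero]
  have ws : ∀ h ∈ bd d.G, star (w h) = w h⁻¹ := fun h hh => by
    simp only [w, star_add, star_sub, star_one, ← h3 _ P1, ← h3 _ (PW _ _ hh), U_star]
  obtain ⟨r1, r2, r3, r4, -⟩ := rep (bd d.G) w (by simp [w, W_one]) (fun a ha c hc => by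
      conv_rhs => rw [show w c = π (W Set.univ c) + (1 - π 1) from rfl, mul_add, mul_sub,
        wl a ha _ (PW _ _ hc), wl a ha _ P1, mul_one, mul_one, ← U_mul]
      simp only [w]
      abel) ws s j (fun i => by simpa [sg] using d.sgb (some (i, 0))) (d.sgb none)
    d.s5 d.j2 d.hz _ rfl
  have e : π (Lap s j) = _ := ((hsum _ (fun α => (hsub _ P1 _ (PW _ _ (d.sgb α))).1) _).2.trans
    (Finset.sum_congr rfl fun α _ => by
      rw [(hsub _ P1 _ (PW _ _ (d.sgb α))).2]; simp only [w]; abel)).trans (sum_sg w)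
  rw [e, gap_iff (.of_nonneg (add_nonneg r1 r3))]
  refine pert (by norm_num) r1 r2 r3 fun p hp => ?_
  have r5 := r4 p (by rw [mul_assoc, hp, mul_zero])
  have hm : π (W {x | j x ≠ x} 1) * p = 0 := by
    refine orth (fun k => π (W {x | j ((g k)⁻¹ x) ≠ (g k)⁻¹ x} 1)) (fun k => ?_) (fun k => ?_)
      (fun k m h => ?_) ?_ fun k => ?_
    · rw [← h3 _ (PW _ _ (one_mem _)), W_star]; rfl
    · rw [← (h1 _ (PW _ _ (one_mem _)) _ (PW _ _ (one_mem _))).2, W_mul]
      congr 2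
      exact Set.inter_self _
    · rw [← (h1 _ (PW _ _ (one_mem _)) _ (PW _ _ (one_mem _))).2, W_mul, mul_one]
      refine h4 _ (PW _ _ (one_mem _)) ((hG _).2 fun ε hε => ⟨(d.gZ k m h).toFinset, ?_⟩)
      intro x y hx
      rw [entry, W_single, if_neg, norm_zero]
      · exact hε
      · rintro ⟨a, rfl⟩
        exact hx ((Set.Finite.mem_toFinset _).2 a)
    · rw [← h3 _ (PW _ _ (one_mem _)), ← (h1 _ (W_star _ _ ▸ PW _ _ (one_mem _)) _
        (PW _ _ (one_mem _))).2, W_star, W_mul]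
      congr 2
      exact Set.inter_self _
    · have a := r5 _ (d.gc k)
      have a' := r5 _ (inv_mem (d.gc k))
      have c : π (W {x | j ((g k)⁻¹ x) ≠ (g k)⁻¹ x} 1) =
          w (g k) * π (W {x | j x ≠ x} 1) * w (g k)⁻¹ := by
        rw [wl _ a.1 _ (PW _ _ (one_mem _)), W_mul, wr _ a'.1 _ (PW _ _ (mul_mem a.1 (one_mem _))),
          W_mul]
        simp
      have c' : star p * w (g k) = star p := by
        conv_rhs => rw [← a'.2, star_mul, ws _ a'.1, inv_inv]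
      rw [c, ← mul_assoc, ← mul_assoc, c', mul_assoc, a'.2]
  have jb : j ∈ bd d.G := d.sgb none
  have hk : 1 - w j = (1 - w j) * π (W {x | j x ≠ x} 1) := by
    rw [sub_mul, one_mul, wl _ jb _ (PW _ _ (one_mem _)), W_mul,
      ← (hsub _ (PW _ _ (one_mem _)) _ (PW _ _ (mul_mem jb (one_mem _)))).2]
    have : W {x | j x ≠ x} 1 - W (Set.univ ∩ {x | j⁻¹ x ∈ {x | j x ≠ x}}) (j * 1) =
        1 - W Set.univ j := by
      ext f x
      simp only [ContinuousLinearMap.sub_apply, lp.coeFn_sub, Pi.sub_apply, W_apply,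
        ContinuousLinearMap.one_apply, mul_one, inv_one, Perm.one_apply]
      by_cases h : j x = x
      · have h' : j⁻¹ x = x := by rw [Perm.inv_eq_iff_eq, h]
        rw [if_neg (c := x ∈ {x | j x ≠ x}) (not_not.2 h), if_neg fun a => a.2 (by rw [h', h]),
          if_pos (Set.mem_univ _), h',
          sub_self, sub_self]
      · have e : j (j⁻¹ x) = x := by simp
        rw [if_pos (c := x ∈ {x | j x ≠ x}) h, if_pos (Set.mem_univ _),
          if_pos ⟨Set.mem_univ _, fun a => h ((congrArg j (e.symm.trans a)).trans e)⟩]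
    rw [this, (hsub _ P1 _ (PW _ _ jb)).2]
    simp only [w]
    abel
  rw [hk, mul_assoc, hm, mul_zero]

end Pool.Agent.Lib.helper23.KazC
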