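import Mathlib
import Pool.Agent.Lib.helper23.KazC

set_option autoImplicit false

namespace Pool.Agent.Lib.helper23.KazD

open KazC Equiv Polynomial

theorem transport {Y Y' : Type} (e : Y ≃ Y') {s : Fin 3 → Perm Y} {j τ : Perm Y} {l : Y → ℕ}
    {b : Y → Bool} {u : ℕ → Y} {g : ℕ → Perm Y} (d : Data s j τ l b u g) :
    Data (fun i => e.permCongrHom (s i)) (e.permCongrHom j) (e.permCongrHom τ)
      (fun x => l (e.symm x)) (fun x => b (e.symm x)) (fun n => e (u n))
      fun k => e.permCongrHom (g k) := by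
  have hs : ∀ α, sg (fun i => e.permCongrHom (s i)) (e.permCongrHom j) α =
      e.permCongrHom (sg s j α) := by
    rintro (_ | a)
    · rfl
    · simp only [sg, map_pow]
  have ha : ∀ (p : Perm Y) x, e.permCongrHom p x = e (p (e.symm x)) := fun _ _ => rfl
  refine ⟨fun i => by rw [← map_pow, d.s5, map_one], by rw [← map_mul, d.j2, map_one],
    fun i => ?_, fun x α β h h' => ?_, fun n => ?_, fun i x => by simp [ha, d.ls],
    fun x => by simp [ha, d.lj], fun x => by simp [ha, d.lt], fun n => by simp [d.lu],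
    fun i x => by simp [ha, d.bs], fun x => by simp [ha, d.bt], fun i => (d.ts i).map _,
    fun n => by simp [ha, d.ju], fun x h => ?_, fun k => ?_, fun n k m a b h => ?_⟩
  · obtain ⟨z, a, b, c, h⟩ := d.hz i
    exact ⟨e.permCongrHom z, by rw [← map_pow, a, map_one], b.map _, c.map _,
      by rw [← map_mul, h, map_mul, map_mul]⟩
  · rw [hs, ha] at h'
    rw [hs, hs, ha, ha] at h
    exact d.inj (e.symm x) α β (e.injective h) fun a => h' (by simp [a])
  · exact (d.lf n).preimage e.symm.injective.injOn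
  · rw [ha] at h
    rcases d.jz (e.symm x) (fun a => h (by simp [a])) with a | a
    · exact Or.inl (by rw [← a]; simp)
    · exact Or.inr (by rw [ha, symm_apply_apply, ← a]; simp)
  · have := Subgroup.mem_map_of_mem e.permCongrHom.toMonoidHom (d.gc k)
    rwa [MonoidHom.map_closure, ← Set.range_comp] at this
  · exact d.gu n k m a b (by simpa [ha] using h)

abbrev R (n : ℕ) : Type := AdjoinRoot (X ^ (n + 1) : (ZMod 5)[X])

instance p5 : Fact (Nat.Prime 5) := ⟨by norm_num⟩

instance Rfin (n : ℕ) : Finite (R n) := by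
  haveI := (AdjoinRoot.powerBasis
    (pow_ne_zero (n + 1) (X_ne_zero : (X : (ZMod 5)[X]) ≠ 0))).finite
  exact Module.finite_of_finite (ZMod 5)

abbrev X0 : Type := Σ a : ℕ × Bool, (Fin 3 → R a.1)

noncomputable def E (i j : Fin 3) (h : j ≠ i) (f : (ZMod 5)[X]) : Perm X0 where
  toFun x := ⟨x.1, Function.update x.2 i (x.2 i + AdjoinRoot.mk _ f * x.2 j)⟩
  invFun x := ⟨x.1, Function.update x.2 i (x.2 i - AdjoinRoot.mk _ f * x.2 j)⟩
  left_inv x := by simp [Function.update_of_ne h]
  right_inv x := by simp [Function.update_of_ne h]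

theorem E_apply (i j : Fin 3) (h : j ≠ i) (f : (ZMod 5)[X]) (x : X0) :
    E i j h f x = ⟨x.1, Function.update x.2 i (x.2 i + AdjoinRoot.mk _ f * x.2 j)⟩ := rfl

theorem E_add (i j : Fin 3) (h : j ≠ i) (f f' : (ZMod 5)[X]) :
    E i j h f * E i j h f' = E i j h (f + f') := by
  ext1 x
  simp only [Perm.mul_apply, E_apply, Function.update_of_ne h, Function.update_self,
    Function.update_idem, map_add]
  congr 2
  ring

theorem E_zero (i j : Fin 3) (h : j ≠ i) : E i j h 0 = 1 := by
  ext1 x
  simp [E_apply]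

theorem E_pow (i j : Fin 3) (h : j ≠ i) (f : (ZMod 5)[X]) (n : ℕ) :
    E i j h f ^ n = E i j h ((n : ZMod 5) • f) := by
  induction n with
  | zero => simp [E_zero]
  | succ n ih => rw [pow_succ, ih, E_add, Nat.cast_succ, add_smul, one_smul]

theorem E_five (i j : Fin 3) (h : j ≠ i) (f : (ZMod 5)[X]) : E i j h f ^ 5 = 1 := by
  rw [E_pow, show ((5 : ℕ) : ZMod 5) = 0 from rfl, zero_smul, E_zero]

theorem E_c1 (i j l : Fin 3) (h : j ≠ i) (h' : l ≠ i) (f f' : (ZMod 5)[X]) :
    Commute (E i j h f) (E i l h' f') := by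
  ext1 x
  simp only [Perm.mul_apply, E_apply, Function.update_of_ne h, Function.update_of_ne h',
    Function.update_self, Function.update_idem]
  congr 2
  ring

theorem E_c2 (i j l : Fin 3) (h : l ≠ i) (h' : l ≠ j) (hij : j ≠ i) (f f' : (ZMod 5)[X]) :
    Commute (E i l h f) (E j l h' f') := by
  ext1 x
  simp only [Perm.mul_apply, E_apply, Function.update_of_ne h, Function.update_of_ne h',
    Function.update_of_ne hij, Function.update_of_ne hij.symm]
  rw [Function.update_comm hij]

theorem E_h (i j l : Fin 3) (h : l ≠ i) (h' : l ≠ j) (hij : j ≠ i) (f f' : (ZMod 5)[X]) :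
    E j l h' f' * E i j hij f = E i l h (-(f * f')) * E i j hij f * E j l h' f' := by
  ext1 x
  simp only [Perm.mul_apply, E_apply, Function.update_of_ne h, Function.update_of_ne h',
    Function.update_of_ne hij, Function.update_of_ne hij.symm, Function.update_self,
    Function.update_idem, map_neg, map_mul]
  rw [Function.update_comm hij]
  congr 3
  ring

theorem E_mem {C : Subgroup (Perm X0)} (i j l : Fin 3) (h : l ≠ i) (h' : l ≠ j) (hij : j ≠ i)
    (f f' : (ZMod 5)[X]) (a : E i j hij f ∈ C) (b : E j l h' f' ∈ C) : E i l h (f * f') ∈ C := by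
  have e : E i l h (f * f') = E i j hij f * E j l h' f' * (E j l h' f' * E i j hij f)⁻¹ := by
    rw [eq_mul_inv_iff_mul_eq, E_h i j l h h' hij, ← mul_assoc, ← mul_assoc, E_add,
      add_neg_cancel, E_zero, one_mul]
  rw [e]
  exact mul_mem (mul_mem a b) (inv_mem (mul_mem b a))

def flip (x : X0) : X0 := ⟨(x.1.1, !x.1.2), x.2⟩

theorem flip2 : Function.Involutive flip := by
  rintro ⟨⟨n, _ | _⟩, v⟩ <;> rfl

open Classical in
noncomputable def jn (x : X0) : X0 := if x.2 = Pi.single 1 1 then flip x else x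

theorem jn2 : Function.Involutive jn := by
  intro x
  by_cases h : x.2 = Pi.single 1 1
  · have : jn x = flip x := if_pos h
    rw [this]
    exact (if_pos h).trans (flip2 x)
  · have : jn x = x := if_neg h
    rw [this, this]

theorem n1 (i : Fin 3) : i + 1 ≠ i := by revert i; decide

noncomputable def s0 (i : Fin 3) : Perm X0 := E i (i + 1) (n1 i) (![1, 1, X] i)

theorem data0 : Data s0 jn2.toPerm flip2.toPerm (fun x => x.1.1) (fun x => x.1.2)
    (fun n => ⟨(n, false), Pi.single 1 1⟩) fun k => E 0 1 (n1 0) (X ^ k) := by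
  have hb : ∀ x, jn x ≠ x → jn x = flip x ∧ x.2 = Pi.single 1 1 := fun x h => by
    by_cases hx : x.2 = Pi.single 1 1
    · exact ⟨if_pos hx, hx⟩
    · exact absurd (if_neg hx) h
  refine ⟨fun i => E_five _ _ _ _, Equiv.ext jn2, fun i => ?_, ?_, fun n => ?_, fun _ _ => rfl,
    fun x => ?_, fun _ => rfl, fun _ => rfl, fun _ _ => rfl, fun x => by simp [flip],
    fun i => Equiv.ext fun _ => rfl, fun n => if_pos rfl, ?_, fun k => ?_, fun n k m a b h => ?_⟩
  · have h2 : i + 1 + 1 ≠ i := by revert i; decide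
    exact ⟨_, E_five _ _ _ _, E_c1 _ _ _ _ _ _ _, E_c2 _ _ _ h2 _ (n1 i) _ _,
      E_h _ _ _ h2 _ _ _ _⟩
  · have h0 : ∀ x i k, jn x = (s0 i ^ k) x → jn x = x := by
      intro x i k h
      by_contra hc
      rw [(hb x hc).1, s0, E_pow] at h
      simpa [flip, E_apply] using congrArg (fun y : X0 => y.1.2) h
    rintro x (_ | ⟨i, k⟩) (_ | ⟨i', k'⟩) h h'
    · rfl
    · exact absurd (h0 x _ _ h) h'
    · exact absurd (h.trans (h0 x _ _ h.symm)) h'
    · simp only [sg, s0, E_pow, E_apply] at h h'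
      have h1 := congrFun (eq_of_heq (Sigma.mk.inj h).2) i
      have h2 : AdjoinRoot.mk _ (((k.1 + 1 : ℕ) : ZMod 5) • (![1, 1, X] i : (ZMod 5)[X])) *
          x.2 (i + 1) ≠ 0 := fun a => h' (by simp only [a, add_zero, Function.update_eq_self])
      by_cases hi : i = i'
      · subst hi
        simp only [Function.update_self, add_right_inj, ← AdjoinRoot.smul_mk,
          smul_mul_assoc] at h1 h2
        have h3 := smul_left_injective (ZMod 5) (right_ne_zero_of_smul h2) h1
        have h4 : ∀ k k' : Fin 4, ((k.1 + 1 : ℕ) : ZMod 5) = ((k'.1 + 1 : ℕ) : ZMod 5) → k = k' := by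
          decide
        rw [h4 k k' h3]
      · rw [Function.update_self, Function.update_of_ne hi, add_eq_left] at h1
        exact absurd h1 h2
  · refine ((Set.finite_range (Sigma.mk (n, false))).union
      (Set.finite_range (Sigma.mk (n, true)))).subset ?_
    rintro ⟨⟨m, _ | _⟩, v⟩ rfl
    · exact Or.inl ⟨v, rfl⟩
    · exact Or.inr ⟨v, rfl⟩
  · by_cases h : jn x = x
    · exact congrArg (fun y : X0 => y.1.1) h
    · exact (congrArg (fun y : X0 => y.1.1) (hb x h).1).trans rfl
  · rintro ⟨⟨m, _ | _⟩, v⟩ h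
    · exact Or.inl (congrArg (Sigma.mk (m, false)) (hb _ h).2)
    · exact Or.inr (congrArg (Sigma.mk (m, true)) (hb _ h).2)
  · have a : ∀ i, s0 i ∈ Subgroup.closure (Set.range s0) := fun i =>
      Subgroup.subset_closure ⟨i, rfl⟩
    induction k with
    | zero => exact a 0
    | succ k ih =>
      have := E_mem 0 2 1 (by decide) (by decide) (by decide) _ _
        (E_mem 0 1 2 (by decide) (by decide) (by decide) _ _ ih (a 1))
        (E_mem 2 0 1 (by decide) (by decide) (by decide) _ _ (a 2) (a 0))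
      simpa [pow_succ] using this
  · simp only [E_apply] at h
    have h1 := congrFun (eq_of_heq (Sigma.mk.inj h).2) 0
    simp only [Function.update_self, add_right_inj, Pi.single_eq_same, mul_one,
      AdjoinRoot.mk_eq_mk, X_pow_dvd_iff] at h1
    by_contra hc
    simpa [coeff_X_pow, hc] using h1 k (Nat.lt_succ_of_le a)

theorem data : ∃ (s : Fin 3 → Perm ℕ) (j τ : Perm ℕ) (l : ℕ → ℕ) (b : ℕ → Bool) (u : ℕ → ℕ)
    (g : ℕ → Perm ℕ), Data s j τ l b u g := by
  haveI : Infinite X0 := Infinite.of_injective (fun n : ℕ => (⟨(n, false), 0⟩ : X0))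
    fun a b h => congrArg (fun y : X0 => y.1.1) h
  obtain ⟨e⟩ : Nonempty (X0 ≃ ℕ) := nonempty_equiv_of_countable
  exact ⟨_, _, _, _, _, _, _, transport e data0⟩

end Pool.Agent.Lib.helper23.KazD
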