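import Mathlib
import Pool.Agent.Lib.helper23.KazC

set_option autoImplicit false

namespace Pool.Agent.Lib.helper23.KazE

open KazA KazB KazC Equiv

theorem orthN {A : Type*} [CStarAlgebra A] [PartialOrder A] [StarOrderedRing A] {p m : A} (N : ℕ)
    (e : ℕ → A) (es : ∀ k, star (e k) = e k) (ee : ∀ k, e k * e k = e k)
    (eo : ∀ k < N, ∀ l < N, k ≠ l → e k * e l = 0) (ms : star m * m = m)
    (h : ∀ k, star p * e k * p = star p * m * p) : (N : ℝ) * ‖m * p‖ ^ 2 ≤ ‖star p * p‖ := by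
  have e0 : star (m * p) * (m * p) = star p * m * p := by
    rw [star_mul, mul_assoc, ← mul_assoc (star m), ms, mul_assoc]
  have r2 : (∑ k ∈ Finset.range N, e k) * ∑ k ∈ Finset.range N, e k =
      ∑ k ∈ Finset.range N, e k := by
    rw [Finset.sum_mul_sum]
    refine Finset.sum_congr rfl fun k hk => ?_
    rw [Finset.sum_eq_single k (fun l hl h => eo k (Finset.mem_range.1 hk) l
      (Finset.mem_range.1 hl) h.symm) (fun h => absurd hk h), ee]
  have r3 := star_mul_self_nonneg ((1 - ∑ k ∈ Finset.range N, e k) * p)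
  rw [star_mul, star_sub, star_one, star_sum, Finset.sum_congr rfl fun k _ => es k, mul_assoc,
    ← mul_assoc (1 - _)] at r3
  simp only [mul_sub, sub_mul, r2, mul_one, one_mul, sub_self, sub_zero] at r3
  simp only [Finset.sum_mul,
    Finset.mul_sum, ← mul_assoc, h, Finset.sum_const, Finset.card_range, sub_nonneg] at r3
  have := CStarAlgebra.norm_le_norm_of_nonneg_of_le
    (nsmul_nonneg (e0 ▸ star_mul_self_nonneg (m * p)) N) r3
  rwa [← Nat.cast_smul_eq_nsmul ℝ, norm_smul, Real.norm_natCast, ← e0,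
    CStarRing.norm_star_mul_self, ← sq] at this

variable {Y : Type}

structure Dat (s : Fin 3 → Perm Y) (j : Perm Y) (l φ : Y → ℕ) (u : ℕ → Y)
    (g : ℕ → Perm Y) : Prop where
  s5 : ∀ i, s i ^ 5 = 1
  j2 : j * j = 1
  hz : ∀ i, ∃ z : Perm Y, z ^ 5 = 1 ∧ Commute z (s i) ∧ Commute z (s (i + 1)) ∧
    s (i + 1) * s i = z * s i * s (i + 1)
  inj : ∀ x α β, sg s j α x = sg s j β x → sg s j α x ≠ x → α = β
  lf : ∀ n, {x | l x = n}.Finite
  ls : ∀ i x, l (s i x) = l x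
  lj : ∀ x, l (j x) = l x
  lu : ∀ n, l (u n) = n
  jz : ∀ x, j x ≠ x → x = u (l x) ∨ x = j (u (l x))
  gc : ∀ k, g k ∈ Subgroup.closure (Set.range s)
  gv : ∀ n, g (n + 2) (u n) = j (u n)
  gu : ∀ n k m, k ≤ n → m ≤ n → ∀ x y, (x = u n ∨ x = j (u n)) → (y = u n ∨ y = j (u n)) →
    g k x = g m y → k = m
  fs : ∀ x i k, φ ((s i ^ k) x) ≤ φ x + 1
  fb : ∀ x, φ x ≤ l x + 2
  fu : ∀ n, φ (u n) = 0
  fv : ∀ n, φ (j (u n)) = n + 2

variable {s : Fin 3 → Perm Y} {j : Perm Y} {l φ : Y → ℕ} {u : ℕ → Y} {g : ℕ → Perm Y}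

theorem Dat.cl (d : Dat s j l φ u g) (h : Perm Y) (hh : h ∈ Subgroup.closure (Set.range s)) :
    ∀ x, l (h x) = l x := by
  induction hh using Subgroup.closure_induction with
  | mem g hg =>
    obtain ⟨i, rfl⟩ := hg
    exact d.ls i
  | one => exact fun x => rfl
  | mul x y _ _ hx hy => exact fun a => (hx _).trans (hy a)
  | inv x _ hx =>
    intro a
    have := hx (x⁻¹ a)
    simp only [Perm.coe_inv, apply_symm_apply] at this
    exact this.symm

theorem Dat.jj (d : Dat s j l φ u g) (x : Y) : j (j x) = x := by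
  rw [← Perm.mul_apply, d.j2]; rfl

theorem Dat.ji (d : Dat s j l φ u g) : j⁻¹ = j := inv_eq_of_mul_eq_one_right d.j2

theorem Dat.inv (d : Dat s j l φ u g) (α : Option (Fin 3 × Fin 4)) :
    ∃ β, sg s j β * sg s j α = 1 := by
  rcases α with _ | ⟨i, k⟩
  · exact ⟨none, d.j2⟩
  · refine ⟨some (i, k.rev), ?_⟩
    simp only [sg, ← pow_add, Fin.val_rev]
    rw [← d.s5 i]
    congr 1
    omega

def Dat.G (d : Dat s j l φ u g) : SimpleGraph Y where
  Adj x y := x ≠ y ∧ ∃ α, sg s j α x = y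
  symm := ⟨fun x y h => by
    obtain ⟨h, α, rfl⟩ := h
    obtain ⟨β, e⟩ := d.inv α
    exact ⟨h.symm, β, by rw [← Perm.mul_apply, e]; rfl⟩⟩
  loopless := ⟨fun x h => h.1 rfl⟩

theorem Dat.nb [DecidableEq Y] (d : Dat s j l φ u g) (x : Y) : d.G.neighborSet x =
    ((Finset.univ.filter fun α => x ≠ sg s j α x).image fun α => sg s j α x : Finset Y) := by
  ext y
  simp only [SimpleGraph.mem_neighborSet, Dat.G, Finset.coe_image, Finset.coe_filter,
    Finset.mem_univ, true_and, Set.mem_image, Set.mem_setOf_eq]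
  exact ⟨fun ⟨h, α, e⟩ => ⟨α, e ▸ h, e⟩, fun ⟨α, h, e⟩ => ⟨e ▸ h, α, e⟩⟩

theorem Dat.deg (d : Dat s j l φ u g) :
    ∃ D : ℕ, ∀ x, (d.G.neighborSet x).Finite ∧ (d.G.neighborSet x).ncard ≤ D := by
  classical
  refine ⟨Fintype.card (Option (Fin 3 × Fin 4)), fun x => ?_⟩
  rw [d.nb, Set.ncard_coe_finset]
  exact ⟨Finset.finite_toSet _, Finset.card_image_le.trans (Finset.card_le_univ _)⟩

theorem Dat.ladj (d : Dat s j l φ u g) (x y : Y) (h : d.G.Adj x y) : l x = l y := by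
  obtain ⟨-, α, rfl⟩ := h
  rcases α with _ | ⟨i, k⟩
  · exact (d.lj _).symm
  · exact (d.cl _ (pow_mem (Subgroup.subset_closure (Set.mem_range_self i)) _) _).symm

theorem Dat.big (d : Dat s j l φ u g) (n : ℕ) : n + 1 ≤ {x | l x = n}.ncard := by
  rw [← Set.ncard_Iio_nat (n + 1)]
  exact Set.ncard_le_ncard_of_injOn (fun k => g k (u n))
    (fun k _ => (d.cl _ (d.gc k) _).trans (d.lu n)) (fun k hk m hm h => d.gu n k m
      (Nat.le_of_lt_succ hk) (Nat.le_of_lt_succ hm) _ _ (Or.inl rfl) (Or.inl rfl) h) (d.lf n)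

theorem Dat.e1 [DecidableEq Y] (d : Dat s j l φ u g) (x : Y) :
    inner ℂ (lp.single 2 x (1 : ℂ) : L2 Y) (Lap s j (lp.single 2 x (1 : ℂ))) =
      ((d.G.neighborSet x).ncard : ℂ) := by
  rw [Lap_entry, d.nb, Set.ncard_coe_finset, Finset.card_image_of_injOn fun α h β _ e =>
    d.inj x α β e (Finset.mem_filter.1 h).2.symm, Finset.card_filter]
  push_cast
  refine Finset.sum_congr rfl fun α _ => ?_
  by_cases h : x = sg s j α x
  · rw [if_pos rfl, if_pos h, if_neg (not_not.2 h), sub_self]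
  · simp [h]

theorem Dat.e2 [DecidableEq Y] (d : Dat s j l φ u g) (x y : Y) (h : d.G.Adj x y) :
    inner ℂ (lp.single 2 y (1 : ℂ) : L2 Y) (Lap s j (lp.single 2 x (1 : ℂ))) = -1 := by
  obtain ⟨h, α, rfl⟩ := h
  rw [Lap_entry, Finset.sum_eq_single α (fun β _ hb => ?_) (by simp)]
  · simp [h.symm]
  · rw [if_neg h.symm, if_neg fun e => hb (d.inj x α β e h.symm).symm, sub_self]

theorem Dat.e3 [DecidableEq Y] (d : Dat s j l φ u g) (x y : Y) (h : x ≠ y)
    (h' : ¬ d.G.Adj x y) :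
    inner ℂ (lp.single 2 y (1 : ℂ) : L2 Y) (Lap s j (lp.single 2 x (1 : ℂ))) = 0 := by
  rw [Lap_entry]
  refine Finset.sum_eq_zero fun α _ => ?_
  rw [if_neg h.symm, if_neg fun e => h' ⟨h, α, e.symm⟩, sub_self]

theorem Dat.sgb (d : Dat s j l φ u g) (α : Option (Fin 3 × Fin 4)) : sg s j α ∈ bd d.G := by
  refine ⟨1, fun x => ?_⟩
  by_cases h : x = sg s j α x
  · rw [← h]; simp
  · exact (SimpleGraph.edist_eq_one_iff_adj.2 (show d.G.Adj _ _ from ⟨h, α, rfl⟩)).le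

theorem Dat.uv (d : Dat s j l φ u g) (n : ℕ) : j (u n) ≠ u n := fun h => by
  have := d.fv n
  rw [h, d.fu] at this
  omega

theorem Dat.gap [DecidableEq Y] (d : Dat s j l φ u g) (P : Set (L2 Y →L[ℂ] L2 Y))
    (hP : ∀ T, T ∈ P ↔ ∃ R : ℕ, ∀ x y : Y, inner ℂ (lp.single 2 y (1 : ℂ) : L2 Y)
      (T (lp.single 2 x (1 : ℂ))) ≠ 0 → d.G.edist x y ≤ (R : ℕ∞))
    {A : Type*} [CStarAlgebra A] [PartialOrder A] [StarOrderedRing A]
    (π : (L2 Y →L[ℂ] L2 Y) → A) (h0 : π 1 = 1)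
    (h1 : ∀ S ∈ P, ∀ T ∈ P, π (S + T) = π S + π T ∧ π (S * T) = π S * π T)
    (h2 : ∀ a : ℂ, ∀ T ∈ P, π (a • T) = a • π T) (h3 : ∀ T ∈ P, π (star T) = star (π T)) :
    spectrum ℂ (π (Lap s j)) ⊆ {z : ℂ | z = 0 ∨ (z.im = 0 ∧ (1 / 2 : ℝ) ≤ z.re)} := by
  classical
  have PW : ∀ S, ∀ h ∈ bd d.G, W S h ∈ P := by
    rintro S h ⟨R, hR⟩
    refine (hP _).2 ⟨R, fun x y e => ?_⟩
    rw [entry, W_single] at e
    by_contra hc
    refine e (if_neg fun a => hc ?_)
    exact a.2 ▸ hR x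
  have Padd : ∀ S ∈ P, ∀ T ∈ P, S + T ∈ P := by
    intro S hS T hT
    obtain ⟨R, hR⟩ := (hP _).1 hS
    obtain ⟨R', hR'⟩ := (hP _).1 hT
    refine (hP _).2 ⟨max R R', fun x y e => ?_⟩
    rw [ContinuousLinearMap.add_apply, inner_add_right] at e
    by_cases h : inner ℂ (lp.single 2 y (1 : ℂ) : L2 Y) (S (lp.single 2 x (1 : ℂ))) = 0
    · rw [h, zero_add] at e
      exact (hR' x y e).trans (by exact_mod_cast le_max_right _ _)
    · exact (hR x y h).trans (by exact_mod_cast le_max_left _ _)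
  have Pneg : ∀ T ∈ P, -T ∈ P := by
    intro T hT
    obtain ⟨R, hR⟩ := (hP _).1 hT
    exact (hP _).2 ⟨R, fun x y e => hR x y (by simpa using e)⟩
  have hsub : ∀ S ∈ P, ∀ T ∈ P, S - T ∈ P ∧ π (S - T) = π S - π T := by
    intro S hS T hT
    have := h2 (-1) T hT
    simp only [neg_smul, one_smul] at this
    rw [sub_eq_add_neg, (h1 S hS _ (Pneg T hT)).1, this, sub_eq_add_neg]
    exact ⟨Padd S hS _ (Pneg T hT), rfl⟩
  have P1 : (1 : L2 Y →L[ℂ] L2 Y) ∈ P := W_one ▸ PW _ _ (one_mem _)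
  have hsum : ∀ (F : Option (Fin 3 × Fin 4) → L2 Y →L[ℂ] L2 Y), (∀ α, F α ∈ P) →
      ∀ t : Finset _, ∑ α ∈ t, F α ∈ P ∧ π (∑ α ∈ t, F α) = ∑ α ∈ t, π (F α) := by
    intro F hF t
    induction t using Finset.induction_on with
    | empty => simpa using hsub 1 P1 1 P1
    | insert a t ha ih =>
      rw [Finset.sum_insert ha, Finset.sum_insert ha, (h1 _ (hF a) _ ih.1).1, ih.2]
      exact ⟨Padd _ (hF a) _ ih.1, rfl⟩
  have wm : ∀ S S', ∀ a ∈ bd d.G, ∀ c ∈ bd d.G, π (W S a) * π (W S' c) =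
      π (W (S ∩ {x | a⁻¹ x ∈ S'}) (a * c)) := fun S S' a ha c hc => by
    rw [← W_mul, (h1 _ (PW _ _ ha) _ (PW _ _ hc)).2]
  have ws : ∀ h ∈ bd d.G, star (π (W Set.univ h)) = π (W Set.univ h⁻¹) := fun h hh => by
    rw [← h3 _ (PW _ _ hh), U_star]
  obtain ⟨r1, r2, r3, r4, -⟩ := rep (bd d.G) (fun h => π (W Set.univ h)) (by simp [W_one, h0])
    (fun a ha c hc => by rw [U_mul, (h1 _ (PW _ _ ha) _ (PW _ _ hc)).2]) ws s j
    (fun i => by simpa [sg] using d.sgb (some (i, 0))) (d.sgb none) d.s5 d.j2 d.hz _ rfl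
  have e : π (Lap s j) = _ := ((hsum _ (fun α => (hsub _ P1 _ (PW _ _ (d.sgb α))).1) _).2.trans
    (Finset.sum_congr rfl fun α _ => by rw [(hsub _ P1 _ (PW _ _ (d.sgb α))).2, h0])).trans
      (sum_sg fun h => π (W Set.univ h))
  rw [e, gap_iff (.of_nonneg (add_nonneg r1 r3))]
  refine pert (by norm_num) r1 r2 r3 fun p hp => ?_
  have r5 := r4 p (by rw [mul_assoc, hp, mul_zero])
  have jb : j ∈ bd d.G := d.sgb none
  have k0 : ∀ (S : Set Y), ∀ h ∈ Subgroup.closure (Set.range s), π (W S h) * p = π (W S 1) * p := by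
    intro S h hh
    conv_rhs => rw [← (r5 h hh).2, ← mul_assoc, wm _ _ _ (one_mem _) _ (r5 h hh).1]
    simp
  have k1 : ∀ N, (π (W {x | j x ≠ x ∧ N ≤ l x} 1) - π (W {x | j x ≠ x ∧ N ≤ l x} j)) * p =
      (1 - π (W Set.univ j)) * p := by
    intro N
    induction N with
    | zero =>
      rw [← (hsub _ (PW _ _ (one_mem _)) _ (PW _ _ jb)).2, ← h0, ← (hsub _ P1 _ (PW _ _ jb)).2]
      congr 2
      ext f x
      simp only [ContinuousLinearMap.sub_apply, lp.coeFn_sub, Pi.sub_apply, W_apply,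
        ContinuousLinearMap.one_apply, inv_one, Perm.one_apply, d.ji]
      by_cases h : j x = x
      · rw [if_neg fun a => a.1 h, if_neg fun a => a.1 h, if_pos (Set.mem_univ _), h, sub_self,
          sub_self]
      · rw [if_pos ⟨h, Nat.zero_le _⟩, if_pos ⟨h, Nat.zero_le _⟩, if_pos (Set.mem_univ _)]
    | succ N ih =>
      have sp : ∀ h ∈ bd d.G, π (W {x | j x ≠ x ∧ N ≤ l x} h) =
          π (W {x | j x ≠ x ∧ N + 1 ≤ l x} h) + π (W {u N} h) + π (W {j (u N)} h) := by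
        intro h hh
        rw [← (h1 _ (PW _ _ hh) _ (PW _ _ hh)).1,
          ← (h1 _ (Padd _ (PW _ _ hh) _ (PW _ _ hh)) _ (PW _ _ hh)).1]
        congr 1
        ext f x
        simp only [ContinuousLinearMap.add_apply, lp.coeFn_add, Pi.add_apply, W_apply]
        by_cases a : x ∈ ({u N} : Set Y)
        · have a' : x = u N := a
          rw [if_pos ⟨a' ▸ d.uv N, (a' ▸ d.lu N).ge⟩, if_neg fun b => by
            have := b.2; rw [a', d.lu] at this; omega, if_pos a,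
            if_neg fun b => d.uv N (b.symm.trans a), zero_add, add_zero]
        by_cases b : x ∈ ({j (u N)} : Set Y)
        · have b' : x = j (u N) := b
          rw [if_pos ⟨by rw [b', d.jj]; exact (d.uv N).symm, by rw [b', d.lj, d.lu]⟩,
            if_neg fun c => by have := c.2; rw [b', d.lj, d.lu] at this; omega, if_neg a, if_pos b,
            zero_add, zero_add]
        rw [if_neg a, if_neg b, add_zero, add_zero]
        refine if_congr ⟨fun c => ⟨c.1, ?_⟩, fun c => ⟨c.1, Nat.le_of_succ_le c.2⟩⟩ rfl rfl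
        refine Nat.lt_of_le_of_ne c.2 fun e => ?_
        have := d.jz x c.1
        rw [← e] at this
        exact this.elim a b
      have a1 : W {j (u N)} j = W {j (u N)} (g (N + 2)) := by
        ext f x
        simp only [W_apply]
        refine if_ctx_congr Iff.rfl (fun h => ?_) fun _ => rfl
        rw [Set.mem_singleton_iff.1 h, d.ji, d.jj, ← d.gv]
        simp
      have a2 : W {u N} j = W {u N} (g (N + 2))⁻¹ := by
        ext f x
        simp only [W_apply]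
        refine if_ctx_congr Iff.rfl (fun h => ?_) fun _ => rfl
        rw [Set.mem_singleton_iff.1 h, d.ji, inv_inv, d.gv]
      rw [← ih, sp _ (one_mem _), sp _ jb, a1, a2]
      simp only [sub_mul, add_mul, k0 _ _ (d.gc _), k0 _ _ (inv_mem (d.gc _))]
      abel
  have k2 : ∀ N : ℕ, ((N + 1 : ℕ) : ℝ) * ‖π (W {x | j x ≠ x ∧ N ≤ l x} 1) * p‖ ^ 2 ≤
      ‖star p * p‖ := by
    intro N
    refine orthN (N + 1) (fun k => π (W {x | (g k)⁻¹ x ∈ {x | j x ≠ x ∧ N ≤ l x}} 1))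
      (fun k => ?_) (fun k => ?_) (fun k hk m hm h => ?_) ?_ fun k => ?_
    · rw [← h3 _ (PW _ _ (one_mem _)), W_star]; rfl
    · rw [wm _ _ _ (one_mem _) _ (one_mem _)]
      congr 2
      exact Set.inter_self _
    · rw [wm _ _ _ (one_mem _) _ (one_mem _), ← sub_self (1 : A), ← h0, ← (hsub _ P1 _ P1).2,
        sub_self]
      congr 1
      ext f x
      rw [W_apply, if_neg]
      · rfl
      rintro ⟨⟨a1, a2⟩, b1, -⟩
      have e1 := d.jz _ a1
      have e2 := d.jz _ b1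
      rw [d.cl _ (inv_mem (d.gc k))] at e1 a2
      rw [d.cl _ (inv_mem (d.gc m))] at e2
      exact h (d.gu (l x) k m (by omega) (by omega) _ _ e1 e2 (by simp))
    · rw [← h3 _ (PW _ _ (one_mem _)), W_star, inv_one, wm _ _ _ (one_mem _) _ (one_mem _)]
      congr 2
      exact Set.inter_self _
    · have a := r5 _ (d.gc k)
      have a' := r5 _ (inv_mem (d.gc k))
      have c : π (W {x | (g k)⁻¹ x ∈ {x | j x ≠ x ∧ N ≤ l x}} 1) = π (W Set.univ (g k)) *
          π (W {x | j x ≠ x ∧ N ≤ l x} 1) * π (W Set.univ (g k)⁻¹) := by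
        rw [wm _ _ _ a.1 _ (one_mem _), wm _ _ _ (mul_mem a.1 (one_mem _)) _ a'.1]
        simp
      have c' : star p * π (W Set.univ (g k)) = star p := by
        conv_rhs => rw [← a'.2, star_mul, ws _ a'.1, inv_inv]
      rw [c, ← mul_assoc, ← mul_assoc, c', mul_assoc, a'.2]
  have k3 : ∀ N : ℕ, ‖(1 - π (W Set.univ j)) * p‖ ≤
      2 * ‖π (W {x | j x ≠ x ∧ N ≤ l x} 1) * p‖ := by
    intro N
    have a : π (W {x | j x ≠ x ∧ N ≤ l x} j) =
        π (W Set.univ j) * π (W {x | j x ≠ x ∧ N ≤ l x} 1) := by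
      rw [wm _ _ _ jb _ (one_mem _), mul_one]
      congr 2
      ext x
      simp [d.ji, d.jj, d.lj, eq_comm]
    have b : ‖π (W Set.univ j)‖ ≤ 1 := by
      have := CStarRing.norm_star_mul_self (x := π (W Set.univ j))
      rw [ws _ jb, wm _ _ _ (inv_mem jb) _ jb, inv_mul_cancel] at this
      simp only [Set.mem_univ, Set.setOf_true, Set.inter_self, W_one, h0] at this
      have c : ‖(1 : A)‖ ≤ 1 := by
        have := CStarRing.norm_star_mul_self (x := (1 : A))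
        rw [star_one, one_mul] at this
        nlinarith [norm_nonneg (1 : A)]
      nlinarith [norm_nonneg (π (W Set.univ j))]
    rw [← k1 N, a, sub_mul, mul_assoc]
    refine (norm_sub_le _ _).trans ?_
    have := (norm_mul_le (π (W Set.univ j)) _).trans (mul_le_mul_of_nonneg_right b
      (norm_nonneg (π (W {x | j x ≠ x ∧ N ≤ l x} 1) * p)))
    linarith
  by_contra hc
  have hc' := pow_pos (norm_pos_iff.2 hc) 2
  obtain ⟨N, hN⟩ := exists_nat_gt (4 * ‖star p * p‖ / ‖(1 - π (W Set.univ j)) * p‖ ^ 2)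
  rw [div_lt_iff₀ hc'] at hN
  have a := k2 N
  have b := pow_le_pow_left₀ (norm_nonneg _) (k3 N) 2
  push_cast at a
  nlinarith [mul_le_mul_of_nonneg_left b (Nat.cast_nonneg (α := ℝ) N),
    sq_nonneg ‖π (W {x | j x ≠ x ∧ N ≤ l x} 1) * p‖]

end Pool.Agent.Lib.helper23.KazE
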