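import Mathlib
import Pool.Agent.Lib.helper23.KazE
import Pool.Agent.Lib.helper23.KazD

set_option autoImplicit false

namespace Pool.Agent.Lib.helper23.KazF

open KazA KazB KazC KazE Equiv

variable {Y : Type}

theorem opext [DecidableEq Y] {S T : L2 Y →L[ℂ] L2 Y}
    (h : ∀ x y, S (lp.single 2 y 1) x = T (lp.single 2 y 1) x) : S = T := by
  refine lp.ext_continuousLinearMap (by simp) fun y => ContinuousLinearMap.ext_ring ?_
  exact lp.ext (funext fun x => h x y)

noncomputable def tw (A B : Set Y) (T : L2 Y →L[ℂ] L2 Y) : L2 Y →L[ℂ] L2 Y :=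
  T - (2 : ℂ) • (W A 1 * T * W B 1 + W B 1 * T * W A 1)

open Classical in
noncomputable def sn (A B : Set Y) (x y : Y) : ℂ :=
  if (x ∈ A ∧ y ∈ B) ∨ (x ∈ B ∧ y ∈ A) then -1 else 1

open Classical in
theorem M_single [DecidableEq Y] (B : Set Y) (y : Y) :
    W B 1 (lp.single 2 y (1 : ℂ)) = if y ∈ B then lp.single 2 y 1 else 0 := by
  ext x
  rw [W_single]
  by_cases h' : y = x
  · subst h'
    by_cases h : y ∈ B <;> simp [h]
  · by_cases h : y ∈ B <;> simp [h, h', Ne.symm h', lp.single_apply]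

theorem tw_entry [DecidableEq Y] {A B : Set Y} (h : ∀ x, x ∈ A → x ∉ B) (T : L2 Y →L[ℂ] L2 Y)
    (x y : Y) : tw A B T (lp.single 2 y 1) x = sn A B x y * T (lp.single 2 y 1) x := by
  simp only [tw, ContinuousLinearMap.sub_apply, ContinuousLinearMap.smul_apply,
    ContinuousLinearMap.add_apply, ContinuousLinearMap.mul_apply, lp.coeFn_sub, lp.coeFn_smul,
    lp.coeFn_add, Pi.sub_apply, Pi.smul_apply, Pi.add_apply, W_apply, M_single, sn, inv_one,
    Perm.one_apply]
  by_cases a : x ∈ A <;> by_cases b : x ∈ B <;> by_cases c : y ∈ A <;> by_cases e : y ∈ B <;>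
    first
      | exact absurd b (h x a)
      | exact absurd e (h y c)
      | (simp only [a, b, c, e, if_true, if_false, map_zero, lp.coeFn_zero, Pi.zero_apply,
          and_self, and_true, and_false, or_self, or_true, true_or, smul_eq_mul]; ring)

theorem tw_star (A B : Set Y) (T : L2 Y →L[ℂ] L2 Y) : star (tw A B T) = tw A B (star T) := by
  have : ∀ S : Set Y, star (W S 1) = W S 1 := fun S => by rw [W_star]; rfl
  simp only [tw, star_sub, star_smul, star_add, star_mul, this, mul_assoc, star_ofNat]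
  rw [add_comm]

theorem tw_sub (A B : Set Y) (S T : L2 Y →L[ℂ] L2 Y) : tw A B (S - T) = tw A B S - tw A B T := by
  simp only [tw, mul_sub, sub_mul]
  module

theorem tw_smul (A B : Set Y) (c : ℝ) (T : L2 Y →L[ℂ] L2 Y) : tw A B (c • T) = c • tw A B T := by
  simp only [tw, mul_smul_comm, smul_mul_assoc, smul_sub, smul_add, smul_comm c (2 : ℂ)]

theorem tw_sum {ι : Type} (A B : Set Y) (t : Finset ι) (F : ι → L2 Y →L[ℂ] L2 Y) :
    tw A B (∑ i ∈ t, F i) = ∑ i ∈ t, tw A B (F i) := by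
  simp only [tw, Finset.mul_sum, Finset.sum_mul, Finset.sum_sub_distrib, Finset.smul_sum,
    smul_add, Finset.sum_add_distrib]

theorem tw_sq [DecidableEq Y] {A B : Set Y} (h : ∀ x, x ∈ A → x ∉ B) (T : L2 Y →L[ℂ] L2 Y)
    (hT : ∀ x y z, T (lp.single 2 x 1) z ≠ 0 → T (lp.single 2 y 1) z ≠ 0 →
      sn A B z x * sn A B z y = sn A B x y) :
    star (tw A B T) * tw A B T = tw A B (star T * T) := by
  refine opext fun x y => ?_
  have e : ∀ S : L2 Y →L[ℂ] L2 Y, (star S * S) (lp.single 2 y 1) x =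
      ∑' z, inner ℂ (S (lp.single 2 x 1) z) (S (lp.single 2 y 1) z) := fun S => by
    rw [← entry, ContinuousLinearMap.mul_apply, ContinuousLinearMap.star_eq_adjoint,
      ContinuousLinearMap.adjoint_inner_right, lp.inner_eq_tsum]
  rw [tw_entry h, e, e, ← tsum_mul_left]
  refine tsum_congr fun z => ?_
  rw [tw_entry h, tw_entry h]
  by_cases a : T (lp.single 2 x 1) z = 0
  · simp [a]
  by_cases b : T (lp.single 2 y 1) z = 0
  · simp [b]
  have c : (starRingEnd ℂ) (sn A B z x) = sn A B z x := by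
    unfold sn; split_ifs <;> simp
  rw [← hT x y z a b]
  simp only [RCLike.inner_apply, map_mul, c]
  ring

theorem arith (n r a b c p q : ℕ) (hn : 12 * r ≤ n) (hp : p ≤ r) (hq : q ≤ r) (ha : a ≤ n + 2)
    (hb : b ≤ n + 2) (hc : c ≤ n + 2)
    (h1 : a ≤ c + p ∧ c ≤ a + p ∨ a + (n + 3) ≤ c + p ∨ c + (n + 3) ≤ a + p)
    (h2 : b ≤ c + q ∧ c ≤ b + q ∨ b + (n + 3) ≤ c + q ∨ c + (n + 3) ≤ b + q) :
    (3 * a < n + 2 ∧ 2 * (n + 2) < 3 * b ∨ 2 * (n + 2) < 3 * a ∧ 3 * b < n + 2) ↔
    ¬ ((3 * c < n + 2 ∧ 2 * (n + 2) < 3 * a ∨ 2 * (n + 2) < 3 * c ∧ 3 * a < n + 2) ↔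
      (3 * c < n + 2 ∧ 2 * (n + 2) < 3 * b ∨ 2 * (n + 2) < 3 * c ∧ 3 * b < n + 2)) := by
  rcases h1 with h1 | h1 | h1 <;> rcases h2 with h2 | h2 | h2 <;> omega

theorem sgn3 (P Q R : Prop) {_ : Decidable P} {_ : Decidable Q} {_ : Decidable R} (h : R ↔ ¬ (P ↔ Q)) :
    (if P then (-1 : ℂ) else 1) * (if Q then -1 else 1) = if R then -1 else 1 := by
  by_cases P <;> by_cases Q <;> simp_all

theorem invol {A : Type*} [CStarAlgebra A] [PartialOrder A] [StarOrderedRing A] {J : A}
    (J1 : star J = J) (J2 : J * J = 1) :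
    0 ≤ 1 - J ∧ ∀ p, star p * (1 - J) * p = 0 → J * p = p := by
  have kj : star (1 - J) * (1 - J) = (2 : ℝ) • (1 - J) := by
    rw [star_sub, star_one, J1, mul_sub, sub_mul, sub_mul, J2]
    simp only [one_mul, mul_one]
    module
  refine ⟨?_, fun p hp => ?_⟩
  · have := smul_nonneg (by norm_num : (0 : ℝ) ≤ 1 / 2) (star_mul_self_nonneg (1 - J))
    rwa [kj, smul_smul, show (1 / 2 : ℝ) * 2 = 1 by norm_num, one_smul] at this
  · have : star ((1 - J) * p) * ((1 - J) * p) = 0 := by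
      rw [star_mul, mul_assoc, ← mul_assoc (star (1 - J)), kj, smul_mul_assoc, mul_smul_comm,
        ← mul_assoc, hp, smul_zero]
    rw [CStarRing.star_mul_self_eq_zero_iff, sub_mul, one_mul, sub_eq_zero] at this
    exact this.symm

variable {s : Fin 3 → Perm Y} {j : Perm Y} {l φ : Y → ℕ} {u : ℕ → Y} {g : ℕ → Perm Y}

theorem cyc (d : Dat s j l φ u g) {x y : Y} (p : d.G.Walk x y) : l x = l y ∧
    (φ x ≤ φ y + p.length ∧ φ y ≤ φ x + p.length ∨ φ x + (l x + 3) ≤ φ y + p.length ∨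
      φ y + (l x + 3) ≤ φ x + p.length) := by
  induction p with
  | nil => simp
  | @cons a b c h p ih =>
    have h1 := d.ladj _ _ h
    have b1 := d.fb a
    have b2 := d.fb b
    have b3 := d.fb c
    have h2 : φ a ≤ φ b + 1 ∧ φ b ≤ φ a + 1 ∨ φ a = 0 ∧ φ b = l a + 2 ∨
        φ b = 0 ∧ φ a = l a + 2 := by
      obtain ⟨h, _ | ⟨i, k⟩, rfl⟩ := h
      · rcases d.jz a h.symm with e | e
        · exact Or.inr (Or.inl ⟨by rw [e, d.fu], (congrArg (fun t => φ (j t)) e).trans (d.fv _)⟩)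
        · exact Or.inr (Or.inr ⟨(congrArg (fun t => φ (j t)) e).trans (by rw [d.jj, d.fu]),
            (congrArg φ e).trans (d.fv _)⟩)
      · refine Or.inl ⟨?_, d.fs _ _ _⟩
        have := d.fs ((s i ^ (k.1 + 1)) a) i (4 - k.1)
        rwa [← Perm.mul_apply, ← pow_add, show 4 - k.1 + (k.1 + 1) = 5 by omega, d.s5] at this
    rw [SimpleGraph.Walk.length_cons]
    omega

theorem nosos [DecidableEq Y] (d : Dat s j l φ u g) (c : ℝ) (hc : 0 < c) (m : ℕ)
    (ξ : Fin m → L2 Y →L[ℂ] L2 Y) (hξ : ∀ k, ∃ R : ℕ, ∀ x y : Y,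
      inner ℂ (lp.single 2 y (1 : ℂ) : L2 Y) (ξ k (lp.single 2 x (1 : ℂ))) ≠ 0 →
        d.G.edist x y ≤ (R : ℕ∞)) :
    Lap s j * Lap s j - c • Lap s j ≠ ∑ k, star (ξ k) * ξ k := by
  classical
  intro hs
  choose R hR using hξ
  obtain ⟨n0, hn0⟩ := exists_nat_gt ((4 / c) ^ 2)
  obtain ⟨n, hn1, hn2⟩ : ∃ n, n0 ≤ n ∧ 12 * (Finset.univ.sup R + 1) ≤ n := ⟨_, le_max_left _ _,
    le_max_right _ _⟩
  let A : Set Y := {x | l x = n ∧ 3 * φ x < n + 2}
  let B : Set Y := {x | l x = n ∧ 2 * (n + 2) < 3 * φ x}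
  have AB : ∀ x, x ∈ A → x ∉ B := fun x a b => by
    have := a.2; have := b.2; omega
  have sq : ∀ T : L2 Y →L[ℂ] L2 Y, (∀ x y : Y, T (lp.single 2 x (1 : ℂ)) y ≠ 0 →
      d.G.edist x y ≤ (Finset.univ.sup R + 1 : ℕ)) →
      star (tw A B T) * tw A B T = tw A B (star T * T) := by
    intro T hT
    refine tw_sq AB T fun x y z a b => ?_
    obtain ⟨p, hp⟩ := SimpleGraph.exists_walk_of_edist_ne_top
      (ne_top_of_le_ne_top (ENat.coe_ne_top _) (hT _ _ a))
    obtain ⟨q, hq⟩ := SimpleGraph.exists_walk_of_edist_ne_top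
      (ne_top_of_le_ne_top (ENat.coe_ne_top _) (hT _ _ b))
    have p1 : p.length ≤ Finset.univ.sup R + 1 := by exact_mod_cast hp.trans_le (hT _ _ a)
    have q1 : q.length ≤ Finset.univ.sup R + 1 := by exact_mod_cast hq.trans_le (hT _ _ b)
    have p2 := cyc d p
    have q2 := cyc d q
    have b1 := d.fb x
    have b2 := d.fb y
    have b3 := d.fb z
    by_cases hz : l z = n
    · rw [p2.1, hz] at b1
      rw [q2.1, hz] at b2
      rw [hz] at b3
      have := arith n _ _ _ _ _ _ hn2 p1 q1 b1 b2 b3 (by rw [← hz, ← p2.1]; exact p2.2)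
        (by rw [← hz, ← q2.1]; exact q2.2)
      unfold sn
      refine sgn3 _ _ _ ?_
      simp only [A, B, Set.mem_setOf_eq, p2.1, q2.1, hz, true_and]
      exact this
    · simp [sn, A, B, p2.1, q2.1, hz]
  have sq1 : ∀ α x y, W Set.univ (sg s j α) (lp.single 2 x (1 : ℂ)) y ≠ 0 →
      d.G.edist x y ≤ (Finset.univ.sup R + 1 : ℕ) := by
    intro α x y h
    rw [W_single] at h
    obtain rfl : sg s j α x = y := by
      by_contra hc
      exact h (if_neg fun a => hc a.2)
    by_cases e : x = sg s j α x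
    · rw [← e]; simp
    · exact (SimpleGraph.edist_eq_one_iff_adj.2 (show d.G.Adj _ _ from ⟨e, α, rfl⟩)).le.trans
        (by simp)
  obtain ⟨r1, -, r3, r4, -⟩ := rep ⊤ (W Set.univ) W_one (fun g _ h _ => U_mul g h)
    (fun g _ => U_star g) s j (fun _ => trivial) trivial d.s5 d.j2 d.hz _ rfl
  have e := sum_sg (s := s) (j := j) (W Set.univ)
  have hL : star (Lap s j) = Lap s j :=
    (IsSelfAdjoint.of_nonneg (by rw [Lap, e]; exact add_nonneg r1 r3)).star_eq
  have t0 : ∀ i k, tw A B (W Set.univ (s i ^ k)) = W Set.univ (s i ^ k) := by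
    intro i k
    refine opext fun x y => ?_
    rw [tw_entry AB, W_single]
    split_ifs with h
    · obtain ⟨-, rfl⟩ := h
      have a1 := d.fs y i k
      have a2 := d.fs ((s i ^ k) y) i (4 * k)
      rw [← Perm.mul_apply, ← pow_add, show 4 * k + k = 5 * k by omega, pow_mul, d.s5, one_pow,
        Perm.one_apply] at a2
      simp only [sn, A, B, Set.mem_setOf_eq]
      rw [if_neg (by omega), one_mul]
    · simp
  have t1 : tw A B 1 = 1 := by simpa [W_one] using t0 0 0
  have J1 : star (tw A B (W Set.univ j)) = tw A B (W Set.univ j) := by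
    rw [tw_star, U_star, d.ji]
  have J2 : tw A B (W Set.univ j) * tw A B (W Set.univ j) = 1 := by
    have := sq _ (sq1 none)
    simp only [sg] at this
    rwa [J1, U_star, ← U_mul, inv_mul_cancel, W_one, t1] at this
  have J3 : ∀ k : L2 Y, tw A B (W Set.univ j) k (u n) = -k (j (u n)) := by
    intro k
    have a1 : u n ∈ A := ⟨d.lu n, by rw [d.fu]; omega⟩
    have a2 : j (u n) ∈ B := ⟨(d.lj _).trans (d.lu n), by rw [d.fv]; omega⟩
    simp only [tw, ContinuousLinearMap.sub_apply, ContinuousLinearMap.smul_apply,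
      ContinuousLinearMap.add_apply, ContinuousLinearMap.mul_apply, lp.coeFn_sub, lp.coeFn_smul,
      lp.coeFn_add, Pi.sub_apply, Pi.smul_apply, Pi.add_apply, W_apply, inv_one,
      Perm.one_apply, d.ji, if_pos a1, if_pos a2, if_neg (AB _ a1), if_pos (Set.mem_univ _),
      smul_eq_mul]
    ring
  have J4 : ∀ x, j x = x → tw A B (W Set.univ j) (lp.single 2 x 1) = lp.single 2 x 1 := by
    intro x hx
    ext y
    rw [tw_entry AB, U_single, hx, lp.single_apply, Pi.single_apply]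
    split_ifs with h
    · rw [h, sn, if_neg, one_mul]
      rintro (a | a)
      · exact AB _ a.1 a.2
      · exact AB _ a.2 a.1
    · simp
  have e' : tw A B (Lap s j) = (∑ i, ∑ k : Fin 4, (1 - W Set.univ (s i ^ (k.1 + 1)))) +
      (1 - tw A B (W Set.univ j)) := by
    rw [Lap, tw_sum, Fintype.sum_option, Fintype.sum_prod_type, add_comm]
    simp only [tw_sub, t1, sg, t0]
  have hpos : 0 ≤ tw A B (Lap s j) * tw A B (Lap s j) - c • tw A B (Lap s j) := by
    have a := sq (Lap s j) fun x y h => by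
      rw [← entry, Lap_entry] at h
      obtain ⟨α, -, h⟩ := Finset.exists_ne_zero_of_sum_ne_zero h
      by_cases hx : y = x
      · simp [hx]
      · refine sq1 α x y ?_
        have : sg s j α x = y := by
          by_contra hc
          exact h (by rw [if_neg hx, if_neg (Ne.symm hc), sub_self])
        rw [W_single, if_pos ⟨trivial, this⟩]
        simp
    rw [tw_star, hL] at a
    rw [a, ← tw_smul, ← tw_sub, hs, tw_sum]
    refine Finset.sum_nonneg fun k _ => ?_
    rw [← sq (ξ k) fun x y h => (hR k x y (by rwa [entry])).trans (by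
      exact_mod_cast (Finset.le_sup (f := R) (Finset.mem_univ k)).trans (Nat.le_succ _))]
    exact star_mul_self_nonneg _
  generalize tw A B (W Set.univ j) = J at *
  generalize tw A B (Lap s j) = L at *
  obtain ⟨K0, K1⟩ := invol J1 J2
  have L0 : 0 ≤ L := e' ▸ add_nonneg r1 K0
  obtain ⟨T, t1, t2, -⟩ := pinv hc (.of_nonneg L0) (gap_of_sq L0 hpos)
  obtain ⟨k1, k2⟩ := ker_of_sum (p := 1 - T * L) r1 K0 (by
    rw [← e', mul_assoc, mul_sub, t2, mul_one, sub_self, mul_zero])
  have k3 := K1 _ k2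
  have hO : {x | ∃ h ∈ Subgroup.closure (Set.range s), h (u n) = x}.Finite :=
    (d.lf n).subset (by rintro _ ⟨h, hh, rfl⟩; exact (d.cl h hh _).trans (d.lu n))
  have mO : ∀ x, x ∈ hO.toFinset ↔ ∃ h ∈ Subgroup.closure (Set.range s), h (u n) = x := by simp
  generalize hO.toFinset = O at mO
  have O1 : ∀ x ∈ O, l x = n := fun x hx => by
    obtain ⟨h, hh, rfl⟩ := (mO x).1 hx
    exact (d.cl h hh _).trans (d.lu n)
  have O2 : n + 1 ≤ O.card := by
    rw [← Finset.card_range (n + 1)]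
    exact Finset.card_le_card_of_injOn (fun k => g k (u n)) (fun k _ => (mO _).2 ⟨_, d.gc k, rfl⟩)
      fun k hk m hm h => d.gu n k m (by simpa [Nat.lt_succ_iff] using hk)
        (by simpa [Nat.lt_succ_iff] using hm) _ _ (Or.inl rfl) (Or.inl rfl) h
  let f : L2 Y := ∑ x ∈ O, lp.single 2 x 1
  have f1 : ∀ h ∈ Subgroup.closure (Set.range s), W Set.univ h f = f := by
    intro h hh
    simp only [f, map_sum, U_single]
    refine Finset.sum_equiv h (fun x => ?_) fun x _ => rfl
    simp only [mO]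
    constructor
    · rintro ⟨k, hk, rfl⟩
      exact ⟨h * k, mul_mem hh hk, rfl⟩
    · rintro ⟨k, hk, e⟩
      exact ⟨h⁻¹ * k, mul_mem (inv_mem hh) hk, by simp [e]⟩
  have f2 : ‖L f‖ ≤ 4 := by
    have a : L f = (1 - J) (lp.single 2 (u n) 1 + lp.single 2 (j (u n)) 1) := by
      have f1' : ∀ i k, W Set.univ (s i ^ k) f = f := fun i k =>
        f1 _ (pow_mem (Subgroup.subset_closure (Set.mem_range_self i)) _)
      rw [e', ContinuousLinearMap.add_apply]
      simp only [ContinuousLinearMap.sum_apply, ContinuousLinearMap.sub_apply,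
        ContinuousLinearMap.one_apply, f1', sub_self, Finset.sum_const_zero, zero_add]
      simp only [f, map_sum, ← Finset.sum_sub_distrib]
      rw [Finset.sum_eq_add (u n) (j (u n)) (d.uv n).symm (fun x hx hne => ?_)
        (fun h => absurd ((mO _).2 ⟨1, one_mem _, rfl⟩) h)
        fun h => absurd ((mO _).2 ⟨_, d.gc _, d.gv n⟩) h, map_add]
      · abel
      rw [J4 x, sub_self]
      by_contra hc
      have := d.jz x hc
      rw [O1 x hx] at this
      exact this.elim hne.1 hne.2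
    have a2 : ‖(lp.single 2 (u n) 1 + lp.single 2 (j (u n)) 1 : L2 Y)‖ ≤ 2 :=
      (norm_add_le _ _).trans (by simp; norm_num)
    have a3 : ‖J‖ ≤ 1 := by
      have := CStarRing.norm_star_mul_self (x := J)
      rw [J1, J2] at this
      have c : ‖(1 : L2 Y →L[ℂ] L2 Y)‖ ≤ 1 := ContinuousLinearMap.norm_id_le
      nlinarith [norm_nonneg J]
    rw [a, ContinuousLinearMap.sub_apply, ContinuousLinearMap.one_apply]
    refine (norm_sub_le _ _).trans ?_
    have := (J.le_opNorm _).trans (mul_le_mul a3 a2 (norm_nonneg _) zero_le_one)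
    linarith
  have f3 : inner ℂ f ((1 - T * L) f) = 0 := by
    have a1 : ∀ h ∈ Subgroup.closure (Set.range s), ∀ y,
        (1 - T * L) f (h y) = (1 - T * L) f y := by
      intro h hh y
      conv_rhs => rw [← (r4 _ k1 _ (inv_mem hh)).2, ContinuousLinearMap.mul_apply, W_apply]
      rw [if_pos (Set.mem_univ _), inv_inv]
    have a2 := J3 ((1 - T * L) f)
    rw [← ContinuousLinearMap.mul_apply, k3, ← d.gv, a1 _ (d.gc _), self_eq_neg] at a2
    generalize (1 - T * L) f = k at a1 a2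
    simp only [f, sum_inner, entry]
    refine Finset.sum_eq_zero fun x hx => ?_
    obtain ⟨h, hh, rfl⟩ := (mO x).1 hx
    rw [a1 h hh, a2]
  have f4 : ‖f‖ ≤ 4 / c := by
    rw [ContinuousLinearMap.sub_apply, inner_sub_right, sub_eq_zero, ContinuousLinearMap.one_apply,
      inner_self_eq_norm_sq_to_K] at f3
    have a := norm_inner_le_norm (𝕜 := ℂ) f ((T * L) f)
    rw [← f3] at a
    simp only [norm_pow, norm_algebraMap', norm_norm, ContinuousLinearMap.mul_apply] at a
    have a2 : ‖T (L f)‖ ≤ 4 / c := (T.le_opNorm _).trans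
      ((mul_le_mul t1 f2 (norm_nonneg _) (by positivity)).trans_eq (by ring))
    by_contra hc
    nlinarith [norm_nonneg f, norm_nonneg (T (L f))]
  have f5 : (O.card : ℝ) ≤ ‖f‖ ^ 2 := by
    have := lp.sum_rpow_le_norm_rpow (by simp) f O
    simp only [ENNReal.toReal_ofNat, Real.rpow_ofNat] at this
    refine le_trans (le_of_eq ?_) this
    rw [Finset.card_eq_sum_ones]
    push_cast
    refine Finset.sum_congr rfl fun x hx => ?_
    have : f x = 1 := by
      simp only [f, lp.coeFn_sum, Finset.sum_apply, lp.single_apply,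
        Pi.single_apply, Finset.sum_ite_eq, hx, if_true]
    simp [this]
  have : ((n0 + 1 : ℕ) : ℝ) ≤ O.card := by exact_mod_cast (Nat.succ_le_succ hn1).trans O2
  push_cast at this
  nlinarith [pow_le_pow_left₀ (norm_nonneg f) f4 2]

end Pool.Agent.Lib.helper23.KazF
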