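import Mathlib
import Pool.Agent.Lib.helper23.KazE
import Pool.Agent.Lib.helper23.KazD

set_option autoImplicit false

namespace Pool.Agent.Lib.helper23.KazG

open KazC KazD KazE Equiv Polynomial

noncomputable def uu (n : ℕ) : X0 := ⟨(n + 2, false), Pi.single 1 1⟩

noncomputable def gg (k : ℕ) : Perm X0 := E 0 1 (n1 0) (X ^ k)

def lv (x : X0) : ℕ := x.1.1 - 2

open Classical in
noncomputable def jf (x : X0) : X0 :=
  if x = uu (lv x) then gg (lv x + 2) (uu (lv x))
  else if x = gg (lv x + 2) (uu (lv x)) then uu (lv x) else x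

noncomputable def ph (x : X0) : ℕ :=
  sInf {m | ∀ i, ∃ p : (ZMod 5)[X], p.natDegree ≤ m ∧ AdjoinRoot.mk _ p = x.2 i}

theorem ph_mem (x : X0) :
    x.1.1 ∈ {m | ∀ i, ∃ p : (ZMod 5)[X], p.natDegree ≤ m ∧ AdjoinRoot.mk _ p = x.2 i} := by
  intro i
  obtain ⟨p, hp⟩ := AdjoinRoot.mk_surjective (x.2 i)
  refine ⟨p %ₘ X ^ (x.1.1 + 1), Nat.le_of_lt_succ ?_, ?_⟩
  · have := natDegree_modByMonic_lt p (monic_X_pow (R := ZMod 5) (x.1.1 + 1)) (by
      intro h
      simpa using congrArg natDegree h)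
    rwa [natDegree_X_pow] at this
  · rw [← hp, AdjoinRoot.mk_eq_mk]
    exact ⟨-(p /ₘ X ^ (x.1.1 + 1)), by
      rw [modByMonic_eq_sub_mul_div]; ring⟩

theorem ph_E (i j : Fin 3) (h : j ≠ i) (f : (ZMod 5)[X]) (hf : f.natDegree ≤ 1) (x : X0) :
    ph (E i j h f x) ≤ ph x + 1 := by
  have := Nat.sInf_mem ⟨_, ph_mem x⟩
  choose p p1 p2 using this
  refine Nat.sInf_le fun a => ?_
  by_cases ha : a = i
  · subst ha
    refine ⟨p a + f * p j, (natDegree_add_le _ _).trans (max_le ((p1 a).trans (Nat.le_succ _))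
      (natDegree_mul_le.trans ?_)), by
        simp only [E_apply, Function.update_self, ← p2]
        exact (map_add _ _ _).trans (congrArg _ (map_mul _ _ _))⟩
    have := p1 j
    unfold ph
    omega
  · exact ⟨p a, (p1 a).trans (Nat.le_succ _), by
      simp only [E_apply, Function.update_of_ne ha]
      exact p2 a⟩

theorem ph_u (n : ℕ) : ph (uu n) = 0 := by
  refine Nat.le_zero.1 (Nat.sInf_le fun a => ?_)
  by_cases ha : a = 1
  · exact ⟨1, by simp, (map_one _).trans (by simp [uu, ha]; rfl)⟩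
  · exact ⟨0, by simp, (map_zero _).trans (by simp [uu, ha]; rfl)⟩

theorem ph_v (n : ℕ) : ph (gg (n + 2) (uu n)) = n + 2 := by
  refine le_antisymm (Nat.sInf_le (ph_mem (gg (n + 2) (uu n)))) ?_
  obtain ⟨p, p1, p2⟩ := Nat.sInf_mem ⟨_, ph_mem (gg (n + 2) (uu n))⟩ 0
  refine le_trans (le_natDegree_of_ne_zero ?_) p1
  have : AdjoinRoot.mk (X ^ (n + 2 + 1) : (ZMod 5)[X]) p = AdjoinRoot.mk _ (X ^ (n + 2)) := by
    refine p2.trans ?_
    simp [gg, uu, E_apply]
  rw [AdjoinRoot.mk_eq_mk, X_pow_dvd_iff] at this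
  have := this (n + 2) (Nat.lt_succ_self _)
  rw [coeff_sub, coeff_X_pow_self, sub_eq_zero] at this
  rw [this]
  exact one_ne_zero

theorem uv (n : ℕ) : gg (n + 2) (uu n) ≠ uu n := fun h => by
  have := ph_v n
  rw [h, ph_u] at this
  omega

theorem jf_u (n : ℕ) : jf (uu n) = gg (n + 2) (uu n) := if_pos rfl

theorem jf_v (n : ℕ) : jf (gg (n + 2) (uu n)) = uu n := (if_neg (uv n)).trans (if_pos rfl)

theorem jf_z (x : X0) (h : jf x ≠ x) : x = uu (lv x) ∨ x = jf (uu (lv x)) := by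
  by_contra hc
  rw [not_or, jf_u] at hc
  exact h ((if_neg hc.1).trans (if_neg hc.2))

theorem jf2 : Function.Involutive jf := by
  intro x
  by_cases h : jf x = x
  · rw [h, h]
  · rcases jf_z x h with e | e
    · rw [e, jf_u, jf_v]
    · rw [e, jf_u, jf_v, jf_u]

theorem ph_s (x : X0) (i : Fin 3) (k : ℕ) : ph ((s0 i ^ k) x) ≤ ph x + 1 := by
  rw [s0, E_pow]
  refine ph_E _ _ _ _ ((natDegree_smul_le _ _).trans ?_) x
  fin_cases i <;> simp

theorem dat : Dat s0 jf2.toPerm lv ph uu gg := by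
  have h0 : ∀ x i k, jf x = (s0 i ^ k) x → jf x = x := by
    intro x i k h
    by_contra hc
    have a1 := ph_s x i k
    have a2 := ph_s ((s0 i ^ k) x) i (4 * k)
    rw [← Perm.mul_apply, ← pow_add, show 4 * k + k = 5 * k by omega, pow_mul, data0.s5, one_pow,
      Perm.one_apply] at a2
    rw [← h] at a1 a2
    rcases jf_z x hc with e | e
    · rw [e, jf_u, ph_v, ph_u] at a1
      omega
    · rw [e, jf2, jf_u, ph_v, ph_u] at a2
      omega
  refine ⟨data0.s5, Equiv.ext jf2, data0.hz, ?_, fun n => ?_, fun _ _ => rfl, fun x => ?_,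
    fun _ => rfl, jf_z, data0.gc, fun n => (jf_u n).symm, fun n k m a b x y hx hy h => ?_,
    ph_s, fun x => (Nat.sInf_le (ph_mem x)).trans (by unfold lv; omega), ph_u,
    fun n => (congrArg ph (jf_u n)).trans (ph_v n)⟩
  · rintro x (_ | a) (_ | b) h h'
    · rfl
    · exact absurd (h0 x _ _ h) h'
    · exact absurd (h.trans (h0 x _ _ h.symm)) h'
    · exact data0.inj x (some a) (some b) h h'
  · refine ((Set.finite_le_nat (n + 2)).biUnion fun m _ => data0.lf m).subset fun x hx => ?_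
    refine Set.mem_biUnion (x := x.1.1) ?_ rfl
    simp only [lv, Set.mem_setOf_eq] at hx ⊢
    omega
  · by_cases h : jf x = x
    · exact congrArg lv h
    · rcases jf_z x h with e | e
      · exact (congrArg (fun t => lv (jf t)) e).trans ((congrArg lv (jf_u _)).trans rfl)
      · exact (congrArg (fun t => lv (jf t)) e).trans ((congrArg lv (jf2 _)).trans rfl)
  · have e : ∀ x, x = uu n ∨ x = jf (uu n) → ∃ p : (ZMod 5)[X],
        (∀ k ≤ n, p.coeff k = 0) ∧ x = E 0 1 (n1 0) p (uu n) := by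
      rintro x (rfl | rfl)
      · exact ⟨0, by simp, by rw [E_zero]; rfl⟩
      · exact ⟨X ^ (n + 2), fun k hk => by rw [coeff_X_pow, if_neg (by omega)], jf_u n⟩
    obtain ⟨p, p1, rfl⟩ := e x hx
    obtain ⟨q, q1, rfl⟩ := e y hy
    rw [gg, gg, ← Perm.mul_apply, ← Perm.mul_apply, E_add, E_add] at h
    simp only [E_apply, uu] at h
    have h1 := congrFun (eq_of_heq (Sigma.mk.inj h).2) 0
    simp only [Function.update_self, add_right_inj, Pi.single_eq_same, mul_one,
      AdjoinRoot.mk_eq_mk, X_pow_dvd_iff] at h1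
    by_contra hc
    simpa [coeff_X_pow, hc, p1 k a, q1 k a] using h1 k (by omega)

end Pool.Agent.Lib.helper23.KazG
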