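import Mathlib
import Pool.Agent.Lib.helper23.KazD

set_option autoImplicit false

namespace Pool.Agent.Lib.helper23.KazH

open KazA KazB KazC Equiv

/-- generators satisfying the relations that give a spectral gap -/
structure Gen {Γ : Type} [Group Γ] (s : Fin 3 → Γ) : Prop where
  s5 : ∀ i, s i ^ 5 = 1
  hz : ∀ i, ∃ z : Γ, z ^ 5 = 1 ∧ Commute z (s i) ∧ Commute z (s (i + 1)) ∧
    s (i + 1) * s i = z * s i * s (i + 1)
  top : Subgroup.closure (Set.range s) = ⊤

theorem expand {Γ : Type} [Group Γ] [Fintype Γ] [DecidableEq Γ] {s : Fin 3 → Γ} (d : Gen s)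
    (S : Finset Γ) (hS : 2 * S.card ≤ Fintype.card Γ) :
    (S.card : ℝ) ≤ 4 * ∑ i, ∑ k : Fin 4,
      ((S.filter fun x => (s i ^ (k.1 + 1))⁻¹ * x ∉ S).card : ℝ) := by
  let w : Γ → L2 Γ →L[ℂ] L2 Γ := fun g => W Set.univ (MulAction.toPermHom Γ Γ g)
  have wa : ∀ g f x, w g f x = f (g⁻¹ * x) := fun g f x => by
    simp only [w, W_apply, Set.mem_univ, if_true, ← map_inv]
    rfl
  obtain ⟨r1, r2, -, r4, -⟩ := rep ⊤ w (by simp only [w, map_one, W_one])
    (fun g _ h _ => by simp only [w, map_mul, U_mul]) (fun g _ => by simp only [w, U_star, map_inv])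
    s 1 (fun _ => trivial) trivial d.s5 (mul_one 1) d.hz _ rfl
  set D := ∑ i, ∑ k : Fin 4, (1 - w (s i ^ (k.1 + 1))) with hD
  obtain ⟨T, -, t1, t2, t3⟩ := pinv (by norm_num) (.of_nonneg r1) (gap_of_sq r1 r2)
  have t4 : T * D * (T * D) = T * D := by rw [mul_assoc, t1]
  generalize T * D = q at *
  have hp := r4 (1 - q) (by rw [mul_assoc, mul_sub, t1, mul_one, sub_self, mul_zero])
  let f : L2 Γ := ⟨fun x => if x ∈ S then 1 else 0, Memℓp.all _⟩
  have hf : ∀ x, f x = if x ∈ S then 1 else 0 := fun _ => rfl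
  have hi : ∀ u : L2 Γ, inner ℂ f u = ∑ x ∈ S, u x := fun u => by
    rw [lp.inner_eq_tsum, tsum_fintype]
    simp [hf]
  obtain ⟨a, ha⟩ : ∃ a, ∀ x, ((1 - q) f) x = a := ⟨((1 - q) f) 1, fun x => by
    conv_lhs => rw [← (hp x (d.top ▸ trivial)).2, ContinuousLinearMap.mul_apply, wa,
      inv_mul_cancel]⟩
  have h1 : inner ℂ ((1 - q) f) ((1 - q) f) = inner ℂ f ((1 - q) f) := by
    rw [← ContinuousLinearMap.adjoint_inner_right, ← ContinuousLinearMap.star_eq_adjoint,
      ← ContinuousLinearMap.mul_apply, star_sub, star_one, t2.star_eq,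
      show (1 - q) * (1 - q) = 1 - q by simp [mul_sub, sub_mul, t4]]
  rw [hi, lp.inner_eq_tsum, tsum_fintype] at h1
  simp only [ha, Finset.sum_const, Finset.card_univ, nsmul_eq_mul, inner_self_eq_norm_sq_to_K,
    Complex.coe_algebraMap] at h1
  have h2 := congrArg Complex.re h1
  rw [← Complex.ofReal_pow] at h2
  simp only [Complex.mul_re, Complex.natCast_re, Complex.natCast_im, zero_mul, sub_zero,
    Complex.ofReal_re] at h2
  have h3 : a.re ≤ 1 / 2 := by
    by_contra hc
    push Not at hc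
    have e1 := Complex.re_le_norm a
    have e2 : (2 * S.card : ℝ) ≤ Fintype.card Γ := by exact_mod_cast hS
    have e3 : (0 : ℝ) < Fintype.card Γ := by exact_mod_cast Fintype.card_pos
    nlinarith [mul_pos e3 (sub_pos.2 hc), mul_le_mul e1 e1 (by linarith) (norm_nonneg _)]
  have h4 := ((ContinuousLinearMap.nonneg_iff_isPositive _).1 t3).re_inner_nonneg_right f
  have h5 : q f = f - (1 - q) f := by simp
  have h6 : ∀ g, inner ℂ f ((1 - w g) f) = (S.filter fun x => g⁻¹ * x ∉ S).card := fun g => by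
    rw [hi, Finset.card_filter]
    push_cast
    refine Finset.sum_congr rfl fun x hx => ?_
    change f x - w g f x = _
    rw [wa, hf, hf, if_pos hx]
    split_ifs <;> simp
  have h7 : inner ℂ f f = S.card := by
    rw [hi, Finset.sum_congr rfl fun x hx => (hf x).trans (if_pos hx)]
    simp
  rw [ContinuousLinearMap.sub_apply, inner_sub_right, ← Complex.coe_smul,
    ContinuousLinearMap.smul_apply, h5, inner_smul_right, inner_sub_right, h7, hi ((1 - q) f), hD] at h4
  simp only [ContinuousLinearMap.sum_apply, inner_sum, h6, ha] at h4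
  simp at h4
  nlinarith [mul_le_mul_of_nonneg_left h3 (Nat.cast_nonneg (α := ℝ) S.card)]

theorem groups (n : ℕ) : ∃ (Γ : Type) (_ : Group Γ) (_ : Fintype Γ) (s : Fin 3 → Γ),
    Gen s ∧ n + 2 ≤ Fintype.card Γ := by
  classical
  obtain ⟨s, j, τ, l, b, u, g, d⟩ := KazD.data
  let C := Subgroup.closure (Set.range s)
  have sC : ∀ i, s i ∈ C := fun i => Subgroup.subset_closure ⟨i, rfl⟩
  let φ : C →* Perm {x // l x = n + 1} :=
    { toFun := fun c => c.1.subtypePerm fun x => by rw [((d.cl _ c.2).1 x).1]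
      map_one' := rfl
      map_mul' := fun _ _ => rfl }
  haveI : Finite {x // l x = n + 1} := d.lf (n + 1)
  letI := Fintype.ofFinite φ.range
  have hc : n + 2 ≤ Fintype.card φ.range := by
    rw [← Fintype.card_fin (n + 2)]
    refine Fintype.card_le_of_injective (fun k => φ.rangeRestrict ⟨g k, d.gc k⟩) fun k m h => ?_
    exact Fin.ext (d.gu (n + 1) k m (Nat.le_of_lt_succ k.2) (Nat.le_of_lt_succ m.2)
      (congrArg (fun e : φ.range => (e.1 ⟨u (n + 1), d.lu _⟩).1) h))
  have G : Gen fun i => φ.rangeRestrict ⟨s i, sC i⟩ := by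
    refine ⟨fun i => ?_, fun i => ?_, ?_⟩
    · rw [← map_pow, ← map_one φ.rangeRestrict]
      exact congrArg _ (Subtype.ext (d.s5 i))
    · obtain ⟨z, a, b, c, e⟩ := d.hz i
      have zH : z ∈ C := by
        have : z = s (i + 1) * s i * (s i * s (i + 1))⁻¹ := by rw [e]; group
        rw [this]
        exact C.mul_mem (C.mul_mem (sC _) (sC _)) (C.inv_mem (C.mul_mem (sC _) (sC _)))
      refine ⟨φ.rangeRestrict ⟨z, zH⟩, ?_, Commute.map (by exact Subtype.ext b.eq) _,
        Commute.map (by exact Subtype.ext c.eq) _, ?_⟩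
      · rw [← map_pow, ← map_one φ.rangeRestrict]
        exact congrArg _ (Subtype.ext a)
      · simp only [← map_mul]
        exact congrArg _ (Subtype.ext e)
    · rw [eq_top_iff, ← Subgroup.map_top_of_surjective _ φ.rangeRestrict_surjective,
        ← Subgroup.closure_closure_coe_preimage, MonoidHom.map_closure]
      refine Subgroup.closure_mono ?_
      rintro _ ⟨⟨_, h⟩, ⟨i, rfl⟩, rfl⟩
      exact ⟨i, rfl⟩
  exact ⟨φ.range, inferInstance, inferInstance, _, G, hc⟩

end Pool.Agent.Lib.helper23.KazH
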