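import Mathlib

set_option autoImplicit false

open Finset

namespace Pool.Agent.Lib.helper23.LiftA

abbrev F : Type := FreeGroup (Fin 40)

/-- equivariance for generators gives equivariance for words -/
theorem equi {A B : Type} (α : Fin 40 → Equiv.Perm A) (β : Fin 40 → Equiv.Perm B) (π : A → B)
    (h : ∀ i a, π (α i a) = β i (π a)) (w : F) :
    ∀ a, π (FreeGroup.lift α w a) = FreeGroup.lift β w (π a) := by
  induction w using FreeGroup.induction_on with
  | C1 => intro a; simp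
  | of i => intro a; simp [h]
  | inv_of i _ =>
    intro a
    simp only [map_inv, FreeGroup.lift_apply_of]
    have := h i ((α i)⁻¹ a)
    simp only [Equiv.Perm.coe_inv, Equiv.apply_symm_apply] at this
    simp [this]
  | mul x y hx hy => intro a; simp [hx, hy]

/-- induction along a word -/
theorem wind (P : F → ℕ → Prop) (h0 : P 1 0)
    (h1 : ∀ w m i, P w m → P (FreeGroup.of i * w) (m + 1))
    (h2 : ∀ w m i, P w m → P ((FreeGroup.of i)⁻¹ * w) (m + 1)) (L : List (Fin 40 × Bool)) :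
    P (FreeGroup.mk L) L.length := by
  induction L with
  | nil => exact h0
  | cons a L ih =>
    obtain ⟨i, b⟩ := a
    have e : FreeGroup.mk ((i, b) :: L) = FreeGroup.mk [(i, b)] * FreeGroup.mk L := by
      rw [FreeGroup.mul_mk]; rfl
    rw [e]
    cases b
    · have : FreeGroup.mk [(i, false)] = (FreeGroup.of i)⁻¹ := by
        rw [FreeGroup.of, FreeGroup.inv_mk]; rfl
      rw [this]
      exact h2 _ _ i ih
    · exact h1 _ _ i ih

theorem wind' (P : F → ℕ → Prop) (h0 : P 1 0)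
    (h1 : ∀ w m i, P w m → P (FreeGroup.of i * w) (m + 1))
    (h2 : ∀ w m i, P w m → P ((FreeGroup.of i)⁻¹ * w) (m + 1)) (w : F) : P w w.norm := by
  have := wind P h0 h1 h2 w.toWord
  rwa [FreeGroup.mk_toWord] at this

theorem ball_fin (r : ℕ) : {w : F | w.norm ≤ r}.Finite :=
  Set.Finite.preimage (f := FreeGroup.toWord) (s := {l | l.length ≤ r})
    FreeGroup.toWord_injective.injOn (List.finite_length_le _ r)

/-- finite actions of large girth -/
theorem girth (n : ℕ) : ∃ (V : Type) (_ : Fintype V) (_ : Nonempty V) (σ : Fin 40 → Equiv.Perm V),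
    ∀ (w : F) (v : V), w.norm ≤ n → FreeGroup.lift σ w v = v → w = 1 := by
  classical
  haveI : Fintype {w : F // w.norm ≤ n} := (ball_fin n).fintype
  have h1 : ∀ i : Fin 40, ∃ p : Equiv.Perm {w : F // w.norm ≤ n}, ∀ x : {w : F // w.norm ≤ n},
      (FreeGroup.of i * x.1).norm ≤ n → (p x).1 = FreeGroup.of i * x.1 := by
    intro i
    let e : {x : {w : F // w.norm ≤ n} // (FreeGroup.of i * x.1).norm ≤ n} ≃
        {x : {w : F // w.norm ≤ n} // ((FreeGroup.of i)⁻¹ * x.1).norm ≤ n} :=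
      { toFun := fun x => ⟨⟨_, x.2⟩, by simpa using x.1.2⟩
        invFun := fun x => ⟨⟨_, x.2⟩, by simpa using x.1.2⟩
        left_inv := fun x => by ext; simp
        right_inv := fun x => by ext; simp }
    exact ⟨e.extendSubtype, fun x hx => by rw [e.extendSubtype_apply_of_mem x hx]; rfl⟩
  choose p hp using h1
  have key : ∀ w : F, w.norm ≤ w.norm ∧
      (w.norm ≤ n → (FreeGroup.lift p w ⟨1, by simp⟩).1 = w) := by
    refine wind' (fun w m => w.norm ≤ m ∧ (m ≤ n → (FreeGroup.lift p w ⟨1, by simp⟩).1 = w))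
      ⟨by simp, fun _ => by simp⟩ ?_ ?_
    · rintro w m i ⟨a, b⟩
      have c : (FreeGroup.of i * w).norm ≤ m + 1 :=
        (FreeGroup.norm_mul_le _ _).trans (by rw [FreeGroup.norm_of]; omega)
      refine ⟨c, fun hm => ?_⟩
      have b' := b (by omega)
      simp only [map_mul, FreeGroup.lift_apply_of, Equiv.Perm.mul_apply]
      rw [hp i _ (by rw [b']; omega), b']
    · rintro w m i ⟨a, b⟩
      have c : ((FreeGroup.of i)⁻¹ * w).norm ≤ m + 1 :=
        (FreeGroup.norm_mul_le _ _).trans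
          (by rw [FreeGroup.norm_inv_eq, FreeGroup.norm_of]; omega)
      refine ⟨c, fun hm => ?_⟩
      have b' := b (by omega)
      simp only [map_mul, map_inv, FreeGroup.lift_apply_of, Equiv.Perm.mul_apply]
      have : p i ⟨(FreeGroup.of i)⁻¹ * w, by omega⟩ = FreeGroup.lift p w ⟨1, by simp⟩ := by
        ext1
        rw [b', hp i _ (by simp; omega)]
        simp
      rw [← this]
      simp
  refine ⟨Equiv.Perm {w : F // w.norm ≤ n}, inferInstance, inferInstance,
    fun i => Equiv.mulLeft (p i), fun w v hw h => ?_⟩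
  have e := equi (fun i => Equiv.mulLeft (p i)) p (fun q => q (v⁻¹ ⟨1, by simp⟩))
    (fun i a => by simp) w v
  rw [h] at e
  simp only [Equiv.Perm.coe_inv, Equiv.apply_symm_apply] at e
  rw [← (key w).2 hw, ← e]

section cover

variable {V : Type} [Fintype V] [DecidableEq V] (σ : Fin 40 → Equiv.Perm V)

/-- the mod 2 homology cover -/
def cov (i : Fin 40) : Equiv.Perm (V × (V × Fin 40 → ZMod 2)) where
  toFun a := (σ i a.1, a.2 + Pi.single (a.1, i) 1)
  invFun a := ((σ i)⁻¹ a.1, a.2 - Pi.single ((σ i)⁻¹ a.1, i) 1)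
  left_inv a := by simp
  right_inv a := by simp

def J (a : V × (V × Fin 40 → ZMod 2)) (x : V) : ZMod 2 :=
  ∑ i, (a.2 (x, i) + a.2 ((σ i)⁻¹ x, i)) + if x = a.1 then 1 else 0

theorem J_cov (i : Fin 40) (a : V × (V × Fin 40 → ZMod 2)) : J σ (cov σ i a) = J σ a := by
  funext x
  have h1 : ∑ j, (Pi.single (a.1, i) 1 : V × Fin 40 → ZMod 2) (x, j) =
      if x = a.1 then 1 else 0 := by
    rw [sum_eq_single i (fun j _ hj => by simp [Pi.single_apply, hj]) (by simp)]
    simp [Pi.single_apply]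
  have h2 : ∑ j, (Pi.single (a.1, i) 1 : V × Fin 40 → ZMod 2) ((σ j)⁻¹ x, j) =
      if x = σ i a.1 then 1 else 0 := by
    rw [sum_eq_single i (fun j _ hj => by simp [Pi.single_apply, hj]) (by simp)]
    simp [Pi.single_apply, Equiv.symm_apply_eq]
  have h3 : ∀ t : ZMod 2, t + t = 0 := by decide
  change ∑ j, ((a.2 (x, j) + (Pi.single (a.1, i) 1 : V × Fin 40 → ZMod 2) (x, j)) +
    (a.2 ((σ j)⁻¹ x, j) + (Pi.single (a.1, i) 1 : V × Fin 40 → ZMod 2) ((σ j)⁻¹ x, j))) +
    (if x = σ i a.1 then 1 else 0) = _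
  simp only [J, sum_add_distrib, h1, h2]
  linear_combination h3 (if x = σ i a.1 then 1 else 0)

theorem J_word (w : F) (a : V × (V × Fin 40 → ZMod 2)) :
    J σ (FreeGroup.lift (cov σ) w a) = J σ a := by
  have := equi (cov σ) (fun _ => 1) (J σ) (fun i a => J_cov σ i a) w a
  rw [this]
  have h : FreeGroup.lift (fun _ : Fin 40 => (1 : Equiv.Perm (V → ZMod 2))) = 1 := by
    ext i; simp
  rw [h]; rfl

theorem fst_word (w : F) (a : V × (V × Fin 40 → ZMod 2)) :
    (FreeGroup.lift (cov σ) w a).1 = FreeGroup.lift σ w a.1 :=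
  equi (cov σ) σ Prod.fst (fun _ _ => rfl) w a

def df (c c' : V × Fin 40 → ZMod 2) : ℕ := (univ.filter fun e => c e ≠ c' e).card

theorem df_step (c c' : V × Fin 40 → ZMod 2) (e : V × Fin 40) (h : c e ≠ c' e) :
    df (c + Pi.single e 1) c' + 1 = df c c' := by
  have h3 : ∀ s t : ZMod 2, s ≠ t → s + 1 = t := by decide
  have : (univ.filter fun x => (c + Pi.single e 1 : V × Fin 40 → ZMod 2) x ≠ c' x) =
      (univ.filter fun x => c x ≠ c' x).erase e := by
    ext x
    by_cases hx : x = e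
    · subst hx; simp [h3 _ _ h]
    · simp [hx]
  rw [df, this, df, card_erase_add_one (by simp [h])]

theorem L1 (m : ℕ) : ∀ a a' : V × (V × Fin 40 → ZMod 2), J σ a = J σ a' → df a.2 a'.2 = m →
    ∃ w : F, w.norm ≤ m ∧ (FreeGroup.lift (cov σ) w a).1 = a'.1 ∧
      ∀ e, a.2 e = a'.2 e → (FreeGroup.lift (cov σ) w a).2 e = a.2 e := by
  induction m using Nat.strong_induction_on with
  | _ m ih =>
    intro a a' hJ hm
    by_cases hv : a.1 = a'.1
    · exact ⟨1, by simp, by simpa using hv, fun e _ => by simp⟩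
    have h1 : ∃ (g : F) (e : V × Fin 40), g.norm ≤ 1 ∧ a.2 e ≠ a'.2 e ∧
        (FreeGroup.lift (cov σ) g a).2 = a.2 + Pi.single e 1 := by
      by_contra hc
      push Not at hc
      have e1 : ∀ i, a.2 (a.1, i) = a'.2 (a.1, i) := fun i => by
        by_contra h
        exact hc (FreeGroup.of i) (a.1, i) (by simp) h (by simp [cov])
      have e2 : ∀ i, a.2 ((σ i)⁻¹ a.1, i) = a'.2 ((σ i)⁻¹ a.1, i) := fun i => by
        by_contra h
        refine hc (FreeGroup.of i)⁻¹ ((σ i)⁻¹ a.1, i) (by simp) h ?_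
        simp only [map_inv, FreeGroup.lift_apply_of]
        change a.2 - _ = _
        funext x
        have h3 : ∀ s t : ZMod 2, s - t = s + t := by decide
        exact h3 _ _
      have := congrFun hJ a.1
      simp only [J, e1, e2] at this
      simp [hv] at this
    obtain ⟨g, e, hg, he, hge⟩ := h1
    have h2 := df_step _ _ e he
    obtain ⟨w, w1, w2, w3⟩ := ih (m - 1) (by omega) (FreeGroup.lift (cov σ) g a) a'
      (by rw [J_word, hJ]) (by rw [hge]; omega)
    refine ⟨w * g, (FreeGroup.norm_mul_le _ _).trans (by omega), by simpa using w2, ?_⟩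
    intro x hx
    have hxe : x ≠ e := fun h => he (h ▸ hx)
    have : (FreeGroup.lift (cov σ) g a).2 x = a.2 x := by rw [hge]; simp [hxe]
    rw [map_mul, Equiv.Perm.mul_apply, w3 x (by rw [this, hx]), this]

theorem L2 (n : ℕ) (hσ : ∀ (w : F) (v : V), w.norm ≤ n → FreeGroup.lift σ w v = v → w = 1)
    (a a' : V × (V × Fin 40 → ZMod 2)) (hJ : J σ a = J σ a') (hv : a.1 = a'.1)
    (hm : df a.2 a'.2 ≤ n) : a = a' := by
  refine Prod.ext hv (funext fun e => ?_)
  by_contra he
  obtain ⟨x, i⟩ := e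
  have hJ' : J σ (x, a.2) = J σ (x, a'.2) := by
    funext y
    have := congrFun hJ y
    simp only [J, hv, add_left_inj] at this ⊢
    exact this
  have h2 := df_step _ _ _ he
  obtain ⟨w, w1, w2, w3⟩ := L1 σ _ (cov σ i (x, a.2)) (x, a'.2) (by rw [J_cov, hJ']) rfl
  have h3 : ∀ s t : ZMod 2, s ≠ t → s + 1 = t := by decide
  have e0 : (cov σ i (x, a.2)).2 (x, i) = a'.2 (x, i) := by simp [cov, h3 _ _ he]
  have w4 := w3 (x, i) e0
  have h4 : w * FreeGroup.of i = 1 := by
    refine hσ _ x ((FreeGroup.norm_mul_le _ _).trans ?_) ?_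
    · rw [FreeGroup.norm_of]
      change w.norm ≤ df (a.2 + Pi.single (x, i) 1) a'.2 at w1
      omega
    · rw [fst_word] at w2
      simpa [cov] using w2
  have h5 : FreeGroup.lift (cov σ) w (cov σ i (x, a.2)) = (x, a.2) := by
    have := congrArg (fun u => FreeGroup.lift (cov σ) u (x, a.2)) h4
    simpa using this
  rw [h5, e0] at w4
  exact he w4

theorem L3 (n : ℕ) (hσ : ∀ (w : F) (v : V), w.norm ≤ n → FreeGroup.lift σ w v = v → w = 1)
    (a a' : V × (V × Fin 40 → ZMod 2)) (hJ : J σ a = J σ a') (hm : df a.2 a'.2 ≤ n) :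
    ∃ w : F, w.norm ≤ df a.2 a'.2 ∧ FreeGroup.lift (cov σ) w a = a' := by
  obtain ⟨w, w1, w2, w3⟩ := L1 σ _ a a' hJ rfl
  refine ⟨w, w1, L2 σ n hσ _ _ (by rw [J_word, hJ]) w2 (le_trans (card_le_card ?_) hm)⟩
  intro e he
  simp only [mem_filter, mem_univ, true_and] at he ⊢
  exact fun h => he (by rw [w3 e h, h])

end cover

open symmDiff in
/-- finite actions of large girth with a wall structure that sees the local geometry -/
theorem walls (n : ℕ) : ∃ (W E : Type) (_ : Fintype W) (_ : Nonempty W) (_ : DecidableEq E)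
    (τ : Fin 40 → Equiv.Perm W) (T : W → Finset E),
    (∀ (w : F) (v : W), w.norm ≤ n → FreeGroup.lift τ w v = v → w = 1) ∧
    (∀ i v, (T v ∆ T (τ i v)).card ≤ 1) ∧
    ∀ v v', (T v ∆ T v').card ≤ n →
      ∃ w : F, w.norm ≤ (T v ∆ T v').card ∧ FreeGroup.lift τ w v = v' := by
  classical
  obtain ⟨V, _, ⟨v0⟩, σ, hσ⟩ := girth n
  let τ : Fin 40 → Equiv.Perm {a // J σ a = J σ (v0, 0)} := fun i =>
    (cov σ i).subtypePerm fun a => by rw [J_cov]
  have hτ : ∀ w (a : {a // J σ a = J σ (v0, 0)}),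
      (FreeGroup.lift τ w a).1 = FreeGroup.lift (cov σ) w a.1 :=
    equi τ (cov σ) Subtype.val fun _ _ => rfl
  have hT : ∀ c c' : V × Fin 40 → ZMod 2,
      ((univ.filter fun e => c e = 1) ∆ (univ.filter fun e => c' e = 1)).card = df c c' := by
    intro c c'
    have h3 : ∀ s t : ZMod 2, (s = 1 ∧ ¬ t = 1 ∨ t = 1 ∧ ¬ s = 1) ↔ s ≠ t := by decide
    refine congrArg card ?_
    ext e
    simp only [mem_symmDiff, mem_filter, mem_univ, true_and, h3]
  refine ⟨{a // J σ a = J σ (v0, 0)}, V × Fin 40, inferInstance, ⟨⟨_, rfl⟩⟩, inferInstance, τ,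
    fun a => univ.filter fun e => a.1.2 e = 1, fun w v hw h => ?_, fun i v => ?_,
    fun v v' h => ?_⟩
  · refine hσ w v.1.1 hw ?_
    rw [← fst_word, ← hτ, h]
  · rw [hT]
    refine (card_le_card (t := {(v.1.1, i)}) fun e he => ?_).trans (by simp)
    by_contra hc
    refine (mem_filter.1 he).2 ?_
    change _ = (v.1.2 + Pi.single (v.1.1, i) 1 : V × Fin 40 → ZMod 2) e
    simp [mem_singleton.not.1 hc]
  · rw [hT] at h ⊢
    obtain ⟨w, w1, w2⟩ := L3 σ n hσ v.1 v'.1 (v.2.trans v'.2.symm) h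
    exact ⟨w, w1, Subtype.ext (by rw [hτ, w2])⟩

end Pool.Agent.Lib.helper23.LiftA
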