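import Mathlib

set_option autoImplicit false

open Finset

namespace Pool.Agent.Lib.helper23.LiftB

variable {W : Type} [Fintype W] [DecidableEq W] (τ : Fin 40 → Equiv.Perm W)

def step (a : Fin 40 × Bool) (x : W) : W := if a.2 then τ a.1 x else (τ a.1)⁻¹ x

def vis : W → List (Fin 40 × Bool) → Finset W
  | v, [] => {v}
  | v, a :: L => insert v (vis (step τ a v) L)

theorem self_vis (v : W) (L : List (Fin 40 × Bool)) : v ∈ vis τ v L := by
  cases L <;> simp [vis]

theorem vis_insert (a : Fin 40 × Bool) (x : W) (L : List (Fin 40 × Bool)) :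
    ∀ v, x ∈ vis τ v L → ∃ L' : List (Fin 40 × Bool), L'.length = L.length + 2 ∧
      vis τ v L' = insert (step τ a x) (vis τ v L) := by
  have h0 : ∀ L : List (Fin 40 × Bool), ∃ L' : List (Fin 40 × Bool), L'.length = L.length + 2 ∧
      vis τ x L' = insert (step τ a x) (vis τ x L) := by
    intro L
    refine ⟨a :: (a.1, !a.2) :: L, rfl, ?_⟩
    have : step τ (a.1, !a.2) (step τ a x) = x := by
      obtain ⟨i, b⟩ := a
      cases b <;> simp [step]
    simp only [vis, this]
    rw [Finset.insert_comm, insert_eq_of_mem (self_vis τ x L)]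
  induction L with
  | nil =>
    intro v hv
    obtain rfl : x = v := by simpa [vis] using hv
    exact h0 _
  | cons b L ih =>
    intro v hv
    by_cases hx : x = v
    · subst hx; exact h0 _
    · obtain ⟨L', h1, h2⟩ := ih (step τ b v) (by simpa [vis, hx] using hv)
      exact ⟨b :: L', by simp [h1], by simp only [vis, h2]; rw [Finset.insert_comm]⟩

def perf (S Q : Finset W) (s : W → Fin 40 → Bool) (v : W) : Prop :=
  ∀ i, τ i v ∈ S ∧ s v i = xor (decide (v ∈ Q)) (decide (τ i v ∈ Q))

def bad (S : Finset W) (s : W → Fin 40 → Bool) : Prop :=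
  ∃ Q P : Finset W, P ⊆ S ∧ S.card < 2 * P.card ∧ ∀ v ∈ P, perf τ S Q s v

theorem bad_congr {S : Finset W} {s s' : W → Fin 40 → Bool} (h : ∀ v ∈ S, s v = s' v)
    (hb : bad τ S s) : bad τ S s' := by
  obtain ⟨Q, P, h1, h2, h3⟩ := hb
  exact ⟨Q, P, h1, h2, fun v hv i => by rw [← h v (h1 hv)]; exact h3 v hv i⟩

/-- minimal bad sets are connected -/
theorem conn {S : Finset W} {s : W → Fin 40 → Bool} (hb : bad τ S s)
    (hm : ∀ S' ⊂ S, ¬ bad τ S' s) {v : W} (hv : v ∈ S) :
    ∃ L : List (Fin 40 × Bool), L.length + 2 = 2 * S.card ∧ vis τ v L = S := by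
  classical
  obtain ⟨T, hT, hmax⟩ := exists_max_image (S.powerset.filter fun T =>
    ∃ L : List (Fin 40 × Bool), L.length + 2 = 2 * T.card ∧ vis τ v L = T) card
    ⟨{v}, mem_filter.2 ⟨by simpa using hv, [], by simp, rfl⟩⟩
  obtain ⟨hTS, L, hL, hLT⟩ := mem_filter.1 hT
  rw [mem_powerset] at hTS
  have hcl : ∀ a, ∀ x ∈ T, step τ a x ∈ S → step τ a x ∈ T := by
    intro a x hx hs
    by_contra hc
    obtain ⟨L', h1, h2⟩ := vis_insert τ a x L v (hLT ▸ hx)
    rw [hLT] at h2
    have := hmax (insert (step τ a x) T) (mem_filter.2 ⟨mem_powerset.2 (insert_subset hs hTS),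
      L', by rw [card_insert_of_notMem hc]; omega, h2⟩)
    rw [card_insert_of_notMem hc] at this
    omega
  by_cases hne : T = S
  · exact ⟨L, hne ▸ hL, hne ▸ hLT⟩
  exfalso
  obtain ⟨Q, P, h1, h2, h3⟩ := hb
  have c1 := card_sdiff_add_card_eq_card hTS
  have c2 := card_sdiff_add_card_inter P T
  by_cases hc : T.card < 2 * (P ∩ T).card
  · refine hm T (ssubset_of_subset_of_ne hTS hne) ⟨Q, P ∩ T, inter_subset_right, hc,
      fun x hx i => ⟨?_, (h3 x (mem_inter.1 hx).1 i).2⟩⟩
    exact hcl (i, true) x (mem_inter.1 hx).2 (h3 x (mem_inter.1 hx).1 i).1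
  · refine hm (S \ T) (sdiff_ssubset hTS ⟨v, hLT ▸ self_vis τ v L⟩) ⟨Q, P \ T,
      sdiff_subset_sdiff h1 subset_rfl, by omega, fun x hx i =>
        ⟨mem_sdiff.2 ⟨(h3 x (mem_sdiff.1 hx).1 i).1, fun hc => (mem_sdiff.1 hx).2 ?_⟩,
          (h3 x (mem_sdiff.1 hx).1 i).2⟩⟩
    have := hcl (i, false) _ hc (by simpa [step] using h1 (mem_sdiff.1 hx).1)
    simpa [step] using this

open Classical in
noncomputable def Pat (S : Finset W) : Finset (W → Fin 40 → Bool) :=
  univ.filter fun s => (∀ x, x ∉ S → s x = fun _ => false) ∧ bad τ S s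

theorem pat_card (S : Finset W) : (Pat τ S).card ≤ (2 ^ 22) ^ S.card := by
  classical
  have : Pat τ S ⊆ S.powerset.biUnion fun Q =>
      (S.powerset.filter fun P => S.card < 2 * P.card).biUnion fun P =>
        Fintype.piFinset fun x => if x ∈ S \ P then univ else
          {if x ∈ P then fun i => xor (decide (x ∈ Q)) (decide (τ i x ∈ Q)) else fun _ => false} := by
    intro s hs
    obtain ⟨h0, Q, P, h1, h2, h3⟩ := (mem_filter.1 hs).2
    refine mem_biUnion.2 ⟨Q ∩ S, mem_powerset.2 inter_subset_right, mem_biUnion.2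
      ⟨P, mem_filter.2 ⟨mem_powerset.2 h1, h2⟩, Fintype.mem_piFinset.2 fun x => ?_⟩⟩
    by_cases hP : x ∈ P
    · simp only [mem_sdiff, hP, not_true, and_false, if_false, if_true, mem_singleton]
      funext i
      rw [(h3 x hP i).2]
      simp [h1 hP, (h3 x hP i).1]
    · by_cases hS : x ∈ S
      · simp [hP, hS]
      · simp [hP, hS, h0 x hS]
  refine (card_le_card this).trans ((card_biUnion_le_card_mul _ _ (2 ^ S.card * (2 ^ 20) ^ S.card)
    fun Q _ => (card_biUnion_le_card_mul _ _ ((2 ^ 20) ^ S.card) fun P hP => ?_).trans ?_).trans ?_)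
  · obtain ⟨h1, h2⟩ := mem_filter.1 hP
    have c1 := card_sdiff_add_card_eq_card (mem_powerset.1 h1)
    rw [Fintype.card_piFinset]
    simp only [apply_ite card, card_singleton, prod_ite_mem, univ_inter, prod_const, card_univ,
      Fintype.card_fun, Fintype.card_bool, Fintype.card_fin]
    rw [← pow_mul, ← pow_mul]
    exact Nat.pow_le_pow_right (by norm_num) (by omega)
  · exact Nat.mul_le_mul_right _ ((card_filter_le _ _).trans (card_powerset S).le)
  · rw [card_powerset, ← mul_pow, ← mul_pow]
    norm_num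

open Classical in
noncomputable def Good (A : Finset W) : Finset (W → Fin 40 → Bool) :=
  univ.filter fun s => (∀ x, x ∉ A → s x = fun _ => false) ∧ ∀ S ⊆ A, ¬ bad τ S s

open Classical in
noncomputable def Cn (v : W) : Finset (Finset W) :=
  univ.filter fun S => ∃ L : List (Fin 40 × Bool), L.length + 2 = 2 * S.card ∧ vis τ v L = S

theorem geo (N : ℕ) : ∑ m ∈ range N, (1 / 2 : ℝ) ^ (m + 1) = 1 - (1 / 2) ^ N := by
  induction N with
  | zero => simp
  | succ N ih => rw [sum_range_succ, ih]; ring

theorem cn_sum (v : W) : ∑ S ∈ Cn τ v, (1 / 2 ^ 17 : ℝ) ^ S.card ≤ 1 := by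
  classical
  rw [← sum_fiberwise_of_maps_to (t := range (Fintype.card W)) (g := fun S => S.card - 1)]
  · refine le_trans (sum_le_sum fun m _ => ?_) ((geo (Fintype.card W)).trans_le (by simp))
    have h1 : ∀ S ∈ (Cn τ v).filter (fun S => S.card - 1 = m), S.card = m + 1 := by
      intro S hS
      obtain ⟨a, b⟩ := mem_filter.1 hS
      obtain ⟨L, c, -⟩ := (mem_filter.1 a).2
      omega
    have h2 : ((Cn τ v).filter (fun S => S.card - 1 = m)).card ≤ 80 ^ (2 * m) := by
      have : (Cn τ v).filter (fun S => S.card - 1 = m) ⊆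
          univ.image fun L : List.Vector (Fin 40 × Bool) (2 * m) => vis τ v L.1 := by
        intro S hS
        have := h1 S hS
        obtain ⟨L, c, d⟩ := (mem_filter.1 (mem_filter.1 hS).1).2
        exact mem_image.2 ⟨⟨L, by omega⟩, mem_univ _, d⟩
      refine (card_le_card this).trans (card_image_le.trans ?_)
      simp [card_vector]
    rw [sum_congr rfl fun S hS => by rw [h1 S hS], sum_const, nsmul_eq_mul]
    have h3 : (((Cn τ v).filter (fun S => S.card - 1 = m)).card : ℝ) ≤ 6400 ^ (m + 1) := by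
      have : (80 : ℕ) ^ (2 * m) ≤ 6400 ^ (m + 1) := by
        rw [pow_mul]
        exact Nat.pow_le_pow_right (by norm_num) (Nat.le_succ m)
      exact_mod_cast h2.trans this
    refine (mul_le_mul_of_nonneg_right h3 (by positivity)).trans ?_
    rw [← mul_pow]
    exact pow_le_pow_left₀ (by norm_num) (by norm_num) _
  · intro S hS
    obtain ⟨L, c, -⟩ := (mem_filter.1 hS).2
    have := card_le_univ S
    exact mem_range.2 (by omega)

theorem grow (N : ℕ) : ∀ A : Finset W, A.card = N → ∀ v, v ∉ A →
    2 ^ 39 * (Good τ A).card ≤ (Good τ (insert v A)).card := by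
  classical
  induction N using Nat.strong_induction_on with
  | _ N ih =>
  intro A hA v hv
  have h1 : ∀ S : Finset W, S ⊆ A → (2 ^ 39) ^ S.card * (Good τ (A \ S)).card ≤ (Good τ A).card := by
    intro S
    induction S using Finset.induction_on with
    | empty => simp
    | insert x S hx ihS =>
      intro hS
      have hxA : x ∈ A := hS (mem_insert_self _ _)
      refine le_trans ?_ (ihS ((subset_insert _ _).trans hS))
      rw [card_insert_of_notMem hx, pow_succ, mul_assoc]
      refine Nat.mul_le_mul_left _ ?_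
      have e : A \ S = insert x (A \ insert x S) := by
        ext y
        by_cases hy : y = x
        · simp [hy, hx, hxA]
        · simp [hy]
      rw [e]
      refine ih _ ?_ _ rfl x (by simp)
      rw [← hA]
      exact card_lt_card (sdiff_ssubset hS ⟨x, mem_insert_self _ _⟩)
  let Bd : Finset W → Finset (W → Fin 40 → Bool) := fun S =>
    (Pat τ S ×ˢ Good τ (A \ S.erase v)).image fun p x => if x ∈ S then p.1 x else p.2 x
  have h2 : (Good τ A ×ˢ (univ : Finset (Fin 40 → Bool))).image
      (fun p => Function.update p.1 v p.2) ⊆ Good τ (insert v A) ∪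
        ((Cn τ v).filter fun S => S ⊆ insert v A).biUnion Bd := by
    intro s hs
    obtain ⟨⟨g, a⟩, hg, rfl⟩ := mem_image.1 hs
    obtain ⟨g1, g2⟩ := (mem_filter.1 (mem_product.1 hg).1).2
    simp only at g1 g2 ⊢
    have g3 : ∀ S ⊆ A, ¬ bad τ S (Function.update g v a) := fun S hS hb =>
      g2 S hS (bad_congr τ (fun x hx => Function.update_of_ne (by
        rintro rfl; exact hv (hS hx)) _ _) hb)
    have g4 : ∀ x, x ∉ insert v A → Function.update g v a x = fun _ => false := by
      intro x hx
      rw [mem_insert, not_or] at hx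
      rw [Function.update_of_ne hx.1, g1 x hx.2]
    generalize Function.update g v a = s at g3 g4
    by_cases hG : ∀ S ⊆ insert v A, ¬ bad τ S s
    · exact mem_union_left _ (mem_filter.2 ⟨mem_univ _, g4, hG⟩)
    push Not at hG
    obtain ⟨S, hS, hmin⟩ := exists_min_image ((insert v A).powerset.filter fun S => bad τ S s) card
      (by obtain ⟨S, a, b⟩ := hG; exact ⟨S, mem_filter.2 ⟨mem_powerset.2 a, b⟩⟩)
    obtain ⟨s1, s2⟩ := mem_filter.1 hS
    rw [mem_powerset] at s1
    have hvS : v ∈ S := by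
      by_contra hc
      exact g3 S ((subset_insert_iff_of_notMem hc).1 s1) s2
    refine mem_union_right _ (mem_biUnion.2 ⟨S, mem_filter.2 ⟨mem_filter.2 ⟨mem_univ _,
      conn τ s2 (fun S' h' hb => ?_) hvS⟩, s1⟩, mem_image.2 ⟨(fun x => if x ∈ S then s x else
        fun _ => false, fun x => if x ∈ S then fun _ => false else s x), mem_product.2
        ⟨mem_filter.2 ⟨mem_univ _, fun x hx => by simp [hx],
          bad_congr τ (fun x hx => by simp [hx]) s2⟩, mem_filter.2 ⟨mem_univ _, ?_, ?_⟩⟩, ?_⟩⟩)
    · exact absurd (hmin S' (mem_filter.2 ⟨mem_powerset.2 (h'.subset.trans s1), hb⟩))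
        (not_le.2 (card_lt_card h'))
    · intro x hx
      by_cases hxS : x ∈ S
      · simp [hxS]
      · simp only [hxS, if_false]
        refine g4 x fun h => ?_
        rcases mem_insert.1 h with h | h
        · exact hxS (h ▸ hvS)
        · exact hx (mem_sdiff.2 ⟨h, fun h' => hxS (mem_of_mem_erase h')⟩)
    · intro S' hS' hb
      refine g3 S' (hS'.trans sdiff_subset) (bad_congr τ (fun x hx => ?_) hb)
      have := mem_sdiff.1 (hS' hx)
      have hxS : x ∉ S := fun h => this.2 (mem_erase.2 ⟨by rintro rfl; exact hv this.1, h⟩)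
      simp [hxS]
    · funext x
      by_cases hS : x ∈ S <;> simp [hS]
  have h3 : ((Good τ A ×ˢ (univ : Finset (Fin 40 → Bool))).image
      (fun p => Function.update p.1 v p.2)).card = (Good τ A).card * 2 ^ 40 := by
    rw [card_image_of_injOn, card_product]
    · simp
    · rintro ⟨g, a⟩ hg ⟨g', a'⟩ hg' h
      have e1 := (mem_filter.1 (mem_product.1 hg).1).2.1 v hv
      have e2 := (mem_filter.1 (mem_product.1 hg').1).2.1 v hv
      simp only at h e1 e2
      refine Prod.ext (funext fun x => ?_) (by simpa using congrFun h v)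
      by_cases hx : x = v
      · rw [hx]; exact e1.trans e2.symm
      · simpa [Function.update_of_ne hx] using congrFun h x
  have h4 : ∀ S ∈ (Cn τ v).filter fun S => S ⊆ insert v A,
      ((Bd S).card : ℝ) ≤ 2 ^ 39 * (Good τ A).card * (1 / 2 ^ 17 : ℝ) ^ S.card := by
    intro S hS
    obtain ⟨a, b⟩ := mem_filter.1 hS
    obtain ⟨L, -, d⟩ := (mem_filter.1 a).2
    have hvS : v ∈ S := d ▸ self_vis τ v L
    have c1 := h1 (S.erase v) (subset_insert_iff.1 b)
    have c2 : (Bd S).card ≤ (2 ^ 22) ^ S.card * (Good τ (A \ S.erase v)).card :=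
      card_image_le.trans (by rw [card_product]; exact Nat.mul_le_mul_right _ (pat_card τ S))
    rw [← card_erase_add_one hvS] at c2 ⊢
    generalize (S.erase v).card = m at c1 c2
    have c3 : ((2 : ℝ) ^ 39) ^ m * (Good τ (A \ S.erase v)).card ≤ (Good τ A).card := by
      exact_mod_cast c1
    have c4 : ((Bd S).card : ℝ) ≤ (2 ^ 22) ^ (m + 1) * (Good τ (A \ S.erase v)).card := by
      exact_mod_cast c2
    refine c4.trans (le_trans (le_of_eq ?_) (mul_le_mul_of_nonneg_right
      (mul_le_mul_of_nonneg_left c3 (by positivity)) (by positivity)))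
    have : ((2 : ℝ) ^ 22) ^ (m + 1) = (2 ^ 39) ^ (m + 1) * (1 / 2 ^ 17) ^ (m + 1) := by
      rw [← mul_pow]; norm_num
    rw [this]
    ring
  have h5 : ((((Cn τ v).filter fun S => S ⊆ insert v A).biUnion Bd).card : ℝ) ≤
      2 ^ 39 * (Good τ A).card := by
    have a : ((((Cn τ v).filter fun S => S ⊆ insert v A).biUnion Bd).card : ℝ) ≤
        ∑ S ∈ (Cn τ v).filter fun S => S ⊆ insert v A, ((Bd S).card : ℝ) := by
      exact_mod_cast card_biUnion_le
    refine a.trans ((sum_le_sum h4).trans ?_)
    rw [← mul_sum]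
    refine mul_le_of_le_one_right (by positivity) (le_trans ?_ (cn_sum τ v))
    exact sum_le_sum_of_subset_of_nonneg (filter_subset _ _) fun _ _ _ => by positivity
  have h6 := (card_le_card h2).trans (card_union_le _ _)
  rw [h3] at h6
  have h7 : (((Cn τ v).filter fun S => S ⊆ insert v A).biUnion Bd).card ≤
      2 ^ 39 * (Good τ A).card := by exact_mod_cast h5
  omega

/-- a signing without bad sets -/
theorem sign : ∃ s : W → Fin 40 → Bool, ∀ S, ¬ bad τ S s := by
  classical
  have : ∀ A : Finset W, 0 < (Good τ A).card := by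
    intro A
    induction A using Finset.induction_on with
    | empty =>
      refine card_pos.2 ⟨fun _ _ => false, mem_filter.2 ⟨mem_univ _, fun _ _ => rfl, ?_⟩⟩
      rintro S hS ⟨Q, P, h1, h2, -⟩
      have := card_le_card (h1.trans hS)
      simp only [card_empty] at this
      omega
    | insert x A hx ih =>
      have := grow τ _ A rfl x hx
      omega
  obtain ⟨s, hs⟩ := card_pos.1 (this univ)
  exact ⟨s, fun S => (mem_filter.1 hs).2.2 S (subset_univ _)⟩

end Pool.Agent.Lib.helper23.LiftB
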