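import Mathlib
import Pool.Agent.Lib.helper23.LiftB

set_option autoImplicit false

open Finset

namespace Pool.Agent.Lib.helper23.LiftC

open LiftB

def ep (b : Bool) : ℝ := if b then -1 else 1

theorem tri (a m : ℝ) (hm : 0 < m) (ha : a = 0 ∨ m ≤ |a|) :
    (Real.sign a = 0 ∧ a = 0) ∨ (Real.sign a = 1 ∧ m ≤ a) ∨ (Real.sign a = -1 ∧ a ≤ -m) := by
  rcases ha with rfl | ha
  · simp
  · rcases le_abs.1 ha with h | h
    · exact Or.inr (Or.inl ⟨Real.sign_of_pos (by linarith), h⟩)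
    · exact Or.inr (Or.inr ⟨Real.sign_of_neg (by linarith), by linarith⟩)

theorem layer (a b m : ℝ) (hm : 0 < m) (ha : a = 0 ∨ m ≤ |a|) (hb : b = 0 ∨ m ≤ |b|) :
    |a - m * Real.sign a - (b - m * Real.sign b)| + m * |Real.sign a - Real.sign b| ≤ |a - b| := by
  rcases tri a m hm ha with ⟨h, h1⟩ | ⟨h, h1⟩ | ⟨h, h1⟩ <;>
  rcases tri b m hm hb with ⟨h', h2⟩ | ⟨h', h2⟩ | ⟨h', h2⟩ <;>
  rcases abs_cases (a - m * Real.sign a - (b - m * Real.sign b)) with ⟨e1, f1⟩ | ⟨e1, f1⟩ <;>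
  rcases abs_cases (Real.sign a - Real.sign b) with ⟨e2, f2⟩ | ⟨e2, f2⟩ <;>
  rcases abs_cases (a - b) with ⟨e3, f3⟩ | ⟨e3, f3⟩ <;>
  rw [e1, e2, e3] <;> rw [h, h'] at f1 f2 ⊢ <;> linarith

theorem layer0 (a m : ℝ) (hm : 0 < m) (ha : a = 0 ∨ m ≤ |a|) :
    |a| = |a - m * Real.sign a| + m * |Real.sign a| := by
  rcases tri a m hm ha with ⟨h, h1⟩ | ⟨h, h1⟩ | ⟨h, h1⟩ <;>
  rcases abs_cases (a - m * Real.sign a) with ⟨e1, f1⟩ | ⟨e1, f1⟩ <;>
  rcases abs_cases (Real.sign a) with ⟨e2, f2⟩ | ⟨e2, f2⟩ <;>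
  rcases abs_cases a with ⟨e3, f3⟩ | ⟨e3, f3⟩ <;>
  rw [e1, e2, e3] <;> rw [h] at f1 f2 ⊢ <;> linarith

theorem sign_ep (b : Bool) (x : ℝ) : Real.sign (ep b * x) = ep b * Real.sign x := by
  cases b <;> simp [ep, Real.sign_neg]

theorem abs_ep (b : Bool) (x : ℝ) : |ep b * x| = |x| := by
  cases b <;> simp [ep]

variable {W : Type} [Fintype W] [DecidableEq W] (τ : Fin 40 → Equiv.Perm W)
  (s : W → Fin 40 → Bool)

theorem cheeger (hs : ∀ S, ¬ bad τ S s) (φ : W → ℝ) :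
    ∑ v, |Real.sign (φ v)| ≤
      2 * ∑ v, ∑ i, |Real.sign (φ (τ i v)) - ep (s v i) * Real.sign (φ v)| := by
  classical
  let S := univ.filter fun v => φ v ≠ 0
  let Q := univ.filter fun v => φ v < 0
  have h1 : ∑ v, |Real.sign (φ v)| = S.card := by
    rw [card_filter]
    push_cast
    refine sum_congr rfl fun v _ => ?_
    rcases lt_trichotomy (φ v) 0 with h | h | h
    · simp [Real.sign_of_neg h, h.ne]
    · simp [h]
    · simp [Real.sign_of_pos h, h.ne']
  have h2 : 2 * (S.filter (perf τ S Q s)).card ≤ S.card := by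
    by_contra hc
    exact hs S ⟨Q, _, filter_subset _ _, not_le.1 hc, fun v hv => (mem_filter.1 hv).2⟩
  have h3 := card_filter_add_card_filter_not (s := S) (perf τ S Q s)
  have h4 : ((S.filter fun v => ¬ perf τ S Q s v).card : ℝ) ≤
      ∑ v, ∑ i, |Real.sign (φ (τ i v)) - ep (s v i) * Real.sign (φ v)| := by
    rw [card_eq_sum_ones]
    push_cast
    refine le_trans (sum_le_sum fun v hv => ?_) (sum_le_sum_of_subset_of_nonneg (subset_univ _)
      fun _ _ _ => sum_nonneg fun _ _ => abs_nonneg _)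
    obtain ⟨a, b⟩ := mem_filter.1 hv
    obtain ⟨i, hi⟩ := not_forall.1 b
    refine le_trans ?_ (single_le_sum (f := fun i =>
      |Real.sign (φ (τ i v)) - ep (s v i) * Real.sign (φ v)|) (fun _ _ => abs_nonneg _) (mem_univ i))
    have a' : φ v ≠ 0 := (mem_filter.1 a).2
    simp only [S, Q, mem_filter, mem_univ, true_and] at hi
    rcases lt_or_gt_of_ne a' with h | h <;> rcases lt_trichotomy (φ (τ i v)) 0 with h' | h' | h' <;>
      cases hb : s v i <;>
      first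
        | (norm_num [ep, Real.sign_of_neg, Real.sign_of_pos, h, h']; done)
        | (simp [hb, h, h', h.le, h'.le, not_lt.2, h'.ne, h'.ne'] at hi)
  rw [h1]
  have : (S.card : ℝ) ≤ 2 * ((S.filter fun v => ¬ perf τ S Q s v).card : ℝ) := by
    exact_mod_cast (by omega)
  linarith

theorem l1 (hs : ∀ S, ¬ bad τ S s) (N : ℕ) : ∀ φ : W → ℝ,
    (univ.filter fun v => φ v ≠ 0).card = N →
    ∑ v, |φ v| ≤ 2 * ∑ v, ∑ i, |φ (τ i v) - ep (s v i) * φ v| := by
  classical
  induction N using Nat.strong_induction_on with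
  | _ N ih =>
  intro φ hN
  rcases (univ.filter fun v => φ v ≠ 0).eq_empty_or_nonempty with h0 | h0
  · have : ∀ v, φ v = 0 := fun v => by simpa using filter_eq_empty_iff.1 h0 (mem_univ v)
    simp [this]
  obtain ⟨x, hx, hmin⟩ := exists_min_image _ (fun v => |φ v|) h0
  have hx' : φ x ≠ 0 := (mem_filter.1 hx).2
  have hm : 0 < |φ x| := abs_pos.2 hx'
  have hφ : ∀ v, φ v = 0 ∨ |φ x| ≤ |φ v| := fun v => by
    by_cases h : φ v = 0
    · exact Or.inl h
    · exact Or.inr (hmin v (by simp [h]))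
  have h1 := ih _ (by
    rw [← hN]
    refine card_lt_card ⟨fun v hv => ?_, fun h => ?_⟩
    · simp only [mem_filter, mem_univ, true_and] at hv ⊢
      exact fun h => hv (by simp [h])
    · refine (mem_filter.1 (h hx)).2 ?_
      rcases lt_or_gt_of_ne hx' with h | h
      · simp [Real.sign_of_neg h, abs_of_neg h]
      · simp [Real.sign_of_pos h, abs_of_pos h])
    (fun v => φ v - |φ x| * Real.sign (φ v)) rfl
  have h2 := mul_le_mul_of_nonneg_left (cheeger τ s hs φ) hm.le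
  have h3 : ∑ v, |φ v| = ∑ v, |φ v - |φ x| * Real.sign (φ v)| +
      |φ x| * ∑ v, |Real.sign (φ v)| := by
    rw [mul_sum, ← sum_add_distrib]
    exact sum_congr rfl fun v _ => layer0 _ _ hm (hφ v)
  have h4 : ∑ v, ∑ i, |φ (τ i v) - |φ x| * Real.sign (φ (τ i v)) -
      ep (s v i) * (φ v - |φ x| * Real.sign (φ v))| +
      |φ x| * ∑ v, ∑ i, |Real.sign (φ (τ i v)) - ep (s v i) * Real.sign (φ v)| ≤
      ∑ v, ∑ i, |φ (τ i v) - ep (s v i) * φ v| := by
    rw [mul_sum, ← sum_add_distrib]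
    refine sum_le_sum fun v _ => ?_
    rw [mul_sum, ← sum_add_distrib]
    refine sum_le_sum fun i _ => ?_
    have := layer (φ (τ i v)) (ep (s v i) * φ v) _ hm (hφ _) (by
      rcases hφ v with h | h
      · simp [h]
      · exact Or.inr (by rwa [abs_ep]))
    rw [sign_ep] at this
    rw [mul_sub, mul_left_comm]
    exact this
  linarith

theorem sq_ineq (a b : ℝ) : abs (a * |a| - b * |b|) ≤ 160 * (a - b) ^ 2 + (a ^ 2 + b ^ 2) / 320 := by
  have h1 : abs (a * |a| - b * |b|) ≤ |a - b| * (|a| + |b|) := by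
    have e : a * |a| - b * |b| = (a - b) * |a| + b * (|a| - |b|) := by ring
    rw [e]
    refine (abs_add_le _ _).trans ?_
    rw [abs_mul, abs_mul, abs_abs]
    have := mul_le_mul_of_nonneg_left (abs_abs_sub_abs_le_abs_sub a b) (abs_nonneg b)
    linarith
  rw [← sq_abs (a - b), ← sq_abs a, ← sq_abs b]
  nlinarith [sq_nonneg (320 * |a - b| - (|a| + |b|)), sq_nonneg (|a| - |b|)]

theorem l2 (hs : ∀ S, ¬ bad τ S s) (ψ : W → ℝ) :
    ∑ v, ψ v ^ 2 ≤ 640 * ∑ v, ∑ i, (ψ (τ i v) - ep (s v i) * ψ v) ^ 2 := by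
  have h1 := l1 τ s hs _ (fun v => ψ v * |ψ v|) rfl
  have h2 : ∑ v, abs (ψ v * |ψ v|) = ∑ v, ψ v ^ 2 :=
    sum_congr rfl fun v _ => by rw [abs_mul, abs_abs, ← sq, sq_abs]
  have h3 : ∑ v, ∑ i, abs (ψ (τ i v) * |ψ (τ i v)| - ep (s v i) * (ψ v * |ψ v|)) ≤
      ∑ v, ∑ i, (160 * (ψ (τ i v) - ep (s v i) * ψ v) ^ 2 + (ψ (τ i v) ^ 2 + ψ v ^ 2) / 320) := by
    refine sum_le_sum fun v _ => sum_le_sum fun i _ => ?_
    have := sq_ineq (ψ (τ i v)) (ep (s v i) * ψ v)
    rw [abs_ep, mul_assoc, ← sq_abs (ep (s v i) * ψ v), abs_ep, sq_abs] at this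
    exact this
  have h4 : ∑ v, ∑ i, ψ (τ i v) ^ 2 = 40 * ∑ v, ψ v ^ 2 := by
    rw [sum_comm, sum_congr rfl fun i _ => Equiv.sum_comp (τ i) fun v => ψ v ^ 2]
    simp
  simp only [sum_add_distrib, ← mul_sum, ← sum_div, h4, sum_const, card_univ, Fintype.card_fin,
    nsmul_eq_mul] at h3
  simp only [h2] at h1
  push_cast at h3
  linarith

theorem hilb (hs : ∀ S, ¬ bad τ S s) {H : Type*} [NormedAddCommGroup H] [InnerProductSpace ℝ H]
    (h : W → H) : ∑ v, ‖h v‖ ^ 2 ≤ 640 * ∑ v, ∑ i, ‖h (τ i v) - ep (s v i) • h v‖ ^ 2 := by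
  haveI : FiniteDimensional ℝ (Submodule.span ℝ (Set.range h)) :=
    FiniteDimensional.span_of_finite ℝ (Set.finite_range h)
  let b := stdOrthonormalBasis ℝ (Submodule.span ℝ (Set.range h))
  let k : W → Submodule.span ℝ (Set.range h) := fun v => ⟨h v, Submodule.subset_span ⟨v, rfl⟩⟩
  have e1 : ∀ v, ‖h v‖ ^ 2 = ∑ j, (inner ℝ (b j) (k v)) ^ 2 := fun v => by
    rw [b.sum_sq_inner_right]; rfl
  have e2 : ∀ v i, ‖h (τ i v) - ep (s v i) • h v‖ ^ 2 =
      ∑ j, (inner ℝ (b j) (k (τ i v)) - ep (s v i) * inner ℝ (b j) (k v)) ^ 2 := fun v i => by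
    have := b.sum_sq_inner_right (k (τ i v) - ep (s v i) • k v)
    simp only [inner_sub_right, inner_smul_right] at this
    rw [this]; rfl
  simp only [e1, e2]
  rw [sum_comm, sum_congr rfl fun v _ => sum_comm, sum_comm (s := (univ : Finset W)), mul_sum]
  exact sum_le_sum fun j _ => l2 τ s hs fun v => inner ℝ (b j) (k v)

/-- a two-fold lift in which every Lipschitz map to a Hilbert space nearly identifies some pair -/
theorem lift2 [Nonempty W] : ∃ s : W → Fin 40 → Bool, ∀ {H : Type*} [NormedAddCommGroup H]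
    [InnerProductSpace ℝ H] (g : W × Bool → H) (K : ℝ),
    (∀ v b i, ‖g (τ i v, xor b (s v i)) - g (v, b)‖ ≤ K) →
      ∃ v, ‖g (v, false) - g (v, true)‖ ≤ 320 * K := by
  obtain ⟨s, hs⟩ := sign τ
  refine ⟨s, fun g K hK => ?_⟩
  have h1 := hilb τ s hs fun v => g (v, false) - g (v, true)
  have hK0 : 0 ≤ K := (norm_nonneg _).trans (hK (Classical.arbitrary W) true 0)
  have h2 : ∀ v i, ‖g (τ i v, false) - g (τ i v, true) -
      ep (s v i) • (g (v, false) - g (v, true))‖ ^ 2 ≤ (2 * K) ^ 2 := by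
    intro v i
    refine pow_le_pow_left₀ (norm_nonneg _) ?_ 2
    have a := hK v false i
    have b := hK v true i
    cases hb : s v i <;> simp only [hb, Bool.xor_false, Bool.false_xor, Bool.xor_self] at a b
    · refine le_trans (le_of_eq ?_) ((norm_sub_le _ _).trans ((add_le_add a b).trans (two_mul K).ge))
      congr 1
      simp only [ep, Bool.false_eq_true, if_false, one_smul]
      abel
    · refine le_trans (le_of_eq ?_) ((norm_sub_le _ _).trans ((add_le_add b a).trans (two_mul K).ge))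
      congr 1
      simp only [ep, if_true, neg_smul, one_smul]
      abel
  have h3 : ∑ v, ‖g (v, false) - g (v, true)‖ ^ 2 ≤ ∑ _v : W, (320 * K) ^ 2 := by
    refine h1.trans ?_
    rw [mul_sum]
    refine sum_le_sum fun v _ => ?_
    refine (mul_le_mul_of_nonneg_left (sum_le_sum fun i _ => h2 v i) (by norm_num)).trans ?_
    simp only [sum_const, card_univ, Fintype.card_fin, nsmul_eq_mul]
    push_cast
    linarith
  obtain ⟨v, -, hv⟩ := exists_le_of_sum_le univ_nonempty h3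
  exact ⟨v, (pow_le_pow_iff_left₀ (norm_nonneg _) (by positivity) two_ne_zero).1 hv⟩

end Pool.Agent.Lib.helper23.LiftC
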