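import Mathlib
import Pool.Agent.Lib.helper23.LiftA
import Pool.Agent.Lib.helper23.LiftC

set_option autoImplicit false

open Finset symmDiff

namespace Pool.Agent.Lib.helper23.LiftD

open LiftA

theorem hilb (I : Type) [DecidableEq I] : ∃ G : Finset I → lp (fun _ : I => ℝ) 2,
    ∀ A B, ‖G A - G B‖ ^ 2 = (A ∆ B).card := by
  refine ⟨fun A => ∑ i ∈ A, lp.single 2 i 1, fun A B => ?_⟩
  have e : (∑ i ∈ A, lp.single 2 i 1 - ∑ i ∈ B, lp.single 2 i 1 : lp (fun _ : I => ℝ) 2) =
      ∑ i ∈ A ∆ B, lp.single 2 i (if i ∈ A then 1 else -1) := by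
    ext x
    simp only [lp.coeFn_sub, lp.coeFn_sum, lp.coeFn_single, Pi.sub_apply, Finset.sum_apply,
      Finset.sum_pi_single, mem_symmDiff]
    by_cases hA : x ∈ A <;> by_cases hB : x ∈ B <;> simp [hA, hB]
  have := lp.norm_sum_single (E := fun _ : I => ℝ) (p := 2) (by simp)
    (fun i => if i ∈ A then 1 else -1) (A ∆ B)
  simp only [ENNReal.toReal_ofNat, Real.rpow_ofNat] at this
  simp only
  rw [e, this, card_eq_sum_ones]
  push_cast
  exact sum_congr rfl fun i _ => by split_ifs <;> simp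

theorem metric {X : Type} (act : F →* Equiv.Perm X) (l : X → ℕ) (hl : ∀ w x, l (act w x) = l x)
    (h0 : ∀ x, 0 < l x) : ∃ m : MetricSpace X, ∀ x y, ∃ j : ℕ, m.dist x y = j ∧
      ((∃ w : F, w.norm ≤ j ∧ act w x = y) ∨ l x + l y ≤ j) ∧
      ∀ w : F, act w x = y → j ≤ w.norm := by
  let d : X → X → ℕ := fun x y => sInf {j | (∃ w : F, w.norm ≤ j ∧ act w x = y) ∨ l x + l y ≤ j}
  have d1 : ∀ x y, (∃ w : F, w.norm ≤ d x y ∧ act w x = y) ∨ l x + l y ≤ d x y := fun x y =>
    Nat.sInf_mem (s := {j | (∃ w : F, w.norm ≤ j ∧ act w x = y) ∨ l x + l y ≤ j})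
      ⟨_, Or.inr le_rfl⟩
  have d2 : ∀ x y j, ((∃ w : F, w.norm ≤ j ∧ act w x = y) ∨ l x + l y ≤ j) → d x y ≤ j :=
    fun x y j h => Nat.sInf_le h
  have d3 : ∀ x y, d x y ≤ d y x := by
    intro x y
    refine d2 _ _ _ ?_
    rcases d1 y x with ⟨w, a, b⟩ | h
    · exact Or.inl ⟨w⁻¹, by simpa using a, by simp [← b]⟩
    · exact Or.inr (by omega)
  refine ⟨{ dist := fun x y => d x y
            dist_self := fun x => ?_
            dist_comm := fun x y => by rw [le_antisymm (d3 x y) (d3 y x)]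
            dist_triangle := fun x y z => ?_
            eq_of_dist_eq_zero := fun {x y} h => ?_ },
    fun x y => ⟨d x y, rfl, d1 x y, fun w h => d2 _ _ _ (Or.inl ⟨w, le_rfl, h⟩)⟩⟩
  · have := d2 x x 0 (Or.inl ⟨1, by simp, by simp⟩)
    exact_mod_cast Nat.le_zero.1 this
  · have : d x z ≤ d x y + d y z := by
      refine d2 _ _ _ ?_
      rcases d1 x y with ⟨w, a, b⟩ | h <;> rcases d1 y z with ⟨w', a', b'⟩ | h'
      · exact Or.inl ⟨w' * w, (FreeGroup.norm_mul_le _ _).trans (by omega), by simp [b, b']⟩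
      · have := hl w x
        rw [b] at this
        exact Or.inr (by omega)
      · have := hl w' y
        rw [b'] at this
        exact Or.inr (by omega)
      · exact Or.inr (by omega)
    exact_mod_cast this
  · have h' : d x y = 0 := by exact_mod_cast h
    rcases d1 x y with ⟨w, a, b⟩ | h
    · rw [h', Nat.le_zero, FreeGroup.norm_eq_zero] at a
      simpa [a] using b
    · have := h0 x
      omega

def tw {W : Type} (p : Equiv.Perm W) (s : W → Bool) : Equiv.Perm (W × Bool) where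
  toFun a := (p a.1, xor a.2 (s a.1))
  invFun a := (p.symm a.1, xor a.2 (s (p.symm a.1)))
  left_inv a := by simp
  right_inv a := by simp

universe u

/-- a space with a weak embedding into Hilbert space and no coarse embedding -/
theorem main : ∃ (X I : Type) (_ : MetricSpace X) (g : X → lp (fun _ : I => ℝ) 2),
    (∀ r : ℝ, ∃ s : ℝ, 0 < s ∧ ∀ x y, dist x y ≤ r → dist (g x) (g y) ≤ s) ∧
    (∀ r : ℝ, ∃ N : ℕ, ∀ x, {y | dist (g y) (g x) ≤ r}.encard ≤ N) ∧
    ∀ (H : Type u) [NormedAddCommGroup H] [InnerProductSpace ℝ H] (f : X → H) (K : ℝ),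
      (∀ x y, dist x y = 1 → ‖f x - f y‖ ≤ K) →
        ∀ n : ℕ, ∃ x y, (n : ℝ) ≤ dist x y ∧ ‖f x - f y‖ ≤ 320 * max K 0 := by
  classical
  choose W E iW nW dE τ T hg hT1 hT2 using walls
  choose s hs using fun n => LiftC.lift2.{u} (τ n)
  let act : F →* Equiv.Perm (Σ n, W n × Bool) := FreeGroup.lift fun i =>
    Equiv.Perm.sigmaCongrRight fun n => tw (τ n i) fun v => s n v i
  have a1 : ∀ n w (x : W n × Bool), act w ⟨n, x⟩ =
      ⟨n, FreeGroup.lift (fun i => tw (τ n i) fun v => s n v i) w x⟩ := fun n w x =>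
    (equi (B := Σ n, W n × Bool) (fun i => tw (τ n i) fun v => s n v i) (fun i =>
      Equiv.Perm.sigmaCongrRight fun n => tw (τ n i) fun v => s n v i) (fun y => ⟨n, y⟩)
      (fun _ _ => rfl) w x).symm
  have a2 : ∀ n w (x : W n × Bool), (FreeGroup.lift (fun i => tw (τ n i) fun v => s n v i) w x).1 =
      FreeGroup.lift (τ n) w x.1 := fun n w x => equi _ _ Prod.fst (fun _ _ => rfl) w x
  obtain ⟨m, hm⟩ := metric act (fun x => x.1 + 1) (by rintro w ⟨n, x⟩; rw [a1]) fun _ => by simp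
  obtain ⟨G, hG⟩ := hilb ((Σ n, E n) ⊕ ℕ × ℕ)
  let U : (Σ n, W n × Bool) → Finset ((Σ n, E n) ⊕ ℕ × ℕ) := fun x =>
    ((T x.1 x.2.1).map (Function.Embedding.sigmaMk x.1)).disjSum ({x.1} ×ˢ range (x.1 + 1))
  have u1 : ∀ n (x y : W n × Bool), (U ⟨n, x⟩ ∆ U ⟨n, y⟩).card = (T n x.1 ∆ T n y.1).card := by
    intro n x y
    rw [← card_map ((Function.Embedding.sigmaMk n).trans Function.Embedding.inl)]
    congr 1
    ext (⟨k, e⟩ | e)
    · by_cases hk : n = k
      · subst hk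
        simp [U, mem_symmDiff]
      · simp [U, mem_symmDiff, hk]
    · simp [U, mem_symmDiff]
  have u2 : ∀ x y, x.1 ≠ y.1 → x.1 + 1 ≤ (U x ∆ U y).card := by
    intro x y h
    refine le_trans (le_of_eq ?_) (card_le_card
      (s := ({x.1} ×ˢ range (x.1 + 1)).map Function.Embedding.inr) fun e he => ?_)
    · simp
    · obtain ⟨⟨a, b⟩, h1, rfl⟩ := mem_map.1 he
      simp only [mem_product, mem_singleton] at h1
      obtain ⟨rfl, h1⟩ := h1
      simp [U, mem_symmDiff, h, h.symm, Nat.le_of_lt_succ (mem_range.1 h1)]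
  have u3 : ∀ i x, (U x ∆ U (act (FreeGroup.of i) x)).card ≤ 1 := by
    rintro i ⟨n, x⟩
    rw [a1, u1, a2, FreeGroup.lift_apply_of]
    exact hT1 n i x.1
  have u4 : ∀ x (w : F), (U x ∆ U (act w x)).card ≤ w.norm := by
    intro x
    have tr : ∀ A B C : Finset ((Σ n, E n) ⊕ ℕ × ℕ),
        (A ∆ C).card ≤ (A ∆ B).card + (B ∆ C).card := fun A B C =>
      (card_le_card (symmDiff_triangle A B C)).trans (card_union_le _ _)
    refine wind' (fun w m => (U x ∆ U (act w x)).card ≤ m) (by simp) ?_ ?_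
    · intro w m i h
      refine (tr _ (U (act w x)) _).trans (add_le_add h ?_)
      simpa using u3 i (act w x)
    · intro w m i h
      refine (tr _ (U (act w x)) _).trans (add_le_add h ?_)
      rw [symmDiff_comm]
      simpa using u3 i (act ((FreeGroup.of i)⁻¹ * w) x)
  have fin : ∀ k, {x : Σ n, W n × Bool | x.1 + 1 ≤ k}.Finite := by
    intro k
    refine ((Set.finite_lt_nat k).biUnion fun n _ => Set.finite_range (Sigma.mk n)).subset ?_
    rintro ⟨n, x⟩ h
    exact Set.mem_biUnion (Nat.lt_of_succ_le h) ⟨x, rfl⟩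
  refine ⟨_, _, m, fun x => G (U x), fun r => ?_, fun r => ?_, ?_⟩
  · obtain ⟨M, hM⟩ := ((fin ⌈r⌉₊).image fun x => ‖G (U x)‖).bddAbove
    refine ⟨|r| + 1 + 2 * |M|, by positivity, fun x y h => ?_⟩
    obtain ⟨j, j1, j2, -⟩ := hm x y
    rw [j1] at h
    rw [dist_eq_norm]
    rcases j2 with ⟨w, w1, rfl⟩ | j2
    · have : ‖G (U x) - G (U (act w x))‖ ^ 2 ≤ j := by
        rw [hG]; exact_mod_cast (u4 x w).trans w1
      nlinarith [le_abs_self r, abs_nonneg M, sq_nonneg (‖G (U x) - G (U (act w x))‖ - 1),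
        abs_nonneg r]
    · have hj : j ≤ ⌈r⌉₊ := by exact_mod_cast h.trans (Nat.le_ceil r)
      have b1 := hM ⟨x, (by simp only [Set.mem_setOf_eq]; omega), rfl⟩
      have b2 := hM ⟨y, (by simp only [Set.mem_setOf_eq]; omega), rfl⟩
      have := norm_sub_le (G (U x)) (G (U y))
      simp only at b1 b2
      linarith [le_abs_self M, abs_nonneg r]
  · let k := ⌈r ^ 2⌉₊
    refine ⟨(fin k).toFinset.card + ((ball_fin k).toFinset ×ˢ (univ : Finset Bool)).card, ?_⟩
    rintro ⟨n, x⟩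
    have : {y | dist (G (U y)) (G (U ⟨n, x⟩)) ≤ r} ⊆ ((fin k).toFinset ∪
        ((ball_fin k).toFinset ×ˢ (univ : Finset Bool)).image fun p =>
          ⟨n, FreeGroup.lift (τ n) p.1 x.1, p.2⟩ : Finset (Σ n, W n × Bool)) := by
      rintro ⟨n', y⟩ hy
      have h1 : (U ⟨n', y⟩ ∆ U ⟨n, x⟩).card ≤ k := by
        have a : ((U ⟨n', y⟩ ∆ U ⟨n, x⟩).card : ℝ) ≤ r ^ 2 := by
          rw [← hG, ← dist_eq_norm]
          exact pow_le_pow_left₀ dist_nonneg hy 2
        exact_mod_cast a.trans (Nat.le_ceil _)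
      rw [mem_coe, mem_union]
      by_cases hk : n' + 1 ≤ k
      · exact Or.inl (by simpa using hk)
      by_cases hn : n' = n
      · subst hn
        rw [symmDiff_comm, u1] at h1
        obtain ⟨w, w1, w2⟩ := hT2 n' x.1 y.1 (by omega)
        exact Or.inr (mem_image.2 ⟨(w, y.2), by simpa using w1.trans h1, by simp [w2]⟩)
      · exact absurd ((u2 ⟨n', y⟩ ⟨n, x⟩ hn).trans h1) hk
    refine (Set.encard_le_encard this).trans ?_
    rw [Set.encard_coe_eq_coe_finsetCard]
    exact_mod_cast (card_union_le _ _).trans (Nat.add_le_add_left card_image_le _)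
  · intro H _ _ f K hK n
    obtain ⟨v, hv⟩ := hs n (fun x => f ⟨n, x⟩) (max K 0) fun v b i => by
      obtain ⟨j, j1, -, j3⟩ := hm ⟨n, τ n i v, xor b (s n v i)⟩ ⟨n, v, b⟩
      have j4 := j3 (FreeGroup.of i)⁻¹ (by
        rw [map_inv, Equiv.Perm.inv_eq_iff_eq, a1, FreeGroup.lift_apply_of]; rfl)
      simp only [FreeGroup.norm_inv_eq, FreeGroup.norm_of] at j4
      interval_cases j
      · rw [m.eq_of_dist_eq_zero (j1.trans Nat.cast_zero)]
        simp
      · exact (hK _ _ (by simpa using j1)).trans (le_max_left _ _)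
    refine ⟨_, _, ?_, hv⟩
    obtain ⟨j, j1, j2, -⟩ := hm ⟨n, v, false⟩ ⟨n, v, true⟩
    rw [j1, Nat.cast_le]
    rcases j2 with ⟨w, w1, w2⟩ | j2
    · by_contra hc
      rw [a1] at w2
      have w3 := eq_of_heq (Sigma.mk.inj w2).2
      have w4 := congrArg Prod.fst w3
      rw [a2] at w4
      rw [hg n w v (by omega) w4] at w3
      simp at w3
    · simp only at j2
      omega

end Pool.Agent.Lib.helper23.LiftD
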