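import Mathlib
import Pool.Agent.Lib.helper23.MinE

set_option autoImplicit false

namespace Pool.Agent.Lib.helper23.MinF

open Set Filter Topology Function Pool.Agent.Lib.helper23.MinB Pool.Agent.Lib.helper23.MinC
  Pool.Agent.Lib.helper23.MinE
open scoped Pointwise

variable {G : Type} [Group G] [TopologicalSpace G] [IsTopologicalGroup G]

omit [IsTopologicalGroup G] in
lemma lc_fc [LocallyCompactSpace G] [T2Space G] (h : PsM G) :
    (𝓝 (1 : G)).IsCountablyGenerated := by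
  obtain ⟨U, u1, u2⟩ := h
  choose C c1 c2 c3 using fun n => local_compact_nhds (u1 n)
  rw [show 𝓝 (1 : G) = ⨅ n, 𝓟 (C n) from le_antisymm (le_iInf fun n => le_principal_iff.2 (c1 n))
    fun W hW => ?_]
  · exact isCountablyGenerated_seq _
  obtain ⟨s, hs⟩ := ((c3 0).diff isOpen_interior).elim_finite_subfamily_closed C
    (fun n => (c3 n).isClosed) (eq_empty_of_forall_notMem fun x hx => hx.1.2 (by
      rw [u2 x fun n => c2 n (mem_iInter.1 hx.2 n)]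
      exact mem_interior_iff_mem_nhds.2 hW))
  have p (n) : C n ∈ ⨅ n, 𝓟 (C n) := mem_iInf_of_mem n (mem_principal_self _)
  filter_upwards [p 0, (biInter_finset_mem s).2 fun n _ => p n] with x h1 h2
  by_contra k
  exact hs.le ⟨⟨h1, fun e => k (interior_subset e)⟩, h2⟩

def Gd (N : Subgroup G) : Prop := ∃ U : ℕ → Set G, (∀ n, U n ∈ 𝓝 1) ∧
  ∀ x, (∀ n, ∃ u ∈ U n, u⁻¹ * x ∈ N) → x ∈ N

lemma Gd.closed {N : Subgroup G} (h : Gd N) : IsClosed (N : Set G) := by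
  obtain ⟨U, u1, u2⟩ := h
  refine isClosed_of_closure_subset fun x hx => u2 x fun n => ?_
  obtain ⟨y, h1, h2⟩ := mem_closure_iff_nhds.1 hx _ (((by fun_prop :
    Continuous fun y : G => x * y⁻¹).tendsto' x 1 (by simp)) (u1 n))
  exact ⟨_, h1, by simpa using h2⟩

lemma gd1 (r : Set G → Set G → Prop) (hr : ∀ V ∈ 𝓝 (1 : G), ∃ W ∈ 𝓝 (1 : G), r W V)
    (h2 : ∀ W W' V, W' ⊆ W → r W V → r W' V) {U : Set G} (hU : U ∈ 𝓝 1) :
    ∃ M : Subgroup G, (M : Set G) ⊆ U ∧ Gd M ∧ ∃ W : ℕ → Set G, (∀ x, x ∈ M ↔ ∀ n, x ∈ W n) ∧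
      ∀ n, r (W (n + 1)) (W n) := by
  have this (V) (hV : V ∈ 𝓝 (1 : G)) : ∃ W ∈ 𝓝 (1 : G), r W V ∧
      ∀ x ∈ W, ∀ y ∈ W, ∀ z ∈ W, x⁻¹ * y * z ∈ V := by
    obtain ⟨W, w1, w2⟩ := hr V hV
    obtain ⟨W', w3, w4⟩ := tri hV
    exact ⟨W ∩ W', inter_mem w1 w3, h2 _ _ _ inter_subset_left w2,
      fun x a y b z c => w4 x a.2 y b.2 z c.2⟩
  choose! nx n1 n2 n3 using this
  let W : ℕ → Set G := fun n => Nat.rec U (fun _ V => nx V) n
  have w1 (n) : W n ∈ 𝓝 1 := by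
    induction n with
    | zero => exact hU
    | succ n ih => exact n1 _ ih
  have w0 (n) := mem_of_mem_nhds (w1 n)
  let M : Subgroup G :=
    { carrier := {x | ∀ n, x ∈ W n}
      one_mem' := w0
      mul_mem' := fun a b n => by
        simpa using n3 _ (w1 n) _ (w0 (n + 1)) _ (a (n + 1)) _ (b (n + 1))
      inv_mem' := fun a n => by
        simpa using n3 _ (w1 n) _ (a (n + 1)) _ (w0 (n + 1)) _ (w0 (n + 1)) }
  refine ⟨M, fun x h => h 0, ⟨W, w1, fun x h n => ?_⟩, W, fun _ => Iff.rfl, fun n => n2 _ (w1 n)⟩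
  obtain ⟨u, h1, h2⟩ := h (n + 1)
  simpa using n3 _ (w1 n) _ (w0 (n + 1)) _ h1 _ (h2 (n + 1))

omit [IsTopologicalGroup G] in
lemma Gd.inf {N M : Subgroup G} (h : Gd N) (k : Gd M) : Gd (N ⊓ M) := by
  obtain ⟨U, u1, u2⟩ := h
  obtain ⟨V, v1, v2⟩ := k
  exact ⟨_, fun n => inter_mem (u1 n) (v1 n), fun x h =>
    ⟨u2 x fun n => (h n).imp fun _ a => ⟨a.1.1, a.2.1⟩,
      v2 x fun n => (h n).imp fun _ a => ⟨a.1.2, a.2.2⟩⟩⟩

omit [IsTopologicalGroup G] in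
lemma cg_psm [T1Space G] (h : (𝓝 (1 : G)).IsCountablyGenerated) : PsM G := by
  obtain ⟨U, hU⟩ := (𝓝 (1 : G)).exists_antitone_basis
  refine ⟨U, hU.mem, fun x hx => by_contra fun k => ?_⟩
  obtain ⟨n, hn⟩ := hU.mem_iff.1 (compl_singleton_mem_nhds (Ne.symm k))
  exact hn (hx n) rfl

lemma pre_c [CompactSpace G] : PreM G := fun U hU => by
  obtain ⟨t, -, h⟩ := isCompact_univ.elim_nhds_subcover (fun g : G => {x | g⁻¹ * x ∈ U})
    fun g _ => ((continuous_const_mul g⁻¹).tendsto' g 1 (by simp)) hU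
  exact ⟨t, t.finite_toSet, fun x => by simpa using h (mem_univ x)⟩

def DN (N : Subgroup G) (x : ℕ → G) : Prop :=
  ∀ y : G, ∀ O ∈ 𝓝 y, ∃ᶠ n in atTop, ∃ o ∈ O, o⁻¹ * x n ∈ N

variable [CompactSpace G] [T2Space G]

lemma ext1 {N M : Subgroup G} [M.Normal] (hM : Gd M) {x : ℕ → G} (h : DN N x) :
    ∃ z : ℕ → G, DN M z ∧ ∀ n, (z n)⁻¹ * x n ∈ N := by
  haveI := hM.closed
  obtain ⟨U, u1, u2⟩ := hM
  haveI := metr (lc_fc (G := G ⧸ M) ⟨fun n => _, fun n => (QuotientGroup.isOpenMap_coe (N := M)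
    ).image_mem_nhds (u1 n), fun q hq => by
      obtain ⟨x, rfl⟩ := QuotientGroup.mk_surjective q
      exact (QuotientGroup.eq_one_iff x).2 (u2 x fun n => (hq n).imp fun _ a =>
        ⟨a.1, QuotientGroup.eq.1 a.2⟩)⟩)
  letI := TopologicalSpace.metrizableSpaceMetric (G ⧸ M)
  obtain ⟨b, b1, b2, b3⟩ := TopologicalSpace.exists_countable_basis (G ⧸ M)
  obtain ⟨B, rfl⟩ := b1.exists_eq_range ((b3.mem_nhds_iff.1 (univ_mem (f := 𝓝 1))).imp
    fun _ a => a.1)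
  obtain ⟨φ, h1, h2⟩ := extraction_forall_of_frequently (P := fun j k => ∃ o : G,
    (o : G ⧸ M) ∈ B j.unpair.1 ∧ o⁻¹ * x k ∈ N) fun j => by
      obtain ⟨q, hq⟩ := nonempty_iff_ne_empty.2 fun e => b2 ⟨j.unpair.1, e⟩
      obtain ⟨y, rfl⟩ := QuotientGroup.mk_surjective q
      exact h y _ (QuotientGroup.continuous_mk.tendsto y ((b3.isOpen ⟨_, rfl⟩).mem_nhds hq))
  choose o o1 o2 using h2
  refine ⟨extend φ o x, fun y O hO => frequently_atTop.2 fun m => ?_, fun n => ?_⟩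
  · obtain ⟨_, ⟨i, rfl⟩, -, k⟩ := b3.mem_nhds_iff.1
      ((QuotientGroup.isOpenMap_coe (N := M)).image_mem_nhds hO)
    refine ⟨φ (i.pair m), (Nat.right_le_pair i m).trans (h1.id_le _), ?_⟩
    rw [h1.injective.extend_apply]
    exact (k (by simpa using o1 (i.pair m))).imp fun _ a => ⟨a.1, QuotientGroup.eq.1 a.2⟩
  · by_cases k : ∃ j, φ j = n
    · obtain ⟨j, rfl⟩ := k
      rw [h1.injective.extend_apply]
      exact o2 j
    · simp [extend_apply' _ _ _ k]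

lemma zornD : ∃ (N : Subgroup G) (x : ℕ → G), N.Normal ∧ IsClosed (N : Set G) ∧ DN N x ∧
    ∀ M ≤ N, M.Normal → Gd M → N ≤ M := by
  let α := {p : Subgroup G × (ℕ → G) // p.1.Normal ∧ IsClosed (p.1 : Set G) ∧ DN p.1 p.2}
  let r : α → α → Prop := fun p q => q.1.1 ≤ p.1.1 ∧ ∀ n, (q.1.2 n)⁻¹ * p.1.2 n ∈ p.1.1
  haveI : Std.Refl r := ⟨fun p => ⟨le_rfl, fun n => by simp⟩⟩
  haveI : Nonempty α := ⟨⟨(⊤, 1), Subgroup.normal_top, isClosed_univ, fun y O h =>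
    Frequently.of_forall fun _ => ⟨y, mem_of_mem_nhds h, trivial⟩⟩⟩
  refine (exists_maximal_of_nonempty_chains_bounded (r := r)
    (fun c hc hn => ?_) fun a b => ⟨b.1.trans a.1, fun n => by
      simpa using mul_mem (a.1 (b.2 n)) (a.2 n)⟩).elim fun ⟨⟨N, x⟩, h1, h2, h3⟩ h => ?_
  swap
  · refine ⟨N, x, h1, h2, h3, fun M m1 m2 m3 => ?_⟩
    obtain ⟨z, z1, z2⟩ := ext1 m3 h3
    exact (h ⟨(M, z), m2, m3.closed, z1⟩ ⟨m1, z2⟩).1
  haveI := hn.to_subtype
  have hd := hc.directedOn.directed_val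
  have cl (n) (p : c) : IsClosed {z : G | z⁻¹ * p.1.1.2 n ∈ p.1.1.1} :=
    p.1.2.2.1.preimage (by fun_prop)
  choose z hz using fun n => IsCompact.nonempty_iInter_of_directed_nonempty_isCompact_isClosed _
    (fun a b => (hd a b).imp fun _ h => ⟨fun z hz => by simpa using mul_mem (h.1.1 hz) (h.1.2 n),
      fun z hz => by simpa using mul_mem (h.2.1 hz) (h.2.2 n)⟩)
    (fun p => ⟨p.1.1.2 n, by simp⟩) (fun p => (cl n p).isCompact) (cl n)
  refine ⟨⟨(⨅ p : c, p.1.1.1, z), Subgroup.normal_iInf_normal fun p => p.1.2.1, ?_,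
    fun y O hO => ?_⟩, fun p hp => ⟨iInf_le (fun p : c => p.1.1.1) ⟨p, hp⟩,
      fun n => mem_iInter.1 (hz n) ⟨p, hp⟩⟩⟩
  · rw [Subgroup.coe_iInf]
    exact isClosed_iInter fun p => p.1.2.2.1
  obtain ⟨C, c1, c2, c3⟩ := exists_mem_nhds_isClosed_subset (interior_mem_nhds.2 hO)
  obtain ⟨p, hp⟩ := ((c2.preimage continuous_fst).inter (((isOpen_interior (s := O)).mul_right
    (t := ((⨅ p : c, p.1.1.1 : Subgroup G) : Set G))).isClosed_compl.preimage continuous_mul)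
    ).isCompact.elim_directed_family_closed (fun p : c => Prod.snd ⁻¹' p.1.1.1)
    (fun p => p.1.2.2.1.preimage continuous_snd) (eq_empty_of_forall_notMem fun q hq =>
      hq.1.2 (Set.mul_mem_mul (c3 hq.1.1) (Subgroup.mem_iInf.2 fun i => mem_iInter.1 hq.2 i)))
    fun a b => (hd a b).imp fun _ h => ⟨preimage_mono h.1.1, preimage_mono h.2.1⟩
  refine (p.1.2.2.2 y C c1).mono fun n ⟨o, h1, h2⟩ => by_contra fun k => ?_
  refine eq_empty_iff_forall_notMem.1 hp (o, o⁻¹ * z n) ⟨⟨h1, fun ⟨a, a1, b, b1, e⟩ => k ⟨a, interior_subset a1, ?_⟩⟩,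
    by simpa using mul_mem h2 (inv_mem (mem_iInter.1 (hz n) p))⟩
  simp only [mul_inv_cancel_left] at e
  simpa [← e] using b1

theorem cfc (h : ∀ Γ : Subgroup G, Countable Γ → (𝓝 (1 : Γ)).IsCountablyGenerated) : PsM G := by
  obtain ⟨N, x, _, h2, h3, h4⟩ := zornD (G := G)
  let Γ := (FreeGroup.lift x).range
  obtain ⟨V, hV⟩ := @exists_antitone_basis _ _ (h Γ (countable_range _).to_subtype)
  haveI : CompactSpace Γ.topologicalClosure :=
    isCompact_iff_compactSpace.1 Γ.isClosed_topologicalClosure.isCompact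
  haveI : (𝓝 (1 : Γ.topologicalClosure)).IsCountablyGenerated :=
    HasCountableBasis.isCountablyGenerated ⟨hV.1.hasBasis_of_isDenseInducing
      (f := inclusion subset_closure) ⟨(IsEmbedding.inclusion _).isInducing,
        (denseRange_inclusion_iff _).2 subset_rfl⟩, to_countable _⟩
  let φ := (QuotientGroup.mk' N).comp Γ.topologicalClosure.subtype
  have c : Continuous φ := QuotientGroup.continuous_mk.comp continuous_subtype_val
  have hs : Surjective φ := fun q => (isCompact_range c).isClosed.closure_subset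
    (mem_closure_iff_nhds.2 fun W hW => by
      obtain ⟨y, rfl⟩ := QuotientGroup.mk_surjective q
      obtain ⟨n, o, a1, a2⟩ := (h3 y _ (QuotientGroup.continuous_mk.tendsto y hW)).exists
      exact ⟨o, a1, ⟨x n, Γ.le_topologicalClosure ⟨.of n, by simp⟩⟩, (QuotientGroup.eq.2 a2).symm⟩)
  obtain ⟨U, u1, u2⟩ := cg_psm (G := G ⧸ N) (by
    rw [← map_one φ, ← (φ.isOpenMap_of_sigmaCompact hs c).map_nhds_eq c.continuousAt]
    infer_instance)
  have g : Gd N := ⟨_, fun n => QuotientGroup.continuous_mk.tendsto 1 (u1 n), fun y hy =>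
    (QuotientGroup.eq_one_iff y).1 (u2 _ fun n => (hy n).elim fun u a =>
      QuotientGroup.eq.2 a.2 ▸ a.1)⟩
  obtain rfl : N = ⊥ := eq_bot_iff.2 fun y hy => by_contra fun k => by
    obtain ⟨M, m1, m2, W, m3, m4⟩ := gd1 (fun W V => ∀ g : G, ∀ x ∈ W, g * x * g⁻¹ ∈ V)
      (fun V => sin pre_c) (fun _ _ _ a b g x c => b g x (a c))
      (compl_singleton_mem_nhds (Ne.symm k))
    haveI : M.Normal := ⟨fun a ha g => (m3 _).2 fun n => m4 n g a ((m3 _).1 ha _)⟩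
    exact m1 (h4 _ inf_le_left inferInstance (g.inf m2) hy).2 rfl
  exact g.imp fun U hU => ⟨hU.1, fun y hy => hU.2 y fun n => ⟨y, hy n, by simp⟩⟩

end Pool.Agent.Lib.helper23.MinF
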