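import Mathlib
import Pool.Agent.Lib.helper23.FSAlg

set_option autoImplicit false

namespace Pool.Agent.Lib.helper23.Munn

open Set Topology Filter TopologicalSpace Pool.Agent.Lib.helper23.Ell1 Pool.Agent.Lib.helper23.FSAlg

noncomputable def p (b c : ℕ) : ℂ := if c = b then 1 / 2 else if c = b + 1 then -1 else 0

def T : Type := ℂ × ℕ × ℕ

noncomputable instance : Semigroup T where
  mul s t := (s.1 * t.1 * p s.2.2 t.2.1, s.2.1, t.2.2)
  mul_assoc s t u := Prod.ext (by
    change s.1 * t.1 * p s.2.2 t.2.1 * u.1 * p t.2.2 u.2.1 =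
      s.1 * (t.1 * u.1 * p t.2.2 u.2.1) * p s.2.2 t.2.1
    ring) rfl

theorem np (b c : ℕ) : ‖p b c‖ ≤ 1 := by
  unfold p
  split_ifs <;> norm_num

noncomputable abbrev Y := L1 ℂ (ℕ × ℕ)

noncomputable def g (x : ℕ → ℕ) (i : ℕ × ℕ × ℕ) : T :=
  (if i.1 < x i.2.2 ∧ i.2.1 < x i.2.2 then 1 else 0, i.1, i.2.1)

noncomputable def v (x : ℕ → ℕ) (w : S) : Y :=
  (FreeSemigroup.lift (g x) w).1 • e ℂ (FreeSemigroup.lift (g x) w).2

theorem nv (x : ℕ → ℕ) (w : S) : ‖v x w‖ ≤ 1 := by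
  rw [v, norm_smul, norm_e, mul_one]
  refine nl (fun t : T => ‖t.1‖ ≤ 1) (fun a b x y => ?_) _ (fun i => ?_) w
  · exact (norm_mul_le _ _).trans (mul_le_one₀ ((norm_mul_le _ _).trans
      (mul_le_one₀ x (norm_nonneg _) y)) (norm_nonneg _) (np _ _))
  · simp only [g]
    split_ifs <;> simp

theorem cv (w : S) : Continuous fun x => v x w := by
  have : IsLocallyConstant fun x => FreeSemigroup.lift (g x) w := by
    induction w using FreeSemigroup.recOnMul with
    | ih1 i =>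
      exact ((IsLocallyConstant.iff_continuous fun x : ℕ → ℕ => x i.2.2).2
        (continuous_apply _)).comp fun n => ((if i.1 < n ∧ i.2.1 < n then 1 else 0, i.1, i.2.1) : T)
    | ih2 i w a b => simpa only [map_mul] using a.comp₂ b (· * ·)
  exact (this.comp fun t : T => t.1 • e ℂ t.2).continuous

noncomputable def ev (i : ℕ × ℕ) : Y →L[ℂ] ℂ := lp.evalCLM ℂ (fun _ => ℂ) 1 i

theorem e1 (i : ℕ × ℕ) (y : Y) : ev i y = y i := rfl

theorem exm' : ∃ m : Y →L[ℂ] Y →L[ℂ] Y,
    (∀ i j, m (e ℂ i) (e ℂ j) = p i.2 j.1 • e ℂ (i.1, j.2)) ∧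
    (∀ c d y a b, m (e ℂ (c, d)) y (a, b) = if a = c then y (d, b) / 2 - y (d + 1, b) else 0) ∧
    ∀ f c y a b, m y (e ℂ (f, c)) (a, b) =
      if b = c then y (a, f) / 2 - (if f = 0 then 0 else y (a, f - 1)) else 0 := by
  obtain ⟨m, -, h⟩ := lift2 (K := ℂ) (fun i j : ℕ × ℕ => p i.2 j.1 • e ℂ (i.1, j.2)) fun i j => by
    rw [norm_smul, norm_e, mul_one]; exact np _ _
  have h' : ∀ c d i j a b, m (e ℂ (c, d)) (e ℂ (i, j)) (a, b) =
      if a = c ∧ b = j then p d i else 0 := fun c d i j a b => by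
    rw [h, lp.coeFn_smul, Pi.smul_apply, e_apply]
    simp
  refine ⟨m, h, fun c d y a b => ?_, fun f c y a b => ?_⟩
  · have := ext (S := (ev (a, b)).comp (m (e ℂ (c, d))))
      (T := (if a = c then 1 else 0 : ℂ) • ((1 / 2 : ℂ) • ev (d, b) - ev (d + 1, b)))
      fun ⟨i, j⟩ => by
        change m _ _ (a, b) = _ * (_ * e ℂ _ (d, b) - e ℂ _ (d + 1, b))
        rw [h', e_apply, e_apply, p]
        by_cases k : a = c <;> by_cases l : b = j <;> by_cases n : i = d
        any_goals simp [k, l, n, eq_comm]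
        all_goals simp [k, l, n, Ne.symm n]
        all_goals split_ifs <;> simp_all
    have : m _ y (a, b) = _ * (_ * y (d, b) - y (d + 1, b)) := DFunLike.congr_fun this y
    rw [this]
    split_ifs <;> ring
  · have := ext (S := (ev (a, b)).comp (m.flip (e ℂ (f, c))))
      (T := (if b = c then 1 else 0 : ℂ) • ((1 / 2 : ℂ) • ev (a, f) -
        (if f = 0 then 0 else 1 : ℂ) • ev (a, f - 1))) fun ⟨i, j⟩ => by
        change m _ _ (a, b) = _ * (_ * e ℂ _ (a, f) - _ * e ℂ _ (a, f - 1))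
        rw [h', e_apply, e_apply, p]
        by_cases k : a = i <;> by_cases l : b = c <;> rcases f with _ | f
        any_goals simp [k, l]
        all_goals split_ifs <;> simp_all
    have : m y _ (a, b) = _ * (_ * y (a, f) - _ * y (a, f - 1)) := DFunLike.congr_fun this y
    rw [this]
    split_ifs <;> ring

end Pool.Agent.Lib.helper23.Munn
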