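import Mathlib

set_option autoImplicit false

namespace Pool.Agent.Lib.helper23.PB

open Set Filter Topology TopologicalSpace

structure Dat (D J : Type) where
  A : J → Set D
  F : J → Filter D
  ne : ∀ i, (F i).NeBot
  mem : ∀ i, A i ∈ F i
  co : ∀ i, F i ≤ cocountable
  ad : ∀ i j, i ≠ j → (A i ∩ A j).Countable

variable {D J : Type} (P : Dat D J)

namespace Dat

def G : D ⊕ J → Filter D := Sum.elim pure P.F

instance (j : D ⊕ J) : (P.G j).NeBot := by
  cases j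
  exacts [pure_neBot, P.ne _]

def N (U : Set D) : Set (D ⊕ J) := {j | U ∈ P.G j}

def X (_ : Dat D J) : Type := {u : Ultrafilter (D ⊕ J) // ∃ S ∈ u, S.Countable}

def L : Set (Set D) := {U | (∃ T : Set J, T.Countable ∧ (U \ ⋃ i ∈ T, P.A i).Countable) ∧
  ∀ i, U ∈ P.F i ∨ (U ∩ P.A i).Countable}

def st (U : Set D) : Set P.X := {x | P.N U ∈ x.1}

def B : Set (Set P.X) := P.st '' P.L

instance : TopologicalSpace P.X := generateFrom P.B

def pt (j : D ⊕ J) : P.X := ⟨pure j, {j}, by simp, countable_singleton j⟩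

def pu (d : D) : P.X := P.pt (.inl d)

def H (S : Set (D ⊕ J)) : Set D := Sum.inl ⁻¹' S ∪ ⋃ i ∈ Sum.inr ⁻¹' S, P.A i

variable {P}

lemma st_inter (U V : Set D) : P.st (U ∩ V) = P.st U ∩ P.st V :=
  Set.ext fun x => (iff_of_eq (congrArg (· ∈ x.1)
    (show P.N (U ∩ V) = P.N U ∩ P.N V from Set.ext fun _ => inter_mem_iff))).trans inter_mem_iff

lemma st_mono {U V : Set D} (h : U ⊆ V) : P.st U ⊆ P.st V := fun x hx =>
  mem_of_superset hx fun _ k => mem_of_superset k h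

lemma st_ne {U : Set D} {x : P.X} (h : x ∈ P.st U) : U.Nonempty :=
  (x.1.nonempty_of_mem h).elim fun j k => (P.G j).nonempty_of_mem k

lemma cc {i : J} {C : Set D} (h : C.Countable) : Cᶜ ∈ P.F i := P.co i (by simpa [mem_cocountable])

lemma nc {i : J} {U : Set D} (h : (U ∩ P.A i).Countable) : Uᶜ ∈ P.F i := by
  filter_upwards [cc h, P.mem i] with d a b c using a ⟨c, b⟩

lemma sub_H (S : Set (D ⊕ J)) : S ⊆ P.N (P.H S) := by
  rintro (d | i) h
  exacts [Or.inl h, mem_of_superset (P.mem i) fun d a => .inr (mem_biUnion h a)]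

lemma HA {S : Set (D ⊕ J)} (h : S.Countable) {i : J} (k : .inr i ∉ S) :
    (P.H S ∩ P.A i).Countable := by
  rw [H, union_inter_distrib_right, iUnion₂_inter]
  exact ((h.preimage Sum.inl_injective).mono inter_subset_left).union ((h.preimage
    Sum.inr_injective).biUnion fun j a => P.ad _ _ fun e => k (e ▸ a))

lemma HL {S : Set (D ⊕ J)} (h : S.Countable) {U : Set D} (k : S ⊆ P.N U) : P.H S ∩ U ∈ P.L :=
  ⟨⟨_, h.preimage Sum.inr_injective, (h.preimage Sum.inl_injective).mono fun _ a =>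
    a.1.1.resolve_right a.2⟩, fun i => (em (.inr i ∈ S)).imp (fun a => inter_mem (sub_H S a) (k a))
      fun a => (HA h a).mono (inter_subset_inter_left _ inter_subset_left)⟩

lemma loc {U : Set D} {x : P.X} (h : x ∈ P.st U) : ∃ V ∈ P.L, x ∈ P.st V ∧ V ⊆ U := by
  obtain ⟨S, h1, h2⟩ := x.2
  exact ⟨_, HL (h2.mono inter_subset_left) inter_subset_right, mem_of_superset (inter_mem h1 h)
    fun j a => inter_mem (sub_H _ a) a.2, inter_subset_right⟩

lemma L_inter {U V : Set D} (h : U ∈ P.L) (k : V ∈ P.L) : U ∩ V ∈ P.L :=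
  ⟨h.1.imp fun _ a => ⟨a.1, a.2.mono (sdiff_subset_sdiff_left inter_subset_left)⟩, fun i =>
    (h.2 i).elim (fun a => (k.2 i).imp (inter_mem a) fun b => b.mono
      (inter_subset_inter_left _ inter_subset_right))
      fun b => .inr (b.mono (inter_subset_inter_left _ inter_subset_left))⟩

lemma basis : IsTopologicalBasis P.B := by
  refine ⟨?_, eq_univ_of_forall fun x => ?_, rfl⟩
  · rintro _ ⟨U, hU, rfl⟩ _ ⟨V, hV, rfl⟩ x hx
    exact ⟨_, ⟨_, L_inter hU hV, rfl⟩, (st_inter U V).ge hx, (st_inter U V).le⟩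
  · exact (loc (U := univ) (x := x) (univ_mem' fun _ => univ_mem)).elim fun V a =>
      ⟨_, ⟨V, a.1, rfl⟩, a.2.1⟩

lemma st_open (U : Set D) : IsOpen (P.st U) := isOpen_iff_forall_mem_open.2 fun _ h =>
  (loc h).elim fun V a => ⟨_, st_mono a.2.2, basis.isOpen ⟨V, a.1, rfl⟩, a.2.1⟩

lemma clopen {U : Set D} (h : ∀ i, U ∈ P.F i ∨ Uᶜ ∈ P.F i) : IsClopen (P.st U) := by
  suffices e : P.N Uᶜ = (P.N U)ᶜ from ⟨⟨(Set.ext fun x => (iff_of_eq (congrArg (· ∈ x.1) e)).trans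
    Ultrafilter.compl_mem_iff_notMem : P.st Uᶜ = (P.st U)ᶜ) ▸ st_open Uᶜ⟩, st_open U⟩
  refine Set.ext fun j => ⟨fun a b => compl_notMem b a, fun a => ?_⟩
  cases j
  exacts [a, (h _).resolve_left a]

lemma clopenB (W : Set P.X) (h : W ∈ P.B) : IsClopen W :=
  h.elim fun _ a => a.2 ▸ clopen fun i => (a.1.2 i).imp_right nc

lemma tr {W : Set P.X} (h : IsOpen W) : W ⊆ P.st (P.pu ⁻¹' W) := fun x hx => by
  obtain ⟨_, ⟨V, -, rfl⟩, a, b⟩ := basis.exists_subset_of_mem_open hx h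
  exact st_mono (U := V) (fun d k => b k) a

lemma dense : DenseRange P.pu := dense_iff_inter_open.2 fun _ h ⟨_, a⟩ =>
  (st_ne (tr h a)).elim fun d b => ⟨_, b, d, rfl⟩

lemma tend (j : D ⊕ J) : Tendsto P.pu (P.G j) (𝓝 (P.pt j)) := fun _ h =>
  mem_of_superset (tr isOpen_interior (mem_interior_iff_mem_nhds.2 h))
    (preimage_mono interior_subset)

instance : T35Space P.X := by
  haveI : T0Space P.X := ⟨fun x y h => Subtype.ext (Ultrafilter.eq_of_le fun S hS => ?_)⟩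
  · haveI : CompletelyRegularSpace P.X := by
      refine CompletelyRegularSpace.of_isTopologicalBasis_clopens ?_
      refine isTopologicalBasis_of_isOpen_of_nhds (fun U hU => hU.2) fun x U hx hU => ?_
      obtain ⟨_, k, h1, h2⟩ := basis.exists_subset_of_mem_open hx hU
      exact ⟨_, clopenB _ k, h1, h2⟩
    exact {}
  obtain ⟨T, t1, t2⟩ := x.2
  obtain ⟨R, r1, r2⟩ := y.2
  have : y ∈ P.st (P.H (S ∩ R) ∩ (Sum.inl ⁻¹' (T \ S))ᶜ) := by
    filter_upwards [hS, r1] with j a b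
    refine inter_mem (sub_H _ ⟨a, b⟩) ?_
    cases j
    exacts [fun c => c.2 a, cc ((t2.mono sdiff_subset).preimage Sum.inl_injective)]
  filter_upwards [(h.mem_open_iff (st_open _)).2 this, t1] with j a b
  by_contra c
  cases j with
  | inl d => exact a.2 ⟨b, c⟩
  | inr i => exact @compl_notMem _ _ _ (P.ne i) (mem_of_superset a inter_subset_left)
              (nc (HA (r2.mono inter_subset_right) fun e => c e.1))

lemma disj {U V : Set D} : Disjoint (P.st U) (P.st V) ↔ Disjoint U V :=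
  ⟨fun h => disjoint_left.2 fun d a b => disjoint_left.1 h (show P.pu d ∈ _ from a) b, fun h =>
    disjoint_left.2 fun _ a b => (st_ne ((st_inter U V).ge ⟨a, b⟩)).ne_empty h.inter_eq⟩

lemma pretty (C E : Set (Set P.X)) (hC : C ⊆ P.B) (hc : C.Countable) (hE : E ⊆ P.B)
    (h : ∀ U ∈ C, ∀ V ∈ E, Disjoint U V) :
    ∃ W ∈ P.B, (∀ U ∈ C, U ⊆ W) ∧ ∀ V ∈ E, Disjoint W V := by
  choose u hu hu' using fun c : C => hC c.2
  choose T t1 t2 using fun c => (hu c).1
  haveI := hc.to_subtype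
  refine ⟨_, ⟨⋃ c, u c, ⟨⟨⋃ c, T c, countable_iUnion t1, (countable_iUnion t2).mono ?_⟩,
    fun i => ?_⟩, rfl⟩, fun U a => (hu' ⟨U, a⟩).ge.trans (st_mono (subset_iUnion u _)), fun V a => ?_⟩
  · rintro d ⟨⟨_, ⟨c, rfl⟩, a⟩, b⟩
    exact mem_iUnion.2 ⟨c, a, fun k => b (biUnion_subset_biUnion_left (subset_iUnion T c) k)⟩
  · refine or_iff_not_imp_left.2 fun a => iUnion_inter _ u ▸ countable_iUnion fun c =>
      ((hu c).2 i).resolve_left fun b => a (mem_of_superset b (subset_iUnion u c))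
  · obtain ⟨V, -, rfl⟩ := hE a
    exact disj.2 (disjoint_iUnion_left.2 fun c => disj.1 (hu' c ▸ h _ c.2 _ a))

lemma cocompact : @CompactSpace P.X (generateFrom ((fun B => (closure B)ᶜ) '' P.B)) := by
  refine @CompactSpace.mk _ (generateFrom _)
    ((@isCompact_iff_ultrafilter_le_nhds _ (generateFrom _) _).2 fun F _ => ?_)
  let w := {U ∈ P.L | P.st U ∈ F}
  have wi {U V} (a : U ∈ w) (b : V ∈ w) : U ∩ V ∈ w :=
    ⟨L_inter a.1 b.1, st_inter U V ▸ inter_mem a.2 b.2⟩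
  obtain ⟨x, hx⟩ : ∃ x, ∀ U ∈ w, x ∈ P.st U := by
    rcases w.eq_empty_or_nonempty with e | ⟨U, hU⟩
    · exact (F.nonempty_of_mem univ_mem).imp fun _ _ => by simp [e]
    obtain ⟨S, s1, s2⟩ : ∃ S : Set (D ⊕ J), S.Countable ∧ ∀ V ∈ w, (S ∩ P.N V).Nonempty := by
      by_cases e : ∃ V ∈ w, V.Countable
      · obtain ⟨V, v1, v2⟩ := e
        refine ⟨_, v2.image Sum.inl, fun R a => ?_⟩
        obtain ⟨d, b⟩ := st_ne (F.nonempty_of_mem (wi v1 a).2).some_mem
        exact ⟨_, ⟨d, b.1, rfl⟩, b.2⟩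
      obtain ⟨T, t1, t2⟩ := hU.1.1
      refine ⟨_, t1.image Sum.inr, fun V a => by_contra fun b => e ⟨_, wi hU a, (t2.union
        (t1.biUnion fun i c => (a.1.2 i).resolve_left fun k => b ⟨_, ⟨i, c, rfl⟩, k⟩)).mono
          fun d k => or_iff_not_imp_left.2 fun c => ?_⟩⟩
      obtain ⟨i, c1, c2⟩ := mem_iUnion₂.1 (not_not.1 fun m => c ⟨k.1, m⟩)
      exact mem_biUnion c1 ⟨k.2, c2⟩
    haveI : Nonempty w := ⟨⟨U, hU⟩⟩
    haveI : (⨅ V : w, 𝓟 (S ∩ P.N V)).NeBot := iInf_neBot_of_directed' (fun V R =>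
      ⟨⟨_, wi V.2 R.2⟩, principal_mono.2 fun _ a => ⟨a.1, (inter_mem_iff.1 a.2).1⟩,
        principal_mono.2 fun _ a => ⟨a.1, (inter_mem_iff.1 a.2).2⟩⟩)
      fun V => principal_neBot_iff.2 (s2 _ V.2)
    have (V : w) : S ∩ P.N V ∈ Ultrafilter.of (⨅ V : w, 𝓟 (S ∩ P.N V)) :=
      Ultrafilter.of_le _ (mem_iInf_of_mem V (mem_principal_self _))
    exact ⟨⟨_, _, this ⟨U, hU⟩, s1.mono inter_subset_left⟩, fun V a =>
      mem_of_superset (this ⟨V, a⟩) inter_subset_right⟩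
  refine ⟨x, trivial, nhds_generateFrom ▸ le_iInf₂ ?_⟩
  rintro _ ⟨h1, _, ⟨U, hU, rfl⟩, rfl⟩
  simp only [(clopenB _ ⟨U, hU, rfl⟩).1.closure_eq] at h1 ⊢
  exact le_principal_iff.2 (Ultrafilter.compl_mem_iff_notMem.2 fun h => h1 (hx U ⟨hU, h⟩))

lemma extend {K : Type} [TopologicalSpace K] [CompactSpace K] [T2Space K] (φ : D → K)
    (h : ∀ i, ∃ t, Tendsto φ (P.F i) (𝓝 t)) : ∃ g : P.X → K, Continuous g ∧ ∀ d, g (P.pu d) = φ d := by
  choose t ht using h
  have k (j) : Tendsto φ (P.G j) (𝓝 (Sum.elim φ t j)) := by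
    cases j
    exacts [tendsto_pure_nhds _ _, ht _]
  have l (x : P.X) := ultrafilter_extend_eq_iff.1 (rfl : Ultrafilter.extend (Sum.elim φ t) x.1 = _)
  refine ⟨fun x => Ultrafilter.extend (Sum.elim φ t) x.1, continuous_iff_continuousAt.2 fun x =>
    (closed_nhds_basis _).tendsto_right_iff.2 fun C c => mem_of_superset ((st_open (φ ⁻¹' C)).mem_nhds
      (mem_of_superset (l x (interior_mem_nhds.2 c.1)) fun j a => k j (mem_interior_iff_mem_nhds.1 a)))
        fun y a => c.2.mem_of_tendsto (l y) (mem_of_superset a fun j b =>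
          c.2.mem_of_tendsto (k j) b), fun d => congrFun (ultrafilter_extend_extends _) _⟩

end Dat

end Pool.Agent.Lib.helper23.PB
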