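import Mathlib

set_option autoImplicit false

namespace Pool.Agent.Lib.helper23.RSE

open Filter Topology

universe u v

variable {𝕜 : Type} [RCLike 𝕜] {X : Type u} {Y : Type v} [NormedAddCommGroup X] [NormedSpace 𝕜 X]
  [NormedAddCommGroup Y] [NormedSpace 𝕜 Y]

/-- Absolutely strongly exposing operators. -/
def IsASE (T : X →L[𝕜] Y) : Prop :=
  ∃ x0 : X, ‖x0‖ = 1 ∧ ∀ x : ℕ → X, (∀ n, ‖x n‖ ≤ 1) →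
    Tendsto (fun n => ‖T (x n)‖) atTop (𝓝 ‖T‖) → ∃ σ : ℕ → ℕ, StrictMono σ ∧ ∃ l : 𝕜, ‖l‖ = 1 ∧
      Tendsto (fun n => x (σ n)) atTop (𝓝 (l • x0))

/-- Range strongly exposing operators. -/
def IsRSE (T : X →L[𝕜] Y) : Prop :=
  ∃ x0 : X, ‖x0‖ = 1 ∧ ∀ x : ℕ → X, (∀ n, ‖x n‖ ≤ 1) →
    Tendsto (fun n => ‖T (x n)‖) atTop (𝓝 ‖T‖) → ∃ σ : ℕ → ℕ, StrictMono σ ∧ ∃ l : 𝕜, ‖l‖ = 1 ∧
      Tendsto (fun n => T (x (σ n))) atTop (𝓝 (l • T x0))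

/-- The Bollobas property inside the class `A` of operators, with approximants from `P`. -/
def BPB (A P : (X →L[𝕜] Y) → Prop) : Prop :=
  ∀ ε : ℝ, 0 < ε → ∃ η : ℝ, 0 < η ∧ η < ε ∧ ∀ T : X →L[𝕜] Y, A T → ‖T‖ = 1 → ∀ x : X, ‖x‖ = 1 →
    1 - η < ‖T x‖ → ∃ S : X →L[𝕜] Y, A S ∧ P S ∧ ∃ x0 : X, ‖x0‖ = 1 ∧ ‖S‖ = 1 ∧ ‖S x0‖ = 1 ∧
      ‖S - T‖ < ε ∧ ‖x - x0‖ < ε

end Pool.Agent.Lib.helper23.RSE
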