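import Mathlib

set_option autoImplicit false

open Finset Filter Topology

namespace Pool.Agent.Lib.helper23.RandA

section Free

variable {α V : Type} [DecidableEq α] [DecidableEq V]

def letter (σ : α → Equiv.Perm V) (x : α × Bool) : Equiv.Perm V := cond x.2 (σ x.1) (σ x.1)⁻¹

def ev (σ : α → Equiv.Perm V) (v : V) : List (α × Bool) → V
  | [] => v
  | x :: L => letter σ x (ev σ v L)

def pts (σ : α → Equiv.Perm V) (v : V) : List (α × Bool) → Finset V
  | [] => {v}
  | x :: L => insert (ev σ v (x :: L)) (pts σ v L)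

def Dis (σ : α → Equiv.Perm V) (v : V) : List (α × Bool) → Prop
  | [] => True
  | x :: L => Dis σ v L ∧ ev σ v (x :: L) ∉ pts σ v L

def sw (σ : α → Equiv.Perm V) (x : α × Bool) (y z : V) : α → Equiv.Perm V :=
  Function.update σ x.1 (cond x.2 (Equiv.swap y z * σ x.1) (σ x.1 * Equiv.swap y z))

omit [DecidableEq α] [DecidableEq V] in
lemma ev_eq (σ : α → Equiv.Perm V) (v : V) (L : List (α × Bool)) :
    FreeGroup.lift σ (FreeGroup.mk L) v = ev σ v L := by
  rw [FreeGroup.lift_mk]
  induction L with
  | nil => rfl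
  | cons x L ih => rw [List.map_cons, List.prod_cons, Equiv.Perm.mul_apply, ih]; rfl

omit [DecidableEq α] in
lemma ev_mem (σ : α → Equiv.Perm V) (v : V) (L : List (α × Bool)) : ev σ v L ∈ pts σ v L := by
  cases L <;> simp [pts, ev]

omit [DecidableEq α] in
lemma v_mem (σ : α → Equiv.Perm V) (v : V) (L : List (α × Bool)) : v ∈ pts σ v L := by
  induction L with
  | nil => simp [pts]
  | cons x L ih => exact mem_insert_of_mem ih

omit [DecidableEq α] in
lemma pts_card (σ : α → Equiv.Perm V) (v : V) (L : List (α × Bool)) :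
    (pts σ v L).card ≤ L.length + 1 := by
  induction L with
  | nil => simp [pts]
  | cons x L ih => exact (card_insert_le _ _).trans (by simpa using ih)

lemma sw_same (σ : α → Equiv.Perm V) (x : α × Bool) (y z : V) :
    letter (sw σ x y z) x = Equiv.swap y z * letter σ x := by
  obtain ⟨i, b⟩ := x
  cases b <;> simp [letter, sw]

lemma sw_inv (σ : α → Equiv.Perm V) (x : α × Bool) (y z : V) :
    letter (sw σ x y z) (x.1, !x.2) = (letter σ x)⁻¹ * Equiv.swap y z := by
  obtain ⟨i, b⟩ := x
  cases b <;> simp [letter, sw]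

lemma sw_sw (σ : α → Equiv.Perm V) (x : α × Bool) (y z : V) : sw (sw σ x y z) x y z = σ := by
  obtain ⟨i, b⟩ := x
  cases b
  · simp [sw, mul_assoc]
  · simp [sw, ← mul_assoc]

lemma keep (σ : α → Equiv.Perm V) (v : V) (x : α × Bool) (u z : V) (L : List (α × Bool))
    (hD : Dis σ v L) (hz : z ∉ pts σ v L)
    (hu : u ∉ pts σ v L ∨ (u = ev σ v L ∧ ∀ a ∈ L.head?, a ≠ (x.1, !x.2))) :
    ev (sw σ x (letter σ x u) z) v L = ev σ v L ∧
      pts (sw σ x (letter σ x u) z) v L = pts σ v L := by
  induction L with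
  | nil => exact ⟨rfl, rfl⟩
  | cons a L ih =>
    have hu' : u ∉ pts σ v L := by
      rcases hu with h | h
      · exact fun h' => h (mem_insert_of_mem h')
      · rw [h.1]; exact hD.2
    have hz' : z ∉ pts σ v L := fun h' => hz (mem_insert_of_mem h')
    have hp := ev_mem σ v L
    have hq : ev σ v (a :: L) ∈ pts σ v (a :: L) := ev_mem σ v _
    suffices h : ev (sw σ x (letter σ x u) z) v (a :: L) = ev σ v (a :: L) from
      ⟨h, by simp only [pts]; rw [h, (ih hD.1 hz' (Or.inl hu')).2]⟩
    simp only [ev] at hq ⊢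
    rw [(ih hD.1 hz' (Or.inl hu')).1]
    by_cases h1 : a = x
    · subst h1
      rw [sw_same, Equiv.Perm.mul_apply, Equiv.swap_apply_of_ne_of_ne]
      · intro h; exact hu' ((letter σ a).injective h ▸ hp)
      · intro h; exact hz (h ▸ hq)
    by_cases h2 : a = (x.1, !x.2)
    · have h3 : letter σ a = (letter σ x)⁻¹ := by
        subst h2; obtain ⟨i, b⟩ := x; cases b <;> simp [letter]
      rw [h3] at hq ⊢
      rw [h2, sw_inv, Equiv.Perm.mul_apply, Equiv.swap_apply_of_ne_of_ne]
      · intro h
        rcases hu with h' | h'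
        · exact h' (by simpa [h] using hq)
        · exact h'.2 a rfl h2
      · intro h; exact hz' (h ▸ hp)
    · have h3 : a.1 ≠ x.1 := by
        obtain ⟨i, b⟩ := x; obtain ⟨j, c⟩ := a
        rintro (rfl : j = i)
        cases b <;> cases c <;> simp_all
      simp [letter, sw, Function.update_of_ne h3]

variable [Fintype α] [Fintype V]

open Classical in
lemma step (v : V) (x : α × Bool) (L : List (α × Bool)) (h : ∀ a ∈ L.head?, a ≠ (x.1, !x.2)) :
    (univ.filter fun σ : α → Equiv.Perm V => Dis σ v L ∧ ev σ v (x :: L) ∈ pts σ v L).card *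
      (Fintype.card V - (L.length + 1)) ≤
      Fintype.card (α → Equiv.Perm V) * (L.length + 1) := by
  set S := univ.filter fun σ : α → Equiv.Perm V => Dis σ v L ∧ ev σ v (x :: L) ∈ pts σ v L
  have h1 : S.card * (Fintype.card V - (L.length + 1)) ≤
      (S.sigma fun σ => (pts σ v L)ᶜ).card := by
    rw [card_sigma, ← smul_eq_mul]
    refine card_nsmul_le_sum _ _ _ fun σ _ => ?_
    rw [card_compl]
    exact Nat.sub_le_sub_left (pts_card σ v L) _
  refine h1.trans ?_
  have key : ∀ a ∈ S.sigma fun σ => (pts σ v L)ᶜ,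
      ev (sw a.1 x (ev a.1 v (x :: L)) a.2) v L = ev a.1 v L ∧
      pts (sw a.1 x (ev a.1 v (x :: L)) a.2) v L = pts a.1 v L := fun a ha =>
    keep a.1 v x _ a.2 L (mem_filter.1 (mem_sigma.1 ha).1).2.1 (mem_compl.1 (mem_sigma.1 ha).2)
      (Or.inr ⟨rfl, h⟩)
  refine (card_le_mul_card_image_of_maps_to (t := univ)
    (f := fun a => sw a.1 x (ev a.1 v (x :: L)) a.2) (fun _ _ => mem_univ _) (L.length + 1)
    fun τ _ => ?_).trans (by rw [card_univ, mul_comm])
  refine (card_le_card_of_injOn (fun a => ev a.1 v (x :: L)) (t := pts τ v L) ?_ ?_).trans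
    (pts_card τ v L)
  · intro a ha
    obtain ⟨ha1, ha2⟩ := mem_filter.1 (mem_coe.1 ha)
    rw [← ha2, (key a ha1).2]
    exact (mem_filter.1 (mem_sigma.1 ha1).1).2.2
  · have hz : ∀ a ∈ S.sigma fun σ => (pts σ v L)ᶜ, sw a.1 x (ev a.1 v (x :: L)) a.2 = τ →
        a.2 = letter τ x (ev τ v L) := by
      rintro a ha rfl
      rw [(key a ha).1, sw_same, Equiv.Perm.mul_apply]
      exact (Equiv.swap_apply_left _ _).symm
    rintro ⟨σ, z⟩ ha ⟨σ', z'⟩ hb (hab : ev σ v (x :: L) = ev σ' v (x :: L))
    obtain ⟨ha, ha'⟩ := mem_filter.1 (mem_coe.1 ha)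
    obtain ⟨hb, hb'⟩ := mem_filter.1 (mem_coe.1 hb)
    obtain rfl : z = z' := (hz _ ha ha').trans (hz _ hb hb').symm
    obtain rfl : σ = σ' := by
      rw [← sw_sw σ x (ev σ v (x :: L)) z, ← sw_sw σ' x (ev σ' v (x :: L)) z]
      dsimp only at ha' hb'
      rw [ha', hb', hab]
    rfl

open Classical in
lemma notDis (v : V) (N : ℕ) (L : List (α × Bool)) (hL : FreeGroup.IsReduced L)
    (hN : L.length ≤ N) :
    (univ.filter fun σ : α → Equiv.Perm V => ¬ Dis σ v L).card * (Fintype.card V - N) ≤
      Fintype.card (α → Equiv.Perm V) * (L.length * N) := by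
  induction L with
  | nil => simp [Dis]
  | cons x L ih =>
    have h1 : FreeGroup.IsReduced L := List.IsChain.of_cons hL
    simp only [List.length_cons] at hN ⊢
    have h2 := ih h1 (by omega)
    have h3 := step v x L (by
      intro a ha h
      cases L with
      | nil => simp at ha
      | cons b L =>
        obtain rfl : b = a := by simpa using ha
        have := (FreeGroup.isReduced_cons_cons.1 hL).1
        rw [h] at this
        simpa using this rfl)
    have h4 : (univ.filter fun σ : α → Equiv.Perm V => ¬ Dis σ v (x :: L)).card ≤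
        (univ.filter fun σ : α → Equiv.Perm V => ¬ Dis σ v L).card + (univ.filter
          fun σ : α → Equiv.Perm V => Dis σ v L ∧ ev σ v (x :: L) ∈ pts σ v L).card := by
      refine (card_le_card fun σ hσ => ?_).trans (card_union_le _ _)
      simp only [Dis, mem_filter, mem_univ, true_and, mem_union] at hσ ⊢
      tauto
    have h5 := (Nat.mul_le_mul_left _ (Nat.sub_le_sub_left hN _)).trans h3
    have h6 := Nat.mul_le_mul_left (Fintype.card (α → Equiv.Perm V)) hN
    have h7 := Nat.mul_le_mul_right (Fintype.card V - N) h4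
    nlinarith

open Classical in
lemma fixcount (s : FreeGroup α) (hs : s ≠ 1) (m : ℕ) :
    (univ.filter fun σ : α → Equiv.Perm V =>
      m ≤ (univ.filter fun v => FreeGroup.lift σ s v = v).card).card * m *
      (Fintype.card V - s.toWord.length) ≤
      Fintype.card (α → Equiv.Perm V) * (s.toWord.length * s.toWord.length) * Fintype.card V := by
  have h1 : (univ.filter fun σ : α → Equiv.Perm V =>
      m ≤ (univ.filter fun v => FreeGroup.lift σ s v = v).card).card * m ≤
      ∑ v : V, (univ.filter fun σ : α → Equiv.Perm V => ¬ Dis σ v s.toWord).card := by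
    refine (card_nsmul_le_sum _ _ m fun σ hσ => (mem_filter.1 hσ).2).trans ?_
    refine (sum_le_sum_of_subset (filter_subset _ _)).trans ?_
    simp only [card_filter]
    rw [sum_comm]
    refine sum_le_sum fun v _ => sum_le_sum fun σ _ => ?_
    by_cases h2 : FreeGroup.lift σ s v = v
    · rw [if_pos h2, if_pos]
      intro h3
      rw [← FreeGroup.mk_toWord (x := s), ev_eq] at h2
      rcases h4 : s.toWord with _ | ⟨x, L⟩
      · exact hs (FreeGroup.toWord_eq_nil_iff.1 h4)
      · rw [h4] at h2 h3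
        exact h3.2 (h2.symm ▸ v_mem σ v L)
    · rw [if_neg h2]; exact Nat.zero_le _
  refine (Nat.mul_le_mul_right _ h1).trans ?_
  rw [sum_mul, mul_comm _ (Fintype.card V), ← smul_eq_mul, ← card_univ (α := V)]
  exact sum_le_card_nsmul _ _ _ fun v _ => notDis v _ _ FreeGroup.isReduced_toWord le_rfl

end Free

end Pool.Agent.Lib.helper23.RandA
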