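import Mathlib
import Pool.Agent.Lib.helper23.RandA

set_option autoImplicit false

open Finset Filter Topology

namespace Pool.Agent.Lib.helper23.RandB

lemma ball (A : Type) [Fintype A] [DecidableEq A] {θ : ℝ} (hθ : 0 < θ) :
    ∃ δ : ℝ, 0 < δ ∧ ∀ (V : Type) [Fintype V] [DecidableEq V] (ω0 : V → A),
      ((univ.filter fun ω : V → A =>
        ((univ.filter fun v => ω v ≠ ω0 v).card : ℝ) ≤ δ * Fintype.card V).card : ℝ) ≤
        Real.exp (θ * Fintype.card V) := by
  set q : ℝ := (Fintype.card A : ℝ) with hq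
  have hq0 : 0 ≤ q := Nat.cast_nonneg _
  set l : ℝ := min (θ / (2 * (q + 1))) (1 / 2) with hl
  have hl0 : 0 < l := lt_min (by positivity) (by norm_num)
  have hl1 : l < 1 := (min_le_right _ _).trans_lt (by norm_num)
  have hl2 : q * l ≤ θ / 2 := by
    have := min_le_left (θ / (2 * (q + 1))) (1 / 2)
    rw [← hl, le_div_iff₀ (by positivity)] at this
    nlinarith
  have hL : 0 < -Real.log l := neg_pos.2 (Real.log_neg hl0 hl1)
  refine ⟨θ / 2 / -Real.log l, by positivity, fun V _ _ ω0 => ?_⟩
  set n : ℝ := (Fintype.card V : ℝ) with hn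
  have h0 : ∀ (c : Prop) [Decidable c], (0:ℝ) ≤ if c then l else 1 := fun c _ => by
    split_ifs <;> linarith
  have h1 : ∑ ω : V → A, ∏ v, (if ω v ≠ ω0 v then l else 1) ≤ Real.exp (θ / 2 * n) := by
    rw [← Fintype.piFinset_univ,
      ← Finset.prod_univ_sum (fun _ => univ) (fun v a => if a ≠ ω0 v then l else 1)]
    refine (Finset.prod_le_prod (g := fun _ => Real.exp (θ / 2))
      (fun v _ => sum_nonneg fun a _ => h0 _) fun v _ => ?_).trans ?_
    · have : ∑ a : A, (if a ≠ ω0 v then l else 1) ≤ ∑ a : A, (l + if a = ω0 v then 1 else 0) :=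
        sum_le_sum fun a _ => by by_cases h : a = ω0 v <;> simp [h, hl0.le]
      rw [sum_add_distrib] at this
      simp only [sum_const, card_univ, nsmul_eq_mul, sum_ite_eq', mem_univ, if_true] at this
      linarith [Real.add_one_le_exp (θ / 2)]
    · rw [prod_const, ← Real.exp_nat_mul, card_univ, mul_comm]
  set S := univ.filter fun ω : V → A =>
    ((univ.filter fun v => ω v ≠ ω0 v).card : ℝ) ≤ θ / 2 / -Real.log l * n
  have h2 : S.card • Real.exp (-(θ / 2 * n)) ≤ ∑ ω ∈ S, ∏ v, (if ω v ≠ ω0 v then l else 1) := by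
    refine card_nsmul_le_sum _ _ _ fun ω hω => ?_
    have h3 := (mem_filter.1 hω).2
    rw [prod_ite, prod_const, prod_const_one, mul_one, ← Real.exp_log hl0, ← Real.exp_nat_mul,
      Real.exp_le_exp]
    rw [div_mul_eq_mul_div, le_div_iff₀ hL] at h3
    linarith
  have h3 := (h2.trans (sum_le_sum_of_subset_of_nonneg (subset_univ S)
    fun ω _ _ => prod_nonneg fun v _ => h0 _)).trans h1
  rw [nsmul_eq_mul, Real.exp_neg, ← div_eq_mul_inv, div_le_iff₀ (Real.exp_pos _),
    ← Real.exp_add] at h3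
  exact h3.trans_eq (by congr 1; ring)

section

variable {V A : Type} [Fintype V] [DecidableEq V] [Fintype A] [DecidableEq A]

def fib (ω ω' : V → A) : ℕ := (univ.filter fun g : Equiv.Perm V => ω ∘ g = ω').card

omit [Fintype A] in
lemma fib_le (ω ω' : V → A) : fib ω ω' ≤ fib ω ω := by
  rcases (univ.filter fun g : Equiv.Perm V => ω ∘ g = ω').eq_empty_or_nonempty with h | ⟨e, he⟩
  · rw [fib, h]; exact Nat.zero_le _
  · obtain rfl := (mem_filter.1 he).2
    refine card_le_card_of_injOn (fun g => g * e⁻¹) (fun g hg => ?_)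
      (mul_left_injective _).injOn
    have := (mem_filter.1 (mem_coe.1 hg)).2
    refine mem_coe.2 (mem_filter.2 ⟨mem_univ _, funext fun v => ?_⟩)
    simpa using congrFun this (e⁻¹ v)

lemma sum_fib : ∑ ω : V → A, fib ω ω ≤
    (Fintype.card V + 1) ^ Fintype.card A * (Fintype.card V).factorial := by
  set τ : (V → A) → (A → ℕ) := fun ω a => Fintype.card {v // ω v = a} with hτ
  rw [← sum_fiberwise_of_maps_to (g := τ)
    (t := Fintype.piFinset fun _ => range (Fintype.card V + 1))
    (fun ω _ => Fintype.mem_piFinset.2 fun a => mem_range.2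
      (Nat.lt_succ_of_le (Fintype.card_subtype_le _)))]
  refine (sum_le_card_nsmul _ _ (Fintype.card V).factorial fun t _ => ?_).trans (by simp)
  rcases (univ.filter fun ω : V → A => τ ω = t).eq_empty_or_nonempty with h | ⟨ω0, h0⟩
  · rw [h]; simp
  have h1 : ∀ ω ∈ univ.filter fun ω : V → A => τ ω = t, fib ω ω ≤ fib ω0 ω := by
    intro ω hω
    have h2 : τ ω = τ ω0 := (mem_filter.1 hω).2.trans (mem_filter.1 h0).2.symm
    set e : Equiv.Perm V := Equiv.ofFiberEquiv (f := ω) (g := ω0)
      fun a => Fintype.equivOfCardEq (congrFun h2 a)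
    have he : ∀ v, ω0 (e v) = ω v := fun v => Equiv.ofFiberEquiv_map _ v
    refine card_le_card_of_injOn (fun g => e * g) (fun g hg => ?_) (mul_right_injective _).injOn
    have := (mem_filter.1 (mem_coe.1 hg)).2
    refine mem_coe.2 (mem_filter.2 ⟨mem_univ _, funext fun v => ?_⟩)
    simpa [he] using congrFun this v
  refine (sum_le_sum h1).trans ((sum_le_sum_of_subset (subset_univ _)).trans ?_)
  rw [← Fintype.card_perm, ← card_univ,
    card_eq_sum_card_fiberwise (f := fun g : Equiv.Perm V => ω0 ∘ g) (t := univ)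
      (fun _ _ => mem_coe.2 (mem_univ _))]
  rfl

lemma two_pow (m a b : ℕ) (ha : m ≤ a) (hb : m ≤ b) :
    2 ^ m * (a.factorial * b.factorial) ≤ (a + b).factorial := by
  induction m generalizing a b with
  | zero =>
    rw [pow_zero, one_mul]
    exact Nat.le_of_dvd (Nat.factorial_pos _) (Nat.factorial_mul_factorial_dvd_factorial_add a b)
  | succ m ih =>
    obtain ⟨a, rfl⟩ : ∃ c, a = c + 1 := ⟨a - 1, by omega⟩
    obtain ⟨b, rfl⟩ : ∃ c, b = c + 1 := ⟨b - 1, by omega⟩
    have h1 := ih a b (by omega) (by omega)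
    have h2 : a + 1 + (b + 1) = a + b + 1 + 1 := by ring
    rw [h2, Nat.factorial_succ, Nat.factorial_succ, Nat.factorial_succ, Nat.factorial_succ]
    have h3 : 2 * ((a + 1) * (b + 1)) ≤ (a + b + 1 + 1) * (a + b + 1) := by nlinarith
    calc 2 ^ (m + 1) * ((a + 1) * a.factorial * ((b + 1) * b.factorial))
        = 2 * ((a + 1) * (b + 1)) * (2 ^ m * (a.factorial * b.factorial)) := by ring
      _ ≤ (a + b + 1 + 1) * (a + b + 1) * (a + b).factorial := Nat.mul_le_mul h3 h1
      _ = _ := by ring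

lemma stab_le (ω : V → Option Bool) (m : ℕ)
    (h1 : m ≤ (univ.filter fun v => ω v = some true).card)
    (h2 : m ≤ (univ.filter fun v => ω v = some false).card) :
    2 ^ m * fib ω ω ≤ (Fintype.card V).factorial := by
  have h3 := DomMulAct.stabilizer_card ω
  have h4 := card_eq_sum_card_fiberwise (f := ω) (s := univ) (t := univ)
    (fun _ _ => mem_coe.2 (mem_univ _))
  simp only [Fintype.card_subtype, Fintype.prod_option, Fintype.prod_bool] at h3
  rw [Fintype.sum_option, Fintype.sum_bool, card_univ] at h4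
  rw [fib, h3, h4, mul_left_comm]
  exact (Nat.mul_le_mul_left _ (two_pow m _ _ h1 h2)).trans (Nat.le_of_dvd (Nat.factorial_pos _)
    (Nat.factorial_mul_factorial_dvd_factorial_add _ _))

end

open Classical in
/-- Tuples of permutations with an almost equivariant two-colouring of many points. -/
noncomputable def Bad (r : ℕ) (V : Type) [Fintype V] [DecidableEq V] (ε δ : ℝ) :
    Finset (Fin r → Equiv.Perm V) :=
  univ.filter fun σ => ∃ ω : V → Option Bool,
    ε * Fintype.card V < (univ.filter fun v => ω v ≠ none).card ∧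
    ∀ i, ((univ.filter fun v => ω (σ i v) ≠ (ω v).map not).card : ℝ) ≤ δ * Fintype.card V

lemma nb (r : ℕ) {ε : ℝ} (hε : 0 < ε) : ∃ δ : ℝ, 0 < δ ∧
    ∀ (V : Type) [Fintype V] [DecidableEq V], ((Bad (r + 2) V ε δ).card : ℝ) ≤
      (Fintype.card V + 1) ^ 3 * Real.exp (-(ε / 16 * Fintype.card V)) *
        Fintype.card (Fin (r + 2) → Equiv.Perm V) := by
  classical
  obtain ⟨δ0, hδ0, hball⟩ := ball (Option Bool) (θ := ε / 32) (by positivity)
  refine ⟨min δ0 (ε / 2), lt_min hδ0 (by positivity), fun V _ _ => ?_⟩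
  set δ := min δ0 (ε / 2)
  set n : ℝ := (Fintype.card V : ℝ) with hn
  have hn0 : 0 ≤ n := Nat.cast_nonneg _
  set N : ℝ := ((Fintype.card V).factorial : ℝ) with hN
  set m := ⌈ε / 4 * n⌉₊ with hm
  set W : Finset (V → Option Bool) := univ.filter fun ω =>
    m ≤ (univ.filter fun v => ω v = some true).card ∧
    m ≤ (univ.filter fun v => ω v = some false).card with hW
  set G : (V → Option Bool) → Finset (Equiv.Perm V) := fun ω => univ.filter fun g =>
    ((univ.filter fun v => ω (g v) ≠ (ω v).map not).card : ℝ) ≤ δ * n with hG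
  have h1 : Bad (r + 2) V ε δ ⊆ W.biUnion fun ω =>
      Fintype.piFinset (Fin.cons (G ω) (Fin.cons (G ω) fun _ : Fin r => univ)) := by
    intro σ hσ
    obtain ⟨ω, h2, h3⟩ := (mem_filter.1 hσ).2
    refine mem_biUnion.2 ⟨ω, ?_, Fintype.mem_piFinset.2 fun i => ?_⟩
    · have h4 : ∀ b : Bool, ((univ.filter fun v => ω v = some b).card : ℝ) ≤
          (univ.filter fun v => ω v = some (!b)).card + ε / 2 * n := by
        intro b
        have h5 : (univ.filter fun v => ω v = some b).card ≤
            (univ.filter fun v => ω (σ 0 v) = some (!b)).card +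
            (univ.filter fun v => ω (σ 0 v) ≠ (ω v).map not).card := by
          refine (card_le_card fun v hv => ?_).trans (card_union_le _ _)
          simp only [mem_filter, mem_univ, true_and, mem_union] at hv ⊢
          rw [hv]; exact em _
        rw [card_bijective (σ 0) (σ 0).bijective (s := univ.filter fun v => ω (σ 0 v) = some (!b))
          (t := univ.filter fun v => ω v = some (!b)) (by simp)] at h5
        have h6 : δ * n ≤ ε / 2 * n := mul_le_mul_of_nonneg_right (min_le_right _ _) hn0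
        have h7 := h3 0
        have h8 := (Nat.cast_le (α := ℝ)).2 h5
        push_cast at h8
        linarith
      have h5 : (univ.filter fun v => ω v ≠ none).card ≤
          (univ.filter fun v => ω v = some true).card +
          (univ.filter fun v => ω v = some false).card := by
        refine (card_le_card fun v hv => ?_).trans (card_union_le _ _)
        simp only [mem_filter, mem_univ, true_and, mem_union] at hv ⊢
        rcases h : ω v with _ | _ | _ <;> simp_all
      have h6 := (Nat.cast_le (α := ℝ)).2 h5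
      have h7 := h4 true
      have h8 := h4 false
      push_cast at h6
      simp only [Bool.not_true, Bool.not_false] at h7 h8
      exact mem_filter.2 ⟨mem_univ _, Nat.ceil_le.2 (by linarith), Nat.ceil_le.2 (by linarith)⟩
    · refine Fin.cases ?_ (fun i => Fin.cases ?_ (fun i => ?_) i) i
      · exact mem_filter.2 ⟨mem_univ _, h3 _⟩
      · exact mem_filter.2 ⟨mem_univ _, h3 _⟩
      · exact mem_univ _
  have h2 : ∀ ω, ((G ω).card : ℝ) ≤ fib ω ω * Real.exp (ε / 32 * n) := by
    intro ω
    have h3 := card_le_mul_card_image_of_maps_to (s := G ω) (f := fun g : Equiv.Perm V => ω ∘ g)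
      (t := univ.filter fun ω' : V → Option Bool =>
        ((univ.filter fun v => ω' v ≠ (ω v).map not).card : ℝ) ≤ δ0 * n)
      (fun g hg => mem_filter.2 ⟨mem_univ _, (mem_filter.1 hg).2.trans
        (mul_le_mul_of_nonneg_right (min_le_left _ _) hn0)⟩) (fib ω ω)
      (fun ω' _ => (card_le_card (filter_subset_filter _ (subset_univ _))).trans (fib_le ω ω'))
    have h4 := (Nat.cast_le (α := ℝ)).2 h3
    push_cast at h4
    exact h4.trans (mul_le_mul_of_nonneg_left (hball V _) (Nat.cast_nonneg _))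
  have h3 : ∀ ω ∈ W, (fib ω ω : ℝ) ≤ N * Real.exp (-(ε / 8 * n)) := by
    intro ω hω
    have h4 := (Nat.cast_le (α := ℝ)).2
      (stab_le ω m (mem_filter.1 hω).2.1 (mem_filter.1 hω).2.2)
    push_cast at h4
    have h5 : Real.exp (ε / 8 * n) ≤ 2 ^ m := by
      rw [← Real.exp_log two_pos, ← Real.exp_nat_mul, Real.exp_le_exp]
      have := Nat.le_ceil (ε / 4 * n)
      have := Real.log_two_gt_d9
      nlinarith [mul_nonneg hε.le hn0]
    rw [Real.exp_neg, ← div_eq_mul_inv, le_div_iff₀ (Real.exp_pos _)]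
    nlinarith [mul_le_mul_of_nonneg_left h5 (Nat.cast_nonneg (fib ω ω))]
  have h4 : ((Bad (r + 2) V ε δ).card : ℝ) ≤ ∑ ω ∈ W, ((G ω).card : ℝ) * ((G ω).card * N ^ r) := by
    have := (card_le_card h1).trans card_biUnion_le
    simp only [Fintype.card_piFinset, Fin.prod_univ_succ, Fin.cons_zero, Fin.cons_succ,
      card_univ, Fintype.card_perm, prod_const, Fintype.card_fin] at this
    rw [hN]; exact_mod_cast this
  have h5 : ∑ ω ∈ W, (fib ω ω : ℝ) ≤ (n + 1) ^ 3 * N := by
    have := (sum_le_sum_of_subset (subset_univ W)).trans (sum_fib (V := V) (A := Option Bool))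
    simp only [Fintype.card_option, Fintype.card_bool] at this
    rw [hN, hn]; exact_mod_cast this
  have hN0 : 0 ≤ N := Nat.cast_nonneg _
  refine h4.trans ((sum_le_sum (g := fun ω => (fib ω ω : ℝ) *
    (Real.exp (-(ε / 16 * n)) * N ^ (r + 1))) fun ω hω => ?_).trans ?_)
  · have h6 : ((G ω).card : ℝ) ≤ N * Real.exp (-(ε / 8 * n)) * Real.exp (ε / 32 * n) :=
      (h2 ω).trans (mul_le_mul_of_nonneg_right (h3 ω hω) (Real.exp_pos _).le)
    have h7 : Real.exp (-(ε / 16 * n)) =
        Real.exp (-(ε / 8 * n)) * Real.exp (ε / 32 * n) * Real.exp (ε / 32 * n) := by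
      rw [← Real.exp_add, ← Real.exp_add]; congr 1; ring
    calc ((G ω).card : ℝ) * ((G ω).card * N ^ r) ≤ (fib ω ω * Real.exp (ε / 32 * n)) *
          (N * Real.exp (-(ε / 8 * n)) * Real.exp (ε / 32 * n) * N ^ r) := by
          gcongr; exact h2 ω
      _ = _ := by rw [h7]; ring
  · rw [← sum_mul, Fintype.card_fun, Fintype.card_perm, Fintype.card_fin]
    push_cast
    calc _ ≤ (n + 1) ^ 3 * N * (Real.exp (-(ε / 16 * n)) * N ^ (r + 1)) := by gcongr
      _ = _ := by ring

lemma diag {J : Type} [Countable J] [Nonempty J] (Ω : ℕ → Type) [∀ n, Fintype (Ω n)]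
    [∀ n, Nonempty (Ω n)] (B : J → ∀ n, Finset (Ω n))
    (h : ∀ j, Tendsto (fun n => ((B j n).card : ℝ) / Fintype.card (Ω n)) atTop (𝓝 0)) :
    ∃ σ : ∀ n, Ω n, ∀ j, ∀ᶠ n in atTop, σ n ∉ B j n := by
  classical
  obtain ⟨e, he⟩ := exists_surjective_nat J
  set Q : ℕ → ℕ → Prop := fun n L => ∃ σ : Ω n, ∀ j ≤ L, σ ∉ B (e j) n with hQ
  have h1 : ∀ L, ∀ᶠ n in atTop, Q n L := by
    intro L
    have h2 := tendsto_finsetSum (range (L + 1)) fun j _ => h (e j)
    rw [sum_const_zero] at h2
    filter_upwards [h2.eventually (gt_mem_nhds one_pos)] with n hn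
    rw [← sum_div, div_lt_one (by exact_mod_cast Fintype.card_pos)] at hn
    have h3 : ((range (L + 1)).biUnion fun j => B (e j) n).card < (univ : Finset (Ω n)).card :=
      card_biUnion_le.trans_lt (by rw [card_univ]; exact_mod_cast hn)
    obtain ⟨σ, -, hσ⟩ := exists_mem_notMem_of_card_lt_card h3
    exact ⟨σ, fun j hj h => hσ (mem_biUnion.2 ⟨j, mem_range.2 (by omega), h⟩)⟩
  refine ⟨fun n => if h : Q n (Nat.findGreatest (Q n) n) then h.choose else Classical.arbitrary _,
    fun j => ?_⟩
  obtain ⟨j, rfl⟩ := he j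
  filter_upwards [h1 j, eventually_ge_atTop j] with n h2 h3
  have h4 := Nat.findGreatest_spec h3 h2
  rw [dif_pos h4]
  exact h4.choose_spec j (Nat.le_findGreatest h3 h2)

open Classical in
theorem rand (r : ℕ) : ∃ σ : ∀ n : ℕ, Fin (r + 2) → Equiv.Perm (Fin n),
    (∀ s : FreeGroup (Fin (r + 2)), s ≠ 1 → ∀ η : ℝ, 0 < η → ∀ᶠ n : ℕ in atTop,
      ((univ.filter fun v => FreeGroup.lift (σ n) s v = v).card : ℝ) ≤ η * n) ∧
    ∀ ε : ℝ, 0 < ε → ∃ δ : ℝ, 0 < δ ∧ ∀ᶠ n : ℕ in atTop, ∀ ω : Fin n → Option Bool,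
      (∀ i, ((univ.filter fun v => ω (σ n i v) ≠ (ω v).map not).card : ℝ) ≤ δ * n) →
      ((univ.filter fun v => ω v ≠ none).card : ℝ) ≤ ε * n := by
  choose δ hδ hnb using fun k : ℕ => nb r (ε := 1 / ((k : ℝ) + 1)) (by positivity)
  obtain ⟨σ, hσ⟩ := diag (J := ({s : FreeGroup (Fin (r + 2)) // s ≠ 1} × ℕ) ⊕ ℕ)
    (fun n => Fin (r + 2) → Equiv.Perm (Fin n))
    (Sum.elim (fun a n => univ.filter fun σ => n / (a.2 + 1) ≤
      (univ.filter fun v => FreeGroup.lift σ a.1.1 v = v).card)
      fun k n => Bad (r + 2) (Fin n) (1 / ((k : ℝ) + 1)) (δ k)) (by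
    rintro (⟨⟨s, hs⟩, k⟩ | k)
    · set l := s.toWord.length
      have h1 : Tendsto (fun n : ℕ => n / (k + 1)) atTop atTop :=
        Nat.tendsto_div_const_atTop (by omega)
      have h2 := (tendsto_natCast_atTop_atTop (R := ℝ).comp h1).const_div_atTop
        (2 * (l * l : ℝ))
      refine squeeze_zero' (Eventually.of_forall fun n => by positivity) ?_ h2
      filter_upwards [h1.eventually_gt_atTop 0, eventually_gt_atTop (2 * l)] with n h3 h4
      have h5 := RandA.fixcount (V := Fin n) s hs (n / (k + 1))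
      simp only [Fintype.card_fin] at h5
      have h6 := (Nat.cast_le (α := ℝ)).2 h5
      rw [Nat.cast_mul, Nat.cast_mul, Nat.cast_sub (by omega)] at h6
      have h7 : (2 * l : ℝ) < n := by exact_mod_cast h4
      have h8 : (0:ℝ) < (n / (k + 1) : ℕ) := by exact_mod_cast h3
      simp only [Sum.elim_inl, Function.comp]
      rw [div_le_div_iff₀ (by exact_mod_cast Fintype.card_pos) h8]
      push_cast at h6
      have h9 : (0:ℝ) < n := lt_of_le_of_lt (by positivity) h7
      refine le_of_mul_le_mul_right ?_ h9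
      refine le_trans ?_ ((mul_le_mul_of_nonneg_left h6 zero_le_two).trans_eq (by ring))
      rw [mul_left_comm]
      gcongr
      linarith
    · set c : ℝ := 1 / ((k : ℝ) + 1) / 16 with hc
      have hc0 : 0 < c := by positivity
      have h1 : Tendsto (fun n : ℕ => c * ((n : ℝ) + 1)) atTop atTop :=
        (tendsto_atTop_add_const_right _ 1 tendsto_natCast_atTop_atTop).const_mul_atTop hc0
      have h2 := ((Real.tendsto_pow_mul_exp_neg_atTop_nhds_zero 3).comp h1).const_mul
        (Real.exp c / c ^ 3)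
      rw [mul_zero] at h2
      refine squeeze_zero (fun n => by positivity) (fun n => ?_) h2
      have h3 := hnb k (Fin n)
      simp only [Sum.elim_inr, Function.comp]
      rw [div_le_iff₀ (by exact_mod_cast Fintype.card_pos)]
      refine h3.trans_eq ?_
      rw [Fintype.card_fin, ← hc, show -(c * n) = c + -(c * ((n : ℝ) + 1)) by ring, Real.exp_add]
      field_simp)
  refine ⟨σ, fun s hs η hη => ?_, fun ε hε => ?_⟩
  · obtain ⟨k, hk⟩ := exists_nat_one_div_lt hη
    filter_upwards [hσ (Sum.inl (⟨s, hs⟩, k))] with n hn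
    simp only [Sum.elim_inl, mem_filter, mem_univ, true_and, not_le] at hn
    have h1 := (Nat.cast_le (α := ℝ)).2 hn.le
    refine h1.trans (Nat.cast_div_le.trans ?_)
    push_cast
    rw [div_eq_mul_one_div, mul_comm]
    gcongr
  · obtain ⟨k, hk⟩ := exists_nat_one_div_lt hε
    refine ⟨δ k, hδ k, ?_⟩
    filter_upwards [hσ (Sum.inr k)] with n hn ω hω
    simp only [Sum.elim_inr, Bad, mem_filter, mem_univ, true_and, not_exists, not_and,
      Fintype.card_fin] at hn
    have h1 : ((univ.filter fun v => ω v ≠ none).card : ℝ) ≤ 1 / ((k : ℝ) + 1) * n := by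
      by_contra h
      exact hn ω (not_le.1 h) hω
    refine h1.trans ?_
    gcongr

end Pool.Agent.Lib.helper23.RandB
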