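import Mathlib
import Pool.Agent.Lib.helper23.RandB

set_option autoImplicit false

open Filter Topology

namespace Pool.Agent.Lib.helper23.RandC

open Classical in
lemma net {G V : Type} [Fintype V] (F : Finset G) (σ : G → Equiv.Perm V) {M : ℕ} (hM : 0 < M)
    (hF : F.card = M * M) (Bad : Finset V)
    (hB : ∀ c, c ∉ Bad → Set.InjOn (fun s => σ s c) F) :
    ∃ C : Finset V, M * C.card ≤ 2 * Fintype.card V + M * Bad.card ∧
      ∀ v, v ∉ C → ∃ s ∈ F, ∃ c ∈ C, v = σ s c := by
  set R : Finset V → Finset V := fun C =>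
    Finset.univ.filter fun v => ∀ s ∈ F, ∀ c ∈ C, v ≠ σ s c with hR
  obtain ⟨C, -, hC⟩ := Finset.exists_min_image Finset.univ
    (fun C => M * C.card + (R C).card) ⟨∅, Finset.mem_univ _⟩
  have h1 : M * C.card ≤ Fintype.card V := by
    have := hC ∅ (Finset.mem_univ _)
    have h2 : (R ∅).card ≤ Fintype.card V := by simpa using Finset.card_le_univ (R ∅)
    simp only [Finset.card_empty, mul_zero, zero_add] at this
    omega
  have h2 : ∀ c, c ∉ Bad → (F.filter fun s => σ s c ∈ R C).card ≤ M := by
    intro c hc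
    rw [← Finset.card_image_of_injOn ((hB c hc).mono (Finset.coe_subset.2
      (Finset.filter_subset _ _)))]
    have h3 := hC (insert c C) (Finset.mem_univ _)
    have h4 : M * (insert c C).card ≤ M * C.card + M :=
      Nat.mul_le_mul_left M (Finset.card_insert_le c C)
    have h5 : (R (insert c C)).card + ((F.filter fun s => σ s c ∈ R C).image
        fun s => σ s c).card ≤ (R C).card := by
      rw [← Finset.card_union_of_disjoint]
      · refine Finset.card_le_card (Finset.union_subset (fun v hv => ?_) fun v hv => ?_)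
        · simp only [hR, Finset.mem_filter, Finset.mem_univ, true_and] at hv ⊢
          exact fun s hs c' hc' => hv s hs c' (Finset.mem_insert_of_mem hc')
        · obtain ⟨s, hs, rfl⟩ := Finset.mem_image.1 hv
          exact (Finset.mem_filter.1 hs).2
      · refine Finset.disjoint_left.2 fun v hv hv' => ?_
        obtain ⟨s, hs, rfl⟩ := Finset.mem_image.1 hv'
        exact (Finset.mem_filter.1 hv).2 s (Finset.mem_filter.1 hs).1 c
          (Finset.mem_insert_self _ _) rfl
    omega
  have h3 : ∑ c, (F.filter fun s => σ s c ∈ R C).card = M * M * (R C).card := by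
    simp only [Finset.card_filter]
    rw [Finset.sum_comm, ← hF, ← smul_eq_mul, ← Finset.sum_const]
    refine Finset.sum_congr rfl fun s _ => ?_
    rw [Equiv.sum_comp (σ s) (fun v => if v ∈ R C then 1 else 0)]
    simp
  have h4 : ∑ c, (F.filter fun s => σ s c ∈ R C).card ≤
      ∑ c : V, (M + if c ∈ Bad then M * M else 0) := by
    refine Finset.sum_le_sum fun c _ => ?_
    split_ifs with hc
    · exact (Finset.card_filter_le _ _).trans (by omega)
    · simpa using h2 c hc
  have h5 : M * (R C).card ≤ Fintype.card V + M * Bad.card := by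
    rw [h3, Finset.sum_add_distrib] at h4
    simp only [Finset.sum_const, Finset.card_univ, smul_eq_mul,
      Finset.sum_ite_mem, Finset.univ_inter] at h4
    refine Nat.le_of_mul_le_mul_left ?_ hM
    nlinarith
  refine ⟨C ∪ R C, ?_, fun v hv => ?_⟩
  · have := Nat.mul_le_mul_left M (Finset.card_union_le C (R C))
    rw [mul_add] at this
    omega
  · simp only [hR, Finset.mem_union, Finset.mem_filter, Finset.mem_univ, true_and, not_or] at hv
    have := hv.2
    push Not at this
    obtain ⟨s, hs, c, hc, h⟩ := this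
    exact ⟨s, hs, c, Finset.mem_union_left _ hc, h⟩

open Finset

lemma colourings {G V B : Type} [Fintype V] [DecidableEq V] [Fintype B] [DecidableEq B] (F : Finset G) (σ : G → Equiv.Perm V)
    (φ : G → B → B) (C : Finset V) (hC : ∀ v, v ∉ C → ∃ s ∈ F, ∃ c ∈ C, v = σ s c)
    {δ δ0 E : ℝ} (hδ : F.card * δ ≤ δ0)
    (hE : ∀ ω0 : V → B, ((univ.filter fun ω : V → B =>
        ((univ.filter fun v => ω v ≠ ω0 v).card : ℝ) ≤ δ0 * Fintype.card V).card : ℝ) ≤ E) :
    ((univ.filter fun c : V → B => ((univ.filter fun k => ¬ ∀ g ∈ F, c (σ g k) = φ g (c k)).card : ℝ)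
      ≤ δ * Fintype.card V).card : ℝ) ≤ E * Fintype.card B ^ C.card := by
  choose s hs c hc hsc using hC
  set S := univ.filter fun c : V → B =>
    ((univ.filter fun k => ¬ ∀ g ∈ F, c (σ g k) = φ g (c k)).card : ℝ) ≤ δ * Fintype.card V
  rw [card_eq_sum_card_fiberwise (s := S) (f := fun (ω : V → B) (v : C) => ω v) (t := univ)
    (fun _ _ => mem_coe.2 (mem_univ _))]
  push_cast
  refine (sum_le_card_nsmul _ _ E fun b _ => ?_).trans (by simp [mul_comm])
  refine le_trans (Nat.cast_le.2 (card_le_card fun ω hω => ?_))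
    (hE fun v => if h : v ∈ C then b ⟨v, h⟩ else φ (s v h) (b ⟨c v h, hc v h⟩))
  obtain ⟨h1, rfl⟩ := mem_filter.1 hω
  have h2 := (mem_filter.1 h1).2
  refine mem_filter.2 ⟨mem_univ _, ?_⟩
  set Bd := univ.filter fun k => ¬ ∀ g ∈ F, ω (σ g k) = φ g (ω k)
  have h3 : (univ.filter fun v => ω v ≠
      if h : v ∈ C then ω v else φ (s v h) (ω (c v h))) ⊆ F.biUnion fun g => Bd.image (σ g) := by
    intro v hv
    have hv := (mem_filter.1 hv).2
    split_ifs at hv with h
    · exact absurd rfl hv
    · refine mem_biUnion.2 ⟨s v h, hs v h, mem_image.2 ⟨c v h, mem_filter.2 ⟨mem_univ _,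
        fun h4 => hv ?_⟩, (hsc v h).symm⟩⟩
      rw [← h4 _ (hs v h), ← hsc v h]
  have h4 := (card_le_card h3).trans
    (card_biUnion_le_card_mul _ _ Bd.card fun g _ => card_image_le)
  have h5 := (Nat.cast_le (α := ℝ)).2 h4
  push_cast at h5
  refine h5.trans ((mul_le_mul_of_nonneg_left h2 (Nat.cast_nonneg _)).trans ?_)
  rw [← mul_assoc]
  exact mul_le_mul_of_nonneg_right hδ (Nat.cast_nonneg _)

lemma fibre {V : Type} [Fintype V] [DecidableEq V] {k : ℕ} (hk : 1 ≤ k) (c : V → Option Bool) :
    (univ.filter fun ω : V → Option (Bool × Fin k) =>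
      (fun v => (ω v).map Prod.fst) = c).card ≤ k ^ (univ.filter fun v => c v ≠ none).card := by
  have h1 : (univ.filter fun ω : V → Option (Bool × Fin k) => (fun v => (ω v).map Prod.fst) = c) ⊆
      Fintype.piFinset fun v => univ.filter fun a : Option (Bool × Fin k) =>
        a.map Prod.fst = c v := fun ω hω =>
    Fintype.mem_piFinset.2 fun v => mem_filter.2 ⟨mem_univ _, congrFun (mem_filter.1 hω).2 v⟩
  refine (card_le_card h1).trans ?_
  rw [Fintype.card_piFinset, ← prod_const, prod_filter]
  refine prod_le_prod' fun v _ => ?_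
  rcases c v with _ | b
  · refine (card_le_one.2 fun a ha a' ha' => ?_).trans (by simp)
    rw [Option.map_eq_none_iff.1 (mem_filter.1 ha).2, Option.map_eq_none_iff.1 (mem_filter.1 ha').2]
  · refine (card_le_card (t := univ.image fun j : Fin k => some (b, j)) fun a ha => ?_).trans
      (card_image_le.trans (by simp))
    obtain ⟨⟨b', j⟩, rfl, rfl⟩ := Option.map_eq_some_iff.1 (mem_filter.1 ha).2
    exact mem_image.2 ⟨j, mem_univ _, rfl⟩

lemma lg_le {N n : ℕ} {c : ℝ} (hn : 0 < n) (h : (N : ℝ) ≤ Real.exp (c * n)) :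
    ENNReal.log N / (n : EReal) ≤ (c : EReal) := by
  rw [EReal.div_le_iff_le_mul (by exact_mod_cast hn) (EReal.natCast_ne_top n)]
  calc ENNReal.log N = ENNReal.log (ENNReal.ofReal N) := by simp
    _ ≤ ENNReal.log (ENNReal.ofReal (Real.exp (c * n))) :=
        ENNReal.log_le_log (ENNReal.ofReal_le_ofReal h)
    _ = _ := by
        rw [ENNReal.log_ofReal_of_pos (Real.exp_pos _), Real.log_exp, mul_comm]; norm_cast

lemma le_lg {N n : ℕ} {c : ℝ} (hn : 0 < n) (h : Real.exp (c * n) ≤ N) :
    (c : EReal) ≤ ENNReal.log N / (n : EReal) := by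
  rw [EReal.le_div_iff_mul_le (by exact_mod_cast hn) (EReal.natCast_ne_top n)]
  calc (c : EReal) * n = ENNReal.log (ENNReal.ofReal (Real.exp (c * n))) := by
        rw [ENNReal.log_ofReal_of_pos (Real.exp_pos _), Real.log_exp]; norm_cast
    _ ≤ ENNReal.log (ENNReal.ofReal N) := ENNReal.log_le_log (ENNReal.ofReal_le_ofReal h)
    _ = _ := by simp

end Pool.Agent.Lib.helper23.RandC
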