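import Mathlib

set_option autoImplicit false

open Set Filter Topology TopologicalSpace

namespace Pool.Agent.Lib.helper23.Ros

/-- the one-point compactification of the discrete continuum, as functions on the line -/
def K : Set (ℝ → ℝ) := {f | (∀ x, f x ∈ ({0, 1} : Set ℝ)) ∧ ∀ x y, x ≠ y → f x * f y = 0}

lemma K_compact : IsCompact K := by
  have h1 : IsCompact (Set.pi univ fun _ : ℝ => ({0, 1} : Set ℝ)) :=
    isCompact_univ_pi fun _ => (toFinite _).isCompact
  have h2 : IsClosed {f : ℝ → ℝ | ∀ x y, x ≠ y → f x * f y = 0} := by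
    simp only [setOf_forall]
    exact isClosed_iInter fun x => isClosed_iInter fun y => isClosed_iInter fun _ =>
      isClosed_eq ((continuous_apply x).mul (continuous_apply y)) continuous_const
  have h3 : K = (Set.pi univ fun _ : ℝ => ({0, 1} : Set ℝ)) ∩
      {f : ℝ → ℝ | ∀ x y, x ≠ y → f x * f y = 0} :=
    Set.ext fun f => ⟨fun h => ⟨fun x _ => h.1 x, h.2⟩, fun h => ⟨fun x => h.1 x trivial, h.2⟩⟩
  exact h3 ▸ h1.inter_right h2

lemma K_baire {f : ℝ → ℝ} (hf : f ∈ K) : ∃ g : ℕ → ℝ → ℝ, (∀ n, Continuous (g n)) ∧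
    ∀ x, Tendsto (fun n => g n x) atTop (𝓝 (f x)) := by
  by_cases h : ∃ a, f a = 1
  · obtain ⟨a, ha⟩ := h
    refine ⟨fun n x => Real.exp (-|x - a|) ^ n, fun n => by fun_prop, fun x => ?_⟩
    by_cases hx : x = a
    · subst hx
      simp [ha]
    · have h0 : f x = 0 := by simpa [ha] using hf.2 x a hx
      rw [h0]
      exact tendsto_pow_atTop_nhds_zero_of_lt_one (Real.exp_pos _).le
        (Real.exp_lt_one_iff.2 (neg_lt_zero.2 (abs_pos.2 (sub_ne_zero.2 hx))))
  · refine ⟨fun _ _ => 0, fun _ => continuous_const, fun x => ?_⟩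
    have h0 : f x = 0 := (hf.1 x).resolve_right fun h1 => h ⟨x, h1⟩
    rw [h0]
    exact tendsto_const_nhds

lemma K_not_sep : ¬ SeparableSpace K := by
  intro h
  have h1 : Pairwise (Function.onFun Disjoint fun a : ℝ => {f : K | 0 < f.1 a}) := fun a b hab =>
    disjoint_left.2 fun f ha hb => (mul_pos (α := ℝ) ha hb).ne' (f.2.2 a b hab)
  have h2 : ∀ a : ℝ, IsOpen {f : K | 0 < f.1 a} := fun a =>
    isOpen_lt continuous_const ((continuous_apply a).comp continuous_subtype_val)
  have h3 : ∀ a : ℝ, {f : K | 0 < f.1 a}.Nonempty := fun a => by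
    classical
    refine ⟨⟨fun x => if x = a then 1 else 0, fun x => ?_, fun x y hxy => ?_⟩, ?_⟩
    · by_cases hx : x = a <;> simp [hx]
    · by_cases hx : x = a
      · have hy : ¬ y = a := fun hy => hxy (hx.trans hy.symm)
        simp [hy]
      · simp [hx]
    · simp
  exact not_countable (h1.countable_of_isOpen_disjoint h2 h3)

lemma main {X Y S : Type} [TopologicalSpace X] [TopologicalSpace Y] [SeparableSpace X]
    [SeparableSpace Y] [TopologicalSpace S] (v : S → X × Y → ℝ) (hv : Function.Injective v)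
    (h1 : ∀ s x, Continuous fun y => v s (x, y)) (h2 : ∀ s y, Continuous fun x => v s (x, y))
    (h3 : ∀ p, Continuous fun s => v s p) (e : K → S) (he : Continuous e) :
    ¬ Function.Injective e := by
  intro hi
  obtain ⟨D, d1, d2⟩ := exists_countable_dense X
  obtain ⟨E, e1, e2⟩ := exists_countable_dense Y
  haveI := d1.to_subtype
  haveI := e1.to_subtype
  haveI := isCompact_iff_compactSpace.1 K_compact
  have h4 : Continuous fun (s : K) (p : D × E) => v (e s) (p.1, p.2) :=
    continuous_pi fun p => (h3 _).comp he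
  have h5 : Function.Injective fun (s : K) (p : D × E) => v (e s) (p.1, p.2) := fun s t h => by
    refine hi (hv ?_)
    funext ⟨x, y⟩
    refine congrFun ((h2 _ y).ext_on d2 (h2 _ y) fun x hx => ?_) x
    exact congrFun ((h1 _ x).ext_on e2 (h1 _ x) fun y hy => congrFun h (⟨x, hx⟩, ⟨y, hy⟩)) y
  haveI := (h4.isClosedEmbedding h5).isEmbedding.secondCountableTopology
  exact K_not_sep inferInstance

lemma cross {X Y : Type} [TopologicalSpace X] [TopologicalSpace Y] [T1Space X] [T1Space Y]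
    {f : X × Y → ℝ} (h1 : ∀ x, Continuous fun y => f (x, y))
    (h2 : ∀ y, Continuous fun x => f (x, y)) (c : X × Y) {W : Set ℝ} (hW : IsOpen W)
    (hc : f c ∈ W) : ∃ O, IsOpen O ∧ c ∈ O ∧ ∀ p ∈ closure (O ∩ {p | p.1 = c.1 ∨ p.2 = c.2}),
      f p ∈ W := by
  obtain ⟨V, v1, v2, v3⟩ := exists_mem_nhds_isClosed_subset (hW.mem_nhds hc)
  refine ⟨{x | f (x, c.2) ∈ interior V} ×ˢ {y | f (c.1, y) ∈ interior V},
    (isOpen_interior.preimage (h2 _)).prod (isOpen_interior.preimage (h1 _)),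
    ⟨mem_interior_iff_mem_nhds.2 v1, mem_interior_iff_mem_nhds.2 v1⟩, fun p hp => ?_⟩
  have h3 := closure_minimal (t := {c.1} ×ˢ {y | f (c.1, y) ∈ V} ∪ {x | f (x, c.2) ∈ V} ×ˢ {c.2})
    (fun q hq => hq.2.imp (⟨·, interior_subset (s := V) hq.1.2⟩)
      (⟨interior_subset (s := V) hq.1.1, ·⟩))
    ((isClosed_singleton.prod (v2.preimage (h1 _))).union
      ((v2.preimage (h2 _)).prod isClosed_singleton)) hp
  obtain ⟨x, y⟩ := p
  rcases h3 with ⟨rfl, h⟩ | ⟨h, rfl⟩ <;> exact v3 h

end Pool.Agent.Lib.helper23.Ros
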