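import Pool.Agent.Lib.helper23.Comb

set_option autoImplicit false

/-! A dense subspace of a Cantor cube that fills all countable faces and whose countable subsets
are separated by coordinates (Shakhmatov's space), and the extension theorem for such subspaces. -/

namespace Pool.Agent.Lib.helper23

open Set Topology Filter

/-- `X` fills every countable face of the cube -/
def Fills {T : Type} (X : Set (T → Bool)) : Prop :=
  ∀ A : Set T, A.Countable → ∀ y : T → Bool, ∃ x ∈ X, ∀ t ∈ A, x t = y t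

lemma cyl_nhds {T : Type} {X : Set (T → Bool)} (x : X) (U : Set X) (hU : U ∈ 𝓝 x) :
    ∃ B : Finset T, ∀ z : X, (∀ t ∈ B, z.1 t = x.1 t) → z ∈ U := by
  obtain ⟨V, hV, hsub⟩ := (mem_nhds_subtype _ _ _).1 hU
  rw [nhds_pi, Filter.mem_pi] at hV
  obtain ⟨J, hJ, w, hw, hwV⟩ := hV
  refine ⟨hJ.toFinset, fun z hz => hsub (hwV fun t ht => ?_)⟩
  rw [hz t (hJ.mem_toFinset.2 ht)]
  exact mem_of_mem_nhds (hw t)

lemma Fills.factor {T : Type} {X : Set (T → Bool)} (hX : Fills X) (f : X → ℝ)
    (hf : Continuous f) : ∃ A : Set T, A.Countable ∧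
      ∀ x x' : X, (∀ t ∈ A, x.1 t = x'.1 t) → f x = f x' := by
  classical
  let P : Finset T → Finset T → ℚ → Finset T × (T → Bool) → Prop := fun B S r c =>
    (∀ t ∈ B, c.2 t = decide (t ∈ S)) ∧ ∀ z : X, (∀ t ∈ c.1, z.1 t = c.2 t) → f z < r
  let p : Finset T → Finset T → ℚ → Set T := fun B S r =>
    if h : ∃ c, P B S r c then (h.choose.1 : Set T) else ∅
  obtain ⟨A, hA, -, hcl⟩ := close_off (∅ : Set T) countable_empty p (fun B S r => by
    simp only [p]
    split_ifs
    · exact Finset.countable_toSet _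
    · exact countable_empty)
  have key : ∀ x x' : X, (∀ t ∈ A, x.1 t = x'.1 t) → f x' ≤ f x := by
    intro x x' hxx
    by_contra hlt
    obtain ⟨r, h1, h2⟩ := exists_rat_btwn (not_le.1 hlt)
    obtain ⟨B0, hB0⟩ := cyl_nhds x {z | f z < r} ((isOpen_lt hf continuous_const).mem_nhds h1)
    obtain ⟨B1, hB1⟩ := cyl_nhds x' {z | r < f z} ((isOpen_lt continuous_const hf).mem_nhds h2)
    let B := B1.filter (· ∈ A)
    let S := B.filter fun t => x.1 t = true
    have hex : ∃ c, P B S r c := ⟨(B0, x.1), fun t ht => by simp [S, ht], hB0⟩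
    have hsub : (hex.choose.1 : Set T) ⊆ A := by
      have := hcl B S r (fun t ht => (Finset.mem_filter.1 ht).2)
        (fun t ht => (Finset.mem_filter.1 (Finset.mem_filter.1 ht).1).2)
      simpa only [p, dif_pos hex] using this
    obtain ⟨k1, k2⟩ := hex.choose_spec
    set c := hex.choose
    obtain ⟨z, hz, hzz⟩ := hX (c.1 ∪ B1 : Finset T) (Finset.countable_toSet _)
      (fun t => if t ∈ B1 then x'.1 t else c.2 t)
    have l1 : f ⟨z, hz⟩ < r := k2 _ fun t ht => by
      show z t = _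
      rw [hzz t (by simp [ht])]
      split_ifs with h
      · have htB : t ∈ B := Finset.mem_filter.2 ⟨h, hsub ht⟩
        rw [k1 t htB, ← hxx t (hsub ht)]
        simp [S, htB]
      · rfl
    have l2 : r < f ⟨z, hz⟩ := hB1 _ fun t ht => by
      show z t = _
      rw [hzz t (by simp [ht]), if_pos ht]
    exact lt_asymm l1 l2
  exact ⟨A, hA, fun x x' h => le_antisymm (key x' x fun t ht => (h t ht).symm) (key x x' h)⟩

/-- every continuous real function on a set filling the countable faces extends to the cube -/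
lemma Fills.extend {T : Type} {X : Set (T → Bool)} (hX : Fills X) (f : X → ℝ)
    (hf : Continuous f) : ∃ g : (T → Bool) → ℝ, Continuous g ∧ (∀ x : X, g x.1 = f x) ∧
      ∀ y, ∃ x, g y = f x := by
  classical
  obtain ⟨A, hA, hfac⟩ := hX.factor f hf
  choose r hr hrA using hX A hA
  refine ⟨fun y => f ⟨r y, hr y⟩, continuous_iff_continuousAt.2 fun y => ?_,
    fun x => hfac _ _ (hrA x.1), fun y => ⟨_, rfl⟩⟩
  intro U hU
  obtain ⟨B, hB⟩ := cyl_nhds ⟨r y, hr y⟩ (f ⁻¹' U) (hf.continuousAt hU)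
  have hn : {w : T → Bool | ∀ t ∈ B, w t = y t} ∈ 𝓝 y := by
    refine (eventually_all_finset B).2 fun t _ => ?_
    have : IsOpen ((fun w : T → Bool => w t) ⁻¹' {y t}) :=
      (isOpen_discrete {y t}).preimage (continuous_apply t)
    exact this.mem_nhds rfl
  refine mem_map.2 (mem_of_superset hn fun w hw => ?_)
  obtain ⟨z, hz, hzz⟩ := hX (A ∪ B) (hA.union B.countable_toSet)
    (fun t => if t ∈ A then w t else r y t)
  have e : f ⟨r w, hr w⟩ = f ⟨z, hz⟩ := hfac _ _ fun t ht => by
    show r w t = z t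
    rw [hrA w t ht, hzz t (Or.inl ht), if_pos ht]
  show f ⟨r w, hr w⟩ ∈ U
  rw [e]
  refine hB ⟨z, hz⟩ fun t ht => ?_
  show z t = r y t
  rw [hzz t (Or.inr ht)]
  split_ifs with h
  · rw [hw t ht, hrA y t h]
  · rfl

lemma Fills.dense {T : Type} {X : Set (T → Bool)} (hX : Fills X) : Dense X := by
  intro y
  rw [mem_closure_iff_nhds]
  intro V hV
  rw [nhds_pi, Filter.mem_pi] at hV
  obtain ⟨J, hJ, w, hw, hwV⟩ := hV
  obtain ⟨x, hx, hxy⟩ := hX J hJ.countable y
  refine ⟨x, hwV fun t ht => ?_, hx⟩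
  rw [hxy t ht]
  exact mem_of_mem_nhds (hw t)

/-- countably branching well-founded trees with labelled edges -/
inductive TT : Type
  | leaf : TT
  | node (f : ℕ → TT) (s : ℕ → Bool) : TT

def TT.sub : TT → Set TT
  | .leaf => ∅
  | .node f _ => range f

open Classical in
noncomputable def TT.lab : TT → TT → Bool
  | .leaf, _ => false
  | .node f s, a => if h : ∃ n, f n = a then s h.choose else false

lemma TT.wf : WellFounded fun a b : TT => a ∈ b.sub := by
  refine ⟨fun b => ?_⟩
  induction b with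
  | leaf => exact ⟨_, fun a ha => ha.elim⟩
  | node f s ih =>
    refine ⟨_, ?_⟩
    rintro _ ⟨n, rfl⟩
    exact ih n

lemma TT.exists_node (A : Set TT) (hA : A.Countable) (h : TT → Bool) :
    ∃ b : TT, ∀ a ∈ A, a ∈ b.sub ∧ b.lab a = h a := by
  obtain ⟨f, hf⟩ := (hA.insert TT.leaf).exists_eq_range (insert_nonempty _ _)
  refine ⟨.node f (h ∘ f), fun a ha => ?_⟩
  have hex : ∃ n, f n = a := (hf ▸ mem_insert_of_mem _ ha : a ∈ range f)
  refine ⟨hex, ?_⟩
  simp only [TT.lab, dif_pos hex, Function.comp]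
  rw [hex.choose_spec]

open Classical in
/-- the points of the space -/
noncomputable def shP (a b : TT) : Bool := if b ∈ a.sub then a.lab b else b.lab a

/-- Shakhmatov's space -/
def Sh : Set (TT → Bool) := range shP

lemma Sh_fills : Fills Sh := by
  intro A hA y
  obtain ⟨b, hb⟩ := TT.exists_node A hA y
  exact ⟨_, ⟨b, rfl⟩, fun t ht => by rw [shP, if_pos (hb t ht).1, (hb t ht).2]⟩

lemma Sh_sep (D : Set Sh) (hD : D.Countable) (h : Sh → Bool) :
    ∃ t, ∀ x ∈ D, x.1 t = h x := by
  choose r hr using fun x : Sh => x.2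
  obtain ⟨b, hb⟩ := TT.exists_node (r '' D) (hD.image r) fun a => h ⟨shP a, a, rfl⟩
  refine ⟨b, fun x hx => ?_⟩
  obtain ⟨h1, h2⟩ := hb _ ⟨x, hx, rfl⟩
  rw [← hr x, shP, if_neg (TT.wf.asymm.asymm _ _ h1), h2]
  congr 1
  exact Subtype.ext (hr x)

lemma TT_unc : ¬ (univ : Set TT).Countable := by
  intro h
  rw [countable_univ_iff] at h
  have hi : Function.Injective fun s : ℕ → Bool => TT.node (fun _ => TT.leaf) s :=
    fun s s' e => (TT.node.inj e).2
  have := hi.countable
  have h2 := Cardinal.mk_le_aleph0 (α := ℕ → Bool)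
  rw [← Cardinal.power_def, Cardinal.mk_bool, Cardinal.mk_nat, Cardinal.two_power_aleph0] at h2
  exact absurd h2 (not_le.2 Cardinal.aleph0_lt_continuum)

end Pool.Agent.Lib.helper23
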