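import Mathlib
import Pool.Agent.Lib.helper23.LipA
import Pool.Agent.Lib.helper23.FBC

set_option autoImplicit false

namespace Pool.Agent.Lib.helper23.Star

open LF PT FB TensorProduct

/-- The leaves of a star with four long edges and countably many short ones. -/
def St : Type := Fin 4 ⊕ ℕ

/-- Edge lengths. -/
def w : St → ℝ := Sum.elim (fun _ => 2) fun _ => 1

theorem one_le (a : St) : 1 ≤ w a := by rcases a with a | a <;> simp [w]

open Classical in
noncomputable instance : MetricSpace St where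
  dist a b := if a = b then 0 else w a + w b
  dist_self a := if_pos rfl
  dist_comm a b := by simp [eq_comm, add_comm]
  dist_triangle a b c := by
    have := one_le a
    have := one_le b
    have := one_le c
    split_ifs <;> subst_vars <;> first | contradiction | linarith
  eq_of_dist_eq_zero {a b} h := by
    by_contra hn
    rw [if_neg hn] at h
    linarith [one_le a, one_le b]

theorem dist_ne {a b : St} (h : a ≠ b) : dist a b = w a + w b := if_neg h

theorem lip_of {f : St → ℝ} {C : ℝ} (h : ∀ a b, a ≠ b → |f a - f b| ≤ C * (w a + w b)) (a b : St) :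
    |f a - f b| ≤ C * dist a b := by
  rcases eq_or_ne a b with rfl | hab
  · simp
  · rw [dist_ne hab]; exact h a b hab

/-- The base point. -/
def o : St := Sum.inr 0

theorem modify (f : Lip0 o) (hf : ‖f‖ ≤ 1) {u v : ℕ} (hu : u ≠ 0) (hv : v ≠ 0) (huv : u ≠ v) :
    ∃ g : Lip0 o, ‖g‖ ≤ 1 ∧ g.1 (Sum.inr u) - g.1 (Sum.inr v) = 2 ∧
      ∀ a, a ≠ Sum.inr u → a ≠ Sum.inr v → g.1 a = f.1 a := by
  classical
  have h1 : ∀ a b, f.1 a - w a ≤ f.1 b + w b := fun a b => by
    rcases eq_or_ne a b with rfl | hab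
    · linarith [one_le a]
    · have := (le_abs_self _).trans ((lip f a b).trans (mul_le_of_le_one_left dist_nonneg hf))
      rw [dist_ne hab] at this
      linarith
  have : Nonempty St := ⟨o⟩
  set c := ⨆ a, (f.1 a - w a)
  have h2 : ∀ a, |f.1 a - c| ≤ w a := fun a => abs_le.2 ⟨by linarith [ciSup_le fun b => h1 b a],
    by linarith [le_ciSup ⟨_, Set.forall_mem_range.2 fun b => h1 b a⟩ a]⟩
  let g : St → ℝ := fun a => if a = Sum.inr u then c + 1 else if a = Sum.inr v then c - 1 else f.1 a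
  have h3 : ∀ a, |g a - c| ≤ w a := fun a => by
    simp only [g]
    split_ifs
    · simpa using one_le a
    · simpa using one_le a
    · exact h2 a
  have h4 : ∀ a b, |g a - g b| ≤ 1 * dist a b := lip_of fun a b _ => by
    linarith [h3 a, h3 b, abs_sub_le (g a) c (g b), abs_sub_comm c (g b)]
  have h5 : ∀ a, a ≠ Sum.inr u → a ≠ Sum.inr v → g a = f.1 a := fun a h h' =>
    (if_neg h).trans (if_neg h')
  refine ⟨⟨g, (h5 o (fun h => hu (Sum.inr.inj h).symm) fun h => hv (Sum.inr.inj h).symm).trans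
    f.2.1, 1, zero_le_one, h4⟩, LF.norm_le _ zero_le_one h4, ?_, h5⟩
  have : (Sum.inr v : St) ≠ Sum.inr u := fun h => huv (Sum.inr.inj h).symm
  have e1 : g (Sum.inr u) = c + 1 := if_pos rfl
  have e2 : g (Sum.inr v) = c - 1 := (if_neg this).trans (if_pos rfl)
  change g _ - g _ = 2
  rw [e1, e2]
  ring

variable {F : Type} [NormedAddCommGroup F] [NormedSpace ℝ F] {d : St → F}
  {ev : F →ₗ[ℝ] StrongDual ℝ (Lip0 o)}

theorem oct (hF : IsFree o d ev) : Octahedral F := by
  have : Nontrivial F := by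
    obtain ⟨g, -, h, -⟩ := modify 0 (by simp) one_ne_zero two_ne_zero (by simp)
    refine ⟨d (Sum.inr 1), d (Sum.inr 2), fun e => ?_⟩
    rw [← hF.app, ← hF.app, e, sub_self] at h
    norm_num at h
  refine oct_of_fin fun n x hx ε hε => ?_
  choose x' x1 N n1 n2 using fun i => hF.exists_fin (x i) (half_pos (half_pos hε))
  choose f f1 f2 using fun i => exists_pos_apply (ev (x' i)) (c := ‖ev (x' i)‖ - ε / 4) (by linarith)
  obtain ⟨k, hk⟩ := ((Set.finite_iUnion n1).preimage Sum.inr_injective.injOn).bddAbove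
  refine ⟨(1 / 2 : ℝ) • (d (Sum.inr (k + 1)) - d (Sum.inr (k + 2))), ?_, fun i => ?_⟩
  · have := hF.norm_sub (Sum.inr (k + 1)) (Sum.inr (k + 2))
    rw [dist_ne fun h => by simpa using Sum.inr.inj h] at this
    rw [norm_smul, Real.norm_of_nonneg (by norm_num)]
    simp only [w, Sum.elim_inr] at this
    linarith
  · obtain ⟨g, g1, g2, g3⟩ := modify (f i) (f1 i) (u := k + 1) (v := k + 2) (by simp) (by simp)
      (by simp)
    have a1 := n2 i g (f i) fun a ha => g3 a (by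
      rintro rfl; simpa using hk (Set.mem_iUnion.2 ⟨i, ha⟩)) (by
      rintro rfl; have := hk (Set.mem_iUnion.2 ⟨i, ha⟩); omega)
    set y := (1 / 2 : ℝ) • (d (Sum.inr (k + 1)) - d (Sum.inr (k + 2))) with hy
    have a2 : ev (x' i) g + 1 ≤ ‖x' i + y‖ := by
      have := (le_abs_self _).trans ((hF.le (x' i + y) g).trans
        (mul_le_of_le_one_right (norm_nonneg _) g1))
      rw [map_add, ContinuousLinearMap.add_apply, hy, map_smul, map_sub,
        ContinuousLinearMap.smul_apply, ContinuousLinearMap.sub_apply, hF.app, hF.app, g2, ← hy] at this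
      simpa using this
    have a3 := norm_sub_norm_le (x i) (x' i)
    have a4 := norm_sub_le (x i + y) (x i - x' i)
    have a5 := hF.norm (x' i)
    rw [add_sub_sub_cancel, add_comm y] at a4
    linarith [hx i, x1 i, f2 i]

/-- Four vertices of the cube summing to zero. -/
def yv : Fin 4 → Fin 3 → ℝ := ![![1, 1, 1], ![1, -1, -1], ![-1, 1, -1], ![-1, -1, 1]]

theorem norm_yv (j : Fin 4) : ‖yv j‖ ≤ 1 :=
  (pi_norm_le_iff_of_nonneg zero_le_one).2 fun k => by fin_cases j <;> fin_cases k <;> simp [yv]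

/-- The element at which the norm is differentiable. -/
noncomputable def z0 (d : St → F) : F ⊗[ℝ] (Fin 3 → ℝ) :=
  ∑ j, ∑ i, (d (Sum.inl j) - d (Sum.inl i)) ⊗ₜ yv j

/-- The model map. -/
def tg : St → Fin 3 → ℝ := Sum.elim yv 0

theorem tg_lip (y : Fin 3 → ℝ) (a b : St) : |tg a ⬝ᵥ y - tg b ⬝ᵥ y| ≤ ‖y‖ * dist a b :=
  lip_of (f := fun a => tg a ⬝ᵥ y) (fun a b hab => by
    have h0 := abs_le.1 (norm_le_pi_norm y 0)
    have h1 := abs_le.1 (norm_le_pi_norm y 1)
    have h2 := abs_le.1 (norm_le_pi_norm y 2)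
    rcases a with a | a <;> rcases b with b | b
    · fin_cases a <;> fin_cases b <;> simp [tg, yv, w, abs_le, Fin.sum_univ_three, dotProduct] <;>
        constructor <;> linarith
    · fin_cases a <;> simp [tg, yv, w, abs_le, Fin.sum_univ_three, dotProduct] <;>
        constructor <;> linarith
    · fin_cases b <;> simp [tg, yv, w, abs_le, Fin.sum_univ_three, dotProduct] <;>
        constructor <;> linarith
    · simp [tg, w]) a b

theorem norm_z0 (hF : IsFree o d ev) : 48 ≤ ‖emb (z0 d)‖ := by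
  let G : (Fin 3 → ℝ) →ₗ[ℝ] Lip0 o :=
    { toFun := fun y => ⟨fun a => tg a ⬝ᵥ y, by simp [tg, o], _, norm_nonneg y, tg_lip y⟩
      map_add' := fun y z => Subtype.ext (funext fun a => dotProduct_add (tg a) y z)
      map_smul' := fun c y => Subtype.ext (funext fun a => dotProduct_smul c (tg a) y) }
  let B : F →ₗ[ℝ] (Fin 3 → ℝ) →ₗ[ℝ] ℝ := ((ContinuousLinearMap.coeLM ℝ) ∘ₗ ev).compl₂ G
  have h := le_proj (TensorProduct.lift B) one_pos (fun x y => by
    rw [one_mul]
    exact (hF.le x (G y)).trans (mul_le_mul_of_nonneg_left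
      (LF.norm_le _ (norm_nonneg y) (tg_lip y)) (norm_nonneg _))) (z0 d)
  have e : ∀ a y, B (d a) y = tg a ⬝ᵥ y := fun _ _ => hF.app _ _
  simp only [z0, map_sum, lift.tmul, map_sub, LinearMap.sub_apply, e] at h
  simp [tg, yv, Fin.sum_univ_four, Fin.sum_univ_three, dotProduct] at h
  norm_num at h
  simpa [z0, Fin.sum_univ_four, yv] using h

theorem rigid (hF : IsFree o d ev) (Φ : StrongDual ℝ (CProj F (Fin 3 → ℝ))) (h1 : ‖Φ‖ ≤ 1) {η : ℝ}
    (h2 : 48 - η ≤ Φ (emb (z0 d))) : Φ (emb (z0 d)) ≤ 48 ∧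
      ∀ a j, |Φ (emb (d a ⊗ₜ yv j)) - tg a ⬝ᵥ yv j| ≤ 9 * η := by
  set φ : St → Fin 4 → ℝ := fun a j => Φ (emb (d a ⊗ₜ yv j))
  have a1 : ∀ a b j, φ a j - φ b j ≤ dist a b := fun a b j => by
    simp only [φ, ← map_sub, ← sub_tmul]
    refine (le_abs_self _).trans ((Φ.le_opNorm _).trans ((mul_le_of_le_one_left (norm_nonneg _)
      h1).trans ((norm_tm _ _).trans ((mul_le_of_le_one_right (norm_nonneg _) (norm_yv j)).trans
      (hF.norm_sub a b)))))
  have a2 : ∀ a, φ a 0 + φ a 1 + φ a 2 + φ a 3 = 0 := fun a => by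
    have : yv 0 + yv 1 + yv 2 + yv 3 = 0 := by ext k; fin_cases k <;> simp [yv]
    simp only [φ, ← map_add, ← tmul_add, this, tmul_zero, map_zero]
  have a3 : Φ (emb (z0 d)) = ∑ j, ∑ i, (φ (Sum.inl j) j - φ (Sum.inl i) j) := by
    simp only [z0, map_sum, sub_tmul, map_sub, φ]
  have a4 : ∀ i j : Fin 4, φ (Sum.inl j) j - φ (Sum.inl i) j ≤ 4 := fun i j => by
    rcases eq_or_ne j i with rfl | h
    · simp
    · have := a1 (Sum.inl j) (Sum.inl i) j
      rw [dist_ne fun e => h (Sum.inl.inj e)] at this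
      simp only [w, Sum.elim_inl] at this
      linarith
  have a5 : ∀ (j : Fin 4) (n : ℕ), φ (Sum.inl j) j - φ (Sum.inr n) j ≤ 3 := fun j n => by
    have := a1 (Sum.inl j) (Sum.inr n) j
    rw [dist_ne Sum.inl_ne_inr] at this
    simp only [w, Sum.elim_inl, Sum.elim_inr] at this
    linarith
  have a6 : ∀ j, φ (Sum.inr 0) j = 0 := fun j => by
    change Φ (emb (d o ⊗ₜ yv j)) = 0
    simp [hF.base]
  rw [a3] at h2 ⊢
  simp only [Fin.sum_univ_four] at h2 ⊢
  have b0 := a5 0 0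
  have b1 := a5 1 0
  have b2 := a5 2 0
  have b3 := a5 3 0
  rw [a6] at b0 b1 b2 b3
  have c0 := a2 (Sum.inl 0)
  have := a4 1 0
  have := a4 2 0
  have := a4 3 0
  have := a4 0 1
  have := a4 2 1
  have := a4 3 1
  have := a4 0 2
  have := a4 1 2
  have := a4 3 2
  have := a4 0 3
  have := a4 1 3
  have := a4 2 3
  refine ⟨by linarith, fun a j => ?_⟩
  change |φ a j - _| ≤ _
  rcases a with a | a
  · fin_cases a <;> fin_cases j <;> simp [tg, yv, abs_le, Fin.sum_univ_three, dotProduct] <;>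
      constructor <;> linarith
  · have := a2 (Sum.inr a)
    have := a5 0 a
    have := a5 1 a
    have := a5 2 a
    have := a5 3 a
    fin_cases j <;> simp [tg, abs_le] <;> constructor <;> linarith

theorem not_oct (hF : IsFree o d ev) : ¬ Octahedral (CProj F (Fin 3 → ℝ)) := by
  intro h
  obtain ⟨y, hy, H⟩ := h (Submodule.span ℝ {emb (z0 d)}) inferInstance (1 / 2000) (by norm_num)
  have key : ∀ t : ℝ, |t| = 1 → ∃ Φ : StrongDual ℝ (CProj F (Fin 3 → ℝ)),
      1 - 1 / 40 ≤ t * Φ y ∧ ∀ a j, |Φ (emb (d a ⊗ₜ yv j)) - tg a ⬝ᵥ yv j| ≤ 9 * (1 / 40) :=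
    fun t ht => by
      obtain ⟨Φ, p1, p2⟩ := exists_dual_vector'' ℝ (emb (z0 d) + t • y)
      have a1 := H _ (Submodule.mem_span_singleton_self _) t
      have a2 : t * Φ y ≤ 1 := (le_abs_self _).trans (by
        rw [abs_mul, ht, one_mul]; exact (Φ.unit_le_opNorm y hy.le).trans p1)
      rw [map_add, map_smul, smul_eq_mul, RCLike.ofReal_real_eq_id, id] at p2
      have := rigid hF Φ p1 (η := 1 / 40) (by linarith [norm_z0 hF])
      exact ⟨Φ, by linarith [norm_z0 hF, this.1], this.2⟩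
  obtain ⟨Φ, p1, p2⟩ := key 1 abs_one
  obtain ⟨Ψ, q1, q2⟩ := key (-1) (by simp)
  have a1 : ∀ a j, |(Φ - Ψ) (emb (d a ⊗ₜ yv j))| ≤ 18 / 40 := fun a j => by
    have := abs_le.1 (p2 a j)
    have := abs_le.1 (q2 a j)
    rw [ContinuousLinearMap.sub_apply, abs_le]
    constructor <;> linarith
  have a2 : ∀ a (v : Fin 3 → ℝ), |(Φ - Ψ) (emb (d a ⊗ₜ v))| ≤ 54 / 40 * ‖v‖ := fun a v => by
    have e : v = (v 0 / 2) • (yv 0 + yv 1) + (v 1 / 2) • (yv 0 + yv 2) +
        (v 2 / 2) • (yv 0 + yv 3) := by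
      ext k
      fin_cases k <;> simp [yv] <;> ring
    have b : ∀ (k : Fin 3) (j : Fin 4), |v k / 2 * ((Φ - Ψ) (emb (d a ⊗ₜ yv 0)) +
        (Φ - Ψ) (emb (d a ⊗ₜ yv j)))| ≤ 18 / 40 * ‖v‖ := fun k j => by
      have c1 : |v k| ≤ ‖v‖ := norm_le_pi_norm v k
      have c2 := (abs_add_le _ _).trans (add_le_add (a1 a 0) (a1 a j))
      rw [abs_mul, abs_div, abs_two]
      nlinarith [abs_nonneg (v k)]
    conv_lhs => rw [e]
    simp only [tmul_add, tmul_smul, map_add, map_smul, smul_eq_mul]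
    linarith [b 0 1, b 1 2, b 2 3, abs_add_three (v 0 / 2 * ((Φ - Ψ) (emb (d a ⊗ₜ yv 0)) +
      (Φ - Ψ) (emb (d a ⊗ₜ yv 1)))) (v 1 / 2 * ((Φ - Ψ) (emb (d a ⊗ₜ yv 0)) +
      (Φ - Ψ) (emb (d a ⊗ₜ yv 2)))) (v 2 / 2 * ((Φ - Ψ) (emb (d a ⊗ₜ yv 0)) +
      (Φ - Ψ) (emb (d a ⊗ₜ yv 3))))]
  have a3 := bound (Φ - Ψ) (C := 54 / 40) (by norm_num) (fun x v => by
    let S : F →L[ℝ] ℝ := LinearMap.mkContinuous
      ((Φ - Ψ).toLinearMap ∘ₗ emb ∘ₗ (TensorProduct.mk ℝ _ _).flip v) (‖Φ - Ψ‖ * ‖v‖) fun x =>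
        ((Φ - Ψ).le_opNorm _).trans (by
          rw [mul_assoc, mul_comm ‖v‖]
          exact mul_le_mul_of_nonneg_left (norm_tm _ _) (norm_nonneg _))
    have := hF.bound S (C := 54 / 40 * ‖v‖) (by positivity) (lip_of fun a b _ => by
      have c := (abs_sub _ _).trans (add_le_add (a2 a v) (a2 b v))
      refine le_trans c ?_
      nlinarith [one_le a, one_le b, norm_nonneg v]) x
    rwa [mul_assoc, mul_comm ‖v‖] at this) y
  rw [hy, ContinuousLinearMap.sub_apply] at a3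
  linarith [le_abs_self (Φ y - Ψ y)]

end Pool.Agent.Lib.helper23.Star
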