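import Mathlib

set_option autoImplicit false

open Finset Filter Topology
open scoped Pointwise

namespace Pool.Agent.Lib.helper23.Tdc

variable {G : Type} [Group G] [DecidableEq G]

/-- annular decay at a doubling scale -/
lemma shell {U : Finset G} (h1 : (1 : G) ∈ U) (hi : U⁻¹ = U) (K : ℝ) (r p : ℕ)
    (hK : (#(U ^ (5 * r)) : ℝ) ≤ K * #(U ^ r)) :
    (#(U ^ (p + 6 * r)) : ℝ) - #(U ^ (p + 4 * r)) ≤ K * (#(U ^ (p + 4 * r)) - #(U ^ p)) := by
  have hm : ∀ {a b : ℕ}, a ≤ b → U ^ a ⊆ U ^ b := fun h => pow_subset_pow_right h1 h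
  have hp : ∀ a : ℕ, (0 : ℝ) < #(U ^ a) := fun a => by
    exact_mod_cast card_pos.2 ⟨1, one_mem_pow h1⟩
  have hinv : ∀ (a : ℕ) (x : G), x ∈ U ^ a → x⁻¹ ∈ U ^ a := fun a x hx => by
    rw [← hi, inv_pow]
    exact inv_mem_inv hx
  have hmul : ∀ (a b : ℕ) (x y : G), x ∈ U ^ a → y ∈ U ^ b → x * y ∈ U ^ (a + b) :=
    fun a b x y hx hy => pow_add U a b ▸ mul_mem_mul hx hy
  have h2 : (U ^ (p + 3 * r) \ U ^ (p + r)) * U ^ r ⊆ U ^ (p + 4 * r) \ U ^ p := by
    intro z hz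
    obtain ⟨x, hx, w, hw, rfl⟩ := mem_mul.1 hz
    rw [Finset.mem_sdiff] at hx ⊢
    refine ⟨hm (by omega) (hmul _ _ _ _ hx.1 hw), fun h => hx.2 ?_⟩
    simpa using hmul _ _ _ _ h (hinv _ _ hw)
  have h3 : (#((U ^ (p + 3 * r) \ U ^ (p + r)) * U ^ r) : ℝ) ≤
      (#(U ^ (p + 4 * r) \ U ^ p) / #(U ^ r)) * #(U ^ r) := by
    rw [div_mul_cancel₀ _ (hp r).ne']
    exact_mod_cast card_le_card h2
  obtain ⟨F, -, f2, f3⟩ := ruzsa_covering_mul ⟨1, one_mem_pow h1⟩ h3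
  have h4 : U ^ (p + 6 * r) \ U ^ (p + 4 * r) ⊆ F * U ^ (5 * r) := by
    intro y hy
    rw [Finset.mem_sdiff, show p + 6 * r = (p + 3 * r) + 3 * r by ring, pow_add] at hy
    obtain ⟨x, hx, w, hw, rfl⟩ := mem_mul.1 hy.1
    have h5 : x ∈ U ^ (p + 3 * r) \ U ^ (p + r) :=
      Finset.mem_sdiff.2 ⟨hx, fun h => hy.2 (hm (by omega) (hmul _ _ _ _ h hw))⟩
    obtain ⟨f, hf, d, hd, rfl⟩ := mem_mul.1 (f3 h5)
    obtain ⟨a, ha, b, hb, rfl⟩ := mem_div.1 hd
    rw [mul_assoc, div_eq_mul_inv]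
    exact mul_mem_mul hf (hm (by omega) (hmul _ _ _ _ (hmul _ _ _ _ ha (hinv _ _ hb)) hw))
  have h6 : (#(U ^ (p + 6 * r) \ U ^ (p + 4 * r)) : ℝ) ≤ #F * #(U ^ (5 * r)) := by
    exact_mod_cast (card_le_card h4).trans card_mul_le
  rw [cast_card_sdiff (hm (by omega))] at h6 f2
  have h7 : (#F : ℝ) * #(U ^ r) ≤ #(U ^ (p + 4 * r)) - #(U ^ p) := (le_div_iff₀ (hp r)).1 f2
  have h8 : 0 ≤ K := by
    by_contra h
    nlinarith [hp (5 * r), hp r]
  calc _ ≤ #F * (K * #(U ^ r)) := h6.trans (mul_le_mul_of_nonneg_left hK (Nat.cast_nonneg _))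
    _ = K * (#F * #(U ^ r)) := by ring
    _ ≤ _ := mul_le_mul_of_nonneg_left h7 h8

/-- infinitely many doubling scales make the balls a Folner sequence -/
lemma ratio {U : Finset G} (h1 : (1 : G) ∈ U) (hi : U⁻¹ = U) (K : ℝ) (hK0 : 0 < K)
    (hK : ∀ t, ∃ r, t ≤ r ∧ (#(U ^ (5 * r)) : ℝ) ≤ K * #(U ^ r)) :
    Tendsto (fun n => (#(U ^ n) : ℝ) / #(U ^ (n + 1))) atTop (𝓝 1) := by
  have hm : ∀ {a b : ℕ}, a ≤ b → (#(U ^ a) : ℝ) ≤ #(U ^ b) := fun h => by
    exact_mod_cast card_le_card (pow_subset_pow_right h1 h)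
  have hp : ∀ a : ℕ, (0 : ℝ) < #(U ^ a) := fun a => by
    exact_mod_cast card_pos.2 ⟨1, one_mem_pow h1⟩
  have h2 : ∀ m : ℕ, ∃ t, ∀ p n, p + t ≤ n →
      m * ((#(U ^ (n + 1)) : ℝ) - #(U ^ n)) ≤ (K + 1) * (#(U ^ (n + 1)) - #(U ^ p)) := by
    intro m
    induction m with
    | zero =>
      refine ⟨0, fun p n h => ?_⟩
      have := hm (show p ≤ n + 1 by omega)
      push_cast
      nlinarith
    | succ m ih =>
      obtain ⟨t, ht⟩ := ih
      obtain ⟨r, r1, r2⟩ := hK (t + 1)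
      refine ⟨6 * r, fun p n h => ?_⟩
      obtain ⟨q, hq⟩ : ∃ q, n + 1 = q + 6 * r := ⟨n + 1 - 6 * r, by omega⟩
      have a1 := shell h1 hi K r q r2
      have a2 := ht (q + 4 * r) n (by omega)
      have a3 := hm (show q + 4 * r ≤ n by omega)
      have a4 := hm (show p ≤ q by omega)
      have a5 := hm (show q ≤ q + 4 * r by omega)
      rw [← hq] at a1
      push_cast
      nlinarith
  have h3 : Tendsto (fun n => 1 - (#(U ^ n) : ℝ) / #(U ^ (n + 1))) atTop (𝓝 0) := by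
    refine tendsto_order.2 ⟨fun a ha => Eventually.of_forall fun n => ha.trans_le
      (sub_nonneg.2 ((div_le_one (hp _)).2 (hm (Nat.le_succ n)))), fun a ha => ?_⟩
    obtain ⟨m, hm'⟩ := exists_nat_gt ((K + 1) / a)
    obtain ⟨t, ht⟩ := h2 m
    filter_upwards [eventually_ge_atTop t] with n hn
    have a1 := ht 0 n (by omega)
    rw [div_lt_iff₀ ha] at hm'
    rw [one_sub_div (hp _).ne', div_lt_iff₀ (hp _)]
    have a2 := hp 0
    have a3 := hp (n + 1)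
    have a4 : (0 : ℝ) < m := by
      by_contra h
      nlinarith [Nat.cast_nonneg (α := ℝ) m]
    by_contra h
    push Not at h
    nlinarith [mul_le_mul_of_nonneg_left h a4.le, mul_lt_mul_of_pos_right hm' a3]
  simpa using h3.const_sub 1

/-- polynomial growth gives infinitely many doubling scales -/
lemma scales (b : ℕ → ℝ) (hb : ∀ n, 1 ≤ b n) (C : ℝ) (d : ℕ) (h : ∀ n, b n ≤ C * (n + 1) ^ d)
    (t : ℕ) : ∃ r, t ≤ r ∧ b (5 * r) ≤ 2 * 5 ^ d * b r := by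
  by_contra hc
  push Not at hc
  have h1 : ∀ j : ℕ, (2 * 5 ^ d : ℝ) ^ j ≤ b (5 ^ j * t) := by
    intro j
    induction j with
    | zero => simpa using hb t
    | succ j ih =>
      have h2 := hc (5 ^ j * t) (Nat.le_mul_of_pos_left _ (by positivity))
      rw [show 5 ^ (j + 1) * t = 5 * (5 ^ j * t) by ring, pow_succ']
      exact (mul_le_mul_of_nonneg_left ih (by positivity)).trans h2.le
  have hC : 0 ≤ C := by
    have := h 0
    have := hb 0
    simp at *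
    linarith
  obtain ⟨j, hj⟩ := pow_unbounded_of_one_lt (C * (t + 1) ^ d) (one_lt_two (α := ℝ))
  have h3 := (h1 j).trans (h _)
  have h4 : (((5 ^ j * t : ℕ) : ℝ) + 1) ^ d ≤ ((5 : ℝ) ^ d) ^ j * (t + 1) ^ d := by
    rw [← pow_mul, mul_comm d j, pow_mul, ← mul_pow]
    refine pow_le_pow_left₀ (by positivity) ?_ d
    have : (1 : ℝ) ≤ 5 ^ j := one_le_pow₀ (by norm_num)
    push_cast
    nlinarith
  have h5 := h3.trans (mul_le_mul_of_nonneg_left h4 hC)
  rw [mul_pow] at h5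
  have h6 : (0 : ℝ) < (5 ^ d) ^ j := by positivity
  nlinarith

/-- virtually abelian groups have polynomial growth -/
lemma poly (A : Subgroup G) [A.FiniteIndex] (hA : ∀ a ∈ A, ∀ b ∈ A, a * b = b * a)
    (U : Finset G) : ∃ (C : ℝ) (d : ℕ), ∀ n : ℕ, (#(U ^ n) : ℝ) ≤ C * (n + 1) ^ d := by
  letI : CommGroup A := { (inferInstance : Group A) with
    mul_comm := fun a b => Subtype.ext (hA _ a.2 _ b.2) }
  obtain ⟨T, t1, t2⟩ : ∃ T : Finset G, 1 ∈ T ∧ ∀ g : G, ∃ t ∈ T, g * t⁻¹ ∈ A := by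
    haveI := Fintype.ofFinite (G ⧸ A)
    refine ⟨insert 1 (univ.image fun q : G ⧸ A => q.out⁻¹), mem_insert_self _ _, fun g =>
      ⟨(QuotientGroup.mk g⁻¹ : G ⧸ A).out⁻¹, mem_insert_of_mem (mem_image_of_mem _ (mem_univ _)),
      ?_⟩⟩
    have h := QuotientGroup.eq.1 (QuotientGroup.out_eq' (QuotientGroup.mk g⁻¹ : G ⧸ A)).symm
    simpa using h
  classical
  let Y : Finset A := (T * U * T⁻¹).preimage Subtype.val Subtype.val_injective.injOn
  have h1 : ∀ n : ℕ, ∀ g ∈ U ^ n, ∃ f : Y → ℕ, (∀ i, f i ≤ n) ∧ ∃ t ∈ T,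
      g = (∏ i : Y, (i : A) ^ f i : A) * t := by
    intro n
    induction n with
    | zero =>
      intro g hg
      exact ⟨0, fun _ => le_rfl, 1, t1, by simpa using hg⟩
    | succ n ih =>
      intro g hg
      rw [pow_succ] at hg
      obtain ⟨x, hx, u, hu, rfl⟩ := mem_mul.1 hg
      obtain ⟨f, f1, t, ht, rfl⟩ := ih x hx
      obtain ⟨s, s1, s2⟩ := t2 (t * u)
      let y : Y := ⟨⟨_, s2⟩, mem_preimage.2 (mul_mem_mul (mul_mem_mul ht hu) (inv_mem_inv s1))⟩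
      refine ⟨fun i => f i + if i = y then 1 else 0, fun i => ?_, s, s1, ?_⟩
      · have := f1 i
        dsimp only
        split_ifs <;> omega
      · simp only [pow_add, prod_mul_distrib, pow_ite, pow_one, pow_zero, prod_ite_eq', mem_univ,
          if_true, Subgroup.coe_mul, y]
        group
  refine ⟨#T, #Y, fun n => ?_⟩
  have h2 : U ^ n ⊆ ((Fintype.piFinset fun _ : Y => range (n + 1)) ×ˢ T).image
      fun z => ((∏ i : Y, (i : A) ^ z.1 i : A) : G) * z.2 := by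
    intro g hg
    obtain ⟨f, f1, t, ht, rfl⟩ := h1 n g hg
    exact mem_image.2 ⟨(f, t), mem_product.2 ⟨Fintype.mem_piFinset.2 fun i =>
      mem_range.2 (Nat.lt_succ_of_le (f1 i)), ht⟩, rfl⟩
  have h3 := (card_le_card h2).trans card_image_le
  rw [card_product, Fintype.card_piFinset, prod_const, card_range, card_univ, Fintype.card_coe,
    mul_comm] at h3
  exact_mod_cast h3

lemma folner (A : Subgroup G) [A.FiniteIndex] (hA : ∀ a ∈ A, ∀ b ∈ A, a * b = b * a)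
    {U : Finset G} (h1 : (1 : G) ∈ U) (hi : U⁻¹ = U) (k : ℕ) :
    Tendsto (fun n => (#(U ^ n) : ℝ) / #(U ^ (n + k))) atTop (𝓝 1) := by
  have hp : ∀ a : ℕ, (1 : ℝ) ≤ #(U ^ a) := fun a => by
    exact_mod_cast card_pos.2 ⟨1, one_mem_pow h1⟩
  obtain ⟨C, d, h⟩ := poly A hA U
  have h2 := ratio h1 hi _ (by positivity) (scales _ hp C d h)
  induction k with
  | zero =>
    refine tendsto_const_nhds.congr fun n => (div_self ?_).symm
    exact (zero_lt_one.trans_le (hp n)).ne'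
  | succ k ih =>
    have h3 := ih.mul (h2.comp (tendsto_add_atTop_nat k))
    rw [mul_one] at h3
    refine h3.congr fun n => ?_
    have := (zero_lt_one.trans_le (hp (n + k))).ne'
    simp only [Function.comp, ← add_assoc]
    rw [div_mul_div_cancel₀ this]

end Pool.Agent.Lib.helper23.Tdc
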