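import Mathlib

set_option autoImplicit false

open Set Filter Topology
open scoped Pointwise

namespace Pool.Agent.Lib.helper23.Tdc

variable {Γ : Type} [Group Γ]

/-- left invariant finitely additive probability on all subsets -/
structure IsMean (μ : Set Γ → ℝ) : Prop where
  nonneg : ∀ S, 0 ≤ μ S
  univ : μ univ = 1
  add : ∀ S T, Disjoint S T → μ (S ∪ T) = μ S + μ T
  inv : ∀ (g : Γ) (S : Set Γ), μ (g • S) = μ S

namespace IsMean

variable {μ : Set Γ → ℝ} (h : IsMean μ)
include h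

lemma empty : μ ∅ = 0 := by
  have := h.add ∅ ∅ disjoint_bot_left
  rw [union_self] at this
  linarith

lemma mono {S T : Set Γ} (hST : S ⊆ T) : μ S ≤ μ T := by
  have := h.add S (T \ S) disjoint_sdiff_right
  rw [union_diff_cancel hST] at this
  linarith [h.nonneg (T \ S)]

lemma sum {ι : Type} (s : Finset ι) (T : ι → Set Γ) (hT : (s : Set ι).PairwiseDisjoint T) :
    μ (⋃ i ∈ s, T i) = ∑ i ∈ s, μ (T i) := by
  classical
  induction s using Finset.induction_on with
  | empty => simpa using h.empty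
  | insert a s ha ih =>
    rw [Finset.set_biUnion_insert, Finset.sum_insert ha, h.add,
      ih (hT.subset (by simp))]
    refine disjoint_iUnion₂_right.2 fun i hi => hT (by simp) (by simp [hi]) ?_
    rintro rfl
    exact ha hi

lemma part {Q : Type} [Fintype Q] (π : Γ → Q) (S : Set Γ) :
    μ S = ∑ q, μ (S ∩ π ⁻¹' {q}) := by
  rw [← h.sum Finset.univ (fun q => S ∩ π ⁻¹' {q}) fun a _ b _ hab => disjoint_left.2
    fun x ha hb => hab (ha.2.symm.trans hb.2)]
  congr 1
  ext x
  simp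

lemma fiber {Q : Type} [Group Q] [Finite Q] (π : Γ →* Q) (hπ : Function.Surjective π)
    (T : Set Q) : μ (π ⁻¹' T) = T.ncard / Nat.card Q := by
  classical
  haveI := Fintype.ofFinite Q
  have h1 : ∀ q, μ (π ⁻¹' {q}) = μ (π ⁻¹' {1}) := fun q => by
    obtain ⟨g, rfl⟩ := hπ q
    rw [← h.inv g (π ⁻¹' {1})]
    congr 1
    ext x
    simp only [mem_smul_set_iff_inv_smul_mem, mem_preimage, mem_singleton_iff, smul_eq_mul, map_mul,
      map_inv, inv_mul_eq_one]
    exact eq_comm
  have h2 := h.part π Set.univ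
  simp only [univ_inter, h1, h.univ, Finset.sum_const, Finset.card_univ, nsmul_eq_mul] at h2
  have h3 : π ⁻¹' T = ⋃ q ∈ T.toFinset, π ⁻¹' {q} := by
    ext x
    simp
  have h4 : (Nat.card Q : ℝ) ≠ 0 := by exact_mod_cast Nat.card_pos.ne'
  rw [h3, h.sum _ _ fun a _ b _ hab => disjoint_left.2 fun x ha hb => hab (ha.symm.trans hb)]
  simp only [h1, Finset.sum_const, nsmul_eq_mul]
  rw [eq_div_iff h4, ncard_eq_toFinset_card', Nat.card_eq_fintype_card, mul_assoc,
    mul_comm (μ _), ← h2, mul_one]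

lemma small (P : Subgroup Γ) {A : Type} [CommGroup A] (L : P →* A) (c : A)
    (M : ℕ → Subgroup A) (hM : ∀ a : A, a ≠ 1 → ∀ᶠ j in atTop, a ∉ M j) :
    Tendsto (fun j => μ {γ | ∃ p : P, γ = p ∧ c * L p ∈ M j ∧ c * L p ≠ 1}) atTop (𝓝 0) := by
  classical
  by_cases hf : (range L).Finite
  · have h1 : ∀ᶠ j in atTop, ∀ a ∈ range L, c * a ≠ 1 → c * a ∉ M j :=
      (eventually_all_finite hf).2 fun a _ => by
        by_cases ha : c * a = 1
        · exact Eventually.of_forall fun j h' => (h' ha).elim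
        · exact (hM _ ha).mono fun j hj _ => hj
    refine tendsto_const_nhds.congr' (h1.mono fun j hj => ?_)
    rw [← h.empty]
    congr 1
    symm
    refine eq_empty_of_forall_notMem ?_
    rintro γ ⟨p, -, p1, p2⟩
    exact hj _ ⟨p, rfl⟩ p2 p1
  · refine tendsto_order.2 ⟨fun a ha => Eventually.of_forall fun j => ha.trans_le (h.nonneg _),
      fun a ha => ?_⟩
    obtain ⟨m, hm⟩ := exists_nat_gt (1 / a)
    obtain ⟨s, s1, s2⟩ := Set.Infinite.exists_subset_card_eq hf m
    choose! f hf' using fun a (ha : a ∈ s) => s1 ha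
    have h1 : ∀ᶠ j in atTop, ∀ z ∈ s ×ˢ s, z.1 ≠ z.2 → z.1 / z.2 ∉ M j :=
      (Finset.eventually_all _).2 fun z _ => by
        by_cases hz : z.1 = z.2
        · exact Eventually.of_forall fun j h' => (h' hz).elim
        · exact (hM _ (div_ne_one.2 hz)).mono fun j hj _ => hj
    filter_upwards [h1] with j hj
    set T := {γ : Γ | ∃ p : P, γ = p ∧ c * L p ∈ M j ∧ c * L p ≠ 1}
    have h2 := h.sum s (fun a => (f a : Γ) • T) fun a ha b hb hab => disjoint_left.2 (by
      rintro _ ⟨_, ⟨p, rfl, p1, -⟩, rfl⟩ ⟨_, ⟨q, rfl, q1, -⟩, e⟩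
      have e1 : f b * q = f a * p := Subtype.ext e
      have e2 := congrArg L e1
      rw [map_mul, map_mul, hf' a ha, hf' b hb] at e2
      refine hj (a, b) (Finset.mem_product.2 ⟨ha, hb⟩) hab ?_
      have e3 : a / b = (c * L q) / (c * L p) := by
        rw [mul_div_mul_left_eq_div, div_eq_div_iff_mul_eq_mul, ← e2, mul_comm]
      exact e3 ▸ (M j).div_mem q1 p1)
    have h3 := h.mono (subset_univ (⋃ a ∈ s, (f a : Γ) • T))
    simp only [h2, h.inv, h.univ, Finset.sum_const, nsmul_eq_mul, s2] at h3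
    rw [div_lt_iff₀ ha] at hm
    by_contra h4
    push Not at h4
    nlinarith [Nat.cast_nonneg (α := ℝ) m]

end IsMean

/-- limits along an ultrafilter of densities in a Folner sequence -/
lemma exists_mean (F : ℕ → Set Γ) (hF : ∀ n, (F n).Finite) (hne : ∀ n, (F n).Nonempty)
    (hinv : ∀ g : Γ, ∃ E : ℕ → Set Γ, (∀ n, (E n).Finite ∧ F n ⊆ E n ∧ g • F n ⊆ E n) ∧
      Tendsto (fun n => ((F n).ncard : ℝ) / (E n).ncard) atTop (𝓝 1))
    (u : Ultrafilter ℕ) (hu : ↑u ≤ (atTop : Filter ℕ)) : ∃ μ : Set Γ → ℝ, IsMean μ ∧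
      ∀ S, Tendsto (fun n => ((F n ∩ S).ncard : ℝ) / (F n).ncard) u (𝓝 (μ S)) := by
  have hp : ∀ n, (0 : ℝ) < (F n).ncard := fun n => by
    exact_mod_cast (ncard_pos (hF n)).2 (hne n)
  have h1 : ∀ S, ∃ a : ℝ, Tendsto (fun n => ((F n ∩ S).ncard : ℝ) / (F n).ncard) u (𝓝 a) := by
    intro S
    obtain ⟨a, -, ha⟩ := (isCompact_Icc (a := (0 : ℝ)) (b := 1)).ultrafilter_le_nhds'
      (u.map fun n => ((F n ∩ S).ncard : ℝ) / (F n).ncard) (Ultrafilter.mem_map.2
        (univ_mem' fun n => ⟨by positivity, (div_le_one (hp n)).2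
          (by exact_mod_cast ncard_le_ncard inter_subset_left (hF n))⟩))
    exact ⟨a, ha⟩
  choose μ hμ using h1
  have h2 : ∀ (g : Γ) (S : Set Γ), μ S ≤ μ (g • S) := by
    intro g S
    obtain ⟨E, e1, e2⟩ := hinv g
    have e3 := ((e2.mono_left hu).inv₀ one_ne_zero).sub_const 1
    rw [inv_one, sub_self] at e3
    have e4 := (hμ (g • S)).add e3
    rw [add_zero] at e4
    refine le_of_tendsto_of_tendsto' (hμ S) e4 fun n => ?_
    have a1 : (F n ∩ S).ncard = (g • F n ∩ g • S).ncard := by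
      rw [← smul_set_inter, ncard_smul_set]
    have a2 : g • F n ∩ g • S ⊆ (F n ∩ g • S) ∪ (E n \ F n) := fun x hx => by
      by_cases h : x ∈ F n
      · exact Or.inl ⟨h, hx.2⟩
      · exact Or.inr ⟨(e1 n).2.2 hx.1, h⟩
    have a3 := (ncard_le_ncard a2 (((hF n).inter_of_left _).union (e1 n).1.diff)).trans
      (ncard_union_le _ _)
    have a4 := ncard_diff_add_ncard_of_subset (e1 n).2.1 (e1 n).1
    have a5 : ((F n ∩ S).ncard : ℝ) + (F n).ncard ≤ (F n ∩ g • S).ncard + (E n).ncard := by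
      exact_mod_cast (by omega : (F n ∩ S).ncard + (F n).ncard ≤ _ + (E n).ncard)
    rw [inv_div, div_sub_one (hp n).ne', ← add_div]
    exact div_le_div_of_nonneg_right (by linarith) (hp n).le
  refine ⟨μ, ⟨fun S => ge_of_tendsto' (hμ S) fun n => by positivity, ?_, fun S T hST => ?_,
    fun g S => le_antisymm (by simpa using h2 g⁻¹ (g • S)) (h2 g S)⟩, hμ⟩
  · refine tendsto_nhds_unique (hμ _) (tendsto_const_nhds.congr fun n => ?_)
    rw [inter_univ, div_self (hp n).ne']
  · refine tendsto_nhds_unique (hμ _) (((hμ S).add (hμ T)).congr fun n => ?_)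
    rw [inter_union_distrib_left, ncard_union_eq (hST.mono inter_subset_right inter_subset_right)
      ((hF n).inter_of_left _) ((hF n).inter_of_left _), Nat.cast_add, add_div]

end Pool.Agent.Lib.helper23.Tdc
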