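import Mathlib
import Pool.Agent.Lib.helper23.TdcA
import Pool.Agent.Lib.helper23.TdcB

set_option autoImplicit false

open Set Filter Topology
open scoped Pointwise

namespace Pool.Agent.Lib.helper23.Tdc

lemma resid {B : Type} [CommGroup B] [Group.FG B] (a : B) (h : ∀ k : ℕ, k ≠ 0 → ∃ b, b ^ k = a) :
    a = 1 := by
  haveI : Module.Finite ℤ (Additive B) := Module.Finite.iff_addGroup_fg.2 inferInstance
  have h1 : ∀ t : ℤ, t ≠ 0 → ∃ r : ℤ, t ∣ r ∧ r • Additive.ofMul a = Additive.ofMul a := by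
    intro t ht
    obtain ⟨r, hr⟩ := ((Ideal.span {t}).mem_iInf_smul_pow_eq_bot_iff (Additive.ofMul a)).1
      ((Submodule.mem_iInf _).2 fun i => by
        obtain ⟨b, rfl⟩ := h (t ^ i).natAbs (by positivity)
        rw [ofMul_pow, ← natCast_zsmul, Ideal.span_singleton_pow]
        exact Submodule.smul_mem_smul (Ideal.mem_span_singleton.2 (Int.dvd_natAbs.2 dvd_rfl))
          Submodule.mem_top)
    exact ⟨r, Ideal.mem_span_singleton.1 r.2, hr⟩
  obtain ⟨r, r1, r2⟩ := h1 2 two_ne_zero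
  obtain ⟨s, ⟨c, rfl⟩, s2⟩ := h1 (1 - r) (by omega)
  rw [mul_comm, mul_smul, sub_smul, one_smul, r2, sub_self, smul_zero] at s2
  exact ofMul_eq_zero.1 s2.symm

variable {G : Type} [Group G]

lemma tower [Group.FG G] (A : Subgroup G) [A.FiniteIndex] [A.Normal]
    (hA : ∀ a ∈ A, ∀ b ∈ A, a * b = b * a) : ∃ N : ℕ → Subgroup G,
      (∀ j, (N j).FiniteIndex ∧ N j ≤ A ∧ ∀ ψ : G →* G, N j ≤ (N j).comap ψ) ∧
      ∀ a : G, a ≠ 1 → ∀ᶠ j in atTop, a ∉ N j := by
  letI : CommGroup A := { (inferInstance : Group A) with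
    mul_comm := fun a b => Subtype.ext (hA _ a.2 _ b.2) }
  have h0 : A.index ≠ 0 := Subgroup.FiniteIndex.index_ne_zero
  have h1 : ∀ j : ℕ, Subgroup.closure (range fun g : G => g ^ (A.index * j.factorial)) ≤
      (powMonoidHom (α := A) j.factorial).range.map A.subtype := fun j =>
    (Subgroup.closure_le _).2 (by
      rintro _ ⟨g, rfl⟩
      exact ⟨_, ⟨⟨g ^ A.index, A.pow_index_mem g⟩, rfl⟩, by simp [pow_mul]⟩)
  refine ⟨fun j => Subgroup.closure (range fun g : G => g ^ (A.index * j.factorial)),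
    fun j => ⟨?_, (h1 j).trans (Subgroup.map_subtype_le _), fun ψ => (Subgroup.closure_le _).2 ?_⟩,
    fun a ha => ?_⟩
  · haveI := Subgroup.finiteIndex_range_powMonoidHom_of_fg A
      (mul_ne_zero h0 j.factorial_ne_zero)
    haveI : ((powMonoidHom (α := A) (A.index * j.factorial)).range.map A.subtype).FiniteIndex :=
      ⟨by rw [Subgroup.index_map_subtype]; exact mul_ne_zero Subgroup.FiniteIndex.index_ne_zero h0⟩
    refine Subgroup.finiteIndex_of_le
      (H := (powMonoidHom (α := A) (A.index * j.factorial)).range.map A.subtype) ?_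
    rintro _ ⟨_, ⟨b, rfl⟩, rfl⟩
    exact Subgroup.subset_closure ⟨b, by simp⟩
  · rintro _ ⟨g, rfl⟩
    exact Subgroup.subset_closure ⟨ψ g, (map_pow ψ g _).symm⟩
  · by_cases haA : a ∈ A
    · have h2 : ∃ k : ℕ, k ≠ 0 ∧ ∀ b : A, b ^ k ≠ ⟨a, haA⟩ := by
        by_contra hc
        push Not at hc
        exact ha (congrArg Subtype.val (resid _ hc))
      obtain ⟨k, k1, k2⟩ := h2
      filter_upwards [eventually_ge_atTop k] with j hj h3
      obtain ⟨_, ⟨b, rfl⟩, rfl⟩ := h1 j h3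
      obtain ⟨c, hc⟩ := Nat.dvd_factorial (Nat.pos_of_ne_zero k1) hj
      refine k2 (b ^ c) (Subtype.ext ?_)
      simp [hc, ← pow_mul, mul_comm]
    · exact Eventually.of_forall fun j h3 => haA ((h1 j).trans (Subgroup.map_subtype_le _) h3)

/-- the solution set -/
def sol (φ : G →* G) : Set (G × G) := {p | p.1 * p.2 = p.2 * φ p.1}

/-- the defect of a pair -/
def w (φ : G →* G) (p : G × G) : G := (p.1 * p.2)⁻¹ * (p.2 * φ p.1)

lemma mean_quot {μ : Set (G × G) → ℝ} (h : IsMean μ) (φ : G →* G) (N : Subgroup G) [N.Normal]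
    [N.FiniteIndex] (hN : N ≤ N.comap φ) : μ {p | w φ p ∈ N} =
      ((sol (QuotientGroup.map N N φ hN)).ncard : ℝ) / (Nat.card (G ⧸ N) : ℝ) ^ 2 := by
  have h1 := h.fiber ((QuotientGroup.mk' N).prodMap (QuotientGroup.mk' N))
    ((QuotientGroup.mk'_surjective N).prodMap (QuotientGroup.mk'_surjective N))
    (sol (QuotientGroup.map N N φ hN))
  rw [Nat.card_prod, Nat.cast_mul, ← sq] at h1
  rw [← h1]
  congr 1
  ext p
  exact QuotientGroup.eq.symm

lemma mean_lim {μ : Set (G × G) → ℝ} (h : IsMean μ) (φ : G →* G) (A : Subgroup G)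
    [A.FiniteIndex] [hn : A.Normal] (hA : ∀ a ∈ A, ∀ b ∈ A, a * b = b * a) (N : ℕ → Subgroup G)
    (h1 : ∀ j, N j ≤ A) (h2 : ∀ a : G, a ≠ 1 → ∀ᶠ j in atTop, a ∉ N j) :
    Tendsto (fun j => μ {p | w φ p ∈ N j ∧ w φ p ≠ 1}) atTop (𝓝 0) := by
  letI : CommGroup A := { (inferInstance : Group A) with
    mul_comm := fun a b => Subtype.ext (hA _ a.2 _ b.2) }
  haveI : (A.comap φ).FiniteIndex := ⟨by
    rw [Subgroup.index_comap]; exact (inferInstance : (A.subgroupOf φ.range).FiniteIndex).1⟩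
  let P : Subgroup (G × G) := (A ⊓ A.comap φ).prod A
  haveI := Fintype.ofFinite ((G × G) ⧸ P)
  have h3 : ∀ q : (G × G) ⧸ P, Tendsto (fun j => μ ({p | w φ p ∈ N j ∧ w φ p ≠ 1} ∩
      (QuotientGroup.mk : G × G → (G × G) ⧸ P) ⁻¹' {q})) atTop (𝓝 0) := by
    intro q
    by_cases hq : ∃ γ : G × G, w φ γ ∈ A ∧ (γ : (G × G) ⧸ P) = q
    · obtain ⟨⟨x, y⟩, hc, rfl⟩ := hq
      let f1 : P →* A := (((MulAut.conj y⁻¹).toMonoidHom.comp (MonoidHom.fst G G)).comp
        P.subtype).codRestrict A fun p => hn.conj_mem _ p.2.1.1 _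
      let f2 : P →* A := ((MonoidHom.snd G G).comp P.subtype).codRestrict A fun p => p.2.2
      let f3 : P →* A := (((MulAut.conj (φ x)⁻¹).toMonoidHom.comp (MonoidHom.snd G G)).comp
        P.subtype).codRestrict A fun p => hn.conj_mem _ p.2.2 _
      let f4 : P →* A := ((φ.comp (MonoidHom.fst G G)).comp P.subtype).codRestrict A
        fun p => p.2.1.2
      have h4 : ∀ p : P, w φ ((x, y) * p) =
          ((⟨_, hc⟩ : A) * (f2⁻¹ * f1⁻¹ * f3 * f4) p : A) := fun p => by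
        have e : (⟨_, hc⟩ : A) * (f2⁻¹ * f1⁻¹ * f3 * f4) p =
            (f2 p)⁻¹ * (f1 p)⁻¹ * ⟨_, hc⟩ * f3 p * f4 p := by
          simp only [MonoidHom.mul_apply, MonoidHom.inv_apply]
          ac_rfl
        rw [e]
        simp [w, f1, f2, f3, f4]
        group
      have h5 := h.small P (f2⁻¹ * f1⁻¹ * f3 * f4) ⟨_, hc⟩ (fun j => (N j).subgroupOf A)
        fun a ha => h2 a fun e => ha (Subtype.ext e)
      refine h5.congr fun j => ?_
      rw [← h.inv (x, y)]
      congr 1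
      ext γ
      constructor
      · rintro ⟨_, ⟨p, rfl, p1, p2⟩, rfl⟩
        refine ⟨⟨(h4 p).symm ▸ p1, fun e => p2 (Subtype.ext ((h4 p).symm.trans e))⟩, ?_⟩
        exact (QuotientGroup.mk_mul_of_mem _ p.2)
      · rintro ⟨⟨p1, p2⟩, p3⟩
        have p4 : (x, y)⁻¹ * γ ∈ P := QuotientGroup.eq.1 (Eq.symm p3)
        have p5 := h4 ⟨_, p4⟩
        rw [mul_inv_cancel_left] at p5
        exact ⟨_, ⟨⟨_, p4⟩, rfl, Subgroup.mem_subgroupOf.2 (p5 ▸ p1),
          fun e => p2 (p5.trans (congrArg Subtype.val e))⟩, mul_inv_cancel_left _ _⟩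
    · refine tendsto_const_nhds.congr fun j => ?_
      rw [← h.empty]
      congr 1
      symm
      exact eq_empty_of_forall_notMem fun γ hγ => hq ⟨γ, h1 j hγ.1.1, hγ.2⟩
  have h6 := tendsto_finsetSum Finset.univ fun q _ => h3 q
  rw [Finset.sum_const_zero] at h6
  exact h6.congr fun j => (h.part _ _).symm

/-- the infimum over finite quotients -/
noncomputable def inf (φ : G →* G) : ℝ :=
  sInf {r | ∃ (N : Subgroup G) (_ : N.Normal) (_ : N.FiniteIndex) (h : N ≤ N.comap φ),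
    r = ((sol (QuotientGroup.map N N φ h)).ncard : ℝ) / (Nat.card (G ⧸ N) : ℝ) ^ 2}

lemma mean_sol [Group.FG G] (A : Subgroup G) [A.FiniteIndex]
    (hA : ∀ a ∈ A, ∀ b ∈ A, a * b = b * a) {μ : Set (G × G) → ℝ} (h : IsMean μ) (φ : G →* G) :
    μ (sol φ) = inf φ := by
  have hA' : ∀ a ∈ A.normalCore, ∀ b ∈ A.normalCore, a * b = b * a :=
    fun a ha b hb => hA a (A.normalCore_le ha) b (A.normalCore_le hb)
  obtain ⟨N, n1, n2⟩ := tower A.normalCore hA'
  have h1 := (mean_lim h φ _ hA' N (fun j => (n1 j).2.1) n2).const_add (μ (sol φ))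
  have hs : ∀ p, p ∈ sol φ ↔ w φ p = 1 := fun p => inv_mul_eq_one.symm
  symm
  refine IsGLB.csInf_eq ⟨?_, fun b hb => ?_⟩ ⟨_, ⊤, inferInstance, inferInstance, le_top.trans
    (by simp), rfl⟩
  · rintro _ ⟨M, _, _, hM, rfl⟩
    rw [← mean_quot h]
    exact h.mono fun p hp => show w φ p ∈ M from (hs p).1 hp ▸ M.one_mem
  · rw [add_zero] at h1
    refine ge_of_tendsto' h1 fun j => ?_
    haveI := (n1 j).1
    haveI : (N j).Normal := ⟨fun a ha g => (n1 j).2.2 (MulAut.conj g).toMonoidHom ha⟩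
    refine (hb ⟨N j, inferInstance, inferInstance, (n1 j).2.2 φ, rfl⟩).trans ?_
    rw [← mean_quot h, ← h.add _ _ (disjoint_left.2 fun p hp hq => hq.2 ((hs p).1 hp))]
    refine h.mono fun p hp => ?_
    by_cases e : w φ p = 1
    · exact Or.inl ((hs p).2 e)
    · exact Or.inr ⟨hp, e⟩

/-- words of bounded length -/
def ball (X : Finset G) (n : ℕ) : Set G :=
  {g | ∃ l : List G, l.length ≤ n ∧ (∀ x ∈ l, x ∈ X ∨ x⁻¹ ∈ X) ∧ l.prod = g}

lemma ball_eq [DecidableEq G] (X : Finset G) (n : ℕ) :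
    ball X n = ((insert 1 (X ∪ X⁻¹) : Finset G) ^ n : Finset G) := by
  have h1 : (1 : G) ∈ (insert 1 (X ∪ X⁻¹) : Finset G) := Finset.mem_insert_self _ _
  refine Subset.antisymm ?_ ?_
  · rintro _ ⟨l, l1, l2, rfl⟩
    refine Finset.pow_subset_pow_right h1 l1 ?_
    clear l1
    induction l with
    | nil => simp
    | cons a l ih =>
      rw [List.prod_cons, List.length_cons, pow_succ']
      refine Finset.mul_mem_mul ?_ (ih fun x hx => l2 x (List.mem_cons_of_mem _ hx))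
      have := l2 a List.mem_cons_self
      simp only [Finset.mem_insert, Finset.mem_union, Finset.mem_inv']
      exact Or.inr this
  · induction n with
    | zero => exact fun g hg => ⟨[], le_rfl, by simp, by simpa using (eq_comm.1 (by simpa using hg))⟩
    | succ n ih =>
      intro g hg
      rw [pow_succ'] at hg
      obtain ⟨a, ha, x, hx, rfl⟩ := Finset.mem_mul.1 hg
      obtain ⟨l, l1, l2, rfl⟩ := ih hx
      simp only [Finset.mem_insert, Finset.mem_union, Finset.mem_inv'] at ha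
      rcases ha with rfl | ha
      · exact ⟨l, l1.trans (Nat.le_succ n), l2, (one_mul _).symm⟩
      · exact ⟨a :: l, Nat.succ_le_succ l1, List.forall_mem_cons.2 ⟨ha, l2⟩, List.prod_cons⟩

theorem main (A : Subgroup G) [A.FiniteIndex] (hA : ∀ a ∈ A, ∀ b ∈ A, a * b = b * a)
    (φ : G →* G) (X : Finset G) (hX : Subgroup.closure (X : Set G) = ⊤) :
    Tendsto (fun n => (({p : G × G | p.1 ∈ ball X n ∧ p.2 ∈ ball X n ∧
      p.1 * p.2 = p.2 * φ p.1}.ncard : ℝ) / ((ball X n).ncard : ℝ) ^ 2)) atTop (𝓝 (inf φ)) := by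
  classical
  haveI : Group.FG G := ⟨⟨X, hX⟩⟩
  set U : Finset G := insert 1 (X ∪ X⁻¹) with hU
  have h1 : (1 : G) ∈ U := Finset.mem_insert_self _ _
  have hi : U⁻¹ = U := by
    ext x
    simp [hU, or_comm]
  have hg : ∀ g : G, ∃ k, ∀ m, k ≤ m → g ∈ U ^ m := fun g => by
    have h2 : g ∈ (Subgroup.closure (X : Set G)).toSubmonoid := hX ▸ Subgroup.mem_top g
    rw [Subgroup.closure_toSubmonoid] at h2
    obtain ⟨l, l1, l2⟩ := Submonoid.exists_list_of_mem_closure h2
    refine ⟨l.length, fun m hm => ?_⟩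
    have h3 : g ∈ ball X m := ⟨l, hm, fun x hx => l1 x hx, l2⟩
    rwa [ball_eq] at h3
  refine (tendsto_iff_ultrafilter _ _ _).2 fun u hu => ?_
  obtain ⟨μ, m1, m2⟩ := exists_mean (fun n => ((U ^ n : Finset G) : Set G) ×ˢ
    ((U ^ n : Finset G) : Set G)) (fun n => (Finset.finite_toSet _).prod (Finset.finite_toSet _))
    (fun n => ⟨(1, 1), Finset.one_mem_pow h1, Finset.one_mem_pow h1⟩) (fun g => by
      obtain ⟨a, ha⟩ := hg g.1
      obtain ⟨b, hb⟩ := hg g.2
      refine ⟨fun n => ((U ^ (n + (a + b)) : Finset G) : Set G) ×ˢ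
        ((U ^ (n + (a + b)) : Finset G) : Set G), fun n => ⟨(Finset.finite_toSet _).prod
          (Finset.finite_toSet _), prod_mono (Finset.pow_subset_pow_right h1 (by omega))
          (Finset.pow_subset_pow_right h1 (by omega)), ?_⟩, ?_⟩
      · rintro _ ⟨p, hp, rfl⟩
        dsimp only
        rw [add_comm n, pow_add]
        exact ⟨Finset.mul_mem_mul (ha _ (by omega)) hp.1, Finset.mul_mem_mul (hb _ (by omega)) hp.2⟩
      · have h2 := folner A hA h1 hi (a + b)
        have h3 := h2.mul h2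
        rw [mul_one] at h3
        refine h3.congr fun n => ?_
        simp only [ncard_prod, ncard_coe_finset, Nat.cast_mul, div_mul_div_comm]) u hu
  rw [← mean_sol A hA m1 φ]
  refine (m2 (sol φ)).congr fun n => ?_
  simp only [ball_eq, ncard_prod, Nat.cast_mul, sq]
  congr 3
  ext p
  exact and_assoc

end Pool.Agent.Lib.helper23.Tdc
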