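import Mathlib

set_option autoImplicit false

open Set

namespace Pool.Agent.Lib.helper23.Vor

variable {V : Type}

/-- the Voronoi cell of `v` with respect to the sites `T` -/
def cell (G : SimpleGraph V) (T : Finset V) (v : V) : Set V :=
  {u | ∀ w ∈ T, G.dist u v ≤ G.dist u w}

/-- the number of infinite cells -/
noncomputable def infCells (G : SimpleGraph V) (T : Finset V) : ℕ :=
  {v | v ∈ T ∧ (cell G T v).Infinite}.ncard

/-- the survival number -/
noncomputable def surv (G : SimpleGraph V) : ℕ∞ :=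
  ⨆ (n : ℕ) (_ : 1 ≤ n ∧ ∃ d : ℕ, ∀ T : Finset V, n ≤ T.card →
    (∀ v ∈ T, ∀ w ∈ T, v ≠ w → d < G.dist v w) → n ≤ infCells G T), (n : ℕ∞)

variable {G : SimpleGraph V}

lemma step (hc : G.Connected) {u v : V} {n : ℕ} (h : G.dist u v = n + 1) :
    ∃ w, G.Adj u w ∧ G.dist w v = n := by
  obtain ⟨p, hp⟩ := hc.exists_walk_length_eq_dist u v
  cases p with
  | nil => simp at h
  | cons a q =>
    rename_i w
    have h1 := SimpleGraph.dist_le q
    have h2 := hc.dist_triangle (u := u) (v := w) (w := v)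
    rw [SimpleGraph.dist_eq_one_iff_adj.2 a] at h2
    rw [SimpleGraph.Walk.length_cons] at hp
    exact ⟨w, a, by omega⟩

lemma ball_finite (hc : G.Connected) (hf : ∀ v, (G.neighborSet v).Finite) (v : V) (r : ℕ) :
    {u | G.dist u v ≤ r}.Finite := by
  induction r with
  | zero => exact (finite_singleton v).subset fun u hu => hc.dist_eq_zero_iff.1 (Nat.le_zero.1 hu)
  | succ r ih =>
    refine (ih.union (ih.biUnion fun w _ => hf w)).subset fun u hu => ?_
    rcases Nat.lt_or_eq_of_le (show G.dist u v ≤ r + 1 from hu) with h | h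
    · exact Or.inl (Nat.le_of_lt_succ h)
    · obtain ⟨w, w1, w2⟩ := step hc h
      exact Or.inr (mem_biUnion (show G.dist w v ≤ r from w2.le) w1.symm)

/-- removing the sites with finite cells -/
lemma reduce (T : Finset V) : ∃ B : Finset V, B ⊆ T ∧ B.card = infCells G T ∧
    ∀ v ∈ T, v ∉ B → (cell G B v).Finite := by
  classical
  refine ⟨T.filter fun v => (cell G T v).Infinite, Finset.filter_subset _ _, ?_, fun v hv hB => ?_⟩
  · rw [infCells, ← ncard_coe_finset, Finset.coe_filter]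
  · refine ((T.filter fun v => (cell G T v).Finite).finite_toSet.biUnion
      fun w hw => (Finset.mem_filter.1 hw).2).subset fun u hu => ?_
    obtain ⟨w, w1, w2⟩ := T.exists_min_image (G.dist u) ⟨v, hv⟩
    by_cases h : (cell G T w).Finite
    · exact mem_biUnion (Finset.mem_filter.2 ⟨w1, h⟩) w2
    · refine mem_biUnion (Finset.mem_filter.2 ⟨hv, ?_⟩) fun x hx =>
        (hu w (Finset.mem_filter.2 ⟨w1, h⟩)).trans (w2 x hx)
      by_contra h'
      exact hB (Finset.mem_filter.2 ⟨hv, h'⟩)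

lemma surv_top (h : ∀ k, ∃ d, ∀ (v : V) (B : Finset V), B.card ≤ k →
    (∀ b ∈ B, d < G.dist v b) → (cell G B v).Infinite) : surv G = ⊤ := by
  refine ENat.eq_top_iff_forall_ge.2 fun n => le_trans (by exact_mod_cast Nat.le_succ n)
    (le_iSup₂_of_le (n + 1) ⟨Nat.le_add_left 1 n, ?_⟩ le_rfl)
  obtain ⟨d, hd⟩ := h n
  refine ⟨d, fun T h1 h2 => ?_⟩
  obtain ⟨B, b1, b2, b3⟩ := reduce (G := G) T
  by_contra h3
  obtain ⟨v, v1, v2⟩ := Finset.exists_mem_notMem_of_card_lt_card (show B.card < T.card by omega)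
  exact hd v B (by omega) (fun b hb => h2 v v1 b (b1 hb) fun e => v2 (e ▸ hb)) (b3 v v1 v2)

lemma extend [Infinite V] (hc : G.Connected) (hf : ∀ v, (G.neighborSet v).Finite) (d : ℕ)
    (T : Finset V) (hT : ∀ v ∈ T, ∀ w ∈ T, v ≠ w → d < G.dist v w) (m : ℕ) :
    ∃ S : Finset V, T ⊆ S ∧ S.card = T.card + m ∧ ∀ v ∈ S, ∀ w ∈ S, v ≠ w → d < G.dist v w := by
  classical
  induction m with
  | zero => exact ⟨T, Finset.Subset.rfl, rfl, hT⟩
  | succ m ih =>
    obtain ⟨S, s1, s2, s3⟩ := ih
    obtain ⟨x, hx⟩ := (S.finite_toSet.biUnion fun w _ => ball_finite hc hf w d).exists_notMem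
    have h1 : ∀ w ∈ S, d < G.dist x w := fun w hw => not_le.1 fun h => hx (mem_biUnion hw h)
    have h2 : x ∉ S := fun h => by simpa using h1 x h
    refine ⟨insert x S, s1.trans (Finset.subset_insert _ _), by
      rw [Finset.card_insert_of_notMem h2, s2, add_assoc], fun v hv w hw e => ?_⟩
    rcases Finset.mem_insert.1 hv with rfl | hv' <;> rcases Finset.mem_insert.1 hw with rfl | hw'
    · exact (e rfl).elim
    · exact h1 w hw'
    · exact SimpleGraph.dist_comm ▸ h1 v hv'
    · exact s3 v hv' w hw' e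

lemma surv_le [Infinite V] (hc : G.Connected) (hf : ∀ v, (G.neighborSet v).Finite) (k : ℕ)
    (h : ∀ d, ∃ (v : V) (T : Finset V), v ∈ T ∧ T.card ≤ k + 1 ∧
      (∀ a ∈ T, ∀ b ∈ T, a ≠ b → d < G.dist a b) ∧ (cell G T v).Finite) : surv G ≤ k := by
  refine iSup₂_le fun n ⟨_, d, hd⟩ => Nat.cast_le.2 (not_lt.1 fun hn => ?_)
  obtain ⟨v, T, t1, t2, t3, t4⟩ := h d
  obtain ⟨S, s1, s2, s3⟩ := extend hc hf d T t3 (n - T.card)
  have h1 := hd S (by omega) s3
  have h2 : infCells G S < S.card := by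
    rw [← ncard_coe_finset]
    refine ncard_lt_ncard (ssubset_iff_of_subset (fun x hx => hx.1) |>.2 ⟨v, s1 t1, fun hv => ?_⟩)
      S.finite_toSet
    exact hv.2 (t4.subset fun u hu w hw => hu w (s1 hw))
  omega

/-- a graph whose distance is a given function -/
lemma dist_eq (D : V → V → ℕ) (h0 : ∀ p, D p p = 0)
    (h1 : ∀ p p' q, G.Adj p p' → D p q ≤ D p' q + 1)
    (h2 : ∀ p q, p ≠ q → ∃ p', G.Adj p p' ∧ D p' q < D p q) [Nonempty V] :
    G.Connected ∧ ∀ p q, G.dist p q = D p q := by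
  have h3 : ∀ n p q, D p q ≤ n → ∃ w : G.Walk p q, w.length ≤ n := by
    intro n
    induction n with
    | zero =>
      intro p q h
      obtain rfl : p = q := by
        by_contra e
        obtain ⟨_, -, e'⟩ := h2 p q e
        omega
      exact ⟨.nil, le_rfl⟩
    | succ n ih =>
      intro p q h
      by_cases e : p = q
      · subst e
        exact ⟨.nil, Nat.zero_le _⟩
      · obtain ⟨p', a, e'⟩ := h2 p q e
        obtain ⟨w, hw⟩ := ih p' q (by omega)
        exact ⟨.cons a w, Nat.succ_le_succ hw⟩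
  have h4 : G.Connected := ⟨fun p q => ⟨(h3 _ p q le_rfl).choose⟩⟩
  refine ⟨h4, fun p q => le_antisymm ((SimpleGraph.dist_le _).trans (h3 _ p q le_rfl).choose_spec) ?_⟩
  obtain ⟨w, hw⟩ := h4.exists_walk_length_eq_dist p q
  rw [← hw]
  clear hw
  induction w with
  | nil => exact (h0 _).le
  | cons a w ih => exact (h1 _ _ _ a).trans (Nat.succ_le_succ ih)

/-- many equidistant sites -/
lemma many [Infinite V] (hc : G.Connected) (N r : ℕ) (o : V) (S : Finset V)
    (h1 : ∀ v ∈ S, G.dist v o ≤ r) (h2 : (2 * r + 1) * N < S.card) :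
    ∃ T : Finset V, T.Nonempty ∧ N < infCells G T := by
  classical
  have h3 : ∀ u : V, ∃ T : S.powerset, N < T.1.card ∧ ∀ v ∈ T.1, u ∈ cell G T.1 v := fun u => by
    obtain ⟨y, -, hy⟩ := Finset.exists_lt_card_fiber_of_mul_lt_card_of_maps_to
      (t := Finset.range (2 * r + 1)) (f := fun v => G.dist u v + r - G.dist u o) (n := N)
      (fun v hv => by
        have := hc.dist_triangle (u := u) (v := o) (w := v)
        have := h1 v hv
        rw [SimpleGraph.dist_comm] at this
        exact Finset.mem_range.2 (by omega)) (by simpa using h2)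
    refine ⟨⟨_, Finset.mem_powerset.2 (Finset.filter_subset _ _)⟩, hy, fun v hv w hw => ?_⟩
    obtain ⟨v1, v2⟩ := Finset.mem_filter.1 hv
    obtain ⟨w1, w2⟩ := Finset.mem_filter.1 hw
    have := hc.dist_triangle (u := u) (v := v) (w := o)
    have := hc.dist_triangle (u := u) (v := w) (w := o)
    have := h1 v v1
    have := h1 w w1
    omega
  choose f f1 f2 using h3
  obtain ⟨T, hT⟩ := Finite.exists_infinite_fiber f
  obtain ⟨u, hu⟩ := (infinite_coe_iff.1 hT).nonempty
  have h4 : N < T.1.card := (show f u = T from hu) ▸ f1 u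
  refine ⟨T.1, Finset.card_pos.1 (by omega), h4.trans_le ?_⟩
  rw [← ncard_coe_finset]
  refine ncard_le_ncard (fun v hv => ⟨hv, (infinite_coe_iff.1 hT).mono fun x hx => ?_⟩)
    (T.1.finite_toSet.subset fun x hx => hx.1)
  obtain rfl : f x = T := hx
  exact f2 x v hv

end Pool.Agent.Lib.helper23.Vor
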