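import Mathlib
import Pool.Agent.Lib.helper23.VorA

set_option autoImplicit false

open Set

namespace Pool.Agent.Lib.helper23.Vor

variable {V : Type} {G : SimpleGraph V}

lemma iso_dist (hc : G.Connected) (φ : G ≃g G) (u v : V) : G.dist (φ u) (φ v) = G.dist u v := by
  have h : ∀ (φ : G ≃g G) (u v : V), G.dist (φ u) (φ v) ≤ G.dist u v := fun φ u v => by
    obtain ⟨p, hp⟩ := hc.exists_walk_length_eq_dist u v
    exact (SimpleGraph.dist_le (p.map φ.toHom)).trans ((p.length_map _).trans hp).le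
  exact le_antisymm (h φ u v) (by simpa using h φ.symm (φ u) (φ v))

lemma geo (hc : G.Connected) {x y a : V} (p : G.Walk x y) (hp : p.length = G.dist x y)
    (ha : a ∈ p.support) : G.dist x a + G.dist a y = G.dist x y ∧ a = p.getVert (G.dist x a) := by
  obtain ⟨n, rfl, hn⟩ := SimpleGraph.Walk.mem_support_iff_exists_getVert.1 ha
  have h1 := SimpleGraph.dist_le (p.take n)
  have h2 := SimpleGraph.dist_le (p.drop n)
  have h3 := hc.dist_triangle (u := x) (v := p.getVert n) (w := y)
  rw [SimpleGraph.Walk.take_length] at h1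
  rw [SimpleGraph.Walk.drop_length] at h2
  have h4 : G.dist x (p.getVert n) = n := by omega
  exact ⟨by omega, by rw [h4]⟩

lemma mid [Infinite V] (hc : G.Connected) (hf : ∀ v, (G.neighborSet v).Finite)
    (ht : ∀ u v, ∃ φ : G ≃g G, φ u = v) (x : V) (L : ℕ) : ∃ (y z : V) (p : G.Walk y z),
      p.length = G.dist y z ∧ x ∈ p.support ∧ L ≤ G.dist y x ∧ L ≤ G.dist x z := by
  obtain ⟨y, hy⟩ := (ball_finite hc hf x (2 * L)).exists_notMem
  have h1 : 2 * L < G.dist y x := not_le.1 hy
  obtain ⟨p, hp⟩ := hc.exists_walk_length_eq_dist y x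
  have h2 := SimpleGraph.dist_le (p.take L)
  have h3 := SimpleGraph.dist_le (p.drop L)
  have h4 := hc.dist_triangle (u := y) (v := p.getVert L) (w := x)
  rw [SimpleGraph.Walk.take_length] at h2
  rw [SimpleGraph.Walk.drop_length] at h3
  obtain ⟨φ, hφ⟩ := ht (p.getVert L) x
  refine ⟨φ y, φ x, p.map φ.toHom, (p.length_map _).trans (hp.trans (iso_dist hc φ y x).symm),
    ?_, ?_, ?_⟩
  · rw [SimpleGraph.Walk.support_map]
    exact List.mem_map.2 ⟨_, p.getVert_mem_support L, hφ⟩
  · have h5 := iso_dist hc φ y (p.getVert L)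
    rw [hφ] at h5
    omega
  · have h5 := iso_dist hc φ (p.getVert L) x
    rw [hφ] at h5
    omega

lemma ball_card (hc : G.Connected) (ht : ∀ u v, ∃ φ : G ≃g G, φ u = v) (u v : V) (r : ℕ) :
    {x | G.dist u x ≤ r}.ncard = {x | G.dist v x ≤ r}.ncard := by
  obtain ⟨φ, rfl⟩ := ht u v
  refine ncard_congr (fun x _ => φ x) (fun x hx => (iso_dist hc φ u x).trans_le hx)
    (fun a b _ _ h => φ.injective h) fun y hy => ⟨φ.symm y, ?_, φ.apply_symm_apply y⟩
  rw [mem_setOf_eq, ← iso_dist hc φ, φ.apply_symm_apply]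
  exact hy

lemma hyp [Infinite V] (hc : G.Connected) (hf : ∀ v, (G.neighborSet v).Finite)
    (ht : ∀ u v, ∃ φ : G ≃g G, φ u = v) (δ : ℕ)
    (hδ : ∀ (x y z : V) (p : G.Walk x y) (q : G.Walk y z) (r : G.Walk z x),
      p.length = G.dist x y → q.length = G.dist y z → r.length = G.dist z x →
      ∀ a ∈ p.support, ∃ b, (b ∈ q.support ∨ b ∈ r.support) ∧ G.dist a b ≤ δ)
    (hg : ¬ ∃ a b : ℕ, ∀ (v : V) (r : ℕ), {u | G.dist v u ≤ r}.ncard ≤ a * r + b) :
    surv G = ⊤ := by
  refine surv_top fun k => ?_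
  by_contra h
  push Not at h
  obtain ⟨o⟩ : Nonempty V := inferInstance
  have hb : ∀ v r, {u | G.dist v u ≤ r}.Finite := fun v r => by
    simpa only [SimpleGraph.dist_comm (u := v)] using ball_finite hc hf v r
  refine hg ⟨k * {u | G.dist o u ≤ 2 * δ}.ncard, k * (2 * δ + 1) * {u | G.dist o u ≤ 2 * δ}.ncard,
    fun v' R => ?_⟩
  obtain ⟨v, B, b1, b2, b3⟩ := h (2 * R + 4 * δ)
  rw [ball_card hc ht v' v]
  choose g hg using fun b => hc.exists_walk_length_eq_dist v b
  obtain ⟨M, hM⟩ := (b3.image (G.dist v)).bddAbove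
  have h1 : ∀ y m, M < G.dist v y → m ∈ (g y).support → G.dist v m ≤ R + δ →
      ∃ b ∈ B, ∃ j ≤ R + 2 * δ, G.dist ((g b).getVert j) m ≤ δ := by
    intro y m hy hm hm'
    have h2 : y ∉ cell G B v := fun e => hy.not_ge (hM (mem_image_of_mem _ e))
    simp only [cell, mem_setOf_eq, not_forall, not_le] at h2
    obtain ⟨b, hb, h3⟩ := h2
    obtain ⟨q, hq⟩ := hc.exists_walk_length_eq_dist y b
    obtain ⟨w, w1, w2⟩ := hδ v y b (g y) q (g b).reverse (hg y) hq
      (by rw [SimpleGraph.Walk.length_reverse, hg, SimpleGraph.dist_comm]) m hm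
    have a1 := hc.dist_triangle (u := v) (v := m) (w := w)
    rcases w1 with w1 | w1
    · have a2 := (geo hc q hq w1).1
      have a3 := (geo hc _ (hg y) hm).1
      have a4 := hc.dist_triangle (u := m) (v := w) (w := y)
      have a5 := hc.dist_triangle (u := v) (v := w) (w := b)
      have a6 := b2 b hb
      rw [SimpleGraph.dist_comm (u := w)] at a4
      rw [SimpleGraph.dist_comm (v := v)] at h3
      omega
    · rw [SimpleGraph.Walk.support_reverse, List.mem_reverse] at w1
      exact ⟨b, hb, G.dist v w, by omega, (geo hc _ (hg b) w1).2 ▸ SimpleGraph.dist_comm ▸ w2⟩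
  have h4 : {u | G.dist v u ≤ R} ⊆ ⋃ t ∈ B ×ˢ Finset.range (R + 2 * δ + 1),
      {u | G.dist ((g t.1).getVert t.2) u ≤ 2 * δ} := by
    intro x hx
    obtain ⟨y, z, p, p1, p2, p3, p4⟩ := mid hc hf ht x (M + R + 1)
    obtain ⟨m, m1, m2⟩ := hδ y z v p (g z).reverse (g y) p1
      (by rw [SimpleGraph.Walk.length_reverse, hg, SimpleGraph.dist_comm]) (hg y) x p2
    have a0 : G.dist v x ≤ R := hx
    have a1 := hc.dist_triangle (u := v) (v := x) (w := m)
    have a2 := hc.dist_triangle (u := y) (v := v) (w := x)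
    have a3 := hc.dist_triangle (u := x) (v := v) (w := z)
    rw [SimpleGraph.dist_comm (u := y) (v := v)] at a2
    rw [SimpleGraph.dist_comm (u := x) (v := v)] at a3
    rw [SimpleGraph.Walk.support_reverse, List.mem_reverse] at m1
    obtain ⟨b, hb, j, j1, j2⟩ := m1.elim (fun e => h1 z m (by omega) e (by omega))
      fun e => h1 y m (by omega) e (by omega)
    have a4 := hc.dist_triangle (u := (g b).getVert j) (v := m) (w := x)
    rw [SimpleGraph.dist_comm (u := m)] at a4
    exact mem_biUnion (show (b, j) ∈ B ×ˢ Finset.range (R + 2 * δ + 1) from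
      Finset.mem_product.2 ⟨hb, Finset.mem_range.2 (by omega)⟩) 
      (show G.dist ((g b).getVert j) x ≤ 2 * δ by omega)
  refine (ncard_le_ncard h4 ((Finset.finite_toSet _).biUnion fun t _ => hb _ _)).trans
    ((Finset.set_ncard_biUnion_le _ _).trans ?_)
  simp only [ball_card hc ht _ o, Finset.sum_const, Finset.card_product, Finset.card_range,
    smul_eq_mul]
  nlinarith [Nat.mul_le_mul_right ((R + 2 * δ + 1) * {u | G.dist o u ≤ 2 * δ}.ncard) b1]

end Pool.Agent.Lib.helper23.Vor
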