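import Mathlib
import Pool.Agent.Lib.helper23.VorA

set_option autoImplicit false

open Set FreeGroup

namespace Pool.Agent.Lib.helper23.Vor

/-- the graph of pairs at distance one -/
def mg {V : Type} (D : V → V → ℕ) : SimpleGraph V := SimpleGraph.fromRel fun p q => D p q = 1

lemma mg_adj {V : Type} {D : V → V → ℕ} (h0 : ∀ p, D p p = 0) (hs : ∀ p q, D p q = D q p)
    (p q : V) : (mg D).Adj p q ↔ D p q = 1 := by
  rw [mg, SimpleGraph.fromRel_adj, hs q p, or_self]
  refine and_iff_right_of_imp fun h e => ?_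
  rw [e, h0] at h
  omega

abbrev F := FreeGroup (Fin 2)

def a (x y : F) : ℕ := norm (x * y⁻¹)

lemma a_self (x : F) : a x x = 0 := by simp [a]

lemma a_comm (x y : F) : a x y = a y x := by rw [a, ← norm_inv_eq, mul_inv_rev, inv_inv, a]

lemma a_tri (x y z : F) : a x z ≤ a x y + a y z := by
  simpa [a, mul_assoc] using norm_mul_le (x * y⁻¹) (y * z⁻¹)

lemma a_gen (s : Fin 2 × Bool) (x : F) : a (mk [s] * x) x = 1 := by simp [a, FreeGroup.norm]

lemma a_step (x y : F) : ∃ s, a (mk [s] * x) y < a x y ∨ x = y := by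
  rcases h : (x * y⁻¹).toWord with _ | ⟨t, l⟩
  · exact ⟨(0, true), Or.inr (mul_inv_eq_one.1 (toWord_eq_nil_iff.1 h))⟩
  · refine ⟨(t.1, !t.2), Or.inl ?_⟩
    have h1 : mk [(t.1, !t.2)] = (mk [t])⁻¹ := by simp [inv_mk, invRev]
    have h2 : x * y⁻¹ = mk [t] * mk l := by rw [mul_mk, List.singleton_append, ← h, mk_toWord]
    rw [a, mul_assoc, h1, h2, inv_mul_cancel_left, a, FreeGroup.norm.eq_def (x * y⁻¹), h]
    exact Nat.lt_succ_of_le norm_mk_le

lemma a_le_one {x y : F} (h : a y x ≤ 1) : y = x ∨ ∃ s, mk [s] * x = y := by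
  rcases h' : (y * x⁻¹).toWord with _ | ⟨t, _ | ⟨u, l⟩⟩
  · exact Or.inl (mul_inv_eq_one.1 (toWord_eq_nil_iff.1 h'))
  · exact Or.inr ⟨t, by rw [← h', mk_toWord, inv_mul_cancel_right]⟩
  · simp [a, FreeGroup.norm, h'] at h

lemma norm_red {l : List (Fin 2 × Bool)} (h : IsReduced l) : norm (mk l) = l.length := by
  rw [FreeGroup.norm, toWord_mk, h.reduce_eq]

lemma pref (r : ℕ) (l m : List (Fin 2 × Bool)) (hl : IsReduced l) (hm : IsReduced m)
    (h : l.take r ≠ m.take r) : l.length + m.length ≤ norm ((mk l)⁻¹ * mk m) + 2 * r := by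
  induction r generalizing l m with
  | zero => simp at h
  | succ r ih =>
    rcases l with _ | ⟨x, l⟩
    · rw [← one_eq_mk, inv_one, one_mul, norm_red hm]
      simp
    rcases m with _ | ⟨y, m⟩
    · rw [← one_eq_mk, mul_one, norm_inv_eq, norm_red hl]
      simp
    by_cases e : x = y
    · subst e
      have h1 := ih l m hl.tail hm.tail fun e => h (by simp [e])
      rw [← List.singleton_append, ← List.singleton_append (l := m), ← mul_mk, ← mul_mk,
        mul_inv_rev, mul_assoc, inv_mul_cancel_left]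
      simp only [List.length_append, List.length_singleton]
      omega
    · have h1 : IsReduced (invRev (x :: l)) :=
        isReduced_iff_reduce_eq.2 (by rw [reduce_invRev, hl.reduce_eq])
      rw [inv_mk, mul_mk, norm_red (List.IsChain.append h1 hm fun u hu v hv => ?_)]
      · simp
      · obtain rfl : (x.1, !x.2) = u := by simpa [invRev] using hu
        obtain rfl : y = v := by simpa using hv
        intro e'
        by_contra e''
        exact e (Prod.ext e' (by simpa using e''))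

abbrev P := F × ℤ

def D1 (p q : P) : ℕ := a p.1 q.1 + (p.2 - q.2).natAbs

def D2 (p q : P) : ℕ := max (a p.1 q.1) (p.2 - q.2).natAbs

lemma adj1 (p q : P) : (mg D1).Adj p q ↔ D1 p q = 1 :=
  mg_adj (fun p => by simp [D1, a_self]) (fun p q => by rw [D1, D1, a_comm]; omega) p q

lemma adj2 (p q : P) : (mg D2).Adj p q ↔ D2 p q = 1 :=
  mg_adj (fun p => by simp [D2, a_self]) (fun p q => by rw [D2, D2, a_comm]; omega) p q

lemma dist1 : (mg D1).Connected ∧ ∀ p q, (mg D1).dist p q = D1 p q := by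
  refine dist_eq D1 (fun p => by simp [D1, a_self]) (fun p p' q h => ?_) fun p q h => ?_
  · have := a_tri p.1 p'.1 q.1
    simp only [adj1, D1] at *
    omega
  · obtain ⟨s, hs | hs⟩ := a_step p.1 q.1
    · refine ⟨(mk [s] * p.1, p.2), ?_, ?_⟩ <;> simp [adj1, D1, a_comm p.1 (_ * _), a_gen, hs]
    · have : p.2 ≠ q.2 := fun e => h (Prod.ext hs e)
      refine ⟨(p.1, if p.2 < q.2 then p.2 + 1 else p.2 - 1), ?_, ?_⟩ <;>
        simp only [adj1, D1, a_self] <;> split_ifs <;> omega

lemma dist2 : (mg D2).Connected ∧ ∀ p q, (mg D2).dist p q = D2 p q := by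
  refine dist_eq D2 (fun p => by simp [D2, a_self]) (fun p p' q h => ?_) fun p q h => ?_
  · have := a_tri p.1 p'.1 q.1
    simp only [adj2, D2] at *
    omega
  · obtain ⟨s, hs | hs⟩ := a_step p.1 q.1
    · refine ⟨(mk [s] * p.1, if p.2 < q.2 then p.2 + 1 else if p.2 = q.2 then p.2 else p.2 - 1),
        ?_, ?_⟩ <;> simp only [adj2, D2, a_comm p.1 (_ * _), a_gen] <;> split_ifs <;> omega
    · have : p.2 ≠ q.2 := fun e => h (Prod.ext hs e)
      refine ⟨(p.1, if p.2 < q.2 then p.2 + 1 else p.2 - 1), ?_, ?_⟩ <;>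
        simp only [adj2, D2, a_self, ← hs] <;> split_ifs <;> omega

/-- closed neighbourhood in the strong product -/
noncomputable def nb (p : P) : Finset P :=
  insert p.1 (Finset.univ.image fun s => mk [s] * p.1) ×ˢ Finset.Icc (p.2 - 1) (p.2 + 1)

lemma mem_nb (p q : P) : q ∈ nb p ↔ D2 p q ≤ 1 := by
  simp only [nb, Finset.mem_product, Finset.mem_insert, Finset.mem_image, Finset.mem_univ,
    true_and, Finset.mem_Icc, D2, max_le_iff]
  refine and_congr ⟨?_, fun h => a_le_one (a_comm _ _ ▸ h)⟩ (by omega)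
  rintro (h | ⟨s, h⟩)
  · simp [h, a_self]
  · rw [← h, a_comm, a_gen]

lemma fin2 (p : P) : ((mg D2).neighborSet p).Finite :=
  (nb p).finite_toSet.subset fun q hq => (mem_nb p q).2 ((adj2 p q).1 hq).le

lemma fin1 (p : P) : ((mg D1).neighborSet p).Finite :=
  (nb p).finite_toSet.subset fun q hq => (mem_nb p q).2 (by
    have := (adj1 p q).1 hq
    simp only [D1, D2] at *
    omega)

lemma shift (p q : P) : ∃ φ : P ≃ P, φ p = q ∧ ∀ u v, a (φ u).1 (φ v).1 = a u.1 v.1 ∧
    (φ u).2 - (φ v).2 = u.2 - v.2 :=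
  ⟨(Equiv.mulRight (p.1⁻¹ * q.1)).prodCongr (Equiv.addRight (q.2 - p.2)), by ext <;> simp,
    fun u v => ⟨by simp [a, mul_assoc], by simp⟩⟩

lemma trans1 (p q : P) : ∃ φ : mg D1 ≃g mg D1, φ p = q := by
  obtain ⟨φ, h1, h2⟩ := shift p q
  exact ⟨⟨φ, fun {u v} => by simp only [adj1, D1, h2]⟩, h1⟩

lemma trans2 (p q : P) : ∃ φ : mg D2 ≃g mg D2, φ p = q := by
  obtain ⟨φ, h1, h2⟩ := shift p q
  exact ⟨⟨φ, fun {u v} => by simp only [adj2, D2, h2]⟩, h1⟩

lemma surv1 : surv (mg D1) = ⊤ := by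
  refine surv_top fun k => ⟨2 * k, fun v B b1 b2 => ?_⟩
  let w : ℕ → ℕ → List (Fin 2 × Bool) := fun j t =>
    List.replicate j (0, true) ++ List.replicate t (1, true)
  have hw : ∀ j t, IsReduced (w j t) := fun j t => List.Pairwise.isChain
    (List.pairwise_of_forall_mem_list fun x hx y hy _ => by
      simp only [w, List.mem_append, List.mem_replicate] at hx hy
      rcases hx with ⟨-, rfl⟩ | ⟨-, rfl⟩ <;> rcases hy with ⟨-, rfl⟩ | ⟨-, rfl⟩ <;> rfl)
  have h1 : ((Finset.range (k + 1)).image fun j => w j (k - j)).card = k + 1 := by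
    rw [Finset.card_image_of_injOn fun i _ j _ e => ?_, Finset.card_range]
    simpa [w, List.count_replicate] using congrArg (List.count (0, true)) e
  obtain ⟨_, x1, x2⟩ := Finset.exists_mem_notMem_of_card_lt_card
    (s := B.image fun b => (v.1 * b.1⁻¹).toWord.take k)
    ((Nat.lt_succ_of_le (Finset.card_image_le.trans b1)).trans_eq h1.symm)
  obtain ⟨j, hj, rfl⟩ := Finset.mem_image.1 x1
  have hj' := Nat.le_of_lt_succ (Finset.mem_range.1 hj)
  have h2 : ∀ t, D1 ((mk (w j (k - j + t)))⁻¹ * v.1, v.2) v = k + t := fun t => by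
    simp only [D1, a, mul_inv_cancel_right, norm_inv_eq, norm_red (hw _ _)]
    simp [w]
    omega
  refine infinite_of_injective_forall_mem (f := fun t => ((mk (w j (k - j + t)))⁻¹ * v.1, v.2))
    (fun s t e => ?_) fun t b hb => ?_
  · have h3 := h2 s
    rw [show ((mk (w j (k - j + s)))⁻¹ * v.1, v.2) = _ from e, h2] at h3
    omega
  · have h3 := pref k _ _ (hw j (k - j + t)) (isReduced_toWord (x := v.1 * b.1⁻¹)) fun e =>
      x2 (Finset.mem_image.2 ⟨b, hb, e.symm.trans (by
        simp [w, List.take_append, List.take_replicate, hj'])⟩)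
    have h4 := b2 b hb
    rw [dist1.2, dist1.2, h2]
    rw [dist1.2] at h4
    simp only [D1, a, mul_assoc, mk_toWord, w, List.length_append, List.length_replicate,
      FreeGroup.norm.eq_def (v.1 * b.1⁻¹)] at *
    omega

/-- heights of the blocking sites -/
def ht : Option ((Fin 2 × Bool) × Bool) → ℤ
  | none => 0
  | some (s, e) => (if e then 1 else -1) * (1 + 2 * (s.1 : ℕ) + if s.2 then 1 else 0)

lemma surv2 : surv (mg D2) ≤ (8 : ℕ) := by
  refine surv_le dist2.1 fin2 8 fun d => ⟨(1, 0), Finset.univ.image fun o =>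
    (o.elim 1 fun t => mk [t.1], (d + 1) * ht o), Finset.mem_image.2 ⟨none, Finset.mem_univ _,
    by simp [ht]⟩, Finset.card_image_le.trans (by simp), fun p hp q hq e => ?_,
    (ball_finite dist2.1 fin2 (1, 0) (4 * d + 5)).subset fun u hu =>
      (not_lt.1 fun h => ?_ : (mg D2).dist u (1, 0) ≤ 4 * d + 5)⟩
  · obtain ⟨o, -, rfl⟩ := Finset.mem_image.1 hp
    obtain ⟨o', -, rfl⟩ := Finset.mem_image.1 hq
    have h1 : ∀ o o', o ≠ o' → 1 ≤ (ht o - ht o').natAbs := by decide
    have h2 := Nat.mul_le_mul_left (d + 1) (h1 o o' fun e' => e (by rw [e']))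
    rw [dist2.2, D2, ← mul_sub, Int.natAbs_mul]
    exact lt_max_of_lt_right (by
      rw [show ((d : ℤ) + 1).natAbs = d + 1 from Int.natAbs_natCast (d + 1)]; omega)
  · obtain ⟨s, hs⟩ := a_step 1 u.1
    have h1 := hu _ (Finset.mem_image.2 ⟨some (s, decide (0 ≤ u.2)), Finset.mem_univ _, rfl⟩)
    have h2 := a_gen s 1
    rw [mul_one] at hs h2
    have h3 := a_self (1 : F)
    obtain ⟨x, i⟩ := u
    obtain ⟨n, b⟩ := s
    simp only [dist2.2, D2, Option.elim, ht, a_comm x] at *
    have h4 : a (mk [(n, b)]) x < a 1 x ∨ a (mk [(n, b)]) x = 1 :=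
      hs.imp id fun e : 1 = x => by rw [← e, h2]
    have h5 : 1 = x → a 1 x = 0 := fun e => by rw [← e, h3]
    generalize a (mk [(n, b)]) x = c at *
    by_cases hi : 0 ≤ i <;> fin_cases n <;> cases b <;> simp [hi] at h1 <;> omega

/-- sign of the last letter -/
def sg : Option (Fin 2 × Bool) → ℝ
  | none => 0
  | some s => if s.1 = 0 then (if s.2 then 1 else -1) else 0

/-- a bounded harmonic function on the free group -/
noncomputable def harm (x : F) : ℝ := sg x.toWord.getLast? * (1 - (1 / 3) ^ x.toWord.length)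

lemma harm_sum (x : F) : ∑ s, harm (mk [s] * x) = 4 * harm x := by
  have h : ∀ s, (mk [s] * x).toWord = FreeGroup.reduce (s :: x.toWord) := fun s => by
    rw [← toWord_mk, ← List.singleton_append (l := x.toWord), ← mul_mk, mk_toWord]
  simp only [harm, h, FreeGroup.reduce.cons, reduce_toWord]
  rcases x.toWord with _ | ⟨⟨n, b⟩, _ | ⟨t, l⟩⟩ <;>
    simp only [Fintype.sum_prod_type, Fin.sum_univ_two, Fintype.sum_bool]
  · simp [sg]
  · fin_cases n <;> cases b <;> simp [sg] <;> norm_num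
  · fin_cases n <;> cases b <;> simp [pow_succ] <;> ring

lemma harm_nb (p : P) : (((mg D2).neighborSet p).ncard : ℝ) * harm p.1 =
    ∑ᶠ q ∈ (mg D2).neighborSet p, harm q.1 := by
  have h1 : (mg D2).neighborSet p = ((nb p).erase p : Finset P) := by
    ext q
    rw [SimpleGraph.mem_neighborSet, ← SimpleGraph.dist_eq_one_iff_adj, Finset.coe_erase,
      mem_diff, Finset.mem_coe, mem_nb, ← dist2.2, mem_singleton_iff, eq_comm (a := q),
      ← dist2.1.dist_eq_zero_iff]
    omega
  have h2 : p ∈ nb p := (mem_nb p p).2 (by simp [D2, a_self])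
  have h3 : p.1 ∉ Finset.univ.image fun s => mk [s] * p.1 := fun h => by
    obtain ⟨s, -, hs⟩ := Finset.mem_image.1 h
    have := a_gen s p.1
    rw [hs, a_self] at this
    omega
  have h4 : Function.Injective fun s => mk [s] * p.1 := fun s t e => by
    simpa using congrArg toWord (mul_right_cancel e)
  rw [h1, ncard_coe_finset, finsum_mem_coe_finset, Finset.sum_erase_eq_sub h2,
    Finset.cast_card_erase_of_mem h2, nb, Finset.card_product, Finset.sum_product,
    Finset.card_insert_of_notMem h3, Finset.sum_insert h3, Finset.card_image_of_injective _ h4,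
    Finset.sum_image h4.injOn]
  simp only [Finset.sum_const, Int.card_Icc, show (p.2 + 1 + 1 - (p.2 - 1)).toNat = 3 by omega,
    ← Finset.smul_sum, harm_sum]
  simp
  ring

lemma harm_bd (x : F) : |harm x| ≤ 1 := by
  have h1 : ∀ o, |sg o| ≤ 1 := by
    rintro (_ | s)
    · simp [sg]
    · simp only [sg]
      split_ifs <;> simp
  have h2 : (0 : ℝ) < (1 / 3) ^ x.toWord.length := by positivity
  have h3 : ((1 : ℝ) / 3) ^ x.toWord.length ≤ 1 := pow_le_one₀ (by norm_num) (by norm_num)
  rw [harm, abs_mul]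
  exact mul_le_one₀ (h1 _) (abs_nonneg _) (abs_le.2 ⟨by linarith, by linarith⟩)

lemma harm_ne : harm (of 0) ≠ harm 1 := by
  simp [harm, sg]
  norm_num

end Pool.Agent.Lib.helper23.Vor
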