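import Mathlib
import Pool.Agent.Lib.helper23.VorA

set_option autoImplicit false

open Set

namespace Pool.Agent.Lib.helper23.Vor

abbrev W := Finset ℤ × ℤ

/-- one step to the right, free to change the lamp on the edge crossed -/
def rt (p q : W) : Prop := q.2 = p.2 + 1 ∧ ∀ e, e ≠ p.2 → (e ∈ p.1 ↔ e ∈ q.1)

/-- the lamplighter graph with lamps on edges -/
def DL : SimpleGraph W := SimpleGraph.fromRel rt

lemma DL_adj (p q : W) : DL.Adj p q ↔ rt p q ∨ rt q p := by
  rw [DL, SimpleGraph.fromRel_adj]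
  refine and_iff_right_of_imp fun h e => ?_
  subst e
  rcases h with h | h <;> have := h.1 <;> omega

/-- the interval from `m` to `M` contains both positions and all differing lamps -/
def adm (p q : W) (m M : ℤ) : Prop :=
  m ≤ p.2 ∧ m ≤ q.2 ∧ p.2 ≤ M ∧ q.2 ≤ M ∧ ∀ e, e < m ∨ M ≤ e → (e ∈ p.1 ↔ e ∈ q.1)

/-- copy the lamp of `g` at `x` -/
def cp (f g : Finset ℤ) (x : ℤ) : Finset ℤ := if x ∈ g then insert x f else f.erase x

lemma mem_cp (f g : Finset ℤ) (x e : ℤ) : e ∈ cp f g x ↔ if e = x then x ∈ g else e ∈ f := by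
  unfold cp
  split_ifs <;> simp [*]

lemma walk_le (N : ℕ) (p q : W) (m M : ℤ) (h : adm p q m M)
    (hN : 2 * (M - m) - |p.2 - q.2| ≤ N) : ∃ w : DL.Walk p q, w.length ≤ N := by
  induction N generalizing p m M with
  | zero =>
    obtain ⟨h1, h2, h3, h4, h5⟩ := h
    have h6 : m = M := by
      rcases abs_cases (p.2 - q.2) with h | h <;> omega
    obtain rfl : p = q := Prod.ext (Finset.ext fun e => h5 e (by omega)) (by omega)
    exact ⟨.nil, le_rfl⟩
  | succ N ih =>
    obtain ⟨h1, h2, h3, h4, h5⟩ := h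
    by_cases h0 : m = M
    · obtain rfl : p = q := Prod.ext (Finset.ext fun e => h5 e (by omega)) (by omega)
      exact ⟨.nil, Nat.zero_le _⟩
    have R : ∀ m' : ℤ, p.2 < M → m ≤ m' → m' ≤ p.2 + 1 → m' ≤ q.2 → (m' = m ∨ m = p.2) →
        2 * (M - m') - |p.2 + 1 - q.2| ≤ N → ∃ w : DL.Walk p q, w.length ≤ N + 1 := by
      intro m' a1 a2 a3 a4 a5 a6
      obtain ⟨w, hw⟩ := ih (cp p.1 q.1 p.2, p.2 + 1) m' M ⟨a3, a4, a1, h4, fun e he => by
        rw [mem_cp]
        split_ifs with a7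
        · rw [a7]
        · exact h5 e (by omega)⟩ a6
      exact ⟨.cons ((DL_adj _ _).2 (Or.inl ⟨rfl, fun e he => by simp [mem_cp, he]⟩)) w,
        by simpa using hw⟩
    have L : ∀ M' : ℤ, m < p.2 → M' ≤ M → p.2 - 1 ≤ M' → q.2 ≤ M' → (M' = M ∨ M = p.2) →
        2 * (M' - m) - |p.2 - 1 - q.2| ≤ N → ∃ w : DL.Walk p q, w.length ≤ N + 1 := by
      intro M' a1 a2 a3 a4 a5 a6
      obtain ⟨w, hw⟩ := ih (cp p.1 q.1 (p.2 - 1), p.2 - 1) m M' ⟨by simp only; omega, h2, a3, a4,
        fun e he => by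
        rw [mem_cp]
        split_ifs with a7
        · rw [a7]
        · exact h5 e (by omega)⟩ a6
      exact ⟨.cons ((DL_adj _ _).2 (Or.inr ⟨by simp, fun e he => by
        simp [mem_cp, show e ≠ p.2 - 1 from he]⟩)) w, by simpa using hw⟩
    simp only [Int.abs_eq_natAbs] at R L hN
    by_cases c1 : p.2 ≤ q.2 ∧ m < p.2
    · exact L M (by omega) le_rfl (by omega) h4 (Or.inl rfl) (by omega)
    by_cases c2 : q.2 ≤ p.2 ∧ p.2 < M
    · exact R m (by omega) le_rfl (by omega) h2 (Or.inl rfl) (by omega)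
    by_cases c3 : p.2 < q.2
    · exact R (m + 1) (by omega) (by omega) (by omega) (by omega) (by omega) (by omega)
    · exact L (M - 1) (by omega) (by omega) (by omega) (by omega) (by omega) (by omega)

lemma walk_ge {p q : W} (w : DL.Walk p q) :
    ∃ m M, adm p q m M ∧ 2 * (M - m) - |p.2 - q.2| ≤ w.length := by
  induction w with
  | nil => exact ⟨_, _, ⟨le_rfl, le_rfl, le_rfl, le_rfl, fun _ _ => Iff.rfl⟩, by simp⟩
  | @cons p p' q a w ih =>
    obtain ⟨m, M, ⟨h1, h2, h3, h4, h5⟩, h6⟩ := ih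
    simp only [Int.abs_eq_natAbs, SimpleGraph.Walk.length_cons] at *
    rcases (DL_adj _ _).1 a with ⟨a1, a2⟩ | ⟨a1, a2⟩
    · exact ⟨min m p.2, max M p.2, ⟨by omega, by omega, by omega, by omega, fun e he =>
        (a2 e (by omega)).trans (h5 e (by omega))⟩, by omega⟩
    · exact ⟨min m p.2, max M p.2, ⟨by omega, by omega, by omega, by omega, fun e he =>
        (a2 e (by omega)).symm.trans (h5 e (by omega))⟩, by omega⟩

lemma DL_conn : DL.Connected := by
  refine ⟨fun p q => ?_⟩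
  obtain ⟨m, hm⟩ := (insert p.2 (insert q.2 (p.1 ∪ q.1))).bddBelow
  obtain ⟨M, hM⟩ := (insert p.2 (insert q.2 (p.1 ∪ q.1))).bddAbove
  have h : ∀ e, e < m ∨ M + 1 ≤ e → e ∉ p.1 ∪ q.1 := fun e he h => by
    have := hm (show e ∈ _ by simpa using Or.inr (Or.inr (Finset.mem_union.1 h)))
    have := hM (show e ∈ _ by simpa using Or.inr (Or.inr (Finset.mem_union.1 h)))
    omega
  exact ⟨(walk_le _ p q m (M + 1) ⟨hm (by simp), hm (by simp), (hM (by simp)).trans (by omega),
    (hM (by simp)).trans (by omega), fun e he => by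
      have := h e he
      simp only [Finset.mem_union, not_or] at this
      simp [this]⟩ (Int.self_le_toNat _)).choose⟩

lemma dl_le {p q : W} {m M : ℤ} (h : adm p q m M) :
    (DL.dist p q : ℤ) + (p.2 - q.2).natAbs ≤ 2 * (M - m) := by
  obtain ⟨w, hw⟩ := walk_le _ p q m M h (Int.self_le_toNat _)
  have := SimpleGraph.dist_le w
  have := h.1
  have := h.2.1
  have := h.2.2.1
  have := h.2.2.2.1
  rw [Int.abs_eq_natAbs] at hw
  omega

lemma dl_ge (p q : W) : ∃ m M, adm p q m M ∧ 2 * (M - m) ≤ DL.dist p q + (p.2 - q.2).natAbs := by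
  obtain ⟨w, hw⟩ := DL_conn.exists_walk_length_eq_dist p q
  obtain ⟨m, M, h1, h2⟩ := walk_ge w
  rw [Int.abs_eq_natAbs] at h2
  exact ⟨m, M, h1, by omega⟩

lemma DL_fin (p : W) : (DL.neighborSet p).Finite := by
  have h : ∀ (f g : Finset ℤ) (x : ℤ), (∀ e, e ≠ x → (e ∈ f ↔ e ∈ g)) →
      g = insert x f ∨ g = f.erase x := fun f g x h => by
    by_cases hx : x ∈ g
    · refine Or.inl (Finset.ext fun e => ?_)
      by_cases he : e = x <;> simp [he, hx, h e]
    · refine Or.inr (Finset.ext fun e => ?_)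
      by_cases he : e = x <;> simp [he, hx, h e]
  refine (toFinite {(insert p.2 p.1, p.2 + 1), (p.1.erase p.2, p.2 + 1),
    (insert (p.2 - 1) p.1, p.2 - 1), (p.1.erase (p.2 - 1), p.2 - 1)}).subset fun q hq => ?_
  rcases (DL_adj _ _).1 hq with ⟨a1, a2⟩ | ⟨a1, a2⟩
  · rcases h _ _ _ a2 with e | e <;> simp [Prod.ext_iff, ← e, a1]
  · rcases h _ _ _ fun e he => (a2 e he).symm with e | e <;> simp [Prod.ext_iff, ← e, a1]

lemma DL_trans (p q : W) : ∃ φ : DL ≃g DL, φ p = q := by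
  let s : W ≃ W := (Equiv.addRight (q.2 - p.2)).finsetCongr.prodCongr (Equiv.addRight (q.2 - p.2))
  let g := symmDiff (s p).1 q.1
  let t : W ≃ W := (Function.Involutive.toPerm (fun f => symmDiff g f)
    (symmDiff_right_involutive g)).prodCongr (Equiv.refl ℤ)
  have hs : ∀ u v, rt (s u) (s v) ↔ rt u v := fun u v => by
    refine and_congr (by simp [s]; omega) ⟨fun h e he => ?_, fun h e he => ?_⟩
    · simpa [s, add_assoc] using h (e + (q.2 - p.2)) (by simpa [s] using he)
    · simpa [s] using h (e + -(q.2 - p.2)) (by simp [s] at he; omega)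
  have ht : ∀ u v, rt (t u) (t v) ↔ rt u v := fun u v => by
    refine and_congr Iff.rfl (forall₂_congr fun e _ => ?_)
    simp only [t, Equiv.prodCongr_apply, Prod.map_fst, Function.Involutive.coe_toPerm,
      Finset.mem_symmDiff]
    tauto
  refine ⟨⟨s.trans t, fun {u v} => by simp only [DL_adj, Equiv.trans_apply, hs, ht]⟩,
    Prod.ext ?_ (by simp [s, t])⟩
  change symmDiff g (s p).1 = q.1
  rw [symmDiff_comm, symmDiff_symmDiff_cancel_left]

/-- the root and six blocking sites -/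
def bl (L : ℤ) : Fin 7 → W :=
  ![(∅, 0), ({L}, 1), ({0, 2 * L}, 1), ({3 * L}, -1), ({-L - 1}, -1), ({-1, -2 * L - 1}, -1),
    ({-3 * L - 1}, 1)]

lemma DL_surv : surv DL ≤ (6 : ℕ) := by
  refine surv_le DL_conn DL_fin 6 fun d => ⟨(∅, 0), Finset.univ.image (bl (d + 2)),
    Finset.mem_image.2 ⟨0, Finset.mem_univ _, rfl⟩, Finset.card_image_le.trans (by simp),
    fun p hp q hq e => ?_, (ball_finite DL_conn DL_fin (∅, 0) (12 * d + 30)).subset fun u hu =>
      (?_ : DL.dist u (∅, 0) ≤ 12 * d + 30)⟩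
  · obtain ⟨i, -, rfl⟩ := Finset.mem_image.1 hp
    obtain ⟨j, -, rfl⟩ := Finset.mem_image.1 hq
    obtain ⟨m, M, ⟨h1, h2, h3, h4, h5⟩, h6⟩ := dl_ge (bl (d + 2) i) (bl (d + 2) j)
    have a1 := h5 (d + 2)
    have a2 := h5 (2 * (d + 2))
    have a3 := h5 (3 * (d + 2))
    have a4 := h5 (-(d + 2) - 1)
    have a5 := h5 (-2 * (d + 2) - 1)
    have a6 := h5 (-3 * (d + 2) - 1)
    generalize DL.dist _ _ = D at *
    clear h5 hp hq
    fin_cases i <;> fin_cases j <;> simp [bl] at * <;> omega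
  · obtain ⟨m, M, ⟨h1, h2, h3, h4, h5⟩, h6⟩ := dl_ge u (∅, 0)
    have h7 := dl_le ⟨h1, h2, h3, h4, h5⟩
    have k : ∀ (i : Fin 7) (m' M' : ℤ), adm u (bl (d + 2) i) m' M' → (DL.dist u (∅, 0) : ℤ) +
        (u.2 - (bl (d + 2) i).2).natAbs ≤ 2 * (M' - m') := fun i m' M' h => by
      have := dl_le h
      have := hu _ (Finset.mem_image.2 ⟨i, Finset.mem_univ _, rfl⟩)
      omega
    generalize DL.dist u (∅, 0) = D at *
    obtain ⟨f, n⟩ := u
    simp only [Finset.notMem_empty, iff_false] at *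
    by_contra h8
    have z : ∀ (i : Fin 7) (m' M' : ℤ), m' ≤ n → m' ≤ (bl (d + 2) i).2 → n ≤ M' →
        (bl (d + 2) i).2 ≤ M' → (∀ e, e < m' ∨ M' ≤ e → (e < m ∨ M ≤ e) ∧ e ∉ (bl (d + 2) i).1 ∨
          (e ∈ f ↔ e ∈ (bl (d + 2) i).1)) →
        (D : ℤ) + (n - (bl (d + 2) i).2).natAbs ≤ 2 * (M' - m') := fun i m' M' a1 a2 a3 a4 a5 =>
      k i m' M' ⟨a1, a2, a3, a4, fun e he => (a5 e he).elim
        (fun h => iff_of_false (h5 e h.1) h.2) id⟩
    have z1 := z 1
    have z2 := z 2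
    have z3 := z 3
    have z4 := z 4
    have z5 := z 5
    have z6 := z 6
    simp only [bl, Matrix.cons_val, Finset.mem_singleton, Finset.mem_insert] at z1 z2 z3 z4 z5 z6
    by_cases c1 : 3 * (d + 2) < M
    · by_cases c2 : n ≤ 0
      · have := z1 m M h1 (by omega) h3 (by omega) fun e he => Or.inl (by omega)
        omega
      by_cases c3 : m < 0
      · have := z3 m M h1 (by omega) h3 (by omega) fun e he => Or.inl (by omega)
        omega
      by_cases c4 : (0 : ℤ) ∈ f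
      · have := z2 1 M (by omega) (by omega) h3 (by omega) fun e he =>
          if a : e = 0 then Or.inr (iff_of_true (a ▸ c4) (Or.inl a)) else Or.inl (by omega)
        omega
      · have := z1 1 M (by omega) (by omega) h3 (by omega) fun e he =>
          if a : e = 0 then Or.inr (iff_of_false (a ▸ c4) (by omega)) else Or.inl (by omega)
        omega
    · by_cases c2 : 0 ≤ n
      · have := z4 m M h1 (by omega) h3 (by omega) fun e he => Or.inl (by omega)
        omega
      by_cases c3 : 0 < M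
      · have := z6 m M h1 (by omega) h3 (by omega) fun e he => Or.inl (by omega)
        omega
      by_cases c4 : (-1 : ℤ) ∈ f
      · have := z5 m (-1) h1 (by omega) (by omega) (by omega) fun e he =>
          if a : e = -1 then Or.inr (iff_of_true (a ▸ c4) (Or.inl a)) else Or.inl (by omega)
        omega
      · have := z4 m (-1) h1 (by omega) (by omega) (by omega) fun e he =>
          if a : e = -1 then Or.inr (iff_of_false (a ▸ c4) (by omega)) else Or.inl (by omega)
        omega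

lemma pick (B : Finset W) (x : ℤ) : ∃ y, x ≤ y ∧ y ≤ x + B.card ∧
    ∀ b ∈ B, ∃ e, x ≤ e ∧ e ≤ x + B.card ∧ ¬ (e = y ↔ e ∈ b.1) := by
  obtain ⟨_, x1, x2⟩ := Finset.exists_mem_notMem_of_card_lt_card
    (s := B.image fun b => b.1.filter fun e => x ≤ e ∧ e ≤ x + B.card)
    (t := (Finset.Icc x (x + B.card)).image fun y => {y}) (Finset.card_image_le.trans_lt (by
      rw [Finset.card_image_of_injective _ Finset.singleton_injective, Int.card_Icc]
      omega))
  obtain ⟨y, hy, rfl⟩ := Finset.mem_image.1 x1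
  obtain ⟨y1, y2⟩ := Finset.mem_Icc.1 hy
  refine ⟨y, y1, y2, fun b hb => ?_⟩
  by_contra h
  push Not at h
  refine x2 (Finset.mem_image.2 ⟨b, hb, Finset.ext fun e => ?_⟩)
  rw [Finset.mem_filter, Finset.mem_singleton]
  exact ⟨fun a => (h e a.2.1 a.2.2).2 a.1, fun a => ⟨(h e (by omega) (by omega)).1 a, by omega⟩⟩

lemma left (B : Finset W) (v : W) (h : (cell DL B v).Finite) : ∃ b ∈ B, v.2 ≤ b.2 ∧
    b.2 ≤ v.2 + 2 * B.card ∧ ∀ e, e < v.2 → (e ∈ v.1 ↔ e ∈ b.1) := by
  obtain ⟨y, y1, y2, y3⟩ := pick B v.2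
  let f := insert y (v.1.filter fun e => e < v.2 ∨ v.2 + B.card < e)
  obtain ⟨_, ⟨t, rfl⟩, ht⟩ := (infinite_range_of_injective (f := fun t : ℕ =>
    (f, v.2 + B.card + 1 + t)) fun s t e => by simpa using e).exists_notMem_finite h
  simp only [cell, mem_setOf_eq, not_forall, not_le] at ht
  obtain ⟨b, hb, h1⟩ := ht
  obtain ⟨e, e1, e2, e3⟩ := y3 b hb
  have h2 := dl_le (p := (f, v.2 + B.card + 1 + t)) (q := v) (m := v.2)
    (M := v.2 + B.card + 1 + t) ⟨by simp only; omega, le_rfl, le_rfl, by omega, fun e he => by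
      simp only [f, Finset.mem_insert, Finset.mem_filter]
      exact ⟨fun a => a.elim (fun a => by omega) And.left, fun a => Or.inr ⟨a, by omega⟩⟩⟩
  obtain ⟨m, M, ⟨a1, a2, a3, a4, a5⟩, a6⟩ := dl_ge (f, v.2 + B.card + 1 + t) b
  have h3 : m ≤ e := not_lt.1 fun a => e3 (Iff.trans (by
    simp only [f, Finset.mem_insert, Finset.mem_filter]
    exact ⟨Or.inl, fun a => a.elim id fun a => by omega⟩) (a5 e (Or.inl a)))
  simp only at *
  refine ⟨b, hb, by omega, by omega, fun x hx => Iff.trans ?_ (a5 x (by omega))⟩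
  simp only [f, Finset.mem_insert, Finset.mem_filter]
  exact ⟨fun a => Or.inr ⟨a, by omega⟩, fun a => a.elim (fun a => by omega) And.left⟩

lemma right (B : Finset W) (v : W) (h : (cell DL B v).Finite) : ∃ b ∈ B,
    ∀ e, v.2 ≤ e → (e ∈ v.1 ↔ e ∈ b.1) := by
  obtain ⟨y, y1, y2, y3⟩ := pick B (v.2 - B.card - 1)
  let f := insert y (v.1.filter fun e => e < v.2 - B.card - 1 ∨ v.2 ≤ e)
  obtain ⟨_, ⟨t, rfl⟩, ht⟩ := (infinite_range_of_injective (f := fun t : ℕ =>
    (f, v.2 - B.card - 1 - t)) fun s t e => by simpa using e).exists_notMem_finite h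
  simp only [cell, mem_setOf_eq, not_forall, not_le] at ht
  obtain ⟨b, hb, h1⟩ := ht
  obtain ⟨e, e1, e2, e3⟩ := y3 b hb
  have h2 := dl_le (p := (f, v.2 - B.card - 1 - t)) (q := v) (M := v.2)
    (m := v.2 - B.card - 1 - t) ⟨le_rfl, by omega, by simp only; omega, le_rfl, fun e he => by
      simp only [f, Finset.mem_insert, Finset.mem_filter]
      exact ⟨fun a => a.elim (fun a => by omega) And.left, fun a => Or.inr ⟨a, by omega⟩⟩⟩
  obtain ⟨m, M, ⟨a1, a2, a3, a4, a5⟩, a6⟩ := dl_ge (f, v.2 - B.card - 1 - t) b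
  have h3 : e < M := not_le.1 fun a => e3 (Iff.trans (by
    simp only [f, Finset.mem_insert, Finset.mem_filter]
    exact ⟨Or.inl, fun a => a.elim id fun a => by omega⟩) (a5 e (Or.inr a)))
  simp only at *
  refine ⟨b, hb, fun x hx => Iff.trans ?_ (a5 x (by omega))⟩
  simp only [f, Finset.mem_insert, Finset.mem_filter]
  exact ⟨fun a => Or.inr ⟨a, by omega⟩, fun a => a.elim (fun a => by omega) And.left⟩

lemma DL_many (K : ℕ) (T : Finset W) (h : infCells DL T ≤ K) :
    T.card ≤ K + K * (K * (2 * K + 1)) := by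
  obtain ⟨B, -, b2, b3⟩ := reduce (G := DL) T
  have h1 : T ⊆ B ∪ (B ×ˢ B ×ˢ Finset.range (2 * K + 1)).image fun t =>
      (t.1.1.filter (· < t.1.2 - t.2.2) ∪ t.2.1.1.filter (t.1.2 - t.2.2 ≤ ·), t.1.2 - t.2.2) := by
    intro v hv
    by_cases hB : v ∈ B
    · exact Finset.mem_union_left _ hB
    obtain ⟨b, l1, l2, l3, l4⟩ := left B v (b3 v hv hB)
    obtain ⟨c, r1, r2⟩ := right B v (b3 v hv hB)
    have h2 : b.2 - ((b.2 - v.2).toNat : ℤ) = v.2 := by omega
    refine Finset.mem_union_right _ (Finset.mem_image.2 ⟨(b, c, (b.2 - v.2).toNat),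
      Finset.mem_product.2 ⟨l1, Finset.mem_product.2 ⟨r1, Finset.mem_range.2 (by
        simp only; omega)⟩⟩, Prod.ext (Finset.ext fun e => ?_) h2⟩)
    simp only [h2, Finset.mem_union, Finset.mem_filter]
    rcases lt_or_ge e v.2 with a | a
    · simp [a, l4 e a, a.not_ge]
    · simp [a, r2 e a, a.not_gt]
  have h3 := (Finset.card_le_card h1).trans ((Finset.card_union_le _ _).trans
    (add_le_add le_rfl Finset.card_image_le))
  simp only [Finset.card_product, Finset.card_range] at h3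
  have h4 : B.card ≤ K := b2 ▸ h
  exact h3.trans (by gcongr)

end Pool.Agent.Lib.helper23.Vor
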