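import Mathlib
import Pool.Agent.Lib.helper23.VorB

set_option autoImplicit false

open Set

namespace Pool.Agent.Lib.helper23.Vor

lemma two_le {V : Type} {G : SimpleGraph V} [Infinite V] (hc : G.Connected)
    (hf : ∀ v, (G.neighborSet v).Finite) (ht : ∀ u v, ∃ φ : G ≃g G, φ u = v) : 2 ≤ surv G := by
  refine le_iSup₂_of_le 2 ⟨one_le_two, 0, fun T h1 _ => ?_⟩ le_rfl
  obtain ⟨B, -, b2, b3⟩ := reduce (G := G) T
  by_contra h3
  obtain ⟨v, v1, v2⟩ := Finset.exists_mem_notMem_of_card_lt_card (show B.card < T.card by omega)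
  obtain ⟨b, hb⟩ := Finset.card_le_one_iff_subset_singleton.1 (show B.card ≤ 1 by omega)
  obtain ⟨M, hM⟩ := ((b3 v v1 v2).image (G.dist v)).bddAbove
  obtain ⟨y, z, p, p1, p2, p3, p4⟩ := mid hc hf ht v (M + 1)
  have h4 := (geo hc p p1 p2).1
  have h5 := hc.dist_triangle (u := y) (v := b) (w := z)
  have k : ∀ u, G.dist u v ≤ G.dist u b → G.dist v u ≤ M := fun u hu =>
    hM (mem_image_of_mem _ fun w hw => (Finset.mem_singleton.1 (hb hw)).symm ▸ hu)
  have h6 := k y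
  have h7 := k z
  rw [SimpleGraph.dist_comm (u := v)] at h6
  rw [SimpleGraph.dist_comm (u := z), SimpleGraph.dist_comm (u := z)] at h7
  omega

lemma dist_pt {V : Type} {G : SimpleGraph V} (o : V) (D : V → ℤ) (h0 : D o = 0)
    (hn : ∀ p, 0 ≤ D p) (h1 : ∀ p q, G.Adj p q → D p ≤ D q + 1)
    (h2 : ∀ p, p ≠ o → ∃ q, G.Adj p q ∧ D q < D p) :
    G.Connected ∧ ∀ p, (G.dist p o : ℤ) = D p := by
  have h3 : ∀ (n : ℕ) p, D p ≤ n → ∃ w : G.Walk p o, w.length ≤ n := by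
    intro n
    induction n with
    | zero =>
      intro p h
      obtain rfl : p = o := by
        by_contra e
        obtain ⟨q, -, e'⟩ := h2 p e
        have := hn q
        omega
      exact ⟨.nil, le_rfl⟩
    | succ n ih =>
      intro p h
      by_cases e : p = o
      · subst e
        exact ⟨.nil, Nat.zero_le _⟩
      · obtain ⟨q, a, e'⟩ := h2 p e
        obtain ⟨w, hw⟩ := ih q (by omega)
        exact ⟨.cons a w, Nat.succ_le_succ hw⟩
  have h5 : ∀ p, G.Reachable p o := fun p => ⟨(h3 _ p (Int.self_le_toNat _)).choose⟩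
  haveI : Nonempty V := ⟨o⟩
  have h4 : G.Connected := ⟨fun p q => (h5 p).trans (h5 q).symm⟩
  refine ⟨h4, fun p => le_antisymm ?_ ?_⟩
  · have := (SimpleGraph.dist_le _).trans (h3 _ p (Int.self_le_toNat _)).choose_spec
    have := hn p
    omega
  · obtain ⟨w, hw⟩ := h4.exists_walk_length_eq_dist p o
    rw [← hw]
    clear hw h2 h3 h5
    induction w with
    | nil => exact h0.le
    | cons a w ih =>
      have := h1 _ _ a
      have := ih h0
      rw [SimpleGraph.Walk.length_cons]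
      omega

abbrev X := Fin 6 × ℤ × ℤ

/-- the voltage table of the periodic graph -/
def tb : Fin 6 → Fin 4 → X :=
  ![![(1, 0, 0), (5, 0, 0), (3, 0, 1), (3, -1, 1)], ![(0, 0, 0), (2, 0, 0), (4, -1, 0), (4, -1, 1)],
    ![(3, 0, 0), (1, 0, 0), (5, -1, 0), (5, 0, -1)], ![(2, 0, 0), (4, 0, 0), (0, 1, -1), (0, 0, -1)],
    ![(5, 0, 0), (3, 0, 0), (1, 1, -1), (1, 1, 0)], ![(4, 0, 0), (0, 0, 0), (2, 0, 1), (2, 1, 0)]]

def mv (s : Fin 4) (p : X) : X := ((tb p.1 s).1, p.2.1 + (tb p.1 s).2.1, p.2.2 + (tb p.1 s).2.2)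

/-- hexagons at the points of a lattice, joined by zigzag lines -/
def H : SimpleGraph X := SimpleGraph.fromRel fun p q => ∃ s, q = mv s p

lemma H_adj (p q : X) : H.Adj p q ↔ ∃ s, q = mv s p := by
  rw [H, SimpleGraph.fromRel_adj]
  refine ⟨fun h => h.2.elim id ?_, fun ⟨s, h⟩ => ⟨fun e => ?_, Or.inl ⟨s, h⟩⟩⟩
  · rintro ⟨s, rfl⟩
    refine ⟨![0, 1, 3, 2] s, ?_⟩
    obtain ⟨k, i, j⟩ := q
    fin_cases k <;> fin_cases s <;> simp [mv, tb]
  · have h1 : ∀ k s, (tb k s).1 ≠ k := by decide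
    exact h1 p.1 s (congrArg Prod.fst (e.trans h)).symm

def cs : Fin 6 → Fin 6 → ℤ :=
  ![![0, 0, 2, 2, 0, 0], ![1, 1, 1, 1, -1, 1], ![0, 0, 0, 2, 0, 2], ![1, -1, 1, 3, -1, 1],
    ![2, 0, 0, 2, 0, 0], ![1, -1, 1, 1, 1, 1]]

/-- the generic distance to the origin -/
def N0 (p : X) : ℤ :=
  max (max (max (2 * p.2.1 + cs p.1 0) (-2 * p.2.1 + cs p.1 1))
    (max (2 * p.2.2 + cs p.1 2) (-2 * p.2.2 + cs p.1 3)))
    (max (2 * (p.2.1 + p.2.2) + cs p.1 4) (-2 * (p.2.1 + p.2.2) + cs p.1 5))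

/-- the three exceptional points -/
def Ex (p : X) : Prop := p = (0, 0, 0) ∨ p = (3, 0, 1) ∨ p = (3, -1, 1)

instance : DecidablePred Ex := fun p => inferInstanceAs (Decidable (_ ∨ _))

/-- the distance to the origin -/
def N (p : X) : ℤ := if Ex p then N0 p - 2 else N0 p

lemma six (k : Fin 6) : k = 0 ∨ k = 1 ∨ k = 2 ∨ k = 3 ∨ k = 4 ∨ k = 5 := by
  revert k
  decide

lemma four (k : Fin 4) : k = 0 ∨ k = 1 ∨ k = 2 ∨ k = 3 := by
  revert k
  decide

lemma N0_ge (p : X) : 2 * p.2.1 + cs p.1 0 ≤ N0 p ∧ -2 * p.2.1 + cs p.1 1 ≤ N0 p ∧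
    2 * p.2.2 + cs p.1 2 ≤ N0 p ∧ -2 * p.2.2 + cs p.1 3 ≤ N0 p ∧
    2 * (p.2.1 + p.2.2) + cs p.1 4 ≤ N0 p ∧ -2 * (p.2.1 + p.2.2) + cs p.1 5 ≤ N0 p := by
  simpa only [N0, max_le_iff, and_assoc] using le_refl (N0 p)

lemma N0_eq (p : X) : N0 p ≤ 2 * p.2.1 + cs p.1 0 ∨ N0 p ≤ -2 * p.2.1 + cs p.1 1 ∨
    N0 p ≤ 2 * p.2.2 + cs p.1 2 ∨ N0 p ≤ -2 * p.2.2 + cs p.1 3 ∨
    N0 p ≤ 2 * (p.2.1 + p.2.2) + cs p.1 4 ∨ N0 p ≤ -2 * (p.2.1 + p.2.2) + cs p.1 5 := by
  have h := le_refl (N0 p)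
  nth_rw 2 [N0] at h
  simpa only [le_max_iff, or_assoc] using h

lemma N_le (p : X) : N p ≤ N0 p := by
  unfold N
  split_ifs <;> omega

lemma N0_lip (s : Fin 4) (p : X) : N0 (mv s p) ≤ N0 p + 1 := by
  have h := N0_ge p
  generalize N0 p = M at *
  obtain ⟨k, i, j⟩ := p
  rcases six k with rfl | rfl | rfl | rfl | rfl | rfl <;> rcases four s with rfl | rfl | rfl | rfl <;>
    simp only [N0, cs, mv, tb, Matrix.cons_val, max_le_iff] at h ⊢ <;> omega

lemma H_dist : H.Connected ∧ ∀ p, (H.dist p (0, 0, 0) : ℤ) = N p := by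
  refine dist_pt _ N (by decide) (fun p => ?_) (fun p q h => ?_) fun p h => ?_
  · by_cases e : Ex p
    · rcases e with rfl | rfl | rfl <;> decide
    · have h := N0_ge p
      have h1 : ∀ k, 0 ≤ cs k 0 + cs k 1 := by decide
      have := h1 p.1
      rw [N, if_neg e]
      omega
  · obtain ⟨s, rfl⟩ := (H_adj _ _).1 h.symm
    by_cases e : Ex q
    · clear h
      revert s
      rcases e with rfl | rfl | rfl <;> decide
    · rw [show N q = N0 q from if_neg e]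
      exact (N_le _).trans (N0_lip s q)
  · suffices ∃ s, N (mv s p) < N p from
      this.imp' (fun s => mv s p) fun s hs => ⟨(H_adj _ _).2 ⟨s, rfl⟩, hs⟩
    by_cases e : Ex p
    · rcases e with rfl | rfl | rfl
      · exact (h rfl).elim
      all_goals decide
    by_cases e' : N0 p ≤ 3
    · have h1 : ∀ k : Fin 6, ∀ i ∈ Finset.Icc (-2 : ℤ) 2, ∀ j ∈ Finset.Icc (-2 : ℤ) 2,
          (k, i, j) ≠ (0, 0, 0) → ∃ s, N (mv s (k, i, j)) < N (k, i, j) := by decide
      have h2 := N0_ge p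
      have h3 : ∀ k a, -1 ≤ cs k a := by decide
      have := h3 p.1 0
      have := h3 p.1 1
      have := h3 p.1 2
      have := h3 p.1 3
      exact h1 p.1 p.2.1 (Finset.mem_Icc.2 (by omega)) p.2.2 (Finset.mem_Icc.2 (by omega)) h
    suffices N0 (mv 0 p) < N0 p ∨ N0 (mv 1 p) < N0 p ∨ N0 (mv 2 p) < N0 p ∨ N0 (mv 3 p) < N0 p by
      rw [show N p = N0 p from if_neg e]
      rcases this with h | h | h | h <;> exact ⟨_, (N_le _).trans_lt h⟩
    have h1 := N0_ge p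
    have h2 := N0_eq p
    generalize N0 p = M at *
    obtain ⟨k, i, j⟩ := p
    clear e h
    rcases six k with rfl | rfl | rfl | rfl | rfl | rfl <;>
      simp only [N0, cs, mv, tb, Matrix.cons_val, max_lt_iff] at h1 h2 ⊢ <;> omega

lemma H_fin (p : X) : (H.neighborSet p).Finite :=
  (finite_range fun s => mv s p).subset fun q hq => ((H_adj p q).1 hq).imp fun _ h => h.symm

/-- bijections commuting with the moves are automorphisms -/
def iso (e : X ≃ X) (h : ∀ s p, e (mv s p) = mv s (e p)) : H ≃g H :=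
  ⟨e, fun {p q} => by simp only [H_adj, ← h, e.apply_eq_iff_eq]⟩

def tr (a b : ℤ) : H ≃g H :=
  iso ((Equiv.refl _).prodCongr ((Equiv.addRight a).prodCongr (Equiv.addRight b))) fun s p => by
    simp [mv, add_right_comm]

def fA (p : X) : X := (![1, 0, 5, 4, 3, 2] p.1, -p.2.2, -p.2.1)

def fC (p : X) : X := (![5, 4, 3, 2, 1, 0] p.1, -p.2.1, p.2.1 + p.2.2)

def rA : H ≃g H := iso (Function.Involutive.toPerm fA fun ⟨k, i, j⟩ => by
    rcases six k with rfl | rfl | rfl | rfl | rfl | rfl <;> simp [fA]) fun s ⟨k, i, j⟩ => by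
  rcases six k with rfl | rfl | rfl | rfl | rfl | rfl <;> rcases four s with rfl | rfl | rfl | rfl <;>
    simp [fA, mv, tb] <;> omega

def rC : H ≃g H := iso (Function.Involutive.toPerm fC fun ⟨k, i, j⟩ => by
    rcases six k with rfl | rfl | rfl | rfl | rfl | rfl <;> simp [fC]) fun s ⟨k, i, j⟩ => by
  rcases six k with rfl | rfl | rfl | rfl | rfl | rfl <;> rcases four s with rfl | rfl | rfl | rfl <;>
    simp [fC, mv, tb] <;> omega

lemma tr_apply (a b : ℤ) (p : X) : tr a b p = (p.1, p.2.1 + a, p.2.2 + b) := rfl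

lemma H_trans (p q : X) : ∃ φ : H ≃g H, φ p = q := by
  have h : ∀ p : X, ∃ φ : H ≃g H, φ (0, 0, 0) = p := fun ⟨k, i, j⟩ => by
    have h1 : ∃ φ : H ≃g H, φ (0, 0, 0) = (k, 0, 0) := by
      rcases six k with rfl | rfl | rfl | rfl | rfl | rfl
      exacts [⟨.refl, rfl⟩, ⟨rA, rfl⟩, ⟨rC.trans rA, rfl⟩, ⟨rA.trans (rC.trans rA), rfl⟩,
        ⟨rA.trans rC, rfl⟩, ⟨rC, rfl⟩]
    obtain ⟨φ, h1⟩ := h1
    exact ⟨φ.trans (tr i j), by simp [h1, tr_apply]⟩
  obtain ⟨φ, rfl⟩ := h p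
  obtain ⟨ψ, rfl⟩ := h q
  exact ⟨φ.symm.trans ψ, by simp⟩

lemma dA (L : ℤ) (u : X) : (H.dist u (1, L, 0) : ℤ) = N (fA (tr (-L) 0 u)) := by
  rw [← H_dist.2, ← iso_dist H_dist.1 ((tr (-L) 0).trans rA)]
  congr 2
  change fA (1, L + -L, 0 + 0) = _
  simp [fA]

lemma dC (L : ℤ) (u : X) : (H.dist u (5, -L, 0) : ℤ) = N (fC (tr L 0 u)) := by
  rw [← H_dist.2, ← iso_dist H_dist.1 ((tr L 0).trans rC)]
  congr 2
  change fC (5, -L + L, 0 + 0) = _
  simp [fC]

lemma N_ge (p : X) : N0 p - 2 ≤ N p := by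
  unfold N
  split_ifs <;> omega

lemma H_surv : surv H = 2 := by
  refine le_antisymm (surv_le H_dist.1 H_fin 2 fun d => ⟨(0, 0, 0),
    {(0, 0, 0), (1, (d : ℤ) + 2, 0), (5, -((d : ℤ) + 2), 0)}, by simp, Finset.card_le_three, ?_,
    (ball_finite H_dist.1 H_fin (0, 0, 0) (4 * d + 8)).subset fun u hu =>
      (not_lt.1 fun h => ?_ : H.dist u (0, 0, 0) ≤ 4 * d + 8)⟩) (two_le H_dist.1 H_fin H_trans)
  · have h1 : d < H.dist (0, 0, 0) (1, d + 2, 0) := by
      have := dA (d + 2) (0, 0, 0)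
      have := N_ge (fA (tr (-(d + 2)) 0 (0, 0, 0)))
      have := (N0_ge (fA (tr (-(d + 2)) 0 (0, 0, 0)))).2.2.1
      simp only [fA, tr_apply, cs, Matrix.cons_val] at *
      omega
    have h2 : d < H.dist (0, 0, 0) (5, -(d + 2), 0) := by
      have := dC (d + 2) (0, 0, 0)
      have := N_ge (fC (tr (d + 2) 0 (0, 0, 0)))
      have := (N0_ge (fC (tr (d + 2) 0 (0, 0, 0)))).2.2.1
      simp only [fC, tr_apply, cs, Matrix.cons_val] at *
      omega
    have h3 : d < H.dist (1, d + 2, 0) (5, -(d + 2), 0) := by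
      have := dC (d + 2) (1, d + 2, 0)
      have := N_ge (fC (tr (d + 2) 0 (1, d + 2, 0)))
      have := (N0_ge (fC (tr (d + 2) 0 (1, d + 2, 0)))).2.2.1
      simp only [fC, tr_apply, cs, Matrix.cons_val] at *
      omega
    simp only [Finset.mem_insert, Finset.mem_singleton]
    rintro _ (rfl | rfl | rfl) _ (rfl | rfl | rfl) e <;>
      first | exact (e rfl).elim | assumption | rwa [SimpleGraph.dist_comm]
  · have h1 := (Int.ofNat_le.2 (hu (1, d + 2, 0) (by simp))).trans ((dA _ u).trans_le (N_le _))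
    have h2 := (Int.ofNat_le.2 (hu (5, -(d + 2), 0) (by simp))).trans ((dC _ u).trans_le (N_le _))
    have h3 := H_dist.2 u
    have e : ¬ Ex u := fun e => by
      have : N u ≤ 1 := by rcases e with rfl | rfl | rfl <;> decide
      omega
    rw [show N u = N0 u from if_neg e] at h3
    have h4 := N0_ge u
    have h5 := N0_eq u
    rw [← h3] at h4 h5
    generalize H.dist u (0, 0, 0) = M at *
    obtain ⟨k, i, j⟩ := u
    clear e hu h3
    rcases six k with rfl | rfl | rfl | rfl | rfl | rfl <;>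
      simp only [N0, cs, fA, fC, tr_apply, Matrix.cons_val, le_max_iff] at h1 h2 h4 h5 <;> omega

lemma H_growth (v : X) (a b : ℕ) : ∃ r, a * r + b < {u | H.dist v u ≤ r}.ncard := by
  obtain ⟨m, hm⟩ : ∃ m, m = 6 * a + b + 1 := ⟨_, rfl⟩
  refine ⟨4 * m + 2, ?_⟩
  rw [ball_card H_dist.1 H_trans v (0, 0, 0)]
  have h1 := ncard_le_ncard_of_injOn (s := ((Finset.range m ×ˢ Finset.range m : Finset (ℕ × ℕ)) :
    Set (ℕ × ℕ)))
    (t := {u | H.dist (0, 0, 0) u ≤ 4 * m + 2}) (fun t => (0, t.1, t.2)) (fun t ht => by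
      simp only [Finset.coe_product, Finset.coe_range, mem_prod, mem_Iio] at ht
      have h2 := (H_dist.2 (0, t.1, t.2)).trans_le (N_le _)
      have h3 : N0 (0, t.1, t.2) ≤ 4 * m + 2 := by
        simp only [N0, cs, Matrix.cons_val, max_le_iff]
        omega
      rw [mem_setOf_eq, SimpleGraph.dist_comm]
      omega) (fun s _ t _ e => by simpa [Prod.ext_iff] using e) (by
      exact (ball_finite H_dist.1 H_fin (0, 0, 0) _).subset fun u hu =>
        SimpleGraph.dist_comm.trans_le hu)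
  rw [ncard_coe_finset, Finset.card_product, Finset.card_range] at h1
  nlinarith

end Pool.Agent.Lib.helper23.Vor
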